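import Mathlib

/-! Multiple disks, part A (several modules joined). -/

section S_Defs

/-!
# Uniqueness for multiple disks (class (c) of MP_2de571_an): basic definitions

Generalised disks `{z | a‖z‖² + 2 Re(conj b * z) + d < 0}`, their reflections, harmonic extension
across the unit circle, and the local data `NL` of a transmission problem.
-/

namespace MD12

open Complex Metric Set Filter Topology InnerProductSpace
open scoped ComplexConjugate

/-- generalised disk (a disk, a half plane or the complement of a closed disk) -/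
structure GD where
  /-- coefficient of `‖z‖²` -/
  a : ℝ
  /-- linear coefficient -/
  b : ℂ
  /-- constant coefficient -/
  d : ℝ
  /-- the circle is not empty -/
  pos : a * d < ‖b‖ ^ 2

/-- the quadratic form; the disk is `{Q < 0}`, the circle is `{Q = 0}` -/
noncomputable def GD.Q (C : GD) (z : ℂ) : ℝ := C.a * ‖z‖ ^ 2 + 2 * (conj C.b * z).re + C.d

/-- the reflection in the circle -/
noncomputable def GD.R (C : GD) (z : ℂ) : ℂ := -(C.b * conj z + C.d) / (C.a * conj z + conj C.b)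

/-- the denominator of the reflection -/
noncomputable def GD.den (C : GD) (z : ℂ) : ℂ := C.a * conj z + conj C.b

/-- the harmonic function `f` on the unit disk extends harmonically near the point `x` of the
unit circle -/
def Ext (f : ℂ → ℝ) (x : ℂ) : Prop :=
  ∃ g : ℂ → ℝ, HarmonicAt g x ∧ ∀ᶠ z in 𝓝 x, ‖z‖ < 1 → g z = f z

/-- Local data of a transmission problem on the open set `B`: the inclusions are the generalised
disks of `I`, `K` is the complement of the domain, `V` is the solution outside the inclusions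
(harmonically extended a bit across the circles), `γ = (1-k)/(1+k)`, `κ = 2k/(1+k)`. -/
structure NL (γ κ : ℝ) (B K : Set ℂ) (V : ℂ → ℝ) (I : Finset GD) : Prop where
  /-- the closed disks are disjoint -/
  dis : ∀ C ∈ I, ∀ C' ∈ I, C ≠ C' → ∀ z ∈ B, C.Q z ≤ 0 → 0 < C'.Q z
  /-- the closed disks do not meet `K` -/
  disK : ∀ C ∈ I, ∀ z ∈ B, z ∈ K → 0 < C.Q z
  /-- `V` is harmonic near the points outside the open disks and outside `K` -/
  har : ∀ z ∈ B, z ∉ K → (∀ C ∈ I, 0 ≤ C.Q z) → HarmonicAt V z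
  /-- the transmission condition in reflected form -/
  ts : ∀ C ∈ I, ∃ h : ℂ → ℝ, (∀ z ∈ B, C.Q z < 0 → HarmonicAt h z) ∧
    ∀ y ∈ B, C.Q y = 0 → ∀ᶠ z in 𝓝 y, C.Q z < 0 → V z - γ * V (C.R z) = κ * h z

/-- a disk `C` of the family is good for `U` if `U = V` near a point of its circle inside the unit
disk -/
def Good (U V : ℂ → ℝ) (C : GD) : Prop := ∃ y, ‖y‖ < 1 ∧ C.Q y = 0 ∧ U =ᶠ[𝓝 y] V

/-- the circles of `C` and `C'` are different and meet inside the unit disk (both orthogonal to the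
unit circle in the applications) -/
def Cross (C C' : GD) : Prop :=
  ∃ o, ‖o‖ < 1 ∧ C.Q o = 0 ∧ C'.Q o = 0 ∧ ∃ e, ‖e‖ = 1 ∧ C.Q e = 0 ∧ C'.Q e ≠ 0

/-- pull back of a generalised disk under `w ↦ (p w + q) / (r w + s)` -/
noncomputable def GD.pull (p q r s : ℂ) (h : p * s - q * r ≠ 0) (C : GD) : GD where
  a := C.a * ‖p‖ ^ 2 + 2 * (conj C.b * p * conj r).re + C.d * ‖r‖ ^ 2
  b := C.a * (conj p * q) + C.b * (conj p * s) + conj C.b * (q * conj r) + C.d * (conj r * s)
  d := C.a * ‖q‖ ^ 2 + 2 * (conj C.b * q * conj s).re + C.d * ‖s‖ ^ 2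
  pos := by
    have key : ‖C.a * (conj p * q) + C.b * (conj p * s) + conj C.b * (q * conj r) +
        C.d * (conj r * s)‖ ^ 2 -
        (C.a * ‖p‖ ^ 2 + 2 * (conj C.b * p * conj r).re + C.d * ‖r‖ ^ 2) *
          (C.a * ‖q‖ ^ 2 + 2 * (conj C.b * q * conj s).re + C.d * ‖s‖ ^ 2) =
        ‖p * s - q * r‖ ^ 2 * (‖C.b‖ ^ 2 - C.a * C.d) := by
      simp only [← Complex.normSq_eq_norm_sq, Complex.normSq_apply, Complex.add_re,
        Complex.add_im, Complex.mul_re, Complex.mul_im, Complex.conj_re, Complex.conj_im,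
        Complex.ofReal_re, Complex.ofReal_im, Complex.sub_re, Complex.sub_im]
      ring
    have h1 : 0 < ‖p * s - q * r‖ ^ 2 := by
      have := norm_pos_iff.mpr h
      positivity
    nlinarith [mul_pos h1 (sub_pos.mpr C.pos)]

/-- pull back under complex conjugation -/
noncomputable def GD.cj (C : GD) : GD where
  a := C.a
  b := conj C.b
  d := C.d
  pos := by simpa using C.pos

/-- the euclidean disk `ball c ρ` -/
noncomputable def disk (c : ℂ) (ρ : ℝ) (h : 0 < ρ) : GD where
  a := 1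
  b := -c
  d := ‖c‖ ^ 2 - ρ ^ 2
  pos := by
    rw [norm_neg]
    nlinarith [pow_pos h 2]

/-- the half plane `{Im (e^{-iθ} z) > 0}` -/
noncomputable def hp (θ : ℝ) : GD where
  a := 0
  b := -(I * exp (θ * I))
  d := 0
  pos := by simp [Complex.norm_exp_ofReal_mul_I]

end MD12

end S_Defs

section S_Alg

/-! # ALG: algebra of generalised disks (complete, helper12) -/

namespace MD12

open Complex Metric Set Filter Topology InnerProductSpace
open scoped ComplexConjugate

theorem GD.norm_R_mul (C : GD) {z : ℂ} (h : C.den z ≠ 0) :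
    ‖C.R z‖ ^ 2 * ‖C.den z‖ ^ 2 = ‖C.b * conj z + C.d‖ ^ 2 := by
  unfold GD.R
  rw [norm_div, div_pow, norm_neg]
  exact div_mul_cancel₀ _ (by have := norm_pos_iff.mpr h; positivity)

/-- the key identity for `‖R z‖² - 1` -/
theorem GD.norm_R_sub_one (C : GD) {z : ℂ} (h : C.den z ≠ 0) :
    (‖C.R z‖ ^ 2 - 1) * ‖C.den z‖ ^ 2 =
      (‖C.b‖ ^ 2 - C.a * C.d) * (‖z‖ ^ 2 - 1) + (C.d - C.a) * C.Q z := by
  have h2 : (‖C.R z‖ ^ 2 - 1) * ‖C.den z‖ ^ 2 = ‖C.b * conj z + C.d‖ ^ 2 - ‖C.den z‖ ^ 2 := by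
    rw [← C.norm_R_mul h]; ring
  rw [h2]
  unfold GD.Q GD.den
  simp only [← Complex.normSq_eq_norm_sq, Complex.normSq_apply, Complex.add_re,
        Complex.add_im, Complex.mul_re, Complex.mul_im, Complex.conj_re, Complex.conj_im,
        Complex.ofReal_re, Complex.ofReal_im]
  ring

/-- variant without denominators -/
theorem GD.num_sub_den (C : GD) (z : ℂ) :
    ‖C.b * conj z + C.d‖ ^ 2 - ‖C.den z‖ ^ 2 =
      (‖C.b‖ ^ 2 - C.a * C.d) * (‖z‖ ^ 2 - 1) + (C.d - C.a) * C.Q z := by
  unfold GD.Q GD.den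
  simp only [← Complex.normSq_eq_norm_sq, Complex.normSq_apply, Complex.add_re,
        Complex.add_im, Complex.mul_re, Complex.mul_im, Complex.conj_re, Complex.conj_im,
        Complex.ofReal_re, Complex.ofReal_im]
  ring

/-- if the right side of the key identity is negative then the denominator does not vanish and
`R z` is in the unit disk -/
theorem GD.norm_R_lt_one (C : GD) {z : ℂ}
    (h : (‖C.b‖ ^ 2 - C.a * C.d) * (‖z‖ ^ 2 - 1) + (C.d - C.a) * C.Q z < 0) :
    C.den z ≠ 0 ∧ ‖C.R z‖ < 1 := by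
  rw [← C.num_sub_den z] at h
  have h1 : 0 < ‖C.den z‖ ^ 2 := by nlinarith [sq_nonneg ‖C.b * conj z + (C.d : ℂ)‖]
  have h2 : C.den z ≠ 0 := by
    intro h0
    rw [h0] at h1
    simp at h1
  refine ⟨h2, ?_⟩
  have h3 := C.norm_R_mul h2
  have h4 : ‖C.R z‖ ^ 2 < 1 := by
    by_contra hcon
    push Not at hcon
    nlinarith
  nlinarith [norm_nonneg (C.R z)]

theorem GD.Q_R (C : GD) {z : ℂ} (h : C.den z ≠ 0) :
    C.Q (C.R z) * ‖C.den z‖ ^ 2 = -(‖C.b‖ ^ 2 - C.a * C.d) * C.Q z := by
  have h1 := C.norm_R_mul h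
  have h2 : (conj C.b * C.R z).re * ‖C.den z‖ ^ 2 =
      (- (conj C.b * (C.b * conj z + C.d) * conj (C.den z))).re := by
    have h5 : C.R z * C.den z = -(C.b * conj z + C.d) := by
      unfold GD.R
      exact div_mul_cancel₀ _ h
    have : (conj C.b * C.R z) * ((‖C.den z‖ ^ 2 : ℝ) : ℂ) =
        - (conj C.b * (C.b * conj z + C.d) * conj (C.den z)) := by
      rw [← Complex.normSq_eq_norm_sq, ← Complex.mul_conj]
      linear_combination (conj C.b * conj (C.den z)) * h5
    rw [← this, Complex.re_mul_ofReal]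
  have h3 : C.Q (C.R z) * ‖C.den z‖ ^ 2 = C.a * ‖C.b * conj z + C.d‖ ^ 2 +
      2 * (- (conj C.b * (C.b * conj z + C.d) * conj (C.den z))).re + C.d * ‖C.den z‖ ^ 2 := by
    rw [← h1, ← h2]; unfold GD.Q; ring
  rw [h3]
  unfold GD.Q GD.den
  simp only [← Complex.normSq_eq_norm_sq, Complex.normSq_apply, Complex.add_re,
        Complex.add_im, Complex.mul_re, Complex.mul_im, Complex.conj_re, Complex.conj_im,
        Complex.ofReal_re, Complex.ofReal_im, map_add, map_mul, conj_ofReal, conj_conj,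
        Complex.neg_re]
  ring

theorem GD.Q_R_neg_iff (C : GD) {z : ℂ} (h : C.den z ≠ 0) : C.Q (C.R z) < 0 ↔ 0 < C.Q z := by
  have h1 := C.Q_R h
  have h2 : 0 < ‖C.den z‖ ^ 2 := by
    have := norm_pos_iff.mpr h
    positivity
  have h3 := C.pos
  constructor
  · intro h4
    by_contra hcon
    push Not at hcon
    nlinarith
  · intro h4
    by_contra hcon
    push Not at hcon
    nlinarith

theorem GD.Q_R_pos_iff (C : GD) {z : ℂ} (h : C.den z ≠ 0) : 0 < C.Q (C.R z) ↔ C.Q z < 0 := by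
  have h1 := C.Q_R h
  have h2 : 0 < ‖C.den z‖ ^ 2 := by
    have := norm_pos_iff.mpr h
    positivity
  have h3 := C.pos
  constructor
  · intro h4
    by_contra hcon
    push Not at hcon
    nlinarith
  · intro h4
    by_contra hcon
    push Not at hcon
    nlinarith

theorem GD.den_ne_of_Q_zero (C : GD) {z : ℂ} (h : C.Q z = 0) : C.den z ≠ 0 := by
  intro h0
  -- `den = 0` implies `a Q + (‖b‖² - a d) = ‖den‖²`
  have h1 : C.a * C.Q z + (‖C.b‖ ^ 2 - C.a * C.d) = ‖C.den z‖ ^ 2 := by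
    unfold GD.Q GD.den
    simp only [← Complex.normSq_eq_norm_sq, Complex.normSq_apply, Complex.add_re,
        Complex.add_im, Complex.mul_re, Complex.mul_im, Complex.conj_re, Complex.conj_im,
        Complex.ofReal_re, Complex.ofReal_im]
    ring
  rw [h, h0] at h1
  simp at h1
  have := C.pos
  linarith

theorem GD.R_of_Q_zero (C : GD) {z : ℂ} (h : C.Q z = 0) : C.R z = z := by
  have hd := C.den_ne_of_Q_zero h
  have hR : C.R z = -(C.b * conj z + C.d) / C.den z := rfl
  rw [hR, div_eq_iff hd]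
  have h1 : z * C.den z + (C.b * conj z + C.d) = (C.Q z : ℂ) := by
    apply Complex.ext
    · unfold GD.Q GD.den
      simp only [← Complex.normSq_eq_norm_sq, Complex.normSq_apply, Complex.add_re,
        Complex.add_im, Complex.mul_re, Complex.mul_im, Complex.conj_re, Complex.conj_im,
        Complex.ofReal_re, Complex.ofReal_im]
      ring
    · unfold GD.Q GD.den
      simp only [← Complex.normSq_eq_norm_sq, Complex.normSq_apply, Complex.add_re,
        Complex.add_im, Complex.mul_re, Complex.mul_im, Complex.conj_re, Complex.conj_im,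
        Complex.ofReal_re, Complex.ofReal_im]
      ring
  rw [h, Complex.ofReal_zero] at h1
  linear_combination -h1

/-- the denominator at the reflected point -/
theorem GD.den_R (C : GD) {z : ℂ} (h : C.den z ≠ 0) :
    C.den (C.R z) * conj (C.den z) = ((‖C.b‖ ^ 2 - C.a * C.d : ℝ) : ℂ) := by
  have h5 : C.R z * C.den z = -(C.b * conj z + C.d) := by
    unfold GD.R
    exact div_mul_cancel₀ _ h
  have h6 : conj (C.R z) * conj (C.den z) = -(conj C.b * z + C.d) := by
    rw [← map_mul, h5]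
    simp
  have h7 : C.den (C.R z) * conj (C.den z) =
      C.a * (conj (C.R z) * conj (C.den z)) + conj C.b * conj (C.den z) := by
    unfold GD.den
    ring
  rw [h7, h6]
  unfold GD.den
  simp only [map_add, map_mul, conj_ofReal, conj_conj]
  have h8 : conj C.b * C.b = ((‖C.b‖ ^ 2 : ℝ) : ℂ) := by
    rw [mul_comm, Complex.mul_conj, Complex.normSq_eq_norm_sq]
  push_cast at h8 ⊢
  linear_combination h8

theorem GD.den_R_ne (C : GD) {z : ℂ} (h : C.den z ≠ 0) : C.den (C.R z) ≠ 0 := by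
  intro h0
  have h1 := C.den_R h
  rw [h0, zero_mul] at h1
  have h2 : (‖C.b‖ ^ 2 - C.a * C.d : ℝ) = 0 := by exact_mod_cast h1.symm
  have := C.pos
  linarith

theorem GD.R_R (C : GD) {z : ℂ} (h : C.den z ≠ 0) : C.R (C.R z) = z := by
  have hd := C.den_R_ne h
  have h1 := C.den_R h
  have h5 : C.R z * C.den z = -(C.b * conj z + C.d) := by
    unfold GD.R
    exact div_mul_cancel₀ _ h
  have h6 : conj (C.R z) * conj (C.den z) = -(conj C.b * z + C.d) := by
    rw [← map_mul, h5]
    simp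
  have hc : conj (C.den z) ≠ 0 := by simpa using h
  have h9 : -(C.b * conj (C.R z) + C.d) = z * C.den (C.R z) := by
    apply mul_right_cancel₀ hc
    have h8 : conj C.b * C.b = ((‖C.b‖ ^ 2 : ℝ) : ℂ) := by
      rw [mul_comm, Complex.mul_conj, Complex.normSq_eq_norm_sq]
    have h10 : conj (C.den z) = C.a * z + C.b := by
      unfold GD.den
      simp
    push_cast at h8 h1
    rw [mul_assoc, h1]
    have : -(C.b * conj (C.R z) + C.d) * conj (C.den z) =
      -(C.b * (conj (C.R z) * conj (C.den z))) - C.d * conj (C.den z) := by ring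
    rw [this, h6, h10]
    linear_combination z * h8
  have h11 : C.R (C.R z) = -(C.b * conj (C.R z) + C.d) / C.den (C.R z) := rfl
  rw [h11, h9, mul_div_assoc, div_self hd, mul_one]

theorem GD.continuous_Q (C : GD) : Continuous C.Q := by
  unfold GD.Q
  fun_prop

theorem GD.isOpen (C : GD) : IsOpen {z | C.Q z < 0} := isOpen_lt C.continuous_Q continuous_const

/-- `conj ∘ R` is analytic where the denominator does not vanish -/
theorem GD.analyticAt_conj_R (C : GD) {z : ℂ} (h : C.den z ≠ 0) :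
    AnalyticAt ℂ (fun w => conj (C.R w)) z := by
  have h1 : (fun w => conj (C.R w)) = fun w => -(conj C.b * w + C.d) / (C.a * w + C.b) := by
    funext w
    unfold GD.R
    simp
  rw [h1]
  have h2 : (C.a : ℂ) * z + C.b ≠ 0 := by
    intro h0
    apply h
    have : conj (C.den z) = 0 := by
      unfold GD.den
      simpa using h0
    simpa using this
  fun_prop (disch := assumption)

theorem GD.continuousAt_R (C : GD) {z : ℂ} (h : C.den z ≠ 0) : ContinuousAt C.R z := by
  have h1 := (C.analyticAt_conj_R h).continuousAt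
  have h2 : C.R = fun w => conj (conj (C.R w)) := by
    funext w
    simp
  rw [h2]
  exact Complex.continuous_conj.continuousAt.comp h1

theorem GD.continuous_den (C : GD) : Continuous C.den := by
  unfold GD.den
  fun_prop

/-! ### orthogonal disks -/

/-- a disk orthogonal to the unit circle: `R` preserves the unit disk and the unit circle -/
theorem GD.den_ne_of_orth (C : GD) (h : C.a = C.d) {z : ℂ} (hz : ‖z‖ ≤ 1) : C.den z ≠ 0 := by
  intro h0
  have h1 := C.num_sub_den z
  rw [h0, h] at h1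
  have h2 := C.pos
  rw [h] at h2
  simp only [norm_zero, sub_self, zero_mul, add_zero] at h1
  have h3 : ‖z‖ ^ 2 ≤ 1 := by nlinarith [norm_nonneg z]
  have h4 : 0 ≤ ‖C.b * conj z + (C.d : ℂ)‖ ^ 2 := sq_nonneg _
  have h5 : ‖z‖ ^ 2 = 1 := by nlinarith
  -- then `den z = 0` gives `‖b‖ = |a|`
  have h6 : C.d * conj z = - conj C.b := by
    have : (C.a : ℂ) * conj z + conj C.b = 0 := h0
    rw [h] at this
    linear_combination this
  have h7 : ‖(C.d : ℂ) * conj z‖ ^ 2 = ‖C.b‖ ^ 2 := by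
    rw [h6]
    simp
  rw [norm_mul, mul_pow] at h7
  simp only [Complex.norm_real, Real.norm_eq_abs, sq_abs, RCLike.norm_conj] at h7
  rw [h5] at h7
  nlinarith

theorem GD.norm_R_orth (C : GD) (h : C.a = C.d) {z : ℂ} (hz : ‖z‖ < 1) : ‖C.R z‖ < 1 := by
  refine (C.norm_R_lt_one ?_).2
  rw [h]
  have h2 := C.pos
  rw [h] at h2
  have h3 : ‖z‖ ^ 2 < 1 := by nlinarith [norm_nonneg z]
  nlinarith

theorem GD.norm_R_orth_eq (C : GD) (h : C.a = C.d) {z : ℂ} (hz : ‖z‖ = 1) : ‖C.R z‖ = 1 := by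
  have hd := C.den_ne_of_orth h hz.le
  have h1 := C.norm_R_sub_one hd
  rw [h, hz] at h1
  simp only [one_pow, sub_self, mul_zero, zero_mul, add_zero] at h1
  have h2 : 0 < ‖C.den z‖ ^ 2 := by
    have := norm_pos_iff.mpr hd
    positivity
  have h3 : ‖C.R z‖ ^ 2 = 1 := by
    rcases mul_eq_zero.mp h1 with h4 | h4
    · linarith
    · exact absurd h4 h2.ne'
  nlinarith [norm_nonneg (C.R z)]

/-! ### pull back -/

theorem GD.Q_pull (C : GD) (p q r s : ℂ) (h : p * s - q * r ≠ 0) {w : ℂ} (hw : r * w + s ≠ 0) :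
    (C.pull p q r s h).Q w = C.Q ((p * w + q) / (r * w + s)) * ‖r * w + s‖ ^ 2 := by
  have h1 : ‖(p * w + q) / (r * w + s)‖ ^ 2 * ‖r * w + s‖ ^ 2 = ‖p * w + q‖ ^ 2 := by
    rw [norm_div, div_pow, div_mul_cancel₀]
    have := norm_pos_iff.mpr hw
    positivity
  have h2 : (conj C.b * ((p * w + q) / (r * w + s))).re * ‖r * w + s‖ ^ 2 =
      (conj C.b * (p * w + q) * conj (r * w + s)).re := by
    have h5 : (p * w + q) / (r * w + s) * (r * w + s) = p * w + q := div_mul_cancel₀ _ hw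
    have : (conj C.b * ((p * w + q) / (r * w + s))) * ((‖r * w + s‖ ^ 2 : ℝ) : ℂ) =
        conj C.b * (p * w + q) * conj (r * w + s) := by
      rw [← Complex.normSq_eq_norm_sq, ← Complex.mul_conj]
      linear_combination (conj C.b * conj (r * w + s)) * h5
    rw [← this, Complex.re_mul_ofReal]
  have h3 : C.Q ((p * w + q) / (r * w + s)) * ‖r * w + s‖ ^ 2 = C.a * ‖p * w + q‖ ^ 2 +
      2 * (conj C.b * (p * w + q) * conj (r * w + s)).re + C.d * ‖r * w + s‖ ^ 2 := by
    unfold GD.Q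
    rw [← h1, ← h2]
    ring
  rw [h3]
  unfold GD.Q GD.pull
  simp only [← Complex.normSq_eq_norm_sq, Complex.normSq_apply, Complex.add_re,
        Complex.add_im, Complex.mul_re, Complex.mul_im, Complex.conj_re, Complex.conj_im,
        Complex.ofReal_re, Complex.ofReal_im, map_add, map_mul, conj_ofReal, conj_conj]
  ring

theorem GD.Q_cj (C : GD) (w : ℂ) : C.cj.Q w = C.Q (conj w) := by
  unfold GD.Q GD.cj
  simp only [Complex.mul_re, Complex.conj_re, Complex.conj_im, RCLike.norm_conj]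
  ring

theorem GD.R_cj (C : GD) (w : ℂ) : conj (C.cj.R w) = C.R (conj w) := by
  unfold GD.R GD.cj
  simp

theorem Q_disk (c : ℂ) (ρ : ℝ) (h : 0 < ρ) (z : ℂ) : (disk c ρ h).Q z = ‖z - c‖ ^ 2 - ρ ^ 2 := by
  unfold GD.Q disk
  simp only [← Complex.normSq_eq_norm_sq, Complex.normSq_apply, Complex.mul_re,
    Complex.conj_re, Complex.conj_im, Complex.neg_re, Complex.neg_im, Complex.sub_re,
    Complex.sub_im, map_neg]
  ring

theorem R_disk (c : ℂ) (ρ : ℝ) (h : 0 < ρ) (z : ℂ) (hz : z ≠ c) :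
    (disk c ρ h).R z = c + ρ ^ 2 / conj (z - c) := by
  have h1 : conj (z - c) ≠ 0 := by
    intro h0
    apply hz
    have : z - c = 0 := by simpa only [map_eq_zero] using h0
    exact sub_eq_zero.mp this
  have h3 : (disk c ρ h).den z = conj (z - c) := by
    unfold GD.den disk
    simp [sub_eq_add_neg]
  have h2 : (disk c ρ h).R z =
      -((disk c ρ h).b * conj z + (disk c ρ h).d) / (disk c ρ h).den z := rfl
  rw [h2, h3, div_eq_iff h1, add_mul, div_mul_cancel₀ _ h1]
  have h4 : c * conj c = ((‖c‖ ^ 2 : ℝ) : ℂ) := by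
    rw [Complex.mul_conj, Complex.normSq_eq_norm_sq]
  unfold disk
  push_cast at h4 ⊢
  rw [map_sub]
  linear_combination h4

theorem Q_hp (θ : ℝ) (z : ℂ) : (hp θ).Q z = -2 * (exp (-(θ * I)) * z).im := by
  have h1 : conj (hp θ).b = I * exp (-(θ * I)) := by
    unfold hp
    rw [map_neg, map_mul, ← Complex.exp_conj]
    simp
  have h2 : (hp θ).Q z = 2 * (conj (hp θ).b * z).re := by
    unfold GD.Q
    simp [hp]
  rw [h2, h1, mul_assoc, Complex.I_mul_re]
  ring

theorem R_hp (θ : ℝ) (z : ℂ) : (hp θ).R z = exp (2 * θ * I) * conj z := by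
  have h1 : conj (hp θ).b = I * exp (-(θ * I)) := by
    unfold hp
    rw [map_neg, map_mul, ← Complex.exp_conj]
    simp
  have h2 : (hp θ).R z = -((hp θ).b * conj z) / conj (hp θ).b := by
    unfold GD.R
    simp [hp]
  rw [h2, h1]
  have h3 : (hp θ).b = -(I * exp (θ * I)) := rfl
  rw [h3, div_eq_iff (mul_ne_zero I_ne_zero (exp_ne_zero _))]
  have h4 : exp (2 * θ * I) * exp (-(θ * I)) = exp (θ * I) := by
    rw [← exp_add]
    congr 1
    ring
  linear_combination (-(conj z * I)) * h4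

end MD12

end S_Alg

section S_HID

/-! # HID: identity theorems for harmonic functions on subsets of the plane

`HarmonicAt.analyticAt : HarmonicAt f x → AnalyticAt ℝ f x` is in Mathlib
(`Mathlib/Analysis/Complex/Harmonic/Analytic.lean`).

* `har_ident`: the set `{z ∈ S | f =ᶠ[𝓝 z] g}` is relatively open in `S`
  (`Filter.Eventually.eventually_nhds`) and relatively closed: let `z ∈ S` be in its closure;
  `f - g` is real analytic at `z`, hence analytic on a small ball around `z`
  (`AnalyticAt.eventually_analyticAt`), which contains a point where the germs agree;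
  `AnalyticOnNhd.eqOn_of_preconnected_of_eventuallyEq` on the ball.  Then
  `IsPreconnected.subset_of_closure_inter_subset` or similar.
* `har_ident_closure`: take a ball around `x` on which both functions are harmonic and
  `f = g` on `W ∩ ball`; the ball contains a point of `W` near which `f = g`; `har_ident` on the
  ball (convex).
* `har_ident_disk`: take a ball `b` around `x` on which `V` is harmonic; `b ∩ ball 0 1` is convex
  and contains a point where the germs of `U` and `V` agree; `har_ident`.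
-/

namespace MD12

open Complex Metric Set Filter Topology InnerProductSpace
open scoped ComplexConjugate

/-- identity theorem on a ball -/
private theorem hid_ball {f g : ℂ → ℝ} {x : ℂ} (hf : HarmonicAt f x) (hg : HarmonicAt g x)
    (h : ∃ᶠ w in 𝓝 x, f =ᶠ[𝓝 w] g) : f =ᶠ[𝓝 x] g := by
  have h1 : ∀ᶠ w in 𝓝 x, AnalyticAt ℝ f w ∧ AnalyticAt ℝ g w :=
    (HarmonicAt.analyticAt hf).eventually_analyticAt.and
      (HarmonicAt.analyticAt hg).eventually_analyticAt
  obtain ⟨ρ, hρ, hb⟩ := Metric.eventually_nhds_iff_ball.1 h1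
  have h2 : ∃ w, f =ᶠ[𝓝 w] g ∧ w ∈ ball x ρ :=
    (h.and_eventually (ball_mem_nhds x hρ)).exists
  obtain ⟨w, hw1, hw2⟩ := h2
  have h3 : EqOn f g (ball x ρ) :=
    AnalyticOnNhd.eqOn_of_preconnected_of_eventuallyEq (fun z hz => (hb z hz).1)
      (fun z hz => (hb z hz).2) (convex_ball x ρ).isPreconnected hw2 hw1
  exact h3.eventuallyEq_of_mem (ball_mem_nhds x hρ)

/-- identity theorem along a preconnected set -/
theorem har_ident {f g : ℂ → ℝ} {S : Set ℂ} (hS : IsPreconnected S)
    (hf : ∀ z ∈ S, HarmonicAt f z) (hg : ∀ z ∈ S, HarmonicAt g z) {x : ℂ} (hx : x ∈ S)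
    (hfg : f =ᶠ[𝓝 x] g) : ∀ z ∈ S, f =ᶠ[𝓝 z] g := by
  have hu : IsOpen {z : ℂ | f =ᶠ[𝓝 z] g} := by
    rw [isOpen_iff_eventually]
    intro z hz
    exact Filter.Eventually.eventually_nhds hz
  refine hS.subset_of_closure_inter_subset hu ⟨x, hx, hfg⟩ ?_
  rintro z ⟨hz, hzS⟩
  exact hid_ball (hf z hzS) (hg z hzS) (mem_closure_iff_frequently.1 hz)

/-- identity theorem at a point of the closure of an open set -/
theorem har_ident_closure {f g : ℂ → ℝ} {W : Set ℂ} (hW : IsOpen W) {x : ℂ} (hx : x ∈ closure W)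
    (hf : HarmonicAt f x) (hg : HarmonicAt g x) (h : ∀ᶠ z in 𝓝 x, z ∈ W → f z = g z) :
    f =ᶠ[𝓝 x] g := by
  refine hid_ball hf hg ?_
  have h1 : ∃ᶠ w in 𝓝 x, w ∈ W := mem_closure_iff_frequently.1 hx
  refine (h1.and_eventually h.eventually_nhds).mono ?_
  rintro w ⟨hw, hw2⟩
  filter_upwards [hW.mem_nhds hw, hw2] with z hz1 hz2
  exact hz2 hz1

/-- germs inside the unit disk near a point of the unit circle -/
theorem har_ident_disk {U V : ℂ → ℝ} (hU : ∀ z, ‖z‖ < 1 → HarmonicAt U z) {x : ℂ} (hx : ‖x‖ = 1)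
    (hV : HarmonicAt V x) (h : ∃ᶠ z in 𝓝 x, ‖z‖ < 1 ∧ U =ᶠ[𝓝 z] V) :
    ∀ᶠ z in 𝓝 x, ‖z‖ < 1 → U =ᶠ[𝓝 z] V := by
  obtain ⟨ρ, hρ, hb⟩ := Metric.eventually_nhds_iff_ball.1 hV.eventually
  obtain ⟨w, ⟨hw1, hw2⟩, hw3⟩ := (h.and_eventually (ball_mem_nhds x hρ)).exists
  have hconv : Convex ℝ (ball x ρ ∩ ball (0 : ℂ) 1) := (convex_ball x ρ).inter (convex_ball 0 1)
  have h1 := har_ident hconv.isPreconnected (f := U) (g := V)
    (fun z hz => hU z (mem_ball_zero_iff.1 hz.2)) (fun z hz => hb z hz.1)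
    (x := w) ⟨hw3, mem_ball_zero_iff.2 hw1⟩ hw2
  filter_upwards [ball_mem_nhds x hρ] with z hz hz1
  exact h1 z ⟨hz, mem_ball_zero_iff.2 hz1⟩

end MD12

end S_HID

section S_HCO

/-! # HCO: composition of harmonic functions with (anti)holomorphic maps; the `Ext` calculus

* `har_comp`: near `g x` the function `f` is the real part of an analytic function
  (`InnerProductSpace.HarmonicOnNhd.exists_analyticOnNhd_ball_re_eq`), compose and use
  `AnalyticAt.harmonicAt_re`; `HarmonicAt` depends only on the germ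
  (`InnerProductSpace.harmonicAt_congr_nhds`).
* `har_comp_anti`: `f (g z) = Re (F (g z)) = Re (conj (F (conj (conj (g z)))))` and
  `w ↦ conj (F (conj w))` is analytic; or: `f ∘ conj` is harmonic at `conj (g x)`, then `har_comp`.
* the `Ext` lemmas: unfold.  (`HarmonicAt.add`, `.const_smul`, `.sub` ... exist in Mathlib or follow
  from the analytic representation.)
-/

namespace MD12

open Complex Metric Set Filter Topology InnerProductSpace
open scoped ComplexConjugate

theorem hco_exists {f : ℂ → ℝ} {x : ℂ} (hf : HarmonicAt f x) :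
    ∃ F : ℂ → ℂ, AnalyticAt ℂ F x ∧ ∀ᶠ z in 𝓝 x, f z = (F z).re := by
  obtain ⟨ε, hε, hs⟩ := Metric.isOpen_iff.1 (isOpen_setOfPred_harmonicAt f) x hf
  obtain ⟨F, hF, he⟩ := HarmonicOnNhd.exists_analyticOnNhd_ball_re_eq (f := f) (z := x) (R := ε)
    (fun y hy => hs hy)
  exact ⟨F, hF x (mem_ball_self hε),
    Filter.eventually_of_mem (ball_mem_nhds x hε) fun z hz => (he hz).symm⟩

theorem hco_conj {F : ℂ → ℂ} {x : ℂ} (h : AnalyticAt ℂ F x) :
    AnalyticAt ℂ (fun w => conj (F (conj w))) (conj x) := by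
  rw [analyticAt_iff_eventually_differentiableAt] at h ⊢
  have h1 : Tendsto (fun w : ℂ => conj w) (𝓝 (conj x)) (𝓝 x) :=
    Complex.continuous_conj.tendsto' _ _ (Complex.conj_conj x)
  filter_upwards [h1.eventually h] with w hw
  exact differentiableAt_conj_conj_iff.2 hw

theorem har_comp {f : ℂ → ℝ} {g : ℂ → ℂ} {x : ℂ} (hg : AnalyticAt ℂ g x)
    (hf : HarmonicAt f (g x)) : HarmonicAt (fun z => f (g z)) x := by
  obtain ⟨F, hF, he⟩ := hco_exists hf
  have h1 : AnalyticAt ℂ (fun z => F (g z)) x := hF.comp hg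
  refine (harmonicAt_congr_nhds ?_).1 h1.harmonicAt_re
  filter_upwards [hg.continuousAt.eventually he] with z hz
  exact hz.symm

theorem hco_cont {g : ℂ → ℂ} {x : ℂ} (hg : AnalyticAt ℂ (fun z => conj (g z)) x) :
    ContinuousAt g x := by
  have h1 := Complex.continuous_conj.continuousAt.comp hg.continuousAt
  have h2 : g = (fun w : ℂ => conj w) ∘ fun z => conj (g z) := by
    funext z
    simp
  rw [h2]
  exact h1

theorem har_comp_anti {f : ℂ → ℝ} {g : ℂ → ℂ} {x : ℂ} (hg : AnalyticAt ℂ (fun z => conj (g z)) x)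
    (hf : HarmonicAt f (g x)) : HarmonicAt (fun z => f (g z)) x := by
  obtain ⟨F, hF, he⟩ := hco_exists hf
  have h1 : AnalyticAt ℂ (fun z => conj (F (conj (conj (g z))))) x :=
    AnalyticAt.fun_comp (g := fun w => conj (F (conj w))) (hco_conj hF) hg
  refine (harmonicAt_congr_nhds ?_).1 h1.harmonicAt_re
  filter_upwards [(hco_cont hg).eventually he] with z hz
  rw [hz, Complex.conj_conj, Complex.conj_re]

theorem har_comp_R (C : GD) {f : ℂ → ℝ} {z : ℂ} (h : C.den z ≠ 0) (hf : HarmonicAt f (C.R z)) :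
    HarmonicAt (fun w => f (C.R w)) z := har_comp_anti (C.analyticAt_conj_R h) hf

theorem har_sub {f g : ℂ → ℝ} {x : ℂ} (hf : HarmonicAt f x) (hg : HarmonicAt g x) :
    HarmonicAt (fun z => f z - g z) x := hf.sub hg

theorem har_add {f g : ℂ → ℝ} {x : ℂ} (hf : HarmonicAt f x) (hg : HarmonicAt g x) :
    HarmonicAt (fun z => f z + g z) x := hf.add hg

theorem har_const_mul {f : ℂ → ℝ} {x : ℂ} (c : ℝ) (hf : HarmonicAt f x) :
    HarmonicAt (fun z => c * f z) x := hf.const_smul (c := c)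

theorem har_const (c : ℝ) (x : ℂ) : HarmonicAt (fun _ : ℂ => c) x := harmonicAt_const c

theorem har_congr {f g : ℂ → ℝ} {x : ℂ} (hf : HarmonicAt f x) (h : f =ᶠ[𝓝 x] g) :
    HarmonicAt g x := (harmonicAt_congr_nhds h).1 hf

/-- the points of harmonicity form an open set -/
theorem har_eventually {f : ℂ → ℝ} {x : ℂ} (hf : HarmonicAt f x) :
    ∀ᶠ z in 𝓝 x, HarmonicAt f z := hf.eventually

theorem har_continuousAt {f : ℂ → ℝ} {x : ℂ} (hf : HarmonicAt f x) : ContinuousAt f x :=
  hf.1.continuousAt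

theorem Ext.of_har {f : ℂ → ℝ} {x : ℂ} (h : HarmonicAt f x) : Ext f x :=
  ⟨f, h, Eventually.of_forall fun _ _ => rfl⟩

/-- a function agreeing inside with a harmonic function extends -/
theorem Ext.of_germ {U V : ℂ → ℝ} {x : ℂ} (hV : HarmonicAt V x)
    (h : ∀ᶠ z in 𝓝 x, ‖z‖ < 1 → U =ᶠ[𝓝 z] V) : Ext U x := by
  refine ⟨V, hV, ?_⟩
  filter_upwards [h] with z hz hz1
  exact (hz hz1).self_of_nhds.symm

theorem Ext.congr {f f' : ℂ → ℝ} {x : ℂ} (h : Ext f x)
    (hf : ∀ᶠ z in 𝓝 x, ‖z‖ < 1 → f' z = f z) : Ext f' x := by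
  obtain ⟨g, hg, he⟩ := h
  refine ⟨g, hg, ?_⟩
  filter_upwards [he, hf] with z h1 h2 hz
  rw [h1 hz, h2 hz]

theorem Ext.add {f g : ℂ → ℝ} {x : ℂ} (hf : Ext f x) (hg : Ext g x) :
    Ext (fun z => f z + g z) x := by
  obtain ⟨F, hF, h1⟩ := hf
  obtain ⟨G, hG, h2⟩ := hg
  refine ⟨fun z => F z + G z, har_add hF hG, ?_⟩
  filter_upwards [h1, h2] with z h3 h4 hz
  rw [h3 hz, h4 hz]

theorem Ext.sub {f g : ℂ → ℝ} {x : ℂ} (hf : Ext f x) (hg : Ext g x) :
    Ext (fun z => f z - g z) x := by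
  obtain ⟨F, hF, h1⟩ := hf
  obtain ⟨G, hG, h2⟩ := hg
  refine ⟨fun z => F z - G z, har_sub hF hG, ?_⟩
  filter_upwards [h1, h2] with z h3 h4 hz
  rw [h3 hz, h4 hz]

theorem Ext.const_mul {f : ℂ → ℝ} {x : ℂ} (c : ℝ) (hf : Ext f x) :
    Ext (fun z => c * f z) x := by
  obtain ⟨F, hF, h1⟩ := hf
  refine ⟨fun z => c * F z, har_const_mul c hF, ?_⟩
  filter_upwards [h1] with z h3 hz
  rw [h3 hz]

/-- composition with an analytic map which maps the disk into the disk near `x` -/
theorem Ext.comp {f : ℂ → ℝ} {g : ℂ → ℂ} {x : ℂ} (hf : Ext f (g x)) (hg : AnalyticAt ℂ g x)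
    (hm : ∀ᶠ z in 𝓝 x, ‖z‖ < 1 → ‖g z‖ < 1) : Ext (fun z => f (g z)) x := by
  obtain ⟨F, hF, h1⟩ := hf
  refine ⟨fun z => F (g z), har_comp hg hF, ?_⟩
  filter_upwards [hg.continuousAt.eventually h1, hm] with z h3 h4 hz
  exact h3 (h4 hz)

theorem Ext.comp_anti {f : ℂ → ℝ} {g : ℂ → ℂ} {x : ℂ} (hf : Ext f (g x))
    (hg : AnalyticAt ℂ (fun z => conj (g z)) x)
    (hm : ∀ᶠ z in 𝓝 x, ‖z‖ < 1 → ‖g z‖ < 1) : Ext (fun z => f (g z)) x := by
  obtain ⟨F, hF, h1⟩ := hf
  refine ⟨fun z => F (g z), har_comp_anti hg hF, ?_⟩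
  filter_upwards [(hco_cont hg).eventually h1, hm] with z h3 h4 hz
  exact h3 (h4 hz)

theorem isOpen_setOf_ext (f : ℂ → ℝ) : IsOpen {x | Ext f x} := by
  rw [isOpen_iff_mem_nhds]
  rintro x ⟨g, hg, he⟩
  filter_upwards [hg.eventually, he.eventually_nhds] with y h1 h2
  exact ⟨g, h1, h2⟩

end MD12

end S_HCO

section S_GEO

/-! # GEO: the part of a circle inside the unit disk

* `circ_preconn`.  Case `a = 0`: the set is convex (intersection of a line and a ball).
  Case `a ≠ 0`: with `c = -b/a`, `ρ² = (‖b‖² - a d)/a² > 0` the circle is `c + ρ e^{iφ}` and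
  `‖z‖² = ‖c‖² + ρ² + 2ρ‖c‖ cos(φ - α)`, `α = arg c`.  So the set is the image of
  `{φ ∈ [α, α+2π] | cos (φ-α) < t}` (`c ≠ 0`), which is an interval `(α+δ, α+2π-δ)` (or everything), under
  a continuous map; if `c = 0` it is empty or the whole circle.
* `circ_closure`.  Case `a = 0`: the points `(1-t) y + t y₀`, `0 < t ≤ 1`, are in the set (strict
  convexity of the norm or a direct computation of `‖·‖²`).  Case `a ≠ 0`: `c ≠ 0` since `‖y₀‖ ≠ ‖y‖`; let
  `y = c + ρ e^{iφ}`; `cos(φ - α) > cos(φ₀ - α) ≥ -1`, so moving `φ` a bit away from `α` decreases `cos`.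
  (Another way: the points `y(t) = R_{line}`... any proof is fine; e.g. the set is
  `{z | Q z = 0 ∧ 2 Re(conj b z) + a + d > 0}`-like: on the circle `‖z‖² = -(2 Re(conj b z) + d)/a`,
  so `‖z‖ < 1` is a half plane condition on the circle.)
-/

namespace MD12

open Complex Metric Set Filter Topology InnerProductSpace
open scoped ComplexConjugate

lemma geo_cos {x y z : ℝ} (h1 : -Real.pi ≤ x) (h2 : x ≤ y) (h3 : y ≤ z) (h4 : z ≤ Real.pi) :
    min (Real.cos x) (Real.cos z) ≤ Real.cos y := by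
  rcases le_total 0 y with h | h
  · exact (min_le_right _ _).trans (Real.cos_le_cos_of_nonneg_of_le_pi h h4 h3)
  · refine (min_le_left _ _).trans ?_
    rw [← Real.cos_neg x, ← Real.cos_neg y]
    exact Real.cos_le_cos_of_nonneg_of_le_pi (by linarith) (by linarith) (by linarith)

lemma geo_unit (c : ℂ) : ∃ u : ℂ, ‖u‖ = 1 ∧ c = -(‖c‖ : ℂ) * u := by
  by_cases h : c = 0
  · exact ⟨1, by simp, by simp [h]⟩
  · have hn : (‖c‖ : ℂ) ≠ 0 := by exact_mod_cast (norm_ne_zero_iff.mpr h)
    refine ⟨-(c / ‖c‖), ?_, ?_⟩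
    · rw [norm_neg, norm_div, Complex.norm_real, norm_norm, div_self (norm_ne_zero_iff.mpr h)]
    · field_simp

lemma geo_norm (c u : ℂ) (hu : ‖u‖ = 1) (hc : c = -(‖c‖ : ℂ) * u) (ρ φ : ℝ) :
    ‖c + ρ * u * Complex.exp (φ * I)‖ ^ 2 = ‖c‖ ^ 2 + ρ ^ 2 - 2 * ρ * ‖c‖ * Real.cos φ := by
  have h1 : c + ρ * u * Complex.exp (φ * I) = u * (-(‖c‖ : ℂ) + ρ * Complex.exp (φ * I)) := by
    conv_lhs => rw [hc]
    ring
  rw [h1, norm_mul, hu, one_mul, ← Complex.normSq_eq_norm_sq, Complex.normSq_apply]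
  have h2 : (-(‖c‖ : ℂ) + ρ * Complex.exp (φ * I)).re = -‖c‖ + ρ * Real.cos φ := by
    simp [Complex.exp_ofReal_mul_I_re]
  have h3 : (-(‖c‖ : ℂ) + ρ * Complex.exp (φ * I)).im = ρ * Real.sin φ := by
    simp [Complex.exp_ofReal_mul_I_im]
  rw [h2, h3]
  nlinarith [Real.sin_sq_add_cos_sq φ]

theorem circ_preconn (C : GD) : IsPreconnected {z : ℂ | C.Q z = 0 ∧ ‖z‖ < 1} := by
  by_cases ha : C.a = 0
  · have h1 : {z : ℂ | C.Q z = 0 ∧ ‖z‖ < 1} = {z : ℂ | 2 * (conj C.b * z).re + C.d = 0} ∩ ball 0 1 := by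
      ext z
      simp only [Set.mem_ofPred_eq, Set.mem_inter_iff, mem_ball_zero_iff]
      unfold GD.Q
      rw [ha]
      simp
    rw [h1]
    apply Convex.isPreconnected
    apply Convex.inter
    · intro x hx y hy s t hs ht hst
      simp only [Set.mem_ofPred_eq] at hx hy ⊢
      have : (conj C.b * (s • x + t • y)).re = s * (conj C.b * x).re + t * (conj C.b * y).re := by
        simp only [Complex.real_smul, mul_add, Complex.add_re]
        congr 1
        · rw [mul_left_comm, Complex.re_ofReal_mul]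
        · rw [mul_left_comm, Complex.re_ofReal_mul]
      rw [this]
      have e : 2 * (s * (conj C.b * x).re + t * (conj C.b * y).re) + C.d =
          s * (2 * (conj C.b * x).re + C.d) + t * (2 * (conj C.b * y).re + C.d) + (1 - (s + t)) * C.d := by ring
      rw [e, hx, hy, hst]
      ring
    · exact convex_ball 0 1
  · set δ := ‖C.b‖ ^ 2 - C.a * C.d with hδ
    have hpos := C.pos
    have hδ0 : 0 < δ := by rw [hδ]; linarith
    set c : ℂ := -C.b / C.a with hc
    set ρ : ℝ := Real.sqrt δ / |C.a| with hρ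
    have hρ0 : 0 < ρ := div_pos (Real.sqrt_pos.mpr hδ0) (abs_pos.mpr ha)
    have hac : (C.a : ℂ) ≠ 0 := by exact_mod_cast ha
    have hQ : ∀ z, C.Q z = 0 ↔ ‖z - c‖ = ρ := by
      intro z
      have h1 : C.a * C.Q z = ‖C.a * z + C.b‖ ^ 2 - δ := by
        rw [hδ]
        unfold GD.Q
        simp only [← Complex.normSq_eq_norm_sq, Complex.normSq_apply, Complex.add_re,
          Complex.add_im, Complex.mul_re, Complex.mul_im, Complex.conj_re, Complex.conj_im,
          Complex.ofReal_re, Complex.ofReal_im]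
        ring
      have h2 : (C.a : ℂ) * z + C.b = C.a * (z - c) := by
        rw [hc]; field_simp; ring
      rw [h2, norm_mul, Complex.norm_real, Real.norm_eq_abs] at h1
      have h3 : |C.a| ^ 2 * ρ ^ 2 = δ := by
        rw [hρ, div_pow, Real.sq_sqrt hδ0.le]
        have := abs_pos.mpr ha
        field_simp
      constructor
      · intro h
        rw [h, mul_zero] at h1
        have h4 : |C.a| ^ 2 * ‖z - c‖ ^ 2 = |C.a| ^ 2 * ρ ^ 2 := by rw [h3]; linarith
        have h5 : ‖z - c‖ ^ 2 = ρ ^ 2 := by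
          apply mul_left_cancel₀ _ h4
          have := abs_pos.mpr ha
          positivity
        exact (pow_left_inj₀ (norm_nonneg _) hρ0.le two_ne_zero).mp h5
      · intro h
        rw [h] at h1
        have : C.a * C.Q z = 0 := by rw [h1]; linarith
        exact (mul_eq_zero.mp this).resolve_left ha
    obtain ⟨u, hu, hcu⟩ := geo_unit c
    have hu0 : u ≠ 0 := by
      intro h; rw [h] at hu; simp at hu
    let f : ℝ → ℂ := fun φ => c + ρ * u * Complex.exp (φ * I)
    let P : Set ℝ := {φ | φ ∈ Icc (-Real.pi) Real.pi ∧ ‖c‖ ^ 2 + ρ ^ 2 - 2 * ρ * ‖c‖ * Real.cos φ < 1}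
    have hP : IsPreconnected P := by
      apply Set.OrdConnected.isPreconnected
      constructor
      intro x hx z hz y hy
      refine ⟨⟨hx.1.1.trans hy.1, hy.2.trans hz.1.2⟩, ?_⟩
      have h1 := geo_cos hx.1.1 hy.1 hy.2 hz.1.2
      have h2 : 0 ≤ 2 * ρ * ‖c‖ := by positivity
      rcases min_le_iff.mp h1 with h | h
      · have := mul_le_mul_of_nonneg_left h h2
        linarith [hx.2]
      · have := mul_le_mul_of_nonneg_left h h2
        linarith [hz.2]
    have himg : {z : ℂ | C.Q z = 0 ∧ ‖z‖ < 1} = f '' P := by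
      ext z
      simp only [Set.mem_ofPred_eq, Set.mem_image]
      rw [hQ]
      constructor
      · rintro ⟨h1, h2⟩
        set w := (z - c) / (ρ * u) with hw
        have hρc : (ρ : ℂ) ≠ 0 := by exact_mod_cast hρ0.ne'
        have hw1 : ‖w‖ = 1 := by
          rw [hw, norm_div, norm_mul, hu, Complex.norm_real, Real.norm_eq_abs, abs_of_pos hρ0, h1, mul_one,
            div_self hρ0.ne']
        have hz : f (Complex.arg w) = z := by
          have h3 := Complex.norm_mul_exp_arg_mul_I w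
          rw [hw1, Complex.ofReal_one, one_mul] at h3
          simp only [f]
          rw [h3, hw]
          field_simp
          ring
        refine ⟨Complex.arg w, ⟨⟨(Complex.neg_pi_lt_arg w).le, Complex.arg_le_pi w⟩, ?_⟩, hz⟩
        rw [← geo_norm c u hu hcu ρ]
        have h4 : c + ρ * u * Complex.exp (Complex.arg w * I) = z := hz
        rw [h4]
        nlinarith [norm_nonneg z]
      · rintro ⟨φ, hφ, rfl⟩
        constructor
        · simp only [f]
          rw [add_sub_cancel_left, norm_mul, norm_mul, hu, Complex.norm_real, Real.norm_eq_abs, abs_of_pos hρ0,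
            Complex.norm_exp_ofReal_mul_I]
          ring
        · have h1 := hφ.2
          rw [← geo_norm c u hu hcu ρ] at h1
          have h2 : ‖f φ‖ ^ 2 < 1 := h1
          nlinarith [norm_nonneg (f φ)]
    rw [himg]
    apply hP.image
    apply Continuous.continuousOn
    simp only [f]
    fun_prop

end MD12

end S_GEO

section S_GEO2

/-! # GEO2: a common point of a circle and the unit circle is a limit of points of the circle in
the unit disk, if there is one point of the circle in the unit disk.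

Case `a = 0`: the points `(1-t) y + t y₀`, `0 < t ≤ 1`, are in the set (`‖·‖²` of it is
`(1-t)² + t²‖y₀‖² + 2t(1-t) Re(conj y y₀) < 1`).
Case `a ≠ 0`: with `c = -b/a`, `ρ² = (‖b‖² - a d)/a² > 0` the circle is `c + ρ e^{iφ}` and
`‖z‖² = ‖c‖² + ρ² + 2ρ‖c‖ cos(φ - α)`, `α = arg c`; `c ≠ 0` since `‖y₀‖ ≠ ‖y‖`; let
`y = c + ρ e^{iφ}`; `cos(φ - α) > cos(φ₀ - α) ≥ -1`, so moving `φ` a bit away from `α` (in the direction in
which `cos` decreases; if `cos (φ-α) = 1` any direction) strictly decreases `cos`.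
(Formal proof: the rational parametrisation of the circle by the lines through `y`.)
-/

namespace MD12

open Complex Metric Set Filter Topology InnerProductSpace
open scoped ComplexConjugate

/-- the second point of the circle on the line through `y` with direction `(a y + b)(I + t)` -/
private noncomputable def geo2Z (C : GD) (y : ℂ) (t : ℝ) : ℂ :=
  y - ((2 * t / (C.a * (1 + t ^ 2)) : ℝ) : ℂ) * ((C.a * y + C.b) * (I + t))

private theorem geo2Z_Q (C : GD) {y : ℂ} (hQ : C.Q y = 0) (ha : C.a ≠ 0) (t : ℝ) :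
    C.Q (geo2Z C y t) = 0 := by
  have hN : (1 + t ^ 2) ≠ 0 := by positivity
  set u : ℝ := 2 * t / (C.a * (1 + t ^ 2)) with hu
  have hu' : C.a * u * (1 + t ^ 2) = 2 * t := by
    rw [hu]; field_simp
  have hz : geo2Z C y t = y - (u : ℂ) * ((C.a * y + C.b) * (I + t)) := rfl
  rw [hz]
  unfold GD.Q at hQ ⊢
  simp only [← Complex.normSq_eq_norm_sq, Complex.normSq_apply, Complex.add_re,
        Complex.add_im, Complex.mul_re, Complex.mul_im, Complex.conj_re, Complex.conj_im,
        Complex.ofReal_re, Complex.ofReal_im, Complex.sub_re, Complex.sub_im, Complex.I_re,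
        Complex.I_im] at hQ ⊢
  linear_combination hQ + u * ((C.a * y.re + C.b.re) ^ 2 + (C.a * y.im + C.b.im) ^ 2) * hu'

private theorem geo2Z_norm (C : GD) {y : ℂ} (hy : ‖y‖ = 1) (ha : C.a ≠ 0) (t : ℝ) :
    C.a ^ 2 * (1 + t ^ 2) * (‖geo2Z C y t‖ ^ 2 - 1) =
      4 * t * (C.a * (y.re * C.b.im - y.im * C.b.re) +
        t * ((C.a * y.re + C.b.re) * C.b.re + (C.a * y.im + C.b.im) * C.b.im)) := by
  have hN : (1 + t ^ 2) ≠ 0 := by positivity
  set u : ℝ := 2 * t / (C.a * (1 + t ^ 2)) with hu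
  have hu' : C.a * u * (1 + t ^ 2) = 2 * t := by
    rw [hu]; field_simp
  have hz : geo2Z C y t = y - (u : ℂ) * ((C.a * y + C.b) * (I + t)) := rfl
  have hy2 : y.re * y.re + y.im * y.im = 1 := by
    have h1 : ‖y‖ ^ 2 = 1 := by rw [hy]; norm_num
    rw [← Complex.normSq_eq_norm_sq, Complex.normSq_apply] at h1
    exact h1
  rw [hz]
  simp only [← Complex.normSq_eq_norm_sq, Complex.normSq_apply, Complex.add_re,
        Complex.add_im, Complex.mul_re, Complex.mul_im,
        Complex.ofReal_re, Complex.ofReal_im, Complex.sub_re, Complex.sub_im, Complex.I_re,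
        Complex.I_im]
  linear_combination C.a ^ 2 * (1 + t ^ 2) * hy2 +
    (-2 * C.a * (y.re * ((C.a * y.re + C.b.re) * t - (C.a * y.im + C.b.im)) +
        y.im * ((C.a * y.re + C.b.re) + (C.a * y.im + C.b.im) * t)) +
      (C.a * u * (1 + t ^ 2) + 2 * t) *
        ((C.a * y.re + C.b.re) ^ 2 + (C.a * y.im + C.b.im) ^ 2)) * hu'

private theorem geo2Z_cont (C : GD) (y : ℂ) (ha : C.a ≠ 0) : Continuous (geo2Z C y) := by
  unfold geo2Z
  have h1 : Continuous fun t : ℝ => 2 * t / (C.a * (1 + t ^ 2)) := by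
    refine Continuous.div (by fun_prop) (by fun_prop) fun t => ?_
    have hN : (1 + t ^ 2) ≠ 0 := by positivity
    exact mul_ne_zero ha hN
  have h2 : Continuous fun t : ℝ => ((2 * t / (C.a * (1 + t ^ 2)) : ℝ) : ℂ) :=
    Complex.continuous_ofReal.comp h1
  have h3 : Continuous fun t : ℝ => ((C.a : ℂ) * y + C.b) * (I + (t : ℂ)) := by fun_prop
  exact continuous_const.sub (h2.mul h3)

private theorem geo2Z_zero (C : GD) (y : ℂ) : geo2Z C y 0 = y := by
  simp [geo2Z]

private theorem geo2Z_lt (C : GD) {y : ℂ} (hy : ‖y‖ = 1) (ha : C.a ≠ 0) (t : ℝ)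
    (h : t * (C.a * (y.re * C.b.im - y.im * C.b.re) +
        t * ((C.a * y.re + C.b.re) * C.b.re + (C.a * y.im + C.b.im) * C.b.im)) < 0) :
    ‖geo2Z C y t‖ < 1 := by
  have h1 := geo2Z_norm C hy ha t
  have h2 : 0 < C.a ^ 2 * (1 + t ^ 2) := by positivity
  have h3 : C.a ^ 2 * (1 + t ^ 2) * (‖geo2Z C y t‖ ^ 2 - 1) < 0 := by
    rw [h1]; linarith
  have h4 : ‖geo2Z C y t‖ ^ 2 - 1 < 0 := by
    by_contra hcon
    push Not at hcon
    have := mul_nonneg h2.le hcon
    linarith
  nlinarith [norm_nonneg (geo2Z C y t)]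

theorem circ_closure (C : GD) {y₀ y : ℂ} (h0 : C.Q y₀ = 0) (h0' : ‖y₀‖ < 1) (h : C.Q y = 0)
    (hy : ‖y‖ = 1) : y ∈ closure {z : ℂ | C.Q z = 0 ∧ ‖z‖ < 1} := by
  by_cases ha : C.a = 0
  · -- a line
    have hev : ∀ᶠ t : ℝ in 𝓝[>] 0, (1 - (t : ℂ)) * y + t * y₀ ∈ {z : ℂ | C.Q z = 0 ∧ ‖z‖ < 1} := by
      have h1 : ∀ᶠ t : ℝ in 𝓝[>] 0, t < 1 := nhdsWithin_le_nhds (Iio_mem_nhds one_pos)
      filter_upwards [h1, self_mem_nhdsWithin] with t ht1 ht0
      have ht0' : 0 < t := ht0
      refine ⟨?_, ?_⟩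
      · unfold GD.Q at h h0 ⊢
        rw [ha] at h h0 ⊢
        simp only [Complex.add_re,
          Complex.add_im, Complex.mul_re, Complex.mul_im, Complex.conj_re, Complex.conj_im,
          Complex.ofReal_re, Complex.ofReal_im, Complex.sub_re, Complex.sub_im, Complex.one_re,
          Complex.one_im] at h h0 ⊢
        linear_combination (1 - t) * h + t * h0
      · have e1 : ‖(1 - (t : ℂ)) * y‖ = 1 - t := by
          have : (1 - (t : ℂ)) = ((1 - t : ℝ) : ℂ) := by push_cast; ring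
          rw [norm_mul, this, Complex.norm_real, Real.norm_eq_abs, abs_of_pos (by linarith), hy,
            mul_one]
        have e2 : ‖(t : ℂ) * y₀‖ = t * ‖y₀‖ := by
          rw [norm_mul, Complex.norm_real, Real.norm_eq_abs, abs_of_pos ht0']
        calc ‖(1 - (t : ℂ)) * y + t * y₀‖ ≤ ‖(1 - (t : ℂ)) * y‖ + ‖(t : ℂ) * y₀‖ := norm_add_le _ _
          _ = (1 - t) + t * ‖y₀‖ := by rw [e1, e2]
          _ < 1 := by nlinarith
    have hlim : Tendsto (fun t : ℝ => (1 - (t : ℂ)) * y + t * y₀) (𝓝[>] 0) (𝓝 y) := by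
      have hc : Continuous fun t : ℝ => (1 - (t : ℂ)) * y + t * y₀ := by fun_prop
      have := (hc.tendsto 0).mono_left (nhdsWithin_le_nhds (s := Ioi 0))
      simpa using this
    exact mem_closure_of_tendsto hlim hev
  · -- a circle
    set J : ℝ := y.re * C.b.im - y.im * C.b.re with hJ
    set K : ℝ := (C.a * y.re + C.b.re) * C.b.re + (C.a * y.im + C.b.im) * C.b.im with hK
    have hlim : ∀ q : ℝ, Tendsto (fun s : ℝ => geo2Z C y (q * s)) (𝓝[>] 0) (𝓝 y) := by
      intro q
      have hc : Continuous fun s : ℝ => geo2Z C y (q * s) :=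
        (geo2Z_cont C y ha).comp (by fun_prop)
      have := (hc.tendsto 0).mono_left (nhdsWithin_le_nhds (s := Ioi 0))
      simpa [geo2Z_zero] using this
    by_cases hJ0 : J = 0
    · -- tangential case: `K < 0`
      have hKneg : K < 0 := by
        have hy2 : y.re * y.re + y.im * y.im = 1 := by
          have h1 : ‖y‖ ^ 2 = 1 := by rw [hy]; norm_num
          rw [← Complex.normSq_eq_norm_sq, Complex.normSq_apply] at h1
          exact h1
        have hy02 : y₀.re * y₀.re + y₀.im * y₀.im < 1 := by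
          have h1 : ‖y₀‖ ^ 2 < 1 := by nlinarith [norm_nonneg y₀]
          rw [← Complex.normSq_eq_norm_sq, Complex.normSq_apply] at h1
          exact h1
        set bt : ℝ := C.b.re * y.re + C.b.im * y.im with hbt
        have hb1 : C.b.re = bt * y.re := by
          rw [hbt]
          linear_combination (-C.b.re) * hy2 - y.im * (hJ.symm.trans hJ0)
        have hb2 : C.b.im = bt * y.im := by
          rw [hbt]
          linear_combination (-C.b.im) * hy2 + y.re * (hJ.symm.trans hJ0)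
        unfold GD.Q at h h0
        simp only [← Complex.normSq_eq_norm_sq, Complex.normSq_apply, Complex.mul_re,
          Complex.conj_re, Complex.conj_im] at h h0
        rw [hb1, hb2] at h h0
        set p : ℝ := y₀.re * y₀.re + y₀.im * y₀.im with hp
        set q : ℝ := y.re * y₀.re + y.im * y₀.im with hq
        have e1 : C.a * (1 - p) + 2 * bt * (1 - q) = 0 := by
          rw [hp, hq]
          linear_combination h - h0 + (-C.a - 2 * bt) * hy2
        have e2 : 1 + p - 2 * q = (y.re - y₀.re) ^ 2 + (y.im - y₀.im) ^ 2 := by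
          rw [hp, hq]
          linear_combination -hy2
        have hne : y ≠ y₀ := by
          intro hcon
          rw [← hcon, hy] at h0'
          exact lt_irrefl _ h0'
        have e3 : 0 < 1 + p - 2 * q := by
          rw [e2]
          rcases ne_or_eq y.re y₀.re with h1 | h1
          · have : 0 < (y.re - y₀.re) ^ 2 := by
              have := sub_ne_zero.2 h1
              positivity
            positivity
          · have h2 : y.im ≠ y₀.im := fun h2 => hne (Complex.ext h1 h2)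
            have : 0 < (y.im - y₀.im) ^ 2 := by
              have := sub_ne_zero.2 h2
              positivity
            positivity
        have hKe : K = (C.a + bt) * bt := by
          rw [hK, hb1, hb2]
          linear_combination (C.a + bt) * bt * hy2
        rw [hKe]
        -- `2 (1 - q) > 1 - p > 0`
        have h1p : 0 < 1 - p := by linarith
        have h1q : 0 < 1 - q := by linarith
        have e4 : 2 * bt * (1 - q) = -(C.a * (1 - p)) := by linarith
        -- multiply by `4 (1-q)^2`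
        have e5 : 4 * (1 - q) ^ 2 * ((C.a + bt) * bt) =
            -(C.a ^ 2 * (1 - p) * (1 + p - 2 * q)) := by
          have : 4 * (1 - q) ^ 2 * ((C.a + bt) * bt) =
              (2 * C.a * (1 - q) + 2 * bt * (1 - q)) * (2 * bt * (1 - q)) := by ring
          rw [this, e4]
          ring
        have h6 : 0 < C.a ^ 2 * (1 - p) * (1 + p - 2 * q) := by positivity
        by_contra hcon
        push Not at hcon
        have h7 : 0 ≤ 4 * (1 - q) ^ 2 * ((C.a + bt) * bt) := by positivity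
        linarith
      refine mem_closure_of_tendsto (hlim 1) ?_
      filter_upwards [self_mem_nhdsWithin] with s hs
      have hs' : 0 < s := hs
      refine ⟨geo2Z_Q C h ha _, geo2Z_lt C hy ha _ ?_⟩
      rw [← hJ, ← hK, hJ0]
      nlinarith [mul_pos hs' hs']
    · -- transversal case
      refine mem_closure_of_tendsto (hlim (-(C.a * J))) ?_
      have h1 : ∀ᶠ s : ℝ in 𝓝[>] 0, s * K < 1 := by
        have hc : Tendsto (fun s : ℝ => s * K) (𝓝[>] 0) (𝓝 (0 * K)) :=
          ((continuous_id.mul continuous_const).tendsto 0).mono_left nhdsWithin_le_nhds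
        exact hc.eventually (Iio_mem_nhds (by rw [zero_mul]; exact one_pos))
      filter_upwards [h1, self_mem_nhdsWithin] with s hsK hs
      have hs' : 0 < s := hs
      refine ⟨geo2Z_Q C h ha _, geo2Z_lt C hy ha _ ?_⟩
      rw [← hJ, ← hK]
      have h2 : 0 < (C.a * J) ^ 2 := by
        have := mul_ne_zero ha hJ0
        positivity
      have h3 : -(C.a * J) * s * (C.a * J + -(C.a * J) * s * K) =
          -((C.a * J) ^ 2 * s * (1 - s * K)) := by ring
      rw [h3]
      have h4 : 0 < (C.a * J) ^ 2 * s * (1 - s * K) := by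
        have : 0 < 1 - s * K := by linarith
        positivity
      linarith

end MD12

end S_GEO2

section S_SEG

/-! # SEG: a path from `z` to the circle inside the segment `[z, R z]`

The line through `z` and `R z` is orthogonal to the circle.  Algebra: let `D = C.den z ≠ 0`,
`N = ‖D‖²`, `Δ = ‖b‖² - a d > 0`.  One has `R z - z = -Q(z)/D`, i.e.
`R z = z - Q(z) conj D / N` (from `z * den z + (b conj z + d) = Q z`, see `GD.R_of_Q_zero` in Alg.lean).
For real `t` put `w_t = z + t (R z - z)`.  Then (with `q = Q z`, `N = a q + Δ`)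
`den w_t = D (1 - t a q / N)`, `Q w_t = q (1 - 2 t + t² a q / N)`.
(Check: `Q(z + v) = Q z + 2 Re(D v) + a ‖v‖²` for every `v`, `v = -t q conj D / N`.)
`Q(w_1) = q (a q/N - 1) = -q Δ/N`, opposite sign to `q`.
The set `S = {w_t | t ∈ [0, t₀]}` where `t₀ ∈ (0,1)` is the root of `1 - 2t + t² a q/N` in `[0,1]` (exactly one
root in `[0,1]`: value `1` at `0`, `-Δ/N < 0` at `1`, and the quadratic is monotone or convex/concave:
use the smallest root, or IVT plus `sInf`; on `[0,t₀)` it is positive).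
`den w_t ≠ 0` for `t ∈ [0,1]`: `1 - t a q/N` is between `1` and `1 - a q / N = Δ/N > 0`.
`R w_t = w_t - Q(w_t)/den(w_t) = z + s (R z - z)` with
`s = t + (1 - 2t + t² a q/N)/(1 - t a q/N) = (1 - t)/(1 - t a q/N)`; it is in `[0,1]` for `t ∈ [0,t₀]`: `s ≥ 0` clear and
`s ≤ 1` iff `t a q/N ≤ t` iff `a q ≤ N = a q + Δ`.
-/

namespace MD12

open Complex Metric Set Filter Topology InnerProductSpace
open scoped ComplexConjugate

/-- `z * den z + (b conj z + d) = Q z` -/
theorem GD.seg_mul_den (C : GD) (z : ℂ) : z * C.den z + (C.b * conj z + C.d) = (C.Q z : ℂ) := by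
  apply Complex.ext
  · unfold GD.Q GD.den
    simp only [← Complex.normSq_eq_norm_sq, Complex.normSq_apply, Complex.add_re,
      Complex.add_im, Complex.mul_re, Complex.mul_im, Complex.conj_re, Complex.conj_im,
      Complex.ofReal_re, Complex.ofReal_im]
    ring
  · unfold GD.Q GD.den
    simp only [← Complex.normSq_eq_norm_sq, Complex.normSq_apply, Complex.add_re,
      Complex.add_im, Complex.mul_re, Complex.mul_im, Complex.conj_re, Complex.conj_im,
      Complex.ofReal_re, Complex.ofReal_im]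
    ring

theorem GD.seg_R (C : GD) {z : ℂ} (h : C.den z ≠ 0) : C.R z = z - C.Q z / C.den z := by
  have hR : C.R z = -(C.b * conj z + C.d) / C.den z := rfl
  rw [hR, ← C.seg_mul_den z]
  field_simp
  ring

theorem GD.seg_norm_den (C : GD) (z : ℂ) :
    C.a * C.Q z + (‖C.b‖ ^ 2 - C.a * C.d) = ‖C.den z‖ ^ 2 := by
  unfold GD.Q GD.den
  simp only [← Complex.normSq_eq_norm_sq, Complex.normSq_apply, Complex.add_re,
      Complex.add_im, Complex.mul_re, Complex.mul_im, Complex.conj_re, Complex.conj_im,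
      Complex.ofReal_re, Complex.ofReal_im]
  ring

theorem GD.seg_Q_add (C : GD) (z v : ℂ) :
    C.Q (z + v) = C.Q z + 2 * (C.den z * v).re + C.a * ‖v‖ ^ 2 := by
  unfold GD.Q GD.den
  simp only [← Complex.normSq_eq_norm_sq, Complex.normSq_apply, Complex.add_re,
      Complex.add_im, Complex.mul_re, Complex.mul_im, Complex.conj_re, Complex.conj_im,
      Complex.ofReal_re, Complex.ofReal_im]
  ring

theorem seg_path (C : GD) {z : ℂ} (hz : C.Q z ≠ 0) (hd : C.den z ≠ 0) :
    ∃ (S : Set ℂ) (y : ℂ), IsPreconnected S ∧ z ∈ S ∧ y ∈ S ∧ C.Q y = 0 ∧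
      IsPreconnected (S \ {y}) ∧ y ∈ closure (S \ {y}) ∧
      ∀ w ∈ S, w ∈ segment ℝ z (C.R z) ∧ C.den w ≠ 0 ∧ C.R w ∈ segment ℝ z (C.R z) ∧
        (w ≠ y → 0 < C.Q w * C.Q z) := by
  set D : ℂ := C.den z with hDdef
  set q : ℝ := C.Q z with hqdef
  set N : ℝ := ‖D‖ ^ 2 with hNdef
  have hN : 0 < N := by
    have := norm_pos_iff.mpr hd
    positivity
  set c : ℝ := C.a * q / N with hcdef
  have hcN : c * N = C.a * q := by
    rw [hcdef]
    exact div_mul_cancel₀ _ hN.ne'
  have hΔ : 0 < (1 - c) * N := by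
    have h1 := C.seg_norm_den z
    have h2 := C.pos
    have h3 : (1 - c) * N = ‖C.b‖ ^ 2 - C.a * C.d := by
      rw [sub_mul, hcN, one_mul]
      linarith
    rw [h3]
    linarith
  have hc1 : 0 < 1 - c := by
    by_contra hcon
    push Not at hcon
    nlinarith
  set σ : ℝ := Real.sqrt (1 - c) with hσdef
  have hσ : 0 < σ := Real.sqrt_pos.mpr hc1
  have hσ2 : σ ^ 2 = 1 - c := Real.sq_sqrt hc1.le
  set v : ℂ := C.R z - z with hvdef
  have hv : v = -(q : ℂ) / D := by
    rw [hvdef, C.seg_R hd]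
    ring
  have hDv : D * v = -(q : ℂ) := by
    rw [hv]
    field_simp
  have hvne : v ≠ 0 := by
    intro h0
    rw [h0, mul_zero] at hDv
    apply hz
    have : (q : ℂ) = 0 := by linear_combination hDv
    exact_mod_cast this
  have hNc : D * conj D = (N : ℂ) := by
    rw [Complex.mul_conj, Complex.normSq_eq_norm_sq]
  have hvn : ‖v‖ ^ 2 * N = q ^ 2 := by
    rw [hNdef, ← mul_pow, mul_comm, ← norm_mul, hDv]
    simp
  set w : ℝ → ℂ := fun t => z + t * v with hwdef
  have hwc : Continuous w := by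
    rw [hwdef]
    fun_prop
  have hwinj : Function.Injective w := by
    intro s t hst
    have h1 : (s : ℂ) * v = t * v := by
      have : z + (s : ℂ) * v = z + t * v := hst
      linear_combination this
    have h2 := mul_right_cancel₀ hvne h1
    exact_mod_cast h2
  have hden : ∀ t : ℝ, C.den (w t) = D * ((1 - t * c : ℝ) : ℂ) := by
    intro t
    have h1 : C.den (w t) = D + C.a * t * conj v := by
      rw [hDdef, hwdef]
      unfold GD.den
      simp only [map_add, map_mul, conj_ofReal]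
      ring
    have hDc : conj D ≠ 0 := by simpa using hd
    have h2 : conj D * conj v = -(q : ℂ) := by
      rw [← map_mul, hDv]
      simp
    rw [h1]
    apply mul_right_cancel₀ hDc
    have h3 : ((c * N : ℝ) : ℂ) = ((C.a * q : ℝ) : ℂ) := by rw [hcN]
    push_cast at h3 ⊢
    linear_combination (C.a * t : ℂ) * h2 + ((t : ℂ) * c) * hNc + t * h3
  have hQ : ∀ t : ℝ, C.Q (w t) = q * ((1 - (1 + σ) * t) * (1 - (1 - σ) * t)) := by
    intro t
    have h1 : C.Q (w t) = q + 2 * (D * (t * v)).re + C.a * ‖(t : ℂ) * v‖ ^ 2 := C.seg_Q_add z _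
    have h2 : D * (t * v) = ((-(t * q) : ℝ) : ℂ) := by
      push_cast
      linear_combination (t : ℂ) * hDv
    have h3 : C.a * ‖(t : ℂ) * v‖ ^ 2 = t ^ 2 * (q * c) := by
      rw [norm_mul, mul_pow, Complex.norm_real, Real.norm_eq_abs, sq_abs]
      have h4 : C.a * ‖v‖ ^ 2 = q * c := by
        apply mul_right_cancel₀ hN.ne'
        have : C.a * ‖v‖ ^ 2 * N = C.a * (‖v‖ ^ 2 * N) := by ring
        rw [this, hvn, mul_assoc, hcN]
        ring
      calc C.a * (t ^ 2 * ‖v‖ ^ 2) = t ^ 2 * (C.a * ‖v‖ ^ 2) := by ring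
        _ = t ^ 2 * (q * c) := by rw [h4]
    rw [h1, h2, h3, Complex.ofReal_re]
    have h5 : c = 1 - σ ^ 2 := by linarith
    rw [h5]
    ring
  set t₀ : ℝ := 1 / (1 + σ) with ht₀def
  have ht₀pos : 0 < t₀ := by positivity
  have ht₀mul : (1 + σ) * t₀ = 1 := by
    rw [ht₀def]
    field_simp
  have ht₀lt : t₀ < 1 := by nlinarith
  have hfac : ∀ t : ℝ, 0 ≤ t → t < t₀ → 0 < (1 - (1 + σ) * t) * (1 - (1 - σ) * t) := by
    intro t h0 h1
    apply mul_pos
    · nlinarith
    · nlinarith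
  have hseg : ∀ t : ℝ, 0 ≤ t → t ≤ 1 → w t ∈ segment ℝ z (C.R z) := by
    intro t h0 h1
    rw [segment_eq_image']
    refine ⟨t, ⟨h0, h1⟩, ?_⟩
    rw [hwdef]
    simp [hvdef]
  have hdenpos : ∀ t : ℝ, 0 ≤ t → t ≤ 1 → 0 < 1 - t * c := by
    intro t h0 h1
    rcases le_total c 0 with hc | hc
    · nlinarith
    · nlinarith
  have hRw : ∀ t : ℝ, 0 ≤ t → t ≤ 1 → C.R (w t) = w ((1 - t) / (1 - t * c)) := by
    intro t h0 h1
    have hp := hdenpos t h0 h1
    have hne : C.den (w t) ≠ 0 := by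
      rw [hden]
      refine mul_ne_zero hd ?_
      exact_mod_cast hp.ne'
    rw [C.seg_R hne, hden, hQ]
    have hpc : ((1 : ℂ) - t * c) ≠ 0 := by exact_mod_cast hp.ne'
    have hq : (q : ℂ) = -(D * v) := by linear_combination hDv
    rw [hwdef]
    simp only
    push_cast
    rw [hq]
    have h5 : (c : ℂ) = 1 - (σ : ℂ) ^ 2 := by
      have : c = 1 - σ ^ 2 := by linarith
      rw [this]
      push_cast
      ring
    field_simp
    rw [h5]
    ring
  refine ⟨w '' Icc 0 t₀, w t₀, ?_, ⟨0, ⟨le_rfl, ht₀pos.le⟩, ?_⟩, ⟨t₀, ⟨ht₀pos.le, le_rfl⟩, rfl⟩, ?_,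
    ?_, ?_, ?_⟩
  · exact isPreconnected_Icc.image _ hwc.continuousOn
  · rw [hwdef]
    simp
  · rw [hQ, ht₀mul]
    simp
  · have h1 : w '' Icc 0 t₀ \ {w t₀} = w '' Ico 0 t₀ := by
      rw [← image_singleton, ← image_sdiff hwinj, Icc_sdiff_right]
    rw [h1]
    exact isPreconnected_Ico.image _ hwc.continuousOn
  · have h1 : w '' Icc 0 t₀ \ {w t₀} = w '' Ico 0 t₀ := by
      rw [← image_singleton, ← image_sdiff hwinj, Icc_sdiff_right]
    rw [h1]
    apply image_closure_subset_closure_image hwc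
    rw [closure_Ico ht₀pos.ne]
    exact ⟨t₀, ⟨ht₀pos.le, le_rfl⟩, rfl⟩
  · rintro _ ⟨t, ⟨h0, h1⟩, rfl⟩
    have ht1 : t ≤ 1 := h1.trans ht₀lt.le
    have hp := hdenpos t h0 ht1
    refine ⟨hseg t h0 ht1, ?_, ?_, ?_⟩
    · rw [hden]
      refine mul_ne_zero hd ?_
      exact_mod_cast hp.ne'
    · rw [hRw t h0 ht1]
      apply hseg
      · apply div_nonneg _ hp.le
        linarith
      · rw [div_le_one hp]
        nlinarith
    · intro hne
      have hlt : t < t₀ := by
        rcases h1.lt_or_eq with h | h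
        · exact h
        · exact absurd (by rw [h]) hne
      rw [hQ]
      have h3 := hfac t h0 hlt
      have h4 : 0 < q ^ 2 := by positivity
      nlinarith
end MD12

end S_SEG

section S_EEd

/-! # EE: points of the unit circle, half planes through the center (complete, helper12) -/

namespace MD12

open Complex Metric Set Filter Topology InnerProductSpace
open scoped ComplexConjugate

/-- the point `e^{iφ}` of the unit circle -/
noncomputable def EE (φ : ℝ) : ℂ := exp (φ * I)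

theorem EE_add (φ ψ : ℝ) : EE (φ + ψ) = EE φ * EE ψ := by
  unfold EE
  rw [← exp_add]
  congr 1
  push_cast
  ring

theorem EE_zero : EE 0 = 1 := by simp [EE]

theorem EE_pi : EE Real.pi = -1 := by simp [EE, Complex.exp_pi_mul_I]

theorem EE_neg_mul (φ : ℝ) : EE (-φ) * EE φ = 1 := by
  rw [← EE_add]
  simp [EE_zero]

theorem EE_mul_neg (φ : ℝ) : EE φ * EE (-φ) = 1 := by
  rw [← EE_add]
  simp [EE_zero]

theorem EE_ne_zero (φ : ℝ) : EE φ ≠ 0 := exp_ne_zero _

theorem norm_EE (φ : ℝ) : ‖EE φ‖ = 1 := by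
  unfold EE
  exact Complex.norm_exp_ofReal_mul_I φ

theorem conj_EE (φ : ℝ) : conj (EE φ) = EE (-φ) := by
  unfold EE
  rw [← Complex.exp_conj]
  simp

theorem EE_add_two_pi (φ : ℝ) : EE (φ + 2 * Real.pi) = EE φ := by
  rw [EE_add]
  have : EE (2 * Real.pi) = 1 := by
    unfold EE
    push_cast
    exact Complex.exp_two_pi_mul_I
  rw [this, mul_one]

theorem EE_add_int (φ : ℝ) (n : ℤ) : EE (φ + 2 * Real.pi * n) = EE φ := by
  rw [EE_add]
  have : EE (2 * Real.pi * n) = 1 := by
    unfold EE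
    rw [Complex.exp_eq_one_iff]
    exact ⟨n, by push_cast; ring⟩
  rw [this, mul_one]

theorem EE_re (φ : ℝ) : (EE φ).re = Real.cos φ := by
  unfold EE
  exact Complex.exp_ofReal_mul_I_re φ

theorem EE_im (φ : ℝ) : (EE φ).im = Real.sin φ := by
  unfold EE
  exact Complex.exp_ofReal_mul_I_im φ

theorem exists_EE {x : ℂ} (hx : ‖x‖ = 1) : ∃ φ : ℝ, x = EE φ := by
  refine ⟨x.arg, ?_⟩
  have := Complex.norm_mul_exp_arg_mul_I x
  rw [hx] at this
  simpa [EE] using this.symm

theorem continuous_EE : Continuous EE := by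
  unfold EE
  fun_prop

/-- a half plane `{Im (e^{-iθ} z) > 0}` (up to a positive factor) -/
def IsHP (θ : ℝ) (C : GD) : Prop :=
  C.a = 0 ∧ C.d = 0 ∧ ∃ t : ℝ, 0 < t ∧ C.b = -(t * (I * EE θ))

theorem IsHP.R_eq {θ : ℝ} {C : GD} (h : IsHP θ C) (z : ℂ) : C.R z = EE (2 * θ) * conj z := by
  obtain ⟨ha, hd, t, ht, hb⟩ := h
  have ht' : (t : ℂ) ≠ 0 := by exact_mod_cast ht.ne'
  unfold GD.R
  rw [ha, hd, hb]
  have h1 : conj (-((t : ℂ) * (I * EE θ))) = t * (I * EE (-θ)) := by
    rw [map_neg, map_mul, map_mul, conj_EE, conj_ofReal, conj_I]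
    ring
  rw [h1]
  have h2 : (t : ℂ) * (I * EE (-θ)) ≠ 0 :=
    mul_ne_zero ht' (mul_ne_zero I_ne_zero (EE_ne_zero _))
  push_cast
  simp only [zero_mul, zero_add, add_zero]
  rw [div_eq_iff h2]
  have h3 : EE (2 * θ) = EE θ * EE θ := by rw [two_mul, EE_add]
  have h4 := EE_mul_neg θ
  rw [h3]
  linear_combination (-(t : ℂ) * I * EE θ * conj z) * h4

theorem IsHP.Q_eq {θ : ℝ} {C : GD} (h : IsHP θ C) :
    ∃ t : ℝ, 0 < t ∧ ∀ z, C.Q z = -(t * (EE (-θ) * z).im) := by
  obtain ⟨ha, hd, t, ht, hb⟩ := h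
  refine ⟨2 * t, by positivity, fun z => ?_⟩
  unfold GD.Q
  rw [ha, hd, hb]
  have h1 : conj (-((t : ℂ) * (I * EE θ))) = t * (I * EE (-θ)) := by
    rw [map_neg, map_mul, map_mul, conj_EE, conj_ofReal, conj_I]
    ring
  rw [h1]
  have h2 : (t : ℂ) * (I * EE (-θ)) * z = t * (I * (EE (-θ) * z)) := by ring
  rw [h2, Complex.re_ofReal_mul, Complex.I_mul_re]
  ring

theorem IsHP.Q_EE {θ : ℝ} {C : GD} (h : IsHP θ C) :
    ∃ t : ℝ, 0 < t ∧ ∀ φ, C.Q (EE φ) = -(t * Real.sin (φ - θ)) := by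
  obtain ⟨t, ht, hQ⟩ := h.Q_eq
  refine ⟨t, ht, fun φ => ?_⟩
  rw [hQ, ← EE_add, EE_im]
  congr 3
  ring

theorem IsHP.Q_neg {θ : ℝ} {C : GD} (h : IsHP θ C) (φ : ℝ) :
    C.Q (EE φ) < 0 ↔ 0 < Real.sin (φ - θ) := by
  obtain ⟨t, ht, hQ⟩ := h.Q_EE
  rw [hQ]
  constructor
  · intro h1
    by_contra h2
    push Not at h2
    nlinarith
  · intro h1
    nlinarith [mul_pos ht h1]

theorem IsHP.Q_pos {θ : ℝ} {C : GD} (h : IsHP θ C) (φ : ℝ) :
    0 < C.Q (EE φ) ↔ Real.sin (φ - θ) < 0 := by
  obtain ⟨t, ht, hQ⟩ := h.Q_EE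
  rw [hQ]
  constructor
  · intro h1
    by_contra h2
    push Not at h2
    nlinarith [mul_nonneg ht.le h2]
  · intro h1
    nlinarith

theorem IsHP.Q_zero {θ : ℝ} {C : GD} (h : IsHP θ C) (φ : ℝ) :
    C.Q (EE φ) = 0 ↔ Real.sin (φ - θ) = 0 := by
  obtain ⟨t, ht, hQ⟩ := h.Q_EE
  rw [hQ, neg_eq_zero, mul_eq_zero]
  constructor
  · rintro (h1 | h1)
    · exact absurd h1 ht.ne'
    · exact h1
  · exact Or.inr

theorem IsHP.Q_at_zero {θ : ℝ} {C : GD} (h : IsHP θ C) : C.Q 0 = 0 := by
  unfold GD.Q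
  simp [h.2.1]

theorem IsHP.add_two_pi {θ : ℝ} {C : GD} (h : IsHP θ C) (n : ℤ) :
    IsHP (θ + 2 * Real.pi * n) C := by
  obtain ⟨ha, hd, t, ht, hb⟩ := h
  exact ⟨ha, hd, t, ht, by rw [EE_add_int]; exact hb⟩

/-- a generalised disk with `a = d = 0` is a half plane through the center -/
theorem exists_IsHP {C : GD} (ha : C.a = 0) (hd : C.d = 0) : ∃ θ : ℝ, IsHP θ C := by
  have hb : C.b ≠ 0 := by
    intro h0
    have := C.pos
    rw [ha, h0] at this
    simp at this
  have hb' : 0 < ‖C.b‖ := norm_pos_iff.mpr hb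
  refine ⟨C.b.arg + Real.pi / 2, ha, hd, ‖C.b‖, hb', ?_⟩
  have h1 : EE (Real.pi / 2) = I := by
    unfold EE
    push_cast
    exact Complex.exp_pi_div_two_mul_I
  have h2 : (‖C.b‖ : ℂ) * EE C.b.arg = C.b := by
    unfold EE
    exact Complex.norm_mul_exp_arg_mul_I C.b
  rw [EE_add, h1]
  linear_combination -h2 + (‖C.b‖ : ℂ) * EE C.b.arg * Complex.I_mul_I

end MD12

end S_EEd
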