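import Mathlib
import Pool.Agent.H12.MDM.A

/-! Multiple disks, part B (several modules joined). -/

section S_MIRA

/-! # MIRA: `U = V` near the part of the circle of a good disk in the closed unit disk

`V` is harmonic at every `y` with `C.Q y = 0`, `‖y‖ ≤ 1`: `hN.har y (hB _) (y ∉ K) _` where `y ∈ K` would
give `0 < C.Q y` by `hN.disK`, and for `C' ∈ I`: if `C' = C` then `0 ≤ C.Q y`; otherwise
`0 < C'.Q y` by `hN.dis C hC C' _ _ y _ _`.
(1) `har_ident` along `{Q = 0, ‖·‖ < 1}` (`circ_preconn`) starting from the point given by `Good`.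
(2) `circ_closure` gives `∃ᶠ z in 𝓝 y, ‖z‖ < 1 ∧ U =ᶠ[𝓝 z] V`; then `har_ident_disk`.
(3) `Ext.of_germ`.
-/

namespace MD12

open Complex Metric Set Filter Topology InnerProductSpace
open scoped ComplexConjugate

theorem har_on_circle {γ κ : ℝ} {B K : Set ℂ} {V : ℂ → ℝ} {I : Finset GD}
    (hN : NL γ κ B K V I) {C : GD} (hC : C ∈ I) {y : ℂ} (hy : y ∈ B) (h : C.Q y = 0) :
    HarmonicAt V y := by
  refine hN.har y hy (fun hK => ?_) (fun C' hC' => ?_)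
  · have := hN.disK C hC y hy hK
    linarith
  · by_cases hCC : C' = C
    · rw [hCC, h]
    · exact (hN.dis C hC C' hC' (fun h' => hCC h'.symm) y hy h.le).le

theorem mir_a {γ κ : ℝ} {B K : Set ℂ} {U V : ℂ → ℝ} {I : Finset GD}
    (hB : closedBall 0 1 ⊆ B) (hU : ∀ z, ‖z‖ < 1 → HarmonicAt U z) (hN : NL γ κ B K V I) {C : GD}
    (hC : C ∈ I) (hg : Good U V C) :
    (∀ y, ‖y‖ < 1 → C.Q y = 0 → U =ᶠ[𝓝 y] V) ∧
    (∀ y, ‖y‖ = 1 → C.Q y = 0 → ∀ᶠ z in 𝓝 y, ‖z‖ < 1 → U =ᶠ[𝓝 z] V) ∧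
    (∀ y, ‖y‖ = 1 → C.Q y = 0 → Ext U y) := by
  obtain ⟨y₀, hy₀, hQ₀, hUV⟩ := hg
  have hmem : ∀ y : ℂ, ‖y‖ ≤ 1 → y ∈ B := fun y hy => hB (by
    rw [mem_closedBall_zero_iff]; exact hy)
  have h1 : ∀ z ∈ {z : ℂ | C.Q z = 0 ∧ ‖z‖ < 1}, U =ᶠ[𝓝 z] V :=
    har_ident (circ_preconn C) (fun z hz => hU z hz.2)
      (fun z hz => har_on_circle hN hC (hmem z hz.2.le) hz.1) ⟨hQ₀, hy₀⟩ hUV
  have h2 : ∀ y, ‖y‖ = 1 → C.Q y = 0 → ∀ᶠ z in 𝓝 y, ‖z‖ < 1 → U =ᶠ[𝓝 z] V := by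
    intro y hy hQ
    refine har_ident_disk hU hy (har_on_circle hN hC (hmem y hy.le) hQ) ?_
    have h3 := circ_closure C hQ₀ hy₀ hQ hy
    rw [mem_closure_iff_frequently] at h3
    exact h3.mono fun z hz => ⟨hz.2, h1 z hz⟩
  refine ⟨fun y hy hQ => h1 y ⟨hQ, hy⟩, h2, fun y hy hQ => ?_⟩
  exact Ext.of_germ (har_on_circle hN hC (hmem y hy.le) hQ) (h2 y hy hQ)

end MD12

end S_MIRA

section S_MIRB

/-! # MIRB: the transmission relation for `U` inside the unit disk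

`h` is the function given by `hN.ts C hC`.  Let `z` be as in the statement.  `seg_path` gives
`S`, `y`; `segment ℝ z (C.R z) ⊆ ball 0 1` (convex), so all `w ∈ S` satisfy `‖w‖ < 1`, `den w ≠ 0`,
`‖C.R w‖ < 1`, and `C.Q w < 0` if `w ≠ y`.  On `S \ {y}` the functions `w ↦ U w - γ * U (C.R w)` and
`w ↦ κ * h w` are harmonic (`har_comp_R`, `har_sub`, `har_const_mul`).  Near `y`: `U =ᶠ[𝓝 y] V` by `mir_a`, `C.R y = y`
(`GD.R_of_Q_zero`), `C.R` is continuous at `y`, so for `w` near `y` with `C.Q w < 0`: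
`U w - γ U (R w) = V w - γ V (R w) = κ h w` (by `ts`).  As `y ∈ closure (S \ {y})` there is
`w₀ ∈ S \ {y}` near `y`, and `{C.Q < 0}` is open, so the two functions agree near `w₀`.
`har_ident` on `S \ {y}` gives the equality at `z` (`z ≠ y` since `C.Q z < 0 = C.Q y`).
-/

namespace MD12

open Complex Metric Set Filter Topology InnerProductSpace
open scoped ComplexConjugate

theorem mir_b {γ κ : ℝ} {B K : Set ℂ} {U V : ℂ → ℝ} {I : Finset GD}
    (hB : closedBall 0 1 ⊆ B) (hU : ∀ z, ‖z‖ < 1 → HarmonicAt U z) (hN : NL γ κ B K V I) {C : GD}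
    (hC : C ∈ I) (hg : Good U V C) :
    ∃ h : ℂ → ℝ, (∀ z ∈ B, C.Q z < 0 → HarmonicAt h z) ∧
      ∀ z, ‖z‖ < 1 → C.Q z < 0 → C.den z ≠ 0 → ‖C.R z‖ < 1 →
        U z - γ * U (C.R z) = κ * h z := by
  obtain ⟨h, hh, hts⟩ := hN.ts C hC
  refine ⟨h, hh, fun z hz hQ hd hR => ?_⟩
  obtain ⟨S, y, -, hzS, hyS, hQy, hS', hycl, hprop⟩ := seg_path C hQ.ne hd
  have hseg : segment ℝ z (C.R z) ⊆ ball (0 : ℂ) 1 :=
    (convex_ball (0 : ℂ) 1).segment_subset (by simpa using hz) (by simpa using hR)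
  have hnorm : ∀ w ∈ S, ‖w‖ < 1 := fun w hw => by
    have := hseg (hprop w hw).1
    simpa using this
  have hnormR : ∀ w ∈ S, ‖C.R w‖ < 1 := fun w hw => by
    have := hseg (hprop w hw).2.2.1
    simpa using this
  have hmem : ∀ w : ℂ, ‖w‖ < 1 → w ∈ B := fun w hw => hB (by simpa using hw.le)
  have hneg : ∀ w ∈ S \ {y}, C.Q w < 0 := fun w hw => by
    have h1 := (hprop w hw.1).2.2.2 hw.2
    nlinarith
  have hy1 := hnorm y hyS
  have hgerm : U =ᶠ[𝓝 y] V := (mir_a hB hU hN hC hg).1 y hy1 hQy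
  have hRy : C.R y = y := C.R_of_Q_zero hQy
  have hRc : Tendsto C.R (𝓝 y) (𝓝 y) := by
    have h1 : ContinuousAt (fun z => conj (C.R z)) y :=
      (C.analyticAt_conj_R (C.den_ne_of_Q_zero hQy)).continuousAt
    have h2 : ContinuousAt (fun z => conj (conj (C.R z))) y :=
      (Complex.continuous_conj.continuousAt).comp h1
    have h3 : ContinuousAt C.R y := by simpa using h2
    have h4 : Tendsto C.R (𝓝 y) (𝓝 (C.R y)) := h3
    rwa [hRy] at h4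
  have hev : ∀ᶠ w in 𝓝 y, C.Q w < 0 → U w - γ * U (C.R w) = κ * h w := by
    filter_upwards [hgerm, hRc.eventually hgerm, hts y (hmem y hy1) hQy] with w h1 h2 h3 h4
    rw [h1, h2]
    exact h3 h4
  obtain ⟨w₀, hw₀S, hw₀⟩ : ∃ w₀, w₀ ∈ S \ {y} ∧
      ∀ᶠ w in 𝓝 w₀, C.Q w < 0 → U w - γ * U (C.R w) = κ * h w :=
    ((mem_closure_iff_frequently.1 hycl).and_eventually hev.eventually_nhds).exists
  have hQc : Continuous C.Q := by
    unfold GD.Q
    fun_prop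
  have hw₁ : ∀ᶠ w in 𝓝 w₀, C.Q w < 0 :=
    hQc.continuousAt.eventually (gt_mem_nhds (hneg w₀ hw₀S))
  have hw₂ : (fun w => U w - γ * U (C.R w)) =ᶠ[𝓝 w₀] fun w => κ * h w := by
    filter_upwards [hw₀, hw₁] with w h1 h2
    exact h1 h2
  have key := har_ident hS' (f := fun w => U w - γ * U (C.R w)) (g := fun w => κ * h w)
    (fun w hw => har_sub (hU w (hnorm w hw.1))
      (har_const_mul γ (har_comp_R C (hprop w hw.1).2.1 (hU _ (hnormR w hw.1)))))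
    (fun w hw => har_const_mul κ (hh w (hmem w (hnorm w hw.1)) (hneg w hw)))
    hw₀S hw₂ z ⟨hzS, fun h0 => by
      rw [Set.mem_singleton_iff] at h0
      rw [h0, hQy] at hQ
      exact lt_irrefl _ hQ⟩
  exact key.eq_of_nhds

end MD12

end S_MIRB

section S_MIRC

/-! # MIRC: where `U` extends, for a good disk

Write `Δ = ‖C.b‖² - C.a C.d > 0`.  `GD.norm_R_lt_one`: if `Δ (‖z‖² - 1) + (d - a) Q z < 0` then
`den z ≠ 0` and `‖R z‖ < 1`.

* `mir_c1` (`a < d`): `Q x = 0`: `mir_a`.  `Q x < 0`: the criterion holds at `x`, so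
  `HarmonicAt U (R x)` and `U ∘ R` is harmonic at `x`, `h` is harmonic at `x`; for `z` near `x` inside the
  disk `Q z < 0` and the criterion holds: `U z = γ U (R z) + κ h z`.
* `mir_c1'` (`d < a`): `Q x = 0`: `mir_a`.  `0 < Q x`: the criterion holds at `x` and for `z` near `x` inside;
  `R x` is in the disk, `Q (R x) < 0`; apply the relation at the point `R z` (`R (R z) = z`, `GD.R_R`,
  `GD.den_R_ne`): `U (R z) - γ U z = κ h (R z)`, `γ ≠ 0`.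
* `mir_c2` (`a = d`): `GD.den_ne_of_orth`, `GD.norm_R_orth`; `h` is harmonic at `x` (`x ∈ B`),
  resp. `h ∘ R` at `x` (`‖R x‖ = 1`, so `R x ∈ B`).
* `mir_inv` (`a = d`): `Q x = 0`: `R x = x`.  `Q x < 0`: if `Ext U (R x)` then `Ext (U ∘ R) x`
  (`Ext.comp_anti`, `GD.analyticAt_conj_R`, `GD.norm_R_orth`), so `Ext U x` from (i).  Conversely `Ext U x` gives
  `Ext (U ∘ R) x` (`γ ≠ 0`), `x = R (R x)`, composing with `R` at `R x`:
  `Ext (U ∘ R ∘ R) (R x)` and `U (R (R z)) = U z` inside.  `0 < Q x`: the same with (ii), or apply the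
  case `Q < 0` at `R x`.
-/

namespace MD12

open Complex Metric Set Filter Topology InnerProductSpace
open scoped ComplexConjugate

theorem mirc_crit (C : GD) {z : ℂ} (hz : ‖z‖ ≤ 1) (h : (C.d - C.a) * C.Q z < 0) :
    C.den z ≠ 0 ∧ ‖C.R z‖ < 1 := by
  apply C.norm_R_lt_one
  have h1 := C.pos
  have h2 : ‖z‖ ^ 2 ≤ 1 := by nlinarith [norm_nonneg z]
  nlinarith

theorem mirc_comp (C : GD) (had : C.a = C.d) {f : ℂ → ℝ} {x : ℂ} (hx : ‖x‖ = 1)
    (h : Ext f (C.R x)) : Ext (fun z => f (C.R z)) x :=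
  Ext.comp_anti h (C.analyticAt_conj_R (C.den_ne_of_orth had hx.le))
    (Eventually.of_forall fun _ hz => C.norm_R_orth had hz)

theorem mirc_comp_iff (C : GD) (had : C.a = C.d) {f : ℂ → ℝ} {x : ℂ} (hx : ‖x‖ = 1) :
    Ext (fun z => f (C.R z)) x ↔ Ext f (C.R x) := by
  refine ⟨fun h => ?_, mirc_comp C had hx⟩
  have hden := C.den_ne_of_orth had hx.le
  have h1 : Ext (fun z => f (C.R z)) (C.R (C.R x)) := by rw [C.R_R hden]; exact h
  have h2 := mirc_comp C had (C.norm_R_orth_eq had hx) h1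
  refine h2.congr (Eventually.of_forall fun z hz => ?_)
  rw [C.R_R (C.den_ne_of_orth had hz.le)]

theorem mir_c1 {γ κ : ℝ} {B K : Set ℂ} {U V : ℂ → ℝ} {I : Finset GD}
    (hB : closedBall 0 1 ⊆ B) (hU : ∀ z, ‖z‖ < 1 → HarmonicAt U z) (hN : NL γ κ B K V I) {C : GD}
    (hC : C ∈ I) (hg : Good U V C) (had : C.a < C.d) {x : ℂ} (hx : ‖x‖ = 1) (hQ : C.Q x ≤ 0) :
    Ext U x := by
  rcases hQ.lt_or_eq with hQ | hQ
  · obtain ⟨h, hhar, hrel⟩ := mir_b hB hU hN hC hg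
    have hxB : x ∈ B := hB (by simp [hx])
    obtain ⟨hden, hR⟩ := mirc_crit C hx.le (mul_neg_of_pos_of_neg (sub_pos.mpr had) hQ)
    refine ⟨fun z => γ * U (C.R z) + κ * h z,
      har_add (har_const_mul γ (har_comp_R C hden (hU _ hR))) (har_const_mul κ (hhar x hxB hQ)), ?_⟩
    filter_upwards [C.isOpen.mem_nhds hQ] with z hz hz1
    have hz : C.Q z < 0 := hz
    obtain ⟨hdz, hRz⟩ := mirc_crit C hz1.le (mul_neg_of_pos_of_neg (sub_pos.mpr had) hz)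
    have := hrel z hz1 hz hdz hRz
    linarith
  · exact (mir_a hB hU hN hC hg).2.2 x hx hQ

theorem mir_c1' {γ κ : ℝ} (hγ : γ ≠ 0) {B K : Set ℂ} {U V : ℂ → ℝ} {I : Finset GD}
    (hB : closedBall 0 1 ⊆ B) (hU : ∀ z, ‖z‖ < 1 → HarmonicAt U z) (hN : NL γ κ B K V I) {C : GD}
    (hC : C ∈ I) (hg : Good U V C) (had : C.d < C.a) {x : ℂ} (hx : ‖x‖ = 1) (hQ : 0 ≤ C.Q x) :
    Ext U x := by
  rcases hQ.lt_or_eq with hQ | hQ
  · obtain ⟨h, hhar, hrel⟩ := mir_b hB hU hN hC hg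
    obtain ⟨hden, hR⟩ := mirc_crit C hx.le (mul_neg_of_neg_of_pos (sub_neg.mpr had) hQ)
    have hRB : C.R x ∈ B := hB (by simpa using hR.le)
    have hQR : C.Q (C.R x) < 0 := (C.Q_R_neg_iff hden).mpr hQ
    refine ⟨fun z => γ⁻¹ * (U (C.R z) - κ * h (C.R z)),
      har_const_mul _ (har_sub (har_comp_R C hden (hU _ hR))
        (har_const_mul κ (har_comp_R C hden (hhar _ hRB hQR)))), ?_⟩
    have hopen : IsOpen {z | 0 < C.Q z} := isOpen_lt continuous_const C.continuous_Q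
    filter_upwards [hopen.mem_nhds hQ] with z hz hz1
    have hz : 0 < C.Q z := hz
    obtain ⟨hdz, hRz⟩ := mirc_crit C hz1.le (mul_neg_of_neg_of_pos (sub_neg.mpr had) hz)
    have hRR := C.R_R hdz
    have := hrel (C.R z) hRz ((C.Q_R_neg_iff hdz).mpr hz) (C.den_R_ne hdz) (by rw [hRR]; exact hz1)
    rw [hRR] at this
    rw [← this]
    field_simp
    ring
  · exact (mir_a hB hU hN hC hg).2.2 x hx hQ.symm

theorem mir_c2 {γ κ : ℝ} {B K : Set ℂ} {U V : ℂ → ℝ} {I : Finset GD}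
    (hB : closedBall 0 1 ⊆ B) (hU : ∀ z, ‖z‖ < 1 → HarmonicAt U z) (hN : NL γ κ B K V I) {C : GD}
    (hC : C ∈ I) (hg : Good U V C) (had : C.a = C.d) {x : ℂ} (hx : ‖x‖ = 1) :
    (C.Q x < 0 → Ext (fun z => U z - γ * U (C.R z)) x) ∧
    (0 < C.Q x → Ext (fun z => U (C.R z) - γ * U z) x) := by
  obtain ⟨h, hhar, hrel⟩ := mir_b hB hU hN hC hg
  have hxB : x ∈ B := hB (by simp [hx])
  refine ⟨fun hQ => ?_, fun hQ => ?_⟩
  · refine ⟨fun z => κ * h z, har_const_mul κ (hhar x hxB hQ), ?_⟩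
    filter_upwards [C.isOpen.mem_nhds hQ] with z hz hz1
    have hz : C.Q z < 0 := hz
    exact (hrel z hz1 hz (C.den_ne_of_orth had hz1.le) (C.norm_R_orth had hz1)).symm
  · have hden := C.den_ne_of_orth had hx.le
    have hRB : C.R x ∈ B := hB (by simp [C.norm_R_orth_eq had hx])
    have hQR : C.Q (C.R x) < 0 := (C.Q_R_neg_iff hden).mpr hQ
    refine ⟨fun z => κ * h (C.R z), har_const_mul κ (har_comp_R C hden (hhar _ hRB hQR)), ?_⟩
    have hopen : IsOpen {z | 0 < C.Q z} := isOpen_lt continuous_const C.continuous_Q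
    filter_upwards [hopen.mem_nhds hQ] with z hz hz1
    have hz : 0 < C.Q z := hz
    have hdz := C.den_ne_of_orth had hz1.le
    have hRR := C.R_R hdz
    have := hrel (C.R z) (C.norm_R_orth had hz1) ((C.Q_R_neg_iff hdz).mpr hz) (C.den_R_ne hdz)
      (by rw [hRR]; exact hz1)
    rw [hRR] at this
    exact this.symm

theorem mir_inv {γ κ : ℝ} (hγ : γ ≠ 0) {B K : Set ℂ} {U V : ℂ → ℝ} {I : Finset GD}
    (hB : closedBall 0 1 ⊆ B) (hU : ∀ z, ‖z‖ < 1 → HarmonicAt U z) (hN : NL γ κ B K V I) {C : GD}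
    (hC : C ∈ I) (hg : Good U V C) (had : C.a = C.d) {x : ℂ} (hx : ‖x‖ = 1) :
    Ext U (C.R x) ↔ Ext U x := by
  obtain ⟨hneg, hpos⟩ := mir_c2 hB hU hN hC hg had hx
  rcases lt_trichotomy (C.Q x) 0 with hQ | hQ | hQ
  · have h1 := hneg hQ
    rw [← mirc_comp_iff C had hx]
    constructor
    · intro h
      refine (h1.add (h.const_mul γ)).congr (Eventually.of_forall fun z _ => ?_)
      ring
    · intro h
      refine ((h.sub h1).const_mul γ⁻¹).congr (Eventually.of_forall fun z _ => ?_)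
      field_simp
      ring
  · rw [C.R_of_Q_zero hQ]
  · have h1 := hpos hQ
    rw [← mirc_comp_iff C had hx]
    constructor
    · intro h
      refine ((h.sub h1).const_mul γ⁻¹).congr (Eventually.of_forall fun z _ => ?_)
      field_simp
      ring
    · intro h
      refine (h1.add (h.const_mul γ)).congr (Eventually.of_forall fun z _ => ?_)
      ring

end MD12

end S_MIRC

section S_COV

/-! # COV: the covering lemma (radial version)

`C ∈ I`, `C' ∈ I'` are half planes through the center (`a = d = 0`), both good.  Let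
`x ∈ C \ closure C'`, `‖x‖ = 1`, `¬ Ext U x`.  Then `x` lies in a good orthogonal disk of the family `I'`.

Proof.  For `t ∈ (0,1]`: `C.Q (t x) = t C.Q x < 0`, `C'.Q (t x) = t C'.Q x > 0` (here `Q z = 2 Re(conj b z)`), so
`t x ∉ K` (`hN.disK` for `C`, contrapositive; also `0 ∉ K` as `C.Q 0 = 0`).  For `D ∈ I'`, `D ≠ C'`: `D.Q 0 = D.d > 0`
(`hN'.dis C' _ D _ _ 0`).
`U = V'` near `0` by `mir_a` for `C'` (`C'.Q 0 = 0`).
Let `T = {t ∈ [0,1] | ∃ D ∈ I', D ≠ C' ∧ D.Q (t x) ≤ 0}` (closed).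
(i) `T = ∅`: `V'` is harmonic at all `t x`, `t ∈ [0,1]` (`hN'.har`); `har_ident` along the segment
`{t x | t ∈ [0,1)}` gives `U =ᶠ[𝓝 (t x)] V'`; then `har_ident_disk` at `x` and `Ext.of_germ`: `Ext U x`, contradiction.
(ii) `T ≠ ∅`: let `t₀ = min T`, `t₀ > 0`, `D ∈ I'`, `D ≠ C'` with `D.Q (t₀ x) ≤ 0`; by minimality (continuity)
`D.Q (t₀ x) = 0`, and for all `t ∈ [0,t₀)` all members of `I'` other than `C'` are positive at `t x`.
At `t₀ x`: `V'` is harmonic (`har_on_circle`, or `hN'.har` with `hN'.dis D`).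
If `t₀ = 1`: as in (i) `Ext U x`, contradiction.  If `t₀ < 1`: `har_ident` along `{t x | t ∈ [0,t₀]}` gives
`U =ᶠ[𝓝 (t₀ x)] V'`, so `D` is good, so `D.a ≤ D.d` by `hs'`.
  If `D.Q x > 0`: for `t ∈ [0,1]`: `D.Q (t x) = (1-t) D.d + t D.Q x - D.a t (1-t) ≥ (1-t)² D.d + t D.Q x > 0`
  (using `D.a ≤ D.d`, `D.d > 0`), contradiction at `t₀`.
  If `D.Q x = 0`: `(mir_a ..).2.2` gives `Ext U x`, contradiction.
  So `D.Q x < 0`.  If `D.a < D.d` then `mir_c1` gives `Ext U x`, contradiction.  So `D.a = D.d`.  Done.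
-/

namespace MD12

open Complex Metric Set Filter Topology InnerProductSpace
open scoped ComplexConjugate

/-- the quadratic form along a ray -/
theorem cov_Q (C : GD) {x : ℂ} (hx : ‖x‖ = 1) (t : ℝ) :
    C.Q ((t : ℂ) * x) = (1 - t) * C.d + t * C.Q x - C.a * (t * (1 - t)) := by
  have h1 : (conj C.b * ((t : ℂ) * x)).re = t * (conj C.b * x).re := by
    rw [show conj C.b * ((t : ℂ) * x) = (t : ℂ) * (conj C.b * x) by ring, Complex.re_ofReal_mul]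
  unfold GD.Q
  rw [h1, norm_mul, hx, Complex.norm_real, Real.norm_eq_abs, mul_one, sq_abs]
  ring

theorem cov_cont (x : ℂ) : Continuous (fun t : ℝ => (t : ℂ) * x) := by fun_prop

theorem cov_norm {x : ℂ} (hx : ‖x‖ = 1) {t : ℝ} (ht : 0 ≤ t) : ‖(t : ℂ) * x‖ = t := by
  rw [norm_mul, hx, Complex.norm_real, Real.norm_eq_abs, mul_one, abs_of_nonneg ht]

/-- equality along the ray up to the unit circle -/
theorem cov_end {U V' : ℂ → ℝ} (hU : ∀ z, ‖z‖ < 1 → HarmonicAt U z) {x : ℂ} (hx : ‖x‖ = 1)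
    (hV : HarmonicAt V' x) (h : ∀ t : ℝ, 0 ≤ t → t < 1 → U =ᶠ[𝓝 ((t : ℂ) * x)] V') :
    Ext U x := by
  refine Ext.of_germ hV (har_ident_disk hU hx hV ?_)
  have h1 : Tendsto (fun t : ℝ => (t : ℂ) * x) (𝓝[<] 1) (𝓝 x) := by
    have h2 := ((cov_cont x).tendsto 1).mono_left (nhdsWithin_le_nhds (s := Iio (1 : ℝ)))
    simpa using h2
  refine h1.frequently (Eventually.frequently ?_)
  have h3 : Ioo (0 : ℝ) 1 ∈ 𝓝[<] (1 : ℝ) := Ioo_mem_nhdsLT one_pos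
  filter_upwards [h3] with t ht
  exact ⟨by rw [cov_norm hx ht.1.le]; exact ht.2, h t ht.1.le ht.2⟩

theorem cov {γ κ : ℝ} {B K : Set ℂ} {U V V' : ℂ → ℝ} {I I' : Finset GD}
    (hB : closedBall 0 1 ⊆ B) (hU : ∀ z, ‖z‖ < 1 → HarmonicAt U z)
    (hN : NL γ κ B K V I) (hN' : NL γ κ B K V' I')
    (hs' : ∀ D ∈ I', Good U V' D → D.a ≤ D.d) {C C' : GD} (hC : C ∈ I) (hC' : C' ∈ I')
    (hg' : Good U V' C') (ha : C.a = 0) (hd : C.d = 0) (ha' : C'.a = 0) (hd' : C'.d = 0)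
    {x : ℂ} (hx : ‖x‖ = 1) (hxC : C.Q x < 0) (hxC' : 0 < C'.Q x) (hX : ¬ Ext U x) :
    ∃ D ∈ I', Good U V' D ∧ D.a = D.d ∧ D.Q x < 0 := by
  classical
  have hLB : ∀ t : ℝ, 0 ≤ t → t ≤ 1 → (t : ℂ) * x ∈ B := by
    intro t h0 h1
    apply hB
    rw [mem_closedBall, dist_zero_right, cov_norm hx h0]
    exact h1
  have hLK : ∀ t : ℝ, 0 ≤ t → t ≤ 1 → (t : ℂ) * x ∉ K := by
    intro t h0 h1 hK
    have h2 := hN.disK C hC _ (hLB t h0 h1) hK
    rw [cov_Q C hx, ha, hd] at h2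
    nlinarith
  have hQ' : ∀ t : ℝ, 0 ≤ t → 0 ≤ C'.Q ((t : ℂ) * x) := by
    intro t h0
    rw [cov_Q C' hx, ha', hd']
    nlinarith [mul_nonneg h0 hxC'.le]
  have hQ0 : ∀ D : GD, D.Q 0 = D.d := by
    intro D
    unfold GD.Q
    simp
  have hx0 : ((0 : ℝ) : ℂ) * x = 0 := by simp
  have hx1 : ((1 : ℝ) : ℂ) * x = x := by simp
  have h0B : (0 : ℂ) ∈ B := by
    apply hB
    simp
  have hDd : ∀ D ∈ I', D ≠ C' → 0 < D.d := by
    intro D hD hne
    rw [← hQ0 D]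
    exact hN'.dis C' hC' D hD (Ne.symm hne) 0 h0B (by rw [hQ0, hd'])
  have hUV0 : U =ᶠ[𝓝 (((0 : ℝ) : ℂ) * x)] V' := by
    rw [hx0]
    exact (mir_a hB hU hN' hC' hg').1 0 (by simp) (by rw [hQ0, hd'])
  -- harmonicity of `V'` before the first hit
  have hharm : ∀ t : ℝ, 0 ≤ t → t ≤ 1 → (∀ D ∈ I', D ≠ C' → 0 < D.Q ((t : ℂ) * x)) →
      HarmonicAt V' ((t : ℂ) * x) := by
    intro t h0 h1 h2
    refine hN'.har _ (hLB t h0 h1) (hLK t h0 h1) fun D hD => ?_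
    by_cases hDC : D = C'
    · rw [hDC]
      exact hQ' t h0
    · exact (h2 D hD hDC).le
  have hident : ∀ S : Set ℝ, IsPreconnected S → (0 : ℝ) ∈ S → (∀ t ∈ S, 0 ≤ t ∧ t < 1) →
      (∀ t ∈ S, HarmonicAt V' ((t : ℂ) * x)) → ∀ t ∈ S, U =ᶠ[𝓝 ((t : ℂ) * x)] V' := by
    intro S hS h0 h1 h2 t ht
    refine har_ident (S := (fun t : ℝ => (t : ℂ) * x) '' S)
      (hS.image _ (cov_cont x).continuousOn) ?_ ?_ (x := ((0 : ℝ) : ℂ) * x) ⟨0, h0, rfl⟩ hUV0 _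
      ⟨t, ht, rfl⟩
    · rintro z ⟨s, hs, rfl⟩
      exact hU _ (by show ‖(s : ℂ) * x‖ < 1; rw [cov_norm hx (h1 s hs).1]; exact (h1 s hs).2)
    · rintro z ⟨s, hs, rfl⟩
      exact h2 s hs
  set T : Set ℝ := Icc 0 1 ∩ ⋃ D ∈ I'.filter (fun D => D ≠ C'), {t : ℝ | D.Q ((t : ℂ) * x) ≤ 0}
    with hT
  have hTmem : ∀ t : ℝ, t ∈ T ↔ (0 ≤ t ∧ t ≤ 1) ∧ ∃ D ∈ I', D ≠ C' ∧ D.Q ((t : ℂ) * x) ≤ 0 := by
    intro t
    simp only [hT, mem_inter_iff, mem_Icc, mem_iUnion, mem_ofPred_eq, Finset.mem_filter,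
      exists_prop, and_assoc]
  have hTclosed : IsClosed T := by
    refine isClosed_Icc.inter (isClosed_biUnion_finset fun D _ => ?_)
    exact isClosed_le (D.continuous_Q.comp (cov_cont x)) continuous_const
  rcases T.eq_empty_or_nonempty with hTe | hTn
  · -- no hit
    exfalso
    have hpos : ∀ t : ℝ, 0 ≤ t → t ≤ 1 → ∀ D ∈ I', D ≠ C' → 0 < D.Q ((t : ℂ) * x) := by
      intro t h0 h1 D hD hne
      by_contra hcon
      have : t ∈ T := (hTmem t).2 ⟨⟨h0, h1⟩, D, hD, hne, not_lt.1 hcon⟩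
      rw [hTe] at this
      exact this
    apply hX
    refine cov_end (V' := V') hU hx ?_ ?_
    · have := hharm 1 zero_le_one le_rfl (hpos 1 zero_le_one le_rfl)
      rwa [hx1] at this
    · intro t h0 h1
      exact hident (Ico 0 1) isPreconnected_Ico ⟨le_rfl, one_pos⟩ (fun s hs => hs)
        (fun s hs => hharm s hs.1 hs.2.le (hpos s hs.1 hs.2.le)) t ⟨h0, h1⟩
  · have hTb : BddBelow T := ⟨0, fun t ht => ((hTmem t).1 ht).1.1⟩
    set t₀ := sInf T with ht₀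
    have ht₀T : t₀ ∈ T := hTclosed.csInf_mem hTn hTb
    obtain ⟨⟨ht0, ht1⟩, D, hD, hne, hDQ⟩ := (hTmem t₀).1 ht₀T
    have hpos : ∀ t : ℝ, 0 ≤ t → t < t₀ → ∀ D ∈ I', D ≠ C' → 0 < D.Q ((t : ℂ) * x) := by
      intro t h0 h1 D hD hne
      by_contra hcon
      have : t ∈ T := (hTmem t).2 ⟨⟨h0, h1.le.trans ht1⟩, D, hD, hne, not_lt.1 hcon⟩
      exact absurd (csInf_le hTb this) (not_le.2 h1)
    have ht0' : 0 < t₀ := by
      rcases ht0.lt_or_eq with h | h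
      · exact h
      · exfalso
        rw [← h, hx0, hQ0] at hDQ
        exact absurd (hDd D hD hne) (not_lt.2 hDQ)
    have hDQ0 : D.Q ((t₀ : ℂ) * x) = 0 := by
      refine le_antisymm hDQ ?_
      have h1 : Tendsto (fun t : ℝ => D.Q ((t : ℂ) * x)) (𝓝[<] t₀) (𝓝 (D.Q ((t₀ : ℂ) * x))) :=
        ((D.continuous_Q.comp (cov_cont x)).tendsto t₀).mono_left nhdsWithin_le_nhds
      refine ge_of_tendsto h1 ?_
      filter_upwards [Ioo_mem_nhdsLT ht0'] with t ht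
      exact (hpos t ht.1.le ht.2 D hD hne).le
    have hVt₀ : HarmonicAt V' ((t₀ : ℂ) * x) := har_on_circle hN' hD (hLB t₀ ht0 ht1) hDQ0
    rcases ht1.lt_or_eq with h1 | h1
    · have hgerm : U =ᶠ[𝓝 ((t₀ : ℂ) * x)] V' := by
        refine hident (Icc 0 t₀) isPreconnected_Icc ⟨le_rfl, ht0⟩
          (fun s hs => ⟨hs.1, hs.2.trans_lt h1⟩) (fun s hs => ?_) t₀ ⟨ht0, le_rfl⟩
        rcases hs.2.lt_or_eq with h2 | h2
        · exact hharm s hs.1 (h2.le.trans ht1) (hpos s hs.1 h2)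
        · rw [h2]
          exact hVt₀
      have hgood : Good U V' D := ⟨(t₀ : ℂ) * x, by rw [cov_norm hx ht0]; exact h1, hDQ0, hgerm⟩
      have had := hs' D hD hgood
      have hdpos := hDd D hD hne
      have hneg : D.Q x < 0 := by
        rcases lt_trichotomy (D.Q x) 0 with h2 | h2 | h2
        · exact h2
        · exact absurd ((mir_a hB hU hN' hD hgood).2.2 x hx h2) hX
        · exfalso
          rw [cov_Q D hx] at hDQ0
          have h3 : 0 < 1 - t₀ := by linarith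
          have h4 : D.a * (t₀ * (1 - t₀)) ≤ D.d * (t₀ * (1 - t₀)) :=
            mul_le_mul_of_nonneg_right had (mul_nonneg ht0 h3.le)
          have h5 : 0 < (1 - t₀) ^ 2 * D.d := by positivity
          have h6 : 0 < t₀ * D.Q x := mul_pos ht0' h2
          nlinarith
      refine ⟨D, hD, hgood, ?_, hneg⟩
      rcases had.lt_or_eq with h2 | h2
      · exact absurd (mir_c1 hB hU hN' hD hgood h2 hx hneg.le) hX
      · exact h2
    · exfalso
      apply hX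
      rw [h1, hx1] at hVt₀
      refine cov_end hU hx hVt₀ ?_
      intro t h0 h2
      exact hident (Ico 0 1) isPreconnected_Ico ⟨le_rfl, one_pos⟩ (fun s hs => hs)
        (fun s hs => hharm s hs.1 hs.2.le (hpos s hs.1 (by rw [h1]; exact hs.2))) t ⟨h0, h2⟩

end MD12

end S_COV

section S_SCA

/-! # SCA: scaling relations

`Sc γ U g x n`: the function `U ∘ g - γⁿ U` extends harmonically near the point `x` of the unit circle.

* `Sc.comp`: `U∘f∘g - γ^(m+n) U = (U∘f - γ^m U)∘g + γ^m (U∘g - γ^n U)`.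
* `Sc.unique`: the difference of the two is `(γ^m - γ^n) U` up to sign, `γ^m ≠ γ^n`
  (`0 < |γ| < 1`, `zpow` is injective: take `|γ|^m`).
* `Sc.iterate`: induction, `g^[m+1] = g^[m] ∘ g`, `g x = x`.
* `sc_mirror_neg`: `U∘R - γ⁻¹ U = -γ⁻¹ (U - γ U∘R)`.
-/

namespace MD12

open Complex Metric Set Filter Topology InnerProductSpace
open scoped ComplexConjugate

/-- (anti)analytic at the points of the unit circle, preserving the disk and the circle -/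
def Nice (g : ℂ → ℂ) : Prop :=
  (∀ z, ‖z‖ < 1 → ‖g z‖ < 1) ∧ (∀ x, ‖x‖ = 1 → ‖g x‖ = 1) ∧
    ((∀ x, ‖x‖ = 1 → AnalyticAt ℂ g x) ∨ (∀ x, ‖x‖ = 1 → AnalyticAt ℂ (fun z => conj (g z)) x))

/-- scaling relation -/
def Sc (γ : ℝ) (U : ℂ → ℝ) (g : ℂ → ℂ) (x : ℂ) (n : ℤ) : Prop :=
  Ext (fun z => U (g z) - γ ^ n * U z) x

theorem sca_conj {f : ℂ → ℂ} {x : ℂ} (hf : AnalyticAt ℂ f (conj x)) :
    AnalyticAt ℂ (fun w => conj (f (conj w))) x := by
  rw [Complex.analyticAt_iff_eventually_differentiableAt] at hf ⊢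
  have h1 : Tendsto (fun w : ℂ => conj w) (𝓝 x) (𝓝 (conj x)) := Complex.continuous_conj.tendsto x
  refine (h1.eventually hf).mono ?_
  intro z hz
  have h2 := hz.conj_conj
  simp only [conj_conj] at h2
  exact h2

theorem nice_id : Nice (fun z => z) :=
  ⟨fun _ h => h, fun _ h => h, Or.inl fun _ _ => analyticAt_id⟩

theorem nice_conj : Nice (fun z => conj z) := by
  refine ⟨fun z h => by simpa using h, fun z h => by simpa using h, Or.inr fun x _ => ?_⟩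
  simp only [conj_conj]
  exact analyticAt_id

theorem nice_mul {c : ℂ} (hc : ‖c‖ = 1) : Nice (fun z => c * z) := by
  refine ⟨fun z h => by rw [norm_mul, hc, one_mul]; exact h, fun z h => by rw [norm_mul, hc, one_mul]; exact h,
    Or.inl fun x _ => ?_⟩
  exact analyticAt_const.mul analyticAt_id

theorem nice_R {C : GD} (h : C.a = C.d) : Nice C.R :=
  ⟨fun _ hz => C.norm_R_orth h hz, fun _ hz => C.norm_R_orth_eq h hz,
    Or.inr fun _ hx => C.analyticAt_conj_R (C.den_ne_of_orth h hx.le)⟩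

theorem Nice.comp {f g : ℂ → ℂ} (hf : Nice f) (hg : Nice g) : Nice (fun z => f (g z)) := by
  refine ⟨fun z hz => hf.1 _ (hg.1 z hz), fun z hz => hf.2.1 _ (hg.2.1 z hz), ?_⟩
  rcases hf.2.2 with h1 | h1 <;> rcases hg.2.2 with h2 | h2
  · left
    intro x hx
    exact (h1 _ (hg.2.1 x hx)).fun_comp (h2 x hx)
  · right
    intro x hx
    have h3 : AnalyticAt ℂ (fun w => conj (f (conj w))) (conj (g x)) :=
      sca_conj (by rw [conj_conj]; exact h1 _ (hg.2.1 x hx))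
    have h4 := AnalyticAt.fun_comp (f := fun z => conj (g z)) h3 (h2 x hx)
    simpa [Function.comp_def] using h4
  · right
    intro x hx
    exact AnalyticAt.fun_comp (g := fun w => conj (f w)) (h1 _ (hg.2.1 x hx)) (h2 x hx)
  · left
    intro x hx
    have h3 : AnalyticAt ℂ (fun w => conj ((fun w => conj (f w)) (conj w))) (conj (g x)) :=
      sca_conj (f := fun w => conj (f w)) (by rw [conj_conj]; exact h1 _ (hg.2.1 x hx))
    have h4 := AnalyticAt.fun_comp (f := fun z => conj (g z)) h3 (h2 x hx)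
    simpa [Function.comp_def] using h4

theorem Nice.iterate {g : ℂ → ℂ} (hg : Nice g) (n : ℕ) : Nice (g^[n]) := by
  induction n with
  | zero => exact nice_id
  | succ n ih =>
    have h := Nice.comp ih hg
    exact h

theorem Nice.ext {g : ℂ → ℂ} (hg : Nice g) {f : ℂ → ℝ} {x : ℂ} (hx : ‖x‖ = 1)
    (hf : Ext f (g x)) : Ext (fun z => f (g z)) x := by
  rcases hg.2.2 with h | h
  · exact Ext.comp hf (h x hx) (Eventually.of_forall fun z hz => hg.1 z hz)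
  · exact Ext.comp_anti hf (h x hx) (Eventually.of_forall fun z hz => hg.1 z hz)

theorem Sc.id {γ : ℝ} {U : ℂ → ℝ} (x : ℂ) : Sc γ U (fun z => z) x 0 := by
  unfold Sc
  refine Ext.congr (Ext.of_har (har_const 0 x)) (Eventually.of_forall fun z _ => ?_)
  simp

theorem Sc.comp {γ : ℝ} (hγ : γ ≠ 0) {U : ℂ → ℝ} {f g : ℂ → ℂ} (hg : Nice g) {x : ℂ}
    (hx : ‖x‖ = 1) {m n : ℤ} (hf : Sc γ U f (g x) m) (h : Sc γ U g x n) :
    Sc γ U (fun z => f (g z)) x (m + n) := by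
  have h1 : Ext (fun z => U (f (g z)) - γ ^ m * U (g z)) x := hg.ext hx hf
  have h2 : Ext (fun z => γ ^ m * (U (g z) - γ ^ n * U z)) x := Ext.const_mul _ h
  refine Ext.congr (h1.add h2) (Eventually.of_forall fun z _ => ?_)
  rw [zpow_add₀ hγ]
  ring

theorem Sc.congr {γ : ℝ} {U : ℂ → ℝ} {f g : ℂ → ℂ} {x : ℂ} {n : ℤ} (h : Sc γ U f x n)
    (hfg : ∀ z, ‖z‖ < 1 → g z = f z) : Sc γ U g x n := by
  refine Ext.congr h (Eventually.of_forall fun z hz => ?_)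
  rw [hfg z hz]

theorem Sc.unique {γ : ℝ} (h0 : γ ≠ 0) (h1 : |γ| < 1) {U : ℂ → ℝ} {g : ℂ → ℂ} {x : ℂ} {m n : ℤ}
    (hmn : m ≠ n) (hm : Sc γ U g x m) (hn : Sc γ U g x n) : Ext U x := by
  have h2 : γ ^ n - γ ^ m ≠ 0 := by
    intro h
    have h3 : γ ^ m = γ ^ n := by linarith
    have h4 : |γ| ^ m = |γ| ^ n := by rw [← abs_zpow, ← abs_zpow, h3]
    exact hmn (zpow_right_injective₀ (abs_pos.2 h0) h1.ne h4)
  have h3 : Ext (fun z => (γ ^ n - γ ^ m)⁻¹ * ((U (g z) - γ ^ m * U z) - (U (g z) - γ ^ n * U z))) x :=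
    Ext.const_mul _ (Ext.sub hm hn)
  refine Ext.congr h3 (Eventually.of_forall fun z _ => ?_)
  field_simp
  ring

theorem Sc.ext {γ : ℝ} (h0 : γ ≠ 0) {U : ℂ → ℝ} {g : ℂ → ℂ} (hg : Nice g) {x : ℂ}
    (hx : ‖x‖ = 1) {n : ℤ} (h : Sc γ U g x n) (hE : Ext U (g x)) : Ext U x := by
  have h1 : Ext (fun z => U (g z)) x := hg.ext hx hE
  have h2 : Ext (fun z => (γ ^ n)⁻¹ * (U (g z) - (U (g z) - γ ^ n * U z))) x :=
    Ext.const_mul _ (Ext.sub h1 h)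
  refine Ext.congr h2 (Eventually.of_forall fun z _ => ?_)
  have h3 : γ ^ n ≠ 0 := zpow_ne_zero n h0
  field_simp
  ring

theorem Sc.iterate {γ : ℝ} (hγ : γ ≠ 0) {U : ℂ → ℝ} {g : ℂ → ℂ} (hg : Nice g) {x : ℂ}
    (hx : ‖x‖ = 1) (hfix : g x = x) {n : ℤ} (h : Sc γ U g x n) (m : ℕ) :
    Sc γ U (g^[m]) x (m * n) := by
  induction m with
  | zero =>
    simp only [Nat.cast_zero, zero_mul]
    exact Sc.id x
  | succ m ih =>
    have h1 : Sc γ U (fun z => g^[m] (g z)) x (m * n + n) :=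
      Sc.comp hγ hg hx (by rw [hfix]; exact ih) h
    have h2 : ((m + 1 : ℕ) : ℤ) * n = m * n + n := by push_cast; ring
    rw [h2]
    exact h1

theorem sc_mirror_neg {γ κ : ℝ} (hγ : γ ≠ 0) {B K : Set ℂ} {U V : ℂ → ℝ} {I : Finset GD}
    (hB : closedBall 0 1 ⊆ B) (hU : ∀ z, ‖z‖ < 1 → HarmonicAt U z) (hN : NL γ κ B K V I) {C : GD}
    (hC : C ∈ I) (hg : Good U V C) (had : C.a = C.d) {x : ℂ} (hx : ‖x‖ = 1) (hQ : C.Q x < 0) :
    Sc γ U C.R x (-1) := by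
  have h1 := (mir_c2 hB hU hN hC hg had hx).1 hQ
  refine Ext.congr (Ext.const_mul (-γ⁻¹) h1) (Eventually.of_forall fun z _ => ?_)
  rw [zpow_neg_one]
  field_simp
  ring

theorem sc_mirror_pos {γ κ : ℝ} {B K : Set ℂ} {U V : ℂ → ℝ} {I : Finset GD}
    (hB : closedBall 0 1 ⊆ B) (hU : ∀ z, ‖z‖ < 1 → HarmonicAt U z) (hN : NL γ κ B K V I) {C : GD}
    (hC : C ∈ I) (hg : Good U V C) (had : C.a = C.d) {x : ℂ} (hx : ‖x‖ = 1) (hQ : 0 < C.Q x) :
    Sc γ U C.R x 1 := by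
  have h1 := (mir_c2 hB hU hN hC hg had hx).2 hQ
  unfold Sc
  rw [zpow_one]
  exact h1

end MD12

end S_SCA

section S_Pk

/-! # PK: the package of hypotheses on the unit disk, and first consequences (helper12, complete
relative to the modules MIRA, MIRC, SCA, COV) -/

namespace MD12

open Complex Metric Set Filter Topology InnerProductSpace
open scoped ComplexConjugate

/-- two transmission solutions near the closed unit disk and a harmonic function `U` on the unit disk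
which does not extend across the whole circle -/
structure PK (γ κ : ℝ) (U V₁ V₂ : ℂ → ℝ) (I₁ I₂ : Finset GD) : Prop where
  /-- `U` is harmonic in the disk -/
  har : ∀ z, ‖z‖ < 1 → HarmonicAt U z
  /-- the two problems -/
  nl : ∃ B K : Set ℂ, closedBall 0 1 ⊆ B ∧ NL γ κ B K V₁ I₁ ∧ NL γ κ B K V₂ I₂
  /-- `U` does not extend -/
  ne : ∃ x, ‖x‖ = 1 ∧ ¬ Ext U x
  /-- no good small disk -/
  sm₁ : ∀ C ∈ I₁, Good U V₁ C → C.a ≤ C.d
  /-- no good small disk -/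
  sm₂ : ∀ C ∈ I₂, Good U V₂ C → C.a ≤ C.d

/-- good orthogonal disk of the family `I` -/
def GO (U V : ℂ → ℝ) (I : Finset GD) (C : GD) : Prop := C ∈ I ∧ Good U V C ∧ C.a = C.d

variable {γ κ : ℝ} {U V₁ V₂ : ℂ → ℝ} {I₁ I₂ : Finset GD}

theorem PK.swap (P : PK γ κ U V₁ V₂ I₁ I₂) : PK γ κ U V₂ V₁ I₂ I₁ := by
  obtain ⟨B, K, hB, h1, h2⟩ := P.nl
  exact ⟨P.har, ⟨B, K, hB, h2, h1⟩, P.ne, P.sm₂, P.sm₁⟩

theorem PK.inv₁ (P : PK γ κ U V₁ V₂ I₁ I₂) (h0 : γ ≠ 0) {C : GD} (hC : GO U V₁ I₁ C) {x : ℂ}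
    (hx : ‖x‖ = 1) : Ext U (C.R x) ↔ Ext U x := by
  obtain ⟨B, K, hB, h1, h2⟩ := P.nl
  exact mir_inv h0 hB P.har h1 hC.1 hC.2.1 hC.2.2 hx

theorem PK.inv₂ (P : PK γ κ U V₁ V₂ I₁ I₂) (h0 : γ ≠ 0) {C : GD} (hC : GO U V₂ I₂ C) {x : ℂ}
    (hx : ‖x‖ = 1) : Ext U (C.R x) ↔ Ext U x := P.swap.inv₁ h0 hC hx

theorem PK.end₁ (P : PK γ κ U V₁ V₂ I₁ I₂) {C : GD} (hC : GO U V₁ I₁ C) {x : ℂ}
    (hx : ‖x‖ = 1) (hQ : C.Q x = 0) : Ext U x := by
  obtain ⟨B, K, hB, h1, h2⟩ := P.nl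
  exact (mir_a hB P.har h1 hC.1 hC.2.1).2.2 x hx hQ

theorem PK.end₂ (P : PK γ κ U V₁ V₂ I₁ I₂) {C : GD} (hC : GO U V₂ I₂ C) {x : ℂ}
    (hx : ‖x‖ = 1) (hQ : C.Q x = 0) : Ext U x := P.swap.end₁ hC hx hQ

theorem PK.neg₁ (P : PK γ κ U V₁ V₂ I₁ I₂) (h0 : γ ≠ 0) {C : GD} (hC : GO U V₁ I₁ C) {x : ℂ}
    (hx : ‖x‖ = 1) (hQ : C.Q x < 0) : Sc γ U C.R x (-1) := by
  obtain ⟨B, K, hB, h1, h2⟩ := P.nl
  exact sc_mirror_neg h0 hB P.har h1 hC.1 hC.2.1 hC.2.2 hx hQ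

theorem PK.neg₂ (P : PK γ κ U V₁ V₂ I₁ I₂) (h0 : γ ≠ 0) {C : GD} (hC : GO U V₂ I₂ C) {x : ℂ}
    (hx : ‖x‖ = 1) (hQ : C.Q x < 0) : Sc γ U C.R x (-1) := P.swap.neg₁ h0 hC hx hQ

theorem PK.pos₁ (P : PK γ κ U V₁ V₂ I₁ I₂) {C : GD} (hC : GO U V₁ I₁ C) {x : ℂ}
    (hx : ‖x‖ = 1) (hQ : 0 < C.Q x) : Sc γ U C.R x 1 := by
  obtain ⟨B, K, hB, h1, h2⟩ := P.nl
  exact sc_mirror_pos hB P.har h1 hC.1 hC.2.1 hC.2.2 hx hQ

theorem PK.pos₂ (P : PK γ κ U V₁ V₂ I₁ I₂) {C : GD} (hC : GO U V₂ I₂ C) {x : ℂ}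
    (hx : ‖x‖ = 1) (hQ : 0 < C.Q x) : Sc γ U C.R x 1 := P.swap.pos₁ hC hx hQ

theorem PK.dis₁ (P : PK γ κ U V₁ V₂ I₁ I₂) {C C' : GD} (hC : C ∈ I₁) (hC' : C' ∈ I₁)
    (hne : C ≠ C') {z : ℂ} (hz : ‖z‖ ≤ 1) (hQ : C.Q z ≤ 0) : 0 < C'.Q z := by
  obtain ⟨B, K, hB, h1, h2⟩ := P.nl
  exact h1.dis C hC C' hC' hne z (hB (mem_closedBall_zero_iff.mpr hz)) hQ

theorem PK.dis₂ (P : PK γ κ U V₁ V₂ I₁ I₂) {C C' : GD} (hC : C ∈ I₂) (hC' : C' ∈ I₂)
    (hne : C ≠ C') {z : ℂ} (hz : ‖z‖ ≤ 1) (hQ : C.Q z ≤ 0) : 0 < C'.Q z :=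
  P.swap.dis₁ hC hC' hne hz hQ

/-- the covering lemma for the second family -/
theorem PK.cov₂ (P : PK γ κ U V₁ V₂ I₁ I₂) {C C' : GD} (hC : GO U V₁ I₁ C)
    (hC' : GO U V₂ I₂ C') (ha : C.a = 0) (ha' : C'.a = 0)
    {x : ℂ} (hx : ‖x‖ = 1) (hxC : C.Q x < 0) (hxC' : 0 < C'.Q x) (hX : ¬ Ext U x) :
    ∃ D, GO U V₂ I₂ D ∧ D.Q x < 0 := by
  obtain ⟨B, K, hB, h1, h2⟩ := P.nl
  obtain ⟨D, hD, h3, h4, h5⟩ := cov hB P.har h1 h2 P.sm₂ hC.1 hC'.1 hC'.2.1 ha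
    (hC.2.2 ▸ ha) ha' (hC'.2.2 ▸ ha') hx hxC hxC' hX
  exact ⟨D, ⟨hD, h3, h4⟩, h5⟩

theorem PK.cov₁ (P : PK γ κ U V₁ V₂ I₁ I₂) {C C' : GD} (hC : GO U V₂ I₂ C)
    (hC' : GO U V₁ I₁ C') (ha : C.a = 0) (ha' : C'.a = 0)
    {x : ℂ} (hx : ‖x‖ = 1) (hxC : C.Q x < 0) (hxC' : 0 < C'.Q x) (hX : ¬ Ext U x) :
    ∃ D, GO U V₁ I₁ D ∧ D.Q x < 0 := P.swap.cov₂ hC hC' ha ha' hx hxC hxC' hX

/-- rotated disk: the preimage under `w ↦ c w` -/
noncomputable def GD.rot (c : ℂ) (hc : ‖c‖ = 1) (C : GD) : GD where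
  a := C.a
  b := conj c * C.b
  d := C.d
  pos := by
    rw [norm_mul, RCLike.norm_conj, hc, one_mul]
    exact C.pos

theorem GD.Q_rot (C : GD) {c : ℂ} (hc : ‖c‖ = 1) (w : ℂ) : (C.rot c hc).Q w = C.Q (c * w) := by
  unfold GD.Q GD.rot
  simp only [map_mul, conj_conj, norm_mul, hc, one_mul]
  congr 3
  ring_nf

theorem GD.R_rot (C : GD) {c : ℂ} (hc : ‖c‖ = 1) (w : ℂ) :
    (C.rot c hc).R w = conj c * C.R (c * w) := by
  have h1 : c * conj c = 1 := by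
    rw [Complex.mul_conj, Complex.normSq_eq_norm_sq, hc]
    norm_num
  have hc0 : c ≠ 0 := by
    intro h
    rw [h] at hc
    simp at hc
  have hc0' : conj c ≠ 0 := by simpa using hc0
  unfold GD.R GD.rot
  simp only [map_mul, conj_conj]
  by_cases hd : (C.a : ℂ) * conj w + c * conj C.b = 0
  · have hd' : (C.a : ℂ) * (conj c * conj w) + conj C.b = 0 := by
      have : conj c * ((C.a : ℂ) * conj w + c * conj C.b) = 0 := by rw [hd, mul_zero]
      linear_combination this - conj C.b * h1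
    rw [hd, hd']
    simp
  · have hd' : (C.a : ℂ) * (conj c * conj w) + conj C.b ≠ 0 := by
      intro h
      apply hd
      have : c * ((C.a : ℂ) * (conj c * conj w) + conj C.b) = 0 := by rw [h, mul_zero]
      linear_combination this - (C.a : ℂ) * conj w * h1
    rw [div_eq_iff hd, mul_div_assoc', div_mul_eq_mul_div, eq_div_iff hd']
    linear_combination ((C.b * (conj c * conj w) + C.d) * (conj C.b)) * h1

end MD12

end S_Pk

section S_NSM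

/-! # NSM: no good disk with `d < a`

Suppose `C ∈ I` is good, `C.d < C.a`.  So `C ≠ A` (`A.a = A.d`).  Let `x` be as in `hne`.  `mir_c1'`: `C.Q x < 0`.  `mir_inv` for `A`:
`¬ Ext U (A.R x)` (and `‖A.R x‖ = 1`, `GD.norm_R_orth_eq`), so `C.Q (A.R x) < 0`.  By `hN.dis C _ A _`: `0 < A.Q x` and
`0 < A.Q (A.R x)`; but `0 < A.Q (A.R x)` iff `A.Q x < 0` (`GD.Q_R_pos_iff`, `GD.den_ne_of_orth`).  Contradiction.
-/

namespace MD12

open Complex Metric Set Filter Topology InnerProductSpace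
open scoped ComplexConjugate

theorem nsm {γ κ : ℝ} (h0 : γ ≠ 0) {B K : Set ℂ} {U V : ℂ → ℝ} {I : Finset GD}
    (hB : closedBall 0 1 ⊆ B) (hU : ∀ z, ‖z‖ < 1 → HarmonicAt U z) (hN : NL γ κ B K V I)
    (hne : ∃ x, ‖x‖ = 1 ∧ ¬ Ext U x) {A : GD} (hA : A ∈ I) (hgA : Good U V A) (hoA : A.a = A.d) :
    ∀ C ∈ I, Good U V C → C.a ≤ C.d := by
  intro C hC hgC
  by_contra hlt
  have had : C.d < C.a := not_le.mp hlt
  have hCA : C ≠ A := by
    intro h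
    rw [h, hoA] at had
    exact lt_irrefl _ had
  obtain ⟨x, hx, hnx⟩ := hne
  have key : ∀ y : ℂ, ‖y‖ = 1 → ¬ Ext U y → 0 < A.Q y := by
    intro y hy hny
    have h1 : C.Q y < 0 := by
      by_contra h
      exact hny (mir_c1' h0 hB hU hN hC hgC had hy (not_lt.mp h))
    exact hN.dis C hC A hA hCA y (hB (by simp [hy])) h1.le
  have hpx := key x hx hnx
  have hRx : ‖A.R x‖ = 1 := A.norm_R_orth_eq hoA hx
  have hnRx : ¬ Ext U (A.R x) := fun h => hnx ((mir_inv h0 hB hU hN hA hgA hoA hx).mp h)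
  have hpRx := key (A.R x) hRx hnRx
  have := (A.Q_R_pos_iff (A.den_ne_of_orth hoA hx.le)).mp hpRx
  linarith

end MD12

end S_NSM
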