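import Pool.Agent.H12.MDM.A
import Pool.Agent.H12.MDM.B
import Mathlib

/-! Multiple disks, part C (several modules joined). -/

section S_ROT

/-! # ROT: the angle is rational and the exceptional set is invariant under `2π/q`

Only uses: `X = {φ : ℝ | ¬ Ext U (EE φ)}` is closed (`isOpen_setOf_ext`, `continuous_EE`), nonempty,
`0 ∉ X`, invariant under `φ ↦ φ + 2θ` (combine `hA` and `hB`) and `φ ↦ φ + 2π` (`EE_add_two_pi`), hence
under the subgroup `G` of `ℝ` generated by `2θ` and `2π` (`AddSubgroup.closure_induction`).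
`AddSubgroup.dense_or_cyclic G`: if `G` is dense then `X` (closed, `G`-invariant, nonempty) is everything,
contradiction to `0 ∉ X`.  Otherwise `G = zmultiples c`, `c > 0` w.l.o.g. (`2π ∈ G` so `c ≠ 0`): `2π = q c`,
`2θ = p c` with `q, p > 0` integers, `p < q` as `θ < π`; `c = i·2θ + j·2π` (`AddSubgroup.mem_closure_pair`) gives
`1 = i p + j q`, so coprime; `X` is invariant under `c = 2π/q`.
-/

namespace MD12

open Complex Metric Set Filter Topology InnerProductSpace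
open scoped ComplexConjugate

theorem rot_dich {U : ℂ → ℝ} {θ : ℝ} (hθ0 : 0 < θ) (hθπ : θ < Real.pi)
    (hA : ∀ φ : ℝ, Ext U (EE (-φ)) ↔ Ext U (EE φ))
    (hB : ∀ φ : ℝ, Ext U (EE (2 * θ - φ)) ↔ Ext U (EE φ)) (h1 : Ext U 1)
    (hX : ∃ φ : ℝ, ¬ Ext U (EE φ)) :
    ∃ p q : ℕ, 0 < p ∧ p < q ∧ Nat.Coprime p q ∧ θ = p * Real.pi / q ∧
      ∀ φ : ℝ, Ext U (EE (φ + 2 * Real.pi / q)) ↔ Ext U (EE φ) := by
  have hπ : 0 < Real.pi := Real.pi_pos
  -- the set of non-extension is closed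
  have hcl : IsClosed {φ : ℝ | ¬ Ext U (EE φ)} :=
    ((isOpen_setOf_ext U).isClosed_compl).preimage continuous_EE
  set G : AddSubgroup ℝ := AddSubgroup.closure {2 * θ, 2 * Real.pi} with hG
  have hinv : ∀ g ∈ G, ∀ φ : ℝ, Ext U (EE (φ + g)) ↔ Ext U (EE φ) := by
    intro g hg
    induction hg using AddSubgroup.closure_induction with
    | mem x hx =>
      intro φ
      rcases hx with hx | hx
      · rw [hx]
        have h2 := hB (-φ)
        rw [hA φ, show 2 * θ - -φ = φ + 2 * θ by ring] at h2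
        exact h2
      · rw [Set.mem_singleton_iff.1 hx, EE_add_two_pi]
    | zero => intro φ; rw [add_zero]
    | add x y _ _ hx hy =>
      intro φ
      rw [← add_assoc, hy, hx]
    | neg x _ hx =>
      intro φ
      have := hx (φ + -x)
      rw [show φ + -x + x = φ by ring] at this
      exact this.symm
  have hmθ : 2 * θ ∈ G := AddSubgroup.subset_closure (by simp)
  have hmπ : 2 * Real.pi ∈ G := AddSubgroup.subset_closure (by simp)
  rcases AddSubgroup.dense_or_cyclic G with hd | ⟨a, ha⟩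
  · exfalso
    obtain ⟨φ0, hφ0⟩ := hX
    have hc2 : IsClosed {g : ℝ | ¬ Ext U (EE (φ0 + g))} :=
      hcl.preimage (continuous_const.add continuous_id)
    have hsub : (G : Set ℝ) ⊆ {g : ℝ | ¬ Ext U (EE (φ0 + g))} := by
      intro g hg h2
      exact hφ0 ((hinv g hg φ0).1 h2)
    have huniv : closure (G : Set ℝ) ⊆ {g : ℝ | ¬ Ext U (EE (φ0 + g))} :=
      hc2.closure_subset_iff.2 hsub
    have := huniv (hd (-φ0))
    apply this
    rw [show φ0 + -φ0 = 0 by ring, EE_zero]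
    exact h1
  · have hm1 : 2 * θ ∈ AddSubgroup.closure {a} := ha ▸ hmθ
    have hm2 : 2 * Real.pi ∈ AddSubgroup.closure {a} := ha ▸ hmπ
    obtain ⟨m, hm⟩ := AddSubgroup.mem_closure_singleton.1 hm1
    obtain ⟨n, hn⟩ := AddSubgroup.mem_closure_singleton.1 hm2
    have haG : a ∈ G := by rw [ha]; exact AddSubgroup.subset_closure rfl
    obtain ⟨i, j, hij⟩ := AddSubgroup.mem_closure_pair.1 haG
    rw [zsmul_eq_mul] at hm hn
    rw [zsmul_eq_mul, zsmul_eq_mul] at hij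
    have ha0 : a ≠ 0 := by
      intro h0
      rw [h0, mul_zero] at hn
      linarith
    have hn0 : n ≠ 0 := by
      rintro rfl
      rw [Int.cast_zero, zero_mul] at hn
      linarith
    have hm0 : m ≠ 0 := by
      rintro rfl
      rw [Int.cast_zero, zero_mul] at hm
      linarith
    have habs : 0 < |a| := abs_pos.2 ha0
    have hq : ((n.natAbs : ℕ) : ℝ) * |a| = 2 * Real.pi := by
      rw [Nat.cast_natAbs, Int.cast_abs, ← abs_mul, hn, abs_of_pos (by positivity)]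
    have hp : ((m.natAbs : ℕ) : ℝ) * |a| = 2 * θ := by
      rw [Nat.cast_natAbs, Int.cast_abs, ← abs_mul, hm, abs_of_pos (by positivity)]
    have hq0 : (0 : ℝ) < ((n.natAbs : ℕ) : ℝ) := by
      exact_mod_cast Int.natAbs_pos.2 hn0
    have haq : |a| = 2 * Real.pi / ((n.natAbs : ℕ) : ℝ) := by
      rw [eq_div_iff hq0.ne', mul_comm]
      exact hq
    have hcG : |a| ∈ G := by
      rcases abs_choice a with h | h
      · rw [h]; exact haG
      · rw [h]; exact G.neg_mem haG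
    refine ⟨m.natAbs, n.natAbs, Int.natAbs_pos.2 hm0, ?_, ?_, ?_, ?_⟩
    · have : ((m.natAbs : ℕ) : ℝ) < ((n.natAbs : ℕ) : ℝ) := by
        by_contra hcon
        push Not at hcon
        have := mul_le_mul_of_nonneg_right hcon habs.le
        rw [hq, hp] at this
        linarith
      exact_mod_cast this
    · have h2 : (i : ℝ) * m + j * n = 1 := by
        have : ((i : ℝ) * m + j * n - 1) * a = 0 := by
          linear_combination (i : ℝ) * hm + (j : ℝ) * hn + hij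
        rcases mul_eq_zero.1 this with h3 | h3
        · linarith
        · exact absurd h3 ha0
      have h3 : i * m + j * n = 1 := by exact_mod_cast h2
      have h4 : IsCoprime m n := ⟨i, j, h3⟩
      have h5 := Int.isCoprime_iff_gcd_eq_one.1 h4
      rw [Int.gcd_eq_natAbs] at h5
      exact h5
    · rw [eq_div_iff hq0.ne']
      have h2 : (2 * θ) * ((n.natAbs : ℕ) : ℝ) * |a| =
          (((m.natAbs : ℕ) : ℝ) * (2 * Real.pi)) * |a| := by
        rw [mul_assoc, hq, ← hp]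
        ring
      have := mul_right_cancel₀ habs.ne' h2
      linarith
    · intro φ
      rw [← haq]
      exact hinv _ hcG φ

end MD12

end S_ROT

section S_SRX

/-! # SRX: scaling relations for the rotations by `2πj/q`

Let `X = {φ | ¬ Ext U (EE φ)}`.  By `Sc.ext` (with `Nice`, `nice_conj`, `nice_mul`, `Nice.comp`), `φ ∈ X` gives
`-φ ∈ X` and `2θ - φ ∈ X`.  So for `φ ∈ X`: the rotation by `2θ`, `z ↦ EE (2θ) * conj (conj z)`, satisfies
`Sc` at `EE φ` (`Sc.comp`, `Sc.congr`), and `φ + 2θ ∈ X`.  Induction on `i : ℕ`: the rotation by `2θ i` satisfies `Sc` with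
some integer at each `EE φ`, `φ ∈ X`.  `θ = pπ/q`: `EE (2θ i) = EE (2π (p i)/q)`, depends only on `p i mod q`;
`gcd (p,q) = 1` gives `i` with `p i ≡ j (mod q)` (e.g. `Nat.exists_mul_mod_eq_of_coprime`, `EE_add_int`).
-/

namespace MD12

open Complex Metric Set Filter Topology InnerProductSpace
open scoped ComplexConjugate

theorem SRX_step {γ : ℝ} (h0 : γ ≠ 0) {U : ℂ → ℝ} {θ : ℝ}
    (hA : ∀ φ : ℝ, ¬ Ext U (EE φ) → ∃ n : ℤ, Sc γ U (fun z => conj z) (EE φ) n)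
    (hB : ∀ φ : ℝ, ¬ Ext U (EE φ) → ∃ n : ℤ, Sc γ U (fun z => EE (2 * θ) * conj z) (EE φ) n)
    (φ : ℝ) (hφ : ¬ Ext U (EE φ)) :
    (∃ n : ℤ, Sc γ U (fun z => EE (2 * θ) * z) (EE φ) n) ∧ ¬ Ext U (EE (φ + 2 * θ)) := by
  obtain ⟨n, hn⟩ := hA φ hφ
  have h1 : ¬ Ext U (EE (-φ)) := by
    intro h
    rw [← conj_EE] at h
    exact hφ (Sc.ext h0 nice_conj (norm_EE φ) hn h)
  obtain ⟨m, hm⟩ := hB (-φ) h1
  rw [← conj_EE] at hm
  have h2 : Sc γ U (fun z => EE (2 * θ) * z) (EE φ) (m + n) := by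
    refine Sc.congr (Sc.comp h0 nice_conj (norm_EE φ) hm hn) (fun z _ => ?_)
    simp
  refine ⟨⟨m + n, h2⟩, fun h => hφ ?_⟩
  refine Sc.ext h0 (nice_mul (norm_EE (2 * θ))) (norm_EE φ) h2 ?_
  rw [mul_comm, ← EE_add]
  exact h

theorem SRX_iter {γ : ℝ} (h0 : γ ≠ 0) {U : ℂ → ℝ} {θ : ℝ}
    (hA : ∀ φ : ℝ, ¬ Ext U (EE φ) → ∃ n : ℤ, Sc γ U (fun z => conj z) (EE φ) n)
    (hB : ∀ φ : ℝ, ¬ Ext U (EE φ) → ∃ n : ℤ, Sc γ U (fun z => EE (2 * θ) * conj z) (EE φ) n)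
    (i : ℕ) : ∀ φ : ℝ, ¬ Ext U (EE φ) →
    ∃ n : ℤ, Sc γ U (fun z => EE (2 * θ * i) * z) (EE φ) n := by
  induction i with
  | zero =>
    intro φ _
    refine ⟨0, Sc.congr (Sc.id (EE φ)) (fun z _ => ?_)⟩
    simp [EE_zero]
  | succ i ih =>
    intro φ hφ
    obtain ⟨⟨n, hn⟩, hE⟩ := SRX_step h0 hA hB φ hφ
    obtain ⟨m, hm⟩ := ih (φ + 2 * θ) hE
    rw [EE_add, mul_comm (EE φ)] at hm
    refine ⟨m + n, Sc.congr (Sc.comp h0 (nice_mul (norm_EE (2 * θ))) (norm_EE φ) hm hn)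
      (fun z _ => ?_)⟩
    have : EE (2 * θ * ((i + 1 : ℕ) : ℝ)) = EE (2 * θ * i) * EE (2 * θ) := by
      rw [← EE_add]
      congr 1
      push_cast
      ring
    rw [this]
    ring

theorem sc_rot_exists {γ : ℝ} (h0 : γ ≠ 0) {U : ℂ → ℝ} {θ : ℝ} {p q : ℕ} (hq : 0 < q)
    (hpq : Nat.Coprime p q) (hθ : θ = p * Real.pi / q)
    (hA : ∀ φ : ℝ, ¬ Ext U (EE φ) → ∃ n : ℤ, Sc γ U (fun z => conj z) (EE φ) n)
    (hB : ∀ φ : ℝ, ¬ Ext U (EE φ) → ∃ n : ℤ, Sc γ U (fun z => EE (2 * θ) * conj z) (EE φ) n)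
    (j : ℕ) (φ : ℝ) (hφ : ¬ Ext U (EE φ)) :
    ∃ n : ℤ, Sc γ U (fun z => EE (2 * Real.pi * j / q) * z) (EE φ) n := by
  obtain ⟨x, y, hxy⟩ := Nat.isCoprime_iff_coprime.2 hpq
  -- `x * p + y * q = 1`
  have hq' : (0 : ℤ) < q := by exact_mod_cast hq
  obtain ⟨i, hi⟩ : ∃ i : ℕ, (i : ℤ) = (x * j) % q :=
    ⟨((x * j) % q).toNat, Int.toNat_of_nonneg (Int.emod_nonneg _ hq'.ne')⟩
  obtain ⟨n, hn⟩ := SRX_iter h0 hA hB i φ hφ
  refine ⟨n, Sc.congr hn (fun z _ => ?_)⟩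
  have h1 : x * j = i + q * ((x * j) / q) := by
    rw [hi]
    exact (Int.emod_add_mul_ediv (x * j) q).symm
  have h2 : (p : ℤ) * i = j + q * (-(y * j) - p * ((x * j) / q)) := by
    have h3 : (p : ℤ) * i = p * (x * j) - p * (q * ((x * j) / q)) := by rw [← mul_sub]; congr 1; linarith
    rw [h3]
    linear_combination (j : ℤ) * hxy
  have h3 : (p : ℝ) * i = j + q * ((-(y * j) - p * ((x * j) / q) : ℤ) : ℝ) := by
    exact_mod_cast h2
  have hqR : (q : ℝ) ≠ 0 := by exact_mod_cast hq.ne'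
  have h4 : 2 * θ * i = 2 * Real.pi * j / q +
      2 * Real.pi * ((-(y * j) - p * ((x * j) / q) : ℤ) : ℝ) := by
    rw [hθ]
    have : 2 * (p * Real.pi / q) * i = 2 * Real.pi * (p * i) / q := by ring
    rw [this, h3]
    field_simp
  rw [h4, EE_add_int]

end MD12

end S_SRX

section S_PAR

/-! # PAR: `p`, `q` both odd is impossible

Let `σ φ = if 0 < sin φ then -1 else 1` (an integer).  Suppose `φ₀ ∈ X = {φ | ¬ Ext U (EE φ)}`.
As in SRX: `X` is invariant under `φ ↦ -φ`, `φ ↦ 2θ - φ`, so under `φ ↦ φ + 2θ`; `sin φ ≠ 0`, `sin (φ - θ) ≠ 0` on `X`.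
The rotation `ρ z = EE (2θ) * conj (conj z)` satisfies `Sc` at `EE φ` with the integer
`σ (-φ - θ) + σ φ = σ φ - σ (φ + θ)` (`σ` is odd where `sin ≠ 0`; `sin (-φ-θ) ≠ 0` since `-φ ∈ X`).
By `Sc.comp` along the orbit `φ, φ+2θ, ...` the map `ρ^q` satisfies `Sc` at `EE φ` with
`N = Σ_{j<q} (σ (φ+2jθ) - σ (φ+2jθ+θ)) = Σ_{i<2q} (-1)^i σ (φ+iθ)`.
Since `qθ = pπ`, `p` odd: `σ (φ+(i+q)θ) = -σ (φ+iθ)`, and `q` odd: `(-1)^(i+q) = -(-1)^i`; so
`N = 2 Σ_{i<q} (-1)^i σ (φ+iθ)`, twice a sum of an odd number of `±1`: `N ≠ 0` (`Odd`/mod 2 argument).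
But `ρ^q` is the identity (`EE (2θ q) = EE (2π p) = 1`), which also satisfies `Sc` with `0`: `Sc.unique` gives
`Ext U (EE φ)`, contradiction.
-/

namespace MD12

open Complex Metric Set Filter Topology InnerProductSpace
open scoped ComplexConjugate

/-- the sign -/
noncomputable def par_s (φ : ℝ) : ℤ := if 0 < Real.sin φ then -1 else 1

theorem par_s_or (φ : ℝ) : par_s φ = 1 ∨ par_s φ = -1 := by
  unfold par_s; split_ifs <;> simp

theorem par_s_anti {φ ψ : ℝ} (h : Real.sin φ ≠ 0) (hs : Real.sin ψ = -Real.sin φ) :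
    par_s ψ = -par_s φ := by
  unfold par_s
  rw [hs]
  rcases lt_or_gt_of_ne h with h1 | h1
  · rw [if_pos (by linarith), if_neg (by linarith)]
  · rw [if_neg (by linarith), if_pos h1]
    norm_num

theorem par_sum_alt (a : ℕ → ℤ) (n : ℕ) :
    ∑ i ∈ Finset.range n, (a (2 * i) - a (2 * i + 1)) =
      ∑ i ∈ Finset.range (2 * n), (-1) ^ i * a i := by
  induction n with
  | zero => simp
  | succ n ih =>
    rw [Finset.sum_range_succ, ih, show 2 * (n + 1) = 2 * n + 1 + 1 by ring,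
      Finset.sum_range_succ, Finset.sum_range_succ, pow_succ, pow_mul]
    ring

theorem par_odd (a : ℕ → ℤ) (ha : ∀ i, a i = 1 ∨ a i = -1) (n : ℕ) :
    ∃ k : ℤ, ∑ i ∈ Finset.range n, (-1) ^ i * a i = n + 2 * k := by
  induction n with
  | zero => exact ⟨0, by simp⟩
  | succ n ih =>
    obtain ⟨k, hk⟩ := ih
    rw [Finset.sum_range_succ, hk]
    rcases neg_one_pow_eq_or ℤ n with h1 | h1 <;> rcases ha n with h2 | h2
    · exact ⟨k, by rw [h1, h2]; push_cast; ring⟩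
    · exact ⟨k - 1, by rw [h1, h2]; push_cast; ring⟩
    · exact ⟨k - 1, by rw [h1, h2]; push_cast; ring⟩
    · exact ⟨k, by rw [h1, h2]; push_cast; ring⟩

theorem par_ne (a : ℕ → ℤ) (ha : ∀ i, a i = 1 ∨ a i = -1) {q : ℕ} (hq : Odd q)
    (hanti : ∀ i, a (i + q) = -a i) :
    ∑ i ∈ Finset.range q, (a (2 * i) - a (2 * i + 1)) ≠ 0 := by
  rw [par_sum_alt, two_mul, Finset.sum_range_add]
  have h1 : ∑ x ∈ Finset.range q, (-1) ^ (q + x) * a (q + x) =
      ∑ i ∈ Finset.range q, (-1) ^ i * a i := by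
    refine Finset.sum_congr rfl fun i _ => ?_
    rw [add_comm q i, hanti, pow_add, hq.neg_one_pow]
    ring
  rw [h1]
  obtain ⟨k, hk⟩ := par_odd a ha q
  rw [hk]
  obtain ⟨m, rfl⟩ := hq
  push_cast
  omega

theorem par {γ : ℝ} (h0 : γ ≠ 0) (h1 : |γ| < 1) {U : ℂ → ℝ} {θ : ℝ} {p q : ℕ} (hp : Odd p)
    (hq : Odd q) (hθ : θ = p * Real.pi / q)
    (hA : ∀ φ : ℝ, ¬ Ext U (EE φ) → Real.sin φ ≠ 0 ∧
      Sc γ U (fun z => conj z) (EE φ) (if 0 < Real.sin φ then -1 else 1))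
    (hB : ∀ φ : ℝ, ¬ Ext U (EE φ) → Real.sin (φ - θ) ≠ 0 ∧
      Sc γ U (fun z => EE (2 * θ) * conj z) (EE φ) (if 0 < Real.sin (φ - θ) then -1 else 1))
    (φ : ℝ) : Ext U (EE φ) := by
  by_contra hφ
  -- invariance
  have hneg : ∀ φ : ℝ, ¬ Ext U (EE φ) → ¬ Ext U (EE (-φ)) := by
    intro φ hφ hE
    apply hφ
    refine Sc.ext h0 nice_conj (norm_EE φ) (hA φ hφ).2 ?_
    rw [conj_EE]; exact hE
  have hN2 : Nice (fun z => EE (2 * θ) * conj z) := by
    have := Nice.comp (nice_mul (norm_EE (2 * θ))) nice_conj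
    exact this
  have hrefl : ∀ φ : ℝ, ¬ Ext U (EE φ) → ¬ Ext U (EE (2 * θ - φ)) := by
    intro φ hφ hE
    apply hφ
    refine Sc.ext h0 hN2 (norm_EE φ) (hB φ hφ).2 ?_
    rw [conj_EE, ← EE_add, ← sub_eq_add_neg]; exact hE
  have hrot : ∀ φ : ℝ, ¬ Ext U (EE φ) → ¬ Ext U (EE (φ + 2 * θ)) := by
    intro φ hφ
    have := hrefl (-φ) (hneg φ hφ)
    rwa [sub_neg_eq_add, add_comm] at this
  have hrotj : ∀ (j : ℕ) (φ : ℝ), ¬ Ext U (EE φ) → ¬ Ext U (EE (φ + 2 * θ * j)) := by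
    intro j
    induction j with
    | zero => intro φ hφ; simpa using hφ
    | succ j ih =>
      intro φ hφ
      have := hrot _ (ih φ hφ)
      rwa [show φ + 2 * θ * j + 2 * θ = φ + 2 * θ * ((j + 1 : ℕ) : ℝ) by push_cast; ring] at this
  -- one rotation
  have hone : ∀ φ : ℝ, ¬ Ext U (EE φ) →
      Sc γ U (fun z => EE (2 * θ) * z) (EE φ) (par_s φ - par_s (φ + θ)) := by
    intro φ hφ
    have h2 := (hA φ hφ).2
    have h3 := hB (-φ) (hneg φ hφ)
    have h4 : Sc γ U (fun z => EE (2 * θ) * conj z) (conj (EE φ))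
        (if 0 < Real.sin (-φ - θ) then -1 else 1) := by
      rw [conj_EE]; exact h3.2
    have h5 := Sc.comp (f := fun z => EE (2 * θ) * conj z) h0 nice_conj (norm_EE φ) h4 h2
    have h6 : (if 0 < Real.sin (-φ - θ) then (-1 : ℤ) else 1) + (if 0 < Real.sin φ then -1 else 1) =
        par_s φ - par_s (φ + θ) := by
      have h7 : par_s (-φ - θ) = -par_s (φ + θ) := by
        apply par_s_anti
        · intro h8
          apply h3.1
          rw [show -φ - θ = -(φ + θ) by ring, Real.sin_neg, h8, neg_zero]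
        · rw [show -φ - θ = -(φ + θ) by ring, Real.sin_neg]
      have h8 : par_s (-φ - θ) = if 0 < Real.sin (-φ - θ) then (-1 : ℤ) else 1 := rfl
      have h9 : par_s φ = if 0 < Real.sin φ then (-1 : ℤ) else 1 := rfl
      rw [← h8, ← h9, h7]
      ring
    rw [h6] at h5
    refine Sc.congr h5 fun z _ => ?_
    simp only [conj_conj]
  have hmany : ∀ (j : ℕ) (φ : ℝ), ¬ Ext U (EE φ) →
      Sc γ U (fun z => EE (2 * θ * j) * z) (EE φ)
        (∑ i ∈ Finset.range j, (par_s (φ + (2 * i : ℕ) * θ) - par_s (φ + (2 * i + 1 : ℕ) * θ))) := by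
    intro j
    induction j with
    | zero =>
      intro φ hφ
      rw [Finset.sum_range_zero]
      refine Sc.congr (Sc.id (EE φ)) fun z _ => ?_
      simp [EE_zero]
    | succ j ih =>
      intro φ hφ
      have h2 := ih (φ + 2 * θ) (hrot φ hφ)
      have h3 := hone φ hφ
      have h4 : Sc γ U (fun z => EE (2 * θ * j) * z) (EE (2 * θ) * EE φ)
          (∑ i ∈ Finset.range j, (par_s (φ + 2 * θ + (2 * i : ℕ) * θ) -
            par_s (φ + 2 * θ + (2 * i + 1 : ℕ) * θ))) := by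
        rw [← EE_add, add_comm (2 * θ) φ]; exact h2
      have h5 := Sc.comp (f := fun z => EE (2 * θ * j) * z) h0 (nice_mul (norm_EE (2 * θ)))
        (norm_EE φ) h4 h3
      rw [Finset.sum_range_succ']
      have h6 : ∑ i ∈ Finset.range j, (par_s (φ + (2 * (i + 1) : ℕ) * θ) -
          par_s (φ + (2 * (i + 1) + 1 : ℕ) * θ)) =
          ∑ i ∈ Finset.range j, (par_s (φ + 2 * θ + (2 * i : ℕ) * θ) -
            par_s (φ + 2 * θ + (2 * i + 1 : ℕ) * θ)) := by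
        refine Finset.sum_congr rfl fun i _ => ?_
        congr 2 <;> (push_cast; ring)
      have h7 : par_s (φ + (2 * 0 : ℕ) * θ) - par_s (φ + (2 * 0 + 1 : ℕ) * θ) =
          par_s φ - par_s (φ + θ) := by
        simp
      rw [h6, h7]
      refine Sc.congr h5 fun z _ => ?_
      rw [← mul_assoc, ← EE_add]
      congr 2
      push_cast; ring
  have hq0 : (q : ℝ) ≠ 0 := by
    have : q ≠ 0 := by rintro rfl; exact absurd hq (by decide)
    exact_mod_cast this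
  have hqθ : (q : ℝ) * θ = p * Real.pi := by rw [hθ]; field_simp
  -- nonvanishing of the sines
  have hsin : ∀ i : ℕ, Real.sin (φ + i * θ) ≠ 0 := by
    intro i
    rcases Nat.even_or_odd' i with ⟨j, rfl | rfl⟩
    · have h2 := (hA _ (hrotj j φ hφ)).1
      rwa [show φ + 2 * θ * j = φ + (2 * j : ℕ) * θ by push_cast; ring] at h2
    · have h2 := (hB _ (hneg _ (hrotj j φ hφ))).1
      intro h3
      apply h2
      rw [show -(φ + 2 * θ * j) - θ = -(φ + (2 * j + 1 : ℕ) * θ) by push_cast; ring,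
        Real.sin_neg, h3, neg_zero]
  have hanti : ∀ i : ℕ, par_s (φ + (i + q : ℕ) * θ) = -par_s (φ + i * θ) := by
    intro i
    apply par_s_anti (hsin i)
    have h2 : φ + (i + q : ℕ) * θ = φ + i * θ + p * Real.pi := by
      push_cast; rw [← hqθ]; ring
    rw [h2, Real.sin_add_nat_mul_pi, hp.neg_one_pow]
    ring
  have hne := par_ne (fun i => par_s (φ + i * θ)) (fun i => par_s_or _) hq hanti
  have hS := hmany q φ hφ
  have hE1 : EE (2 * θ * q) = 1 := by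
    have h2 : 2 * θ * q = 0 + 2 * Real.pi * (p : ℤ) := by
      push_cast; rw [zero_add, mul_assoc, mul_comm θ, hqθ]; ring
    rw [h2, EE_add_int, EE_zero]
  have hS' : Sc γ U (fun z => z) (EE φ)
      (∑ i ∈ Finset.range q, (par_s (φ + (2 * i : ℕ) * θ) - par_s (φ + (2 * i + 1 : ℕ) * θ))) := by
    refine Sc.congr hS fun z _ => ?_
    rw [hE1, one_mul]
  exact hφ (Sc.unique h0 h1 hne hS' (Sc.id (EE φ)))

end MD12

end S_PAR

section S_MINg

/-! # MIN: the gap around the point `1`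

`X = {φ | ¬ Ext U (EE φ)}` is closed (`isOpen_setOf_ext`, `continuous_EE`), nonempty, invariant under `φ ↦ -φ` and
`φ ↦ φ + 2π/q` (so also `φ - 2π/q`).  Translate a point of `X` into `[-π/q, π/q]` and reflect it into `[0, π/q]`.
`0, π/q ∉ X`.  Let `g` be the minimum of `X ∩ [0, π/q]` (compact).  For `|φ| < g`: `φ ∉ X` by minimality and
symmetry.
-/

namespace MD12

open Complex Metric Set Filter Topology InnerProductSpace
open scoped ComplexConjugate

theorem MINg_nat {U : ℂ → ℝ} {q : ℕ}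
    (hr : ∀ φ : ℝ, Ext U (EE (φ + 2 * Real.pi / q)) ↔ Ext U (EE φ)) (n : ℕ) (φ : ℝ) :
    Ext U (EE (φ + n * (2 * Real.pi / q))) ↔ Ext U (EE φ) := by
  induction n with
  | zero => simp
  | succ n ih =>
    rw [← ih, ← hr (φ + n * (2 * Real.pi / q))]
    have : φ + ((n + 1 : ℕ) : ℝ) * (2 * Real.pi / q) =
        φ + n * (2 * Real.pi / q) + 2 * Real.pi / q := by
      push_cast
      ring
    rw [this]

theorem MINg_int {U : ℂ → ℝ} {q : ℕ}
    (hr : ∀ φ : ℝ, Ext U (EE (φ + 2 * Real.pi / q)) ↔ Ext U (EE φ)) (n : ℤ) (φ : ℝ) :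
    Ext U (EE (φ + n * (2 * Real.pi / q))) ↔ Ext U (EE φ) := by
  obtain ⟨m, rfl | rfl⟩ := n.eq_nat_or_neg
  · have := MINg_nat hr m φ
    push_cast
    exact this
  · have := MINg_nat hr m (φ + ((-(m : ℤ) : ℤ) : ℝ) * (2 * Real.pi / q))
    rw [← this]
    have h2 : φ + ((-(m : ℤ) : ℤ) : ℝ) * (2 * Real.pi / q) + m * (2 * Real.pi / q) = φ := by
      push_cast
      ring
    rw [h2]

theorem min_gap {U : ℂ → ℝ} {q : ℕ} (hq : 1 < q)
    (hA : ∀ φ : ℝ, Ext U (EE (-φ)) ↔ Ext U (EE φ))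
    (hr : ∀ φ : ℝ, Ext U (EE (φ + 2 * Real.pi / q)) ↔ Ext U (EE φ))
    (h0 : Ext U 1) (h1 : Ext U (EE (Real.pi / q)))
    (hX : ∃ φ : ℝ, ¬ Ext U (EE φ)) :
    ∃ g : ℝ, 0 < g ∧ g < Real.pi / q ∧ ¬ Ext U (EE g) ∧ ¬ Ext U (EE (-g)) ∧
      ∀ φ : ℝ, |φ| < g → Ext U (EE φ) := by
  have hqp : (0 : ℝ) < q := by
    have : 0 < q := by omega
    exact_mod_cast this
  have hP : (0 : ℝ) < 2 * Real.pi / q := div_pos (by positivity) hqp
  have habs : ∀ φ : ℝ, Ext U (EE |φ|) ↔ Ext U (EE φ) := by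
    intro φ
    rcases abs_choice φ with h | h
    · rw [h]
    · rw [h]
      exact hA φ
  have hcl : IsClosed {φ : ℝ | ¬ Ext U (EE φ)} := by
    have h := isOpen_setOf_ext (f := U)
    have h' := h.preimage continuous_EE
    rw [← isOpen_compl_iff]
    convert h' using 1
    ext φ
    simp
  have hK : IsCompact ({φ : ℝ | ¬ Ext U (EE φ)} ∩ Icc 0 (Real.pi / q)) :=
    isCompact_Icc.inter_left hcl
  have hne : ({φ : ℝ | ¬ Ext U (EE φ)} ∩ Icc 0 (Real.pi / q)).Nonempty := by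
    obtain ⟨φ, hφ⟩ := hX
    set n : ℤ := round (φ / (2 * Real.pi / q)) with hn
    refine ⟨|φ + ((-n : ℤ) : ℝ) * (2 * Real.pi / q)|, ?_, abs_nonneg _, ?_⟩
    · change ¬ Ext U (EE |φ + ((-n : ℤ) : ℝ) * (2 * Real.pi / q)|)
      rw [habs, MINg_int hr]
      exact hφ
    · have h2 := abs_sub_round (φ / (2 * Real.pi / q))
      have h3 : φ + ((-n : ℤ) : ℝ) * (2 * Real.pi / q) =
          (φ / (2 * Real.pi / q) - round (φ / (2 * Real.pi / q))) * (2 * Real.pi / q) := by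
        rw [← hn, sub_mul, div_mul_cancel₀ _ hP.ne']
        push_cast
        ring
      rw [h3, abs_mul, abs_of_pos hP]
      calc _ ≤ 1 / 2 * (2 * Real.pi / q) := mul_le_mul_of_nonneg_right h2 hP.le
        _ = Real.pi / q := by ring
  obtain ⟨g, ⟨hgX, hg0, hg1⟩, hmin⟩ := hK.exists_isLeast hne
  have hgX' : ¬ Ext U (EE g) := hgX
  have hg0' : 0 < g := by
    rcases hg0.lt_or_eq with h | h
    · exact h
    · exfalso
      apply hgX'
      rw [← h, EE_zero]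
      exact h0
  have hg1' : g < Real.pi / q := by
    rcases hg1.lt_or_eq with h | h
    · exact h
    · exfalso
      apply hgX'
      rw [h]
      exact h1
  refine ⟨g, hg0', hg1', hgX', ?_, ?_⟩
  · rw [hA]
    exact hgX'
  · intro φ hφ
    by_contra hc
    have h5 : g ≤ |φ| := hmin ⟨by
      change ¬ Ext U (EE |φ|)
      rw [habs]
      exact hc, abs_nonneg _, (hφ.le.trans hg1)⟩
    linarith

end MD12

end S_MINg

section S_GAP

/-! # GAP: the mirror of an orthogonal disk exchanges the end points of a gap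

On the circle, with `C.b = -‖b‖ EE m` (`‖b‖ > |a|` because `a d < ‖b‖²`, `a = d`):
`Q (EE φ) = 2 (a - ‖b‖ cos (φ - m))`, so `Q (EE φ) < 0` iff `cos (φ - m) > a/‖b‖ = cos δ`, `δ ∈ (0,π)`.
`R` acts on the circle by `tan ((ψ-m)/2) * tan ((φ-m)/2) = tan² (δ/2)` (`EE ψ = R (EE φ)`).

By symmetry (`φ ↦ -φ`, i.e. the conjugate disk `C.cj`, `GD.Q_cj`, `GD.R_cj`, and `R (R z) = z`) assume `Q (EE g) < 0`.
Choose `m` with `g ∈ (m-δ, m+δ)`.  Since `Q (EE 0) ≥ 0` and `0 < g < π`: `0 ≤ m - δ < g < m + δ ≤ 2π`.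
* `R (EE g) = EE ψ` is in `X` and outside: `ψ ∈ (m+δ-2π, m-δ)`; it is not in the gap `(-g,g)`, so `ψ ≤ -g`.
* `EE (-g) ∈ X`.  It is not in the closed arc `[m-δ, m+δ]`: otherwise `m + δ ≥ 2π - g` and the outside arc
  `(m+δ-2π, m-δ)` is contained in the gap `(-g, g)`, but it contains `ψ ∈ X`.
* `R (EE (-g)) = EE ψ'` is in `X` and inside: `ψ' ∈ (m-δ, m+δ)`, not in the gap, so `ψ' ≥ g`.
* `R` is strictly decreasing from the outside arc to the inside arc; `ψ ↦ g`, `-g ↦ ψ' ≥ g`, `ψ ≤ -g`: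
  so `ψ = -g`.
(Other approach: intermediate value theorem; or pure algebra in the coordinate `t = tan (φ/2)`, where `C` becomes
`{α t² + 2β t + δ' < 0}` and `R` becomes `t ↦ -(β t + δ')/(α t + β)`, the gap is `(-τ, τ)`.)
-/

namespace MD12

open Complex Metric Set Filter Topology InnerProductSpace
open scoped ComplexConjugate

/-- a point of the unit circle that is not on the open arc `(-g, g)` has real part `≤ cos g` -/
theorem gap_re {X : Set ℂ} (hX : ∀ x ∈ X, ‖x‖ = 1) {g : ℝ} (hg0 : 0 < g)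
    (hgap : ∀ φ : ℝ, |φ| < g → EE φ ∉ X) {x : ℂ} (hx : x ∈ X) : x.re ≤ Real.cos g := by
  have h1 : x = EE x.arg := by
    have := Complex.norm_mul_exp_arg_mul_I x
    rw [hX x hx] at this
    simpa [EE] using this.symm
  have h2 : g ≤ |x.arg| := by
    by_contra hcon
    push Not at hcon
    apply hgap x.arg hcon
    rw [← h1]
    exact hx
  have h3 : x.re = Real.cos |x.arg| := by
    conv_lhs => rw [h1]
    rw [EE_re, Real.cos_abs]
  rw [h3]
  exact Real.cos_le_cos_of_nonneg_of_le_pi hg0.le (Complex.abs_arg_le_pi x) h2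

theorem gap_den (C : GD) (h : C.a = C.d) {z : ℂ} (hz : ‖z‖ = 1) : C.den z ≠ 0 := by
  intro h0
  unfold GD.den at h0
  have h1 : (C.a : ℂ) * conj z = -conj C.b := by linear_combination h0
  have h2 := congrArg (fun w => ‖w‖ ^ 2) h1
  simp only [norm_mul, norm_neg, Complex.norm_conj, hz, mul_one, Complex.norm_real,
    Real.norm_eq_abs, sq_abs] at h2
  have h3 := C.pos
  rw [← h, ← h2] at h3
  nlinarith

/-- the reflected point is not to the right of `z` -/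
theorem gap_aux (C : GD) (h : C.a = C.d) {z : ℂ} (hz : ‖z‖ = 1) (hR : (C.R z).re ≤ z.re) :
    0 ≤ (C.a + C.b.re * z.re + C.b.im * z.im) * (C.b.re + C.a * z.re) := by
  have hd := gap_den C h hz
  have h5 : C.R z * C.den z = -(C.b * conj z + C.d) := by
    unfold GD.R
    exact div_mul_cancel₀ _ hd
  have h6 : C.R z * ((‖C.den z‖ ^ 2 : ℝ) : ℂ) = -(C.b * conj z + C.d) * conj (C.den z) := by
    rw [← Complex.normSq_eq_norm_sq, ← Complex.mul_conj]
    linear_combination (conj (C.den z)) * h5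
  have h7 := congrArg Complex.re h6
  rw [Complex.re_mul_ofReal] at h7
  have h8 : (C.R z).re * ‖C.den z‖ ^ 2 ≤ z.re * ‖C.den z‖ ^ 2 :=
    mul_le_mul_of_nonneg_right hR (by positivity)
  rw [h7] at h8
  have h9 : z.re * z.re + z.im * z.im = 1 := by
    rw [← Complex.normSq_apply, Complex.normSq_eq_norm_sq, hz]
    norm_num
  unfold GD.den at h8
  simp only [← Complex.normSq_eq_norm_sq, Complex.normSq_apply, Complex.add_re,
        Complex.add_im, Complex.mul_re, Complex.mul_im, Complex.conj_re, Complex.conj_im,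
        Complex.ofReal_re, Complex.ofReal_im, map_add, map_mul, conj_ofReal, conj_conj,
        Complex.neg_re, Complex.neg_im] at h8
  rw [← h] at h8
  have h10 : (C.a ^ 2 * z.re + C.a * C.b.re) * (z.re * z.re + z.im * z.im - 1) = 0 := by
    rw [h9]; ring
  nlinarith [h8, h10]

theorem gap_Q (C : GD) (h : C.a = C.d) {z : ℂ} (hz : ‖z‖ = 1) :
    C.Q z = 2 * (C.a + C.b.re * z.re + C.b.im * z.im) := by
  unfold GD.Q
  rw [hz, ← h]
  simp only [Complex.mul_re, Complex.conj_re, Complex.conj_im]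
  ring

theorem gap_swap (C : GD) (h : C.a = C.d) {X : Set ℂ} (hX : ∀ x ∈ X, ‖x‖ = 1 ∧ C.R x ∈ X)
    {g : ℝ} (hg0 : 0 < g) (hgπ : g < Real.pi) (hgap : ∀ φ : ℝ, |φ| < g → EE φ ∉ X)
    (h₁ : EE g ∈ X) (h₂ : EE (-g) ∈ X) (hQ1 : 0 ≤ C.Q 1)
    (hQ : C.Q (EE g) < 0 ∨ C.Q (EE (-g)) < 0) : C.R (EE g) = EE (-g) := by
  have hr : ∀ x ∈ X, x.re ≤ Real.cos g := fun x hx => gap_re (fun x hx => (hX x hx).1) hg0 hgap hx
  have e1 := hr _ (hX _ h₁).2
  have e2 := hr _ (hX _ h₂).2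
  have k1 := gap_aux C h (norm_EE g) (by rw [EE_re]; exact e1)
  have k2 := gap_aux C h (norm_EE (-g)) (by rw [EE_re, Real.cos_neg]; exact e2)
  rw [gap_Q C h (norm_EE g), gap_Q C h (norm_EE (-g))] at hQ
  rw [gap_Q C h (by simp)] at hQ1
  rw [EE_re, EE_im] at k1 k2 hQ
  rw [EE_re, EE_im] at hQ
  rw [Real.cos_neg, Real.sin_neg] at k2 hQ
  simp only [Complex.one_re, Complex.one_im, mul_one, mul_zero, add_zero] at hQ1
  have hc1 : -1 < Real.cos g := by
    rw [← Real.cos_pi]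
    exact Real.cos_lt_cos_of_nonneg_of_le_pi hg0.le le_rfl hgπ
  set c := Real.cos g with hc
  set s := Real.sin g with hs
  have key : C.b.re + C.a * c = 0 := by
    have hle : C.b.re + C.a * c ≤ 0 := by
      by_contra hcon
      push Not at hcon
      rcases hQ with hQ | hQ
      · nlinarith
      · nlinarith
    by_contra hne
    have hlt : C.b.re + C.a * c < 0 := lt_of_le_of_ne hle hne
    have m1 : C.a + C.b.re * c + C.b.im * s ≤ 0 := by
      by_contra hcon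
      push Not at hcon
      nlinarith
    have m2 : C.a + C.b.re * c + C.b.im * -s ≤ 0 := by
      by_contra hcon
      push Not at hcon
      nlinarith
    nlinarith
  have hd := gap_den C h (norm_EE g)
  have hR : C.R (EE g) = -(C.b * conj (EE g) + C.d) / C.den (EE g) := rfl
  rw [hR, div_eq_iff hd, ← conj_EE]
  have h9 : c * c + s * s = 1 := by
    have := Real.cos_sq_add_sin_sq g
    nlinarith
  unfold GD.den
  apply Complex.ext
  · simp only [Complex.add_re,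
        Complex.add_im, Complex.mul_re, Complex.mul_im, Complex.conj_re, Complex.conj_im,
        Complex.ofReal_re, Complex.ofReal_im, Complex.neg_re, EE_re, EE_im,
        ← hc, ← hs]
    rw [← h]
    linear_combination (-2 * c) * key + (C.a) * h9
  · simp only [Complex.add_re,
        Complex.add_im, Complex.mul_re, Complex.mul_im, Complex.conj_re, Complex.conj_im,
        Complex.ofReal_re, Complex.ofReal_im, Complex.neg_im, EE_re, EE_im,
        ← hc, ← hs]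
    linear_combination (2 * s) * key

end MD12

end S_GAP

section S_TRS

/-! # TRS: hyperbolic translations with axis ending in `EE g`, `EE (-g)`

`ww g` is injective on `{z ≠ EE g}` (`w = (z-p)/(z-r)`, `z (w - 1) = ...`; `w ≠ 1` since `p ≠ r`).
`arc g t = (EE (-g) - t)/(1 - t EE (-g))`: `‖EE (-g) - t‖ = ‖1 - t EE g‖ = ‖1 - t EE (-g)‖ ≠ 0` (`0 < g < π`).
`arc g t - EE (-g) = t (EE (-2g) - 1)/(1 - t EE (-g))`, `arc g t - EE g = (EE (-g) - EE g)/(1 - t EE (-g))`, quotient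
`t (EE (-2g) - 1)/(EE (-g) - EE g) = t EE (-g)`.
`arc_surj`: `t = sin ((φ+g)/2)/sin ((φ-g)/2) > 0`; `EE α - EE β = 2 i sin ((α-β)/2) EE ((α+β)/2)`.
-/

namespace MD12

open Complex Metric Set Filter Topology InnerProductSpace
open scoped ComplexConjugate

/-- the coordinate -/
noncomputable def ww (g : ℝ) (z : ℂ) : ℂ := (z - EE (-g)) / (z - EE g)

/-- `T` multiplies the coordinate by `l` on the closed disk minus the point `EE g` -/
def Tr (g l : ℝ) (T : ℂ → ℂ) : Prop :=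
  (∀ z, ‖z‖ ≤ 1 → ‖T z‖ ≤ 1) ∧ ∀ z, ‖z‖ ≤ 1 → z ≠ EE g → T z ≠ EE g ∧ ww g (T z) = l * ww g z

/-- parametrisation of the arc from `EE (-g)` to `EE g` through `-1` -/
noncomputable def arc (g t : ℝ) : ℂ := (EE (-g) - t) / (1 - t * EE (-g))

theorem trs_ne {g : ℝ} (hg0 : 0 < g) (hgπ : g < Real.pi) : EE (-g) - EE g ≠ 0 := by
  intro h
  have h1 := congrArg Complex.im h
  rw [sub_im, EE_im, EE_im, Real.sin_neg, zero_im] at h1
  have h2 := Real.sin_pos_of_pos_of_lt_pi hg0 hgπ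
  linarith

theorem trs_den {g : ℝ} (hg0 : 0 < g) (hgπ : g < Real.pi) (t : ℝ) :
    (1 : ℂ) - t * EE (-g) ≠ 0 := by
  intro h
  have h1 := congrArg Complex.im h
  have h2 := congrArg Complex.re h
  rw [sub_im, one_im, im_ofReal_mul, EE_im, Real.sin_neg, zero_im] at h1
  rw [sub_re, one_re, re_ofReal_mul, zero_re] at h2
  have h3 := Real.sin_pos_of_pos_of_lt_pi hg0 hgπ
  have h4 : t * Real.sin g = 0 := by linarith
  rcases mul_eq_zero.1 h4 with h5 | h5
  · rw [h5] at h2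
    simp at h2
  · exact h3.ne' h5

theorem trs_inj {g : ℝ} (hg0 : 0 < g) (hgπ : g < Real.pi) {a b : ℂ} (ha : a ≠ EE g)
    (hb : b ≠ EE g) (h : ww g a = ww g b) : a = b := by
  have ha' : a - EE g ≠ 0 := sub_ne_zero.2 ha
  have hb' : b - EE g ≠ 0 := sub_ne_zero.2 hb
  unfold ww at h
  rw [div_eq_div_iff ha' hb'] at h
  have h1 : (a - b) * (EE (-g) - EE g) = 0 := by linear_combination h
  rcases mul_eq_zero.1 h1 with h2 | h2
  · exact sub_eq_zero.1 h2
  · exact absurd h2 (trs_ne hg0 hgπ)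

theorem Tr.id (g : ℝ) : Tr g 1 (fun z => z) := by
  refine ⟨fun z hz => hz, fun z _ hz => ⟨hz, ?_⟩⟩
  simp

theorem Tr.comp {g l m : ℝ} {S T : ℂ → ℂ} (hS : Tr g l S) (hT : Tr g m T) :
    Tr g (l * m) (fun z => S (T z)) := by
  refine ⟨fun z hz => hS.1 _ (hT.1 z hz), fun z hz hz' => ?_⟩
  obtain ⟨h1, h2⟩ := hT.2 z hz hz'
  obtain ⟨h3, h4⟩ := hS.2 (T z) (hT.1 z hz) h1
  refine ⟨h3, ?_⟩
  rw [h4, h2]
  push_cast
  ring

theorem Tr.iterate {g l : ℝ} {T : ℂ → ℂ} (hT : Tr g l T) (n : ℕ) : Tr g (l ^ n) (T^[n]) := by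
  induction n with
  | zero =>
    rw [pow_zero]
    exact Tr.id g
  | succ n ih =>
    rw [pow_succ, Function.iterate_succ]
    exact ih.comp hT

theorem Tr.unique {g l : ℝ} (hg0 : 0 < g) (hgπ : g < Real.pi) {S T : ℂ → ℂ} (hS : Tr g l S)
    (hT : Tr g l T) {z : ℂ} (hz : ‖z‖ ≤ 1) (hz' : z ≠ EE g) : S z = T z := by
  obtain ⟨h1, h2⟩ := hS.2 z hz hz'
  obtain ⟨h3, h4⟩ := hT.2 z hz hz'
  exact trs_inj hg0 hgπ h1 h3 (h2.trans h4.symm)

theorem arc_norm {g : ℝ} (hg0 : 0 < g) (hgπ : g < Real.pi) (t : ℝ) : ‖arc g t‖ = 1 := by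
  have hd := trs_den hg0 hgπ t
  unfold arc
  rw [norm_div]
  have h1 : EE (-g) - t = EE (-g) * (1 - t * EE g) := by
    linear_combination (t : ℂ) * EE_neg_mul g
  have h2 : conj ((1 : ℂ) - t * EE g) = 1 - t * EE (-g) := by
    rw [map_sub, map_mul, conj_EE, conj_ofReal, map_one]
  have h3 : ‖(1 : ℂ) - t * EE g‖ = ‖(1 : ℂ) - t * EE (-g)‖ := by
    rw [← h2, RCLike.norm_conj]
  rw [h1, norm_mul, norm_EE, one_mul, h3, div_self (norm_ne_zero_iff.2 hd)]

theorem arc_ww {g : ℝ} (hg0 : 0 < g) (hgπ : g < Real.pi) (t : ℝ) :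
    arc g t ≠ EE g ∧ ww g (arc g t) = t * EE (-g) := by
  have hd := trs_den hg0 hgπ t
  have hn := trs_ne hg0 hgπ
  have h0 := EE_neg_mul g
  have h1 : arc g t - EE g = (EE (-g) - EE g) / (1 - t * EE (-g)) := by
    unfold arc
    rw [eq_div_iff hd, sub_mul, div_mul_cancel₀ _ hd]
    linear_combination (t : ℂ) * h0
  have h2 : arc g t - EE (-g) = t * (EE (-g) ^ 2 - 1) / (1 - t * EE (-g)) := by
    unfold arc
    rw [eq_div_iff hd, sub_mul, div_mul_cancel₀ _ hd]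
    ring
  refine ⟨?_, ?_⟩
  · rw [← sub_ne_zero, h1]
    exact div_ne_zero hn hd
  · unfold ww
    rw [h1, h2, div_div_div_cancel_right₀ hd, div_eq_iff hn]
    linear_combination (t : ℂ) * h0

theorem Tr.arc {g l : ℝ} (hg0 : 0 < g) (hgπ : g < Real.pi) {T : ℂ → ℂ} (hT : Tr g l T) (t : ℝ) :
    T (arc g t) = MD12.arc g (l * t) := by
  obtain ⟨h1, h2⟩ := arc_ww hg0 hgπ t
  obtain ⟨h3, h4⟩ := hT.2 _ (arc_norm hg0 hgπ t).le h1
  obtain ⟨h5, h6⟩ := arc_ww hg0 hgπ (l * t)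
  refine trs_inj hg0 hgπ h3 h5 ?_
  rw [h4, h2, h6]
  push_cast
  ring

theorem arc_one {g : ℝ} (hg0 : 0 < g) (hgπ : g < Real.pi) : arc g 1 = -1 := by
  have hd := trs_den hg0 hgπ 1
  unfold arc
  rw [div_eq_iff hd]
  push_cast
  ring

theorem trs_two_sin (x : ℝ) : EE x - EE (-x) = 2 * I * Real.sin x := by
  apply Complex.ext
  · rw [sub_re, EE_re, EE_re, Real.cos_neg]
    simp
  · rw [sub_im, EE_im, EE_im, Real.sin_neg]
    have : (2 * I * (Real.sin x : ℂ)).im = 2 * Real.sin x := by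
      rw [mul_assoc, mul_comm I, ← mul_assoc]
      have h : (2 : ℂ) * (Real.sin x : ℂ) = ((2 * Real.sin x : ℝ) : ℂ) := by push_cast; ring
      rw [h, im_ofReal_mul, I_im, mul_one]
    rw [this]
    ring

theorem trs_sub (a b : ℝ) : EE a - EE b = 2 * I * Real.sin ((a - b) / 2) * EE ((a + b) / 2) := by
  rw [← trs_two_sin, sub_mul, ← EE_add, ← EE_add]
  congr 2
  · ring
  · ring

theorem arc_surj {g φ : ℝ} (hg0 : 0 < g) (hgπ : g < Real.pi) (h1 : g < φ)
    (h2 : φ < 2 * Real.pi - g) : ∃ t : ℝ, 0 < t ∧ arc g t = EE φ := by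
  have hs1 : 0 < Real.sin ((φ + g) / 2) :=
    Real.sin_pos_of_pos_of_lt_pi (by linarith) (by linarith)
  have hs2 : 0 < Real.sin ((φ - g) / 2) :=
    Real.sin_pos_of_pos_of_lt_pi (by linarith) (by linarith)
  refine ⟨Real.sin ((φ + g) / 2) / Real.sin ((φ - g) / 2), div_pos hs1 hs2, ?_⟩
  set t := Real.sin ((φ + g) / 2) / Real.sin ((φ - g) / 2) with ht
  have ht' : t * Real.sin ((φ - g) / 2) = Real.sin ((φ + g) / 2) := div_mul_cancel₀ _ hs2.ne'
  have ht2 : (t : ℂ) * (Real.sin ((φ - g) / 2) : ℂ) = (Real.sin ((φ + g) / 2) : ℂ) := by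
    rw [← ofReal_mul, ht']
  have hd := trs_den hg0 hgπ t
  have e1 : EE φ - EE (-g) = 2 * I * Real.sin ((φ + g) / 2) * EE ((φ - g) / 2) := by
    rw [trs_sub, sub_neg_eq_add, ← sub_eq_add_neg]
  have e2 : EE (φ - g) - EE 0 = 2 * I * Real.sin ((φ - g) / 2) * EE ((φ - g) / 2) := by
    rw [trs_sub, sub_zero, add_zero]
  rw [EE_zero, sub_eq_add_neg φ g, EE_add, ← sub_eq_add_neg] at e2
  unfold MD12.arc
  rw [div_eq_iff hd]
  linear_combination -e1 + (t : ℂ) * e2 + 2 * I * EE ((φ - g) / 2) * ht2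

theorem arc_continuous {g : ℝ} (hg0 : 0 < g) (hgπ : g < Real.pi) : Continuous (arc g) := by
  unfold arc
  exact (continuous_const.sub continuous_ofReal).div
    (continuous_const.sub (continuous_ofReal.mul continuous_const)) (trs_den hg0 hgπ)

end MD12

end S_TRS

section S_HYP

/-! # HYP: the composition of the mirror of `C` with conjugation is a hyperbolic translation

`T z = C.R (conj z) = -(b z + a)/(a z + conj b)` (`d = a`).  From `C.R (EE g) = EE (-g)` and `GD.R_R` both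
`EE g` and `EE (-g)` are fixed by `T`; fixed points satisfy `a z² + 2 Re(b) z + a = 0`.
So `a (2 cos g) = -2 Re b` (divide by `z = EE g`): `Re b = -a cos g`.
With `l = (Im b - a sin g)/(Im b + a sin g)`: `|a| sin g < |Im b|` because `a² < ‖b‖² = a² cos² g + (Im b)²`.  So `l > 0`,
and `l = 1` iff `a sin g = 0` iff `a = 0`; then `Re b = 0` and `Q z = 2 Im b Im z`, `Im b ≠ 0`.
`(T z - EE (-g))/(T z - EE g) = l (z - EE (-g))/(z - EE g)`: clear denominators
(`a z + conj b ≠ 0` for `‖z‖ ≤ 1` by `GD.den_ne_of_orth` applied to `conj z`):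
`-(b z + a) - p (a z + conj b) = -(b + a p) (z - p)` for a root `p` of `a p² + (b + conj b) p + a = 0`,
similarly for `r`; so the quotient is `((b + a p)/(b + a r)) ww z` with `p = EE (-g)`, `r = EE g`,
`b + a p = i (Im b - a sin g)`, `b + a r = i (Im b + a sin g)`.
-/

namespace MD12

open Complex Metric Set Filter Topology InnerProductSpace
open scoped ComplexConjugate

theorem hyp_tr (C : GD) (h : C.a = C.d) {g : ℝ} (hg0 : 0 < g) (hgπ : g < Real.pi)
    (hs : C.R (EE g) = EE (-g)) :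
    ∃ l : ℝ, 0 < l ∧ Tr g l (fun z => C.R (conj z)) ∧ (l = 1 → ∀ z, C.Q z = 0 ↔ z.im = 0) := by
  have hsin : 0 < Real.sin g := Real.sin_pos_of_pos_of_lt_pi hg0 hgπ
  have hsc : Real.sin g ^ 2 + Real.cos g ^ 2 = 1 := Real.sin_sq_add_cos_sq g
  have hr : EE g = Real.cos g + Real.sin g * I := by
    apply Complex.ext <;> simp [EE_re, EE_im, Complex.cos_ofReal_re, Complex.sin_ofReal_re]
  have hp : EE (-g) = Real.cos g - Real.sin g * I := by
    apply Complex.ext <;>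
      simp [EE_re, EE_im, Complex.cos_ofReal_re, Complex.sin_ofReal_re, Real.cos_neg, Real.sin_neg]
  -- `Re b = -a cos g`
  have hdr : C.den (EE g) ≠ 0 := C.den_ne_of_orth h (norm_EE g).le
  have h1 : -(C.b * EE (-g) + C.a) = EE (-g) * (C.a * EE (-g) + conj C.b) := by
    have h2 : C.R (EE g) = -(C.b * conj (EE g) + C.d) / C.den (EE g) := rfl
    rw [h2, div_eq_iff hdr] at hs
    unfold GD.den at hs
    rw [conj_EE, ← h] at hs
    exact hs
  have hre : C.b.re = -(C.a * Real.cos g) := by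
    rw [hp] at h1
    have h3 := congrArg Complex.re h1
    have h4 := congrArg Complex.im h1
    simp only [Complex.add_re, Complex.add_im, Complex.mul_re, Complex.mul_im, Complex.conj_re,
      Complex.conj_im, Complex.ofReal_re, Complex.ofReal_im, Complex.neg_re, Complex.neg_im,
      Complex.sub_re, Complex.sub_im, Complex.I_re, Complex.I_im] at h3 h4
    nlinarith [mul_pos hsin hsin]
  have hbe : C.b = -(C.a * Real.cos g) + C.b.im * I := by
    apply Complex.ext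
    · simp [hre, Complex.cos_ofReal_re]
    · simp
  have hbc : conj C.b = -(C.a * Real.cos g) - C.b.im * I := by
    apply Complex.ext
    · simp [hre, Complex.cos_ofReal_re]
    · simp
  have hpos : (C.a * Real.sin g) ^ 2 < C.b.im ^ 2 := by
    have h2 := C.pos
    rw [← h, ← Complex.normSq_eq_norm_sq, Complex.normSq_apply, hre] at h2
    nlinarith
  have hprod : 0 < (C.b.im - C.a * Real.sin g) * (C.b.im + C.a * Real.sin g) := by nlinarith
  have hden : C.b.im + C.a * Real.sin g ≠ 0 := by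
    intro h0
    rw [h0, mul_zero] at hprod
    exact lt_irrefl _ hprod
  refine ⟨(C.b.im - C.a * Real.sin g) / (C.b.im + C.a * Real.sin g), ?_, ⟨?_, ?_⟩, ?_⟩
  · rw [div_eq_mul_inv]
    rcases lt_or_gt_of_ne hden with h0 | h0
    · have h2 : C.b.im - C.a * Real.sin g < 0 := by
        by_contra hcon
        push Not at hcon
        nlinarith
      exact mul_pos_of_neg_of_neg h2 (inv_lt_zero.2 h0)
    · have h2 : 0 < C.b.im - C.a * Real.sin g := by
        by_contra hcon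
        push Not at hcon
        nlinarith
      exact mul_pos h2 (inv_pos.2 h0)
  · intro z hz
    have hz' : ‖conj z‖ ≤ 1 := by rwa [RCLike.norm_conj]
    rcases lt_or_eq_of_le hz' with h2 | h2
    · exact (C.norm_R_orth h h2).le
    · exact (C.norm_R_orth_eq h h2).le
  · intro z hz hzr
    have hz' : ‖conj z‖ ≤ 1 := by rwa [RCLike.norm_conj]
    have hD : C.den (conj z) ≠ 0 := C.den_ne_of_orth h hz'
    have hD' : C.den (conj z) = C.a * z + conj C.b := by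
      unfold GD.den; rw [conj_conj]
    have hR : C.R (conj z) = -(C.b * z + C.a) / C.den (conj z) := by
      have h2 : C.R (conj z) = -(C.b * conj (conj z) + C.d) / C.den (conj z) := rfl
      rw [h2, conj_conj, ← h]
    have hscC : (Real.sin g : ℂ) ^ 2 + (Real.cos g : ℂ) ^ 2 = 1 := by
      rw [← Complex.ofReal_pow, ← Complex.ofReal_pow, ← Complex.ofReal_add, hsc, Complex.ofReal_one]
    have hI : I * I = -1 := Complex.I_mul_I
    have hTr : (C.R (conj z) - EE g) * C.den (conj z) =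
        -(I * (C.b.im + C.a * Real.sin g)) * (z - EE g) := by
      rw [sub_mul, hR, div_mul_cancel₀ _ hD, hD', hbc, hr]
      linear_combination (-z) * hbe + (C.a : ℂ) * hscC - (C.a * (Real.sin g : ℂ) ^ 2) * hI
    have hTp : (C.R (conj z) - EE (-g)) * C.den (conj z) =
        -(I * (C.b.im - C.a * Real.sin g)) * (z - EE (-g)) := by
      rw [sub_mul, hR, div_mul_cancel₀ _ hD, hD', hbc, hp]
      linear_combination (-z) * hbe + (C.a : ℂ) * hscC - (C.a * (Real.sin g : ℂ) ^ 2) * hI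
    have hdC : (C.b.im : ℂ) + C.a * Real.sin g ≠ 0 := by
      intro h0
      apply hden
      exact_mod_cast h0
    have hne : z - EE g ≠ 0 := sub_ne_zero.2 hzr
    have hTne : C.R (conj z) - EE g ≠ 0 := by
      intro h0
      rw [h0, zero_mul] at hTr
      exact (mul_ne_zero (neg_ne_zero.2 (mul_ne_zero I_ne_zero hdC)) hne) hTr.symm
    refine ⟨sub_ne_zero.1 hTne, ?_⟩
    unfold ww
    rw [Complex.ofReal_div, Complex.ofReal_sub, Complex.ofReal_add, Complex.ofReal_mul]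
    rw [div_mul_div_comm, div_eq_div_iff hTne (mul_ne_zero hdC hne)]
    apply mul_right_cancel₀ (mul_ne_zero hD I_ne_zero)
    linear_combination (I * (C.b.im + C.a * Real.sin g) * (z - EE g)) * hTp -
      ((C.b.im - C.a * Real.sin g) * (z - EE (-g)) * I) * hTr
  · intro hl z
    rw [div_eq_one_iff_eq hden] at hl
    have ha : C.a = 0 := by
      have : C.a * Real.sin g = 0 := by linarith
      rcases mul_eq_zero.1 this with h2 | h2
      · exact h2
      · exact absurd h2 hsin.ne'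
    have hb0 : C.b.re = 0 := by rw [hre, ha]; ring
    have hbi : C.b.im ≠ 0 := by
      intro h0
      rw [h0, ha] at hden
      simp at hden
    unfold GD.Q
    rw [← h, ha]
    simp only [zero_mul, zero_add, add_zero, Complex.mul_re, Complex.conj_re, Complex.conj_im, hb0]
    constructor
    · intro h2
      have h3 : C.b.im * z.im = 0 := by linarith
      exact (mul_eq_zero.1 h3).resolve_left hbi
    · intro h2
      rw [h2]; ring

end MD12

end S_HYP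

section S_DEND

/-! # DEND: closed subsets of the line invariant under two translations

`G = AddSubgroup.closure {u, v}`; `Y` is invariant under `G`.  `AddSubgroup.dense_or_cyclic G`: dense: `Y` closed,
nonempty and invariant, so `Y = univ`.  Cyclic `G = zmultiples c`: `u = a c`, `v = b c`, `a ≠ 0` as `u ≠ 0`;
then `a v = b u`: take `i = a`, `j = b`.
-/

namespace MD12

open Set

theorem den_dich {u v : ℝ} (hu : u ≠ 0) {Y : Set ℝ} (hYc : IsClosed Y) (hYn : Y.Nonempty)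
    (hu' : ∀ s, s + u ∈ Y ↔ s ∈ Y) (hv' : ∀ s, s + v ∈ Y ↔ s ∈ Y) :
    Y = univ ∨ ∃ i j : ℤ, i ≠ 0 ∧ (i : ℝ) * v = j * u := by
  -- the stabiliser of `Y`
  let H : AddSubgroup ℝ :=
    { carrier := {g | ∀ s, s + g ∈ Y ↔ s ∈ Y}
      add_mem' := by
        intro a b ha hb s
        rw [← add_assoc, hb, ha]
      zero_mem' := by
        intro s
        rw [add_zero]
      neg_mem' := by
        intro a ha s
        rw [← ha (s + -a), neg_add_cancel_right] }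
  have huH : u ∈ H := hu'
  have hvH : v ∈ H := hv'
  rcases AddSubgroup.dense_or_cyclic H with hd | ⟨c, hc⟩
  · left
    obtain ⟨y, hy⟩ := hYn
    rw [eq_univ_iff_forall]
    intro x
    -- the set of `g` with `y + g ∈ Y` is closed and contains the dense subgroup
    have hcl : IsClosed {g : ℝ | y + g ∈ Y} := hYc.preimage (by fun_prop)
    have hsub : (H : Set ℝ) ⊆ {g : ℝ | y + g ∈ Y} := fun g hg => (hg y).2 hy
    have h1 : x - y ∈ closure (H : Set ℝ) := hd (x - y)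
    have h2 := closure_minimal hsub hcl h1
    have h3 : y + (x - y) ∈ Y := h2
    rwa [add_sub_cancel] at h3
  · right
    rw [hc] at huH hvH
    obtain ⟨a, ha⟩ := AddSubgroup.mem_closure_singleton.1 huH
    obtain ⟨b, hb⟩ := AddSubgroup.mem_closure_singleton.1 hvH
    refine ⟨a, b, ?_, ?_⟩
    · rintro rfl
      apply hu
      rw [← ha, zero_smul]
    · rw [← ha, ← hb, zsmul_eq_mul, zsmul_eq_mul]
      ring

end MD12

end S_DEND

section S_T1FIN

/-! # T1FIN: two translations with the same axis and different scaling: contradiction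

Let `T z = C₁.R (conj z)`, `T' z = C₂.R (conj z)`; `hyp_tr` gives `l, m > 0` with `Tr g l T`, `Tr g m T'`,
`l ≠ 1` by `hne`.  Both are `Nice` (`nice_R`, `nice_conj`, `Nice.comp`) and fix `EE g`
(`T (EE g) = C₁.R (EE (-g)) = C₁.R (C₁.R (EE g)) = EE g`).
`Y = {s : ℝ | ¬ Ext U (arc g (exp s))}` is closed (`isOpen_setOf_ext`, `arc_continuous`), nonempty by `hfar` and
`arc_surj`, invariant under `s ↦ s + log l` and `s ↦ s + log m`: `arc g (l t) = T (arc g t)` (`Tr.arc`) and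
`Ext U (T x) ↔ Ext U x` by `hi₁`, `hc`.  `0 ∉ Y` since `arc g 1 = -1`.
`den_dich` (with `u = log l ≠ 0`, `v = log m`): `Y = univ` is impossible; so `i log m = j log l`, `i ≠ 0`.
Changing signs: `i > 0`.
* `j ≥ 0`: `m^i = l^j` (`i, j` natural), `T'^[i]` and `T^[j]` agree on the open disk (`Tr.iterate`, `Tr.unique`);
  `Sc.iterate`: `Sc γ U (T'^[i]) (EE g) (i * n)` and `Sc γ U (T^[j]) (EE g) 0`, `Sc.congr`, `Sc.unique`
  (`i * n ≠ 0`): `Ext U (EE g)`, contradiction.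
* `j < 0`: `m^i * l^(-j) = 1`: `T'^[i] ∘ T^[-j]` agrees with the identity on the open disk;
  `Sc.comp`: `i * n + 0`, and `Sc.id`: contradiction in the same way.
-/

namespace MD12

open Complex Metric Set Filter Topology InnerProductSpace
open scoped ComplexConjugate

theorem t1fin_aux {γ : ℝ} (h0 : γ ≠ 0) (h1 : |γ| < 1) {U : ℂ → ℝ} {g : ℝ} (hg0 : 0 < g)
    (hgπ : g < Real.pi) {T T' : ℂ → ℂ} (hT : Nice T) (hT' : Nice T')
    (hf : T (EE g) = EE g) (hf' : T' (EE g) = EE g) {l m : ℝ} (hl : 0 < l) (hm : 0 < m)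
    (hTl : Tr g l T) (hTm : Tr g m T') (hS₁ : Sc γ U T (EE g) 0) {n : ℤ} (hn : n ≠ 0)
    (hS₂ : Sc γ U T' (EE g) n) (i : ℕ) (hi : 0 < i) (j : ℤ)
    (h : (i : ℝ) * Real.log m = j * Real.log l) : Ext U (EE g) := by
  have hnE : ∀ z : ℂ, ‖z‖ < 1 → z ≠ EE g := by
    rintro z hz rfl
    rw [norm_EE] at hz
    exact lt_irrefl _ hz
  have hin : (i : ℤ) * n ≠ 0 := mul_ne_zero (by exact_mod_cast hi.ne') hn
  have hSi : Sc γ U (T'^[i]) (EE g) (i * n) := hS₂.iterate h0 hT' (norm_EE g) hf' i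
  have hTi : Tr g (m ^ i) (T'^[i]) := hTm.iterate i
  rcases Int.eq_nat_or_neg j with ⟨a, rfl | rfl⟩
  · have hSa : Sc γ U (T^[a]) (EE g) (a * 0) := hS₁.iterate h0 hT (norm_EE g) hf a
    have hTa : Tr g (l ^ a) (T^[a]) := hTl.iterate a
    have e : m ^ i = l ^ a := by
      apply Real.log_injOn_pos (pow_pos hm i) (pow_pos hl a)
      rw [Real.log_pow, Real.log_pow, h]
      push_cast
      ring
    rw [e] at hTi
    have hSa' : Sc γ U (T'^[i]) (EE g) (a * 0) :=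
      hSa.congr fun z hz => hTi.unique hg0 hgπ hTa hz.le (hnE z hz)
    refine Sc.unique h0 h1 ?_ hSi hSa'
    simpa using hin
  · have hSa : Sc γ U (T^[a]) (EE g) (a * 0) := hS₁.iterate h0 hT (norm_EE g) hf a
    have hTa : Tr g (l ^ a) (T^[a]) := hTl.iterate a
    have e : m ^ i * l ^ a = 1 := by
      have h2 : Real.log (m ^ i * l ^ a) = 0 := by
        rw [Real.log_mul (pow_pos hm i).ne' (pow_pos hl a).ne', Real.log_pow, Real.log_pow, h]
        push_cast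
        ring
      have h3 := Real.exp_log (mul_pos (pow_pos hm i) (pow_pos hl a))
      rw [h2, Real.exp_zero] at h3
      exact h3.symm
    have hc := hTi.comp hTa
    rw [e] at hc
    have hfa : T^[a] (EE g) = EE g := Function.iterate_fixed hf a
    have hSc : Sc γ U (fun z => T'^[i] (T^[a] z)) (EE g) (i * n + a * 0) :=
      Sc.comp h0 (hT.iterate a) (norm_EE g) (by rw [hfa]; exact hSi) hSa
    have hSid : Sc γ U (fun z => T'^[i] (T^[a] z)) (EE g) 0 :=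
      (Sc.id (γ := γ) (U := U) (EE g)).congr fun z hz =>
        hc.unique hg0 hgπ (Tr.id g) hz.le (hnE z hz)
    refine Sc.unique h0 h1 ?_ hSc hSid
    simpa using hin

theorem t1_fin {γ : ℝ} (h0 : γ ≠ 0) (h1 : |γ| < 1) {U : ℂ → ℝ} {g : ℝ} (hg0 : 0 < g)
    (hgπ : g < Real.pi) (hXg : ¬ Ext U (EE g)) (hπ : Ext U (-1))
    (hfar : ∃ φ : ℝ, g < φ ∧ φ < 2 * Real.pi - g ∧ ¬ Ext U (EE φ))
    (hc : ∀ x, ‖x‖ = 1 → (Ext U (conj x) ↔ Ext U x)) {C₁ C₂ : GD} (ho₁ : C₁.a = C₁.d)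
    (ho₂ : C₂.a = C₂.d) (hs₁ : C₁.R (EE g) = EE (-g)) (hs₂ : C₂.R (EE g) = EE (-g))
    (hi₁ : ∀ x, ‖x‖ = 1 → (Ext U (C₁.R x) ↔ Ext U x))
    (hi₂ : ∀ x, ‖x‖ = 1 → (Ext U (C₂.R x) ↔ Ext U x))
    (hne : ¬ ∀ z, C₁.Q z = 0 ↔ z.im = 0)
    (hS₁ : Sc γ U (fun z => C₁.R (conj z)) (EE g) 0) {n : ℤ} (hn : n ≠ 0)
    (hS₂ : Sc γ U (fun z => C₂.R (conj z)) (EE g) n) : False := by
  obtain ⟨l, hl, hTl, hl1⟩ := hyp_tr C₁ ho₁ hg0 hgπ hs₁
  obtain ⟨m, hm, hTm, _⟩ := hyp_tr C₂ ho₂ hg0 hgπ hs₂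
  have hl1' : l ≠ 1 := fun h => hne (hl1 h)
  have hN₁ : Nice (fun z => C₁.R (conj z)) := (nice_R ho₁).comp nice_conj
  have hN₂ : Nice (fun z => C₂.R (conj z)) := (nice_R ho₂).comp nice_conj
  have hfix : ∀ C : GD, C.a = C.d → C.R (EE g) = EE (-g) → C.R (conj (EE g)) = EE g := by
    intro C ho hs
    rw [conj_EE, ← hs]
    exact C.R_R (C.den_ne_of_orth ho (norm_EE g).le)
  have hinv : ∀ C : GD, (∀ x, ‖x‖ = 1 → (Ext U (C.R x) ↔ Ext U x)) → ∀ k : ℝ, 0 < k →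
      Tr g k (fun z => C.R (conj z)) → ∀ s : ℝ,
      (s + Real.log k ∈ {s : ℝ | ¬ Ext U (arc g (Real.exp s))} ↔
        s ∈ {s : ℝ | ¬ Ext U (arc g (Real.exp s))}) := by
    intro C hi k hk hT s
    simp only [mem_ofPred_eq]
    rw [Real.exp_add, Real.exp_log hk, mul_comm (Real.exp s) k, ← hT.arc hg0 hgπ]
    have h2 : ‖conj (arc g (Real.exp s))‖ = 1 := by
      rw [RCLike.norm_conj]
      exact arc_norm hg0 hgπ _
    rw [not_iff_not]
    exact (hi _ h2).trans (hc _ (arc_norm hg0 hgπ _))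
  have hYc : IsClosed {s : ℝ | ¬ Ext U (arc g (Real.exp s))} := by
    have h2 : IsOpen {s : ℝ | Ext U (arc g (Real.exp s))} :=
      (isOpen_setOf_ext U).preimage ((arc_continuous hg0 hgπ).comp Real.continuous_exp)
    exact h2.isClosed_compl
  have hYn : {s : ℝ | ¬ Ext U (arc g (Real.exp s))}.Nonempty := by
    obtain ⟨φ, h2, h3, h4⟩ := hfar
    obtain ⟨t, ht, ht'⟩ := arc_surj hg0 hgπ h2 h3
    refine ⟨Real.log t, ?_⟩
    rw [mem_ofPred_eq, Real.exp_log ht, ht']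
    exact h4
  have hu : Real.log l ≠ 0 := by
    intro h
    apply hl1'
    have h2 := Real.exp_log hl
    rw [h, Real.exp_zero] at h2
    exact h2.symm
  rcases den_dich hu hYc hYn (hinv C₁ hi₁ l hl hTl) (hinv C₂ hi₂ m hm hTm) with hY | ⟨i, j, hi, hij⟩
  · have h2 : (0 : ℝ) ∈ {s : ℝ | ¬ Ext U (arc g (Real.exp s))} := by
      rw [hY]
      exact mem_univ _
    rw [mem_ofPred_eq, Real.exp_zero, arc_one hg0 hgπ] at h2
    exact h2 hπ
  · apply hXg
    rcases lt_or_gt_of_ne hi with h2 | h2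
    · refine t1fin_aux h0 h1 hg0 hgπ hN₁ hN₂ (hfix C₁ ho₁ hs₁) (hfix C₂ ho₂ hs₂) hl hm hTl hTm
        hS₁ hn hS₂ i.natAbs (by omega) (-j) ?_
      have h3 : ((i.natAbs : ℕ) : ℝ) = -(i : ℝ) := by
        have : ((i.natAbs : ℕ) : ℤ) = -i := by omega
        rw [← Int.cast_natCast (R := ℝ), this, Int.cast_neg]
      rw [h3]
      push_cast
      linarith
    · refine t1fin_aux h0 h1 hg0 hgπ hN₁ hN₂ (hfix C₁ ho₁ hs₁) (hfix C₂ ho₂ hs₂) hl hm hTl hTm
        hS₁ hn hS₂ i.natAbs (by omega) j ?_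
      have h3 : ((i.natAbs : ℕ) : ℝ) = (i : ℝ) := by
        have : ((i.natAbs : ℕ) : ℤ) = i := by omega
        rw [← Int.cast_natCast (R := ℝ), this]
      rw [h3]
      exact hij

end MD12

end S_T1FIN

section S_T1EV

/-! # T1EV: the second mirror, `q` even

`X = {φ | ¬ Ext U (EE φ)}`.  `A.R z = conj z` (`IsHP.R_eq`, `EE 0 = 1`).  `X` is invariant under `φ ↦ φ + 2π/q`, so under
`φ ↦ φ + π` (`q` even), and under `φ ↦ -φ` (`P.inv₁`).
`p` is odd, `θ = pπ/q ≥ π/q > g`.  Let `x₀ = EE (π + g)`, `¬ Ext U x₀`.  `Bd.Q x₀ < 0` (`IsHP.Q_neg`: `sin (π+g-θ) > 0`),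
`A.Q x₀ > 0` (`sin (π+g) < 0`).  `P.cov₁ hB hA`: there is `D` in `GO U V₁ I₁` with `D.Q x₀ < 0`.
`D ≠ A`, `A.Q (-1) = 0`, so `D.Q (-1) > 0` (`P.dis₁`).
`C := D.rot (-1)`: `C.Q w = D.Q (-w)`, `C.R w = -D.R (-w)`, `C.a = C.d`; `C.Q (EE g) = D.Q x₀ < 0` (`-EE g = EE (π+g)`), `C.Q 1 > 0`;
`Ext U (C.R x) ↔ Ext U x` (rotation by `π`, `P.inv₁` for `D`).
`gap_swap` with `X = {x | ‖x‖ = 1 ∧ ¬ Ext U x}`: `C.R (EE g) = EE (-g)`.
Scaling: `C.R (conj z) = -(D.R (conj (-z)))`.  Path: `EE g ↦ -EE g = EE (π+g)` (rotation by `π`, relation `m` from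
`sc_rot_exists` with `j = q/2`) `↦ conj` (`P.pos₁ hA`, `+1`, as `A.Q (EE (π+g)) > 0`) `EE (-π-g) = -EE (-g) ↦ D.R` (`P.pos₁`, `+1`:
`D.Q (-EE (-g)) = C.Q (EE (-g)) > 0` because `EE (-g) = C.R (EE g)`, `GD.Q_R_pos_iff`) `-EE g`, `↦` rotation by `π` (relation `m'` at `-EE g`) `EE g`.
`m + m' = 0`: the composition of the two rotations is the identity (`Sc.comp`, `Sc.congr`, `Sc.id`, `Sc.unique`, `¬ Ext U (EE g)`).
Total `m' + 1 + 1 + m = 2 ≠ 0`.
-/

namespace MD12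

open Complex Metric Set Filter Topology InnerProductSpace
open scoped ComplexConjugate

theorem t1ev_scA {γ κ : ℝ} (h0 : γ ≠ 0) {U V₁ V₂ : ℂ → ℝ} {I₁ I₂ : Finset GD}
    (P : PK γ κ U V₁ V₂ I₁ I₂) {A : GD} (hA : GO U V₁ I₁ A) {x : ℂ} (hx : ‖x‖ = 1)
    (hX : ¬ Ext U x) : ∃ n : ℤ, Sc γ U A.R x n := by
  rcases lt_trichotomy (A.Q x) 0 with h | h | h
  · exact ⟨-1, P.neg₁ h0 hA hx h⟩
  · exact absurd (P.end₁ hA hx h) hX
  · exact ⟨1, P.pos₁ hA hx h⟩

theorem t1_even {γ κ : ℝ} (h0 : γ ≠ 0) (h1 : |γ| < 1) {U V₁ V₂ : ℂ → ℝ} {I₁ I₂ : Finset GD}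
    (P : PK γ κ U V₁ V₂ I₁ I₂) {A Bd : GD} (hA : GO U V₁ I₁ A) (hB : GO U V₂ I₂ Bd) {θ : ℝ}
    (hpA : IsHP 0 A) (hpB : IsHP θ Bd) {p q : ℕ} (hp0 : 0 < p) (hpq : p < q)
    (hco : Nat.Coprime p q) (hθ : θ = p * Real.pi / q) (hqe : Even q) {g : ℝ} (hg0 : 0 < g)
    (hgq : g < Real.pi / q) (hXg : ¬ Ext U (EE g)) (hXg' : ¬ Ext U (EE (-g)))
    (hgap : ∀ φ : ℝ, |φ| < g → Ext U (EE φ))
    (hrot : ∀ φ : ℝ, Ext U (EE (φ + 2 * Real.pi / q)) ↔ Ext U (EE φ)) :
    ∃ C : GD, C.a = C.d ∧ C.R (EE g) = EE (-g) ∧ (∀ x, ‖x‖ = 1 → (Ext U (C.R x) ↔ Ext U x)) ∧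
      ∃ n : ℤ, n ≠ 0 ∧ Sc γ U (fun z => C.R (conj z)) (EE g) n := by
  have hπ := Real.pi_pos
  have hqN : 0 < q := hp0.trans hpq
  have hq0 : (0 : ℝ) < q := by exact_mod_cast hqN
  have hq1 : (1 : ℝ) ≤ q := by exact_mod_cast hqN
  obtain ⟨j, hj⟩ := hqe
  have hjq : 2 * Real.pi * j / q = Real.pi := by
    have h3 : (q : ℝ) = j + j := by exact_mod_cast hj
    rw [div_eq_iff hq0.ne', h3]
    ring
  have hm1 : ‖(-1 : ℂ)‖ = 1 := by simp
  -- the two mirrors
  have hRA : ∀ z, A.R z = conj z := by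
    intro z
    rw [hpA.R_eq]
    simp [EE_zero]
  have hRB : ∀ z, Bd.R z = EE (2 * θ) * conj z := hpB.R_eq
  have hscA : ∀ φ : ℝ, ¬ Ext U (EE φ) → ∃ n : ℤ, Sc γ U (fun z => conj z) (EE φ) n := by
    intro φ hφ
    obtain ⟨n, hn⟩ := t1ev_scA h0 P hA (norm_EE φ) hφ
    exact ⟨n, hn.congr fun z _ => (hRA z).symm⟩
  have hscB : ∀ φ : ℝ, ¬ Ext U (EE φ) →
      ∃ n : ℤ, Sc γ U (fun z => EE (2 * θ) * conj z) (EE φ) n := by
    intro φ hφ
    obtain ⟨n, hn⟩ := t1ev_scA h0 P.swap hB (norm_EE φ) hφ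
    exact ⟨n, hn.congr fun z _ => (hRB z).symm⟩
  -- rotation by `π`
  have hrotn : ∀ (n : ℕ) (φ : ℝ), Ext U (EE (φ + n * (2 * Real.pi / q))) ↔ Ext U (EE φ) := by
    intro n
    induction n with
    | zero => intro φ; simp
    | succ n ih =>
      intro φ
      rw [← ih φ, ← hrot (φ + n * (2 * Real.pi / q))]
      push_cast
      rw [show φ + ((n : ℝ) + 1) * (2 * Real.pi / q) =
        φ + n * (2 * Real.pi / q) + 2 * Real.pi / q by ring]
  have hEπ : ∀ φ : ℝ, EE (φ + Real.pi) = -1 * EE φ := by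
    intro φ
    rw [EE_add, EE_pi, mul_comm]
  have hrotπ : ∀ φ : ℝ, Ext U (EE (φ + Real.pi)) ↔ Ext U (EE φ) := by
    intro φ
    have h := hrotn j φ
    rw [show (j : ℝ) * (2 * Real.pi / q) = 2 * Real.pi * j / q by ring, hjq] at h
    exact h
  have hneg : ∀ x : ℂ, ‖x‖ = 1 → (Ext U (-1 * x) ↔ Ext U x) := by
    intro x hx
    obtain ⟨φ, rfl⟩ := exists_EE hx
    rw [← hEπ]
    exact hrotπ φ
  have hscr : ∀ φ : ℝ, ¬ Ext U (EE φ) → ∃ n : ℤ, Sc γ U (fun z => -1 * z) (EE φ) n := by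
    intro φ hφ
    obtain ⟨n, hn⟩ := sc_rot_exists h0 hqN hco hθ hscA hscB j φ hφ
    refine ⟨n, hn.congr fun z _ => ?_⟩
    rw [hjq, EE_pi]
  have hnr : Nice (fun z => -1 * z) := nice_mul hm1
  -- sizes
  have hqle : Real.pi / q ≤ θ := by
    rw [hθ, div_le_div_iff_of_pos_right hq0]
    have : (1 : ℝ) ≤ p := by exact_mod_cast hp0
    nlinarith
  have hθπ : θ < Real.pi := by
    rw [hθ, div_lt_iff₀ hq0]
    have : (p : ℝ) < q := by exact_mod_cast hpq
    nlinarith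
  have hgθ : g < θ := hgq.trans_le hqle
  have hgπ : g < Real.pi := hgθ.trans hθπ
  -- the point `x₀`
  have hXx : ¬ Ext U (EE (g + Real.pi)) := fun h => hXg ((hrotπ g).1 h)
  have hBx : Bd.Q (EE (g + Real.pi)) < 0 := by
    rw [hpB.Q_neg]
    exact Real.sin_pos_of_pos_of_lt_pi (by linarith) (by linarith)
  have hAx : 0 < A.Q (EE (g + Real.pi)) := by
    rw [hpA.Q_pos, sub_zero, Real.sin_add_pi]
    have := Real.sin_pos_of_pos_of_lt_pi hg0 hgπ
    linarith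
  obtain ⟨D, hD, hDQ⟩ := P.cov₁ hB hA hpB.1 hpA.1 (norm_EE _) hBx hAx hXx
  have hDA : A ≠ D := by
    rintro rfl
    linarith
  have hA1 : A.Q (-1) = 0 := by
    rw [← EE_pi, hpA.Q_zero, sub_zero]
    exact Real.sin_pi
  have hD1 : 0 < D.Q (-1) := P.dis₁ hA.1 hD.1 hDA (by simp) hA1.le
  -- the rotated disk
  have hCQ : ∀ w, (D.rot (-1) hm1).Q w = D.Q (-1 * w) := D.Q_rot hm1
  have hCR : ∀ w, (D.rot (-1) hm1).R w = -1 * D.R (-1 * w) := by
    intro w
    rw [D.R_rot hm1]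
    simp
  have hCad : (D.rot (-1) hm1).a = (D.rot (-1) hm1).d := hD.2.2
  obtain ⟨C, hC⟩ : ∃ C, C = D.rot (-1) hm1 := ⟨_, rfl⟩
  rw [← hC] at hCQ hCR hCad
  have hCg : C.Q (EE g) < 0 := by
    rw [hCQ, ← hEπ]
    exact hDQ
  have hC1 : 0 < C.Q 1 := by
    rw [hCQ, mul_one]
    exact hD1
  have hCinv : ∀ x, ‖x‖ = 1 → (Ext U (C.R x) ↔ Ext U x) := by
    intro x hx
    have hx' : ‖-1 * x‖ = 1 := by rw [norm_mul, hm1, one_mul, hx]
    rw [hCR, hneg _ (GD.norm_R_orth_eq D hD.2.2 hx'), P.inv₁ h0 hD hx', hneg x hx]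
  have hsw : C.R (EE g) = EE (-g) := by
    refine gap_swap C hCad (X := {x | ‖x‖ = 1 ∧ ¬ Ext U x}) ?_ hg0 hgπ ?_ ?_ ?_ hC1.le
      (Or.inl hCg)
    · rintro x ⟨hx, hx'⟩
      exact ⟨hx, GD.norm_R_orth_eq C hCad hx, fun h => hx' ((hCinv x hx).mp h)⟩
    · rintro φ hφ ⟨-, h⟩
      exact h (hgap φ hφ)
    · exact ⟨norm_EE _, hXg⟩
    · exact ⟨norm_EE _, hXg'⟩
  have hden : C.den (EE g) ≠ 0 := C.den_ne_of_orth hCad (norm_EE g).le
  have hsw' : C.R (EE (-g)) = EE g := by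
    rw [← hsw]
    exact C.R_R hden
  refine ⟨C, hCad, hsw, hCinv, ?_⟩
  -- the composition
  obtain ⟨m, hm⟩ := hscr g hXg
  obtain ⟨m', hm'⟩ := hscr (g + Real.pi) hXx
  have hgp : -1 * EE g = EE (g + Real.pi) := (hEπ g).symm
  have hmm : m' + m = 0 := by
    by_contra hne
    have s1 : Sc γ U (fun z => -1 * (-1 * z)) (EE g) (m' + m) :=
      Sc.comp h0 hnr (norm_EE g) (f := fun z => -1 * z) (by rw [hgp]; exact hm') hm
    have s2 : Sc γ U (fun z => z) (EE g) (m' + m) := s1.congr fun z _ => by ring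
    exact hXg (Sc.unique h0 h1 hne s2 (Sc.id (EE g)))
  have s2 : Sc γ U (fun z => conj z) (EE (g + Real.pi)) 1 :=
    (P.pos₁ hA (norm_EE _) hAx).congr fun z _ => (hRA z).symm
  have hcj : conj (EE (g + Real.pi)) = -1 * EE (-g) := by
    rw [hEπ, map_mul, conj_EE]
    simp
  have s3 : Sc γ U D.R (-1 * EE (-g)) 1 := by
    refine P.pos₁ hD (by rw [norm_mul, hm1, one_mul, norm_EE]) ?_
    rw [← hCQ, ← hsw, C.Q_R_pos_iff hden]
    exact hCg
  have hDR : D.R (-1 * EE (-g)) = EE (g + Real.pi) := by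
    have h := hCR (EE (-g))
    rw [hsw'] at h
    rw [hEπ, h]
    ring
  have c1 : Sc γ U (fun z => conj (-1 * z)) (EE g) (1 + m) :=
    Sc.comp h0 hnr (norm_EE g) (f := fun z => conj z) (by rw [hgp]; exact s2) hm
  have hn1 : Nice (fun z : ℂ => conj (-1 * z)) := nice_conj.comp hnr
  have hv1 : conj (-1 * EE g) = -1 * EE (-g) := by rw [hgp]; exact hcj
  have c2 : Sc γ U (fun z => D.R (conj (-1 * z))) (EE g) (1 + (1 + m)) :=
    Sc.comp h0 hn1 (norm_EE g) (f := D.R) (by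
      show Sc γ U D.R (conj (-1 * EE g)) 1
      rw [hv1]; exact s3) c1
  have hn2 : Nice (fun z : ℂ => D.R (conj (-1 * z))) := (nice_R hD.2.2).comp hn1
  have c3 : Sc γ U (fun z => -1 * D.R (conj (-1 * z))) (EE g) (m' + (1 + (1 + m))) :=
    Sc.comp h0 hn2 (norm_EE g) (f := fun z => -1 * z) (by
      show Sc γ U (fun z => -1 * z) (D.R (conj (-1 * EE g))) m'
      rw [hv1, hDR]; exact hm') c2
  refine ⟨m' + (1 + (1 + m)), by omega, c3.congr fun z _ => ?_⟩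
  rw [hCR]
  simp

end MD12

end S_T1EV

section S_T1OD

/-! # T1OD: the second mirror, `q` odd, `p` even

`X = {φ | ¬ Ext U (EE φ)}`.  `A.R z = conj z`, `Bd.R z = EE (2θ) * conj z` (`IsHP.R_eq`).  `X` is invariant under
`φ ↦ φ + 2π/q`, so under `φ ↦ φ ± θ` (`θ = (p/2) (2π/q)`).  `θ = pπ/q ≥ 2π/q > g`.
Let `x₀ = EE (θ - g)`, `¬ Ext U x₀`.  `A.Q x₀ < 0` (`sin (θ-g) > 0`), `Bd.Q x₀ > 0` (`sin (-g) < 0`).
`P.cov₂ hA hB`: there is `D` in `GO U V₂ I₂` with `D.Q x₀ < 0`.  `D ≠ Bd`, `Bd.Q (EE θ) = 0`, so `D.Q (EE θ) > 0` (`P.dis₂`).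
`C := D.rot (EE θ)`: `C.Q w = D.Q (EE θ * w)`, `C.R w = EE (-θ) * D.R (EE θ * w)`; `C.Q (EE (-g)) = D.Q x₀ < 0`, `C.Q 1 > 0`;
`Ext U (C.R x) ↔ Ext U x`.  `gap_swap` (second alternative): `C.R (EE g) = EE (-g)`.
Scaling: `C.R (conj z) = EE (-θ) * D.R (Bd.R (EE θ * z))` because `Bd.R (EE θ * z) = EE (2θ) EE (-θ) conj z = EE θ * conj z`.
Path: `EE g ↦ EE (θ+g)` (rotation by `θ = 2π (p/2)/q`, relation `m`) `↦ Bd.R` (`P.neg₂ hB`: `Bd.Q (EE (θ+g)) < 0`, `-1`)
`EE (θ-g) ↦ D.R` (`P.neg₂`: `D.Q (EE (θ-g)) < 0`, `-1`) `EE (θ+g)` (as `C.R (EE (-g)) = EE g`) `↦` rotation by `-θ ≡ 2π (q - p/2)/q`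
(relation `m'` at `EE (θ+g)`, `sc_rot_exists` with `j = q - p/2`) `EE g`.  `m + m' = 0` (the composition of the two rotations is
the identity; `Sc.comp`, `Sc.congr`, `Sc.id`, `Sc.unique`).  Total `-2 ≠ 0`.
-/

namespace MD12

open Complex Metric Set Filter Topology InnerProductSpace
open scoped ComplexConjugate

theorem t1_odd {γ κ : ℝ} (h0 : γ ≠ 0) (h1 : |γ| < 1) {U V₁ V₂ : ℂ → ℝ} {I₁ I₂ : Finset GD}
    (P : PK γ κ U V₁ V₂ I₁ I₂) {A Bd : GD} (hA : GO U V₁ I₁ A) (hB : GO U V₂ I₂ Bd) {θ : ℝ}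
    (hpA : IsHP 0 A) (hpB : IsHP θ Bd) {p q : ℕ} (hp0 : 0 < p) (hpq : p < q)
    (hco : Nat.Coprime p q) (hθ : θ = p * Real.pi / q) (hpe : Even p) {g : ℝ} (hg0 : 0 < g)
    (hgq : g < Real.pi / q) (hXg : ¬ Ext U (EE g)) (hXg' : ¬ Ext U (EE (-g)))
    (hgap : ∀ φ : ℝ, |φ| < g → Ext U (EE φ))
    (hrot : ∀ φ : ℝ, Ext U (EE (φ + 2 * Real.pi / q)) ↔ Ext U (EE φ)) :
    ∃ C : GD, C.a = C.d ∧ C.R (EE g) = EE (-g) ∧ (∀ x, ‖x‖ = 1 → (Ext U (C.R x) ↔ Ext U x)) ∧
      ∃ n : ℤ, n ≠ 0 ∧ Sc γ U (fun z => C.R (conj z)) (EE g) n := by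
  have hq0 : (0 : ℝ) < q := by exact_mod_cast (hp0.trans hpq)
  have hπ := Real.pi_pos
  have hRA : ∀ z, A.R z = conj z := by
    intro z
    rw [hpA.R_eq]
    simp [EE_zero]
  have hRB : ∀ z, Bd.R z = EE (2 * θ) * conj z := hpB.R_eq
  obtain ⟨k, hk⟩ := hpe
  have hk1 : 1 ≤ k := by omega
  have hkq : k ≤ q := by omega
  have hθk : θ = k * (2 * Real.pi / q) := by
    rw [hθ, hk]
    push_cast
    ring
  have hθk2 : 2 * Real.pi * k / q = θ := by
    rw [hθk]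
    ring
  have hθπ : θ < Real.pi := by
    rw [hθ, div_lt_iff₀ hq0]
    have h2 : (p : ℝ) < q := by exact_mod_cast hpq
    nlinarith
  have hqle : Real.pi / q ≤ θ := by
    rw [hθ, div_le_div_iff_of_pos_right hq0]
    have : (1 : ℝ) ≤ p := by exact_mod_cast hp0
    nlinarith
  have hgθ : g < θ := hgq.trans_le hqle
  have hgπ : g < Real.pi := hgθ.trans hθπ
  -- invariance under the rotation by `θ`
  have hrotn : ∀ (n : ℕ) (φ : ℝ), Ext U (EE (φ + n * (2 * Real.pi / q))) ↔ Ext U (EE φ) := by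
    intro n
    induction n with
    | zero => intro φ; simp
    | succ n ih =>
      intro φ
      rw [← ih φ, ← hrot (φ + n * (2 * Real.pi / q))]
      push_cast
      rw [show φ + ((n : ℝ) + 1) * (2 * Real.pi / q) =
        φ + n * (2 * Real.pi / q) + 2 * Real.pi / q by ring]
  have hrotθ : ∀ φ : ℝ, Ext U (EE (θ + φ)) ↔ Ext U (EE φ) := by
    intro φ
    rw [← hrotn k φ, ← hθk, add_comm]
  -- scaling relations of the two mirrors
  have hsA : ∀ φ : ℝ, ¬ Ext U (EE φ) → ∃ n : ℤ, Sc γ U (fun z => conj z) (EE φ) n := by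
    intro φ hφ
    have hne : A.Q (EE φ) ≠ 0 := fun h => hφ (P.end₁ hA (norm_EE φ) h)
    rcases lt_or_gt_of_ne hne with h | h
    · exact ⟨-1, (P.neg₁ h0 hA (norm_EE φ) h).congr fun z _ => (hRA z).symm⟩
    · exact ⟨1, (P.pos₁ hA (norm_EE φ) h).congr fun z _ => (hRA z).symm⟩
  have hsB : ∀ φ : ℝ, ¬ Ext U (EE φ) →
      ∃ n : ℤ, Sc γ U (fun z => EE (2 * θ) * conj z) (EE φ) n := by
    intro φ hφ
    have hne : Bd.Q (EE φ) ≠ 0 := fun h => hφ (P.end₂ hB (norm_EE φ) h)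
    rcases lt_or_gt_of_ne hne with h | h
    · exact ⟨-1, (P.neg₂ h0 hB (norm_EE φ) h).congr fun z _ => (hRB z).symm⟩
    · exact ⟨1, (P.pos₂ hB (norm_EE φ) h).congr fun z _ => (hRB z).symm⟩
  -- the disk `D`
  have hX0 : ¬ Ext U (EE (θ + -g)) := by
    rw [hrotθ]
    exact hXg'
  have hAx : A.Q (EE (θ + -g)) < 0 := by
    rw [hpA.Q_neg, sub_zero]
    exact Real.sin_pos_of_pos_of_lt_pi (by linarith) (by linarith)
  have hBx : 0 < Bd.Q (EE (θ + -g)) := by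
    rw [hpB.Q_pos]
    exact Real.sin_neg_of_neg_of_neg_pi_lt (by linarith) (by linarith)
  obtain ⟨D, hD, hDx⟩ := P.cov₂ hA hB hpA.1 hpB.1 (norm_EE (θ + -g)) hAx hBx hX0
  have hDB : D ≠ Bd := by
    rintro rfl
    linarith
  have hDθ : 0 < D.Q (EE θ) := by
    refine P.dis₂ hB.1 hD.1 (Ne.symm hDB) (norm_EE θ).le ?_
    have := (hpB.Q_zero θ).mpr (by simp)
    exact this.le
  -- the rotated disk
  have hCQ : ∀ w, (D.rot (EE θ) (norm_EE θ)).Q w = D.Q (EE θ * w) := fun w =>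
    GD.Q_rot D (norm_EE θ) w
  have hCR : ∀ w, (D.rot (EE θ) (norm_EE θ)).R w = EE (-θ) * D.R (EE θ * w) := fun w => by
    rw [GD.R_rot D (norm_EE θ) w, conj_EE]
  have hCo : (D.rot (EE θ) (norm_EE θ)).a = (D.rot (EE θ) (norm_EE θ)).d := hD.2.2
  set C : GD := D.rot (EE θ) (norm_EE θ) with hC
  have hCi : ∀ x, ‖x‖ = 1 → (Ext U (C.R x) ↔ Ext U x) := by
    intro x hx
    obtain ⟨φ, rfl⟩ := exists_EE hx
    rw [hCR, ← EE_add]
    obtain ⟨ψ, hψ⟩ := exists_EE (D.norm_R_orth_eq hD.2.2 (norm_EE (θ + φ)))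
    have h2 : Ext U (D.R (EE (θ + φ))) ↔ Ext U (EE (θ + φ)) := P.inv₂ h0 hD (norm_EE _)
    rw [hψ] at h2 ⊢
    rw [← EE_add, ← hrotθ (-θ + ψ), ← hrotθ φ, ← h2]
    rw [show θ + (-θ + ψ) = ψ by ring]
  have hCg : C.Q (EE (-g)) < 0 := by
    rw [hCQ, ← EE_add]
    exact hDx
  have hC1 : 0 < C.Q 1 := by
    rw [hCQ, mul_one]
    exact hDθ
  have hCs : C.R (EE g) = EE (-g) := by
    refine gap_swap C hCo (X := {x | ‖x‖ = 1 ∧ ¬ Ext U x}) ?_ hg0 hgπ ?_ ?_ ?_ hC1.le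
      (Or.inr hCg)
    · rintro x ⟨hx, hx'⟩
      exact ⟨hx, GD.norm_R_orth_eq C hCo hx, fun h => hx' ((hCi x hx).mp h)⟩
    · rintro φ hφ ⟨-, h⟩
      exact h (hgap φ hφ)
    · exact ⟨norm_EE _, hXg⟩
    · exact ⟨norm_EE _, hXg'⟩
  have hCs' : C.R (EE (-g)) = EE g := by
    rw [← hCs]
    exact C.R_R (C.den_ne_of_orth hCo (norm_EE g).le)
  have hDs : D.R (EE (θ + -g)) = EE (θ + g) := by
    have h2 := hCs'
    rw [hCR, ← EE_add] at h2
    have h3 : EE θ * (EE (-θ) * D.R (EE (θ + -g))) = EE θ * EE g := by rw [h2]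
    rw [← mul_assoc, EE_mul_neg, one_mul, ← EE_add] at h3
    exact h3
  refine ⟨C, hCo, hCs, hCi, ?_⟩
  -- the rotations
  obtain ⟨m, hm⟩ := sc_rot_exists h0 (by omega) hco hθ hsA hsB k g hXg
  rw [hθk2] at hm
  have hX1 : ¬ Ext U (EE (θ + g)) := by
    rw [hrotθ]
    exact hXg
  obtain ⟨m', hm'⟩ := sc_rot_exists h0 (by omega) hco hθ hsA hsB (q - k) (θ + g) hX1
  have hEk : EE (2 * Real.pi * ((q - k : ℕ) : ℝ) / q) = EE (-θ) := by
    rw [← EE_add_int (-θ) 1]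
    congr 1
    rw [Nat.cast_sub hkq, hθk]
    push_cast
    field_simp
    ring
  rw [hEk] at hm'
  have hgm : EE θ * EE g = EE (θ + g) := by rw [← EE_add]
  have hmm : m' + m = 0 := by
    by_contra hne
    have h2 : Sc γ U (fun z => EE (-θ) * (EE θ * z)) (EE g) (m' + m) := by
      refine Sc.comp h0 (f := fun z => EE (-θ) * z) (g := fun z => EE θ * z)
        (nice_mul (norm_EE θ)) (norm_EE g) ?_ hm
      simp only [hgm]
      exact hm'
    have h3 : Sc γ U (fun z => z) (EE g) (m' + m) := by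
      refine h2.congr fun z _ => ?_
      rw [← mul_assoc, EE_neg_mul, one_mul]
    exact hXg (Sc.unique h0 h1 hne h3 (Sc.id _))
  -- the path
  have hBQ : Bd.Q (EE (θ + g)) < 0 := by
    rw [hpB.Q_neg, add_sub_cancel_left]
    exact Real.sin_pos_of_pos_of_lt_pi hg0 hgπ
  have hB1 : Sc γ U Bd.R (EE (θ + g)) (-1) := P.neg₂ h0 hB (norm_EE _) hBQ
  have hD1 : Sc γ U D.R (EE (θ + -g)) (-1) := P.neg₂ h0 hD (norm_EE _) hDx
  have hBe : Bd.R (EE (θ + g)) = EE (θ + -g) := by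
    rw [hRB, conj_EE, ← EE_add]
    congr 1
    ring
  have s1 : Sc γ U (fun z => Bd.R (EE θ * z)) (EE g) (-1 + m) := by
    refine Sc.comp h0 (f := Bd.R) (g := fun z => EE θ * z)
      (nice_mul (norm_EE θ)) (norm_EE g) ?_ hm
    simp only [hgm]
    exact hB1
  have n1 : Nice (fun z => Bd.R (EE θ * z)) :=
    Nice.comp (nice_R hB.2.2) (nice_mul (norm_EE θ))
  have s2 : Sc γ U (fun z => D.R (Bd.R (EE θ * z))) (EE g) (-1 + (-1 + m)) := by
    refine Sc.comp h0 (f := D.R) (g := fun z => Bd.R (EE θ * z)) n1 (norm_EE g) ?_ s1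
    simp only [hgm, hBe]
    exact hD1
  have n2 : Nice (fun z => D.R (Bd.R (EE θ * z))) := Nice.comp (nice_R hD.2.2) n1
  have s3 : Sc γ U (fun z => EE (-θ) * D.R (Bd.R (EE θ * z))) (EE g)
      (m' + (-1 + (-1 + m))) := by
    refine Sc.comp h0 (f := fun z => EE (-θ) * z) (g := fun z => D.R (Bd.R (EE θ * z))) n2
      (norm_EE g) ?_ s2
    simp only [hgm, hBe, hDs]
    exact hm'
  refine ⟨m' + (-1 + (-1 + m)), by omega, ?_⟩
  refine s3.congr fun z _ => ?_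
  rw [hCR, hRB, map_mul, conj_EE, ← mul_assoc (EE (2 * θ)), ← EE_add]
  rw [show 2 * θ + -θ = θ by ring]

end MD12

end S_T1OD

section S_T1

/-! # T1: the one-dimensional lemma in normalised position (assembly, helper12) -/

namespace MD12

open Complex Metric Set Filter Topology InnerProductSpace
open scoped ComplexConjugate

theorem t1 {γ κ : ℝ} (h0 : γ ≠ 0) (h1 : |γ| < 1) {U V₁ V₂ : ℂ → ℝ} {I₁ I₂ : Finset GD}
    (P : PK γ κ U V₁ V₂ I₁ I₂) {A Bd : GD} (hA : GO U V₁ I₁ A) (hB : GO U V₂ I₂ Bd) {θ : ℝ}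
    (hθ0 : 0 < θ) (hθπ : θ < Real.pi) (hpA : IsHP 0 A) (hpB : IsHP θ Bd) :
    ∃ C, GO U V₂ I₂ C ∧ C.Q 1 < 0 := by
  by_contra hcon
  push Not at hcon
  have hRA : ∀ z, A.R z = conj z := by
    intro z
    rw [hpA.R_eq]
    simp [EE_zero]
  have hRB : ∀ z, Bd.R z = EE (2 * θ) * conj z := hpB.R_eq
  have hQA0 : ∀ φ, A.Q (EE φ) = 0 ↔ Real.sin φ = 0 := by
    intro φ
    rw [hpA.Q_zero, sub_zero]
  have hQAn : ∀ φ, A.Q (EE φ) < 0 ↔ 0 < Real.sin φ := by
    intro φ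
    rw [hpA.Q_neg, sub_zero]
  have hQAp : ∀ φ, 0 < A.Q (EE φ) ↔ Real.sin φ < 0 := by
    intro φ
    rw [hpA.Q_pos, sub_zero]
  have hc : ∀ x, ‖x‖ = 1 → (Ext U (conj x) ↔ Ext U x) := by
    intro x hx
    rw [← hRA]
    exact P.inv₁ h0 hA hx
  have hinvA : ∀ φ : ℝ, Ext U (EE (-φ)) ↔ Ext U (EE φ) := by
    intro φ
    rw [← conj_EE]
    exact hc _ (norm_EE φ)
  have hinvB : ∀ φ : ℝ, Ext U (EE (2 * θ - φ)) ↔ Ext U (EE φ) := by
    intro φ
    rw [sub_eq_add_neg, EE_add, ← conj_EE, ← hRB]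
    exact P.inv₂ h0 hB (norm_EE φ)
  have hX : ∃ φ : ℝ, ¬ Ext U (EE φ) := by
    obtain ⟨x, hx, hx'⟩ := P.ne
    obtain ⟨φ, rfl⟩ := exists_EE hx
    exact ⟨φ, hx'⟩
  have hE0 : Ext U 1 := by
    rw [← EE_zero]
    exact P.end₁ hA (norm_EE 0) ((hQA0 0).mpr Real.sin_zero)
  have hEπ : Ext U (EE Real.pi) := P.end₁ hA (norm_EE _) ((hQA0 _).mpr Real.sin_pi)
  have hEθ : Ext U (EE θ) := P.end₂ hB (norm_EE _) ((hpB.Q_zero θ).mpr (by simp))
  obtain ⟨p, q, hp0, hpq, hco, hθ, hrot⟩ := rot_dich hθ0 hθπ hinvA hinvB hE0 hX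
  have hq0 : (0 : ℝ) < q := by exact_mod_cast (hp0.trans hpq)
  have hπ := Real.pi_pos
  -- scaling relations of the two mirrors
  have hsA : ∀ φ : ℝ, ¬ Ext U (EE φ) → Real.sin φ ≠ 0 ∧
      Sc γ U (fun z => conj z) (EE φ) (if 0 < Real.sin φ then -1 else 1) := by
    intro φ hφ
    have hne : Real.sin φ ≠ 0 := fun h => hφ (P.end₁ hA (norm_EE φ) ((hQA0 φ).mpr h))
    refine ⟨hne, ?_⟩
    split_ifs with h
    · exact (P.neg₁ h0 hA (norm_EE φ) ((hQAn φ).mpr h)).congr fun z _ => (hRA z).symm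
    · have h' : Real.sin φ < 0 := lt_of_le_of_ne (not_lt.mp h) hne
      exact (P.pos₁ hA (norm_EE φ) ((hQAp φ).mpr h')).congr fun z _ => (hRA z).symm
  have hsB : ∀ φ : ℝ, ¬ Ext U (EE φ) → Real.sin (φ - θ) ≠ 0 ∧
      Sc γ U (fun z => EE (2 * θ) * conj z) (EE φ) (if 0 < Real.sin (φ - θ) then -1 else 1) := by
    intro φ hφ
    have hne : Real.sin (φ - θ) ≠ 0 := fun h =>
      hφ (P.end₂ hB (norm_EE φ) ((hpB.Q_zero φ).mpr h))
    refine ⟨hne, ?_⟩
    split_ifs with h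
    · exact (P.neg₂ h0 hB (norm_EE φ) ((hpB.Q_neg φ).mpr h)).congr fun z _ => (hRB z).symm
    · have h' : Real.sin (φ - θ) < 0 := lt_of_le_of_ne (not_lt.mp h) hne
      exact (P.pos₂ hB (norm_EE φ) ((hpB.Q_pos φ).mpr h')).congr fun z _ => (hRB z).symm
  -- not both odd
  have hnodd : ¬ (Odd p ∧ Odd q) := by
    rintro ⟨hpo, hqo⟩
    obtain ⟨φ, hφ⟩ := hX
    exact hφ (par h0 h1 hpo hqo hθ hsA hsB φ)
  -- rotation invariance by natural multiples
  have hrotn : ∀ (n : ℕ) (φ : ℝ), Ext U (EE (φ + n * (2 * Real.pi / q))) ↔ Ext U (EE φ) := by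
    intro n
    induction n with
    | zero => intro φ; simp
    | succ n ih =>
      intro φ
      rw [← ih φ, ← hrot (φ + n * (2 * Real.pi / q))]
      push_cast
      rw [show φ + ((n : ℝ) + 1) * (2 * Real.pi / q) =
        φ + n * (2 * Real.pi / q) + 2 * Real.pi / q by ring]
  have h1q : Ext U (EE (Real.pi / q)) := by
    rcases Nat.even_or_odd q with hqe | hqo
    · -- `p` odd, use `θ`
      have hpo : Odd p := by
        rcases Nat.even_or_odd p with hpe | hpo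
        · exfalso
          have h2 : 2 ∣ Nat.gcd p q := Nat.dvd_gcd hpe.two_dvd hqe.two_dvd
          rw [hco] at h2
          omega
        · exact hpo
      obtain ⟨i, hi⟩ := hpo
      rw [← hrotn i]
      have : Real.pi / q + i * (2 * Real.pi / q) = θ := by
        rw [hθ, hi]
        push_cast
        field_simp
        ring
      rw [this]
      exact hEθ
    · obtain ⟨i, hi⟩ := hqo
      rw [← hrotn i]
      have : Real.pi / q + i * (2 * Real.pi / q) = Real.pi := by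
        have h3 : (q : ℝ) = 2 * i + 1 := by exact_mod_cast hi
        field_simp
        linarith
      rw [this]
      exact hEπ
  obtain ⟨g, hg0, hgq, hXg, hXg', hgap⟩ := min_gap (by omega) hinvA hrot hE0 h1q hX
  have hqle : Real.pi / q ≤ θ := by
    rw [hθ, div_le_div_iff_of_pos_right hq0]
    have : (1 : ℝ) ≤ p := by exact_mod_cast hp0
    nlinarith
  have hgθ : g < θ := hgq.trans_le hqle
  have hgπ : g < Real.pi := hgθ.trans hθπ
  -- the first mirror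
  have hsg : 0 < Real.sin g := Real.sin_pos_of_pos_of_lt_pi hg0 hgπ
  have hsg' : Real.sin (g - θ) < 0 :=
    Real.sin_neg_of_neg_of_neg_pi_lt (by linarith) (by linarith)
  obtain ⟨C₁, hC₁, hC₁Q⟩ := P.cov₂ hA hB hpA.1 hpB.1 (norm_EE g) ((hQAn g).mpr hsg)
    ((hpB.Q_pos g).mpr hsg') hXg
  have hC₁1 : 0 ≤ C₁.Q 1 := hcon C₁ hC₁
  have hC₁B : C₁ ≠ Bd := by
    rintro rfl
    have := (hpB.Q_pos g).mpr hsg'
    linarith
  have hi₁ : ∀ x, ‖x‖ = 1 → (Ext U (C₁.R x) ↔ Ext U x) := fun x hx => P.inv₂ h0 hC₁ hx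
  have hs₁ : C₁.R (EE g) = EE (-g) := by
    refine gap_swap C₁ hC₁.2.2 (X := {x | ‖x‖ = 1 ∧ ¬ Ext U x}) ?_ hg0 hgπ ?_ ?_ ?_ hC₁1
      (Or.inl hC₁Q)
    · rintro x ⟨hx, hx'⟩
      exact ⟨hx, GD.norm_R_orth_eq C₁ hC₁.2.2 hx, fun h => hx' ((hi₁ x hx).mp h)⟩
    · rintro φ hφ ⟨-, h⟩
      exact h (hgap φ hφ)
    · exact ⟨norm_EE _, hXg⟩
    · exact ⟨norm_EE _, hXg'⟩
  have hR₁ : C₁.R (EE (-g)) = EE g := by
    rw [← hs₁]
    exact C₁.R_R (C₁.den_ne_of_orth hC₁.2.2 (norm_EE g).le)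
  have hC₁Q' : 0 < C₁.Q (EE (-g)) := by
    rw [← hs₁]
    exact (C₁.Q_R_pos_iff (C₁.den_ne_of_orth hC₁.2.2 (norm_EE g).le)).mpr hC₁Q
  have hS₁ : Sc γ U (fun z => C₁.R (conj z)) (EE g) 0 := by
    have h2 : Sc γ U (fun z => conj z) (EE g) (-1) := by
      have := (hsA g hXg).2
      rwa [if_pos hsg] at this
    have h3 : Sc γ U C₁.R (conj (EE g)) 1 := by
      rw [conj_EE]
      exact P.pos₂ hC₁ (norm_EE _) hC₁Q'
    have h4 := Sc.comp h0 nice_conj (norm_EE g) h3 h2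
    simpa using h4
  have hne : ¬ ∀ z, C₁.Q z = 0 ↔ z.im = 0 := by
    intro h
    have h2 : C₁.Q 0 = 0 := (h 0).mpr (by simp)
    have h3 : 0 < C₁.Q 0 := P.dis₂ hB.1 hC₁.1 (Ne.symm hC₁B) (by simp) (by
      rw [hpB.Q_at_zero])
    linarith
  -- the second mirror
  have hsecond : ∃ C : GD, C.a = C.d ∧ C.R (EE g) = EE (-g) ∧
      (∀ x, ‖x‖ = 1 → (Ext U (C.R x) ↔ Ext U x)) ∧
      ∃ n : ℤ, n ≠ 0 ∧ Sc γ U (fun z => C.R (conj z)) (EE g) n := by
    rcases Nat.even_or_odd q with hqe | hqo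
    · exact t1_even h0 h1 P hA hB hpA hpB hp0 hpq hco hθ hqe hg0 hgq hXg hXg' hgap hrot
    · rcases Nat.even_or_odd p with hpe | hpo
      · exact t1_odd h0 h1 P hA hB hpA hpB hp0 hpq hco hθ hpe hg0 hgq hXg hXg' hgap hrot
      · exact absurd ⟨hpo, hqo⟩ hnodd
  obtain ⟨C₂, ho₂, hs₂, hi₂, n, hn, hS₂⟩ := hsecond
  have hfar : ∃ φ : ℝ, g < φ ∧ φ < 2 * Real.pi - g ∧ ¬ Ext U (EE φ) := by
    have hq2 : (2 : ℝ) ≤ q := by
      have : 2 ≤ q := by omega
      exact_mod_cast this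
    have hπq : Real.pi / q ≤ Real.pi / 2 := by
      apply div_le_div_of_nonneg_left hπ.le (by norm_num) hq2
    have h5 : 2 * Real.pi / q = 2 * (Real.pi / q) := by ring
    have h6 : 0 < Real.pi / q := by positivity
    refine ⟨g + 2 * Real.pi / q, by rw [h5]; linarith, by rw [h5]; linarith, ?_⟩
    rw [hrot]
    exact hXg
  refine t1_fin h0 h1 hg0 hgπ hXg ?_ hfar hc hC₁.2.2 ho₂ hs₁ hs₂ hi₁ hi₂ hne hS₁ hn hS₂
  rw [← EE_pi]
  exact hEπ

end MD12

end S_T1
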