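import Mathlib
import Pool.Agent.H12.MDM.A
import Pool.Agent.H12.MDM.B
import Pool.Agent.H12.MDM.C

/-! Multiple disks, part D (several modules joined). -/

section S_PULL

/-! # PULL: transport of a local transmission problem under a Moebius map

Put `M = p w + q`, `N = r w + s`, `m = M/N`.  `C.pull.den w = conj N * (p * den m + r * (b conj m + d))
 = conj N * den m * (p - r R(m))` and `b' conj w + d' = conj N * den m * (q - s R(m))`, so
`C.pull.R w = (s R(m) - q)/(p - r R(m))` (if `den m ≠ 0`, `N ≠ 0`), and then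
`p R' + q = (p s - q r) R(m)/(p - r R(m))`, `r R' + s = (p s - q r)/(p - r R(m))`.

`NL.pull`: `GD.Q_pull` gives that `C.pull.Q w` and `C.Q (m w)` have the same sign.  `har`: `har_comp` (the map
`w ↦ m w` is analytic where `N ≠ 0`).  `ts` at `y` (`C.Q (m y) = 0`): `C.den (m y) ≠ 0`, `C.pull.den y ≠ 0`
(`GD.den_ne_of_Q_zero`), both stay nonzero near `y`; `m` is continuous at `y`; `m (C.pull.R w) = C.R (m w)` near `y`.
`NL.pull_univ`: at a pole `r w + s = 0` the value `C.pull.Q w = C.a ‖p w + q‖²` is positive.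
-/

namespace MD12

open Complex Metric Set Filter Topology InnerProductSpace
open scoped ComplexConjugate

/-- the pulled back family -/
noncomputable def pullI (p q r s : ℂ) (h : p * s - q * r ≠ 0) (I : Finset GD) : Finset GD := by
  classical exact I.image (GD.pull p q r s h)

theorem mem_pullI {p q r s : ℂ} {h : p * s - q * r ≠ 0} {I : Finset GD} {D : GD} :
    D ∈ pullI p q r s h I ↔ ∃ C ∈ I, C.pull p q r s h = D := by
  classical
  unfold pullI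
  exact Finset.mem_image

theorem PULL_nsq (p : ℂ) : ((‖p‖ : ℂ)) ^ 2 = p * conj p := by
  rw [Complex.mul_conj, Complex.normSq_eq_norm_sq]
  push_cast
  rfl

theorem PULL_re (z : ℂ) : 2 * ((z.re : ℝ) : ℂ) = z + conj z := by
  rw [Complex.add_conj]
  push_cast
  rfl

theorem PULL_den (C : GD) (p q r s : ℂ) (h : p * s - q * r ≠ 0) {w : ℂ} (hw : r * w + s ≠ 0) :
    (C.pull p q r s h).den w = conj (r * w + s) * (p * C.den ((p * w + q) / (r * w + s)) +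
      r * (C.b * conj ((p * w + q) / (r * w + s)) + C.d)) := by
  have hN : conj (r * w + s) ≠ 0 := by simpa only [ne_eq, map_eq_zero] using hw
  obtain ⟨m, hm⟩ : ∃ m, m = (p * w + q) / (r * w + s) := ⟨_, rfl⟩
  have h1 : m * (r * w + s) = p * w + q := by rw [hm, div_mul_cancel₀ _ hw]
  have h2 : conj m * conj (r * w + s) = conj (p * w + q) := by rw [← map_mul, h1]
  rw [← hm]
  unfold GD.den GD.pull
  simp only [map_add, map_mul, conj_conj, conj_ofReal] at h2 ⊢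
  push_cast
  rw [PULL_nsq, PULL_nsq, mul_comm (2 : ℂ) _, mul_comm _ (2 : ℂ), PULL_re]
  simp only [map_mul, conj_conj]
  linear_combination (-(p * C.a) - r * C.b) * h2

theorem PULL_num (C : GD) (p q r s : ℂ) (h : p * s - q * r ≠ 0) {w : ℂ} (hw : r * w + s ≠ 0) :
    (C.pull p q r s h).b * conj w + (C.pull p q r s h).d =
      conj (r * w + s) * (q * C.den ((p * w + q) / (r * w + s)) +
      s * (C.b * conj ((p * w + q) / (r * w + s)) + C.d)) := by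
  obtain ⟨m, hm⟩ : ∃ m, m = (p * w + q) / (r * w + s) := ⟨_, rfl⟩
  have h1 : m * (r * w + s) = p * w + q := by rw [hm, div_mul_cancel₀ _ hw]
  have h2 : conj m * conj (r * w + s) = conj (p * w + q) := by rw [← map_mul, h1]
  rw [← hm]
  unfold GD.den GD.pull
  simp only [map_add, map_mul, conj_conj, conj_ofReal] at h2 ⊢
  push_cast
  rw [PULL_nsq, PULL_nsq, mul_comm (2 : ℂ) _, mul_comm _ (2 : ℂ), PULL_re]
  simp only [map_mul, conj_conj]
  linear_combination (-(q * C.a) - s * C.b) * h2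

theorem GD.R_pull (C : GD) (p q r s : ℂ) (h : p * s - q * r ≠ 0) {w : ℂ} (hw : r * w + s ≠ 0)
    (hd : C.den ((p * w + q) / (r * w + s)) ≠ 0) (hd' : (C.pull p q r s h).den w ≠ 0) :
    r * (C.pull p q r s h).R w + s ≠ 0 ∧
      (p * (C.pull p q r s h).R w + q) / (r * (C.pull p q r s h).R w + s) =
        C.R ((p * w + q) / (r * w + s)) := by
  obtain ⟨m, hm⟩ : ∃ m, m = (p * w + q) / (r * w + s) := ⟨_, rfl⟩
  have hN : conj (r * w + s) ≠ 0 := by simpa only [ne_eq, map_eq_zero] using hw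
  have k1 := PULL_den C p q r s h hw
  have k2 := PULL_num C p q r s h hw
  rw [← hm] at k1 k2 hd ⊢
  obtain ⟨D, hD⟩ : ∃ D, D = C.den m := ⟨_, rfl⟩
  obtain ⟨M, hM⟩ : ∃ M, M = C.b * conj m + C.d := ⟨_, rfl⟩
  rw [← hD, ← hM] at k1 k2
  rw [← hD] at hd
  have hE : p * D + r * M ≠ 0 := by
    intro h0
    rw [k1, h0, mul_zero] at hd'
    exact hd' rfl
  have hR : C.R m = -M / D := by rw [hM, hD]; rfl
  have hR' : (C.pull p q r s h).R w = -(q * D + s * M) / (p * D + r * M) := by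
    have : (C.pull p q r s h).R w =
      -((C.pull p q r s h).b * conj w + (C.pull p q r s h).d) / (C.pull p q r s h).den w := rfl
    rw [this, k1, k2]
    field_simp
  have e1 : r * (C.pull p q r s h).R w + s = D * (p * s - q * r) / (p * D + r * M) := by
    rw [hR', eq_div_iff hE, add_mul, mul_assoc, div_mul_cancel₀ _ hE]
    ring
  have e2 : p * (C.pull p q r s h).R w + q = -M * (p * s - q * r) / (p * D + r * M) := by
    rw [hR', eq_div_iff hE, add_mul, mul_assoc, div_mul_cancel₀ _ hE]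
    ring
  refine ⟨?_, ?_⟩
  · rw [e1]
    exact div_ne_zero (mul_ne_zero hd h) hE
  · rw [e1, e2, hR, div_div_div_cancel_right₀ hE, mul_div_mul_right _ _ h]

theorem PULL_Q (C : GD) (p q r s : ℂ) (h : p * s - q * r ≠ 0) {w : ℂ} (hw : r * w + s ≠ 0) :
    ((C.pull p q r s h).Q w < 0 ↔ C.Q ((p * w + q) / (r * w + s)) < 0) ∧
    ((C.pull p q r s h).Q w = 0 ↔ C.Q ((p * w + q) / (r * w + s)) = 0) ∧
    (0 < (C.pull p q r s h).Q w ↔ 0 < C.Q ((p * w + q) / (r * w + s))) := by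
  have h1 := C.Q_pull p q r s h hw
  have h2 : 0 < ‖r * w + s‖ ^ 2 := by
    have := norm_pos_iff.mpr hw
    positivity
  rw [h1]
  refine ⟨?_, ?_, ?_⟩
  · exact ⟨fun h => by by_contra hc; push Not at hc; nlinarith [mul_nonneg hc h2.le],
      fun h => mul_neg_of_neg_of_pos h h2⟩
  · rw [mul_eq_zero]
    exact ⟨fun h => h.resolve_right h2.ne', Or.inl⟩
  · exact ⟨fun h => (mul_pos_iff_of_pos_right h2).1 h, fun h => mul_pos h h2⟩

theorem PULL_an {p q r s : ℂ} {w : ℂ} (hw : r * w + s ≠ 0) :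
    AnalyticAt ℂ (fun w => (p * w + q) / (r * w + s)) w := by
  fun_prop (disch := assumption)

theorem NL.pull {γ κ : ℝ} {B K : Set ℂ} {V : ℂ → ℝ} {I : Finset GD} (hN : NL γ κ B K V I)
    {p q r s : ℂ} (h : p * s - q * r ≠ 0) {B' : Set ℂ}
    (hB' : ∀ w ∈ B', r * w + s ≠ 0 ∧ (p * w + q) / (r * w + s) ∈ B) :
    NL γ κ B' {w | (p * w + q) / (r * w + s) ∈ K} (fun w => V ((p * w + q) / (r * w + s)))
      (pullI p q r s h I) := by
  refine ⟨?_, ?_, ?_, ?_⟩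
  · intro D hD D' hD' hne z hz hQ
    obtain ⟨C, hC, rfl⟩ := mem_pullI.1 hD
    obtain ⟨C', hC', rfl⟩ := mem_pullI.1 hD'
    have hCC : C ≠ C' := fun h0 => hne (by rw [h0])
    obtain ⟨hw, hm⟩ := hB' z hz
    have h1 := PULL_Q C p q r s h hw
    have h2 := PULL_Q C' p q r s h hw
    rw [h2.2.2]
    refine hN.dis C hC C' hC' hCC _ hm ?_
    by_contra hc
    push Not at hc
    exact absurd (h1.2.2.2 hc) (not_lt.2 hQ)
  · intro D hD z hz hK
    obtain ⟨C, hC, rfl⟩ := mem_pullI.1 hD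
    obtain ⟨hw, hm⟩ := hB' z hz
    rw [(PULL_Q C p q r s h hw).2.2]
    exact hN.disK C hC _ hm hK
  · intro z hz hK hQ
    obtain ⟨hw, hm⟩ := hB' z hz
    refine har_comp (PULL_an hw) (hN.har _ hm hK ?_)
    intro C hC
    have := hQ _ (mem_pullI.2 ⟨C, hC, rfl⟩)
    by_contra hc
    push Not at hc
    exact absurd ((PULL_Q C p q r s h hw).1.2 hc) (not_lt.2 this)
  · intro D hD
    obtain ⟨C, hC, rfl⟩ := mem_pullI.1 hD
    obtain ⟨f, hf1, hf2⟩ := hN.ts C hC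
    refine ⟨fun w => f ((p * w + q) / (r * w + s)), ?_, ?_⟩
    · intro z hz hQ
      obtain ⟨hw, hm⟩ := hB' z hz
      exact har_comp (PULL_an hw) (hf1 _ hm ((PULL_Q C p q r s h hw).1.1 hQ))
    · intro y hy hQ
      obtain ⟨hw, hm⟩ := hB' y hy
      have hQm := (PULL_Q C p q r s h hw).2.1.1 hQ
      have hcont : ContinuousAt (fun w => (p * w + q) / (r * w + s)) y := (PULL_an hw).continuousAt
      have e1 := hcont.eventually (hf2 _ hm hQm)
      have e2 : ∀ᶠ w in 𝓝 y, r * w + s ≠ 0 := by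
        have : Continuous fun w : ℂ => r * w + s := by fun_prop
        exact this.continuousAt.eventually_ne hw
      have e3 : ∀ᶠ w in 𝓝 y, C.den ((p * w + q) / (r * w + s)) ≠ 0 := by
        have h1 : ContinuousAt (fun w => C.den ((p * w + q) / (r * w + s))) y :=
          C.continuous_den.continuousAt.comp hcont
        exact h1.eventually_ne (C.den_ne_of_Q_zero hQm)
      have e4 : ∀ᶠ w in 𝓝 y, (C.pull p q r s h).den w ≠ 0 :=
        (C.pull p q r s h).continuous_den.continuousAt.eventually_ne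
          ((C.pull p q r s h).den_ne_of_Q_zero hQ)
      filter_upwards [e1, e2, e3, e4] with w h1 h2 h3 h4 h5
      have h6 := h1 ((PULL_Q C p q r s h h2).1.1 h5)
      rw [(C.R_pull p q r s h h2 h3 h4).2]
      exact h6

theorem NL.pull_univ {γ κ : ℝ} {K : Set ℂ} {V : ℂ → ℝ} {I : Finset GD} (hN : NL γ κ univ K V I)
    (ha : ∀ C ∈ I, 0 < C.a) {p q r s : ℂ} (h : p * s - q * r ≠ 0) :
    NL γ κ univ {w | r * w + s = 0 ∨ (p * w + q) / (r * w + s) ∈ K}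
      (fun w => V ((p * w + q) / (r * w + s))) (pullI p q r s h I) := by
  have hpole : ∀ C ∈ I, ∀ w, r * w + s = 0 → 0 < (C.pull p q r s h).Q w := by
    intro C hC w hw
    have h1 : (C.pull p q r s h).Q w = C.a * ‖p * w + q‖ ^ 2 := by
      have h2 : ∀ x : ℂ, (C.pull p q r s h).Q w = C.a * ‖p * w + q‖ ^ 2 +
          2 * (conj C.b * (p * w + q) * conj (r * w + s)).re + C.d * ‖r * w + s‖ ^ 2 := by
        intro _
        unfold GD.Q GD.pull
        simp only [← Complex.normSq_eq_norm_sq, Complex.normSq_apply, Complex.add_re,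
          Complex.add_im, Complex.mul_re, Complex.mul_im, Complex.conj_re, Complex.conj_im,
          Complex.ofReal_re, Complex.ofReal_im, map_add, map_mul, conj_ofReal, conj_conj]
        ring
      rw [h2 0, hw]
      simp
    rw [h1]
    have h3 : p * w + q ≠ 0 := by
      intro h0
      apply h
      by_cases hr : r = 0
      · subst hr
        simp only [zero_mul, zero_add] at hw
        rw [hw]; ring
      · have : r * (p * s - q * r) = 0 := by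
          linear_combination (p * r) * hw - r ^ 2 * h0
        exact (mul_eq_zero.1 this).resolve_left hr
    have h4 := norm_pos_iff.mpr h3
    have h5 := ha C hC
    positivity
  have hN' := hN.pull h (B' := {w | r * w + s ≠ 0}) (fun w hw => ⟨hw, mem_univ _⟩)
  refine ⟨?_, ?_, ?_, ?_⟩
  · intro D hD D' hD' hne z _ hQ
    by_cases hz : r * z + s = 0
    · obtain ⟨C', hC', rfl⟩ := mem_pullI.1 hD'
      exact hpole C' hC' z hz
    · exact hN'.dis D hD D' hD' hne z hz hQ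
  · intro D hD z _ hK
    by_cases hz : r * z + s = 0
    · obtain ⟨C, hC, rfl⟩ := mem_pullI.1 hD
      exact hpole C hC z hz
    · rcases hK with hK | hK
      · exact absurd hK hz
      · exact hN'.disK D hD z hz hK
  · intro z _ hK hQ
    have hK' : ¬ (r * z + s = 0 ∨ (p * z + q) / (r * z + s) ∈ K) := hK
    rw [not_or] at hK'
    exact hN'.har z hK'.1 hK'.2 hQ
  · intro D hD
    obtain ⟨f, hf1, hf2⟩ := hN'.ts D hD
    obtain ⟨C, hC, rfl⟩ := mem_pullI.1 hD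
    refine ⟨f, ?_, ?_⟩
    · intro z _ hQ
      by_cases hz : r * z + s = 0
      · exact absurd (hpole C hC z hz) (not_lt.2 hQ.le)
      · exact hf1 z hz hQ
    · intro y _ hQ
      by_cases hz : r * y + s = 0
      · exact absurd (hpole C hC y hz) (by rw [hQ]; exact lt_irrefl 0)
      · exact hf2 y hz hQ

end MD12

end S_PULL

section S_PKP

/-! # PKP: transport of the package `PK` under automorphisms of the unit disk and conjugation

`mob u o w = (u w + o)/(conj o u w + 1)`, `‖u‖ = 1`, `‖o‖ < 1`, determinant `u (1 - ‖o‖²)`.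
`1 - ‖mob w‖² = (1-‖o‖²)(1-‖w‖²)/‖conj o u w + 1‖²`, so it preserves disk and circle; the inverse map is
`z ↦ conj u (z - o)/(1 - conj o z) = mob (conj u) (-(conj u * o)) z`.
`C.pull.d - C.pull.a = (1 - ‖o‖²)(C.d - C.a)`.
* `Good (U ∘ m) (V ∘ m) (C.pull) ↔ Good U V C`: for `→` near `y' ` the map `m` is a local homeomorphism (compose with the
  inverse, continuous at `m y'`).
* `Ext (U ∘ m) x ↔ Ext U (m x)` for `‖x‖ = 1` (`Ext.comp` with `m` and with the inverse).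
* `nl`: `B' = {w | conj o u w + 1 ≠ 0 ∧ mob w ∈ B}`, `NL.pull`; it contains the closed unit ball.
Conjugation: `GD.Q_cj`, `GD.R_cj`, `har_comp_anti`, `Ext.comp_anti`; `K' = {w | conj w ∈ K}`.
-/

namespace MD12

open Complex Metric Set Filter Topology InnerProductSpace
open scoped ComplexConjugate

/-- automorphism of the unit disk -/
noncomputable def mob (u o w : ℂ) : ℂ := (u * w + o) / (conj o * u * w + 1)

theorem pkp_conj_mul {o : ℂ} : o * conj o = ((‖o‖ ^ 2 : ℝ) : ℂ) := by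
  rw [Complex.mul_conj, Complex.normSq_eq_norm_sq]

theorem pkp_unit {u : ℂ} (hu : ‖u‖ = 1) : u * conj u = 1 := by
  rw [pkp_conj_mul, hu]
  norm_num

theorem pkp_pos {o : ℂ} (ho : ‖o‖ < 1) : 0 < 1 - ‖o‖ ^ 2 := by
  nlinarith [norm_nonneg o]

theorem mob_det {u o : ℂ} (hu : ‖u‖ = 1) (ho : ‖o‖ < 1) :
    u * 1 - o * (conj o * u) ≠ 0 := by
  have h1 : u * 1 - o * (conj o * u) = u * ((1 - ‖o‖ ^ 2 : ℝ) : ℂ) := by
    push_cast
    have := @pkp_conj_mul o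
    push_cast at this
    linear_combination -u * this
  rw [h1]
  refine mul_ne_zero ?_ ?_
  · intro h
    rw [h] at hu
    simp at hu
  · exact_mod_cast (pkp_pos ho).ne'

/-- the pulled back disk -/
noncomputable def GD.mb (C : GD) {u o : ℂ} (hu : ‖u‖ = 1) (ho : ‖o‖ < 1) : GD :=
  C.pull u o (conj o * u) 1 (mob_det hu ho)

/-- the pulled back family -/
noncomputable def mbI {u o : ℂ} (hu : ‖u‖ = 1) (ho : ‖o‖ < 1) (I : Finset GD) : Finset GD :=
  pullI u o (conj o * u) 1 (mob_det hu ho) I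

/-- the conjugate family -/
noncomputable def cjI (I : Finset GD) : Finset GD := by
  classical exact I.image GD.cj

theorem mem_cjI {I : Finset GD} {D : GD} : D ∈ cjI I ↔ ∃ C ∈ I, C.cj = D := by
  classical
  unfold cjI
  exact Finset.mem_image

theorem pkp_den {u o w : ℂ} (hu : ‖u‖ = 1) (ho : ‖o‖ < 1) (hw : ‖w‖ ≤ 1) :
    conj o * u * w + 1 ≠ 0 := by
  intro h
  have h1 : conj o * u * w = -1 := by linear_combination h
  have h2 : ‖conj o * u * w‖ = 1 := by rw [h1]; simp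
  rw [norm_mul, norm_mul, hu, mul_one, RCLike.norm_conj] at h2
  nlinarith [norm_nonneg o, norm_nonneg w]

theorem pkp_id (o v : ℂ) : ‖conj o * v + 1‖ ^ 2 - ‖v + o‖ ^ 2 = (1 - ‖o‖ ^ 2) * (1 - ‖v‖ ^ 2) := by
  simp only [← Complex.normSq_eq_norm_sq, Complex.normSq_apply, Complex.add_re,
        Complex.add_im, Complex.mul_re, Complex.mul_im, Complex.conj_re, Complex.conj_im,
        Complex.one_re, Complex.one_im]
  ring

theorem pkp_norm {u o w : ℂ} (hu : ‖u‖ = 1) (ho : ‖o‖ < 1) (hw : ‖w‖ ≤ 1) :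
    (1 - ‖mob u o w‖ ^ 2) * ‖conj o * u * w + 1‖ ^ 2 = (1 - ‖o‖ ^ 2) * (1 - ‖w‖ ^ 2) := by
  have h0 := pkp_den hu ho hw
  have h1 := pkp_id o (u * w)
  rw [norm_mul, hu, one_mul, ← mul_assoc] at h1
  rw [← h1]
  unfold mob
  rw [norm_div, div_pow, sub_mul, one_mul, div_mul_cancel₀]
  have := norm_pos_iff.mpr h0
  positivity

theorem pkp_lt {u o w : ℂ} (hu : ‖u‖ = 1) (ho : ‖o‖ < 1) (hw : ‖w‖ < 1) : ‖mob u o w‖ < 1 := by
  have h1 := pkp_norm hu ho hw.le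
  have h2 := mul_pos (pkp_pos ho) (pkp_pos hw)
  rw [← h1] at h2
  have h3 : 0 < ‖conj o * u * w + 1‖ ^ 2 := by
    have := norm_pos_iff.mpr (pkp_den hu ho hw.le)
    positivity
  have h4 : 0 < 1 - ‖mob u o w‖ ^ 2 := pos_of_mul_pos_left h2 h3.le
  nlinarith [norm_nonneg (mob u o w)]

theorem pkp_eq {u o w : ℂ} (hu : ‖u‖ = 1) (ho : ‖o‖ < 1) (hw : ‖w‖ = 1) : ‖mob u o w‖ = 1 := by
  have h1 := pkp_norm hu ho hw.le
  rw [hw] at h1
  have h3 : 0 < ‖conj o * u * w + 1‖ ^ 2 := by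
    have := norm_pos_iff.mpr (pkp_den hu ho hw.le)
    positivity
  have h4 : (1 - ‖mob u o w‖ ^ 2) * ‖conj o * u * w + 1‖ ^ 2 = 0 := by
    rw [h1]; ring
  rcases mul_eq_zero.1 h4 with h5 | h5
  · nlinarith [norm_nonneg (mob u o w)]
  · exact absurd h5 h3.ne'

theorem pkp_le {u o w : ℂ} (hu : ‖u‖ = 1) (ho : ‖o‖ < 1) (hw : ‖w‖ ≤ 1) : ‖mob u o w‖ ≤ 1 := by
  rcases hw.lt_or_eq with h | h
  · exact (pkp_lt hu ho h).le
  · exact (pkp_eq hu ho h).le

theorem pkp_an {u o w : ℂ} (hu : ‖u‖ = 1) (ho : ‖o‖ < 1) (hw : ‖w‖ ≤ 1) :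
    AnalyticAt ℂ (mob u o) w := by
  have h0 := pkp_den hu ho hw
  unfold mob
  fun_prop (disch := assumption)

/-- the centre of the inverse map -/
noncomputable def pkp_c (u o : ℂ) : ℂ := -(conj u * o)

theorem pkp_hu {u : ℂ} (hu : ‖u‖ = 1) : ‖conj u‖ = 1 := by rw [RCLike.norm_conj, hu]

theorem pkp_ho {u o : ℂ} (hu : ‖u‖ = 1) (ho : ‖o‖ < 1) : ‖pkp_c u o‖ < 1 := by
  unfold pkp_c
  rw [norm_neg, norm_mul, RCLike.norm_conj, hu, one_mul]
  exact ho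

theorem pkp_inv {u o z : ℂ} (hu : ‖u‖ = 1) (ho : ‖o‖ < 1) (hz : ‖z‖ ≤ 1) :
    mob u o (mob (conj u) (pkp_c u o) z) = z := by
  have h1 := pkp_den (pkp_hu hu) (pkp_ho hu ho) hz
  have h2 := pkp_den hu ho (pkp_le (pkp_hu hu) (pkp_ho hu ho) hz)
  have h3 := pkp_unit hu
  set w := mob (conj u) (pkp_c u o) z with hw
  have h4 : w * (conj (pkp_c u o) * conj u * z + 1) = conj u * z + pkp_c u o := by
    rw [hw]
    unfold mob
    exact div_mul_cancel₀ _ h1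
  have h5 : conj (pkp_c u o) = -(u * conj o) := by
    unfold pkp_c
    simp
  rw [h5] at h4 h1
  have h6 : w * (1 - conj o * z) = conj u * (z - o) := by
    unfold pkp_c at h4
    linear_combination h4 + w * conj o * z * h3
  unfold mob
  rw [div_eq_iff h2]
  have h7 : (1 : ℂ) - conj o * z ≠ 0 := by
    intro h8
    apply h1
    linear_combination h8 - conj o * z * h3
  apply mul_right_cancel₀ h7
  linear_combination (u - z * conj o * u) * h6 + (1 - z * conj o) * (z - o) * h3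

theorem pkp_cc {u o : ℂ} (hu : ‖u‖ = 1) : pkp_c (conj u) (pkp_c u o) = o := by
  unfold pkp_c
  rw [conj_conj]
  linear_combination o * pkp_unit hu

theorem pkp_inv' {u o w : ℂ} (hu : ‖u‖ = 1) (ho : ‖o‖ < 1) (hw : ‖w‖ ≤ 1) :
    mob (conj u) (pkp_c u o) (mob u o w) = w := by
  have h := pkp_inv (pkp_hu hu) (pkp_ho hu ho) hw
  rwa [conj_conj, pkp_cc hu] at h

theorem pkp_nhds {x : ℂ} (hx : ‖x‖ < 1) : ∀ᶠ z in 𝓝 x, ‖z‖ < 1 :=
  (isOpen_lt continuous_norm continuous_const).mem_nhds hx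

/-- the sign of `Q` of the pulled back disk (closed unit disk) -/
theorem GD.Q_mb (C : GD) {u o : ℂ} (hu : ‖u‖ = 1) (ho : ‖o‖ < 1) {w : ℂ} (hw : ‖w‖ ≤ 1) :
    ∃ t : ℝ, 0 < t ∧ (C.mb hu ho).Q w = t * C.Q (mob u o w) := by
  have h0 := pkp_den hu ho hw
  refine ⟨‖conj o * u * w + 1‖ ^ 2, ?_, ?_⟩
  · have := norm_pos_iff.mpr h0
    positivity
  · rw [mul_comm]
    exact C.Q_pull u o (conj o * u) 1 (mob_det hu ho) h0

theorem GD.mb_orth (C : GD) {u o : ℂ} (hu : ‖u‖ = 1) (ho : ‖o‖ < 1) :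
    (C.mb hu ho).d - (C.mb hu ho).a = (1 - ‖o‖ ^ 2) * (C.d - C.a) := by
  have h1 : (conj C.b * o * conj (1 : ℂ)).re = (conj C.b * o).re := by simp
  have h2 : (conj C.b * u * conj (conj o * u)).re = (conj C.b * o).re := by
    have : conj C.b * u * conj (conj o * u) = conj C.b * o := by
      rw [map_mul, conj_conj]
      linear_combination conj C.b * o * pkp_unit hu
    rw [this]
  unfold GD.mb GD.pull
  simp only
  rw [h1, h2, hu, norm_mul, hu, RCLike.norm_conj, norm_one]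
  ring

theorem pkp_Q0 (C : GD) {u o : ℂ} (hu : ‖u‖ = 1) (ho : ‖o‖ < 1) {w : ℂ} (hw : ‖w‖ ≤ 1) :
    (C.mb hu ho).Q w = 0 ↔ C.Q (mob u o w) = 0 := by
  obtain ⟨t, ht, h⟩ := C.Q_mb hu ho hw
  rw [h, mul_eq_zero]
  constructor
  · rintro (h1 | h1)
    · exact absurd h1 ht.ne'
    · exact h1
  · exact Or.inr

theorem pkp_good {U V : ℂ → ℝ} {C : GD} {u o : ℂ} (hu : ‖u‖ = 1) (ho : ‖o‖ < 1) :
    Good (fun w => U (mob u o w)) (fun w => V (mob u o w)) (C.mb hu ho) ↔ Good U V C := by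
  constructor
  · rintro ⟨y, hy, hQ, he⟩
    refine ⟨mob u o y, pkp_lt hu ho hy, (pkp_Q0 C hu ho hy.le).1 hQ, ?_⟩
    have h1 : Tendsto (mob (conj u) (pkp_c u o)) (𝓝 (mob u o y)) (𝓝 y) := by
      have := (pkp_an (pkp_hu hu) (pkp_ho hu ho) (pkp_lt hu ho hy).le).continuousAt
      unfold ContinuousAt at this
      rwa [pkp_inv' hu ho hy.le] at this
    filter_upwards [h1.eventually he, pkp_nhds (pkp_lt hu ho hy)] with z hz hz1
    rw [pkp_inv hu ho hz1.le] at hz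
    exact hz
  · rintro ⟨y, hy, hQ, he⟩
    have hy' := pkp_lt (pkp_hu hu) (pkp_ho hu ho) hy
    refine ⟨mob (conj u) (pkp_c u o) y, hy', (pkp_Q0 C hu ho hy'.le).2 ?_, ?_⟩
    · rw [pkp_inv hu ho hy.le]
      exact hQ
    · have h1 : Tendsto (mob u o) (𝓝 (mob (conj u) (pkp_c u o) y)) (𝓝 y) := by
        have := (pkp_an hu ho hy'.le).continuousAt
        unfold ContinuousAt at this
        rwa [pkp_inv hu ho hy.le] at this
      exact h1.eventually he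

theorem pkp_ext {U : ℂ → ℝ} {u o x : ℂ} (hu : ‖u‖ = 1) (ho : ‖o‖ < 1) (hx : ‖x‖ = 1) :
    Ext (fun w => U (mob u o w)) x ↔ Ext U (mob u o x) := by
  constructor
  · intro h
    have h0 : Ext (fun w => U (mob u o w)) (mob (conj u) (pkp_c u o) (mob u o x)) := by
      rw [pkp_inv' hu ho hx.le]
      exact h
    have h1 := h0.comp (pkp_an (pkp_hu hu) (pkp_ho hu ho) (pkp_eq hu ho hx).le)
      (Eventually.of_forall fun z hz => pkp_lt (pkp_hu hu) (pkp_ho hu ho) hz)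
    refine h1.congr (Eventually.of_forall fun z hz => ?_)
    rw [pkp_inv hu ho hz.le]
  · intro h
    exact h.comp (pkp_an hu ho hx.le) (Eventually.of_forall fun z hz => pkp_lt hu ho hz)

theorem pkp_mem {u o : ℂ} {hu : ‖u‖ = 1} {ho : ‖o‖ < 1} {I : Finset GD} {D : GD} :
    D ∈ mbI hu ho I ↔ ∃ C ∈ I, C.mb hu ho = D := mem_pullI

theorem PK.mb {γ κ : ℝ} {U V₁ V₂ : ℂ → ℝ} {I₁ I₂ : Finset GD} (P : PK γ κ U V₁ V₂ I₁ I₂)
    {u o : ℂ} (hu : ‖u‖ = 1) (ho : ‖o‖ < 1) :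
    PK γ κ (fun w => U (mob u o w)) (fun w => V₁ (mob u o w)) (fun w => V₂ (mob u o w))
      (mbI hu ho I₁) (mbI hu ho I₂) := by
  have sm : ∀ (V : ℂ → ℝ) (I : Finset GD), (∀ C ∈ I, Good U V C → C.a ≤ C.d) →
      ∀ C ∈ mbI hu ho I, Good (fun w => U (mob u o w)) (fun w => V (mob u o w)) C →
        C.a ≤ C.d := by
    intro V I h C hC hG
    obtain ⟨C₀, hC₀, rfl⟩ := pkp_mem.1 hC
    have h1 := h C₀ hC₀ ((pkp_good hu ho).1 hG)
    have h2 := C₀.mb_orth hu ho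
    have h3 := mul_nonneg (pkp_pos ho).le (sub_nonneg.2 h1)
    linarith
  refine ⟨fun z hz => har_comp (pkp_an hu ho hz.le) (P.har _ (pkp_lt hu ho hz)), ?_, ?_,
    sm _ _ P.sm₁, sm _ _ P.sm₂⟩
  · obtain ⟨B, K, hB, h1, h2⟩ := P.nl
    refine ⟨{w | conj o * u * w + 1 ≠ 0 ∧ mob u o w ∈ B}, {w | mob u o w ∈ K}, ?_, ?_, ?_⟩
    · intro w hw
      rw [mem_closedBall_zero_iff] at hw
      exact ⟨pkp_den hu ho hw, hB (mem_closedBall_zero_iff.2 (pkp_le hu ho hw))⟩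
    · exact h1.pull (mob_det hu ho) fun w hw => hw
    · exact h2.pull (mob_det hu ho) fun w hw => hw
  · obtain ⟨x, hx, hE⟩ := P.ne
    have hx' := pkp_eq (pkp_hu hu) (pkp_ho hu ho) hx
    refine ⟨mob (conj u) (pkp_c u o) x, hx', ?_⟩
    rw [pkp_ext hu ho hx', pkp_inv hu ho hx.le]
    exact hE

theorem GO.mb {U V : ℂ → ℝ} {I : Finset GD} {C : GD} (hC : GO U V I C) {u o : ℂ} (hu : ‖u‖ = 1)
    (ho : ‖o‖ < 1) :
    GO (fun w => U (mob u o w)) (fun w => V (mob u o w)) (mbI hu ho I) (C.mb hu ho) := by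
  refine ⟨pkp_mem.2 ⟨C, hC.1, rfl⟩, (pkp_good hu ho).2 hC.2.1, ?_⟩
  have h := C.mb_orth hu ho
  rw [hC.2.2, sub_self, mul_zero] at h
  linarith

theorem GO.of_mb {U V : ℂ → ℝ} {I : Finset GD} {D : GD} {u o : ℂ} (hu : ‖u‖ = 1)
    (ho : ‖o‖ < 1)
    (hD : GO (fun w => U (mob u o w)) (fun w => V (mob u o w)) (mbI hu ho I) D) :
    ∃ C, GO U V I C ∧ C.mb hu ho = D := by
  obtain ⟨h1, h2, h3⟩ := hD
  obtain ⟨C, hC, rfl⟩ := pkp_mem.1 h1
  refine ⟨C, ⟨hC, (pkp_good hu ho).1 h2, ?_⟩, rfl⟩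
  have h := C.mb_orth hu ho
  rw [h3, sub_self] at h
  rcases mul_eq_zero.1 h.symm with h4 | h4
  · exact absurd h4 (pkp_pos ho).ne'
  · linarith

/-! ### conjugation -/

theorem pkp_anc (x : ℂ) : AnalyticAt ℂ (fun z : ℂ => conj (conj z)) x := by
  simp only [conj_conj]
  exact analyticAt_id

theorem pkp_tc (x : ℂ) : Tendsto (fun z : ℂ => conj z) (𝓝 x) (𝓝 (conj x)) :=
  Complex.continuous_conj.tendsto x

theorem pkp_good_cj {U V : ℂ → ℝ} {C : GD} :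
    Good (fun w => U (conj w)) (fun w => V (conj w)) C.cj ↔ Good U V C := by
  constructor
  · rintro ⟨y, hy, hQ, he⟩
    refine ⟨conj y, by rwa [RCLike.norm_conj], by rw [← C.Q_cj]; exact hQ, ?_⟩
    have h1 := pkp_tc (conj y)
    rw [conj_conj] at h1
    filter_upwards [h1.eventually he] with z hz
    simpa using hz
  · rintro ⟨y, hy, hQ, he⟩
    refine ⟨conj y, by rwa [RCLike.norm_conj], by rw [C.Q_cj, conj_conj]; exact hQ, ?_⟩
    have h1 := pkp_tc (conj y)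
    rw [conj_conj] at h1
    exact h1.eventually he

theorem pkp_ext_cj {U : ℂ → ℝ} {x : ℂ} : Ext (fun w => U (conj w)) (conj x) ↔ Ext U x := by
  constructor
  · intro h
    have h1 : Ext (fun z => (fun w => U (conj w)) (conj z)) x :=
      h.comp_anti (pkp_anc x) (Eventually.of_forall fun z hz => by rwa [RCLike.norm_conj])
    refine h1.congr (Eventually.of_forall fun z hz => ?_)
    simp
  · intro h
    have h0 : Ext U (conj (conj x)) := by rwa [conj_conj]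
    exact h0.comp_anti (pkp_anc _) (Eventually.of_forall fun z hz => by rwa [RCLike.norm_conj])

theorem pkp_nl_cj {γ κ : ℝ} {B K : Set ℂ} {V : ℂ → ℝ} {I : Finset GD} (h : NL γ κ B K V I) :
    NL γ κ {w | conj w ∈ B} {w | conj w ∈ K} (fun w => V (conj w)) (cjI I) := by
  refine ⟨?_, ?_, ?_, ?_⟩
  · intro C hC C' hC' hne z hz hQ
    obtain ⟨D, hD, rfl⟩ := mem_cjI.1 hC
    obtain ⟨D', hD', rfl⟩ := mem_cjI.1 hC'
    rw [GD.Q_cj] at hQ ⊢
    exact h.dis D hD D' hD' (fun e => hne (by rw [e])) _ hz hQ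
  · intro C hC z hz hK
    obtain ⟨D, hD, rfl⟩ := mem_cjI.1 hC
    rw [GD.Q_cj]
    exact h.disK D hD _ hz hK
  · intro z hz hK hQ
    refine har_comp_anti (pkp_anc z) (h.har _ hz hK fun D hD => ?_)
    have := hQ D.cj (mem_cjI.2 ⟨D, hD, rfl⟩)
    rwa [GD.Q_cj] at this
  · intro C hC
    obtain ⟨D, hD, rfl⟩ := mem_cjI.1 hC
    obtain ⟨g, hg, hg'⟩ := h.ts D hD
    refine ⟨fun w => g (conj w), fun z hz hQ => ?_, fun y hy hQ => ?_⟩
    · rw [GD.Q_cj] at hQ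
      exact har_comp_anti (pkp_anc z) (hg _ hz hQ)
    · rw [GD.Q_cj] at hQ
      filter_upwards [(pkp_tc y).eventually (hg' _ hy hQ)] with z hz hQz
      rw [GD.Q_cj] at hQz
      rw [D.R_cj]
      exact hz hQz

theorem PK.cj {γ κ : ℝ} {U V₁ V₂ : ℂ → ℝ} {I₁ I₂ : Finset GD} (P : PK γ κ U V₁ V₂ I₁ I₂) :
    PK γ κ (fun w => U (conj w)) (fun w => V₁ (conj w)) (fun w => V₂ (conj w))
      (cjI I₁) (cjI I₂) := by
  have sm : ∀ (V : ℂ → ℝ) (I : Finset GD), (∀ C ∈ I, Good U V C → C.a ≤ C.d) →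
      ∀ C ∈ cjI I, Good (fun w => U (conj w)) (fun w => V (conj w)) C → C.a ≤ C.d := by
    intro V I h C hC hG
    obtain ⟨C₀, hC₀, rfl⟩ := mem_cjI.1 hC
    exact h C₀ hC₀ (pkp_good_cj.1 hG)
  refine ⟨fun z hz => har_comp_anti (pkp_anc z) (P.har _ (by rwa [RCLike.norm_conj])), ?_, ?_,
    sm _ _ P.sm₁, sm _ _ P.sm₂⟩
  · obtain ⟨B, K, hB, h1, h2⟩ := P.nl
    refine ⟨{w | conj w ∈ B}, {w | conj w ∈ K}, ?_, pkp_nl_cj h1, pkp_nl_cj h2⟩
    intro w hw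
    rw [mem_closedBall_zero_iff] at hw
    exact hB (mem_closedBall_zero_iff.2 (by rwa [RCLike.norm_conj]))
  · obtain ⟨x, hx, hE⟩ := P.ne
    exact ⟨conj x, by rwa [RCLike.norm_conj], fun h => hE (pkp_ext_cj.1 h)⟩

theorem GO.cj {U V : ℂ → ℝ} {I : Finset GD} {C : GD} (hC : GO U V I C) :
    GO (fun w => U (conj w)) (fun w => V (conj w)) (cjI I) C.cj :=
  ⟨mem_cjI.2 ⟨C, hC.1, rfl⟩, pkp_good_cj.2 hC.2.1, hC.2.2⟩

theorem GO.of_cj {U V : ℂ → ℝ} {I : Finset GD} {D : GD}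
    (hD : GO (fun w => U (conj w)) (fun w => V (conj w)) (cjI I) D) :
    ∃ C, GO U V I C ∧ C.cj = D := by
  obtain ⟨h1, h2, h3⟩ := hD
  obtain ⟨C, hC, rfl⟩ := mem_cjI.1 h1
  exact ⟨C, ⟨hC, pkp_good_cj.1 h2, h3⟩, rfl⟩

end MD12

end S_PKP

section S_STEP1

/-! # STEP1: the one-dimensional lemma for a general crossing pair

`u = (e - o)/(1 - conj o e)`, `‖u‖ = 1`; `mob u o 0 = o`, `mob u o 1 = e`.  Pull back with `PK.mb`, `GO.mb`.
`A := C.mb`, `A' := C'.mb`: `A.a = A.d`, `A.Q 0 = A.d = 0` (`GD.Q_mb` and `C.Q o = 0`), so `A.a = A.d = 0`; same for `A'`.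
`exists_IsHP`: `IsHP α A`, `A.Q 1 = 0` gives `sin α = 0`: `IsHP 0 A` or `IsHP π A` (`IsHP.add_two_pi`).
`IsHP θ A'`, `A'.Q 1 > 0` gives `sin θ > 0`: w.l.o.g. `0 < θ < π`.
* `IsHP 0 A`: `t1` gives `D'` with `D'.Q 1 < 0`; `GO.of_mb`, `GD.Q_mb` give `D` with `D.Q e < 0`.
* `IsHP π A`: conjugate: `PK.cj`, `GO.cj`; `IsHP θ C → IsHP (π - θ) C.cj`; `t1`; `GO.of_cj`, `GD.Q_cj` (`conj 1 = 1`).
-/

namespace MD12

open Complex Metric Set Filter Topology InnerProductSpace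
open scoped ComplexConjugate

theorem IsHP.cj {θ : ℝ} {C : GD} (h : IsHP θ C) : IsHP (Real.pi - θ) C.cj := by
  obtain ⟨ha, hd, t, ht, hb⟩ := h
  refine ⟨ha, hd, t, ht, ?_⟩
  show conj C.b = _
  rw [hb, map_neg, map_mul, map_mul, conj_EE, conj_ofReal, conj_I, sub_eq_add_neg, EE_add, EE_pi]
  ring

theorem step1_norm {θ : ℝ} {C : GD} (h : IsHP θ C) (hs : 0 < Real.sin θ) :
    ∃ θ' : ℝ, 0 < θ' ∧ θ' < Real.pi ∧ IsHP θ' C := by
  have hπ := Real.pi_pos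
  have h2 : 0 < 2 * Real.pi := by positivity
  have h3 := Int.floor_le (θ / (2 * Real.pi))
  have h4 := Int.lt_floor_add_one (θ / (2 * Real.pi))
  rw [le_div_iff₀ h2] at h3
  rw [div_lt_iff₀ h2] at h4
  have hH := h.add_two_pi (-⌊θ / (2 * Real.pi)⌋)
  have hsin : Real.sin (θ + 2 * Real.pi * ((-⌊θ / (2 * Real.pi)⌋ : ℤ) : ℝ)) = Real.sin θ := by
    rw [mul_comm (2 * Real.pi)]
    exact Real.sin_add_int_mul_two_pi θ _
  rw [← hsin] at hs
  set θ' := θ + 2 * Real.pi * ((-⌊θ / (2 * Real.pi)⌋ : ℤ) : ℝ) with hθ'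
  have h5 : 0 ≤ θ' := by
    rw [hθ']
    push_cast
    linarith
  have h6 : θ' < 2 * Real.pi := by
    rw [hθ']
    push_cast
    linarith
  refine ⟨θ', ?_, ?_, hH⟩
  · rcases h5.lt_or_eq with h7 | h7
    · exact h7
    · rw [← h7, Real.sin_zero] at hs
      exact absurd hs (lt_irrefl _)
  · by_contra h7
    push Not at h7
    have h8 : 0 ≤ Real.sin (θ' - Real.pi) :=
      Real.sin_nonneg_of_nonneg_of_le_pi (by linarith) (by linarith)
    rw [Real.sin_sub_pi] at h8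
    linarith

theorem step1_zero {α : ℝ} {C : GD} (h : IsHP α C) (hs : Real.sin α = 0) :
    IsHP 0 C ∨ IsHP Real.pi C := by
  obtain ⟨n, hn⟩ := Real.sin_eq_zero_iff.1 hs
  rcases Int.even_or_odd' n with ⟨j, hj | hj⟩
  · left
    have h2 := h.add_two_pi (-j)
    have h3 : α + 2 * Real.pi * ((-j : ℤ) : ℝ) = 0 := by
      rw [← hn, hj]
      push_cast
      ring
    rwa [h3] at h2
  · right
    have h2 := h.add_two_pi (-j)
    have h3 : α + 2 * Real.pi * ((-j : ℤ) : ℝ) = Real.pi := by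
      rw [← hn, hj]
      push_cast
      ring
    rwa [h3] at h2

theorem step1_Q_zero (C : GD) : C.Q 0 = C.d := by
  unfold GD.Q
  simp

theorem step1 {γ κ : ℝ} (h0 : γ ≠ 0) (h1 : |γ| < 1) {U V₁ V₂ : ℂ → ℝ} {I₁ I₂ : Finset GD}
    (P : PK γ κ U V₁ V₂ I₁ I₂) {C C' : GD} (hC : GO U V₁ I₁ C) (hC' : GO U V₂ I₂ C') {o e : ℂ}
    (ho : ‖o‖ < 1) (hCo : C.Q o = 0) (hC'o : C'.Q o = 0) (he : ‖e‖ = 1) (hCe : C.Q e = 0)
    (hC'e : 0 < C'.Q e) : ∃ D, GO U V₂ I₂ D ∧ D.Q e < 0 := by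
  have hee : conj e * e = 1 := by
    rw [mul_comm, Complex.mul_conj, Complex.normSq_eq_norm_sq, he]
    norm_num
  have hden : 1 - conj o * e ≠ 0 := by
    intro h
    have h2 : conj o * e = 1 := by linear_combination -h
    have h3 : ‖conj o * e‖ = 1 := by rw [h2]; simp
    rw [norm_mul, RCLike.norm_conj, he, mul_one] at h3
    linarith
  have hoo : (1 : ℂ) - conj o * o ≠ 0 := by
    intro h
    have h2 : conj o * o = 1 := by linear_combination -h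
    have h3 : ‖conj o * o‖ = 1 := by rw [h2]; simp
    rw [norm_mul, RCLike.norm_conj] at h3
    nlinarith [norm_nonneg o]
  set u : ℂ := (e - o) / (1 - conj o * e) with hu_def
  have hu : ‖u‖ = 1 := by
    have h2 : conj e * (1 - conj o * e) = conj (e - o) := by
      rw [map_sub]
      linear_combination -conj o * hee
    have h3 : ‖1 - conj o * e‖ = ‖e - o‖ := by
      have h4 : ‖conj e * (1 - conj o * e)‖ = ‖conj (e - o)‖ := by rw [h2]
      rw [norm_mul, RCLike.norm_conj, RCLike.norm_conj, he, one_mul] at h4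
      exact h4
    rw [hu_def, norm_div, ← h3]
    exact div_self (norm_pos_iff.2 hden).ne'
  have hm0 : mob u o 0 = o := by
    unfold mob
    simp
  have hm1 : mob u o 1 = e := by
    unfold mob
    have h2 : u * 1 + o = e * ((1 - conj o * o) / (1 - conj o * e)) := by
      rw [hu_def, mul_one, div_add' _ _ _ hden, ← mul_div_assoc]
      congr 1
      ring
    have h3 : conj o * u * 1 + 1 = (1 - conj o * o) / (1 - conj o * e) := by
      rw [hu_def, mul_one, ← mul_div_assoc, div_add' _ _ _ hden]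
      congr 1
      ring
    rw [h2, h3]
    exact mul_div_cancel_right₀ _ (div_ne_zero hoo hden)
  have hn1 : ‖(1 : ℂ)‖ ≤ 1 := by simp
  have hn0 : ‖(0 : ℂ)‖ ≤ 1 := by simp
  have hzero : ∀ C : GD, C.a = C.d → C.Q o = 0 →
      (C.mb hu ho).a = 0 ∧ (C.mb hu ho).d = 0 := by
    intro C ha hQ
    obtain ⟨t, ht, h2⟩ := C.Q_mb hu ho (w := 0) hn0
    rw [hm0, hQ, mul_zero, step1_Q_zero] at h2
    have h3 := C.mb_orth hu ho
    rw [ha, sub_self, mul_zero, h2] at h3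
    exact ⟨by linarith, h2⟩
  have P' := P.mb hu ho
  have hA := hC.mb hu ho
  have hA' := hC'.mb hu ho
  obtain ⟨ha, hd⟩ := hzero C hC.2.2 hCo
  obtain ⟨ha', hd'⟩ := hzero C' hC'.2.2 hC'o
  obtain ⟨α, hα⟩ := exists_IsHP ha hd
  obtain ⟨β, hβ⟩ := exists_IsHP ha' hd'
  have hsα : Real.sin α = 0 := by
    obtain ⟨t, ht, h2⟩ := C.Q_mb hu ho (w := 1) hn1
    rw [hm1, hCe, mul_zero, ← EE_zero, hα.Q_zero, zero_sub, Real.sin_neg, neg_eq_zero] at h2
    exact h2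
  have hsβ : 0 < Real.sin β := by
    obtain ⟨t, ht, h2⟩ := C'.Q_mb hu ho (w := 1) hn1
    have h3 : 0 < (C'.mb hu ho).Q 1 := by
      rw [h2, hm1]
      exact mul_pos ht hC'e
    rw [← EE_zero, hβ.Q_pos, zero_sub, Real.sin_neg] at h3
    linarith
  obtain ⟨θ, hθ0, hθπ, hθ⟩ := step1_norm hβ hsβ
  have hfin : (∃ D, GO (fun w => U (mob u o w)) (fun w => V₂ (mob u o w)) (mbI hu ho I₂) D ∧
      D.Q 1 < 0) → ∃ D, GO U V₂ I₂ D ∧ D.Q e < 0 := by
    rintro ⟨D', hD', hQ⟩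
    obtain ⟨D, hD, rfl⟩ := hD'.of_mb hu ho
    refine ⟨D, hD, ?_⟩
    obtain ⟨t, ht, h2⟩ := D.Q_mb hu ho (w := 1) hn1
    rw [hm1] at h2
    rw [h2] at hQ
    exact (pos_iff_neg_of_mul_neg hQ).1 ht
  apply hfin
  rcases step1_zero hα hsα with h2 | h2
  · exact t1 h0 h1 P' hA hA' hθ0 hθπ h2 hθ
  · have h3 : IsHP 0 (C.mb hu ho).cj := by
      have := h2.cj
      rwa [sub_self] at this
    obtain ⟨D', hD', hQ⟩ := t1 h0 h1 P'.cj hA.cj hA'.cj (θ := Real.pi - θ) (by linarith)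
      (by linarith) h3 hθ.cj
    obtain ⟨D, hD, rfl⟩ := GO.of_cj (U := fun w => U (mob u o w))
      (V := fun w => V₂ (mob u o w)) hD'
    refine ⟨D, hD, ?_⟩
    rw [GD.Q_cj, map_one] at hQ
    exact hQ

end MD12

end S_STEP1

section S_GEOD

/-! # GEOD: hyperbolic geodesics (circles orthogonal to the unit circle)

`C.a = C.d`: `C.Q z = a (‖z‖² + 1) + 2 ⟨b, z⟩`.
* `geod_unique`: from `e`: `a = -⟨b,e⟩`; from `o`: `⟨b, 2 o - (‖o‖²+1) e⟩ = 0` and `2 o - (‖o‖²+1) e ≠ 0` since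
  `2‖o‖ < ‖o‖² + 1`.  So `b`, `b'` are parallel, `b, b' ≠ 0` (otherwise `a = 0` and `pos` fails), `b' = λ b`, `a' = λ a`, `λ ≠ 0`.
* `exists_end`: on the circle `Q = 2 (a + ⟨b, x⟩)`, which takes the values `2 (a + ‖b‖) > 0` and `2 (a - ‖b‖) < 0`
  (`|a| < ‖b‖`); intermediate value theorem on the circle, or explicit formula
  `x = (-a + i sqrt(‖b‖² - a²)) b/‖b‖²`.
* `geod_cross`: `{C.Q = 0, ‖·‖ < 1}` is preconnected (`circ_preconn`), `D.Q` is continuous, positive at `o`, and negative at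
  some point of the set near `e` (`circ_closure`, `{D.Q < 0}` is open): `IsPreconnected.intermediate_value`.
* `Crs.symm`: take `e'` from `exists_end` for `C'`; if `C.Q e' = 0` then `geod_unique` (with `o`, `e'`) gives that `C.Q` and
  `C'.Q` have the same zeros, contradiction with `e`.
-/

namespace MD12

open Complex Metric Set Filter Topology InnerProductSpace
open scoped ComplexConjugate

/-- the circles cross inside the unit disk -/
def Crs (C C' : GD) : Prop :=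
  ∃ o, ‖o‖ < 1 ∧ C.Q o = 0 ∧ C'.Q o = 0 ∧ ∃ e, ‖e‖ = 1 ∧ C.Q e = 0 ∧ C'.Q e ≠ 0

private theorem geod_Qre (C : GD) (h : C.a = C.d) (z : ℂ) :
    C.Q z = C.a * (z.re ^ 2 + z.im ^ 2 + 1) + 2 * (C.b.re * z.re + C.b.im * z.im) := by
  unfold GD.Q
  simp only [← Complex.normSq_eq_norm_sq, Complex.normSq_apply, Complex.mul_re, Complex.conj_re,
    Complex.conj_im]
  rw [← h]
  ring

private theorem geod_norm_sq (z : ℂ) : z.re ^ 2 + z.im ^ 2 = ‖z‖ ^ 2 := by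
  rw [← Complex.normSq_eq_norm_sq, Complex.normSq_apply]
  ring

private theorem geod_key {C : GD} (h : C.a = C.d) {o e : ℂ}
    (he : e.re ^ 2 + e.im ^ 2 = 1) (h1 : C.Q o = 0) (h3 : C.Q e = 0) {v : ℂ}
    (hvr : v.re = 2 * o.re - (o.re ^ 2 + o.im ^ 2 + 1) * e.re)
    (hvi : v.im = 2 * o.im - (o.re ^ 2 + o.im ^ 2 + 1) * e.im)
    (hv : 0 < v.re ^ 2 + v.im ^ 2) :
    ∃ s : ℝ, s ≠ 0 ∧ ∀ z : ℂ, (v.re ^ 2 + v.im ^ 2) * C.Q z = s *
      ((v.im * e.re - v.re * e.im) * (z.re ^ 2 + z.im ^ 2 + 1) +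
        2 * (-v.im * z.re + v.re * z.im)) := by
  rw [geod_Qre C h] at h1 h3
  have ha : C.a = -(C.b.re * e.re + C.b.im * e.im) := by
    rw [he] at h3
    linarith
  have hbv : C.b.re * v.re + C.b.im * v.im = 0 := by
    rw [hvr, hvi]
    have h4 : 2 * (C.b.re * o.re + C.b.im * o.im) = -(C.a * (o.re ^ 2 + o.im ^ 2 + 1)) := by
      linarith
    rw [ha] at h4
    linarith
  have hr : (v.re ^ 2 + v.im ^ 2) * C.b.re = -(C.b.im * v.re - C.b.re * v.im) * v.im := by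
    linear_combination v.re * hbv
  have hi : (v.re ^ 2 + v.im ^ 2) * C.b.im = (C.b.im * v.re - C.b.re * v.im) * v.re := by
    linear_combination v.im * hbv
  refine ⟨C.b.im * v.re - C.b.re * v.im, ?_, ?_⟩
  · intro hs
    rw [hs] at hr hi
    have hbr : C.b.re = 0 := by
      have : (v.re ^ 2 + v.im ^ 2) * C.b.re = 0 := by rw [hr]; ring
      exact (mul_eq_zero.mp this).resolve_left hv.ne'
    have hbi : C.b.im = 0 := by
      have : (v.re ^ 2 + v.im ^ 2) * C.b.im = 0 := by rw [hi]; ring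
      exact (mul_eq_zero.mp this).resolve_left hv.ne'
    have hp := C.pos
    rw [← geod_norm_sq, ← h, ha, hbr, hbi] at hp
    simp at hp
  · intro z
    rw [geod_Qre C h, ha]
    linear_combination (-(e.re) * (z.re ^ 2 + z.im ^ 2 + 1) + 2 * z.re) * hr +
      (-(e.im) * (z.re ^ 2 + z.im ^ 2 + 1) + 2 * z.im) * hi

theorem geod_unique {C C' : GD} (h : C.a = C.d) (h' : C'.a = C'.d) {o e : ℂ} (ho : ‖o‖ < 1)
    (he : ‖e‖ = 1) (h1 : C.Q o = 0) (h2 : C'.Q o = 0) (h3 : C.Q e = 0) (h4 : C'.Q e = 0) (z : ℂ) :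
    C.Q z = 0 ↔ C'.Q z = 0 := by
  have he' : e.re ^ 2 + e.im ^ 2 = 1 := by
    rw [geod_norm_sq, he]
    norm_num
  have ho' : o.re ^ 2 + o.im ^ 2 < 1 := by
    rw [geod_norm_sq]
    nlinarith [norm_nonneg o]
  set v : ℂ := ⟨2 * o.re - (o.re ^ 2 + o.im ^ 2 + 1) * e.re,
    2 * o.im - (o.re ^ 2 + o.im ^ 2 + 1) * e.im⟩ with hvdef
  have hvr : v.re = 2 * o.re - (o.re ^ 2 + o.im ^ 2 + 1) * e.re := rfl
  have hvi : v.im = 2 * o.im - (o.re ^ 2 + o.im ^ 2 + 1) * e.im := rfl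
  have hv : 0 < v.re ^ 2 + v.im ^ 2 := by
    by_contra hcon
    have h5 : v.re = 0 := by nlinarith [sq_nonneg v.re, sq_nonneg v.im]
    have h6 : v.im = 0 := by nlinarith [sq_nonneg v.re, sq_nonneg v.im]
    rw [hvr] at h5
    rw [hvi] at h6
    have h7 : 4 * (o.re ^ 2 + o.im ^ 2) = (o.re ^ 2 + o.im ^ 2 + 1) ^ 2 := by
      linear_combination (2 * o.re + (o.re ^ 2 + o.im ^ 2 + 1) * e.re) * h5 +
        (2 * o.im + (o.re ^ 2 + o.im ^ 2 + 1) * e.im) * h6 +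
        (o.re ^ 2 + o.im ^ 2 + 1) ^ 2 * he'
    have h8 : (1 - (o.re ^ 2 + o.im ^ 2)) ^ 2 = 0 := by linear_combination -h7
    have h9 : 1 - (o.re ^ 2 + o.im ^ 2) = 0 := by
      exact pow_eq_zero_iff (two_ne_zero) |>.mp h8
    linarith
  obtain ⟨s, hs, hsz⟩ := geod_key h he' h1 h3 hvr hvi hv
  obtain ⟨s', hs', hsz'⟩ := geod_key h' he' h2 h4 hvr hvi hv
  have k1 : C.Q z = 0 ↔ (v.re ^ 2 + v.im ^ 2) * C.Q z = 0 := by
    rw [mul_eq_zero]
    constructor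
    · exact Or.inr
    · rintro (h | h)
      · exact absurd h hv.ne'
      · exact h
  have k2 : C'.Q z = 0 ↔ (v.re ^ 2 + v.im ^ 2) * C'.Q z = 0 := by
    rw [mul_eq_zero]
    constructor
    · exact Or.inr
    · rintro (h | h)
      · exact absurd h hv.ne'
      · exact h
  rw [k1, k2, hsz, hsz', mul_eq_zero, mul_eq_zero]
  constructor
  · rintro (h | h)
    · exact absurd h hs
    · exact Or.inr h
  · rintro (h | h)
    · exact absurd h hs'
    · exact Or.inr h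

theorem exists_end {C : GD} (h : C.a = C.d) : ∃ e, ‖e‖ = 1 ∧ C.Q e = 0 := by
  have hp := C.pos
  rw [← h, ← geod_norm_sq] at hp
  have hN : 0 < C.b.re ^ 2 + C.b.im ^ 2 := by nlinarith [sq_nonneg C.a]
  set r := Real.sqrt (C.b.re ^ 2 + C.b.im ^ 2 - C.a * C.a) with hr
  have hr2 : r ^ 2 = C.b.re ^ 2 + C.b.im ^ 2 - C.a * C.a := Real.sq_sqrt (by linarith)
  set e : ℂ := ⟨(-C.a * C.b.re - r * C.b.im) / (C.b.re ^ 2 + C.b.im ^ 2),
    (-C.a * C.b.im + r * C.b.re) / (C.b.re ^ 2 + C.b.im ^ 2)⟩ with he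
  have her : e.re = (-C.a * C.b.re - r * C.b.im) / (C.b.re ^ 2 + C.b.im ^ 2) := rfl
  have hei : e.im = (-C.a * C.b.im + r * C.b.re) / (C.b.re ^ 2 + C.b.im ^ 2) := rfl
  have hes : e.re ^ 2 + e.im ^ 2 = 1 := by
    rw [her, hei, div_pow, div_pow, ← add_div, div_eq_one_iff_eq (by positivity)]
    linear_combination (C.b.re ^ 2 + C.b.im ^ 2) * hr2
  refine ⟨e, ?_, ?_⟩
  · have h5 : ‖e‖ ^ 2 = 1 := by rw [← geod_norm_sq, hes]
    nlinarith [norm_nonneg e]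
  · rw [geod_Qre C h, hes]
    have h6 : C.b.re * e.re + C.b.im * e.im = -C.a := by
      rw [her, hei]
      field_simp
      ring
    rw [h6]
    ring

theorem geod_cross {C D : GD} {o e : ℂ} (ho : ‖o‖ < 1) (he : ‖e‖ = 1) (hCo : C.Q o = 0)
    (hCe : C.Q e = 0) (hDo : 0 < D.Q o) (hDe : D.Q e < 0) :
    ∃ o', ‖o'‖ < 1 ∧ C.Q o' = 0 ∧ D.Q o' = 0 := by
  have h1 : e ∈ closure {z : ℂ | C.Q z = 0 ∧ ‖z‖ < 1} := circ_closure C hCo ho hCe he
  obtain ⟨z, hz1, hz2⟩ := mem_closure_iff.mp h1 _ D.isOpen hDe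
  have h2 := (circ_preconn C).intermediate_value (f := D.Q) hz2 (b := o) ⟨hCo, ho⟩
    D.continuous_Q.continuousOn
  have h3 : (0 : ℝ) ∈ Icc (D.Q z) (D.Q o) := ⟨le_of_lt hz1, hDo.le⟩
  obtain ⟨w, hw, hw'⟩ := h2 h3
  exact ⟨w, hw.2, hw.1, hw'⟩

theorem Crs.symm {C C' : GD} (h : C.a = C.d) (h' : C'.a = C'.d) (hx : Crs C C') : Crs C' C := by
  obtain ⟨o, ho, h1, h2, e, he, h3, h4⟩ := hx
  obtain ⟨e', he', h5⟩ := exists_end h'
  refine ⟨o, ho, h2, h1, e', he', h5, fun h6 => h4 ?_⟩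
  exact (geod_unique h h' ho he' h1 h2 h6 h5 e).mp h3

end MD12

end S_GEOD

section S_CHAIN

/-! # CHAIN: the necklace of disks covers the unit circle

`cross_end`.  Let `o`, `e₀` be given by `hx`.
* `C'.Q e < 0`: take `D = C'`; `Crs C C'`.
* `C'.Q e > 0`: `step1` gives `D` in `GO U V₂ I₂` with `D.Q e < 0`; `D ≠ C'`, so `D.Q o > 0` (`P.dis₂`, `C'.Q o = 0`);
  `geod_cross` gives `o'`; `Crs C D` with `o'` and `e`.
* `C'.Q e = 0`: `geod_unique` gives that `C.Q`, `C'.Q` have the same zeros, contradiction to `C'.Q e₀ ≠ 0`.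

`chain`.  Let `S = {x | (∃ C, GO U V₁ I₁ C ∧ C.Q x < 0 ∧ ∃ C', GO U V₂ I₂ C' ∧ Crs C C') ∨
  (∃ C, GO U V₂ I₂ C ∧ C.Q x < 0 ∧ ∃ C', GO U V₁ I₁ C' ∧ Crs C C')}`.  `S` is open.
The unit circle is preconnected (`isPreconnected_sphere`, `rank_real_complex`, or as the image of `ℝ` under `EE`).
`S ∩ circle` is nonempty: `exists_end` gives an end point `e` of `A`, and `cross_end` a disk `D` with `D.Q e < 0`, `Crs A D`,
`Crs D A` by `Crs.symm`.
`S ∩ circle` is relatively closed: let `x` be in the closure of `S`, `‖x‖ = 1`.  The families are finite, so there is `C` as in the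
definition of `S` (say `C ∈ I₁`, `Crs C C'`) with `x ∈ closure {C.Q < 0}`, so `C.Q x ≤ 0`.  If `C.Q x < 0`, `x ∈ S`.
If `C.Q x = 0`: `cross_end` gives `D` in the other family with `D.Q x < 0`, `Crs C D`, so `Crs D C`: `x ∈ S`.
For `C` in the second family use `P.swap`.
So the circle is contained in `S`.
-/

namespace MD12

open Complex Metric Set Filter Topology InnerProductSpace
open scoped ComplexConjugate

theorem cross_end {γ κ : ℝ} (h0 : γ ≠ 0) (h1 : |γ| < 1) {U V₁ V₂ : ℂ → ℝ} {I₁ I₂ : Finset GD}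
    (P : PK γ κ U V₁ V₂ I₁ I₂) {C C' : GD} (hC : GO U V₁ I₁ C) (hC' : GO U V₂ I₂ C')
    (hx : Crs C C') {e : ℂ} (he : ‖e‖ = 1) (hCe : C.Q e = 0) :
    ∃ D, GO U V₂ I₂ D ∧ D.Q e < 0 ∧ Crs C D := by
  obtain ⟨o, ho, hCo, hC'o, e₀, he₀, hCe₀, hC'e₀⟩ := id hx
  rcases lt_trichotomy (C'.Q e) 0 with h | h | h
  · exact ⟨C', hC', h, hx⟩
  · exact absurd ((geod_unique hC.2.2 hC'.2.2 ho he hCo hC'o hCe h e₀).1 hCe₀) hC'e₀
  · obtain ⟨D, hD, hDe⟩ := step1 h0 h1 P hC hC' ho hCo hC'o he hCe h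
    have hne : C' ≠ D := by
      rintro rfl
      exact absurd h (not_lt.2 hDe.le)
    have hDo : 0 < D.Q o := P.dis₂ hC'.1 hD.1 hne ho.le hC'o.le
    obtain ⟨o', ho', hCo', hDo'⟩ := geod_cross ho he hCo hCe hDo hDe
    exact ⟨D, hD, hDe, o', ho', hCo', hDo', e, he, hCe, hDe.ne⟩

theorem CHAIN_cont (C : GD) : Continuous C.Q := by
  unfold GD.Q
  fun_prop

/-- A disk of one family, good and orthogonal, crossing a disk of the other family. -/
def CHAIN_F (U V₁ V₂ : ℂ → ℝ) (I₁ I₂ : Finset GD) (C : GD) : Prop :=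
  GO U V₁ I₁ C ∧ ∃ C', GO U V₂ I₂ C' ∧ Crs C C'

theorem CHAIN_step {γ κ : ℝ} (h0 : γ ≠ 0) (h1 : |γ| < 1) {U V₁ V₂ : ℂ → ℝ} {I₁ I₂ : Finset GD}
    (P : PK γ κ U V₁ V₂ I₁ I₂) {C : GD} (hC : CHAIN_F U V₁ V₂ I₁ I₂ C) {x : ℂ} (hx : ‖x‖ = 1)
    (hQ : C.Q x = 0) : ∃ D, CHAIN_F U V₂ V₁ I₂ I₁ D ∧ D.Q x < 0 := by
  obtain ⟨hG, C', hC', hcr⟩ := hC
  obtain ⟨D, hD, hDx, hCD⟩ := cross_end h0 h1 P hG hC' hcr hx hQ
  exact ⟨D, ⟨hD, C, hG, Crs.symm hG.2.2 hD.2.2 hCD⟩, hDx⟩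

theorem chain {γ κ : ℝ} (h0 : γ ≠ 0) (h1 : |γ| < 1) {U V₁ V₂ : ℂ → ℝ} {I₁ I₂ : Finset GD}
    (P : PK γ κ U V₁ V₂ I₁ I₂) {A B : GD} (hA : GO U V₁ I₁ A) (hB : GO U V₂ I₂ B)
    (hAB : Crs A B) {x : ℂ} (hx : ‖x‖ = 1) :
    (∃ C ∈ I₁, C.Q x < 0) ∨ ∃ C ∈ I₂, C.Q x < 0 := by
  classical
  set F : Set GD := {C | CHAIN_F U V₁ V₂ I₁ I₂ C ∨ CHAIN_F U V₂ V₁ I₂ I₁ C} with hF
  have hfin : F.Finite := by
    refine (I₁ ∪ I₂).finite_toSet.subset ?_
    rintro C (h | h)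
    · rw [Finset.mem_coe, Finset.mem_union]; exact Or.inl h.1.1
    · rw [Finset.mem_coe, Finset.mem_union]; exact Or.inr h.1.1
  set u : Set ℂ := ⋃ C ∈ F, {z | C.Q z < 0} with hu
  have hopen : IsOpen u := by
    refine isOpen_biUnion fun C _ => ?_
    exact isOpen_lt (CHAIN_cont C) continuous_const
  have key : ∀ C ∈ F, ∀ y : ℂ, ‖y‖ = 1 → C.Q y = 0 → y ∈ u := by
    rintro C (h | h) y hy hQ
    · obtain ⟨D, hD, hDy⟩ := CHAIN_step h0 h1 P h hy hQ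
      exact Set.mem_biUnion (show D ∈ F from Or.inr hD) hDy
    · obtain ⟨D, hD, hDy⟩ := CHAIN_step h0 h1 P.swap h hy hQ
      exact Set.mem_biUnion (show D ∈ F from Or.inl hD) hDy
  have hconn : IsPreconnected (sphere (0 : ℂ) 1) :=
    isPreconnected_sphere (by rw [Complex.rank_real_complex]; exact Cardinal.one_lt_two) 0 1
  have hne : (sphere (0 : ℂ) 1 ∩ u).Nonempty := by
    obtain ⟨e, he, hAe⟩ := exists_end hA.2.2
    exact ⟨e, by simpa using he, key A (Or.inl ⟨hA, B, hB, hAB⟩) e he hAe⟩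
  have hcl : closure u ∩ sphere (0 : ℂ) 1 ⊆ u := by
    rintro y ⟨hy, hy1⟩
    have hy2 : ‖y‖ = 1 := by simpa using hy1
    rw [hu, hfin.closure_biUnion, Set.mem_iUnion₂] at hy
    obtain ⟨C, hC, hyC⟩ := hy
    have h2 : C.Q y ≤ 0 := closure_lt_subset_le (CHAIN_cont C) continuous_const hyC
    rcases h2.lt_or_eq with h3 | h3
    · exact Set.mem_biUnion hC h3
    · exact key C hC y hy2 h3
  have hsub := hconn.subset_of_closure_inter_subset hopen hne hcl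
  have hxu : x ∈ u := hsub (by simpa using hx)
  rw [hu, Set.mem_iUnion₂] at hxu
  obtain ⟨C, hC, hxC⟩ := hxu
  rcases hC with h | h
  · exact Or.inl ⟨C, h.1.1, hxC⟩
  · exact Or.inr ⟨C, h.1.1, hxC⟩

end MD12

end S_CHAIN

section S_EXTD

/-! # EXTD: extension across the whole circle gives extension to a larger disk

For `x` on the circle choose `ρ x > 0` and `g x` harmonic on `ball x (ρ x)` with `g x = U` on `ball x (ρ x) ∩ ball 0 1`.
Consistency: if `ball x (ρ x) ∩ ball y (ρ y)` is nonempty then (`‖x - y‖ < ρ x + ρ y`) it contains a point of the open unit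
disk (for `x ≠ y` a point of the open segment from `x` to `y`; strict convexity), the intersection is convex, so
`har_ident` gives `g x = g y` on it.
Compactness: finitely many balls `ball x (ρ x / 1)` cover the circle, their union with `ball 0 1` contains `ball 0 r` for some
`r > 1` (the set `closedBall 0 2 \ union` is compact and does not meet `closedBall 0 1`; take the minimum of the norm).
`U' z = U z` if `‖z‖ < 1`, otherwise `g x z` for some (any) `x` with `z ∈ ball x (ρ x)`.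
(Alternative: use one radius: a Lebesgue number `δ` for the cover of the circle; `U' z = g_{x} z` with `x = z/‖z‖`.)
-/

namespace MD12

open Complex Metric Set Filter Topology InnerProductSpace
open scoped ComplexConjugate

theorem extd_local {U : ℂ → ℝ} {x : ℂ} (h : Ext U x) :
    ∃ (g : ℂ → ℝ) (ρ : ℝ), 0 < ρ ∧ ∀ z ∈ ball x ρ, HarmonicAt g z ∧ (‖z‖ < 1 → g z = U z) := by
  obtain ⟨g, hg, he⟩ := h
  obtain ⟨ρ, hρ, hb⟩ := Metric.eventually_nhds_iff_ball.1 (hg.eventually.and he)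
  exact ⟨g, ρ, hρ, hb⟩

theorem extd_unif {U : ℂ → ℝ} (hE : ∀ x, ‖x‖ = 1 → Ext U x) :
    ∃ δ : ℝ, 0 < δ ∧ δ ≤ 1 ∧ ∀ x : ℂ, ‖x‖ = 1 →
      ∃ g : ℂ → ℝ, ∀ z ∈ ball x δ, HarmonicAt g z ∧ (‖z‖ < 1 → g z = U z) := by
  have h1 : ∀ x : sphere (0 : ℂ) 1, ∃ (g : ℂ → ℝ) (ρ : ℝ), 0 < ρ ∧
      ∀ z ∈ ball (x : ℂ) ρ, HarmonicAt g z ∧ (‖z‖ < 1 → g z = U z) := fun x =>
    extd_local (hE x (mem_sphere_zero_iff_norm.1 x.2))
  choose g ρ hρ h using h1
  obtain ⟨δ, hδ, hL⟩ := lebesgue_number_lemma_of_metric (s := sphere (0 : ℂ) 1)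
    (c := fun x : sphere (0 : ℂ) 1 => ball (x : ℂ) (ρ x)) (isCompact_sphere 0 1)
    (fun _ => isOpen_ball) (fun x hx => mem_iUnion.2 ⟨⟨x, hx⟩, mem_ball_self (hρ _)⟩)
  refine ⟨min δ 1, lt_min hδ one_pos, min_le_right _ _, fun x hx => ?_⟩
  obtain ⟨i, hi⟩ := hL x (mem_sphere_zero_iff_norm.2 hx)
  exact ⟨g i, fun z hz => h i z (hi (ball_subset_ball (min_le_left _ _) hz))⟩

theorem extd_cons {U : ℂ → ℝ} {x y : ℂ} {δ : ℝ} (hδ : 0 < δ) (hδ1 : δ ≤ 1) (hx : ‖x‖ = 1)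
    (hxy : dist x y < δ / 2) {f g : ℂ → ℝ}
    (hf : ∀ z ∈ ball x δ, HarmonicAt f z ∧ (‖z‖ < 1 → f z = U z))
    (hg : ∀ z ∈ ball y δ, HarmonicAt g z ∧ (‖z‖ < 1 → g z = U z)) {w : ℂ}
    (hwx : w ∈ ball x δ) (hwy : w ∈ ball y δ) : f w = g w := by
  have hS : IsPreconnected (ball x δ ∩ ball y δ) :=
    ((convex_ball x δ).inter (convex_ball y δ)).isPreconnected
  set p : ℂ := ((1 - δ / 4 : ℝ) : ℂ) * x with hp
  have hpn : ‖p‖ < 1 := by
    rw [hp, norm_mul, hx, Complex.norm_real, Real.norm_eq_abs, abs_of_nonneg (by linarith)]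
    linarith
  have hpx : dist p x = δ / 4 := by
    have e : p - x = ((-(δ / 4) : ℝ) : ℂ) * x := by
      rw [hp]; push_cast; ring
    rw [dist_eq_norm, e, norm_mul, hx, Complex.norm_real, Real.norm_eq_abs, abs_neg,
      abs_of_nonneg (by linarith), mul_one]
  have hpy : dist p y < δ := by
    have := dist_triangle p x y
    linarith
  have hpbx : p ∈ ball x δ := by rw [mem_ball, hpx]; linarith
  have hgerm : f =ᶠ[𝓝 p] g := by
    have h1 : ∀ᶠ z in 𝓝 p, ‖z‖ < 1 := (continuous_norm.continuousAt).eventually_lt_const hpn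
    filter_upwards [isOpen_ball.mem_nhds hpbx, isOpen_ball.mem_nhds (mem_ball.2 hpy), h1]
      with z hz1 hz2 hz3
    rw [(hf z hz1).2 hz3, (hg z hz2).2 hz3]
  exact (har_ident hS (fun z hz => (hf z hz.1).1) (fun z hz => (hg z hz.2).1)
    ⟨hpbx, mem_ball.2 hpy⟩ hgerm w ⟨hwx, hwy⟩).self_of_nhds

theorem extd_dist {z : ℂ} (hz : 1 ≤ ‖z‖) : ‖z / ‖z‖‖ = 1 ∧ dist z (z / ‖z‖) = ‖z‖ - 1 := by
  have h0 : (‖z‖ : ℂ) ≠ 0 := by
    have : ‖z‖ ≠ 0 := by linarith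
    exact_mod_cast this
  have h1 : ‖z / ‖z‖‖ = 1 := by
    rw [norm_div, Complex.norm_real, norm_norm, div_self (by linarith)]
  refine ⟨h1, ?_⟩
  have e : z - z / ‖z‖ = ((‖z‖ - 1 : ℝ) : ℂ) * (z / ‖z‖) := by
    push_cast
    field_simp
  rw [dist_eq_norm, e, norm_mul, h1, mul_one, Complex.norm_real, Real.norm_eq_abs,
    abs_of_nonneg (by linarith)]

theorem extd {U : ℂ → ℝ} (hU : ∀ z, ‖z‖ < 1 → HarmonicAt U z)
    (hE : ∀ x, ‖x‖ = 1 → Ext U x) :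
    ∃ r : ℝ, 1 < r ∧ ∃ U' : ℂ → ℝ, (∀ z, ‖z‖ < r → HarmonicAt U' z) ∧
      ∀ z, ‖z‖ < 1 → U' z = U z := by
  obtain ⟨δ, hδ, hδ1, h⟩ := extd_unif hE
  choose! g hg using h
  refine ⟨1 + δ, by linarith, fun z => if ‖z‖ < 1 then U z else g (z / ‖z‖) z, ?_, ?_⟩
  · intro z hz
    by_cases h1 : ‖z‖ < 1
    · refine har_congr (hU z h1) ?_
      have h2 : ∀ᶠ w in 𝓝 z, ‖w‖ < 1 := (continuous_norm.continuousAt).eventually_lt_const h1
      filter_upwards [h2] with w hw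
      rw [if_pos hw]
    · have h1' : 1 ≤ ‖z‖ := not_lt.1 h1
      obtain ⟨hx, hd⟩ := extd_dist h1'
      set x : ℂ := z / ‖z‖ with hxdef
      have hzx : z ∈ ball x δ := by rw [mem_ball, hd]; linarith
      refine har_congr (hg x hx z hzx).1 ?_
      have hcont : ContinuousAt (fun w : ℂ => w / (‖w‖ : ℂ)) z := by
        refine ContinuousAt.div continuousAt_id ?_ ?_
        · exact Complex.continuous_ofReal.continuousAt.comp continuous_norm.continuousAt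
        · have : ‖z‖ ≠ 0 := by linarith
          exact_mod_cast this
      have h3 : ∀ᶠ w in 𝓝 z, (w / (‖w‖ : ℂ)) ∈ ball x (δ / 2) :=
        hcont.eventually (isOpen_ball.mem_nhds (mem_ball_self (by linarith)))
      have h4 : ∀ᶠ w in 𝓝 z, ‖w‖ < 1 + δ := (continuous_norm.continuousAt).eventually_lt_const hz
      filter_upwards [isOpen_ball.mem_nhds hzx, h3, h4] with w hw1 hw2 hw3
      by_cases h5 : ‖w‖ < 1
      · rw [if_pos h5]
        exact (hg x hx w hw1).2 h5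
      · rw [if_neg h5]
        obtain ⟨hy, hdy⟩ := extd_dist (not_lt.1 h5)
        have hwy : w ∈ ball (w / (‖w‖ : ℂ)) δ := by
          rw [mem_ball, hdy]; linarith
        rw [mem_ball, dist_comm] at hw2
        exact extd_cons hδ hδ1 hx hw2 (hg x hx) (hg _ hy) hw1 hwy
  · intro z hz
    simp only [if_pos hz]

end MD12

end S_EXTD

section S_GLU

/-! # GLU: gluing harmonic functions on an increasing family of disks

Two harmonic functions on `ball 0 r`, `ball 0 r'` with the same germ at `0` agree on the smaller ball (`har_ident`).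
Choose `U_r` for every `r` and put `U z = U_{r(z)} z` with `r(z) = (‖z‖ + R)/2`, resp. `‖z‖ + 1`.
Near a point `z₀` all `U_{r(z)}` agree with `U_{r₀}`, `r₀` slightly larger than `‖z₀‖`.
-/

namespace MD12

open Complex Metric Set Filter Topology InnerProductSpace
open scoped ComplexConjugate

/-- the common part of the two gluing lemmas -/
theorem glu_aux {f : ℂ → ℝ} {P : ℝ → Prop} {ρ : ℂ → ℝ} {D : Set ℂ} (hD : IsOpen D)
    (hz : ∀ z ∈ D, P (ρ z) ∧ ‖z‖ < ρ z)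
    (h : ∀ r : ℝ, P r → ∃ U : ℂ → ℝ, (∀ z, ‖z‖ < r → HarmonicAt U z) ∧ U =ᶠ[𝓝 0] f)
    (h0 : (0 : ℂ) ∈ D) :
    ∃ U : ℂ → ℝ, (∀ z ∈ D, HarmonicAt U z) ∧ U =ᶠ[𝓝 0] f := by
  classical
  choose! U hU hUf using h
  have key : ∀ z₀ ∈ D, (fun z => U (ρ z) z) =ᶠ[𝓝 z₀] U (ρ z₀) := by
    intro z₀ hz₀
    have e1 : ∀ᶠ z in 𝓝 z₀, z ∈ D := hD.mem_nhds hz₀
    have e2 : ∀ᶠ z : ℂ in 𝓝 z₀, ‖z‖ < ρ z₀ :=
      continuous_norm.continuousAt.eventually_lt_const (hz z₀ hz₀).2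
    filter_upwards [e1, e2] with z h1 h2
    have hP := hz z h1
    have hP0 := hz z₀ hz₀
    have hlt : ‖z‖ < min (ρ z) (ρ z₀) := lt_min hP.2 h2
    have h00 : (0 : ℂ) ∈ ball (0 : ℂ) (min (ρ z) (ρ z₀)) :=
      mem_ball_self (lt_of_le_of_lt (norm_nonneg z) hlt)
    have hgerm : U (ρ z) =ᶠ[𝓝 0] U (ρ z₀) := (hUf _ hP.1).trans (hUf _ hP0.1).symm
    have hid := har_ident (convex_ball (0 : ℂ) (min (ρ z) (ρ z₀))).isPreconnected
      (f := U (ρ z)) (g := U (ρ z₀))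
      (fun y hy => hU _ hP.1 y (lt_of_lt_of_le (mem_ball_zero_iff.1 hy) (min_le_left _ _)))
      (fun y hy => hU _ hP0.1 y (lt_of_lt_of_le (mem_ball_zero_iff.1 hy) (min_le_right _ _)))
      h00 hgerm z (mem_ball_zero_iff.2 hlt)
    exact hid.self_of_nhds
  refine ⟨fun z => U (ρ z) z, fun z hzD => ?_, ?_⟩
  · exact har_congr (hU _ (hz z hzD).1 z (hz z hzD).2) (key z hzD).symm
  · exact (key 0 h0).trans (hUf _ (hz 0 h0).1)

theorem glu_ball {f : ℂ → ℝ} {R : ℝ} (hR : 0 < R)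
    (h : ∀ r : ℝ, 0 < r → r < R → ∃ U : ℂ → ℝ, (∀ z, ‖z‖ < r → HarmonicAt U z) ∧ U =ᶠ[𝓝 0] f) :
    ∃ U : ℂ → ℝ, (∀ z, ‖z‖ < R → HarmonicAt U z) ∧ U =ᶠ[𝓝 0] f := by
  obtain ⟨U, hU, hf⟩ := glu_aux (f := f) (P := fun r => 0 < r ∧ r < R)
    (ρ := fun z => (‖z‖ + R) / 2) (D := ball 0 R) isOpen_ball
    (fun z hz => by
      have h1 : ‖z‖ < R := mem_ball_zero_iff.1 hz
      have h2 := norm_nonneg z
      exact ⟨⟨by linarith, by linarith⟩, by linarith⟩)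
    (fun r hr => h r hr.1 hr.2) (mem_ball_self hR)
  exact ⟨U, fun z hz => hU z (mem_ball_zero_iff.2 hz), hf⟩

theorem glu_univ {f : ℂ → ℝ}
    (h : ∀ r : ℝ, 0 < r → ∃ U : ℂ → ℝ, (∀ z, ‖z‖ < r → HarmonicAt U z) ∧ U =ᶠ[𝓝 0] f) :
    ∃ U : ℂ → ℝ, (∀ z, HarmonicAt U z) ∧ U =ᶠ[𝓝 0] f := by
  obtain ⟨U, hU, hf⟩ := glu_aux (f := f) (P := fun r => 0 < r)
    (ρ := fun z => ‖z‖ + 1) (D := Set.univ) isOpen_univ
    (fun z _ => by
      have h2 := norm_nonneg z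
      exact ⟨by linarith, by linarith⟩)
    (fun r hr => h r hr) (mem_univ _)
  exact ⟨U, fun z => hU z (mem_univ z), hf⟩

end MD12

end S_GLU

section S_THN

/-! # THN: the crossing case in normalised position (assembly, helper12) -/

namespace MD12

open Complex Metric Set Filter Topology InnerProductSpace
open scoped ComplexConjugate

theorem GD.Q_smul {C : GD} (ha : C.a = 0) (hd : C.d = 0) (t : ℝ) (z : ℂ) :
    C.Q (t * z) = t * C.Q z := by
  unfold GD.Q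
  rw [ha, hd]
  have : conj C.b * (t * z) = t * (conj C.b * z) := by ring
  rw [this, Complex.re_ofReal_mul]
  ring

theorem thn {γ κ : ℝ} (h0 : γ ≠ 0) (h1 : |γ| < 1) {K : Set ℂ} {V₁ V₂ : ℂ → ℝ} {I₁ I₂ : Finset GD}
    (hN₁ : NL γ κ univ K V₁ I₁) (hN₂ : NL γ κ univ K V₂ I₂) (hV : V₁ =ᶠ[𝓝 0] V₂)
    {A B : GD} (hA : A ∈ I₁) (hB : B ∈ I₂) (hA0 : A.a = 0 ∧ A.d = 0) (hB0 : B.a = 0 ∧ B.d = 0)
    (hAB : ∃ z, A.Q z = 0 ∧ B.Q z ≠ 0) {W : Set ℂ} (hWc : IsPreconnected W)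
    (hW1 : ∀ z ∈ W, ∀ C ∈ I₁, 0 ≤ C.Q z) (hW2 : ∀ z ∈ W, ∀ C ∈ I₂, 0 ≤ C.Q z)
    (hW0 : (0 : ℂ) ∈ closure W) :
    ∃ U : ℂ → ℝ, (∀ z ∈ W, HarmonicAt U z) ∧ U =ᶠ[𝓝 0] V₁ := by
  have hAQ0 : A.Q 0 = 0 := by unfold GD.Q; simp [hA0.2]
  have hBQ0 : B.Q 0 = 0 := by unfold GD.Q; simp [hB0.2]
  by_cases hall : ∀ r : ℝ, 0 < r → ∃ U : ℂ → ℝ, (∀ z, ‖z‖ < r → HarmonicAt U z) ∧ U =ᶠ[𝓝 0] V₁
  · obtain ⟨U, hU, hU'⟩ := glu_univ hall
    exact ⟨U, fun z _ => hU z, hU'⟩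
  push Not at hall
  obtain ⟨r₀, hr₀, hr₀'⟩ := hall
  -- the set of radii
  set S : Set ℝ := {r | 0 < r ∧ ∃ U : ℂ → ℝ, (∀ z, ‖z‖ < r → HarmonicAt U z) ∧ U =ᶠ[𝓝 0] V₁}
    with hS
  have hSne : S.Nonempty := by
    have h2 : HarmonicAt V₁ 0 := har_on_circle hN₁ hA (mem_univ _) hAQ0
    obtain ⟨r, hr, hr'⟩ := Metric.eventually_nhds_iff_ball.mp (har_eventually h2)
    exact ⟨r, hr, V₁, fun z hz => hr' z (by simpa using hz), EventuallyEq.rfl⟩
  have hSb : ∀ r ∈ S, r ≤ r₀ := by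
    rintro r ⟨hr, U, hU, hU'⟩
    by_contra hlt
    push Not at hlt
    exact hr₀' U (fun z hz => hU z (hz.trans hlt)) hU'
  have hSbdd : BddAbove S := ⟨r₀, hSb⟩
  set R : ℝ := sSup S with hRdef
  obtain ⟨r₁, hr₁⟩ := hSne
  have hR0 : 0 < R := hr₁.1.trans_le (le_csSup hSbdd hr₁)
  obtain ⟨U, hU, hUV⟩ := glu_ball (f := V₁) hR0 (by
    intro r hr hrR
    obtain ⟨r', ⟨hr', U, hU, hU'⟩, hrr⟩ := exists_lt_of_lt_csSup ⟨r₁, hr₁⟩ hrR
    exact ⟨U, fun z hz => hU z (hz.trans hrr), hU'⟩)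
  -- scaling
  have hRc : (R : ℂ) ≠ 0 := by exact_mod_cast hR0.ne'
  have hdet : (R : ℂ) * 1 - 0 * 0 ≠ 0 := by simpa using hRc
  have hm : ∀ w : ℂ, ((R : ℂ) * w + 0) / (0 * w + 1) = R * w := by
    intro w
    simp
  have hmA : ∀ w : ℂ, AnalyticAt ℂ (fun w : ℂ => ((R : ℂ) * w + 0) / (0 * w + 1)) w := by
    intro w
    have : (fun w : ℂ => ((R : ℂ) * w + 0) / (0 * w + 1)) = fun w => (R : ℂ) * w := by
      funext w
      exact hm w
    rw [this]
    fun_prop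
  have hQp : ∀ (C : GD) (w : ℂ), (C.pull R 0 0 1 hdet).Q w = C.Q (R * w) := by
    intro C w
    rw [GD.Q_pull _ _ _ _ _ _ (by simp), hm]
    simp
  have hnl₁ := hN₁.pull (B' := univ) hdet (fun w _ => ⟨by simp, mem_univ _⟩)
  have hnl₂ := hN₂.pull (B' := univ) hdet (fun w _ => ⟨by simp, mem_univ _⟩)
  set U' : ℂ → ℝ := fun w => U (((R : ℂ) * w + 0) / (0 * w + 1)) with hU'def
  set V₁' : ℂ → ℝ := fun w => V₁ (((R : ℂ) * w + 0) / (0 * w + 1)) with hV₁'def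
  set V₂' : ℂ → ℝ := fun w => V₂ (((R : ℂ) * w + 0) / (0 * w + 1)) with hV₂'def
  have hU'h : ∀ w, ‖w‖ < 1 → HarmonicAt U' w := by
    intro w hw
    refine har_comp (hmA w) ?_
    apply hU
    rw [hm, norm_mul, Complex.norm_real, Real.norm_eq_abs, abs_of_pos hR0]
    nlinarith
  have htend : Tendsto (fun w : ℂ => ((R : ℂ) * w + 0) / (0 * w + 1)) (𝓝 0) (𝓝 0) := by
    have := (hmA 0).continuousAt.tendsto
    simpa [hm] using this
  have hUV' : U' =ᶠ[𝓝 0] V₁' := htend.eventually hUV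
  have hUV₂' : U' =ᶠ[𝓝 0] V₂' := htend.eventually (hUV.trans hV)
  have hne : ∃ x, ‖x‖ = 1 ∧ ¬ Ext U' x := by
    by_contra hcon
    push Not at hcon
    obtain ⟨r, hr, U'', hU'', hU''e⟩ := extd hU'h hcon
    have hmem : r * R ∈ S := by
      refine ⟨by positivity, fun z => U'' ((R : ℂ)⁻¹ * z), ?_, ?_⟩
      · intro z hz
        refine har_comp (g := fun z => (R : ℂ)⁻¹ * z) (by fun_prop) ?_
        apply hU''
        rw [norm_mul, norm_inv, Complex.norm_real, Real.norm_eq_abs, abs_of_pos hR0,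
          inv_mul_lt_iff₀ hR0]
        linarith
      · have h3 : ∀ᶠ z : ℂ in 𝓝 0, ‖(R : ℂ)⁻¹ * z‖ < 1 := by
          have hc : Continuous (fun z : ℂ => ‖(R : ℂ)⁻¹ * z‖) := by fun_prop
          have hop : IsOpen {z : ℂ | ‖(R : ℂ)⁻¹ * z‖ < 1} := isOpen_lt hc continuous_const
          exact hop.mem_nhds (by simp)
        filter_upwards [h3, hUV] with z hz hz2
        show U'' ((R : ℂ)⁻¹ * z) = V₁ z
        rw [hU''e _ hz, hU'def]
        simp only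
        rw [hm, mul_inv_cancel_left₀ hRc]
        exact hz2
    have := le_csSup hSbdd hmem
    nlinarith
  -- the good half planes
  have hgA : Good U' V₁' (A.pull R 0 0 1 hdet) := by
    refine ⟨0, by simp, ?_, hUV'⟩
    rw [hQp, mul_zero]
    exact hAQ0
  have hgB : Good U' V₂' (B.pull R 0 0 1 hdet) := by
    refine ⟨0, by simp, ?_, hUV₂'⟩
    rw [hQp, mul_zero]
    exact hBQ0
  have haA : (A.pull R 0 0 1 hdet).a = (A.pull R 0 0 1 hdet).d := by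
    simp [GD.pull, hA0.1, hA0.2]
  have haB : (B.pull R 0 0 1 hdet).a = (B.pull R 0 0 1 hdet).d := by
    simp [GD.pull, hB0.1, hB0.2]
  have hmemA : A.pull R 0 0 1 hdet ∈ pullI R 0 0 1 hdet I₁ := mem_pullI.mpr ⟨A, hA, rfl⟩
  have hmemB : B.pull R 0 0 1 hdet ∈ pullI R 0 0 1 hdet I₂ := mem_pullI.mpr ⟨B, hB, rfl⟩
  have P : PK γ κ U' V₁' V₂' (pullI R 0 0 1 hdet I₁) (pullI R 0 0 1 hdet I₂) :=
    { har := hU'h
      nl := ⟨univ, _, subset_univ _, hnl₁, hnl₂⟩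
      ne := hne
      sm₁ := nsm h0 (subset_univ _) hU'h hnl₁ hne hmemA hgA haA
      sm₂ := nsm h0 (subset_univ _) hU'h hnl₂ hne hmemB hgB haB }
  have hcrs : Crs (A.pull R 0 0 1 hdet) (B.pull R 0 0 1 hdet) := by
    obtain ⟨z, hz1, hz2⟩ := hAB
    have hz0 : z ≠ 0 := by
      rintro rfl
      exact hz2 hBQ0
    have hzn : (‖z‖ : ℂ) ≠ 0 := by
      exact_mod_cast (norm_pos_iff.mpr hz0).ne'
    refine ⟨0, by simp, ?_, ?_, ((‖z‖⁻¹ : ℝ) : ℂ) * z, ?_, ?_, ?_⟩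
    · rw [hQp, mul_zero]; exact hAQ0
    · rw [hQp, mul_zero]; exact hBQ0
    · rw [norm_mul, Complex.norm_real, norm_inv, norm_norm, inv_mul_cancel₀]
      exact norm_ne_zero_iff.mpr hz0
    · rw [hQp, GD.Q_smul hA0.1 hA0.2, GD.Q_smul hA0.1 hA0.2, hz1]
      simp
    · rw [hQp, GD.Q_smul hB0.1 hB0.2, GD.Q_smul hB0.1 hB0.2]
      have h5 : ‖z‖⁻¹ ≠ 0 := inv_ne_zero (norm_ne_zero_iff.mpr hz0)
      exact mul_ne_zero hR0.ne' (mul_ne_zero h5 hz2)
  have hcover : ∀ z : ℂ, ‖z‖ = R → (∃ C ∈ I₁, C.Q z < 0) ∨ ∃ C ∈ I₂, C.Q z < 0 := by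
    intro z hz
    have hx : ‖(R : ℂ)⁻¹ * z‖ = 1 := by
      rw [norm_mul, norm_inv, Complex.norm_real, Real.norm_eq_abs, abs_of_pos hR0, hz]
      exact inv_mul_cancel₀ hR0.ne'
    rcases chain h0 h1 P ⟨hmemA, hgA, haA⟩ ⟨hmemB, hgB, haB⟩ hcrs hx with ⟨C, hC, hQ⟩ | ⟨C, hC, hQ⟩
    · obtain ⟨C₀, hC₀, rfl⟩ := mem_pullI.mp hC
      rw [hQp, mul_inv_cancel_left₀ hRc] at hQ
      exact Or.inl ⟨C₀, hC₀, hQ⟩
    · obtain ⟨C₀, hC₀, rfl⟩ := mem_pullI.mp hC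
      rw [hQp, mul_inv_cancel_left₀ hRc] at hQ
      exact Or.inr ⟨C₀, hC₀, hQ⟩
  have hWR : ∀ z ∈ W, ‖z‖ < R := by
    intro z hz
    by_contra hge
    push Not at hge
    -- a point of `W` near `0`
    obtain ⟨w, hwW, hw⟩ : ∃ w ∈ W, ‖w‖ < R := by
      rw [Metric.mem_closure_iff] at hW0
      obtain ⟨w, hw, hw'⟩ := hW0 R hR0
      exact ⟨w, hw, by simpa [dist_eq_norm] using hw'⟩
    have hIVT := hWc.intermediate_value hwW hz continuous_norm.continuousOn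
    obtain ⟨v, hv, hv'⟩ := hIVT ⟨hw.le, hge⟩
    rcases hcover v hv' with ⟨C, hC, hQ⟩ | ⟨C, hC, hQ⟩
    · exact absurd (hW1 v hv C hC) (not_le.mpr hQ)
    · exact absurd (hW2 v hv C hC) (not_le.mpr hQ)
  exact ⟨U, fun z hz => hU z (hWR z hz), hUV⟩

end MD12

end S_THN
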