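import Pool.Agent.H12.MDM.A
import Pool.Agent.H12.MDM.B
import Pool.Agent.H12.MDM.D
import Mathlib

/-! Multiple disks, part E (several modules joined). -/

section S_THTd

/-! # THTd: half planes (tangent case)

`HasU.out`: (1) on the quarter plane `{r < Re, ρ < Im}` (convex, contained in `{ρ < ‖·‖}`) `U` and `V` are harmonic, and equal where
`ρ < Re`: `har_ident` (if `r < ρ`; in general use `max`); the same for `Im < -ρ`.
(2) `z` with `r < Re z`, `ρ < ‖z‖`, `0 ≤ Im z`: `har_ident` along the vertical ray `{z + t i | 0 ≤ t}`, which is in `{ρ < ‖·‖}` and reaches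
the quarter plane; `Im z < 0`: downwards.
`HasU.unique`: the half plane `{r < Re}` is convex.
-/

namespace MD12

open Complex Metric Set Filter Topology InnerProductSpace
open scoped ComplexConjugate

/-- `f`, defined on the half plane `{r < Re z}`, extends harmonically near `x` -/
def ExtH (r : ℝ) (f : ℂ → ℝ) (x : ℂ) : Prop :=
  ∃ g : ℂ → ℝ, HarmonicAt g x ∧ ∀ᶠ z : ℂ in 𝓝 x, r < z.re → g z = f z

/-- `U` is harmonic on the half plane `{r < Re z}` and equal to `V` for `ρ < Re z` -/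
def HasU (V : ℂ → ℝ) (ρ r : ℝ) (U : ℂ → ℝ) : Prop :=
  (∀ z : ℂ, r < z.re → HarmonicAt U z) ∧ ∀ z : ℂ, ρ < z.re → U z = V z

private theorem thtd_side {V : ℂ → ℝ} {ρ r : ℝ} (hρ : 0 < ρ)
    (hV : ∀ z, ρ < ‖z‖ → HarmonicAt V z) {U : ℂ → ℝ} (hU : HasU V ρ r U) {s : ℝ}
    (hs : s = 1 ∨ s = -1) {z : ℂ} (h1 : r < z.re) (h2 : ρ < ‖z‖) (h3 : 0 ≤ s * z.im) :
    U =ᶠ[𝓝 z] V := by
  have hss : s * s = 1 := by rcases hs with h | h <;> rw [h] <;> norm_num
  have hsa : |s| = 1 := by rcases hs with h | h <;> rw [h] <;> norm_num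
  -- the quarter plane
  have hS : Convex ℝ {w : ℂ | r < w.re ∧ ρ < s * w.im} := by
    have hA : Convex ℝ {w : ℂ | r < w.re} := convex_halfSpace_re_gt r
    have hB : Convex ℝ {w : ℂ | ρ < s * w.im} := by
      intro x hx y hy a b ha hb hab
      simp only [mem_setOf_eq] at hx hy ⊢
      have e : s * (a • x + b • y).im = a * (s * x.im) + b * (s * y.im) := by
        simp
        ring
      rw [e]
      rcases eq_or_lt_of_le ha with h | h
      · subst h
        have : b = 1 := by linarith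
        subst this
        linarith
      · nlinarith
    exact hA.inter hB
  have hquart : ∀ w ∈ {w : ℂ | r < w.re ∧ ρ < s * w.im}, U =ᶠ[𝓝 w] V := by
    have hx : (⟨max r ρ + 1, s * (ρ + 1)⟩ : ℂ) ∈ {w : ℂ | r < w.re ∧ ρ < s * w.im} := by
      refine ⟨?_, ?_⟩
      · have := le_max_left r ρ
        show r < max r ρ + 1
        linarith
      · show ρ < s * (s * (ρ + 1))
        rw [← mul_assoc, hss]
        linarith
    refine har_ident hS.isPreconnected (fun w hw => hU.1 w hw.1) (fun w hw => hV w ?_) hx ?_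
    · have h4 := Complex.abs_im_le_norm w
      have h5 : s * w.im ≤ |w.im| := by
        have := le_abs_self (s * w.im)
        rwa [abs_mul, hsa, one_mul] at this
      exact lt_of_lt_of_le hw.2 (h5.trans h4)
    · have hop : IsOpen {w : ℂ | ρ < w.re} := isOpen_lt continuous_const Complex.continuous_re
      have hmem : (⟨max r ρ + 1, s * (ρ + 1)⟩ : ℂ) ∈ {w : ℂ | ρ < w.re} := by
        have := le_max_right r ρ
        show ρ < max r ρ + 1
        linarith
      filter_upwards [hop.mem_nhds hmem] with w hw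
      exact hU.2 w hw
  -- the vertical ray
  have hR : Convex ℝ {w : ℂ | w.re = z.re ∧ s * z.im ≤ s * w.im} := by
    intro x hx y hy a b ha hb hab
    simp only [mem_setOf_eq] at hx hy ⊢
    obtain ⟨hx1, hx2⟩ := hx
    obtain ⟨hy1, hy2⟩ := hy
    refine ⟨?_, ?_⟩
    · have e : (a • x + b • y).re = a * x.re + b * y.re := by simp
      rw [e, hx1, hy1, ← add_mul, hab, one_mul]
    · have e : s * (a • x + b • y).im = a * (s * x.im) + b * (s * y.im) := by
        simp
        ring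
      rw [e]
      have e2 : s * z.im = a * (s * z.im) + b * (s * z.im) := by
        rw [← add_mul, hab, one_mul]
      rw [e2]
      exact add_le_add (mul_le_mul_of_nonneg_left hx2 ha) (mul_le_mul_of_nonneg_left hy2 hb)
  have hx : (⟨z.re, s * (s * z.im + ρ + 1)⟩ : ℂ) ∈
      {w : ℂ | w.re = z.re ∧ s * z.im ≤ s * w.im} := by
    refine ⟨rfl, ?_⟩
    show s * z.im ≤ s * (s * (s * z.im + ρ + 1))
    rw [← mul_assoc, hss]
    linarith
  refine har_ident hR.isPreconnected (fun w hw => hU.1 w (by rw [hw.1]; exact h1))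
    (fun w hw => hV w ?_) hx (hquart _ ?_) z ⟨rfl, le_refl _⟩
  · refine lt_of_lt_of_le h2 ?_
    rw [← Real.sqrt_sq (norm_nonneg z), ← Real.sqrt_sq (norm_nonneg w)]
    refine Real.sqrt_le_sqrt ?_
    rw [← Complex.normSq_eq_norm_sq, ← Complex.normSq_eq_norm_sq, Complex.normSq_apply,
      Complex.normSq_apply, hw.1]
    have h6 : (s * z.im) * (s * z.im) ≤ (s * w.im) * (s * w.im) :=
      mul_self_le_mul_self h3 hw.2
    have h7 : (s * z.im) * (s * z.im) = z.im * z.im := by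
      rw [mul_mul_mul_comm, hss, one_mul]
    have h8 : (s * w.im) * (s * w.im) = w.im * w.im := by
      rw [mul_mul_mul_comm, hss, one_mul]
    linarith
  · refine ⟨h1, ?_⟩
    show ρ < s * (s * (s * z.im + ρ + 1))
    rw [← mul_assoc, hss]
    linarith

theorem HasU.out {V : ℂ → ℝ} {ρ r : ℝ} (hρ : 0 < ρ) (hV : ∀ z, ρ < ‖z‖ → HarmonicAt V z)
    {U : ℂ → ℝ} (hU : HasU V ρ r U) {z : ℂ} (h1 : r < z.re) (h2 : ρ < ‖z‖) : U =ᶠ[𝓝 z] V := by
  rcases le_total 0 z.im with h | h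
  · exact thtd_side hρ hV hU (Or.inl rfl) h1 h2 (by linarith)
  · exact thtd_side hρ hV hU (Or.inr rfl) h1 h2 (by linarith)

theorem HasU.unique {V : ℂ → ℝ} {ρ r : ℝ} {U U' : ℂ → ℝ} (hU : HasU V ρ r U)
    (hU' : HasU V ρ r U') {z : ℂ} (h1 : r < z.re) : U =ᶠ[𝓝 z] U' := by
  have hA : Convex ℝ {w : ℂ | r < w.re} := convex_halfSpace_re_gt r
  have hx : ((max r ρ + 1 : ℝ) : ℂ) ∈ {w : ℂ | r < w.re} := by
    have := le_max_left r ρ
    show r < ((max r ρ + 1 : ℝ) : ℂ).re
    rw [Complex.ofReal_re]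
    linarith
  refine har_ident hA.isPreconnected (fun w hw => hU.1 w hw) (fun w hw => hU'.1 w hw) hx ?_ z h1
  have hop : IsOpen {w : ℂ | ρ < w.re} := isOpen_lt continuous_const Complex.continuous_re
  have hmem : ((max r ρ + 1 : ℝ) : ℂ) ∈ {w : ℂ | ρ < w.re} := by
    have := le_max_right r ρ
    show ρ < ((max r ρ + 1 : ℝ) : ℂ).re
    rw [Complex.ofReal_re]
    linarith
  filter_upwards [hop.mem_nhds hmem] with w hw
  rw [hU.2 w hw, hU'.2 w hw]

end MD12

end S_THTd

section S_THTa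

/-! # THTa: reflection in a horizontal line (tangent case)

`A.Q z = 2 (b.re z.re + b.im z.im) + d` (`a = 0`); it vanishes exactly on `Im z = α`: so `b.re = 0`, `d = -2 α b.im`, `b.im ≠ 0`
(by `pos`), `A.den z = conj b ≠ 0` and `A.R z = conj z + 2 α i` (preserves `Re` and the line).
`V` is harmonic on the line (`har_on_circle`).
(1) `U =ᶠ[𝓝 z] V` for all `z` on the line with `r < Re z`: the half line `{Im z = α, r < Re z}` is convex, contains points with
`ρ < Re z` (`V = U` near such points), `har_ident`.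
(2) for `x` with `Re x = r`, `Im x = α`: on a small ball `b` around `x` where `V` is harmonic, `b ∩ {r < Re}` is convex and contains
points of the line: `U = V` there: `ExtH r U x`.
(3) Let `h` be from `hN.ts A hA`.  On the quarter plane `{A.Q < 0, r < Re z}` (convex) the functions `U - γ U ∘ R` and `κ h` are
harmonic; they agree near a point close to the boundary line (by (1), `ts`, `A.R y = y`, continuity of `R`), so everywhere (`har_ident`).
(4) Let `Re x = r`, `A.Q x < 0`: `h` is harmonic at `x`, so `U - γ U∘R` has an extension near `x`; therefore `ExtH r U (R x)` (which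
gives an extension of `U ∘ R` near `x`, by `har_comp_anti`) is equivalent to `ExtH r U x` (`γ ≠ 0`).
(5) `A.Q x > 0`: apply (4) to `R x` (`R (R x) = x`).
-/

namespace MD12

open Complex Metric Set Filter Topology InnerProductSpace
open scoped ComplexConjugate

theorem thta_facts {A : GD} (ha : A.a = 0) {α : ℝ} (hQ : ∀ z, A.Q z = 0 ↔ z.im = α) :
    A.b.im ≠ 0 ∧ (∀ z, A.Q z = 2 * A.b.im * (z.im - α)) ∧
      ∀ z, A.R z = conj z + 2 * α * Complex.I := by
  have e : ∀ z, A.Q z = 2 * (A.b.re * z.re + A.b.im * z.im) + A.d := by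
    intro z
    unfold GD.Q
    rw [ha]
    simp only [Complex.mul_re, Complex.conj_re, Complex.conj_im]
    ring
  have h1 := (hQ ⟨0, α⟩).2 rfl
  have h2 := (hQ ⟨1, α⟩).2 rfl
  rw [e] at h1 h2
  simp only at h1 h2
  have hre : A.b.re = 0 := by linarith
  have hd : A.d = -(2 * A.b.im * α) := by
    rw [hre] at h1
    linarith
  have him : A.b.im ≠ 0 := by
    intro h0
    have h3 : A.b = 0 := Complex.ext hre h0
    have h4 := A.pos
    rw [ha, h3] at h4
    simp at h4
  refine ⟨him, fun z => ?_, fun z => ?_⟩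
  · rw [e, hre, hd]
    ring
  · unfold GD.R
    have hb : A.b = A.b.im * Complex.I := by
      apply Complex.ext
      · simp [hre]
      · simp
    have hbc : conj A.b = -(A.b.im * Complex.I) := by
      rw [hb]
      apply Complex.ext
      · simp
      · simp
    have hc : (A.b.im : ℂ) ≠ 0 := by exact_mod_cast him
    rw [ha, hd, hbc]
    rw [show A.b * conj z = A.b.im * Complex.I * conj z by rw [← hb]]
    push_cast
    have hI : (A.b.im : ℂ) * Complex.I ≠ 0 := mul_ne_zero hc Complex.I_ne_zero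
    rw [zero_mul, zero_add, neg_div_neg_eq, div_eq_iff hI]
    have hII : Complex.I * Complex.I = -1 := Complex.I_mul_I
    linear_combination (-2 * (α : ℂ) * (A.b.im : ℂ)) * hII

theorem thta_sig_re (α : ℝ) (z : ℂ) : (conj z + 2 * α * Complex.I).re = z.re := by
  simp

theorem thta_sig_im (α : ℝ) (z : ℂ) : (conj z + 2 * α * Complex.I).im = 2 * α - z.im := by
  simp
  ring

theorem thta_sig_sig (α : ℝ) (z : ℂ) :
    conj (conj z + 2 * α * Complex.I) + 2 * α * Complex.I = z := by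
  apply Complex.ext
  · rw [thta_sig_re, thta_sig_re]
  · rw [thta_sig_im, thta_sig_im]
    ring

theorem thta_sig_cont (α : ℝ) : Continuous fun z : ℂ => conj z + 2 * α * Complex.I := by
  fun_prop

theorem thta_sig_har (α : ℝ) {f : ℂ → ℝ} {x : ℂ}
    (hf : HarmonicAt f (conj x + 2 * α * Complex.I)) :
    HarmonicAt (fun z => f (conj z + 2 * α * Complex.I)) x := by
  refine har_comp_anti (g := fun z => conj z + 2 * α * Complex.I) ?_ hf
  have h1 : (fun z : ℂ => conj (conj z + 2 * α * Complex.I)) =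
      fun z => z - 2 * α * Complex.I := by
    funext z
    apply Complex.ext
    · simp
    · simp
      ring
  rw [h1]
  fun_prop

theorem thta_sig_tendsto (α : ℝ) (x : ℂ) :
    Tendsto (fun z : ℂ => conj z + 2 * α * Complex.I) (𝓝 x)
      (𝓝 (conj x + 2 * α * Complex.I)) :=
  (thta_sig_cont α).continuousAt

theorem thta_re_pos (r : ℝ) : IsOpen {z : ℂ | r < z.re} :=
  isOpen_lt continuous_const Complex.continuous_re

/-- (1) -/
theorem thta_line {γ κ : ℝ} {K : Set ℂ} {V : ℂ → ℝ} {I : Finset GD}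
    (hN : NL γ κ univ K V I) {A : GD} (hA : A ∈ I) {α : ℝ}
    (hQ : ∀ z, A.Q z = 0 ↔ z.im = α) {ρ r : ℝ} {U : ℂ → ℝ} (hU : HasU V ρ r U) :
    ∀ z : ℂ, z.im = α → r < z.re → U =ᶠ[𝓝 z] V := by
  have hconv : Convex ℝ {z : ℂ | z.im = α ∧ r < z.re} := by
    have h1 : Convex ℝ {z : ℂ | z.im = α} := by
      have := (convex_singleton α).is_linear_preimage (𝕜 := ℝ) (f := fun z : ℂ => z.im)
        ⟨fun _ _ => rfl, fun c z => by simp⟩
      exact this
    exact h1.inter (convex_halfSpace_re_gt r)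
  have h := har_ident hconv.isPreconnected (f := U) (g := V) (fun z hz => hU.1 z hz.2)
    (fun z hz => har_on_circle hN hA (mem_univ _) ((hQ z).2 hz.1))
    (x := ⟨max r ρ + 1, α⟩) ⟨rfl, by
      show r < max r ρ + 1
      linarith [le_max_left r ρ]⟩ (by
      have h2 : ρ < (⟨max r ρ + 1, α⟩ : ℂ).re := by
        show ρ < max r ρ + 1
        linarith [le_max_right r ρ]
      filter_upwards [(thta_re_pos ρ).mem_nhds h2] with z hz
      exact hU.2 z hz)
  exact fun z h1 h2 => h z ⟨h1, h2⟩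

/-- (2) -/
theorem thta_on {γ κ : ℝ} {K : Set ℂ} {V : ℂ → ℝ} {I : Finset GD}
    (hN : NL γ κ univ K V I) {A : GD} (hA : A ∈ I) {α : ℝ}
    (hQ : ∀ z, A.Q z = 0 ↔ z.im = α) {ρ r : ℝ} {U : ℂ → ℝ} (hU : HasU V ρ r U) {x : ℂ}
    (hx : x.re = r) (hxα : x.im = α) : ExtH r U x := by
  have hVx : HarmonicAt V x := har_on_circle hN hA (mem_univ _) ((hQ x).2 hxα)
  obtain ⟨ε, hε, hb⟩ := Metric.eventually_nhds_iff_ball.1 (har_eventually hVx)
  have hconv : Convex ℝ (ball x ε ∩ {z : ℂ | r < z.re}) :=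
    (convex_ball x ε).inter (convex_halfSpace_re_gt r)
  have hw1 : (x + (ε / 2 : ℝ)).im = α := by simp [hxα]
  have hw2 : r < (x + (ε / 2 : ℝ)).re := by
    rw [Complex.add_re, Complex.ofReal_re, hx]
    linarith
  have hw3 : x + (ε / 2 : ℝ) ∈ ball x ε := by
    rw [mem_ball_iff_norm, add_sub_cancel_left, Complex.norm_real, Real.norm_eq_abs,
      abs_of_pos (by linarith)]
    linarith
  have h := har_ident hconv.isPreconnected (f := U) (g := V) (fun z hz => hU.1 z hz.2)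
    (fun z hz => hb z hz.1) (x := x + (ε / 2 : ℝ)) ⟨hw3, hw2⟩ (thta_line hN hA hQ hU _ hw1 hw2)
  refine ⟨V, hVx, ?_⟩
  filter_upwards [ball_mem_nhds x hε] with z hz hzr
  exact (h z ⟨hz, hzr⟩).self_of_nhds.symm

/-- (3) -/
theorem thta_quarter {γ κ : ℝ} {K : Set ℂ} {V : ℂ → ℝ} {I : Finset GD}
    (hN : NL γ κ univ K V I) {A : GD} (hA : A ∈ I) (ha : A.a = 0) {α : ℝ}
    (hQ : ∀ z, A.Q z = 0 ↔ z.im = α) {ρ r : ℝ} {U : ℂ → ℝ} (hU : HasU V ρ r U) :
    ∃ h : ℂ → ℝ, (∀ z, A.Q z < 0 → HarmonicAt h z) ∧ ∀ z : ℂ, A.Q z < 0 → r < z.re →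
      U z - γ * U (conj z + 2 * α * Complex.I) = κ * h z := by
  obtain ⟨hb0, hQe, hRe⟩ := thta_facts ha hQ
  obtain ⟨h, hh, hts⟩ := hN.ts A hA
  refine ⟨h, fun z hz => hh z (mem_univ _) hz, ?_⟩
  have hconv : Convex ℝ ({z : ℂ | A.Q z < 0} ∩ {z : ℂ | r < z.re}) := by
    have h1 : Convex ℝ {z : ℂ | A.Q z < 0} := by
      have h2 : {z : ℂ | A.Q z < 0} = (fun z : ℂ => A.b.im * z.im) ⁻¹' Set.Iio (A.b.im * α) := by
        ext z
        simp only [Set.mem_ofPred_eq, mem_preimage, mem_Iio]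
        rw [hQe]
        constructor <;> intro h3 <;> nlinarith
      rw [h2]
      exact (convex_Iio _).is_linear_preimage (𝕜 := ℝ)
        ⟨fun x y => by simp only [Complex.add_im]; ring, fun c z => by
          simp only [Complex.real_smul, Complex.mul_im, Complex.ofReal_re, Complex.ofReal_im,
            smul_eq_mul]
          ring⟩
    exact h1.inter (convex_halfSpace_re_gt r)
  -- a point near the line
  have hy : (⟨r + 1, α⟩ : ℂ).im = α := rfl
  have hyr : r < (⟨r + 1, α⟩ : ℂ).re := by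
    show r < r + 1
    linarith
  generalize (⟨r + 1, α⟩ : ℂ) = y at hy hyr
  have hsy : conj y + 2 * α * Complex.I = y := by
    apply Complex.ext
    · rw [thta_sig_re]
    · rw [thta_sig_im, hy]
      ring
  have e1 := thta_line hN hA hQ hU y hy hyr
  have e2 : ∀ᶠ z in 𝓝 y, U (conj z + 2 * α * Complex.I) = V (conj z + 2 * α * Complex.I) := by
    have h3 := thta_sig_tendsto α y
    rw [hsy] at h3
    exact h3.eventually e1
  have e3 := hts y (mem_univ _) ((hQ y).2 hy)
  have e4 : ∀ᶠ z in 𝓝 y, r < z.re ∧ (A.Q z < 0 →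
      U z - γ * U (conj z + 2 * α * Complex.I) = κ * h z) := by
    filter_upwards [e1, e2, e3, (thta_re_pos r).mem_nhds hyr] with z h1 h2 h3 h4
    refine ⟨h4, fun h5 => ?_⟩
    rw [h1, h2, ← hRe]
    exact h3 h5
  obtain ⟨ε, hε, hball⟩ := Metric.eventually_nhds_iff_ball.1 e4
  set t : ℝ := ε / (2 * (|A.b.im| + 1)) with ht
  have habs : 0 < |A.b.im| + 1 := by positivity
  have ht0 : 0 < t := by positivity
  have hwb : y - (t * A.b.im : ℝ) * Complex.I ∈ ball y ε := by
    rw [mem_ball_iff_norm, sub_sub_cancel_left, norm_neg, norm_mul, Complex.norm_I, mul_one,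
      Complex.norm_real, Real.norm_eq_abs, abs_mul, abs_of_pos ht0]
    have h6 : t * (|A.b.im| + 1) = ε / 2 := by
      rw [ht]
      field_simp
    nlinarith
  have hwQ : A.Q (y - (t * A.b.im : ℝ) * Complex.I) < 0 := by
    rw [hQe]
    have h7 : (y - (t * A.b.im : ℝ) * Complex.I).im = α - t * A.b.im := by
      rw [Complex.sub_im, hy]
      simp
    rw [h7]
    have h8 : 0 < A.b.im * A.b.im := mul_self_pos.2 hb0
    nlinarith [mul_pos ht0 h8]
  generalize y - (t * A.b.im : ℝ) * Complex.I = w at hwb hwQ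
  have hwr := (hball w hwb).1
  have key := har_ident hconv.isPreconnected
    (f := fun z => U z - γ * U (conj z + 2 * α * Complex.I)) (g := fun z => κ * h z)
    (fun z hz => har_sub (hU.1 z hz.2) (har_const_mul γ (thta_sig_har α (hU.1 _ (by
      rw [thta_sig_re]
      exact hz.2)))))
    (fun z hz => har_const_mul κ (hh z (mem_univ _) hz.1)) (x := w) ⟨hwQ, hwr⟩ (by
      filter_upwards [isOpen_ball.mem_nhds hwb, A.isOpen.mem_nhds hwQ] with z h1 h2
      exact (hball z h1).2 h2)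
  intro z h1 h2
  exact (key z ⟨h1, h2⟩).self_of_nhds

/-- (4) -/
theorem thta_neg {γ κ : ℝ} (h0 : γ ≠ 0) {K : Set ℂ} {V : ℂ → ℝ} {I : Finset GD}
    (hN : NL γ κ univ K V I) {A : GD} (hA : A ∈ I) (ha : A.a = 0) {α : ℝ}
    (hQ : ∀ z, A.Q z = 0 ↔ z.im = α) {ρ r : ℝ} {U : ℂ → ℝ} (hU : HasU V ρ r U) {x : ℂ}
    (hxQ : A.Q x < 0) : ExtH r U (conj x + 2 * α * Complex.I) ↔ ExtH r U x := by
  obtain ⟨h, hh, hid⟩ := thta_quarter hN hA ha hQ hU
  constructor
  · rintro ⟨g, hg, he⟩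
    refine ⟨fun z => γ * g (conj z + 2 * α * Complex.I) + κ * h z,
      har_add (har_const_mul γ (thta_sig_har α hg)) (har_const_mul κ (hh x hxQ)), ?_⟩
    filter_upwards [(thta_sig_tendsto α x).eventually he, A.isOpen.mem_nhds hxQ] with z h1 h2 h3
    rw [h1 (by rw [thta_sig_re]; exact h3)]
    have h4 := hid z h2 h3
    linarith
  · rintro ⟨g, hg, he⟩
    have hxx := thta_sig_sig α x
    have hg' : HarmonicAt g (conj (conj x + 2 * α * Complex.I) + 2 * α * Complex.I) := by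
      rw [hxx]
      exact hg
    have hh' : HarmonicAt h (conj (conj x + 2 * α * Complex.I) + 2 * α * Complex.I) := by
      rw [hxx]
      exact hh x hxQ
    refine ⟨fun z => γ⁻¹ * (g (conj z + 2 * α * Complex.I) - κ * h (conj z + 2 * α * Complex.I)),
      har_const_mul _ (har_sub (thta_sig_har α hg') (har_const_mul κ (thta_sig_har α hh'))), ?_⟩
    have h5 := thta_sig_tendsto α (conj x + 2 * α * Complex.I)
    rw [hxx] at h5
    filter_upwards [h5.eventually he, h5.eventually (A.isOpen.mem_nhds hxQ)] with z h1 h2 h3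
    have h6 : r < (conj z + 2 * α * Complex.I).re := by
      rw [thta_sig_re]
      exact h3
    have h4 := hid _ h2 h6
    rw [thta_sig_sig] at h4
    rw [h1 h6, ← h4]
    field_simp
    ring

theorem tht_mirror {γ κ : ℝ} (h0 : γ ≠ 0) {K : Set ℂ} {V : ℂ → ℝ} {I : Finset GD}
    (hN : NL γ κ univ K V I) {A : GD} (hA : A ∈ I) (ha : A.a = 0) {α : ℝ}
    (hQ : ∀ z, A.Q z = 0 ↔ z.im = α) {ρ r : ℝ} {U : ℂ → ℝ} (hU : HasU V ρ r U) {x : ℂ}
    (hx : x.re = r) :
    (ExtH r U (conj x + 2 * α * Complex.I) ↔ ExtH r U x) ∧ (x.im = α → ExtH r U x) := by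
  obtain ⟨hb0, hQe, -⟩ := thta_facts ha hQ
  refine ⟨?_, fun hxα => thta_on hN hA hQ hU hx hxα⟩
  rcases lt_trichotomy (A.Q x) 0 with hneg | hz | hpos
  · exact thta_neg h0 hN hA ha hQ hU hneg
  · have hxα := (hQ x).1 hz
    have hsx : conj x + 2 * α * Complex.I = x := by
      apply Complex.ext
      · rw [thta_sig_re]
      · rw [thta_sig_im, hxα]
        ring
    rw [hsx]
  · have hneg : A.Q (conj x + 2 * α * Complex.I) < 0 := by
      rw [hQe] at hpos ⊢
      rw [thta_sig_im]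
      nlinarith
    have h1 := thta_neg h0 hN hA ha hQ hU hneg
    rw [thta_sig_sig] at h1
    exact h1.symm

end MD12

end S_THTa

section S_THTb

/-! # THTb: two parallel mirrors: `U` extends across the whole line `Re x = r`

Suppose `¬ ExtH r U x₀`, `Re x₀ = r`.  `HasU V₁ ρ r U` and `V₂ = V₁` for `ρ < ‖z‖` give `HasU V₂ ρ r U`.
By `tht_mirror` (for `V₁`, `A`, `α` and for `V₂`, `B`, `β`) the set of such points is
invariant under `x ↦ conj x + 2 α i` and `x ↦ conj x + 2 β i`, so under `x ↦ x + 2 (α - β) i`.  So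
`¬ ExtH r U (x₀ + 2 n (α - β) i)` for all `n : ℕ`.  For large `n` the norm is `> ρ`; there `V₁` is harmonic and equal to `U` on
the right hand side (`HasU.out`), so `ExtH` holds: contradiction.
-/

namespace MD12

open Complex Metric Set Filter Topology InnerProductSpace
open scoped ComplexConjugate

theorem tht_all {γ κ : ℝ} (h0 : γ ≠ 0) {K : Set ℂ} {V₁ V₂ : ℂ → ℝ} {I₁ I₂ : Finset GD}
    (hN₁ : NL γ κ univ K V₁ I₁) (hN₂ : NL γ κ univ K V₂ I₂) {A B : GD} (hA : A ∈ I₁)
    (hB : B ∈ I₂) (ha : A.a = 0) (hb : B.a = 0) {α β : ℝ} (hQA : ∀ z, A.Q z = 0 ↔ z.im = α)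
    (hQB : ∀ z, B.Q z = 0 ↔ z.im = β) (hαβ : α ≠ β) {ρ r : ℝ} (hρ : 0 < ρ)
    (hVh : ∀ z, ρ < ‖z‖ → HarmonicAt V₁ z) (hV : ∀ z, ρ < ‖z‖ → V₁ z = V₂ z) {U : ℂ → ℝ}
    (hU : HasU V₁ ρ r U) {x : ℂ} (hx : x.re = r) : ExtH r U x := by
  have hU₂ : HasU V₂ ρ r U := by
    refine ⟨hU.1, fun z hz => ?_⟩
    rw [hU.2 z hz]
    exact hV z (lt_of_lt_of_le hz ((le_abs_self _).trans (Complex.abs_re_le_norm z)))
  have step : ∀ y : ℂ, y.re = r →
      (ExtH r U (y + 2 * ((α : ℂ) - β) * Complex.I) ↔ ExtH r U y) := by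
    intro y hy
    have h1 := (tht_mirror h0 hN₂ hB hb hQB hU₂ hy).1
    have hy' : (conj y + 2 * (β : ℂ) * Complex.I).re = r := by
      simp [hy]
    have h2 := (tht_mirror h0 hN₁ hA ha hQA hU hy').1
    have e : conj (conj y + 2 * (β : ℂ) * Complex.I) + 2 * (α : ℂ) * Complex.I =
        y + 2 * ((α : ℂ) - β) * Complex.I := by
      simp only [map_add, map_mul, Complex.conj_conj, Complex.conj_ofReal, Complex.conj_I,
        map_ofNat]
      ring
    rw [e] at h2
    exact h2.trans h1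
  have ind : ∀ n : ℕ, (ExtH r U (x + 2 * (n : ℂ) * ((α : ℂ) - β) * Complex.I) ↔ ExtH r U x) := by
    intro n
    induction n with
    | zero => simp
    | succ n ih =>
      have hy : (x + 2 * (n : ℂ) * ((α : ℂ) - β) * Complex.I).re = r := by
        simp [hx]
      have h1 := step _ hy
      have e : x + 2 * (n : ℂ) * ((α : ℂ) - β) * Complex.I + 2 * ((α : ℂ) - β) * Complex.I =
          x + 2 * ((n + 1 : ℕ) : ℂ) * ((α : ℂ) - β) * Complex.I := by
        push_cast
        ring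
      rw [e] at h1
      exact h1.trans ih
  have hd : 0 < |α - β| := abs_pos.mpr (sub_ne_zero.mpr hαβ)
  obtain ⟨n, hn⟩ := exists_nat_gt ((ρ + |x.im|) / (2 * |α - β|))
  rw [div_lt_iff₀ (by positivity)] at hn
  refine (ind n).1 ?_
  set y : ℂ := x + 2 * (n : ℂ) * ((α : ℂ) - β) * Complex.I with hydef
  have hyim : y.im = x.im + 2 * n * (α - β) := by
    simp [hydef]
  have hyn : ρ < ‖y‖ := by
    refine lt_of_lt_of_le ?_ (Complex.abs_im_le_norm y)
    rw [hyim]
    have h1 : |2 * (n : ℝ) * (α - β)| = 2 * n * |α - β| := by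
      rw [abs_mul, abs_of_nonneg (by positivity : (0 : ℝ) ≤ 2 * n)]
    have h2 : |2 * (n : ℝ) * (α - β)| ≤ |x.im + 2 * n * (α - β)| + |x.im| := by
      have := abs_sub (x.im + 2 * n * (α - β)) x.im
      simpa using this
    nlinarith
  refine ⟨V₁, hVh y hyn, ?_⟩
  have hev : ∀ᶠ z : ℂ in 𝓝 y, ρ < ‖z‖ :=
    (isOpen_lt continuous_const continuous_norm).mem_nhds hyn
  filter_upwards [hev] with z hz hzr
  exact (hU.out hρ hVh hzr hz).eq_of_nhds.symm

end MD12

end S_THTb

section S_THTc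

/-! # THTc: extension to a larger half plane, and gluing

`tht_ext`: for every `x` with `Re x = r` choose `δ x > 0` and `g x` harmonic on `ball x (δ x)`, equal to `U` on
`ball x (δ x) ∩ {r < Re}`; two such balls which meet also meet inside `{r < Re}` and the intersection is convex, so
`g x = g y` there (`har_ident`).  A uniform radius: for `‖x‖ ≥ ρ + 1` one can take `g x = V`, `δ x = 1` (`ball x 1 ⊆ {ρ < ‖·‖}`, `HasU.out`); the
segment `{Re x = r, ‖x‖ ≤ ρ + 1}` is compact: finitely many balls / Lebesgue number.  So there is `ε > 0` such that every `z` with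
`r - ε < Re z ≤ r` is in `ball x (δ x)` for some `x` on the line.  `U' z = U z` for `r < Re z`, `U' z = g x z` (any such `x`) otherwise.
`U' = V` for `ρ < Re z` because `r ≤ ρ`.
`tht_glue`: for `r < Re z` use `U_{(r + Re z)/2}`, `HasU.unique` (with the larger of two radii).
`tht_glue_univ`: the same; `U z = V z` for `ρ < ‖z‖`: `{ρ < ‖z‖}` is preconnected (image of the half plane `{log ρ < Re s}` under `exp`),
`har_ident`.
-/

namespace MD12

open Complex Metric Set Filter Topology InnerProductSpace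
open scoped ComplexConjugate

/-- a local extension of `U` across the line `Re z = r` -/
structure ThtcLoc (r : ℝ) (U g : ℂ → ℝ) (x : ℂ) (δ : ℝ) : Prop where
  re_eq : x.re = r
  pos : 0 < δ
  har : ∀ w ∈ ball x δ, HarmonicAt g w
  eq : ∀ w ∈ ball x δ, r < w.re → g w = U w

theorem thtc_isOpen (r : ℝ) : IsOpen {z : ℂ | r < z.re} :=
  isOpen_lt continuous_const Complex.continuous_re

theorem thtc_agree {r : ℝ} {U g g' : ℂ → ℝ} {x x' : ℂ} {δ δ' : ℝ} (h : ThtcLoc r U g x δ)
    (h' : ThtcLoc r U g' x' δ') {w : ℂ} (hw : w ∈ ball x δ) (hw' : w ∈ ball x' δ') :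
    g w = g' w := by
  rcases lt_or_ge r w.re with hlt | hge
  · rw [h.eq w hw hlt, h'.eq w hw' hlt]
  · -- the mirror image of `w`
    have hmir : ∀ y : ℂ, y.re = r → dist (⟨2 * r - w.re, w.im⟩ : ℂ) y = dist w y := by
      intro y hy
      rw [Complex.dist_eq_re_im, Complex.dist_eq_re_im, hy]
      congr 1
      ring
    have hS : IsOpen (ball x δ ∩ ball x' δ') := isOpen_ball.inter isOpen_ball
    have hmem : (⟨2 * r - w.re, w.im⟩ : ℂ) ∈ ball x δ ∩ ball x' δ' := by
      constructor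
      · rw [mem_ball, hmir x h.re_eq]
        exact hw
      · rw [mem_ball, hmir x' h'.re_eq]
        exact hw'
    have hre : r ≤ (⟨2 * r - w.re, w.im⟩ : ℂ).re := by
      show r ≤ 2 * r - w.re
      linarith
    generalize (⟨2 * r - w.re, w.im⟩ : ℂ) = m at hmem hre
    obtain ⟨ε, hε, hball⟩ := Metric.isOpen_iff.1 hS m hmem
    have hq1 : m + (ε / 2 : ℝ) ∈ ball x δ ∩ ball x' δ' := by
      apply hball
      rw [mem_ball_iff_norm, add_sub_cancel_left, Complex.norm_real, Real.norm_eq_abs,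
        abs_of_pos (by linarith)]
      linarith
    have hq2 : r < (m + (ε / 2 : ℝ)).re := by
      rw [Complex.add_re, Complex.ofReal_re]
      linarith
    generalize m + ((ε / 2 : ℝ) : ℂ) = q at hq1 hq2
    have hconv : Convex ℝ (ball x δ ∩ ball x' δ') := (convex_ball x δ).inter (convex_ball x' δ')
    have key := har_ident hconv.isPreconnected (f := g) (g := g') (fun z hz => h.har z hz.1)
      (fun z hz => h'.har z hz.2) (x := q) hq1 (by
        filter_upwards [hS.mem_nhds hq1, (thtc_isOpen r).mem_nhds hq2] with z h1 h2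
        rw [h.eq z h1.1 h2, h'.eq z h1.2 h2])
    exact (key w ⟨hw, hw'⟩).self_of_nhds

theorem thtc_loc {r : ℝ} {U : ℂ → ℝ} {x : ℂ} (hx : x.re = r) (hE : ExtH r U x) :
    ∃ g δ, ThtcLoc r U g x δ := by
  obtain ⟨g, hg, he⟩ := hE
  obtain ⟨δ, hδ, hb⟩ := Metric.eventually_nhds_iff_ball.1 ((har_eventually hg).and he)
  exact ⟨g, δ, hx, hδ, fun w hw => (hb w hw).1, fun w hw => (hb w hw).2⟩

theorem thtc_cover {V : ℂ → ℝ} {ρ r : ℝ} (hρ : 0 < ρ)
    (hV : ∀ z, ρ < ‖z‖ → HarmonicAt V z) {U : ℂ → ℝ} (hU : HasU V ρ r U)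
    (hE : ∀ x : ℂ, x.re = r → ExtH r U x) : ∃ ε : ℝ, 0 < ε ∧ ∀ z : ℂ, r - ε < z.re → z.re ≤ r →
      ∃ g x δ, ThtcLoc r U g x δ ∧ z ∈ ball x δ := by
  have hch : ∀ x : {x : ℂ // x.re = r}, ∃ g δ, ThtcLoc r U g x δ := fun x => thtc_loc x.2 (hE x x.2)
  choose g δ hgδ using hch
  have hcomp : IsCompact ({x : ℂ | x.re = r} ∩ closedBall 0 (ρ + 1)) :=
    (isCompact_closedBall 0 (ρ + 1)).inter_left
      (isClosed_eq Complex.continuous_re continuous_const)
  obtain ⟨η, hη, hL⟩ := lebesgue_number_lemma_of_metric (c := fun x : {x : ℂ // x.re = r} =>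
    ball (x : ℂ) (δ x)) hcomp (fun x => isOpen_ball) (by
      rintro x ⟨hx, -⟩
      rw [mem_iUnion]
      exact ⟨⟨x, hx⟩, mem_ball_self (hgδ ⟨x, hx⟩).pos⟩)
  refine ⟨min η 1, lt_min hη one_pos, fun z hz1 hz2 => ?_⟩
  have hd : dist z (⟨r, z.im⟩ : ℂ) = r - z.re := by
    rw [Complex.dist_eq_re_im]
    simp only [sub_self, ne_eq, OfNat.ofNat_ne_zero, not_false_eq_true, zero_pow, add_zero]
    rw [Real.sqrt_sq_eq_abs, abs_of_nonpos (by linarith)]
    ring
  have hr : (⟨r, z.im⟩ : ℂ).re = r := rfl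
  generalize (⟨r, z.im⟩ : ℂ) = x at hd hr
  rcases le_or_gt ‖x‖ (ρ + 1) with hle | hgt
  · obtain ⟨y, hy⟩ := hL x ⟨hr, mem_closedBall_zero_iff.2 hle⟩
    refine ⟨g y, y, δ y, hgδ y, hy ?_⟩
    rw [mem_ball, hd]
    linarith [min_le_left η 1]
  · have hout : ∀ w ∈ ball x 1, ρ < ‖w‖ := by
      intro w hw
      rw [mem_ball_iff_norm] at hw
      have h1 := norm_sub_norm_le x w
      rw [norm_sub_rev] at h1
      linarith
    refine ⟨V, x, 1, ⟨hr, one_pos, fun w hw => hV w (hout w hw), fun w hw h1 => ?_⟩, ?_⟩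
    · exact (hU.out hρ hV h1 (hout w hw)).self_of_nhds.symm
    · rw [mem_ball, hd]
      linarith [min_le_right η 1]

theorem HasU.thtc_mono {V : ℂ → ℝ} {ρ r r' : ℝ} {U : ℂ → ℝ} (hU : HasU V ρ r U) (h : r ≤ r') :
    HasU V ρ r' U := ⟨fun z hz => hU.1 z (h.trans_lt hz), hU.2⟩

theorem thtc_eq {V : ℂ → ℝ} {ρ r r' : ℝ} {U U' : ℂ → ℝ} (hU : HasU V ρ r U)
    (hU' : HasU V ρ r' U') {z : ℂ} (h1 : r < z.re) (h2 : r' < z.re) : U z = U' z :=
  ((hU.thtc_mono (le_max_left r r')).unique (hU'.thtc_mono (le_max_right r r'))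
    (max_lt h1 h2)).self_of_nhds

theorem tht_ext {V : ℂ → ℝ} {ρ r : ℝ} (hρ : 0 < ρ) (hr : r ≤ ρ)
    (hV : ∀ z, ρ < ‖z‖ → HarmonicAt V z) {U : ℂ → ℝ} (hU : HasU V ρ r U)
    (hE : ∀ x : ℂ, x.re = r → ExtH r U x) : ∃ r' < r, ∃ U' : ℂ → ℝ, HasU V ρ r' U' := by
  classical
  obtain ⟨ε, hε, hcov⟩ := thtc_cover hρ hV hU hE
  choose! g x δ hloc using hcov
  refine ⟨r - ε, by linarith, fun z => if r < z.re then U z else g z z, ?_, ?_⟩
  · intro z hz
    rcases lt_or_ge r z.re with hlt | hge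
    · refine har_congr (hU.1 z hlt) ?_
      filter_upwards [(thtc_isOpen r).mem_nhds hlt] with w hw
      exact (if_pos hw).symm
    · obtain ⟨h1, h2⟩ := hloc z hz hge
      refine har_congr (h1.har z h2) ?_
      filter_upwards [isOpen_ball.mem_nhds h2, (thtc_isOpen (r - ε)).mem_nhds hz] with w hw hw2
      rcases lt_or_ge r w.re with hwlt | hwge
      · rw [if_pos hwlt]
        exact h1.eq w hw hwlt
      · rw [if_neg (not_lt.2 hwge)]
        obtain ⟨h3, h4⟩ := hloc w hw2 hwge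
        exact thtc_agree h1 h3 hw h4
  · intro z hz
    simp only [if_pos (lt_of_le_of_lt hr hz)]
    exact hU.2 z hz

theorem tht_glue {V : ℂ → ℝ} {ρ r : ℝ} (hr : r < ρ)
    (h : ∀ r', r < r' → ∃ U, HasU V ρ r' U) : ∃ U, HasU V ρ r U := by
  classical
  choose! U hU using h
  refine ⟨fun z => if r < z.re then U ((r + z.re) / 2) z else 0, ?_, ?_⟩
  · intro z hz
    have h1 : r < (r + z.re) / 2 := by linarith
    have h2 : (r + z.re) / 2 < z.re := by linarith
    refine har_congr ((hU _ h1).1 z h2) ?_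
    filter_upwards [(thtc_isOpen ((r + z.re) / 2)).mem_nhds h2] with w hw
    have hw' : (r + z.re) / 2 < w.re := hw
    have h3 : r < w.re := h1.trans hw'
    rw [if_pos h3]
    exact thtc_eq (hU _ h1) (hU _ (by linarith)) hw' (by linarith)
  · intro z hz
    have h1 : r < z.re := hr.trans hz
    simp only [if_pos h1]
    exact (hU _ (by linarith)).2 z hz

theorem tht_glue_univ {V : ℂ → ℝ} {ρ : ℝ} (hρ : 0 < ρ) (hV : ∀ z, ρ < ‖z‖ → HarmonicAt V z)
    (h : ∀ r : ℝ, ∃ U, HasU V ρ r U) :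
    ∃ U : ℂ → ℝ, (∀ z, HarmonicAt U z) ∧ ∀ z, ρ < ‖z‖ → U z = V z := by
  choose U hU using h
  refine ⟨fun z => U (z.re - 1) z, ?_, ?_⟩
  · intro z
    have h2 : z.re - 1 < z.re := by linarith
    refine har_congr ((hU _).1 z h2) ?_
    filter_upwards [(thtc_isOpen (z.re - 1)).mem_nhds h2] with w hw
    exact thtc_eq (hU _) (hU _) hw (by linarith)
  · intro z hz
    exact ((hU _).out hρ hV (by linarith) hz).self_of_nhds

end MD12

end S_THTc

section S_THT

/-! # THT: the tangent case in normalised position (assembly, helper12) -/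

namespace MD12

open Complex Metric Set Filter Topology InnerProductSpace
open scoped ComplexConjugate

theorem tht {γ κ : ℝ} (h0 : γ ≠ 0) {K : Set ℂ} {V₁ V₂ : ℂ → ℝ} {I₁ I₂ : Finset GD}
    (hN₁ : NL γ κ univ K V₁ I₁) (hN₂ : NL γ κ univ K V₂ I₂) {G : ℂ → ℝ} (hG : HarmonicAt G 0)
    (h₁ : ∀ᶠ w in 𝓝[≠] (0 : ℂ), V₁ w⁻¹ = G w) (h₂ : ∀ᶠ w in 𝓝[≠] (0 : ℂ), V₂ w⁻¹ = G w)
    {A B : GD} (hA : A ∈ I₁) (hB : B ∈ I₂) (ha : A.a = 0) (hb : B.a = 0) {α β : ℝ}
    (hQA : ∀ z, A.Q z = 0 ↔ z.im = α) (hQB : ∀ z, B.Q z = 0 ↔ z.im = β) (hαβ : α ≠ β) :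
    ∃ c, ∀ᶠ w in 𝓝 (0 : ℂ), G w = c := by
  rw [eventually_nhdsWithin_iff] at h₁ h₂
  obtain ⟨δ, hδ, hall⟩ := Metric.eventually_nhds_iff_ball.mp
    (h₁.and (h₂.and (har_eventually hG)))
  set ρ : ℝ := δ⁻¹ with hρdef
  have hρ : 0 < ρ := inv_pos.mpr hδ
  have hinv : ∀ z : ℂ, ρ < ‖z‖ → z ≠ 0 ∧ z⁻¹ ≠ 0 ∧ z⁻¹ ∈ ball (0 : ℂ) δ := by
    intro z hz
    have hz0 : 0 < ‖z‖ := hρ.trans hz
    have hz0' : z ≠ 0 := norm_pos_iff.mp hz0
    refine ⟨hz0', inv_ne_zero hz0', ?_⟩
    rw [mem_ball_zero_iff, norm_inv]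
    exact inv_lt_of_inv_lt₀ hδ hz
  have hV1G : ∀ z : ℂ, ρ < ‖z‖ → V₁ z = G z⁻¹ := by
    intro z hz
    obtain ⟨hz0, hz1, hz2⟩ := hinv z hz
    have := (hall _ hz2).1 hz1
    rwa [inv_inv] at this
  have hV2G : ∀ z : ℂ, ρ < ‖z‖ → V₂ z = G z⁻¹ := by
    intro z hz
    obtain ⟨hz0, hz1, hz2⟩ := hinv z hz
    have := (hall _ hz2).2.1 hz1
    rwa [inv_inv] at this
  have hopen : IsOpen {z : ℂ | ρ < ‖z‖} := isOpen_lt continuous_const continuous_norm
  have hVh : ∀ z : ℂ, ρ < ‖z‖ → HarmonicAt V₁ z := by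
    intro z hz
    obtain ⟨hz0, hz1, hz2⟩ := hinv z hz
    have h3 : HarmonicAt (fun z => G z⁻¹) z :=
      har_comp (g := fun z : ℂ => z⁻¹) (analyticAt_inv hz0) (hall _ hz2).2.2
    refine har_congr h3 ?_
    filter_upwards [hopen.mem_nhds hz] with y hy
    exact (hV1G y hy).symm
  have hV12 : ∀ z : ℂ, ρ < ‖z‖ → V₁ z = V₂ z := fun z hz => (hV1G z hz).trans (hV2G z hz).symm
  -- all half planes
  have hallr : ∀ r : ℝ, ∃ U, HasU V₁ ρ r U := by
    by_contra hcon
    push Not at hcon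
    obtain ⟨r₀, hr₀⟩ := hcon
    set S : Set ℝ := {r | ∃ U, HasU V₁ ρ r U} with hS
    have hρS : ρ ∈ S := by
      refine ⟨V₁, fun z hz => hVh z (hz.trans_le ?_), fun z _ => rfl⟩
      exact (le_abs_self _).trans (Complex.abs_re_le_norm z)
    have hup : ∀ r r' : ℝ, r ≤ r' → r ∈ S → r' ∈ S := by
      rintro r r' hrr ⟨U, hU, hU'⟩
      exact ⟨U, fun z hz => hU z (hrr.trans_lt hz), hU'⟩
    have hlow : ∀ r ∈ S, r₀ ≤ r := by
      intro r hr
      by_contra hlt
      push Not at hlt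
      obtain ⟨U, hU⟩ := hup r r₀ hlt.le hr
      exact hr₀ U hU
    have hbdd : BddBelow S := ⟨r₀, hlow⟩
    set r : ℝ := sInf S with hrdef
    have hrρ : r ≤ ρ := csInf_le hbdd hρS
    have habove : ∀ r', r < r' → r' ∈ S := by
      intro r' hr'
      obtain ⟨s, hs, hs'⟩ := exists_lt_of_csInf_lt ⟨ρ, hρS⟩ hr'
      exact hup s r' hs'.le hs
    have hrS : r ∈ S := by
      rcases hrρ.lt_or_eq with hlt | heq
      · exact tht_glue hlt habove
      · rw [heq]; exact hρS
    obtain ⟨U, hU⟩ := hrS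
    obtain ⟨r', hr', U', hU'⟩ := tht_ext hρ hrρ hVh hU
      (fun x hx => tht_all h0 hN₁ hN₂ hA hB ha hb hQA hQB hαβ hρ hVh hV12 hU hx)
    have := csInf_le hbdd (show r' ∈ S from ⟨U', hU'⟩)
    linarith
  obtain ⟨U, hU, hUV⟩ := tht_glue_univ hρ hVh hallr
  -- boundedness
  have hGc : ContinuousAt G 0 := har_continuousAt hG
  obtain ⟨δ', hδ', hGb⟩ := Metric.continuousAt_iff.mp hGc 1 one_pos
  set ρ' : ℝ := max ρ δ'⁻¹ with hρ'def
  have hfar : ∀ z : ℂ, ρ' < ‖z‖ → |U z| ≤ |G 0| + 1 := by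
    intro z hz
    have hz1 : ρ < ‖z‖ := (le_max_left _ _).trans_lt hz
    have hz2 : δ'⁻¹ < ‖z‖ := (le_max_right _ _).trans_lt hz
    rw [hUV z hz1, hV1G z hz1]
    have h4 : dist (z⁻¹) 0 < δ' := by
      rw [dist_zero_right, norm_inv]
      exact inv_lt_of_inv_lt₀ hδ' hz2
    have h5 := hGb h4
    rw [Real.dist_eq] at h5
    have h6 : |G z⁻¹| ≤ |G z⁻¹ - G 0| + |G 0| := by
      have := abs_add_le (G z⁻¹ - G 0) (G 0)
      simpa using this
    linarith
  have hUc : Continuous U := continuous_iff_continuousAt.mpr fun z => har_continuousAt (hU z)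
  have hbound : Bornology.IsBounded (range U) := by
    have hK : IsCompact (closedBall (0 : ℂ) ρ') := isCompact_closedBall 0 ρ'
    obtain ⟨M, hM⟩ := isBounded_iff_forall_norm_le.mp (hK.image hUc).isBounded
    rw [isBounded_iff_forall_norm_le]
    refine ⟨max M (|G 0| + 1), ?_⟩
    rintro _ ⟨z, rfl⟩
    by_cases hz : ‖z‖ ≤ ρ'
    · exact (hM _ ⟨z, by simpa using hz, rfl⟩).trans (le_max_left _ _)
    · exact (hfar z (not_le.mp hz)).trans (le_max_right _ _)
  have hconst := InnerProductSpace.bounded_harmonic_on_complex_plane_is_constant U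
    (fun z _ => hU z) hbound
  have hGU : ∀ w : ℂ, w ≠ 0 → ‖w‖ < δ → G w = U 0 := by
    intro w hw0 hw
    have hw1 : ρ < ‖w⁻¹‖ := by
      rw [norm_inv, hρdef]
      exact inv_strictAnti₀ (norm_pos_iff.mpr hw0) hw
    have := hV1G _ hw1
    rw [inv_inv] at this
    rw [← this, ← hUV _ hw1]
    exact hconst _ _
  refine ⟨U 0, ?_⟩
  have hG0 : G 0 = U 0 := by
    have h7 : Tendsto G (𝓝[≠] (0 : ℂ)) (𝓝 (G 0)) := hGc.tendsto.mono_left nhdsWithin_le_nhds
    have h8 : Tendsto G (𝓝[≠] (0 : ℂ)) (𝓝 (U 0)) := by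
      refine tendsto_const_nhds.congr' ?_
      rw [EventuallyEq, eventually_nhdsWithin_iff]
      filter_upwards [ball_mem_nhds (0 : ℂ) hδ] with w hw hw0
      exact (hGU w hw0 (by simpa using hw)).symm
    exact tendsto_nhds_unique h7 h8
  filter_upwards [ball_mem_nhds (0 : ℂ) hδ] with w hw
  by_cases hw0 : w = 0
  · rw [hw0]; exact hG0
  · exact hGU w hw0 (by simpa using hw)

end MD12

end S_THT

section S_CLS

/-! # CLS: two different circles through a point: crossing or tangent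

`A' = A.pull x₀ l 1 0`: `a' = A.Q x₀ = 0`, `b' = l * A.den x₀`, `d' = A.a ‖l‖²`; so
`A'.Q w = 2 Re (conj (l * A.den x₀) * w) + A.a ‖l‖²` (a line).  Take `l = i * conj (A.den x₀)` (`A.den x₀ ≠ 0` by
`GD.den_ne_of_Q_zero`).  Then `A'.Q w = 2 ‖A.den x₀‖² Im w + A.a ‖A.den x₀‖²`: zero iff `Im w = -A.a/2`.
`B'.Q w = 2 Re (conj (l * B.den x₀) * w) + B.a ‖l‖²`, `conj (l * B.den x₀) = -i * (A.den x₀ * conj (B.den x₀))`.
Put `τ = A.den x₀ * conj (B.den x₀) ≠ 0`.
* `τ` real: `B'.Q w = 2 τ Im w + B.a ‖l‖²`, zero iff `Im w = β`.  If `β = α` then `A'.Q`, `B'.Q` have the same zeros, and with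
  `GD.Q_pull` (every `z ≠ x₀` is `(x₀ w + l)/w` with `w = l/(z - x₀)`) also `A.Q` and `B.Q`: contradiction to `hAB`.
* `τ` not real: the lines `A'.Q = 0`, `B'.Q = 0` meet at `w = s + α i`: `Re (-i τ (s + α i)) = τ.im s + τ.re α`, solve for `s`;
  `w ≠ 0` as `α = -A.a/2 ≠ 0`; `x₁ = x₀ + l/w`.
-/

namespace MD12

open Complex Metric Set Filter Topology InnerProductSpace
open scoped ComplexConjugate

/-- the coefficient of the square in the pull back -/
private theorem cls_a (C : GD) (x₀ l : ℂ) (h : x₀ * 0 - l * 1 ≠ 0) (h0 : C.Q x₀ = 0) :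
    (C.pull x₀ l 1 0 h).a = 0 := by
  rw [← h0]
  unfold GD.pull GD.Q
  simp

/-- the form of the pull back -/
private theorem cls_Q (C : GD) (x₀ l : ℂ) (h : x₀ * 0 - l * 1 ≠ 0) (h0 : C.Q x₀ = 0) (w : ℂ) :
    (C.pull x₀ l 1 0 h).Q w = 2 * (conj (l * C.den x₀) * w).re + C.a * ‖l‖ ^ 2 := by
  have ha := cls_a C x₀ l h h0
  unfold GD.Q
  rw [ha]
  unfold GD.pull GD.den
  simp only [← Complex.normSq_eq_norm_sq, Complex.normSq_apply, Complex.add_re,
        Complex.add_im, Complex.mul_re, Complex.mul_im, Complex.conj_re, Complex.conj_im,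
        Complex.ofReal_re, Complex.ofReal_im, Complex.zero_re, Complex.zero_im,
        Complex.one_re, Complex.one_im]
  ring

theorem cls {A B : GD} (hA : 0 < A.a) (hB : 0 < B.a) {x₀ : ℂ} (hA0 : A.Q x₀ = 0)
    (hB0 : B.Q x₀ = 0) (hAB : ∃ z, A.Q z = 0 ∧ B.Q z ≠ 0) :
    (∃ x₁, x₁ ≠ x₀ ∧ A.Q x₁ = 0 ∧ B.Q x₁ = 0) ∨
    ∃ (l : ℂ) (h : x₀ * 0 - l * 1 ≠ 0), (A.pull x₀ l 1 0 h).a = 0 ∧ (B.pull x₀ l 1 0 h).a = 0 ∧
      ∃ α β : ℝ, α ≠ β ∧ (∀ z, (A.pull x₀ l 1 0 h).Q z = 0 ↔ z.im = α) ∧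
        (∀ z, (B.pull x₀ l 1 0 h).Q z = 0 ↔ z.im = β) := by
  have hdA := A.den_ne_of_Q_zero hA0
  have hdB := B.den_ne_of_Q_zero hB0
  obtain ⟨l, hl⟩ : ∃ l : ℂ, l = I * conj (A.den x₀) := ⟨_, rfl⟩
  have hl0 : l ≠ 0 := by
    rw [hl]
    exact mul_ne_zero I_ne_zero (by simpa using hdA)
  have h : x₀ * 0 - l * 1 ≠ 0 := by
    rw [mul_zero, mul_one, zero_sub]
    exact neg_ne_zero.2 hl0
  obtain ⟨τ, hτ⟩ : ∃ τ : ℂ, τ = A.den x₀ * conj (B.den x₀) := ⟨_, rfl⟩
  have hτ0 : τ ≠ 0 := by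
    rw [hτ]
    exact mul_ne_zero hdA (by simpa using hdB)
  obtain ⟨N, hN⟩ : ∃ N : ℝ, N = ‖A.den x₀‖ ^ 2 := ⟨_, rfl⟩
  have hN0 : 0 < N := by
    rw [hN]
    have := norm_pos_iff.mpr hdA
    positivity
  have hlN : ‖l‖ ^ 2 = N := by
    rw [hl, hN, norm_mul]
    simp
  have hQA : ∀ w, (A.pull x₀ l 1 0 h).Q w = 2 * (N * w.im) + A.a * N := by
    intro w
    rw [cls_Q A x₀ l h hA0 w, hlN]
    have e : conj (l * A.den x₀) * w = (N : ℂ) * (-(I * w)) := by
      have e1 : A.den x₀ * conj (A.den x₀) = (N : ℂ) := by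
        rw [Complex.mul_conj, Complex.normSq_eq_norm_sq, hN]
      rw [hl, map_mul, map_mul, conj_conj, conj_I]
      linear_combination (-(I * w)) * e1
    rw [e, Complex.re_ofReal_mul]
    simp
  have hQB : ∀ w, (B.pull x₀ l 1 0 h).Q w = 2 * (τ.re * w.im + τ.im * w.re) + B.a * N := by
    intro w
    rw [cls_Q B x₀ l h hB0 w, hlN]
    have e : conj (l * B.den x₀) * w = -(I * (τ * w)) := by
      rw [hl, hτ, map_mul, map_mul, conj_conj, conj_I]
      ring
    rw [e]
    simp only [Complex.neg_re, Complex.I_mul_re, Complex.mul_im]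
    ring
  have hα0 : ∀ w : ℂ, (A.pull x₀ l 1 0 h).Q w = 0 ↔ w.im = -A.a / 2 := by
    intro w
    rw [hQA w]
    constructor
    · intro h1
      have h2 : N * (2 * w.im + A.a) = 0 := by linarith
      rcases mul_eq_zero.1 h2 with h3 | h3
      · exact absurd h3 hN0.ne'
      · linarith
    · intro h1
      rw [h1]
      ring
  by_cases him : τ.im = 0
  · right
    have hre : τ.re ≠ 0 := by
      intro h1
      exact hτ0 (Complex.ext h1 him)
    have hβ0 : ∀ w : ℂ, (B.pull x₀ l 1 0 h).Q w = 0 ↔ w.im = -(B.a * N) / (2 * τ.re) := by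
      intro w
      rw [hQB w, him, zero_mul, add_zero, eq_div_iff (by simpa using hre)]
      constructor
      · intro h1
        linarith
      · intro h1
        linarith
    refine ⟨l, h, cls_a A x₀ l h hA0, cls_a B x₀ l h hB0, -A.a / 2, -(B.a * N) / (2 * τ.re), ?_,
      hα0, hβ0⟩
    intro hαβ
    obtain ⟨z, hz1, hz2⟩ := hAB
    have hzx : z - x₀ ≠ 0 := by
      intro h1
      rw [sub_eq_zero] at h1
      rw [h1] at hz2
      exact hz2 hB0
    obtain ⟨w, hw⟩ : ∃ w : ℂ, w = l / (z - x₀) := ⟨_, rfl⟩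
    have hw0 : w ≠ 0 := by
      rw [hw]
      exact div_ne_zero hl0 hzx
    have hw1 : (1 : ℂ) * w + 0 ≠ 0 := by
      rw [one_mul, add_zero]
      exact hw0
    have hwz : (x₀ * w + l) / (1 * w + 0) = z := by
      rw [one_mul, add_zero, div_eq_iff hw0, hw]
      field_simp
      ring
    have e1 := A.Q_pull x₀ l 1 0 h hw1
    have e2 := B.Q_pull x₀ l 1 0 h hw1
    rw [hwz] at e1 e2
    rw [hz1, zero_mul] at e1
    have e3 := (hα0 w).1 e1
    rw [hαβ] at e3
    have e4 := (hβ0 w).2 e3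
    rw [e4] at e2
    have e5 : ‖(1 : ℂ) * w + 0‖ ^ 2 ≠ 0 := by
      have := norm_pos_iff.mpr hw1
      positivity
    rcases mul_eq_zero.1 e2.symm with e6 | e6
    · exact hz2 e6
    · exact e5 e6
  · left
    obtain ⟨s, hs⟩ : ∃ s : ℝ, τ.im * s = -(B.a * N) / 2 - τ.re * (-A.a / 2) :=
      ⟨(-(B.a * N) / 2 - τ.re * (-A.a / 2)) / τ.im, by field_simp⟩
    obtain ⟨w, hw⟩ : ∃ w : ℂ, w = ⟨s, -A.a / 2⟩ := ⟨_, rfl⟩
    have hwre : w.re = s := by rw [hw]
    have hwim : w.im = -A.a / 2 := by rw [hw]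
    have hw0 : w ≠ 0 := by
      intro h1
      rw [h1] at hwim
      simp only [Complex.zero_im] at hwim
      linarith
    have hw1 : (1 : ℂ) * w + 0 ≠ 0 := by
      rw [one_mul, add_zero]
      exact hw0
    have e5 : ‖(1 : ℂ) * w + 0‖ ^ 2 ≠ 0 := by
      have := norm_pos_iff.mpr hw1
      positivity
    have e1 := A.Q_pull x₀ l 1 0 h hw1
    have e2 := B.Q_pull x₀ l 1 0 h hw1
    rw [(hα0 w).2 hwim] at e1
    have e3 : (B.pull x₀ l 1 0 h).Q w = 0 := by
      rw [hQB w, hwre, hwim]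
      linarith
    rw [e3] at e2
    refine ⟨(x₀ * w + l) / (1 * w + 0), ?_, ?_, ?_⟩
    · intro h1
      rw [one_mul, add_zero, div_eq_iff hw0] at h1
      exact hl0 (by linear_combination h1)
    · rcases mul_eq_zero.1 e1.symm with e6 | e6
      · exact e6
      · exact absurd e6 e5
    · rcases mul_eq_zero.1 e2.symm with e6 | e6
      · exact e6
      · exact absurd e6 e5

end MD12

end S_CLS

section S_PROPA

/-! # PROPA: a common boundary point of two different circles on the boundary of `W`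
(assembly, helper12) -/

namespace MD12

open Complex Metric Set Filter Topology InnerProductSpace
open scoped ComplexConjugate

theorem propA {γ κ : ℝ} (h0 : γ ≠ 0) (h1 : |γ| < 1) {K : Set ℂ} (hK : IsClosed K)
    {V₁ V₂ : ℂ → ℝ} {I₁ I₂ : Finset GD} (hN₁ : NL γ κ univ K V₁ I₁) (hN₂ : NL γ κ univ K V₂ I₂)
    (ha₁ : ∀ C ∈ I₁, 0 < C.a) (ha₂ : ∀ C ∈ I₂, 0 < C.a) {W : Set ℂ} (hWo : IsOpen W)
    (hWc : IsPreconnected W) (hWinf : ∀ᶠ w in 𝓝[≠] (0 : ℂ), w⁻¹ ∈ W)
    (hW1 : ∀ z ∈ W, ∀ C ∈ I₁, 0 < C.Q z) (hW2 : ∀ z ∈ W, ∀ C ∈ I₂, 0 < C.Q z)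
    (hV : ∀ z ∈ W, z ∉ K → V₁ z = V₂ z) {x₀ : ℂ} (hx₀ : x₀ ∈ closure W) {A B : GD}
    (hA : A ∈ I₁) (hB : B ∈ I₂) (hA0 : A.Q x₀ = 0) (hB0 : B.Q x₀ = 0)
    (hAB : ∃ z, A.Q z = 0 ∧ B.Q z ≠ 0) :
    ∃ U : ℂ → ℝ, (∀ z ∈ W, HarmonicAt U z) ∧
      (∃ g : ℂ → ℝ, HarmonicAt g 0 ∧ ∀ᶠ w in 𝓝[≠] (0 : ℂ), U w⁻¹ = g w) ∧ U =ᶠ[𝓝 x₀] V₁ := by
  have hx₀K : x₀ ∉ K := by
    intro h
    have := hN₁.disK A hA x₀ (mem_univ _) h
    linarith
  have hV₁h : HarmonicAt V₁ x₀ := har_on_circle hN₁ hA (mem_univ _) hA0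
  have hV₂h : HarmonicAt V₂ x₀ := har_on_circle hN₂ hB (mem_univ _) hB0
  have hV12 : V₁ =ᶠ[𝓝 x₀] V₂ := by
    refine har_ident_closure hWo hx₀ hV₁h hV₂h ?_
    filter_upwards [hK.isOpen_compl.mem_nhds hx₀K] with z hz hzW
    exact hV z hzW hz
  rcases cls (ha₁ A hA) (ha₂ B hB) hA0 hB0 hAB with ⟨x₁, hx₁, hA1, hB1⟩ | ⟨l, hl, hAa, hBa, α, β, hαβ, hQA, hQB⟩
  · -- crossing
    have hx10 : x₁ - x₀ ≠ 0 := sub_ne_zero.mpr hx₁
    have hdet : x₁ * 1 - x₀ * 1 ≠ 0 := by simpa using hx10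
    have hnl₁ := hN₁.pull_univ ha₁ hdet
    have hnl₂ := hN₂.pull_univ ha₂ hdet
    set m : ℂ → ℂ := fun w => (x₁ * w + x₀) / (1 * w + 1) with hmdef
    set n : ℂ → ℂ := fun z => (z - x₀) / (x₁ - z) with hndef
    have hn1 : ∀ z, z ≠ x₁ → 1 * n z + 1 = (x₁ - x₀) / (x₁ - z) := by
      intro z hz
      have hz' : x₁ - z ≠ 0 := sub_ne_zero.mpr (Ne.symm hz)
      rw [hndef]
      field_simp
      ring
    have hn1' : ∀ z, z ≠ x₁ → 1 * n z + 1 ≠ 0 := by
      intro z hz
      rw [hn1 z hz]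
      exact div_ne_zero hx10 (sub_ne_zero.mpr (Ne.symm hz))
    have hmn : ∀ z, z ≠ x₁ → m (n z) = z := by
      intro z hz
      have hz' : x₁ - z ≠ 0 := sub_ne_zero.mpr (Ne.symm hz)
      have h2 := hn1 z hz
      have h3 : m (n z) = (x₁ * n z + x₀) / (1 * n z + 1) := rfl
      rw [h3, h2, hndef]
      field_simp
      ring
    have hQn : ∀ (C : GD) (z : ℂ), z ≠ x₁ →
        (C.pull x₁ x₀ 1 1 hdet).Q (n z) = C.Q z * ‖1 * n z + 1‖ ^ 2 := by
      intro C z hz
      rw [GD.Q_pull _ _ _ _ _ _ (hn1' z hz)]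
      congr 2
      exact hmn z hz
    have hnorm : ∀ z, z ≠ x₁ → 0 < ‖1 * n z + 1‖ ^ 2 := by
      intro z hz
      have := norm_pos_iff.mpr (hn1' z hz)
      positivity
    have hpole : ∀ C : GD, 0 < C.a → 0 < (C.pull x₁ x₀ 1 1 hdet).Q (-1) := by
      intro C hC
      have h4 : (C.pull x₁ x₀ 1 1 hdet).Q (-1) = C.a * ‖x₁ - x₀‖ ^ 2 := by
        unfold GD.Q GD.pull
        simp only [← Complex.normSq_eq_norm_sq, Complex.normSq_apply, Complex.add_re,
          Complex.add_im, Complex.mul_re, Complex.mul_im, Complex.conj_re, Complex.conj_im,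
          Complex.ofReal_re, Complex.ofReal_im, Complex.sub_re, Complex.sub_im, map_add, map_mul,
          conj_ofReal, conj_conj, map_one, Complex.neg_re, Complex.neg_im, Complex.one_re,
          Complex.one_im]
        ring
      rw [h4]
      have := norm_pos_iff.mpr hx10
      positivity
    have hx₁W : ∀ z ∈ W, z ≠ x₁ := by
      rintro z hz rfl
      have := hW1 z hz A hA
      linarith
    set W' : Set ℂ := insert (-1) (n '' W) with hW'def
    -- `n z → -1` at infinity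
    have hninf : ∀ ζ : ℂ, ζ ≠ 0 → n ζ⁻¹ = (1 - x₀ * ζ) / (x₁ * ζ - 1) := by
      intro ζ hζ
      rw [hndef]
      simp only
      have h5 : ζ⁻¹ - x₀ = (1 - x₀ * ζ) * ζ⁻¹ := by field_simp
      have h6 : x₁ - ζ⁻¹ = (x₁ * ζ - 1) * ζ⁻¹ := by field_simp
      rw [h5, h6, mul_div_mul_right _ _ (inv_ne_zero hζ)]
    have hanal : AnalyticAt ℂ (fun ζ : ℂ => (1 - x₀ * ζ) / (x₁ * ζ - 1)) 0 := by
      have : x₁ * (0 : ℂ) - 1 ≠ 0 := by simp
      fun_prop (disch := assumption)
    have hcl : (-1 : ℂ) ∈ closure (n '' W) := by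
      rw [mem_closure_iff_frequently]
      have h7 : Tendsto (fun ζ : ℂ => n ζ⁻¹) (𝓝[≠] 0) (𝓝 (-1)) := by
        have h8 : Tendsto (fun ζ : ℂ => (1 - x₀ * ζ) / (x₁ * ζ - 1)) (𝓝[≠] 0) (𝓝 (-1)) := by
          have := hanal.continuousAt.tendsto.mono_left
            (nhdsWithin_le_nhds (s := {(0 : ℂ)}ᶜ))
          simpa using this
        refine h8.congr' ?_
        rw [EventuallyEq, eventually_nhdsWithin_iff]
        exact Eventually.of_forall fun ζ hζ => (hninf ζ hζ).symm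
      have h9 : ∃ᶠ ζ in 𝓝[≠] (0 : ℂ), n ζ⁻¹ ∈ n '' W :=
        (hWinf.mono fun ζ hζ => mem_image_of_mem n hζ).frequently
      exact h7.frequently h9
    have hncont : ContinuousOn n W := by
      intro z hz
      have hz' : x₁ - z ≠ 0 := sub_ne_zero.mpr (Ne.symm (hx₁W z hz))
      apply ContinuousAt.continuousWithinAt
      rw [hndef]
      fun_prop (disch := assumption)
    have hW'c : IsPreconnected W' := by
      refine (hWc.image n hncont).subset_closure (subset_insert _ _) ?_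
      exact insert_subset hcl subset_closure
    have hx₀x₁ : x₀ ≠ x₁ := Ne.symm hx₁
    have hn0 : n x₀ = 0 := by rw [hndef]; simp
    have hncx₀ : ContinuousAt n x₀ := by
      have hz' : x₁ - x₀ ≠ 0 := hx10
      rw [hndef]
      fun_prop (disch := assumption)
    have hW'0 : (0 : ℂ) ∈ closure W' := by
      have h10 : n x₀ ∈ closure (n '' W) :=
        mem_closure_image hncx₀ hx₀
      rw [hn0] at h10
      exact closure_mono (subset_insert _ _) h10
    have hm0 : m 0 = x₀ := by rw [hmdef]; simp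
    have hmc : ContinuousAt m 0 := by
      have : (1 : ℂ) * 0 + 1 ≠ 0 := by simp
      rw [hmdef]
      fun_prop (disch := assumption)
    have hVm : (fun w => V₁ (m w)) =ᶠ[𝓝 0] fun w => V₂ (m w) := by
      have := hmc.tendsto
      rw [hm0] at this
      exact this.eventually hV12
    have hd : ∀ C : GD, C.Q x₁ = 0 → C.Q x₀ = 0 →
        (C.pull x₁ x₀ 1 1 hdet).a = 0 ∧ (C.pull x₁ x₀ 1 1 hdet).d = 0 := by
      intro C hC1 hC0
      unfold GD.Q at hC1 hC0
      constructor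
      · simp only [GD.pull, map_one, mul_one, norm_one, one_pow]
        exact hC1
      · simp only [GD.pull, map_one, mul_one, norm_one, one_pow]
        exact hC0
    have hW'1 : ∀ w ∈ W', ∀ C ∈ pullI x₁ x₀ 1 1 hdet I₁, 0 ≤ C.Q w := by
      intro w hw C hC
      obtain ⟨C₀, hC₀, rfl⟩ := mem_pullI.mp hC
      rcases hw with rfl | ⟨z, hz, rfl⟩
      · exact (hpole C₀ (ha₁ C₀ hC₀)).le
      · rw [hQn _ _ (hx₁W z hz)]
        exact (mul_pos (hW1 z hz C₀ hC₀) (hnorm z (hx₁W z hz))).le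
    have hW'2 : ∀ w ∈ W', ∀ C ∈ pullI x₁ x₀ 1 1 hdet I₂, 0 ≤ C.Q w := by
      intro w hw C hC
      obtain ⟨C₀, hC₀, rfl⟩ := mem_pullI.mp hC
      rcases hw with rfl | ⟨z, hz, rfl⟩
      · exact (hpole C₀ (ha₂ C₀ hC₀)).le
      · rw [hQn _ _ (hx₁W z hz)]
        exact (mul_pos (hW2 z hz C₀ hC₀) (hnorm z (hx₁W z hz))).le
    have hAB' : ∃ w, (A.pull x₁ x₀ 1 1 hdet).Q w = 0 ∧ (B.pull x₁ x₀ 1 1 hdet).Q w ≠ 0 := by
      obtain ⟨z, hz1, hz2⟩ := hAB
      have hzx : z ≠ x₁ := by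
        rintro rfl
        exact hz2 hB1
      refine ⟨n z, ?_, ?_⟩
      · rw [hQn _ _ hzx, hz1, zero_mul]
      · rw [hQn _ _ hzx]
        exact mul_ne_zero hz2 (hnorm z hzx).ne'
    obtain ⟨U', hU', hU'V⟩ := thn h0 h1 hnl₁ hnl₂ hVm (mem_pullI.mpr ⟨A, hA, rfl⟩)
      (mem_pullI.mpr ⟨B, hB, rfl⟩) (hd A hA1 hA0) (hd B hB1 hB0) hAB' hW'c hW'1 hW'2 hW'0
    refine ⟨fun z => U' (n z), ?_, ⟨fun ζ => U' ((1 - x₀ * ζ) / (x₁ * ζ - 1)), ?_, ?_⟩, ?_⟩
    · intro z hz
      have hz' : x₁ - z ≠ 0 := sub_ne_zero.mpr (Ne.symm (hx₁W z hz))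
      refine har_comp (g := n) ?_ (hU' _ (mem_insert_of_mem _ (mem_image_of_mem n hz)))
      rw [hndef]
      fun_prop (disch := assumption)
    · refine har_comp (g := fun ζ : ℂ => (1 - x₀ * ζ) / (x₁ * ζ - 1)) hanal ?_
      have : (1 - x₀ * (0 : ℂ)) / (x₁ * 0 - 1) = -1 := by simp
      rw [this]
      exact hU' _ (mem_insert _ _)
    · rw [eventually_nhdsWithin_iff]
      exact Eventually.of_forall fun ζ hζ => by
        show U' (n ζ⁻¹) = _
        rw [hninf ζ hζ]
    · have h11 : Tendsto n (𝓝 x₀) (𝓝 0) := by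
        have := hncx₀.tendsto
        rwa [hn0] at this
      have h12 := h11.eventually hU'V
      filter_upwards [h12, isOpen_ne.mem_nhds hx₀x₁] with z hz hz'
      show U' (n z) = V₁ z
      rw [hz]
      show V₁ (m (n z)) = V₁ z
      rw [hmn z hz']
  · -- tangent
    have hnl₁ := hN₁.pull_univ ha₁ hl
    have hnl₂ := hN₂.pull_univ ha₂ hl
    have hG : HarmonicAt (fun ζ => V₁ (x₀ + l * ζ)) 0 := by
      refine har_comp (g := fun ζ : ℂ => x₀ + l * ζ) (by fun_prop) ?_
      simpa using hV₁h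
    have hmi : ∀ ζ : ℂ, ζ ≠ 0 → (x₀ * ζ⁻¹ + l) / (1 * ζ⁻¹ + 0) = x₀ + l * ζ := by
      intro ζ hζ
      rw [add_zero, one_mul]
      field_simp
    have htend : Tendsto (fun ζ : ℂ => x₀ + l * ζ) (𝓝 0) (𝓝 x₀) := by
      have : Continuous (fun ζ : ℂ => x₀ + l * ζ) := by fun_prop
      have := this.tendsto 0
      simpa using this
    have e1 : ∀ᶠ ζ in 𝓝[≠] (0 : ℂ),
        (fun w => V₁ ((x₀ * w + l) / (1 * w + 0))) ζ⁻¹ = V₁ (x₀ + l * ζ) := by
      rw [eventually_nhdsWithin_iff]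
      exact Eventually.of_forall fun ζ hζ => by simp only [hmi ζ hζ]
    have e2 : ∀ᶠ ζ in 𝓝[≠] (0 : ℂ),
        (fun w => V₂ ((x₀ * w + l) / (1 * w + 0))) ζ⁻¹ = V₁ (x₀ + l * ζ) := by
      rw [eventually_nhdsWithin_iff]
      filter_upwards [htend.eventually hV12] with ζ hζ hζ0
      simp only [hmi ζ hζ0]
      exact hζ.symm
    obtain ⟨c, hc⟩ := tht h0 hnl₁ hnl₂ hG e1 e2 (mem_pullI.mpr ⟨A, hA, rfl⟩)
      (mem_pullI.mpr ⟨B, hB, rfl⟩) hAa hBa hQA hQB hαβ
    refine ⟨fun _ => c, fun z _ => har_const c z, ⟨fun _ => c, har_const c 0,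
      Eventually.of_forall fun _ => rfl⟩, ?_⟩
    have hl0 : l ≠ 0 := by
      rintro rfl
      simp at hl
    have hback : Tendsto (fun z : ℂ => (z - x₀) / l) (𝓝 x₀) (𝓝 0) := by
      have : Continuous (fun z : ℂ => (z - x₀) / l) := by fun_prop
      have := this.tendsto x₀
      simpa using this
    filter_upwards [hback.eventually hc] with z hz
    rw [mul_div_cancel₀ _ hl0, add_sub_cancel] at hz
    exact hz.symm

end MD12

end S_PROPA

section S_TOP1

/-! # TOP1: two open connected sets covering the plane have a connected intersection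

Suppose `W ∩ Ω = P ∪ Q'` with `P`, `Q'` open, disjoint, nonempty (from the negation of `IsPreconnected`).  `Ωᶜ` and `Wᶜ` are closed and disjoint
(`W ∪ Ω = univ`): Urysohn (`exists_continuous_zero_one_of_isClosed`) gives a continuous `χ : ℂ → ℝ` with `χ = 0` on `Ωᶜ`,
`χ = 1` on `Wᶜ`.  Define `F z = exp (2πi χ z)` for `z ∈ P` and `F z = 1` otherwise.  `F` is continuous: clear on the open sets `P`, `Q'`;
a point `z₀` outside `W ∩ Ω` has `χ z₀ ∈ {0,1}`, so both formulas have the limit `1` at `z₀`.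
A continuous nowhere vanishing function on `ℂ` has a continuous logarithm (Mathlib: `Mathlib/Analysis/Complex/BranchLogRoot.lean`,
`isCoveringMapOn_exp.existsUnique_continuousMap_lifts`; `ℂ` is simply connected and locally path connected): `F = exp (2πi ψ)` with
`ψ : ℂ → ℂ` continuous (the imaginary part of `ψ` is `0` as `|F| = 1`, or take the real part).
On `W` (where `χ 1_P` is continuous, as `χ → 0` at the points of `Ωᶜ`): `exp (2πi (ψ - χ 1_P)) = 1`, so `ψ - χ 1_P` is an integer valued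
continuous function on the preconnected set `W`: constant `m`.
On `Ω` (where `(χ - 1) 1_P` is continuous): `exp (2πi (ψ - (χ-1) 1_P)) = 1`: constant `n` on `Ω`.
At a point of `Q'`: `m = ψ = n`.  At a point of `P`: `ψ = m + χ = n + χ - 1`, so `m = n - 1`.  Contradiction.
-/

namespace MD12

open Complex Metric Set Filter Topology

theorem top1_glue {E : Type*} [TopologicalSpace E] {P Q : Set ℂ} [DecidablePred (· ∈ P)]
    (hP : IsOpen P) (hQ : IsOpen Q)
    (hPQ : ∀ z, z ∈ P → z ∈ Q → False) {f g : ℂ → E} {z₀ : ℂ} (hf : ContinuousAt f z₀)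
    (hg : ContinuousAt g z₀) (h : z₀ ∈ P ∨ z₀ ∈ Q ∨ f z₀ = g z₀) :
    ContinuousAt (fun z => if z ∈ P then f z else g z) z₀ := by
  rcases h with h | h | h
  · refine hf.congr ?_
    filter_upwards [hP.mem_nhds h] with z hz
    rw [if_pos hz]
  · refine hg.congr ?_
    filter_upwards [hQ.mem_nhds h] with z hz
    rw [if_neg (fun h' => hPQ z h' hz)]
  · have e : (if z₀ ∈ P then f z₀ else g z₀) = f z₀ := by
      split_ifs
      · rfl
      · exact h.symm
    have hg' : Tendsto g (𝓝 z₀) (𝓝 (f z₀)) := by rw [h]; exact hg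
    have := Tendsto.if' (p := fun z => z ∈ P) hf hg'
    unfold ContinuousAt
    simp only [e]
    exact this

theorem top1_int {S : Set ℂ} (hS : IsPreconnected S) {g : ℂ → ℝ} (hg : ContinuousOn g S)
    (hi : ∀ z ∈ S, ∃ n : ℤ, g z = n) {x y : ℂ} (hx : x ∈ S) (hy : y ∈ S) : g x = g y := by
  have key : ∀ x ∈ S, ∀ y ∈ S, ¬ g x < g y := by
    intro x hx y hy hlt
    obtain ⟨n, hn⟩ := hi x hx
    obtain ⟨m, hm⟩ := hi y hy
    have hnm : n + 1 ≤ m := by
      rw [hn, hm] at hlt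
      exact_mod_cast hlt
    have hnm' : (n : ℝ) + 1 ≤ m := by exact_mod_cast hnm
    obtain ⟨z, hz, hgz⟩ := hS.intermediate_value hx hy hg
      (show (n : ℝ) + 1 / 2 ∈ Icc (g x) (g y) by
        rw [hn, hm]; constructor <;> linarith)
    obtain ⟨k, hk⟩ := hi z hz
    rw [hk] at hgz
    have h1 : (2 * k : ℝ) = 2 * n + 1 := by linarith
    have h2 : 2 * k = 2 * n + 1 := by exact_mod_cast h1
    omega
  exact le_antisymm (not_lt.1 (key y hy x hx)) (not_lt.1 (key x hx y hy))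

theorem top1 {W Ω : Set ℂ} (hW : IsOpen W) (hΩ : IsOpen Ω) (hWc : IsPreconnected W)
    (hΩc : IsPreconnected Ω) (hU : W ∪ Ω = univ) : IsPreconnected (W ∩ Ω) := by
  classical
  intro u v hu hv huv hnu hnv
  by_contra hne
  obtain ⟨P, hPdef⟩ : ∃ P : Set ℂ, P = W ∩ Ω ∩ u := ⟨_, rfl⟩
  obtain ⟨Q, hQdef⟩ : ∃ Q : Set ℂ, Q = W ∩ Ω ∩ v := ⟨_, rfl⟩
  have hPo : IsOpen P := hPdef ▸ (hW.inter hΩ).inter hu
  have hQo : IsOpen Q := hQdef ▸ (hW.inter hΩ).inter hv
  have hPQ : ∀ z, z ∈ P → z ∈ Q → False := by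
    intro z h1 h2
    rw [hPdef] at h1
    rw [hQdef] at h2
    exact hne ⟨z, h1.1, h1.2, h2.2⟩
  have hcov : ∀ z, z ∈ W → z ∈ Ω → z ∈ P ∨ z ∈ Q := by
    intro z h1 h2
    rcases huv ⟨h1, h2⟩ with h | h
    · left; rw [hPdef]; exact ⟨⟨h1, h2⟩, h⟩
    · right; rw [hQdef]; exact ⟨⟨h1, h2⟩, h⟩
  have hPW : ∀ z, z ∈ P → z ∈ W ∧ z ∈ Ω := by
    intro z h; rw [hPdef] at h; exact h.1
  have hQW : ∀ z, z ∈ Q → z ∈ W ∧ z ∈ Ω := by
    intro z h; rw [hQdef] at h; exact h.1
  obtain ⟨p, hp⟩ : P.Nonempty := by rw [hPdef]; exact hnu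
  obtain ⟨q, hq⟩ : Q.Nonempty := by rw [hQdef]; exact hnv
  have hdisj : Disjoint Ωᶜ Wᶜ := by
    rw [Set.disjoint_iff]
    intro z hz
    have hz' : z ∈ W ∪ Ω := by rw [hU]; trivial
    rcases hz' with h | h
    · exact hz.2 h
    · exact hz.1 h
  obtain ⟨χ, hχ0, hχ1, -⟩ := exists_continuous_zero_one_of_isClosed hΩ.isClosed_compl
    hW.isClosed_compl hdisj
  have hχ : Continuous (χ : ℂ → ℝ) := χ.continuous
  have hχ0' : ∀ z, z ∉ Ω → χ z = 0 := fun z hz => hχ0 hz
  have hχ1' : ∀ z, z ∉ W → χ z = 1 := fun z hz => hχ1 hz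
  have hE : Continuous (fun z : ℂ => exp (2 * Real.pi * I * (χ z : ℂ))) := by fun_prop
  have hF : Continuous (fun z : ℂ => if z ∈ P then exp (2 * Real.pi * I * (χ z : ℂ)) else 1) := by
    rw [continuous_iff_continuousAt]
    intro z₀
    refine top1_glue (f := fun z : ℂ => exp (2 * Real.pi * I * (χ z : ℂ))) (g := fun _ => 1)
      hPo hQo hPQ hE.continuousAt continuousAt_const ?_
    by_cases h1 : z₀ ∈ W
    · by_cases h2 : z₀ ∈ Ω
      · rcases hcov z₀ h1 h2 with h | h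
        · exact Or.inl h
        · exact Or.inr (Or.inl h)
      · right; right
        simp [hχ0' z₀ h2]
    · right; right
      simp [hχ1' z₀ h1, Complex.exp_two_pi_mul_I]
  have hsc : IsSimplyConnected (univ : Set ℂ) := by
    have : ContractibleSpace (univ : Set ℂ) :=
      (convex_univ (𝕜 := ℝ) (E := ℂ)).contractibleSpace ⟨0, trivial⟩
    unfold IsSimplyConnected
    infer_instance
  obtain ⟨f, hfc, hf⟩ := Complex.exists_continuousOn_eqOn_exp_comp hsc isOpen_univ
    hF.continuousOn (by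
      rintro ⟨z, -, hz⟩
      dsimp only at hz
      split_ifs at hz
      · exact Complex.exp_ne_zero _ hz
      · exact one_ne_zero hz)
  have hfc' : Continuous f := continuousOn_univ.1 hfc
  obtain ⟨ψ, hψdef⟩ : ∃ ψ : ℂ → ℝ, ψ = fun z => (f z).im / (2 * Real.pi) := ⟨_, rfl⟩
  have hψ : Continuous ψ := by
    rw [hψdef]
    exact (Complex.continuous_im.comp hfc').div_const _
  have hpi : (0 : ℝ) < 2 * Real.pi := by positivity
  have hψφ : ∀ z, ∃ n : ℤ, ψ z = (if z ∈ P then χ z else 0) + n := by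
    intro z
    have h1 : exp (f z) = exp (2 * Real.pi * I * ((if z ∈ P then χ z else 0 : ℝ) : ℂ)) := by
      have := hf (mem_univ z)
      simp only [Function.comp_apply] at this
      rw [this]
      split_ifs
      · rfl
      · simp
    rw [Complex.exp_eq_exp_iff_exists_int] at h1
    obtain ⟨n, hn⟩ := h1
    refine ⟨n, ?_⟩
    have h2 := congrArg Complex.im hn
    have h3 : (2 * (Real.pi : ℂ) * I * ((if z ∈ P then χ z else 0 : ℝ) : ℂ)
        + (n : ℂ) * (2 * (Real.pi : ℂ) * I)).im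
        = 2 * Real.pi * (if z ∈ P then χ z else 0 : ℝ) + n * (2 * Real.pi) := by
      have : (2 * (Real.pi : ℂ) * I * ((if z ∈ P then χ z else 0 : ℝ) : ℂ)
        + (n : ℂ) * (2 * (Real.pi : ℂ) * I))
        = ((2 * Real.pi * (if z ∈ P then χ z else 0 : ℝ) + n * (2 * Real.pi) : ℝ) : ℂ) * I := by
        push_cast; ring
      rw [this, Complex.mul_I_im, Complex.ofReal_re]
    rw [h3] at h2
    rw [hψdef]
    dsimp only
    rw [h2]
    field_simp
  have hA : ContinuousOn (fun z => ψ z - (if z ∈ P then χ z else 0)) W := by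
    intro z₀ hz₀
    refine ContinuousAt.continuousWithinAt ?_
    refine hψ.continuousAt.sub ?_
    refine top1_glue (f := fun z : ℂ => χ z) (g := fun _ => 0)
      hPo hQo hPQ hχ.continuousAt continuousAt_const ?_
    by_cases h2 : z₀ ∈ Ω
    · rcases hcov z₀ hz₀ h2 with h | h
      · exact Or.inl h
      · exact Or.inr (Or.inl h)
    · exact Or.inr (Or.inr (hχ0' z₀ h2))
  have hB : ContinuousOn (fun z => ψ z - (if z ∈ P then χ z - 1 else 0)) Ω := by
    intro z₀ hz₀
    refine ContinuousAt.continuousWithinAt ?_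
    refine hψ.continuousAt.sub ?_
    refine top1_glue (f := fun z : ℂ => χ z - 1) (g := fun _ => 0)
      hPo hQo hPQ (hχ.sub continuous_const).continuousAt continuousAt_const ?_
    by_cases h2 : z₀ ∈ W
    · rcases hcov z₀ h2 hz₀ with h | h
      · exact Or.inl h
      · exact Or.inr (Or.inl h)
    · right; right
      simp [hχ1' z₀ h2]
  have h1 := top1_int hWc hA (by
    intro z _
    obtain ⟨n, hn⟩ := hψφ z
    refine ⟨n, ?_⟩
    rw [hn]; ring) (hPW p hp).1 (hQW q hq).1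
  have h2 := top1_int hΩc hB (by
    intro z _
    obtain ⟨n, hn⟩ := hψφ z
    by_cases hzP : z ∈ P
    · refine ⟨n + 1, ?_⟩
      rw [hn, if_pos hzP, if_pos hzP]
      push_cast; ring
    · refine ⟨n, ?_⟩
      rw [hn, if_neg hzP, if_neg hzP]; ring) (hPW p hp).2 (hQW q hq).2
  have hqP : q ∉ P := fun h => hPQ q h hq
  simp only [if_pos hp, if_neg hqP] at h1 h2
  linarith

end MD12

end S_TOP1

section S_TOP2

/-! # TOP2: removing finitely many disjoint closed disks keeps an open set connected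

Induction on `s`.  Let `Ω' = Ω \ ⋃ (the other disks)` (open, preconnected by induction), `closedBall c.1 c.2 ⊆ Ω'` by disjointness.
`W = (closedBall c.1 c.2)ᶜ` is open and preconnected (`w ↦ c.1 + exp w` maps the half plane `{log c.2 < Re}` onto it), `W ∪ Ω' = univ`,
and `W ∩ Ω'` is the set in question: `top1`.
-/

namespace MD12

open Complex Metric Set Filter Topology

theorem compl_ball_preconn (c : ℂ) {r : ℝ} (hr : 0 < r) : IsPreconnected (closedBall c r)ᶜ := by
  have h : (closedBall c r)ᶜ = (fun w => c + exp w) '' {w : ℂ | Real.log r < w.re} := by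
    ext z
    simp only [mem_compl_iff, mem_closedBall, not_le, mem_image, mem_setOf_eq]
    constructor
    · intro hz
      rw [Complex.dist_eq] at hz
      refine ⟨Complex.log (z - c), ?_, ?_⟩
      · rw [Complex.log_re]
        exact Real.log_lt_log hr hz
      · have h0 : z - c ≠ 0 := by
          intro h0
          rw [h0, norm_zero] at hz
          linarith
        rw [Complex.exp_log h0]
        ring
    · rintro ⟨w, hw, rfl⟩
      rw [Complex.dist_eq, add_sub_cancel_left, Complex.norm_exp]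
      exact (Real.log_lt_iff_lt_exp hr).1 hw
  rw [h]
  exact ((convex_halfSpace_re_gt _).isPreconnected).image _ (by fun_prop)

theorem top2 {Ω : Set ℂ} (hΩ : IsOpen Ω) (hΩc : IsPreconnected Ω) (s : Finset (ℂ × ℝ))
    (hp : ∀ c ∈ s, 0 < c.2) (hs : ∀ c ∈ s, closedBall c.1 c.2 ⊆ Ω)
    (hd : ∀ c ∈ s, ∀ c' ∈ s, c ≠ c' → Disjoint (closedBall c.1 c.2) (closedBall c'.1 c'.2)) :
    IsPreconnected (Ω \ ⋃ c ∈ s, closedBall c.1 c.2) := by
  classical
  induction s using Finset.induction_on with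
  | empty => simpa using hΩc
  | insert a s ha ih =>
    have ih' := ih (fun c hc => hp c (Finset.mem_insert_of_mem hc))
      (fun c hc => hs c (Finset.mem_insert_of_mem hc))
      (fun c hc c' hc' => hd c (Finset.mem_insert_of_mem hc) c' (Finset.mem_insert_of_mem hc'))
    have hcl : IsClosed (⋃ c ∈ s, closedBall c.1 c.2) :=
      isClosed_biUnion_finset fun c _ => isClosed_closedBall
    have ho : IsOpen (Ω \ ⋃ c ∈ s, closedBall c.1 c.2) := hΩ.sdiff hcl
    have hW : IsOpen (closedBall a.1 a.2)ᶜ := isClosed_closedBall.isOpen_compl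
    have hWc := compl_ball_preconn a.1 (hp a (Finset.mem_insert_self a s))
    have hU : (closedBall a.1 a.2)ᶜ ∪ (Ω \ ⋃ c ∈ s, closedBall c.1 c.2) = univ := by
      refine eq_univ_of_forall fun z => ?_
      by_cases hz : z ∈ closedBall a.1 a.2
      · refine Or.inr ⟨hs a (Finset.mem_insert_self a s) hz, ?_⟩
        intro hz'
        simp only [mem_iUnion] at hz'
        obtain ⟨c, hc, hzc⟩ := hz'
        have hne : a ≠ c := by
          rintro rfl
          exact ha hc
        exact Set.disjoint_left.1 (hd a (Finset.mem_insert_self a s) c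
          (Finset.mem_insert_of_mem hc) hne) hz hzc
      · exact Or.inl hz
    have key := top1 hW ho hWc ih' hU
    have he : (closedBall a.1 a.2)ᶜ ∩ (Ω \ ⋃ c ∈ s, closedBall c.1 c.2) =
        Ω \ ⋃ c ∈ insert a s, closedBall c.1 c.2 := by
      ext z
      simp only [Finset.set_biUnion_insert, mem_inter_iff, mem_compl_iff, mem_diff, mem_union,
        not_or]
      tauto
    rwa [he] at key

end MD12

end S_TOP2

section S_TOPA

/-! # TOPA: a circle which meets the closure of `W` (local analysis)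

`E` is the union of the other closed disks (closed).  Let `y ∈ sphere c r ∩ closure W`, `y ∉ E`.
Polar rectangles: for `ζ₀` with `c + exp ζ₀ = y` (`Re ζ₀ = log r`) and small `ε`, `N = {c + exp ζ | |Re (ζ-ζ₀)| < ε, |Im (ζ-ζ₀)| < ε}` is an
open neighbourhood of `y` (`Complex.exp` is an open map, or local inverse), disjoint from `E` for small `ε`, and
`N \ closedBall c r = {c + exp ζ | 0 < Re (ζ-ζ₀) < ε, |Im (ζ-ζ₀)| < ε}` (for `ζ` in the rectangle `‖exp ζ‖ > r` iff `Re ζ > log r`) is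
preconnected, disjoint from `closedBall c r` and `E`, and meets `W` (`y ∈ closure W`, `W ∩ closedBall c r = ∅`).
Since `W` is open and relatively closed in the complement of `closedBall c r ∪ E` (`hWcl`), `N \ closedBall c r ⊆ W`.
(1) `sphere c r ∩ closure W` is relatively open and closed in the sphere (`isPreconnected_sphere`,
`Complex.rank_real_complex`), nonempty: so the sphere is contained in `closure W`.  (Points of the sphere in `closure W` are not in `E`
by `hE`.)
(2) `closedBall c r ∪ W` is a neighbourhood of every point of the compact set `closedBall c r`: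
`IsCompact.exists_thickening_subset_open` or `exists_cthickening` gives `r'`.
-/

namespace MD12

open Complex Metric Set Filter Topology

theorem topA_local {W E : Set ℂ} (hWo : IsOpen W) (hEc : IsClosed E) {c : ℂ} {r : ℝ} (hr : 0 < r)
    (hWB : Disjoint W (closedBall c r))
    (hWcl : ∀ z ∈ closure W, z ∉ closedBall c r → z ∉ E → z ∈ W)
    {y : ℂ} (hy : y ∈ sphere c r) (hyW : y ∈ closure W) (hyE : y ∉ E) :
    y ∈ interior (W ∪ closedBall c r) := by
  have hnorm : ‖y - c‖ = r := by simpa [dist_eq_norm] using hy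
  have hne : y - c ≠ 0 := by
    intro h; rw [h, norm_zero] at hnorm; linarith
  obtain ⟨ζ₀, hζ₀⟩ : ∃ ζ₀ : ℂ, exp ζ₀ = y - c := ⟨log (y - c), exp_log hne⟩
  have hre : Real.exp ζ₀.re = r := by
    rw [← hnorm, ← hζ₀, Complex.norm_exp]
  have hcont : Continuous (fun ζ : ℂ => c + exp ζ) := by fun_prop
  have hopen : IsOpen ((fun ζ : ℂ => c + exp ζ) ⁻¹' Eᶜ) := hEc.isOpen_compl.preimage hcont
  have hmem : ζ₀ ∈ ((fun ζ : ℂ => c + exp ζ) ⁻¹' Eᶜ) := by
    simp only [mem_preimage, hζ₀]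
    simpa using hyE
  obtain ⟨ε, hε, hball⟩ := Metric.isOpen_iff.mp hopen ζ₀ hmem
  set δ : ℝ := ε / 2 with hδ
  have hδ0 : 0 < δ := by positivity
  set R : Set ℂ := {ζ | (ζ₀.re - δ < ζ.re ∧ ζ.re < ζ₀.re + δ) ∧ (ζ₀.im - δ < ζ.im ∧ ζ.im < ζ₀.im + δ)} with hR
  have hRsub : R ⊆ ball ζ₀ ε := by
    rintro ζ ⟨⟨h1, h2⟩, h3, h4⟩
    rw [mem_ball, dist_eq_norm]
    have h5 := Complex.norm_le_abs_re_add_abs_im (ζ - ζ₀)
    have h6 : |(ζ - ζ₀).re| < δ := by rw [sub_re, abs_lt]; constructor <;> linarith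
    have h7 : |(ζ - ζ₀).im| < δ := by rw [sub_im, abs_lt]; constructor <;> linarith
    linarith
  have hRopen : IsOpen R := by
    have e : R = (re ⁻¹' Ioo (ζ₀.re - δ) (ζ₀.re + δ)) ∩ (im ⁻¹' Ioo (ζ₀.im - δ) (ζ₀.im + δ)) := by
      ext ζ; simp [hR, mem_Ioo]
    rw [e]
    exact (isOpen_Ioo.preimage continuous_re).inter (isOpen_Ioo.preimage continuous_im)
  have hexpo : IsOpenMap (fun ζ : ℂ => c + exp ζ) := by
    have h1 : IsOpenMap (fun z : ℂ => c + z) := (Homeomorph.addLeft c).isOpenMap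
    exact h1.comp Complex.isOpenMap_exp
  set N : Set ℂ := (fun ζ : ℂ => c + exp ζ) '' R with hN
  have hNo : IsOpen N := hexpo R hRopen
  have hyN : y ∈ N := by
    refine ⟨ζ₀, ⟨⟨by linarith, by linarith⟩, by linarith, by linarith⟩, ?_⟩
    simp [hζ₀]
  set R' : Set ℂ := {ζ | (ζ₀.re < ζ.re ∧ ζ.re < ζ₀.re + δ) ∧ (ζ₀.im - δ < ζ.im ∧ ζ.im < ζ₀.im + δ)} with hR'
  have hR'conv : Convex ℝ R' := by
    have e : R' = (reLm ⁻¹' Ioo (ζ₀.re) (ζ₀.re + δ)) ∩ (imLm ⁻¹' Ioo (ζ₀.im - δ) (ζ₀.im + δ)) := by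
      ext ζ; simp [hR', mem_Ioo]
    rw [e]
    exact ((convex_Ioo _ _).linear_preimage reLm).inter ((convex_Ioo _ _).linear_preimage imLm)
  set A : Set ℂ := (fun ζ : ℂ => c + exp ζ) '' R' with hA
  have hApre : IsPreconnected A := hR'conv.isPreconnected.image _ hcont.continuousOn
  have hdist : ∀ ζ : ℂ, dist (c + exp ζ) c = Real.exp ζ.re := by
    intro ζ
    rw [dist_eq_norm, add_sub_cancel_left, Complex.norm_exp]
  have hNA : ∀ z ∈ N, z ∉ closedBall c r → z ∈ A := by
    rintro z ⟨ζ, ⟨⟨h1, h2⟩, h3⟩, rfl⟩ hz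
    refine ⟨ζ, ⟨⟨?_, h2⟩, h3⟩, rfl⟩
    rw [mem_closedBall] at hz
    simp only [hdist] at hz
    rw [not_le, ← hre] at hz
    exact Real.exp_lt_exp.mp hz
  have hAN : ∀ z ∈ A, z ∉ closedBall c r ∧ z ∉ E := by
    rintro z ⟨ζ, ⟨⟨h1, h2⟩, h3⟩, rfl⟩
    constructor
    · rw [mem_closedBall]
      simp only [hdist]
      rw [not_le, ← hre]
      exact Real.exp_lt_exp.mpr h1
    · exact hball (hRsub ⟨⟨by linarith, h2⟩, h3⟩)
  have hmeet : (A ∩ W).Nonempty := by
    obtain ⟨w, hwN, hwW⟩ := _root_.mem_closure_iff.mp hyW N hNo hyN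
    exact ⟨w, hNA w hwN (fun h => (disjoint_left.mp hWB hwW h)), hwW⟩
  have hAW : A ⊆ W := by
    apply hApre.subset_of_closure_inter_subset hWo hmeet
    rintro z ⟨hz1, hz2⟩
    exact hWcl z hz1 (hAN z hz2).1 (hAN z hz2).2
  rw [mem_interior]
  refine ⟨N, ?_, hNo, hyN⟩
  intro z hz
  by_cases h : z ∈ closedBall c r
  · exact Or.inr h
  · exact Or.inl (hAW (hNA z hz h))

theorem topA {W E : Set ℂ} (hWo : IsOpen W) (hEc : IsClosed E) {c : ℂ} {r : ℝ} (hr : 0 < r)
    (hWB : Disjoint W (closedBall c r)) (hWE : Disjoint W E)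
    (hWcl : ∀ z ∈ closure W, z ∉ closedBall c r → z ∉ E → z ∈ W)
    (hE : ∀ y ∈ sphere c r, y ∈ closure W → y ∉ E) {y₀ : ℂ} (hy₀ : y₀ ∈ sphere c r)
    (hy₀' : y₀ ∈ closure W) :
    sphere c r ⊆ closure W ∧ ∃ r' : ℝ, r < r' ∧ ∀ z : ℂ, r < dist z c → dist z c < r' → z ∈ W := by
  have hloc : ∀ y ∈ sphere c r, y ∈ closure W → y ∈ interior (W ∪ closedBall c r) :=
    fun y hy hyW => topA_local hWo hEc hr hWB hWcl hy hyW (hE y hy hyW)
  have hback : ∀ y ∈ sphere c r, y ∈ interior (W ∪ closedBall c r) → y ∈ closure W := by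
    intro y hy hyi
    have h1 : y ∈ closure (closedBall c r)ᶜ := by
      have := frontier_closedBall c hr.ne'
      rw [frontier_eq_closure_inter_closure] at this
      rw [← this] at hy
      exact hy.2
    rw [_root_.mem_closure_iff] at h1 ⊢
    intro o ho hyo
    obtain ⟨w, hw1, hw2⟩ := h1 (o ∩ interior (W ∪ closedBall c r)) (ho.inter isOpen_interior) ⟨hyo, hyi⟩
    refine ⟨w, hw1.1, ?_⟩
    rcases interior_subset hw1.2 with h | h
    · exact h
    · exact absurd h hw2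
  have hpre : IsPreconnected (sphere c r) := by
    apply isPreconnected_sphere
    rw [Complex.rank_real_complex]
    norm_num
  have hsub : sphere c r ⊆ interior (W ∪ closedBall c r) := by
    rw [isPreconnected_iff_subset_of_disjoint] at hpre
    rcases hpre (interior (W ∪ closedBall c r)) (closure W)ᶜ isOpen_interior isClosed_closure.isOpen_compl
      (by
        intro y hy
        by_cases h : y ∈ closure W
        · exact Or.inl (hloc y hy h)
        · exact Or.inr h)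
      (by
        apply eq_empty_of_forall_notMem
        rintro y ⟨hy, hy1, hy2⟩
        exact hy2 (hback y hy hy1)) with h | h
    · exact h
    · exact absurd hy₀' (h hy₀)
  refine ⟨fun y hy => hback y hy (hsub hy), ?_⟩
  have hK : closedBall c r ⊆ interior (W ∪ closedBall c r) := by
    intro z hz
    rcases eq_or_lt_of_le (mem_closedBall.mp hz) with h | h
    · exact hsub (mem_sphere.mpr h)
    · have h2 : ball c r ⊆ interior (W ∪ closedBall c r) :=
        interior_maximal (ball_subset_closedBall.trans subset_union_right) isOpen_ball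
      exact h2 (mem_ball.mpr h)
  obtain ⟨δ, hδ, hsubδ⟩ := (isCompact_closedBall c r).exists_cthickening_subset_open isOpen_interior hK
  refine ⟨r + δ, by linarith, fun z hz1 hz2 => ?_⟩
  have hz3 : z ∈ cthickening δ (closedBall c r) := by
    rw [cthickening_closedBall hδ.le hr.le]
    rw [mem_closedBall]; linarith
  rcases interior_subset (hsubδ hz3) with h | h
  · exact h
  · rw [mem_closedBall] at h; linarith

end MD12

end S_TOPA

section S_TOP3

/-! # TOP3: the two families coincide or there is a clean outer disk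

Notation: `B c = closedBall c.1 c.2`, `S c = sphere c.1 c.2`, `U c = ball c.1 c.2`.  For `c ∈ s₁ ∪ s₂`: `W` is open and disjoint from `B c`, so
`closure W ∩ U c = ∅`.
Let `O` be the set of `c ∈ s₁ ∪ s₂` with `S c ∩ closure W ≠ ∅` (outer).
(A) for `c ∈ O` apply `topA` with `E = ⋃` of the `B c'`, `c' ∈ s₁ ∪ s₂`, `c' ≠ c`.  `hE`: let `y ∈ S c ∩ closure W`, `y ∈ B c'`, `c' ≠ c`.  If `c`, `c'` are in one
family: contradiction to disjointness.  Otherwise `y ∉ U c'`, so `y ∈ S c'` and `hno` gives `c = c'`, contradiction.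
So `S c ⊆ closure W` and there is the annulus.
(B) distinct `c, c' ∈ O` have disjoint `B c`, `B c'`: `S c ∩ U c' = ∅` and `S c' ∩ U c = ∅` (both spheres are in `closure W`).  `U c'` is connected and
misses `S c`: `U c' ⊆ U c` or `U c' ∩ B c = ∅`.  In the first case `S c' ⊆ B c`, and `S c' ∩ U c = ∅`, so `S c' ⊆ S c`, which forces
`c = c'` (three points / antipodal points of a circle).  So `U c' ∩ B c = ∅ = U c ∩ B c'`, and a common point is in `S c ∩ S c'`, in
`closure W`: excluded by `hE` of (A).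
(C) `M = W ∪ ⋃_{c ∈ O} B c` is open ((A): each `B c ∪ W` is a neighbourhood of `B c`) and closed (a point of `closure W` is in `W` or
in some `B c`, and then in `S c`, so `c ∈ O`; finite unions of closed sets): `M = univ` (`W` nonempty, `ℂ` connected).
So for every `c' ∈ s₁ ∪ s₂`: `B c' ⊆ ⋃_{c ∈ O} B c`, and, `B c'` being connected and the `B c` (`c ∈ O`) closed and disjoint,
`B c' ⊆ B c` for one `c ∈ O`.
(D) If every `c ∈ O` is in both families: `c' ∈ s₁` is in `B c` for some `c ∈ O ⊆ s₁`, so `c' = c` (disjointness); the same for `s₂`: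
`s₁ = O = s₂`.
(E) Otherwise there is `c ∈ O` in exactly one family, say `c ∈ s₁`, `c ∉ s₂`: second alternative: let `c' ∈ s₂`, `B c' ⊆ B c₂`, `c₂ ∈ O`.
If `c₂ ≠ c`: disjoint from `B c` by (B).  If `c₂ = c`: `B c' ⊆ B c`, and `S c ∩ B c' = ∅` by `hE` of (A) (`c' ≠ c`), so `B c' ⊆ U c`.
-/

namespace MD12

open Complex Metric Set Filter Topology

/-- `c` is an outer disk, separated from the disks of the family `s` -/
def Outer (W : Set ℂ) (c : ℂ × ℝ) (s : Finset (ℂ × ℝ)) : Prop :=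
  (∃ r' : ℝ, c.2 < r' ∧ ∀ z : ℂ, c.2 < dist z c.1 → dist z c.1 < r' → z ∈ W) ∧
  ∀ c' ∈ s, closedBall c'.1 c'.2 ⊆ ball c.1 c.2 ∨ Disjoint (closedBall c'.1 c'.2) (closedBall c.1 c.2)

theorem top3_dich {c c' : ℂ × ℝ} (h : Disjoint (closedBall c'.1 c'.2) (sphere c.1 c.2)) :
    closedBall c'.1 c'.2 ⊆ ball c.1 c.2 ∨ Disjoint (closedBall c'.1 c'.2) (closedBall c.1 c.2) := by
  have hconn : IsPreconnected (closedBall c'.1 c'.2) := (convex_closedBall _ _).isPreconnected
  have hcov : closedBall c'.1 c'.2 ⊆ ball c.1 c.2 ∪ (closedBall c.1 c.2)ᶜ := by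
    intro z hz
    by_cases h1 : z ∈ closedBall c.1 c.2
    · left
      have h2 : z ∉ sphere c.1 c.2 := fun h3 => Set.disjoint_left.1 h hz h3
      rw [mem_closedBall] at h1
      rw [mem_sphere] at h2
      rw [mem_ball]
      exact lt_of_le_of_ne h1 h2
    · exact Or.inr h1
  by_cases hne : (closedBall c'.1 c'.2 ∩ ball c.1 c.2).Nonempty
  · left
    have := hconn.subset_left_of_subset_union isOpen_ball isClosed_closedBall.isOpen_compl
      (Set.disjoint_left.2 fun x hx hx' => hx' (ball_subset_closedBall hx)) hcov hne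
    exact this
  · right
    rw [Set.disjoint_left]
    intro z hz hz'
    rcases hcov hz with h1 | h1
    · exact hne ⟨z, hz, h1⟩
    · exact h1 hz'

theorem top3 {s₁ s₂ : Finset (ℂ × ℝ)} (hp₁ : ∀ c ∈ s₁, 0 < c.2) (hp₂ : ∀ c ∈ s₂, 0 < c.2)
    (hd₁ : ∀ c ∈ s₁, ∀ c' ∈ s₁, c ≠ c' → Disjoint (closedBall c.1 c.2) (closedBall c'.1 c'.2))
    (hd₂ : ∀ c ∈ s₂, ∀ c' ∈ s₂, c ≠ c' → Disjoint (closedBall c.1 c.2) (closedBall c'.1 c'.2))
    {W : Set ℂ} (hWo : IsOpen W) (hWne : W.Nonempty)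
    (hW₁ : ∀ c ∈ s₁, Disjoint W (closedBall c.1 c.2))
    (hW₂ : ∀ c ∈ s₂, Disjoint W (closedBall c.1 c.2))
    (hWcl : ∀ z ∈ closure W, (∀ c ∈ s₁, z ∉ closedBall c.1 c.2) →
      (∀ c ∈ s₂, z ∉ closedBall c.1 c.2) → z ∈ W)
    (hno : ∀ x ∈ closure W, ∀ c ∈ s₁, ∀ c' ∈ s₂, x ∈ sphere c.1 c.2 → x ∈ sphere c'.1 c'.2 →
      c = c') :
    s₁ = s₂ ∨ (∃ c ∈ s₁, Outer W c s₂) ∨ (∃ c ∈ s₂, Outer W c s₁) := by
  classical
  set S : Finset (ℂ × ℝ) := s₁ ∪ s₂ with hS
  have hpS : ∀ c ∈ S, 0 < c.2 := by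
    intro c hc
    rcases Finset.mem_union.1 hc with h | h
    · exact hp₁ c h
    · exact hp₂ c h
  have hWS : ∀ c ∈ S, Disjoint W (closedBall c.1 c.2) := by
    intro c hc
    rcases Finset.mem_union.1 hc with h | h
    · exact hW₁ c h
    · exact hW₂ c h
  have hclB : ∀ c ∈ S, Disjoint (closure W) (ball c.1 c.2) := fun c hc =>
    ((hWS c hc).mono_right ball_subset_closedBall).closure_left isOpen_ball
  have hsph : ∀ c ∈ S, ∀ y ∈ closure W, y ∈ closedBall c.1 c.2 → y ∈ sphere c.1 c.2 := by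
    intro c hc y hy hyb
    have h1 : y ∉ ball c.1 c.2 := fun h => Set.disjoint_left.1 (hclB c hc) hy h
    rw [mem_ball, not_lt] at h1
    rw [mem_closedBall] at hyb
    rw [mem_sphere]
    exact le_antisymm hyb h1
  have hEc : ∀ c ∈ S, ∀ y ∈ sphere c.1 c.2, y ∈ closure W → ∀ c' ∈ S, c' ≠ c →
      y ∉ closedBall c'.1 c'.2 := by
    intro c hc y hy hyW c' hc' hne hyb
    have hys := hsph c' hc' y hyW hyb
    rcases Finset.mem_union.1 hc with h | h <;> rcases Finset.mem_union.1 hc' with h' | h'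
    · exact Set.disjoint_left.1 (hd₁ c h c' h' hne.symm) (sphere_subset_closedBall hy) hyb
    · exact hne (hno y hyW c h c' h' hy hys).symm
    · exact hne (hno y hyW c' h' c h hys hy)
    · exact Set.disjoint_left.1 (hd₂ c h c' h' hne.symm) (sphere_subset_closedBall hy) hyb
  set O : Finset (ℂ × ℝ) := S.filter (fun c => (sphere c.1 c.2 ∩ closure W).Nonempty) with hO
  have hA : ∀ c ∈ O, sphere c.1 c.2 ⊆ closure W ∧
      ∃ r' : ℝ, c.2 < r' ∧ ∀ z : ℂ, c.2 < dist z c.1 → dist z c.1 < r' → z ∈ W := by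
    intro c hc
    obtain ⟨hcS, y₀, hy₀, hy₀'⟩ := Finset.mem_filter.1 hc
    have hEcl : IsClosed (⋃ c' ∈ S.erase c, closedBall c'.1 c'.2) :=
      isClosed_biUnion_finset fun c' _ => isClosed_closedBall
    refine topA hWo hEcl (hpS c hcS) (hWS c hcS) ?_ ?_ ?_ hy₀ hy₀'
    · rw [Set.disjoint_left]
      intro z hz hz'
      obtain ⟨c', hc', hz''⟩ := Set.mem_iUnion₂.1 hz'
      exact Set.disjoint_left.1 (hWS c' (Finset.mem_of_mem_erase hc')) hz hz''
    · intro z hz hzc hzE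
      have hall : ∀ c' ∈ S, z ∉ closedBall c'.1 c'.2 := by
        intro c' hc' hzc'
        by_cases h : c' = c
        · subst h; exact hzc hzc'
        · exact hzE (Set.mem_iUnion₂.2 ⟨c', Finset.mem_erase.2 ⟨h, hc'⟩, hzc'⟩)
      exact hWcl z hz (fun c' h => hall c' (Finset.mem_union_left _ h))
        (fun c' h => hall c' (Finset.mem_union_right _ h))
    · intro y hy hyW hyE
      obtain ⟨c', hc', hy'⟩ := Set.mem_iUnion₂.1 hyE
      exact hEc c hcS y hy hyW c' (Finset.mem_of_mem_erase hc') (Finset.ne_of_mem_erase hc') hy'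
  have hOuter : ∀ c ∈ O, ∀ s : Finset (ℂ × ℝ), s ⊆ S → c ∉ s → Outer W c s := by
    intro c hc s hs hcs
    refine ⟨(hA c hc).2, fun c' hc' => top3_dich ?_⟩
    rw [Set.disjoint_left]
    intro y hy hy'
    exact hEc c (Finset.mem_filter.1 hc).1 y hy' ((hA c hc).1 hy') c' (hs hc')
      (fun h => hcs (h ▸ hc')) hy
  by_cases hboth : ∀ c ∈ O, c ∈ s₁ ∧ c ∈ s₂
  · left
    -- the set `M`
    have hM : W ∪ (⋃ c ∈ O, closedBall c.1 c.2) = univ := by
      have hopen : IsOpen (W ∪ (⋃ c ∈ O, closedBall c.1 c.2)) := by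
        rw [isOpen_iff_mem_nhds]
        rintro z (hz | hz)
        · exact Filter.mem_of_superset (hWo.mem_nhds hz) subset_union_left
        · obtain ⟨c, hc, hzc⟩ := Set.mem_iUnion₂.1 hz
          obtain ⟨r', hr', hann⟩ := (hA c hc).2
          have hzb : z ∈ ball c.1 r' := lt_of_le_of_lt (mem_closedBall.1 hzc) hr'
          refine Filter.mem_of_superset (isOpen_ball.mem_nhds hzb) ?_
          intro w hw
          by_cases hwc : dist w c.1 ≤ c.2
          · exact Or.inr (Set.mem_iUnion₂.2 ⟨c, hc, hwc⟩)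
          · exact Or.inl (hann w (not_le.1 hwc) hw)
      have hclosed : IsClosed (W ∪ (⋃ c ∈ O, closedBall c.1 c.2)) := by
        rw [← closure_subset_iff_isClosed, closure_union]
        have hU : IsClosed (⋃ c ∈ O, closedBall c.1 c.2) :=
          isClosed_biUnion_finset fun c _ => isClosed_closedBall
        rw [hU.closure_eq]
        rintro z (hz | hz)
        · by_cases hall : ∀ c ∈ S, z ∉ closedBall c.1 c.2
          · exact Or.inl (hWcl z hz (fun c' h => hall c' (Finset.mem_union_left _ h))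
              (fun c' h => hall c' (Finset.mem_union_right _ h)))
          · push Not at hall
            obtain ⟨c, hc, hzc⟩ := hall
            exact Or.inr (Set.mem_iUnion₂.2 ⟨c, Finset.mem_filter.2 ⟨hc, z, hsph c hc z hz hzc, hz⟩, hzc⟩)
        · exact Or.inr hz
      exact IsClopen.eq_univ ⟨hclosed, hopen⟩ (hWne.mono subset_union_left)
    have hcen : ∀ c' ∈ S, ∃ c ∈ O, c'.1 ∈ closedBall c.1 c.2 := by
      intro c' hc'
      have h1 : c'.1 ∈ W ∪ (⋃ c ∈ O, closedBall c.1 c.2) := by rw [hM]; trivial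
      have h2 : c'.1 ∈ closedBall c'.1 c'.2 := mem_closedBall_self (hpS c' hc').le
      rcases h1 with h1 | h1
      · exact absurd h2 (Set.disjoint_left.1 (hWS c' hc') h1)
      · obtain ⟨c, hc, h⟩ := Set.mem_iUnion₂.1 h1
        exact ⟨c, hc, h⟩
    apply Finset.Subset.antisymm
    · intro c' hc'
      obtain ⟨c, hc, h⟩ := hcen c' (Finset.mem_union_left _ hc')
      have : c' = c := by
        by_contra hne
        exact Set.disjoint_left.1 (hd₁ c' hc' c (hboth c hc).1 hne)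
          (mem_closedBall_self (hp₁ c' hc').le) h
      rw [this]; exact (hboth c hc).2
    · intro c' hc'
      obtain ⟨c, hc, h⟩ := hcen c' (Finset.mem_union_right _ hc')
      have : c' = c := by
        by_contra hne
        exact Set.disjoint_left.1 (hd₂ c' hc' c (hboth c hc).2 hne)
          (mem_closedBall_self (hp₂ c' hc').le) h
      rw [this]; exact (hboth c hc).1
  · right
    push Not at hboth
    obtain ⟨c, hc, hcn⟩ := hboth
    rcases Finset.mem_union.1 (Finset.mem_filter.1 hc).1 with h | h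
    · exact Or.inl ⟨c, h, hOuter c hc s₂ Finset.subset_union_right (hcn h)⟩
    · refine Or.inr ⟨c, h, hOuter c hc s₁ Finset.subset_union_left (fun h1 => hcn h1 h)⟩

end MD12

end S_TOP3

section S_MAXP

/-! # MAXP: maximum principle on the whole sphere

`har_localMax`: near `x`, `f = Re F`, `F` analytic on a ball; `exp ∘ F` has a local maximum of the norm at `x`, so it is
locally constant (`Complex.eventually_eq_of_isLocalMax_norm`), so `f = log |exp F|` is.

`maxp`.  `E = {z | ∀ C ∈ I, 0 ≤ C.Q z}` is closed, contains all large `z` (`0 < C.a`, `C.Q z → ∞`), `V` is harmonic at the points of `E`.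
Let `M` be the supremum of `V` on `E` (finite: `V` is bounded near infinity because `g` is continuous at `0`; continuous on the compact rest).
(1) If `M ≤ g 0`: then `g w = V w⁻¹ ≤ g 0` for small `w ≠ 0`: local maximum of `g` at `0`, `g` is constant near `0`, so `V` is constant near
every large `z₀`.
(2) `g 0 < M`: then `V < M' < M` near infinity, and `V` attains `M` on `E` at some `p` (compactness).
 (2a) all `C.Q p > 0`: `p` is an interior point of `E`: local maximum: `V` is constant near `p`.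
 (2b) `C.Q p = 0` for one `C ∈ I`; the others are positive at `p` (`hN.dis`).  Let `h` be from `hN.ts C`.
 `h ≤ M` on `{C.Q < 0}`: this set is an open disk (`0 < C.a`), for `z → y`, `C.Q y = 0`: `κ h z = V z - γ V (R z) → (1-γ) V y = κ V y`, so
 `h z → V y ≤ M`.  The function `h` (extended by `V` to the circle) is continuous on the closed disk; let it attain its maximum at `q`.  If `q` is in
 the open disk then `h` is constant near `q`, hence on the disk (`har_ident`), and its boundary limit is `V y ≤ M`.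
 `F z = V z + V (R z)` is harmonic near `p` (`har_comp_R`), `F p = 2 M`.  For `z` near `p` with `C.Q z > 0`: `R z` is inside and the relation at `R z`
 (`R (R z) = z`) gives `V (R z) = γ V z + κ h (R z)`, `F z = (1+γ) V z + κ h (R z) ≤ 2 M` (`κ = 1 - γ > 0`, `1 + γ > 0`);
 for `C.Q z < 0`: `F z = F (R z) ≤ 2M`; for `C.Q z = 0`: `F z = 2 V z ≤ 2M`.  So `F` has a local maximum at `p`: `F = 2M` near `p`, and so `V z = M` for `z`
 near `p` with `C.Q z > 0` (both terms must be maximal).  Take for `z₀` such a point (`p` is in the closure of `{C.Q > 0}`: e.g. move away from the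
 center; `{C.Q > 0}` is open).
-/

namespace MD12

open Complex Metric Set Filter Topology InnerProductSpace
open scoped ComplexConjugate

theorem har_localMax {f : ℂ → ℝ} {x : ℂ} (hf : HarmonicAt f x) (hm : IsLocalMax f x) :
    f =ᶠ[𝓝 x] fun _ => f x := by
  obtain ⟨F, hF, he⟩ := hco_exists hf
  have hx : f x = (F x).re := he.self_of_nhds
  have hd : ∀ᶠ z in 𝓝 x, DifferentiableAt ℂ (fun w => Complex.exp (F w)) z := by
    filter_upwards [hF.eventually_analyticAt] with z hz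
    exact hz.differentiableAt.cexp
  have hc : IsLocalMax (norm ∘ fun w => Complex.exp (F w)) x := by
    have hm' : ∀ᶠ z in 𝓝 x, f z ≤ f x := hm
    show ∀ᶠ z in 𝓝 x, (norm ∘ fun w => Complex.exp (F w)) z ≤ (norm ∘ fun w => Complex.exp (F w)) x
    filter_upwards [hm', he] with z hz hz2
    simp only [Function.comp, Complex.norm_exp]
    rw [← hz2, ← hx]
    exact Real.exp_le_exp.2 hz
  have h1 := Complex.eventually_eq_of_isLocalMax_norm hd hc
  filter_upwards [h1, he] with z hz hz2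
  have h2 : ‖Complex.exp (F z)‖ = ‖Complex.exp (F x)‖ := by rw [hz]
  rw [Complex.norm_exp, Complex.norm_exp, ← hz2, ← hx] at h2
  exact Real.exp_injective h2

/-- `Q` is convex if `0 ≤ a` -/
theorem maxp_convex (C : GD) (ha : 0 ≤ C.a) (x y : ℂ) {s t : ℝ} (hs : 0 ≤ s) (ht : 0 ≤ t)
    (hst : s + t = 1) : C.Q (s * x + t * y) ≤ s * C.Q x + t * C.Q y := by
  have key : s * C.Q x + t * C.Q y - C.Q (s * x + t * y) =
      C.a * (s * t * ‖x - y‖ ^ 2) := by
    have ht' : t = 1 - s := by linarith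
    subst ht'
    unfold GD.Q
    simp only [← Complex.normSq_eq_norm_sq, Complex.normSq_apply, Complex.add_re,
        Complex.add_im, Complex.mul_re, Complex.mul_im, Complex.conj_re, Complex.conj_im,
        Complex.ofReal_re, Complex.ofReal_im, Complex.sub_re, Complex.sub_im]
    ring
  have : 0 ≤ C.a * (s * t * ‖x - y‖ ^ 2) := by positivity
  linarith

theorem maxp_conv_set (C : GD) (ha : 0 ≤ C.a) : Convex ℝ {z : ℂ | C.Q z < 0} := by
  intro x hx y hy s t hs ht hst
  simp only [Set.mem_ofPred_eq] at hx hy ⊢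
  have h1 := maxp_convex C ha x y hs ht hst
  rw [Complex.real_smul, Complex.real_smul]
  rcases hs.eq_or_lt with h | h
  · have : t = 1 := by linarith
    subst this
    rw [← h] at h1 ⊢
    linarith
  · nlinarith [mul_nonneg ht (neg_nonneg.2 hy.le), mul_pos h (neg_pos.2 hx)]

/-- the center -/
theorem maxp_center (C : GD) (ha : 0 < C.a) : ∃ c : ℂ, C.Q c < 0 := by
  refine ⟨-C.b / C.a, ?_⟩
  have hac : (C.a : ℂ) ≠ 0 := by exact_mod_cast ha.ne'
  have h1 : C.a * C.Q (-C.b / C.a) = ‖(C.a : ℂ) * (-C.b / C.a) + C.b‖ ^ 2 - (‖C.b‖ ^ 2 - C.a * C.d) := by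
    unfold GD.Q
    generalize -C.b / (C.a : ℂ) = z
    simp only [← Complex.normSq_eq_norm_sq, Complex.normSq_apply, Complex.add_re,
      Complex.add_im, Complex.mul_re, Complex.mul_im, Complex.conj_re, Complex.conj_im,
      Complex.ofReal_re, Complex.ofReal_im]
    ring
  have h2 : (C.a : ℂ) * (-C.b / C.a) + C.b = 0 := by field_simp; ring
  rw [h2, norm_zero] at h1
  have := C.pos
  by_contra hcon
  push Not at hcon
  have := mul_nonneg ha.le hcon
  rw [h1] at this
  linarith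

theorem maxp_large (C : GD) (ha : 0 < C.a) : ∀ᶠ z : ℂ in cocompact ℂ, 0 < C.Q z := by
  have h1 : ∀ z : ℂ, C.a * ‖z‖ ^ 2 - 2 * ‖C.b‖ * ‖z‖ + C.d ≤ C.Q z := by
    intro z
    unfold GD.Q
    have h2 : |(conj C.b * z).re| ≤ ‖C.b‖ * ‖z‖ := by
      refine (Complex.abs_re_le_norm _).trans ?_
      rw [norm_mul, Complex.norm_conj]
    have := (abs_le.1 h2).1
    linarith
  have h2 : Tendsto (fun z : ℂ => ‖z‖) (cocompact ℂ) atTop := tendsto_norm_cocompact_atTop
  have h3 : ∀ᶠ z : ℂ in cocompact ℂ, (2 * ‖C.b‖ + |C.d| + 1) / C.a + 1 < ‖z‖ :=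
    h2.eventually (eventually_gt_atTop _)
  filter_upwards [h3] with z hz
  refine lt_of_lt_of_le ?_ (h1 z)
  have h4 : (2 * ‖C.b‖ + |C.d| + 1) / C.a < ‖z‖ := by linarith
  rw [div_lt_iff₀ ha] at h4
  have h5 : 0 ≤ (2 * ‖C.b‖ + |C.d| + 1) / C.a := by positivity
  have h6 : 1 < ‖z‖ := by linarith
  have h7 : -|C.d| ≤ C.d := neg_abs_le _
  have h8 : (2 * ‖C.b‖ + |C.d| + 1) * ‖z‖ ≤ ‖z‖ * C.a * ‖z‖ := by
    apply mul_le_mul_of_nonneg_right h4.le (norm_nonneg z)
  have h9 : |C.d| ≤ |C.d| * ‖z‖ := by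
    have := abs_nonneg C.d
    nlinarith
  nlinarith

/-- the closed disk is compact -/
theorem maxp_compact (C : GD) (ha : 0 < C.a) : IsCompact {z : ℂ | C.Q z ≤ 0} := by
  refine Metric.isCompact_of_isClosed_isBounded (isClosed_le C.continuous_Q continuous_const) ?_
  have h := maxp_large C ha
  rw [← Metric.cobounded_eq_cocompact] at h
  have h2 : {z : ℂ | 0 < C.Q z} ∈ Bornology.cobounded ℂ := h
  have h3 : Bornology.IsBounded ({z : ℂ | 0 < C.Q z}ᶜ) := by
    rwa [Bornology.isBounded_def, compl_compl]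
  refine h3.subset ?_
  intro z hz
  simp only [Set.mem_compl_iff, Set.mem_ofPred_eq] at hz ⊢
  linarith

theorem maxp_closure_neg (C : GD) (ha : 0 < C.a) {p : ℂ} (hp : C.Q p = 0) :
    ∃ᶠ z in 𝓝 p, C.Q z < 0 := by
  obtain ⟨c, hc⟩ := maxp_center C ha
  have hlim : Tendsto (fun t : ℝ => ((1 - t : ℝ) : ℂ) * p + (t : ℂ) * c) (𝓝[>] 0) (𝓝 p) := by
    have hcont : Continuous fun t : ℝ => ((1 - t : ℝ) : ℂ) * p + (t : ℂ) * c := by fun_prop
    have := (hcont.tendsto 0).mono_left (nhdsWithin_le_nhds (s := Ioi 0))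
    simpa using this
  have hev : ∀ᶠ t : ℝ in 𝓝[>] 0, C.Q (((1 - t : ℝ) : ℂ) * p + (t : ℂ) * c) < 0 := by
    have h1 : ∀ᶠ t : ℝ in 𝓝[>] 0, t < 1 := nhdsWithin_le_nhds (Iio_mem_nhds one_pos)
    filter_upwards [h1, self_mem_nhdsWithin] with t ht1 ht0
    have ht0' : 0 < t := ht0
    have h2 := maxp_convex C ha.le p c (s := 1 - t) (t := t) (by linarith) ht0'.le (by ring)
    rw [hp] at h2
    have := mul_pos ht0' (neg_pos.2 hc)
    linarith
  exact hlim.frequently hev.frequently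

theorem maxp_closure_pos (C : GD) (ha : 0 < C.a) {p : ℂ} (hp : C.Q p = 0) :
    ∃ᶠ z in 𝓝 p, 0 < C.Q z := by
  obtain ⟨c, hc⟩ := maxp_center C ha
  have hlim : Tendsto (fun t : ℝ => p + (t : ℂ) * (p - c)) (𝓝[>] 0) (𝓝 p) := by
    have hcont : Continuous fun t : ℝ => p + (t : ℂ) * (p - c) := by fun_prop
    have := (hcont.tendsto 0).mono_left (nhdsWithin_le_nhds (s := Ioi 0))
    simpa using this
  have hev : ∀ᶠ t : ℝ in 𝓝[>] 0, 0 < C.Q (p + (t : ℂ) * (p - c)) := by
    filter_upwards [self_mem_nhdsWithin] with t ht0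
    have ht0' : 0 < t := ht0
    have ht1 : 0 < 1 + t := by linarith
    have h2 := maxp_convex C ha.le (p + (t : ℂ) * (p - c)) c (s := 1 / (1 + t)) (t := t / (1 + t))
      (by positivity) (by positivity) (by field_simp)
    have h3 : ((1 / (1 + t) : ℝ) : ℂ) * (p + (t : ℂ) * (p - c)) + ((t / (1 + t) : ℝ) : ℂ) * c = p := by
      have : ((1 + t : ℝ) : ℂ) ≠ 0 := by exact_mod_cast ht1.ne'
      push_cast at this ⊢
      field_simp
      ring
    rw [h3, hp] at h2
    have h4 : 0 ≤ C.Q (p + (t : ℂ) * (p - c)) + t * C.Q c := by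
      have h5 : 1 / (1 + t) * C.Q (p + (t : ℂ) * (p - c)) + t / (1 + t) * C.Q c =
        (C.Q (p + (t : ℂ) * (p - c)) + t * C.Q c) / (1 + t) := by ring
      rw [h5] at h2
      by_contra hcon
      push Not at hcon
      have := div_neg_of_neg_of_pos hcon ht1
      linarith
    have := mul_pos ht0' (neg_pos.2 hc)
    linarith
  exact hlim.frequently hev.frequently

/-- boundary values of `h` -/
theorem maxp_lim {γ κ : ℝ} (hκ : κ = 1 - γ) (hκ0 : κ ≠ 0) {V h : ℂ → ℝ} (C : GD) {y : ℂ}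
    (hy : C.Q y = 0) (hV : HarmonicAt V y)
    (ht : ∀ᶠ z in 𝓝 y, C.Q z < 0 → V z - γ * V (C.R z) = κ * h z) :
    Tendsto h (𝓝[{z | C.Q z < 0}] y) (𝓝 (V y)) := by
  have hden := C.den_ne_of_Q_zero hy
  have hR : C.R y = y := C.R_of_Q_zero hy
  have hVc := har_continuousAt hV
  have h1 : Tendsto (fun z => (V z - γ * V (C.R z)) / κ) (𝓝 y) (𝓝 ((V y - γ * V y) / κ)) := by
    have h2 : Tendsto (fun z => V (C.R z)) (𝓝 y) (𝓝 (V y)) := by
      have h3 : Tendsto C.R (𝓝 y) (𝓝 y) := by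
        have := (C.continuousAt_R hden).tendsto
        rwa [hR] at this
      exact hVc.tendsto.comp h3
    exact (hVc.tendsto.sub (h2.const_mul γ)).div_const κ
  have h4 : (V y - γ * V y) / κ = V y := by
    rw [div_eq_iff hκ0, hκ]; ring
  rw [h4] at h1
  refine (h1.mono_left nhdsWithin_le_nhds).congr' ?_
  have h5 : ∀ᶠ z in 𝓝[{z | C.Q z < 0}] y, C.Q z < 0 := self_mem_nhdsWithin
  filter_upwards [h5, ht.filter_mono nhdsWithin_le_nhds] with z hz1 hz2
  rw [hz2 hz1]
  field_simp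

/-- `h ≤ M` inside -/
theorem maxp_inside {γ κ M : ℝ} (hκ : κ = 1 - γ) (hκ0 : κ ≠ 0) {V h : ℂ → ℝ} (C : GD)
    (ha : 0 < C.a) {p : ℂ} (hp : C.Q p = 0)
    (hV : ∀ y, C.Q y = 0 → HarmonicAt V y) (hM : ∀ y, C.Q y = 0 → V y ≤ M)
    (hh : ∀ z, C.Q z < 0 → HarmonicAt h z)
    (ht : ∀ y, C.Q y = 0 → ∀ᶠ z in 𝓝 y, C.Q z < 0 → V z - γ * V (C.R z) = κ * h z) :
    ∀ z, C.Q z < 0 → h z ≤ M := by
  classical
  intro z₂ hz₂
  let H : ℂ → ℝ := fun z => if C.Q z < 0 then h z else V z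
  have hopen : IsOpen {z : ℂ | C.Q z < 0} := C.isOpen
  have hHc : ContinuousOn H {z | C.Q z ≤ 0} := by
    intro y hy
    rcases lt_or_eq_of_le (show C.Q y ≤ 0 from hy) with h0 | h0
    · have h1 : H =ᶠ[𝓝 y] h := by
        filter_upwards [hopen.mem_nhds h0] with z hz
        exact if_pos hz
      exact ((har_continuousAt (hh y h0)).congr h1.symm).continuousWithinAt
    · have h1 := maxp_lim hκ hκ0 C h0 (hV y h0) (ht y h0)
      have h2 : Tendsto V (𝓝[{z | C.Q z ≤ 0}] y) (𝓝 (V y)) :=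
        (har_continuousAt (hV y h0)).continuousWithinAt
      have hHy : H y = V y := if_neg (by rw [h0]; exact lt_irrefl 0)
      show Tendsto H (𝓝[{z | C.Q z ≤ 0}] y) (𝓝 (H y))
      rw [hHy]
      rw [Metric.tendsto_nhdsWithin_nhds] at h1 h2 ⊢
      intro ε hε
      obtain ⟨δ₁, hδ₁, h3⟩ := h1 ε hε
      obtain ⟨δ₂, hδ₂, h4⟩ := h2 ε hε
      refine ⟨min δ₁ δ₂, lt_min hδ₁ hδ₂, ?_⟩
      intro x hx hxd
      by_cases hQ : C.Q x < 0
      · have : H x = h x := if_pos hQ
        rw [this]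
        exact h3 hQ (hxd.trans_le (min_le_left _ _))
      · have : H x = V x := if_neg hQ
        rw [this]
        exact h4 hx (hxd.trans_le (min_le_right _ _))
  obtain ⟨q, hq, hqm⟩ := (maxp_compact C ha).exists_isMaxOn ⟨z₂, hz₂.le⟩ hHc
  have hle : ∀ z, C.Q z ≤ 0 → H z ≤ H q := fun z hz => hqm hz
  have hz2 : h z₂ ≤ H q := by
    have := hle z₂ hz₂.le
    rwa [show H z₂ = h z₂ from if_pos hz₂] at this
  rcases lt_or_eq_of_le (show C.Q q ≤ 0 from hq) with h0 | h0
  · have hHq : H q = h q := if_pos h0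
    have hm : IsLocalMax h q := by
      show ∀ᶠ z in 𝓝 q, h z ≤ h q
      filter_upwards [hopen.mem_nhds h0] with z hz
      have hz' : C.Q z < 0 := hz
      have := hle z hz'.le
      rwa [show H z = h z from if_pos hz', hHq] at this
    have h1 := har_localMax (hh q h0) hm
    have h2 := har_ident (f := h) (g := fun _ => h q) (maxp_conv_set C ha.le).isPreconnected
      (fun z hz => hh z hz) (fun z _ => har_const _ _) h0 h1
    have h3 : ∀ z, C.Q z < 0 → h z = h q := fun z hz => (h2 z hz).self_of_nhds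
    have h4 := maxp_lim hκ hκ0 C hp (hV p hp) (ht p hp)
    have hne : (𝓝[{z | C.Q z < 0}] p).NeBot :=
      mem_closure_iff_nhdsWithin_neBot.1 (mem_closure_iff_frequently.2 (maxp_closure_neg C ha hp))
    have h5 : Tendsto h (𝓝[{z | C.Q z < 0}] p) (𝓝 (h q)) := by
      refine (tendsto_const_nhds (x := h q)).congr' ?_
      have h6 : ∀ᶠ z in 𝓝[{z | C.Q z < 0}] p, C.Q z < 0 := self_mem_nhdsWithin
      filter_upwards [h6] with z hz
      exact (h3 z hz).symm
    have h7 : V p = h q := tendsto_nhds_unique h4 h5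
    rw [h3 z₂ hz₂, ← h7]
    exact hM p hp
  · rw [show H q = V q from if_neg (by rw [h0]; exact lt_irrefl 0)] at hz2
    exact hz2.trans (hM q h0)

theorem maxp {γ κ : ℝ} (h1 : |γ| < 1) (hκ : κ = 1 - γ) {V : ℂ → ℝ} {I : Finset GD}
    (hN : NL γ κ univ ∅ V I) (ha : ∀ C ∈ I, 0 < C.a)
    (hinf : ∃ g : ℂ → ℝ, HarmonicAt g 0 ∧ ∀ᶠ w in 𝓝[≠] (0 : ℂ), V w⁻¹ = g w) :
    ∃ (z₀ : ℂ) (c : ℝ), (∀ C ∈ I, 0 < C.Q z₀) ∧ V =ᶠ[𝓝 z₀] fun _ => c := by
  obtain ⟨g, hg, hgV⟩ := hinf
  have hγ := abs_lt.1 h1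
  have hκ0 : 0 < κ := by rw [hκ]; linarith
  have hlarge : ∀ᶠ z : ℂ in cocompact ℂ, ∀ C ∈ I, 0 < C.Q z := by
    rw [Filter.eventually_all_finset]
    exact fun C hC => maxp_large C (ha C hC)
  have hinv : Tendsto (fun z : ℂ => z⁻¹) (cocompact ℂ) (𝓝[≠] 0) := by
    rw [← Metric.cobounded_eq_cocompact]
    exact tendsto_inv₀_cobounded'
  have hinv2 : Tendsto (fun w : ℂ => w⁻¹) (𝓝[≠] 0) (cocompact ℂ) := by
    rw [← Metric.cobounded_eq_cocompact]
    exact tendsto_inv₀_nhdsNE_zero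
  have hVg : ∀ᶠ z : ℂ in cocompact ℂ, V z = g z⁻¹ := by
    filter_upwards [hinv.eventually hgV] with z hz
    rwa [inv_inv] at hz
  by_cases hcase : ∀ z, (∀ C ∈ I, 0 ≤ C.Q z) → V z ≤ g 0
  · -- maximum at infinity
    have hm : IsLocalMax g 0 := by
      have h2 : ∀ᶠ w in 𝓝[≠] (0 : ℂ), g w ≤ g 0 := by
        filter_upwards [hinv2.eventually hlarge, hgV] with w hw1 hw2
        rw [← hw2]
        exact hcase _ (fun C hC => (hw1 C hC).le)
      show ∀ᶠ w in 𝓝 (0 : ℂ), g w ≤ g 0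
      rw [eventually_nhdsWithin_iff] at h2
      filter_upwards [h2] with w hw
      by_cases hw0 : w = 0
      · rw [hw0]
      · exact hw hw0
    have h3 := har_localMax hg hm
    have h4 : ∀ᶠ z : ℂ in cocompact ℂ, V z = g 0 := by
      have h5 : ∀ᶠ z : ℂ in cocompact ℂ, g z⁻¹ = g 0 :=
        hinv.eventually (h3.filter_mono nhdsWithin_le_nhds)
      filter_upwards [h5, hVg] with z hz1 hz2
      rw [hz2, hz1]
    have h5 : ∀ᶠ z : ℂ in cocompact ℂ, ∀ᶠ w in 𝓝 z, V w = g 0 := by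
      rw [← Metric.cobounded_eq_cocompact] at h4 ⊢
      obtain ⟨r, -, hr⟩ := (Metric.hasBasis_cobounded_compl_closedBall (0 : ℂ)).eventually_iff.1 h4
      refine (Metric.hasBasis_cobounded_compl_closedBall (0 : ℂ)).eventually_iff.2 ⟨r, trivial, ?_⟩
      intro z hz
      filter_upwards [isClosed_closedBall.isOpen_compl.mem_nhds hz] with w hw
      exact hr hw
    obtain ⟨z₀, hz1, hz2⟩ := (h5.and hlarge).exists
    exact ⟨z₀, g 0, hz2, hz1⟩
  · push Not at hcase
    obtain ⟨z₁, hz₁E, hz₁⟩ := hcase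
    -- the maximum is attained
    have hsmall : ∀ᶠ z : ℂ in cocompact ℂ, V z < V z₁ := by
      have h2 : ∀ᶠ w in 𝓝 (0 : ℂ), g w < V z₁ :=
        (har_continuousAt hg).eventually (gt_mem_nhds hz₁)
      have h3 : ∀ᶠ z : ℂ in cocompact ℂ, g z⁻¹ < V z₁ :=
        hinv.eventually (h2.filter_mono nhdsWithin_le_nhds)
      filter_upwards [h3, hVg] with z hz1 hz2
      rwa [hz2]
    let E : Set ℂ := {z | ∀ C ∈ I, 0 ≤ C.Q z}
    have hEc : IsClosed E := by
      have : E = ⋂ C ∈ I, {z | 0 ≤ C.Q z} := by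
        ext z; simp [E]
      rw [this]
      exact isClosed_biInter fun C _ => isClosed_le continuous_const C.continuous_Q
    obtain ⟨p, hpE, hpm⟩ : ∃ p ∈ E, ∀ z ∈ E, V z ≤ V p := by
      rw [← Metric.cobounded_eq_cocompact] at hsmall
      obtain ⟨r, -, hr⟩ := (Metric.hasBasis_cobounded_compl_closedBall (0 : ℂ)).eventually_iff.1 hsmall
      have hcomp : IsCompact (closedBall (0 : ℂ) r ∩ E) :=
        (isCompact_closedBall 0 r).inter_right hEc
      have hz₁r : z₁ ∈ closedBall (0 : ℂ) r := by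
        by_contra hcon
        exact lt_irrefl _ (hr hcon)
      have hcont : ContinuousOn V (closedBall (0 : ℂ) r ∩ E) := fun z hz =>
        (har_continuousAt (hN.har z (mem_univ z) (notMem_empty z) hz.2)).continuousWithinAt
      obtain ⟨p, hp, hpm⟩ := hcomp.exists_isMaxOn ⟨z₁, hz₁r, hz₁E⟩ hcont
      refine ⟨p, hp.2, fun z hz => ?_⟩
      by_cases hzr : z ∈ closedBall (0 : ℂ) r
      · exact hpm ⟨hzr, hz⟩
      · exact (hr hzr).le.trans (hpm ⟨hz₁r, hz₁E⟩)
    have hVp : HarmonicAt V p := hN.har p (mem_univ p) (notMem_empty p) hpE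
    by_cases hint : ∀ C ∈ I, 0 < C.Q p
    · have hm : IsLocalMax V p := by
        have h2 : ∀ᶠ z in 𝓝 p, ∀ C ∈ I, 0 < C.Q z := by
          rw [Filter.eventually_all_finset]
          exact fun C hC => C.continuous_Q.continuousAt.eventually (lt_mem_nhds (hint C hC))
        show ∀ᶠ z in 𝓝 p, V z ≤ V p
        filter_upwards [h2] with z hz
        exact hpm z fun C hC => (hz C hC).le
      exact ⟨p, V p, hint, har_localMax hVp hm⟩
    · push Not at hint
      obtain ⟨C, hC, hCp⟩ := hint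
      have hp0 : C.Q p = 0 := le_antisymm hCp (hpE C hC)
      have haC := ha C hC
      obtain ⟨h, hh, ht⟩ := hN.ts C hC
      have hcE : ∀ y, C.Q y = 0 → y ∈ E := by
        intro y hy C' hC'
        by_cases hCC : C' = C
        · rw [hCC, hy]
        · exact (hN.dis C hC C' hC' (fun h' => hCC h'.symm) y (mem_univ y) hy.le).le
      have hins := maxp_inside (M := V p) hκ hκ0.ne' C haC hp0
        (fun y hy => hN.har y (mem_univ y) (notMem_empty y) (hcE y hy))
        (fun y hy => hpm y (hcE y hy)) (fun z hz => hh z (mem_univ z) hz)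
        (fun y hy => ht y (mem_univ y) hy)
      have hden := C.den_ne_of_Q_zero hp0
      have hRp : C.R p = p := C.R_of_Q_zero hp0
      have hRt : Tendsto C.R (𝓝 p) (𝓝 p) := by
        have := (C.continuousAt_R hden).tendsto
        rwa [hRp] at this
      have hdev : ∀ᶠ z in 𝓝 p, C.den z ≠ 0 :=
        C.continuous_den.continuousAt.eventually (isOpen_ne.mem_nhds hden)
      have hoth : ∀ᶠ z in 𝓝 p, ∀ C' ∈ I, C' ≠ C → 0 < C'.Q z := by
        rw [Filter.eventually_all_finset]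
        intro C' hC'
        by_cases hCC : C' = C
        · exact Eventually.of_forall fun z h' => absurd hCC h'
        · have h2 := hN.dis C hC C' hC' (fun h' => hCC h'.symm) p (mem_univ p) hp0.le
          filter_upwards [C'.continuous_Q.continuousAt.eventually (lt_mem_nhds h2)] with z hz _
          exact hz
      -- the outer side
      have hout : ∀ᶠ z in 𝓝 p, 0 < C.Q z → V z ≤ V p ∧ h (C.R z) ≤ V p ∧
          V z + V (C.R z) = (1 + γ) * V z + κ * h (C.R z) := by
        filter_upwards [hdev, hoth, hRt.eventually (ht p (mem_univ p) hp0)] with z hz1 hz2 hz3 hz4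
        have hRz : C.Q (C.R z) < 0 := (C.Q_R_neg_iff hz1).2 hz4
        refine ⟨hpm z ?_, hins _ hRz, ?_⟩
        · intro C' hC'
          by_cases hCC : C' = C
          · rw [hCC]; exact hz4.le
          · exact (hz2 C' hC' hCC).le
        · have := hz3 hRz
          rw [C.R_R hz1] at this
          linarith
      have hout2 : ∀ᶠ z in 𝓝 p, 0 < C.Q z → V z + V (C.R z) ≤ 2 * V p := by
        filter_upwards [hout] with z hz hz0
        obtain ⟨hz1, hz2, hz3⟩ := hz hz0
        rw [hz3]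
        have e1 := mul_le_mul_of_nonneg_left hz1 (show 0 ≤ 1 + γ by linarith)
        have e2 := mul_le_mul_of_nonneg_left hz2 hκ0.le
        rw [hκ] at e2 ⊢
        linarith
      have hmF : IsLocalMax (fun z => V z + V (C.R z)) p := by
        show ∀ᶠ z in 𝓝 p, V z + V (C.R z) ≤ V p + V (C.R p)
        rw [hRp]
        filter_upwards [hout2, hRt.eventually hout2, hdev] with z hz1 hz2 hz3
        rcases lt_trichotomy (C.Q z) 0 with h0 | h0 | h0
        · have := hz2 ((C.Q_R_pos_iff hz3).2 h0)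
          rw [C.R_R hz3] at this
          linarith
        · rw [C.R_of_Q_zero h0]
          have := hpm z (hcE z h0)
          linarith
        · have := hz1 h0
          linarith
      have hF : HarmonicAt (fun z => V z + V (C.R z)) p :=
        har_add hVp (har_comp_R C hden (by rw [hRp]; exact hVp))
      have hconst := har_localMax hF hmF
      have hVc : ∀ᶠ z in 𝓝 p, 0 < C.Q z → V z = V p := by
        filter_upwards [hout, hconst] with z hz1 hz2 hz0
        obtain ⟨e1, e2, e3⟩ := hz1 hz0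
        have hz2' : V z + V (C.R z) = V p + V (C.R p) := hz2
        rw [hRp, e3] at hz2'
        have e4 := mul_le_mul_of_nonneg_left e2 hκ0.le
        rw [hκ] at e4 hz2'
        have e5 : (1 + γ) * (V p - V z) ≤ 0 := by linarith
        have e6 : 0 < 1 + γ := by linarith
        have e7 : V p - V z ≤ 0 := by
          by_contra hcon
          push Not at hcon
          have := mul_pos e6 hcon
          linarith
        linarith
      obtain ⟨z₀, hz1, hz2, hz3⟩ := ((maxp_closure_pos C haC hp0).and_eventually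
        (hVc.eventually_nhds.and hoth)).exists
      refine ⟨z₀, V p, ?_, ?_⟩
      · intro C' hC'
        by_cases hCC : C' = C
        · rw [hCC]; exact hz1
        · exact hz3 C' hC' hCC
      · filter_upwards [hz2, C.continuous_Q.continuousAt.eventually (lt_mem_nhds hz1)] with w hw1 hw2
        exact hw1 hw2

end MD12

end S_MAXP
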