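import Pool.Agent.H12.MDM.A

/-! # PDE: weak formulation (definitions) -/

namespace MD12

open Complex Metric Set Filter Topology InnerProductSpace MeasureTheory
open scoped ComplexConjugate ContDiff MeasureTheory

/-- smooth compactly supported test functions on the plane -/
def IsTest (φ : ℂ → ℝ) : Prop := ContDiff ℝ ∞ φ ∧ HasCompactSupport φ

/-- `u` is in `W^{1,2}(N)` and its weak gradient is `G` -/
structure Sob (N : Set ℂ) (u : ℂ → ℝ) (G : ℂ → ℂ) : Prop where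
  /-- `u` is square integrable -/
  memu : MemLp u 2 (volume.restrict N)
  /-- the gradient is square integrable -/
  memG : MemLp G 2 (volume.restrict N)
  /-- weak gradient -/
  grad : ∀ φ : ℂ → ℝ, IsTest φ → tsupport φ ⊆ N → ∀ v : ℂ,
    ∫ z in N, u z * fderiv ℝ φ z v = -∫ z in N, inner ℝ (G z) v * φ z

/-- the conductivity `1 + (k-1) χ_D` -/
noncomputable def cond (k : ℝ) (D : Set ℂ) (z : ℂ) : ℝ :=
  1 + (k - 1) * D.indicator (fun _ => (1 : ℝ)) z

/-- local weak form of `div ((1 + (k-1) χ_D) ∇u) = 0` on `N`, `G = ∇u` -/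
def Loc (N : Set ℂ) (k : ℝ) (D : Set ℂ) (G : ℂ → ℂ) : Prop :=
  ∀ φ : ℂ → ℝ, IsTest φ → tsupport φ ⊆ N → ∫ z in N, cond k D z * fderiv ℝ φ z (G z) = 0

/-- weak solution of the Neumann problem with data `g` -/
structure Solves (Ω : Set ℂ) (k : ℝ) (D : Set ℂ) (g u : ℂ → ℝ) (G : ℂ → ℂ) : Prop where
  /-- Sobolev function -/
  sob : Sob Ω u G
  /-- the weak equation, tested with smooth functions on the plane -/
  eq : ∀ φ : ℂ → ℝ, IsTest φ →
    ∫ z in Ω, cond k D z * fderiv ℝ φ z (G z) = ∫ z in frontier Ω, g z * φ z ∂μH[1]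

/-- `u₁` and `u₂` have the same trace on the boundary: `u₁ - u₂`, extended by zero to the plane, has
the weak gradient `G₁ - G₂` extended by zero -/
def SameTrace (Ω : Set ℂ) (u₁ u₂ : ℂ → ℝ) (G₁ G₂ : ℂ → ℂ) : Prop :=
  ∀ φ : ℂ → ℝ, IsTest φ → ∀ v : ℂ,
    ∫ z in Ω, (u₁ z - u₂ z) * fderiv ℝ φ z v = -∫ z in Ω, inner ℝ (G₁ z - G₂ z) v * φ z

/-- finite families of disks (center, radius) with disjoint closures in `Ω` -/
structure MDisk (Ω : Set ℂ) (s : Finset (ℂ × ℝ)) : Prop where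
  /-- positive radii -/
  pos : ∀ c ∈ s, 0 < c.2
  /-- the closed disks are in `Ω` -/
  sub : ∀ c ∈ s, closedBall c.1 c.2 ⊆ Ω
  /-- the closed disks are disjoint -/
  dis : ∀ c ∈ s, ∀ c' ∈ s, c ≠ c' → Disjoint (closedBall c.1 c.2) (closedBall c'.1 c'.2)

/-- the union of the open disks -/
def uni (s : Finset (ℂ × ℝ)) : Set ℂ := ⋃ c ∈ s, ball c.1 c.2

/-- the Laplacian -/
noncomputable def lap (φ : ℂ → ℝ) (z : ℂ) : ℝ :=
  fderiv ℝ (fun w => fderiv ℝ φ w 1) z 1 + fderiv ℝ (fun w => fderiv ℝ φ w I) z I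

/-- weakly harmonic functions -/
def WHar (N : Set ℂ) (u : ℂ → ℝ) : Prop :=
  ∀ φ : ℂ → ℝ, IsTest φ → tsupport φ ⊆ N → ∫ z in N, u z * lap φ z = 0

/-- annulus -/
def ann (c : ℂ) (r R : ℝ) : Set ℂ := {z | r < ‖z - c‖ ∧ ‖z - c‖ < R}

/-- reflection in the circle -/
noncomputable def rfl12 (c : ℂ) (ρ : ℝ) (z : ℂ) : ℂ := c + ρ ^ 2 / conj (z - c)

end MD12
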