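import Mathlib
import Pool.Agent.H12.MDM.PDE
import Pool.Agent.H12.MDM.A

/-! Multiple disks, part F (several modules joined). -/

section S_PDB

/-! # PDB: basic facts on the weak formulation

`inner ℝ a b = (conj a * b).re` (`Complex.inner`), so `fderiv ℝ φ z (G z) = (G z).re * fderiv ℝ φ z 1 + (G z).im * fderiv ℝ φ z I`
`= inner ℝ (G z) 1 * .. + inner ℝ (G z) I * ..`.
* integrals over `N` of functions which vanish outside `N' ⊆ N` are integrals over `N'` (`setIntegral_eq_of_subset_of_forall_diff_eq_zero`; `φ`,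
  `fderiv φ`, `lap φ` vanish outside `tsupport φ`).
* `Solves.loc`: `φ = 0` on `frontier Ω` because `tsupport φ ⊆ N ⊆ Ω` and `Ω` is open (`Ω ∩ frontier Ω = ∅`).
* `sob_lap`: use `grad` for the test functions `fun z => fderiv ℝ φ z 1`, `v = 1` and `fun z => fderiv ℝ φ z I`, `v = I` and add.
* `whar_of_loc`: if `cond k D` is constant (`= a ≠ 0`) on `N`, `∫ u lap φ = -∫ fderiv φ (G) = -a⁻¹ ∫ cond fderiv φ (G) = 0`.
-/

namespace MD12

open Complex Metric Set Filter Topology InnerProductSpace MeasureTheory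
open scoped ComplexConjugate ContDiff MeasureTheory

theorem IsTest.fd {φ : ℂ → ℝ} (h : IsTest φ) (v : ℂ) :
    IsTest (fun z => fderiv ℝ φ z v) ∧ tsupport (fun z => fderiv ℝ φ z v) ⊆ tsupport φ := by
  refine ⟨⟨(h.1.fderiv_right (m := ∞) le_rfl).clm_apply contDiff_const, h.2.fderiv_apply ℝ v⟩,
    tsupport_fderiv_apply_subset ℝ v⟩

theorem IsTest.mul {η φ : ℂ → ℝ} (hη : ContDiff ℝ ∞ η) (h : IsTest φ) :
    IsTest (fun z => η z * φ z) :=
  ⟨hη.mul h.1, h.2.mul_left⟩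

theorem fd_eq (φ : ℂ → ℝ) (z w : ℂ) :
    fderiv ℝ φ z w = inner ℝ w 1 * fderiv ℝ φ z 1 + inner ℝ w I * fderiv ℝ φ z I := by
  have h : w = w.re • (1 : ℂ) + w.im • I := by
    apply Complex.ext <;> simp
  have h1 : inner ℝ w (1 : ℂ) = w.re := by simp [Complex.inner]
  have h2 : inner ℝ w I = w.im := by simp [Complex.inner]
  rw [h1, h2]
  conv_lhs => rw [h]
  rw [map_add, map_smul, map_smul]
  simp

theorem pdb_sub {N N' : Set ℂ} (hN : IsOpen N) (h : N' ⊆ N) {f : ℂ → ℝ}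
    (hf : ∀ z, z ∉ N' → f z = 0) : ∫ z in N', f z = ∫ z in N, f z :=
  (setIntegral_eq_of_subset_of_forall_sdiff_eq_zero hN.measurableSet h
    (fun z hz => hf z hz.2)).symm

theorem pdb_fd0 {φ : ℂ → ℝ} {z : ℂ} (hz : z ∉ tsupport φ) (v : ℂ) : fderiv ℝ φ z v = 0 := by
  have h : z ∉ tsupport (fun z => fderiv ℝ φ z v) :=
    fun h' => hz (tsupport_fderiv_apply_subset ℝ v h')
  exact image_eq_zero_of_notMem_tsupport (f := fun z => fderiv ℝ φ z v) h

theorem Sob.mono {N N' : Set ℂ} (hN : IsOpen N) (hN' : IsOpen N') (h : N' ⊆ N) {u : ℂ → ℝ}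
    {G : ℂ → ℂ} (hS : Sob N u G) : Sob N' u G := by
  refine ⟨hS.memu.mono_measure (Measure.restrict_mono h le_rfl),
    hS.memG.mono_measure (Measure.restrict_mono h le_rfl), ?_⟩
  intro φ hφ hφN v
  have h1 : ∫ z in N', u z * fderiv ℝ φ z v = ∫ z in N, u z * fderiv ℝ φ z v := by
    refine pdb_sub hN h (fun z hz => ?_)
    rw [pdb_fd0 (fun h' => hz (hφN h')), mul_zero]
  have h2 : ∫ z in N', inner ℝ (G z) v * φ z = ∫ z in N, inner ℝ (G z) v * φ z := by
    refine pdb_sub hN h (fun z hz => ?_)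
    rw [image_eq_zero_of_notMem_tsupport (fun h' => hz (hφN h')), mul_zero]
  rw [h1, h2]
  exact hS.grad φ hφ (hφN.trans h) v

theorem Loc.mono {N N' : Set ℂ} (hN : IsOpen N) (hN' : IsOpen N') (h : N' ⊆ N) {k : ℝ}
    {D : Set ℂ} {G : ℂ → ℂ} (hL : Loc N k D G) : Loc N' k D G := by
  intro φ hφ hφN
  have h1 : ∫ z in N', cond k D z * fderiv ℝ φ z (G z)
      = ∫ z in N, cond k D z * fderiv ℝ φ z (G z) := by
    refine pdb_sub hN h (fun z hz => ?_)
    rw [pdb_fd0 (fun h' => hz (hφN h')), mul_zero]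
  rw [h1]
  exact hL φ hφ (hφN.trans h)

/-- only `D ∩ N` matters -/
theorem Loc.congr {N : Set ℂ} (hN : IsOpen N) {k : ℝ} {D D' : Set ℂ} (hD : D ∩ N = D' ∩ N)
    {G : ℂ → ℂ} (hL : Loc N k D G) : Loc N k D' G := by
  intro φ hφ hφN
  rw [← hL φ hφ hφN]
  refine setIntegral_congr_fun hN.measurableSet (fun z hz => ?_)
  have h : z ∈ D ↔ z ∈ D' := by
    constructor
    · intro h
      have : z ∈ D ∩ N := ⟨h, hz⟩
      rw [hD] at this
      exact this.1
    · intro h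
      have : z ∈ D' ∩ N := ⟨h, hz⟩
      rw [← hD] at this
      exact this.1
  have h' : cond k D' z = cond k D z := by
    unfold cond
    by_cases hz' : z ∈ D
    · rw [Set.indicator_of_mem hz', Set.indicator_of_mem (h.1 hz')]
    · rw [Set.indicator_of_notMem hz', Set.indicator_of_notMem (fun h'' => hz' (h.2 h''))]
  simp only [h']

theorem Solves.loc {Ω : Set ℂ} (hΩ : IsOpen Ω) {k : ℝ} {D : Set ℂ} {g u : ℂ → ℝ} {G : ℂ → ℂ}
    (h : Solves Ω k D g u G) : Loc Ω k D G := by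
  intro φ hφ hφN
  rw [h.eq φ hφ]
  have hm : MeasurableSet (frontier Ω) := isClosed_frontier.measurableSet
  rw [setIntegral_congr_fun (g := fun _ => (0 : ℝ)) hm (fun z hz => ?_)]
  · simp
  · have hz' : z ∉ tsupport φ := by
      intro h'
      have h1 := hφN h'
      rw [hΩ.frontier_eq] at hz
      exact hz.2 h1
    dsimp only
    rw [image_eq_zero_of_notMem_tsupport hz', mul_zero]

theorem pdb_int {N : Set ℂ} {f φ : ℂ → ℝ} (hf : MemLp f 2 (volume.restrict N))
    (hφ : IsTest φ) : Integrable (fun z => f z * φ z) (volume.restrict N) := by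
  have h1 : MemLp φ 2 (volume.restrict N) :=
    (hφ.1.continuous.memLp_of_hasCompactSupport hφ.2).mono_measure Measure.restrict_le_self
  exact hf.integrable_mul h1

theorem pdb_inner {N : Set ℂ} {G : ℂ → ℂ} (hG : MemLp G 2 (volume.restrict N)) (v : ℂ) :
    MemLp (fun z => (inner ℝ (G z) v : ℝ)) 2 (volume.restrict N) := by
  exact MemLp.inner_const (𝕜 := ℝ) hG v

/-- for a Sobolev function `∫ u Δφ = -∫ ∇φ·G` -/
theorem sob_lap {N : Set ℂ} {u : ℂ → ℝ} {G : ℂ → ℂ} (hS : Sob N u G) {φ : ℂ → ℝ}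
    (hφ : IsTest φ) (hφN : tsupport φ ⊆ N) :
    ∫ z in N, u z * lap φ z = -∫ z in N, fderiv ℝ φ z (G z) := by
  obtain ⟨h1, h1'⟩ := hφ.fd 1
  obtain ⟨h2, h2'⟩ := hφ.fd I
  have e1 := hS.grad _ h1 (h1'.trans hφN) 1
  have e2 := hS.grad _ h2 (h2'.trans hφN) I
  have h11 := (h1.fd 1).1
  have h22 := (h2.fd I).1
  have e3 : ∫ z in N, u z * lap φ z =
      (∫ z in N, u z * fderiv ℝ (fun w => fderiv ℝ φ w 1) z 1) +
      ∫ z in N, u z * fderiv ℝ (fun w => fderiv ℝ φ w I) z I := by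
    rw [← integral_add (pdb_int hS.memu h11) (pdb_int hS.memu h22)]
    congr 1
    funext z
    unfold lap
    ring
  have e4 : ∫ z in N, fderiv ℝ φ z (G z) =
      (∫ z in N, inner ℝ (G z) 1 * fderiv ℝ φ z 1) + ∫ z in N, inner ℝ (G z) I * fderiv ℝ φ z I := by
    rw [← integral_add (pdb_int (pdb_inner hS.memG 1) h1) (pdb_int (pdb_inner hS.memG I) h2)]
    congr 1
    funext z
    exact fd_eq φ z (G z)
  rw [e3, e4, e1, e2]
  ring

theorem whar_of_loc {N : Set ℂ} (hN : IsOpen N) {u : ℂ → ℝ} {G : ℂ → ℂ} (hS : Sob N u G) {k : ℝ}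
    (hk : 0 < k) {D : Set ℂ} (hL : Loc N k D G) (hD : Disjoint D N ∨ N ⊆ D) : WHar N u := by
  intro φ hφ hφN
  rw [sob_lap hS hφ hφN]
  obtain ⟨a, ha, hac⟩ : ∃ a : ℝ, a ≠ 0 ∧ ∀ z ∈ N, cond k D z = a := by
    rcases hD with hD | hD
    · refine ⟨1, one_ne_zero, fun z hz => ?_⟩
      unfold cond
      rw [Set.indicator_of_notMem (fun h => Set.disjoint_left.1 hD h hz)]
      ring
    · refine ⟨k, hk.ne', fun z hz => ?_⟩
      unfold cond
      rw [Set.indicator_of_mem (hD hz)]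
      ring
  have h1 : ∫ z in N, cond k D z * fderiv ℝ φ z (G z) = ∫ z in N, a * fderiv ℝ φ z (G z) :=
    setIntegral_congr_fun hN.measurableSet (fun z hz => by
      simp only [hac z hz])
  rw [hL φ hφ hφN, integral_const_mul] at h1
  have h2 : ∫ z in N, fderiv ℝ φ z (G z) = 0 := by
    rcases mul_eq_zero.1 h1.symm with h | h
    · exact absurd h ha
    · exact h
  rw [h2, neg_zero]

/-- uniqueness of the weak gradient -/
theorem grad_unique {N : Set ℂ} (hN : IsOpen N) {u u' : ℂ → ℝ} {G G' : ℂ → ℂ} (hS : Sob N u G)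
    (hS' : Sob N u' G') (hu : ∀ᵐ z ∂volume.restrict N, u z = u' z) :
    ∀ᵐ z ∂volume.restrict N, G z = G' z := by
  have key : ∀ v : ℂ, ∀ᵐ z ∂volume.restrict N, (inner ℝ (G z) v : ℝ) = inner ℝ (G' z) v := by
    intro v
    have hm : MemLp (fun z => (inner ℝ (G z) v : ℝ) - inner ℝ (G' z) v) 2 (volume.restrict N) :=
      (pdb_inner hS.memG v).sub (pdb_inner hS'.memG v)
    have hli : LocallyIntegrable (fun z => (inner ℝ (G z) v : ℝ) - inner ℝ (G' z) v)
        (volume.restrict N) := hm.locallyIntegrable (by norm_num)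
    have h0 : ∀ᵐ z ∂volume, z ∈ N → (inner ℝ (G z) v : ℝ) - inner ℝ (G' z) v = 0 := by
      refine hN.ae_eq_zero_of_integral_contDiff_smul_eq_zero
        (locallyIntegrableOn_of_locallyIntegrable_restrict hli) ?_
      intro φ hφ hφc hφN
      have hφ' : IsTest φ := ⟨hφ, hφc⟩
      have e1 := hS.grad φ hφ' hφN v
      have e2 := hS'.grad φ hφ' hφN v
      have e3 : ∫ z in N, u z * fderiv ℝ φ z v = ∫ z in N, u' z * fderiv ℝ φ z v := by
        refine integral_congr_ae ?_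
        filter_upwards [hu] with z hz
        rw [hz]
      have e4 : ∫ z in N, ((inner ℝ (G z) v : ℝ) - inner ℝ (G' z) v) * φ z = 0 := by
        have := integral_sub (pdb_int (pdb_inner hS.memG v) hφ')
          (pdb_int (pdb_inner hS'.memG v) hφ')
        simp only [sub_mul]
        rw [this]
        linarith
      have e5 : ∫ z, φ z • ((inner ℝ (G z) v : ℝ) - inner ℝ (G' z) v)
          = ∫ z in N, ((inner ℝ (G z) v : ℝ) - inner ℝ (G' z) v) * φ z := by
        rw [← setIntegral_eq_integral_of_forall_compl_eq_zero (s := N)]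
        · refine integral_congr_ae ?_
          filter_upwards with z
          rw [smul_eq_mul, mul_comm]
        · intro z hz
          rw [image_eq_zero_of_notMem_tsupport (fun h' => hz (hφN h')), zero_smul]
      rw [e5, e4]
    rw [ae_restrict_iff' hN.measurableSet]
    filter_upwards [h0] with z hz hzN
    exact sub_eq_zero.1 (hz hzN)
  filter_upwards [key 1, key I] with z h1 h2
  have h1' : (G z).re = (G' z).re := by simpa [Complex.inner] using h1
  have h2' : (G z).im = (G' z).im := by simpa [Complex.inner] using h2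
  exact Complex.ext h1' h2'

end MD12

end S_PDB

section S_WEYL

/-! # WEYL: Weyl's lemma in the plane

(The file `Pool/Agent/H85/MA/Weyl.lean` proves the analogous statement for weakly holomorphic functions with the same method.)

`lap_har`: `ContDiff` near `z` and `lap = 0` near `z` gives `HarmonicAt`: in Mathlib `HarmonicAt f x = ContDiffAt ℝ 2 f x ∧ Δ f =ᶠ 0` and
`laplacian_eq_iteratedFDeriv_complexPlane` (or similar) gives `Δ f z = lap f z`.
Mean values over rotations, commutation of convolutions, bumps tending to the Dirac mass; then a countable cover.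
-/

namespace MD12

open Complex Metric Set Filter Topology InnerProductSpace MeasureTheory
open scoped ComplexConjugate ContDiff MeasureTheory

/-- continuous functions which agree almost everywhere on an open set agree on it -/
theorem eq_of_ae {N : Set ℂ} (hN : IsOpen N) {f g : ℂ → ℝ} (hf : ∀ z ∈ N, ContinuousAt f z)
    (hg : ∀ z ∈ N, ContinuousAt g z) (h : ∀ᵐ z ∂volume.restrict N, f z = g z) :
    ∀ z ∈ N, f z = g z := fun _ hz =>
  Measure.eqOn_open_of_ae_eq (μ := volume) h hN (fun x hx => (hf x hx).continuousWithinAt)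
    (fun x hx => (hg x hx).continuousWithinAt) hz

/-- convolution on the plane -/
noncomputable abbrev WEYL_C (φ h : ℂ → ℝ) : ℂ → ℝ :=
  convolution φ h (ContinuousLinearMap.lsmul ℝ ℝ) volume

theorem WEYL_abs {h : ℂ → ℝ} (hh : LocallyIntegrable h volume) :
    LocallyIntegrable (fun x => ‖h x‖) volume :=
  hh.mono hh.aestronglyMeasurable.norm (Filter.Eventually.of_forall fun x => by simp)

theorem WEYL_comm {h : ℂ → ℝ} (hh : LocallyIntegrable h volume) {φ ρ : ℂ → ℝ}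
    (hφ : Continuous φ) (hc : HasCompactSupport φ) (hρ : Continuous ρ) (hcρ : HasCompactSupport ρ) :
    WEYL_C ρ (WEYL_C φ h) = WEYL_C φ (WEYL_C ρ h) := by
  have key : ∀ {φ ρ : ℂ → ℝ}, Continuous φ → HasCompactSupport φ → Continuous ρ →
      HasCompactSupport ρ → WEYL_C ρ (WEYL_C φ h) =
      WEYL_C (convolution ρ φ (ContinuousLinearMap.lsmul ℝ ℝ) volume) h := by
    intro φ ρ hφ hc hρ hcρ
    funext x₀
    symm
    refine convolution_assoc _ _ _ _ ?_ hρ.aestronglyMeasurable hφ.aestronglyMeasurable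
      hh.aestronglyMeasurable ?_ ?_ ?_
    · intro x y z
      simp [mul_assoc]
    · exact Filter.Eventually.of_forall fun y =>
        HasCompactSupport.convolutionExists_left _ hcρ hρ hφ.locallyIntegrable y
    · exact Filter.Eventually.of_forall fun y =>
        HasCompactSupport.convolutionExists_left _ hc.norm hφ.norm (WEYL_abs hh) y
    · refine HasCompactSupport.convolutionExists_left _ hcρ.norm hρ.norm ?_ x₀
      exact (HasCompactSupport.continuous_convolution_left _ hc.norm hφ.norm (WEYL_abs hh)).locallyIntegrable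
  rw [key hφ hc hρ hcρ, key hρ hcρ hφ hc]
  have : (ContinuousLinearMap.lsmul ℝ ℝ : ℝ →L[ℝ] ℝ →L[ℝ] ℝ).flip = ContinuousLinearMap.lsmul ℝ ℝ := by
    ext; simp
  rw [← convolution_flip (f := ρ) (g := φ), this]

theorem WEYL_bump {ε : ℝ} (hε : 0 < ε) : ∃ ρ : ℂ → ℝ, ContDiff ℝ ∞ ρ ∧ HasCompactSupport ρ ∧
    (∀ t, ε < ‖t‖ → ρ t = 0) ∧
    (∀ (θ : ℝ) (x : ℂ), ρ (Complex.exp (θ * Complex.I) * x) = ρ x) ∧ ∫ x, ρ x = 1 := by
  set b : ℂ → ℝ := fun x => Real.smoothTransition (1 - ‖x‖ ^ 2 / ε ^ 2) with hb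
  have hbs : ContDiff ℝ ∞ b := Real.smoothTransition.contDiff.comp
    (contDiff_const.sub ((contDiff_norm_sq ℝ).div_const _))
  have h0 : ∀ x : ℂ, ε < ‖x‖ → b x = 0 := fun x hx => by
    refine Real.smoothTransition.zero_of_nonpos ?_
    have : 1 ≤ ‖x‖ ^ 2 / ε ^ 2 := by
      rw [le_div_iff₀ (by positivity), one_mul]
      exact pow_le_pow_left₀ hε.le hx.le 2
    linarith
  have hbc : HasCompactSupport b := by
    refine HasCompactSupport.intro (isCompact_closedBall 0 ε) fun x hx => ?_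
    exact h0 x (by simpa using hx)
  have hpos : 0 < ∫ x, b x := by
    refine (integral_pos_iff_support_of_nonneg (fun x => Real.smoothTransition.nonneg _)
      (hbs.continuous.integrable_of_hasCompactSupport hbc)).2 ?_
    refine (measure_ball_pos volume (0 : ℂ) hε).trans_le (measure_mono ?_)
    intro x hx
    have h1 : ‖x‖ < ε := by simpa using hx
    have h2 : ‖x‖ ^ 2 / ε ^ 2 < 1 := by
      rw [div_lt_one (by positivity)]
      exact pow_lt_pow_left₀ h1 (norm_nonneg x) (by norm_num)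
    exact (Real.smoothTransition.pos_of_pos (by linarith)).ne'
  refine ⟨fun x => (∫ x, b x)⁻¹ * b x, contDiff_const.mul hbs, hbc.mul_left, ?_, ?_, ?_⟩
  · intro t ht
    simp only [h0 t ht, mul_zero]
  · intro θ x
    simp only [hb, norm_mul, Complex.norm_exp_ofReal_mul_I, one_mul]
  · rw [integral_const_mul, inv_mul_cancel₀ hpos.ne']

theorem WEYL_mean {G : ℂ → ℝ} (hGc : Continuous G) {z : ℂ} {ε : ℝ}
    (hG : ∀ w ∈ closedBall z ε, HarmonicAt G w) {ρ : ℂ → ℝ}
    (hc : Continuous ρ) (hs : HasCompactSupport ρ) (h0 : ∀ t, ε < ‖t‖ → ρ t = 0)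
    (hr : ∀ (θ : ℝ) (x : ℂ), ρ (Complex.exp (θ * Complex.I) * x) = ρ x) (h1 : ∫ x, ρ x = 1) :
    WEYL_C ρ G z = G z := by
  have hrot : ∀ θ : ℝ, ∫ t, ρ t • G (z - Complex.exp (θ * Complex.I) * t) = WEYL_C ρ G z := by
    intro θ
    have h2 := (rotation (Circle.exp θ)).measurePreserving.integral_comp
      (rotation (Circle.exp θ)).toHomeomorph.measurableEmbedding (fun t => ρ t • G (z - t))
    simp only [rotation_apply, Circle.coe_exp, hr] at h2
    rw [h2]
    rfl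
  have hcont : Continuous (Function.uncurry fun (θ : ℝ) (t : ℂ) =>
      ρ t • G (z - Complex.exp (θ * Complex.I) * t)) := by
    unfold Function.uncurry
    fun_prop
  have hint : Integrable (Function.uncurry fun (θ : ℝ) (t : ℂ) =>
      ρ t • G (z - Complex.exp (θ * Complex.I) * t))
      ((volume.restrict (uIoc 0 (2 * Real.pi))).prod volume) := by
    have hsupp : Function.support (Function.uncurry fun (θ : ℝ) (t : ℂ) =>
        ρ t • G (z - Complex.exp (θ * Complex.I) * t)) ⊆ (univ : Set ℝ) ×ˢ tsupport ρ := by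
      rintro ⟨θ, t⟩ ht
      refine ⟨mem_univ _, subset_tsupport _ ?_⟩
      intro h0
      apply ht
      show ρ t • _ = 0
      rw [h0, zero_smul]
    rw [← integrableOn_iff_integrable_of_support_subset hsupp]
    have h3 : IntegrableOn (Function.uncurry fun (θ : ℝ) (t : ℂ) =>
        ρ t • G (z - Complex.exp (θ * Complex.I) * t)) (uIcc 0 (2 * Real.pi) ×ˢ tsupport ρ)
        (volume.prod volume) :=
      hcont.continuousOn.integrableOn_compact (isCompact_uIcc.prod hs)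
    have h4 := h3.mono_set (prod_mono_left uIoc_subset_uIcc)
    rw [IntegrableOn, ← Measure.prod_restrict] at h4
    rw [IntegrableOn, ← Measure.prod_restrict, Measure.restrict_univ]
    exact h4
  have hswap := intervalIntegral_integral_swap hint
  simp only [hrot] at hswap
  rw [intervalIntegral.integral_const, sub_zero] at hswap
  have hinner : ∀ t : ℂ, ∫ θ in (0 : ℝ)..(2 * Real.pi),
      ρ t • G (z - Complex.exp (θ * Complex.I) * t) = (2 * Real.pi) • (ρ t • G z) := by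
    intro t
    rw [intervalIntegral.integral_smul]
    by_cases ht : ε < ‖t‖
    · rw [h0 t ht, zero_smul, zero_smul, smul_zero]
    have h5 : Real.circleAverage (fun w : ℂ => G (z - w * t)) 0 1 = G (z - (0 : ℂ) * t) := by
      apply InnerProductSpace.HarmonicOnNhd.circleAverage_eq
      intro w hw
      refine har_comp (g := fun w : ℂ => z - w * t) ?_ (hG _ ?_)
      · exact (Differentiable.analyticAt (by fun_prop) w)
      · rw [mem_closedBall, dist_eq_norm]
        rw [abs_one, mem_closedBall, dist_zero_right] at hw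
        have : z - w * t - z = -(w * t) := by ring
        rw [this, norm_neg, norm_mul]
        calc ‖w‖ * ‖t‖ ≤ 1 * ‖t‖ := by gcongr
          _ ≤ ε := by rw [one_mul]; exact not_lt.1 ht
    rw [Real.circleAverage_def] at h5
    simp only [circleMap, zero_add, Complex.ofReal_one, one_mul, zero_mul, sub_zero] at h5
    have h6 : (2 * Real.pi) ≠ 0 := by positivity
    rw [inv_smul_eq_iff₀ h6] at h5
    rw [h5, smul_comm]
  simp only [hinner] at hswap
  rw [integral_smul, integral_smul_const, h1, one_smul] at hswap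
  have h6 : (2 * Real.pi) ≠ 0 := by positivity
  exact smul_right_injective _ h6 hswap

theorem WEYL_fderiv {φ h : ℂ → ℝ} (hh : LocallyIntegrable h volume) (hφ : ContDiff ℝ 1 φ)
    (hc : HasCompactSupport φ) (z v : ℂ) :
    fderiv ℝ (WEYL_C φ h) z v = WEYL_C (fun x => fderiv ℝ φ x v) h z := by
  have h1 : WEYL_C φ h = convolution h φ (ContinuousLinearMap.lsmul ℝ ℝ : ℝ →L[ℝ] ℝ →L[ℝ] ℝ).flip
      volume := by
    rw [convolution_flip]
  have h2 : WEYL_C (fun x => fderiv ℝ φ x v) h = convolution h (fun x => fderiv ℝ φ x v)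
      (ContinuousLinearMap.lsmul ℝ ℝ : ℝ →L[ℝ] ℝ →L[ℝ] ℝ).flip volume := by
    rw [convolution_flip]
  rw [h1, h2, (HasCompactSupport.hasFDerivAt_convolution_right _ hc hh hφ z).fderiv,
    convolution_precompR_apply _ hh (hc.fderiv ℝ) (hφ.continuous_fderiv (by norm_num))]

theorem WEYL_dtest {φ : ℂ → ℝ} (hφ : IsTest φ) (v : ℂ) : IsTest (fun x => fderiv ℝ φ x v) := by
  refine ⟨?_, ?_⟩
  · exact (hφ.1.fderiv_right (m := ∞) (by exact_mod_cast le_rfl)).clm_apply contDiff_const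
  · exact (hφ.2.fderiv ℝ).comp_left (g := fun L : ℂ →L[ℝ] ℝ => L v) rfl

theorem WEYL_one {φ : ℂ → ℝ} (hφ : IsTest φ) : ContDiff ℝ 1 φ :=
  hφ.1.of_le (by exact_mod_cast le_top)

theorem WEYL_lap {φ h : ℂ → ℝ} (hh : LocallyIntegrable h volume) (hφ : IsTest φ) (z : ℂ) :
    lap (WEYL_C φ h) z = ∫ t, h t * lap φ (z - t) := by
  have hd : ∀ v, fderiv ℝ (fun w => fderiv ℝ (WEYL_C φ h) w v) z v =
      ∫ t, fderiv ℝ (fun w => fderiv ℝ φ w v) (z - t) v * h t := by
    intro v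
    have h1 : (fun w => fderiv ℝ (WEYL_C φ h) w v) = WEYL_C (fun x => fderiv ℝ φ x v) h := by
      funext w
      exact WEYL_fderiv hh (WEYL_one hφ) hφ.2 w v
    have hv := WEYL_dtest hφ v
    rw [h1, WEYL_fderiv hh (WEYL_one hv) hv.2]
    show convolution _ _ _ _ z = _
    rw [convolution_lsmul_swap]
    rfl
  have hI : ∀ v, Integrable (fun t => fderiv ℝ (fun w => fderiv ℝ φ w v) (z - t) v * h t) volume := by
    intro v
    have hv := WEYL_dtest (WEYL_dtest hφ v) v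
    have h2 := (HasCompactSupport.convolutionExists_right
      (ContinuousLinearMap.lsmul ℝ ℝ : ℝ →L[ℝ] ℝ →L[ℝ] ℝ).flip hv.2 hh hv.1.continuous z)
    exact h2
  unfold lap
  rw [hd, hd, ← integral_add (hI 1) (hI I)]
  refine integral_congr_ae (Filter.Eventually.of_forall fun t => ?_)
  simp only
  ring

theorem WEYL_lapc {φ : ℂ → ℝ} (hφ : IsTest φ) (z t : ℂ) :
    lap (fun t => φ (z - t)) t = lap φ (z - t) := by
  have h1 : ∀ {ψ : ℂ → ℝ}, IsTest ψ → ∀ t v : ℂ,
      fderiv ℝ (fun t => ψ (z - t)) t v = -fderiv ℝ ψ (z - t) v := by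
    intro ψ hψ t v
    have h5 : HasFDerivAt ψ (fderiv ℝ ψ (z - t)) (z - t) :=
      ((WEYL_one hψ).differentiable (by norm_num) _).hasFDerivAt
    have h6 : HasFDerivAt (fun t : ℂ => z - t) (-(ContinuousLinearMap.id ℝ ℂ)) t :=
      (hasFDerivAt_id t).const_sub z
    have h7 := h5.comp t h6
    have h8 : fderiv ℝ (fun t => ψ (z - t)) t = _ := h7.fderiv
    rw [h8]
    simp
  have h2 : ∀ v : ℂ, fderiv ℝ (fun w => fderiv ℝ (fun t => φ (z - t)) w v) t v =
      fderiv ℝ (fun w => fderiv ℝ φ w v) (z - t) v := by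
    intro v
    have h3 : (fun w => fderiv ℝ (fun t => φ (z - t)) w v) = fun w => -(fderiv ℝ φ (z - w) v) := by
      funext w
      exact h1 hφ w v
    have h4 : (fun w => -(fderiv ℝ φ (z - w) v)) = -(fun w => fderiv ℝ φ (z - w) v) := rfl
    have h5 := h1 (WEYL_dtest hφ v) t v
    rw [h3, h4, fderiv_neg, neg_apply, h5, neg_neg]
  unfold lap
  rw [h2, h2]

theorem WEYL_test {φ : ℂ → ℝ} (hφ : IsTest φ) (z : ℂ) : IsTest (fun t => φ (z - t)) :=
  ⟨hφ.1.comp (contDiff_const.sub contDiff_id), hφ.2.comp_homeomorph (Homeomorph.subLeft z)⟩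

theorem WEYL_lap0 {φ : ℂ → ℝ} {z : ℂ} (hz : z ∉ tsupport φ) : lap φ z = 0 := by
  have h1 : ∀ v : ℂ, fderiv ℝ (fun w => fderiv ℝ φ w v) z v = 0 := by
    intro v
    have h2 : z ∉ tsupport (fun w => fderiv ℝ φ w v) := by
      intro h
      apply hz
      have h3 : tsupport (fun w => fderiv ℝ φ w v) ⊆ tsupport φ := by
        refine closure_minimal ?_ (isClosed_tsupport φ)
        intro w hw
        by_contra h4
        apply hw
        show fderiv ℝ φ w v = 0
        rw [fderiv_of_notMem_tsupport ℝ h4]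
        rfl
      exact h3 h
    rw [fderiv_of_notMem_tsupport ℝ h2]
    rfl
  unfold lap
  rw [h1, h1, add_zero]

theorem lap_har {U : ℂ → ℝ} (hU : ContDiff ℝ ∞ U) {z : ℂ} (h : ∀ᶠ w in 𝓝 z, lap U w = 0) :
    HarmonicAt U z := by
  refine ⟨(show ContDiff ℝ 2 U from by exact_mod_cast contDiff_infty.1 hU 2).contDiffAt, ?_⟩
  filter_upwards [h] with w hw
  rw [laplacian_eq_iteratedFDeriv_complexPlane]
  simp only [iteratedFDeriv_two_apply, Matrix.cons_val_zero, Matrix.cons_val_one, Pi.zero_apply]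
  have hd : ∀ v : ℂ, fderiv ℝ (fun w => fderiv ℝ U w v) w v = fderiv ℝ (fderiv ℝ U) w v v := by
    intro v
    have h1 : DifferentiableAt ℝ (fderiv ℝ U) w :=
      ((hU.fderiv_right (m := ∞) (by exact_mod_cast le_rfl)).differentiable (by simp)) w
    have h2 := (ContinuousLinearMap.apply ℝ ℝ v).hasFDerivAt.comp w h1.hasFDerivAt
    have h3 : fderiv ℝ (fun w => fderiv ℝ U w v) w = _ := h2.fderiv
    rw [h3]
    rfl
  unfold lap at hw
  rw [hd, hd] at hw
  exact hw

theorem WEYL_local {N : Set ℂ} (hN : IsOpen N) {u : ℂ → ℝ} (hu : LocallyIntegrableOn u N volume)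
    (h : WHar N u) {x₀ : ℂ} (hx : x₀ ∈ N) :
    ∃ δ : ℝ, 0 < δ ∧ ball x₀ δ ⊆ N ∧ ∃ U : ℂ → ℝ, (∀ z ∈ ball x₀ δ, HarmonicAt U z) ∧
      ∀ᵐ z ∂volume.restrict (ball x₀ δ), U z = u z := by
  obtain ⟨r, hr, hrN⟩ := Metric.isOpen_iff.1 hN x₀ hx
  set δ : ℝ := r / 4 with hδ
  have hδ0 : 0 < δ := by positivity
  have hsub : closedBall x₀ (3 * δ) ⊆ N := fun w hw => hrN (by
    rw [mem_closedBall] at hw
    rw [mem_ball]
    linarith)
  set f : ℂ → ℝ := (ball x₀ (3 * δ)).indicator u with hf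
  have hfi : Integrable f volume := by
    rw [hf, integrable_indicator_iff measurableSet_ball]
    exact (hu.integrableOn_compact_subset hsub (isCompact_closedBall _ _)).mono_set
      ball_subset_closedBall
  have hfl : LocallyIntegrable f volume := hfi.locallyIntegrable
  have hf0 : ∀ φ : ℂ → ℝ, IsTest φ → tsupport φ ⊆ ball x₀ (3 * δ) → ∫ z, f z * lap φ z = 0 := by
    intro φ hφ hs
    have h1 := h φ hφ (hs.trans (ball_subset_closedBall.trans hsub))
    rw [setIntegral_eq_integral_of_forall_compl_eq_zero] at h1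
    · rw [← h1]
      refine integral_congr_ae (Filter.Eventually.of_forall fun t => ?_)
      by_cases ht : t ∈ ball x₀ (3 * δ)
      · simp only [hf, indicator_of_mem ht]
      · have h2 : t ∉ tsupport φ := fun h3 => ht (hs h3)
        simp only [WEYL_lap0 h2, mul_zero]
    · intro t ht
      have h2 : t ∉ tsupport φ := fun h3 => ht ((hs.trans (ball_subset_closedBall.trans hsub)) h3)
      rw [WEYL_lap0 h2, mul_zero]
  have hharm : ∀ {ψ : ℂ → ℝ}, IsTest ψ → (∀ t, δ < ‖t‖ → ψ t = 0) → ∀ z ∈ ball x₀ (2 * δ),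
      HarmonicAt (WEYL_C ψ f) z := by
    intro ψ hψ h0 z hz
    refine lap_har (HasCompactSupport.contDiff_convolution_left _ hψ.2 hψ.1 hfl) ?_
    filter_upwards [isOpen_ball.mem_nhds hz] with w hw
    rw [WEYL_lap hfl hψ]
    simp only [← WEYL_lapc hψ]
    apply hf0 _ (WEYL_test hψ w)
    have h1 : tsupport (fun t => ψ (w - t)) ⊆ closedBall w δ := by
      refine closure_minimal ?_ isClosed_closedBall
      intro t ht
      by_contra h2
      apply ht
      rw [mem_closedBall, dist_comm, dist_eq_norm, not_le] at h2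
      exact h0 _ h2
    refine h1.trans fun t ht => ?_
    rw [mem_closedBall] at ht
    rw [mem_ball] at hw ⊢
    calc dist t x₀ ≤ dist t w + dist w x₀ := dist_triangle _ _ _
      _ < 3 * δ := by linarith
  obtain ⟨ρ, hρ, hρc, hρ0, hρr, hρ1⟩ := WEYL_bump hδ0
  have hUs : ContDiff ℝ ∞ (WEYL_C ρ f) :=
    HasCompactSupport.contDiff_convolution_left _ hρc hρ hfl
  refine ⟨δ, hδ0, (ball_subset_ball (by linarith)).trans (ball_subset_closedBall.trans hsub),
    WEYL_C ρ f, fun z hz => hharm ⟨hρ, hρc⟩ hρ0 z (ball_subset_ball (by linarith) hz), ?_⟩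
  let φ : ℕ → ContDiffBump (0 : ℂ) := fun k =>
    { rIn := 1 / ((k : ℝ) + 1), rOut := 2 / ((k : ℝ) + 1), rIn_pos := by positivity,
      rIn_lt_rOut := by
        rw [div_lt_div_iff_of_pos_right (by positivity)]; norm_num }
  have hφ0 : Filter.Tendsto (fun k => (φ k).rOut) Filter.atTop (𝓝 0) := by
    have := (tendsto_one_div_add_atTop_nhds_zero_nat (𝕜 := ℝ)).const_mul 2
    simpa [φ, div_eq_mul_inv] using this
  have hK : ∀ᶠ k in Filter.atTop, (φ k).rOut ≤ 2 * (φ k).rIn := by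
    refine Filter.Eventually.of_forall fun k => ?_
    show 2 / ((k : ℝ) + 1) ≤ 2 * (1 / ((k : ℝ) + 1))
    rw [mul_one_div]
  have hae := ContDiffBump.ae_convolution_tendsto_right_of_locallyIntegrable hφ0 hK hfl
  have hcont : Continuous (WEYL_C ρ f) := hUs.continuous
  rw [ae_restrict_iff' measurableSet_ball]
  filter_upwards [hae] with x hx hxb
  have hfx : f x = u x := by
    rw [hf, indicator_of_mem (ball_subset_ball (by linarith) hxb)]
  rw [← hfx]
  have h2 := ContDiffBump.convolution_tendsto_right_of_continuous (μ := (volume : Measure ℂ))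
    hφ0 hcont x
  refine tendsto_nhds_unique (h2.congr' ?_) hx
  filter_upwards [hφ0.eventually (gt_mem_nhds hδ0)] with k hk
  have hs : IsTest ((φ k).normed volume) := ⟨(φ k).contDiff_normed, (φ k).hasCompactSupport_normed⟩
  have hs0 : ∀ t : ℂ, δ < ‖t‖ → (φ k).normed volume t = 0 := by
    intro t ht
    have h4 : t ∉ Function.support ((φ k).normed volume) := by
      rw [ContDiffBump.support_normed_eq, mem_ball, dist_zero_right, not_lt]
      exact (hk.le.trans ht.le)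
    exact Function.notMem_support.1 h4
  have h3 := WEYL_mean (G := WEYL_C ((φ k).normed volume) f) (z := x) (ε := δ)
    (HasCompactSupport.contDiff_convolution_left _ hs.2 hs.1 hfl).continuous (fun w hw => by
      refine hharm hs hs0 w ?_
      rw [mem_closedBall] at hw
      rw [mem_ball] at hxb ⊢
      calc dist w x₀ ≤ dist w x + dist x x₀ := dist_triangle _ _ _
        _ < 2 * δ := by linarith) hρ.continuous hρc hρ0 hρr hρ1
  rw [WEYL_comm hfl hs.1.continuous hs.2 hρ.continuous hρc] at h3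
  exact h3

theorem weyl {N : Set ℂ} (hN : IsOpen N) {u : ℂ → ℝ} (hu : LocallyIntegrableOn u N volume)
    (h : WHar N u) :
    ∃ U : ℂ → ℝ, (∀ z ∈ N, HarmonicAt U z) ∧ ∀ᵐ z ∂volume.restrict N, U z = u z := by
  classical
  choose! δ hδ hsub U hU hUu using fun x (hx : x ∈ N) => WEYL_local hN hu h hx
  -- agreement on overlaps
  have hag : ∀ x ∈ N, ∀ y ∈ ball x (δ x), U y y = U x y := by
    intro x hx y hy
    have hyN : y ∈ N := hsub x hx hy
    have hy' : y ∈ ball y (δ y) := mem_ball_self (hδ y hyN)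
    refine eq_of_ae (N := ball x (δ x) ∩ ball y (δ y)) (isOpen_ball.inter isOpen_ball)
      (fun z hz => har_continuousAt (hU y hyN z hz.2))
      (fun z hz => har_continuousAt (hU x hx z hz.1)) ?_ y ⟨hy, hy'⟩
    have h1 := ae_restrict_of_ae_restrict_of_subset (inter_subset_left (s := ball x (δ x))
      (t := ball y (δ y))) (hUu x hx)
    have h2 := ae_restrict_of_ae_restrict_of_subset (inter_subset_right (s := ball x (δ x))
      (t := ball y (δ y))) (hUu y hyN)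
    filter_upwards [h1, h2] with z h3 h4
    rw [h3, h4]
  refine ⟨fun z => U z z, ?_, ?_⟩
  · intro x hx
    refine har_congr (hU x hx x (mem_ball_self (hδ x hx))) ?_
    filter_upwards [isOpen_ball.mem_nhds (mem_ball_self (hδ x hx) : x ∈ ball x (δ x))] with y hy
    exact (hag x hx y hy).symm
  · obtain ⟨T, hTN, hTc, hT⟩ := TopologicalSpace.countable_cover_nhdsWithin (s := N)
      (f := fun x => ball x (δ x)) (fun x hx => mem_nhdsWithin_of_mem_nhds
        (isOpen_ball.mem_nhds (mem_ball_self (hδ x hx))))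
    refine ae_restrict_of_ae_restrict_of_subset hT ?_
    rw [ae_restrict_biUnion_iff _ hTc]
    intro x hxT
    have hx := hTN hxT
    rw [ae_restrict_iff' measurableSet_ball]
    have h1 := hUu x hx
    rw [ae_restrict_iff' measurableSet_ball] at h1
    filter_upwards [h1] with z h2 hz
    rw [hag x hx z hz]
    exact h2 hz

end MD12

end S_WEYL

section S_CUTF

/-! # CUTF: radial cut-off functions near a circle, and passage to the limit

`η n z = Ψ ((n+1) (‖z-c‖² - ρ²))` with `Ψ : ℝ → ℝ` smooth, `0 ≤ Ψ ≤ 1`, `Ψ = 0` on `[-1,1]`, `Ψ = 1` outside `(-2,2)` (e.g.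
`1 -` a `ContDiffBump` on `ℝ`).  `fderiv η z v = Ψ'((n+1) s) (n+1) 2 ⟪z-c, v⟫`, `s = ‖z-c‖² - ρ²`; so `χ n z = 2 (n+1) Ψ'((n+1) s)`, which vanishes
unless `1 ≤ (n+1)|s| ≤ 2`, and `|χ| |s| ≤ 4 sup|Ψ'|`.
(`‖z - c‖² = (z-c).re² + (z-c).im²` is smooth.)
`cutf_lim`: dominated convergence: off the circle (`Measure.addHaar_sphere` for the null set) `η n z = 1` for large `n`.
`cutf_lim'`: off the circle `χ n z * F z = 0` for large `n`, bounded by `C' |H z|`.
-/

namespace MD12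

open Complex Metric Set Filter Topology InnerProductSpace MeasureTheory
open scoped ComplexConjugate ContDiff MeasureTheory

/-- a system of cut-off functions for the circle -/
structure Cut (c : ℂ) (ρ : ℝ) (η χ : ℕ → ℂ → ℝ) (C : ℝ) : Prop where
  smooth : ∀ n : ℕ, ContDiff ℝ ∞ (η n)
  bd : ∀ (n : ℕ) (z : ℂ), 0 ≤ η n z ∧ η n z ≤ 1
  zero : ∀ (n : ℕ) (z : ℂ), |‖z - c‖ ^ 2 - ρ ^ 2| ≤ 1 / ((n : ℝ) + 1) → η n z = 0
  one : ∀ (n : ℕ) (z : ℂ), 2 / ((n : ℝ) + 1) ≤ |‖z - c‖ ^ 2 - ρ ^ 2| → η n z = 1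
  fd : ∀ (n : ℕ) (z v : ℂ), fderiv ℝ (η n) z v = χ n z * inner ℝ (z - c) v
  chi0 : ∀ (n : ℕ) (z : ℂ), 2 / ((n : ℝ) + 1) < |‖z - c‖ ^ 2 - ρ ^ 2| → χ n z = 0
  chib : ∀ (n : ℕ) (z : ℂ), |χ n z| * |‖z - c‖ ^ 2 - ρ ^ 2| ≤ C
  chic : ∀ n : ℕ, Continuous (χ n)

theorem exists_cut (c : ℂ) {ρ : ℝ} (hρ : 0 < ρ) : ∃ η χ C, Cut c ρ η χ C := by
  let f : ContDiffBump (0 : ℝ) := ⟨1, 2, one_pos, one_lt_two⟩
  have hf1 : ∀ t : ℝ, |t| ≤ 1 → f t = 1 := by
    intro t ht
    apply f.one_of_mem_closedBall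
    simpa [f, Real.norm_eq_abs] using ht
  have hf0 : ∀ t : ℝ, 2 ≤ |t| → f t = 0 := by
    intro t ht
    apply f.zero_of_le_dist
    simpa [f, Real.dist_eq] using ht
  have hfs : ContDiff ℝ ∞ (f : ℝ → ℝ) := f.contDiff
  have hfd : Continuous (deriv (f : ℝ → ℝ)) := hfs.continuous_deriv (by simp)
  have hfd0 : ∀ t : ℝ, 2 < |t| → deriv (f : ℝ → ℝ) t = 0 := by
    intro t ht
    have : (f : ℝ → ℝ) =ᶠ[𝓝 t] fun _ => 0 := by
      have ho : IsOpen {t : ℝ | 2 < |t|} := isOpen_lt continuous_const continuous_abs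
      filter_upwards [ho.mem_nhds ht] with s hs
      exact hf0 s hs.le
    rw [this.deriv_eq]
    simp
  obtain ⟨M, hM⟩ : ∃ M, ∀ t ∈ Icc (-2 : ℝ) 2, ‖deriv (f : ℝ → ℝ) t‖ ≤ M :=
    isCompact_Icc.exists_bound_of_continuousOn hfd.continuousOn
  have hM0 : 0 ≤ M := (norm_nonneg _).trans (hM 0 (by simp))
  have hMb : ∀ t : ℝ, |deriv (f : ℝ → ℝ) t| * |t| ≤ M * 2 := by
    intro t
    rcases lt_or_ge 2 |t| with h | h
    · rw [hfd0 t h]; simp; exact hM0
    · have h1 : t ∈ Icc (-2 : ℝ) 2 := abs_le.1 h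
      exact mul_le_mul (hM t h1) h (abs_nonneg _) hM0
  let s : ℂ → ℝ := fun z => ‖z - c‖ ^ 2 - ρ ^ 2
  have hs : ContDiff ℝ ∞ s := ((contDiff_id.sub contDiff_const).norm_sq ℝ).sub contDiff_const
  have hsd : ∀ z : ℂ, HasFDerivAt s
      (2 • (innerSL ℝ (z - c)).comp (ContinuousLinearMap.id ℝ ℂ)) z := by
    intro z
    have h1 : HasFDerivAt (fun z : ℂ => z - c) (ContinuousLinearMap.id ℝ ℂ) z :=
      (hasFDerivAt_id z).sub_const c
    exact h1.norm_sq.sub_const (ρ ^ 2)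
  have hn : ∀ n : ℕ, (0 : ℝ) < (n : ℝ) + 1 := fun n => by positivity
  refine ⟨fun n z => 1 - f (((n : ℝ) + 1) * s z),
    fun n z => -(deriv (f : ℝ → ℝ) (((n : ℝ) + 1) * s z)) * ((n : ℝ) + 1) * 2, M * 2 * 2, ?_⟩
  constructor
  · intro n
    exact contDiff_const.sub (hfs.comp (contDiff_const.mul hs))
  · intro n z
    have h1 := f.nonneg (x := ((n : ℝ) + 1) * s z)
    have h2 := f.le_one (x := ((n : ℝ) + 1) * s z)
    constructor <;> linarith
  · intro n z h
    have : |((n : ℝ) + 1) * s z| ≤ 1 := by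
      rw [abs_mul, abs_of_pos (hn n)]
      rw [le_div_iff₀ (hn n)] at h
      linarith [mul_comm |‖z - c‖ ^ 2 - ρ ^ 2| ((n : ℝ) + 1)]
    show 1 - f (((n : ℝ) + 1) * s z) = 0
    rw [hf1 _ this]; ring
  · intro n z h
    have : 2 ≤ |((n : ℝ) + 1) * s z| := by
      rw [abs_mul, abs_of_pos (hn n)]
      rw [div_le_iff₀ (hn n)] at h
      linarith [mul_comm |‖z - c‖ ^ 2 - ρ ^ 2| ((n : ℝ) + 1)]
    show 1 - f (((n : ℝ) + 1) * s z) = 1
    rw [hf0 _ this]; ring
  · intro n z v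
    have h1 : HasFDerivAt (fun z => ((n : ℝ) + 1) * s z) (((n : ℝ) + 1) •
        (2 • (innerSL ℝ (z - c)).comp (ContinuousLinearMap.id ℝ ℂ))) z :=
      (hsd z).const_mul _
    have h2 : HasDerivAt (f : ℝ → ℝ) (deriv (f : ℝ → ℝ) (((n : ℝ) + 1) * s z)) (((n : ℝ) + 1) * s z) :=
      (hfs.differentiable (by simp)).differentiableAt.hasDerivAt
    have h3 := (h2.comp_hasFDerivAt z h1).const_sub 1
    have h4 : fderiv ℝ (fun z => 1 - f (((n : ℝ) + 1) * s z)) z = _ := h3.fderiv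
    rw [h4]
    simp
    ring
  · intro n z h
    have : 2 < |((n : ℝ) + 1) * s z| := by
      rw [abs_mul, abs_of_pos (hn n)]
      rw [div_lt_iff₀ (hn n)] at h
      linarith [mul_comm |‖z - c‖ ^ 2 - ρ ^ 2| ((n : ℝ) + 1)]
    show -(deriv (f : ℝ → ℝ) (((n : ℝ) + 1) * s z)) * ((n : ℝ) + 1) * 2 = 0
    rw [hfd0 _ this]; ring
  · intro n z
    have h1 := hMb (((n : ℝ) + 1) * s z)
    rw [abs_mul, abs_of_pos (hn n)] at h1
    show |-(deriv (f : ℝ → ℝ) (((n : ℝ) + 1) * s z)) * ((n : ℝ) + 1) * 2| * |s z| ≤ _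
    rw [abs_mul, abs_mul, abs_neg, abs_of_pos (hn n), abs_of_pos (two_pos : (0 : ℝ) < 2)]
    nlinarith
  · intro n
    have hc : Continuous s := hs.continuous
    exact (((hfd.comp (continuous_const.mul hc)).neg).mul continuous_const).mul continuous_const

theorem cutf_ae (c : ℂ) {ρ : ℝ} (hρ : 0 < ρ) (S : Set ℂ) :
    ∀ᵐ z ∂(volume.restrict S), ‖z - c‖ ^ 2 - ρ ^ 2 ≠ 0 := by
  have h : (volume : Measure ℂ) (sphere c ρ) = 0 := Measure.addHaar_sphere _ _ _
  have h1 : ∀ᵐ z : ℂ, z ∉ sphere c ρ := measure_eq_zero_iff_ae_notMem.1 h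
  filter_upwards [ae_restrict_of_ae h1] with z hz
  intro h2
  apply hz
  rw [mem_sphere, dist_eq_norm]
  have h3 : ‖z - c‖ ^ 2 = ρ ^ 2 := by linarith
  exact (pow_left_inj₀ (norm_nonneg _) hρ.le two_ne_zero).1 h3

theorem cutf_ev {x : ℝ} (hx : x ≠ 0) : ∀ᶠ n : ℕ in atTop, 2 / ((n : ℝ) + 1) < |x| := by
  have h1 : Tendsto (fun n : ℕ => 2 / ((n : ℝ) + 1)) atTop (𝓝 0) := by
    have := (tendsto_one_div_add_atTop_nhds_zero_nat (𝕜 := ℝ)).const_mul 2
    simpa [div_eq_mul_inv] using this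
  exact h1.eventually_lt_const (abs_pos.2 hx)

theorem cutf_lim {c : ℂ} {ρ : ℝ} (hρ : 0 < ρ) {η χ : ℕ → ℂ → ℝ} {C : ℝ} (h : Cut c ρ η χ C)
    {S : Set ℂ} {F : ℂ → ℝ} (hF : IntegrableOn F S) :
    Tendsto (fun n => ∫ z in S, η n z * F z) atTop (𝓝 (∫ z in S, F z)) := by
  refine tendsto_integral_of_dominated_convergence (fun z => ‖F z‖) ?_ hF.norm ?_ ?_
  · intro n
    exact ((h.smooth n).continuous.aestronglyMeasurable).mul hF.aestronglyMeasurable
  · intro n
    refine Eventually.of_forall fun z => ?_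
    rw [norm_mul, Real.norm_eq_abs (η n z), abs_of_nonneg (h.bd n z).1]
    exact mul_le_of_le_one_left (norm_nonneg _) (h.bd n z).2
  · filter_upwards [cutf_ae c hρ S] with z hz
    refine tendsto_const_nhds.congr' ?_
    filter_upwards [cutf_ev hz] with n hn
    rw [h.one n z hn.le, one_mul]

/-- `F = O(‖z-c‖² - ρ²)` with an integrable factor -/
theorem cutf_lim' {c : ℂ} {ρ : ℝ} (hρ : 0 < ρ) {η χ : ℕ → ℂ → ℝ} {C : ℝ} (h : Cut c ρ η χ C)
    {S : Set ℂ} {F H : ℂ → ℝ} (hFm : AEStronglyMeasurable F (volume.restrict S))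
    (hH : IntegrableOn H S) (hFH : ∀ z ∈ S, |F z| ≤ |‖z - c‖ ^ 2 - ρ ^ 2| * |H z|) (hS : MeasurableSet S) :
    Tendsto (fun n => ∫ z in S, χ n z * F z) atTop (𝓝 0) := by
  have key : Tendsto (fun n => ∫ z in S, χ n z * F z) atTop (𝓝 (∫ z in S, (0 : ℝ))) := by
    refine tendsto_integral_of_dominated_convergence (fun z => C * ‖H z‖) ?_ (hH.norm.const_mul C)
      ?_ ?_
    · intro n
      exact ((h.chic n).aestronglyMeasurable).mul hFm
    · intro n
      filter_upwards [ae_restrict_mem hS] with z hz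
      rw [norm_mul, Real.norm_eq_abs, Real.norm_eq_abs, Real.norm_eq_abs]
      calc |χ n z| * |F z| ≤ |χ n z| * (|‖z - c‖ ^ 2 - ρ ^ 2| * |H z|) :=
            mul_le_mul_of_nonneg_left (hFH z hz) (abs_nonneg _)
        _ = (|χ n z| * |‖z - c‖ ^ 2 - ρ ^ 2|) * |H z| := by ring
        _ ≤ C * |H z| := mul_le_mul_of_nonneg_right (h.chib n z) (abs_nonneg _)
    · filter_upwards [cutf_ae c hρ S] with z hz
      refine tendsto_const_nhds.congr' ?_
      filter_upwards [cutf_ev hz] with n hn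
      rw [h.chi0 n z hn, zero_mul]
  simpa using key

end MD12

end S_CUTF

section S_CHV

/-! # CHV: change of variables under the reflection in a circle

`R = rfl12 c ρ` maps `ann c r R'` bijectively onto `ann c (ρ²/R') (ρ²/r)` (`‖R z - c‖ = ρ²/‖z-c‖`, `R (R z) = z`), its real
derivative at `z ≠ c` is `v ↦ -ρ² conj v/(conj (z-c))²`, with determinant `-ρ⁴/‖z-c‖⁴` (antiholomorphic: minus the square of the norm).
`chv`: `MeasureTheory.integral_image_eq_integral_abs_det_fderiv_smul` (no integrability needed).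
`chv_ae`: the image of a null set under the (locally Lipschitz / differentiable) inverse map is a null set
(`MeasureTheory.addHaar_image_eq_zero_of_differentiableOn_of_addHaar_eq_zero`).
`chv_memLp`: `lintegral_image_eq_lintegral_abs_det_fderiv_mul`, the Jacobian is bounded above and below on the annulus;
measurability by `chv_ae`-type arguments (`AEStronglyMeasurable` composed with a quasi measure preserving map).
`refl_test`: `ψ = φ ∘ R` on the annulus, `0` elsewhere; the support is the image `R (tsupport φ)`, compact in the annulus; `R` is smooth off `c`.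
The Laplacian: write `φ ∘ R`, chain rule twice: `R = (x, y) ↦ c + ρ² (z-c)/‖z-c‖²` in real coordinates is conformal with factor `ρ²/‖z-c‖²` and harmonic
components.  (In complex terms `R z = c + conj (q z)`, `q z = ρ²/(z - c)` holomorphic.)
-/

namespace MD12

open Complex Metric Set Filter Topology InnerProductSpace MeasureTheory
open scoped ComplexConjugate ContDiff MeasureTheory

theorem rfl12_norm {c : ℂ} {ρ : ℝ} {z : ℂ} (hz : z ≠ c) :
    ‖rfl12 c ρ z - c‖ = ρ ^ 2 / ‖z - c‖ := by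
  unfold rfl12
  rw [add_sub_cancel_left, norm_div, RCLike.norm_conj, norm_pow, Complex.norm_real, Real.norm_eq_abs, sq_abs]

theorem rfl12_rfl12 {c : ℂ} {ρ : ℝ} (hρ : 0 < ρ) {z : ℂ} (hz : z ≠ c) :
    rfl12 c ρ (rfl12 c ρ z) = z := by
  unfold rfl12
  have h1 : (ρ : ℂ) ≠ 0 := by exact_mod_cast hρ.ne'
  have h2 : z - c ≠ 0 := sub_ne_zero.mpr hz
  rw [add_sub_cancel_left, map_div₀, map_pow, conj_conj, conj_ofReal]
  field_simp
  ring

/-- the derivative of the reflection -/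
noncomputable def rflD (c : ℂ) (ρ : ℝ) (z : ℂ) : ℂ →L[ℝ] ℂ :=
  (conjCLE : ℂ →L[ℝ] ℂ).comp
    (((ContinuousLinearMap.toSpanSingleton ℂ (-(ρ : ℂ) ^ 2 / (z - c) ^ 2) : ℂ →L[ℂ] ℂ)).restrictScalars ℝ)

theorem rfl12_hasFDerivAt {c : ℂ} {ρ : ℝ} {z : ℂ} (hz : z ≠ c) :
    HasFDerivAt (rfl12 c ρ) (rflD c ρ z) z := by
  have h2 : z - c ≠ 0 := sub_ne_zero.mpr hz
  have h0 : HasDerivAt (fun z : ℂ => (ρ : ℂ) ^ 2 / (z - c)) (-(ρ : ℂ) ^ 2 / (z - c) ^ 2) z := by
    have h3 : HasDerivAt (fun z : ℂ => z - c) 1 z := (hasDerivAt_id z).sub_const c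
    have h4 := (hasDerivAt_const z ((ρ : ℂ) ^ 2)).fun_div h3 h2
    simpa using h4
  have h1 := h0.hasFDerivAt.restrictScalars ℝ
  have h5 : HasFDerivAt (fun z : ℂ => conj ((ρ : ℂ) ^ 2 / (z - c))) (rflD c ρ z) z := by
    have h6 := (conjCLE : ℂ →L[ℝ] ℂ).hasFDerivAt (x := (ρ : ℂ) ^ 2 / (z - c))
    exact h6.comp z h1
  have h7 : rfl12 c ρ = fun z => c + conj ((ρ : ℂ) ^ 2 / (z - c)) := by
    funext w
    unfold rfl12
    rw [map_div₀, map_pow, conj_ofReal]
  rw [h7]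
  exact h5.const_add c

theorem rflD_det (c : ℂ) (ρ : ℝ) (z : ℂ) : |(rflD c ρ z).det| = ρ ^ 4 / ‖z - c‖ ^ 4 := by
  have h1 : (rflD c ρ z).det = LinearMap.det ((conjAe.toLinearMap : ℂ →ₗ[ℝ] ℂ) ∘ₗ
      (LinearMap.mul ℝ ℂ (-(ρ : ℂ) ^ 2 / (z - c) ^ 2))) := by
    unfold ContinuousLinearMap.det
    congr 1
    ext <;> simp [rflD, mul_comm]
  rw [h1, LinearMap.det_comp, Complex.det_conjAe]
  have h2 : LinearMap.det (LinearMap.mul ℝ ℂ (-(ρ : ℂ) ^ 2 / (z - c) ^ 2)) = Algebra.norm ℝ (-(ρ : ℂ) ^ 2 / (z - c) ^ 2) := rfl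
  rw [h2, Algebra.norm_complex_apply, Complex.normSq_eq_norm_sq, norm_div, norm_neg, norm_pow, norm_pow, Complex.norm_real,
    Real.norm_eq_abs, sq_abs]
  have h3 : (0 : ℝ) ≤ (ρ ^ 2 / ‖z - c‖ ^ 2) ^ 2 := sq_nonneg _
  rw [neg_one_mul, abs_neg, abs_of_nonneg h3, div_pow]
  congr 1 <;> ring

theorem ann_meas (c : ℂ) (r R : ℝ) : MeasurableSet (ann c r R) := by
  have h : Measurable (fun z : ℂ => ‖z - c‖) := by fun_prop
  exact (measurableSet_lt measurable_const h).inter (measurableSet_lt h measurable_const)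

theorem ann_ne {c : ℂ} {r R : ℝ} (hr : 0 < r) {z : ℂ} (hz : z ∈ ann c r R) : z ≠ c := by
  rintro rfl
  have := hz.1
  rw [sub_self, norm_zero] at this
  linarith

theorem rfl12_mem {c : ℂ} {ρ r R : ℝ} (hρ : 0 < ρ) (hr : 0 < r) {z : ℂ} (hz : z ∈ ann c r R) :
    rfl12 c ρ z ∈ ann c (ρ ^ 2 / R) (ρ ^ 2 / r) := by
  have h1 := ann_ne hr hz
  have h2 : 0 < ‖z - c‖ := hr.trans hz.1
  have hρ2 : 0 < ρ ^ 2 := by positivity
  constructor
  · show ρ ^ 2 / R < ‖rfl12 c ρ z - c‖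
    rw [rfl12_norm h1]
    exact div_lt_div_of_pos_left hρ2 h2 hz.2
  · show ‖rfl12 c ρ z - c‖ < ρ ^ 2 / r
    rw [rfl12_norm h1]
    exact div_lt_div_of_pos_left hρ2 hr hz.1

theorem rfl12_mem' {c : ℂ} {ρ r R : ℝ} (hρ : 0 < ρ) (hr : 0 < r) (hR : r < R) {w : ℂ}
    (hw : w ∈ ann c (ρ ^ 2 / R) (ρ ^ 2 / r)) : w ≠ c ∧ rfl12 c ρ w ∈ ann c r R := by
  have hρ2 : 0 < ρ ^ 2 := by positivity
  have hR0 : 0 < R := hr.trans hR
  have h1 : 0 < ρ ^ 2 / R := by positivity
  refine ⟨ann_ne h1 hw, ?_⟩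
  have h2 := rfl12_mem hρ h1 hw
  have e1 : ρ ^ 2 / (ρ ^ 2 / r) = r := by field_simp
  have e2 : ρ ^ 2 / (ρ ^ 2 / R) = R := by field_simp
  rwa [e1, e2] at h2

theorem rfl12_inj {c : ℂ} {ρ r R : ℝ} (hρ : 0 < ρ) (hr : 0 < r) :
    InjOn (rfl12 c ρ) (ann c r R) := by
  intro x hx y hy hxy
  rw [← rfl12_rfl12 hρ (ann_ne hr hx), ← rfl12_rfl12 hρ (ann_ne hr hy), hxy]

theorem rfl12_image {c : ℂ} {ρ r R : ℝ} (hρ : 0 < ρ) (hr : 0 < r) (hR : r < R) :
    rfl12 c ρ '' ann c r R = ann c (ρ ^ 2 / R) (ρ ^ 2 / r) := by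
  apply Subset.antisymm
  · rintro w ⟨z, hz, rfl⟩
    exact rfl12_mem hρ hr hz
  · intro w hw
    obtain ⟨h1, h2⟩ := rfl12_mem' hρ hr hR hw
    exact ⟨_, h2, rfl12_rfl12 hρ h1⟩

theorem chv {c : ℂ} {ρ r R : ℝ} (hρ : 0 < ρ) (hr : 0 < r) (hR : r < R) (F : ℂ → ℝ) :
    ∫ z in ann c r R, F (rfl12 c ρ z) * (ρ ^ 4 / ‖z - c‖ ^ 4) =
      ∫ w in ann c (ρ ^ 2 / R) (ρ ^ 2 / r), F w := by
  rw [← rfl12_image hρ hr hR]
  rw [integral_image_eq_integral_abs_det_fderiv_smul volume (ann_meas c r R)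
    (fun z hz => (rfl12_hasFDerivAt (ann_ne hr hz)).hasFDerivWithinAt) (rfl12_inj hρ hr) F]
  congr 1
  funext z
  rw [rflD_det, smul_eq_mul, mul_comm]

theorem chv_ae {c : ℂ} {ρ r R : ℝ} (hρ : 0 < ρ) (hr : 0 < r) (hR : r < R) {P : ℂ → Prop}
    (h : ∀ᵐ w ∂volume.restrict (ann c (ρ ^ 2 / R) (ρ ^ 2 / r)), P w) :
    ∀ᵐ z ∂volume.restrict (ann c r R), P (rfl12 c ρ z) := by
  rw [ae_restrict_iff' (ann_meas _ _ _)] at h ⊢
  rw [ae_iff] at h ⊢
  have hsub : {a | ¬(a ∈ ann c r R → P (rfl12 c ρ a))} ⊆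
      rfl12 c ρ '' {a | ¬(a ∈ ann c (ρ ^ 2 / R) (ρ ^ 2 / r) → P a)} := by
    intro z hz
    simp only [mem_ofPred_eq, not_forall] at hz
    obtain ⟨hz1, hz2⟩ := hz
    refine ⟨rfl12 c ρ z, ?_, rfl12_rfl12 hρ (ann_ne hr hz1)⟩
    simp only [mem_ofPred_eq, not_forall]
    exact ⟨rfl12_mem hρ hr hz1, hz2⟩
  refine measure_mono_null hsub ?_
  apply addHaar_image_eq_zero_of_differentiableOn_of_addHaar_eq_zero volume _ h
  intro w hw
  simp only [mem_ofPred_eq, not_forall] at hw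
  obtain ⟨hw1, _⟩ := hw
  exact (rfl12_hasFDerivAt (rfl12_mem' hρ hr hR hw1).1).differentiableAt.differentiableWithinAt

theorem chv_memLp {c : ℂ} {ρ r R : ℝ} (hρ : 0 < ρ) (hr : 0 < r) (hR : r < R) {u : ℂ → ℝ}
    (h : MemLp u 2 (volume.restrict (ann c (ρ ^ 2 / R) (ρ ^ 2 / r)))) :
    MemLp (fun z => u (rfl12 c ρ z)) 2 (volume.restrict (ann c r R)) := by
  have hmeas : AEStronglyMeasurable (fun z => u (rfl12 c ρ z)) (volume.restrict (ann c r R)) := by
    obtain ⟨g, hg, hug⟩ := h.1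
    have hR' : Measurable (rfl12 c ρ) := by
      unfold rfl12
      have h1 : Measurable (fun z : ℂ => conj (z - c)) :=
        (Complex.continuous_conj.comp (continuous_id.sub continuous_const)).measurable
      exact measurable_const.add (measurable_const.div h1)
    refine ⟨fun z => g (rfl12 c ρ z), hg.comp_measurable hR', ?_⟩
    exact chv_ae hρ hr hR (P := fun w => u w = g w) hug
  rw [memLp_two_iff_integrable_sq hmeas]
  have h1 : IntegrableOn (fun w => u w ^ 2) (rfl12 c ρ '' ann c r R) volume := by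
    rw [rfl12_image hρ hr hR]
    exact h.integrable_sq
  rw [integrableOn_image_iff_integrableOn_abs_det_fderiv_smul volume (ann_meas c r R)
    (fun z hz => (rfl12_hasFDerivAt (ann_ne hr hz)).hasFDerivWithinAt) (rfl12_inj hρ hr)] at h1
  have h2 : IntegrableOn (fun z => (‖z - c‖ ^ 4 / ρ ^ 4) * (|(rflD c ρ z).det| • u (rfl12 c ρ z) ^ 2))
      (ann c r R) volume := by
    apply Integrable.bdd_mul (c := R ^ 4 / ρ ^ 4) h1
    · apply Measurable.aestronglyMeasurable
      fun_prop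
    · rw [ae_restrict_iff' (ann_meas _ _ _)]
      refine Eventually.of_forall fun z hz => ?_
      rw [Real.norm_of_nonneg (by positivity)]
      gcongr
      exact hz.2.le
  refine h2.congr ?_
  rw [EventuallyEq, ae_restrict_iff' (ann_meas _ _ _)]
  refine Eventually.of_forall fun z hz => ?_
  have h3 : ‖z - c‖ ≠ 0 := norm_ne_zero_iff.mpr (sub_ne_zero.mpr (ann_ne hr hz))
  rw [rflD_det, smul_eq_mul]
  field_simp

end MD12

end S_CHV

section S_LAPR

/-! # LAPR: reflected test functions and their Laplacian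

`ψ = φ ∘ R` on the annulus `N = ann c (ρ/t) (ρt)`, `0` elsewhere (`R = rfl12 c ρ` maps `N` to `N`).  `tsupport ψ = R (tsupport φ)` is a compact subset
of `N`; `R` is smooth on `ℂ \ {c}`; so `ψ` is smooth.
The Laplacian: `R z = c + conj (q z)`, `q z = ρ²/(z - c)` holomorphic on `ℂ \ {c}`.  With `D = -ρ²/(z-c)² = q' z`: the real derivative of `R` at `z` is
`v ↦ conj (D v)`.  Chain rule twice (`fderiv ℝ φ` at `R z` applied to `conj (D v)`; second derivatives of `φ` symmetric bilinear `B`;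
`lap (φ ∘ R) z = B (conj D) (conj D) + B (conj (D i)) (conj (D i)) + fderiv φ (R z) (∂_v ∂_v R, summed) = ‖D‖² lap φ (R z) + 0` because
`q'' (1·1 + i·i) = 0`; and for the first part, with `conj D = a + b i`, `conj (D i) = b - a i`... so
`B(x,x) + B(y,y)` for an orthogonal pair `x, y` of equal length `‖D‖` is `‖D‖² (B(1,1) + B(i,i))`.)
`‖D‖² = ρ⁴/‖z-c‖⁴`.
-/

namespace MD12

open Complex Metric Set Filter Topology InnerProductSpace MeasureTheory
open scoped ComplexConjugate ContDiff MeasureTheory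

/-- the derivative of the holomorphic part of the reflection -/
private noncomputable def laprD (c : ℂ) (ρ : ℝ) (z : ℂ) : ℂ := -(ρ ^ 2 / (z - c) ^ 2)

private theorem lapr_dR {c : ℂ} {ρ : ℝ} {z : ℂ} (hz : z ≠ c) :
    ∃ L : ℂ →L[ℝ] ℂ, HasFDerivAt (rfl12 c ρ) L z ∧ ∀ v, L v = conj (laprD c ρ z * v) := by
  have hz' : z - c ≠ 0 := sub_ne_zero.2 hz
  have h1 : HasDerivAt (fun w : ℂ => (ρ : ℂ) ^ 2 / (w - c)) (laprD c ρ z) z := by
    have h := (hasDerivAt_const z ((ρ : ℂ) ^ 2)).div ((hasDerivAt_id z).sub_const c) hz'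
    refine h.congr_deriv ?_
    unfold laprD
    simp
    ring
  have h2 : HasFDerivAt (fun w : ℂ => (ρ : ℂ) ^ 2 / (w - c)) _ z := h1.hasFDerivAt.restrictScalars ℝ
  have h3 := (conjCLE.toContinuousLinearMap.hasFDerivAt (x := (ρ : ℂ) ^ 2 / (z - c))).comp z h2
  have h4 := h3.const_add c
  refine ⟨_, h4.congr_of_eventuallyEq ?_, ?_⟩
  · refine Filter.Eventually.of_forall fun w => ?_
    unfold rfl12
    simp
  · intro v
    simp [mul_comm]

private theorem lapr_dD {c : ℂ} {ρ : ℝ} {z : ℂ} (hz : z ≠ c) :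
    ∃ L : ℂ →L[ℝ] ℂ, HasFDerivAt (laprD c ρ) L z ∧ ∃ e : ℂ, ∀ v, L v = e * v := by
  have hz' : z - c ≠ 0 := sub_ne_zero.2 hz
  have h0 : DifferentiableAt ℂ (laprD c ρ) z := by
    have h1 : DifferentiableAt ℂ (fun w : ℂ => (w - c) ^ 2) z := by fun_prop
    exact ((differentiableAt_const ((ρ : ℂ) ^ 2)).div h1 (pow_ne_zero 2 hz')).neg
  have h2 := h0.hasDerivAt.hasFDerivAt.restrictScalars ℝ
  refine ⟨_, h2, deriv (laprD c ρ) z, ?_⟩
  intro v
  simp [mul_comm]

private theorem lapr_fd (φ : ℂ → ℝ) (p v : ℂ) :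
    fderiv ℝ φ p v = v.re * fderiv ℝ φ p 1 + v.im * fderiv ℝ φ p I := by
  have h : v = v.re • (1 : ℂ) + v.im • I := by
    apply Complex.ext <;> simp
  conv_lhs => rw [h]
  rw [map_add, map_smul, map_smul]
  simp

/-- The Laplacian of a reflected function. -/
private theorem lapr_lap {c : ℂ} {ρ : ℝ} {z : ℂ} (hz : z ≠ c) {φ : ℂ → ℝ} (hφ : ContDiff ℝ ∞ φ) :
    lap (fun w => φ (rfl12 c ρ w)) z = ρ ^ 4 / ‖z - c‖ ^ 4 * lap φ (rfl12 c ρ z) := by
  have hev : ∀ᶠ w in 𝓝 z, w ≠ c := isOpen_ne.mem_nhds hz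
  have hd : Differentiable ℝ φ := hφ.differentiable (by simp)
  have hf : ∀ v : ℂ, Differentiable ℝ (fun w => fderiv ℝ φ w v) := fun v =>
    ((hφ.fderiv_right (m := ∞) le_rfl).clm_apply contDiff_const).differentiable (by simp)
  -- first derivatives
  have key : ∀ w ≠ c, ∀ v, fderiv ℝ (fun w => φ (rfl12 c ρ w)) w v =
      (conj (laprD c ρ w * v)).re * fderiv ℝ φ (rfl12 c ρ w) 1 +
        (conj (laprD c ρ w * v)).im * fderiv ℝ φ (rfl12 c ρ w) I := by
    intro w hw v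
    obtain ⟨L, hL, hLv⟩ := lapr_dR (ρ := ρ) hw
    have h1 : HasFDerivAt (fun w => φ (rfl12 c ρ w)) _ w :=
      (hd (rfl12 c ρ w)).hasFDerivAt.comp w hL
    rw [h1.fderiv, ContinuousLinearMap.comp_apply, hLv, lapr_fd]
  have k1 : (fun w => fderiv ℝ (fun w => φ (rfl12 c ρ w)) w 1) =ᶠ[𝓝 z]
      fun w => (laprD c ρ w).re * fderiv ℝ φ (rfl12 c ρ w) 1 -
        (laprD c ρ w).im * fderiv ℝ φ (rfl12 c ρ w) I := by
    filter_upwards [hev] with w hw
    rw [key w hw 1]
    simp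
    ring
  have k2 : (fun w => fderiv ℝ (fun w => φ (rfl12 c ρ w)) w I) =ᶠ[𝓝 z]
      fun w => -((laprD c ρ w).im * fderiv ℝ φ (rfl12 c ρ w) 1) -
        (laprD c ρ w).re * fderiv ℝ φ (rfl12 c ρ w) I := by
    filter_upwards [hev] with w hw
    rw [key w hw I]
    simp
    ring
  obtain ⟨L, hL, hLv⟩ := lapr_dR (ρ := ρ) hz
  obtain ⟨M, hM, e, hMv⟩ := lapr_dD (ρ := ρ) hz
  have hre : HasFDerivAt (fun w => (laprD c ρ w).re) (reCLM.comp M) z :=
    reCLM.hasFDerivAt.comp z hM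
  have him : HasFDerivAt (fun w => (laprD c ρ w).im) (imCLM.comp M) z :=
    imCLM.hasFDerivAt.comp z hM
  have h1 : HasFDerivAt (fun w => fderiv ℝ φ (rfl12 c ρ w) 1)
      ((fderiv ℝ (fun w => fderiv ℝ φ w 1) (rfl12 c ρ z)).comp L) z :=
    (hf 1 (rfl12 c ρ z)).hasFDerivAt.comp z hL
  have hI : HasFDerivAt (fun w => fderiv ℝ φ (rfl12 c ρ w) I)
      ((fderiv ℝ (fun w => fderiv ℝ φ w I) (rfl12 c ρ z)).comp L) z :=
    (hf I (rfl12 c ρ z)).hasFDerivAt.comp z hL
  have H1 := (hre.mul h1).sub (him.mul hI)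
  have H2 := (him.mul h1).neg.sub (hre.mul hI)
  have e1 := congrArg (fun T : ℂ →L[ℝ] ℝ => T 1) (k1.fderiv_eq.trans H1.fderiv)
  have e2 := congrArg (fun T : ℂ →L[ℝ] ℝ => T I) (k2.fderiv_eq.trans H2.fderiv)
  have hnorm : ρ ^ 4 / ‖z - c‖ ^ 4 = (laprD c ρ z).re ^ 2 + (laprD c ρ z).im ^ 2 := by
    have h5 : (laprD c ρ z).re ^ 2 + (laprD c ρ z).im ^ 2 = ‖laprD c ρ z‖ ^ 2 := by
      rw [← Complex.normSq_eq_norm_sq, Complex.normSq_apply]; ring
    rw [h5]
    unfold laprD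
    rw [norm_neg, norm_div, norm_pow, norm_pow, Complex.norm_real, div_pow, ← pow_mul, ← pow_mul,
      Real.norm_eq_abs]
    congr 1
    rw [show 2 * 2 = 4 by norm_num, Even.pow_abs (by decide)]
  unfold lap
  rw [e1, e2, hnorm]
  simp only [ContinuousLinearMap.add_apply, ContinuousLinearMap.sub_apply,
    ContinuousLinearMap.neg_apply, ContinuousLinearMap.smul_apply, ContinuousLinearMap.comp_apply,
    hLv, hMv, smul_eq_mul, reCLM_apply, imCLM_apply]
  rw [lapr_fd (fun w => fderiv ℝ φ w 1) _ (conj (laprD c ρ z * 1)),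
    lapr_fd (fun w => fderiv ℝ φ w I) _ (conj (laprD c ρ z * 1)),
    lapr_fd (fun w => fderiv ℝ φ w 1) _ (conj (laprD c ρ z * I)),
    lapr_fd (fun w => fderiv ℝ φ w I) _ (conj (laprD c ρ z * I))]
  simp only [mul_one, map_mul, Complex.mul_re, Complex.mul_im, Complex.conj_re, Complex.conj_im,
    Complex.I_re, Complex.I_im]
  ring

private theorem lapr_norm {c : ℂ} {ρ : ℝ} {z : ℂ} :
    ‖rfl12 c ρ z - c‖ = ρ ^ 2 / ‖z - c‖ := by
  unfold rfl12
  rw [add_sub_cancel_left, norm_div, norm_pow, Complex.norm_real, Complex.norm_conj,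
    Real.norm_eq_abs, sq_abs]

private theorem lapr_inv {c : ℂ} {ρ : ℝ} (hρ : 0 < ρ) {z : ℂ} (hz : z ≠ c) :
    rfl12 c ρ (rfl12 c ρ z) = z := by
  have h1 : (ρ : ℂ) ≠ 0 := by exact_mod_cast hρ.ne'
  have h2 : z - c ≠ 0 := sub_ne_zero.2 hz
  unfold rfl12
  rw [add_sub_cancel_left, map_div₀, map_pow, Complex.conj_ofReal, Complex.conj_conj]
  field_simp
  ring

private theorem lapr_ne {c : ℂ} {ρ t : ℝ} (hρ : 0 < ρ) (ht : 1 < t) {z : ℂ}
    (hz : z ∈ ann c (ρ / t) (ρ * t)) : z ≠ c := by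
  intro h
  have h1 := hz.1
  rw [h, sub_self, norm_zero] at h1
  have : 0 < ρ / t := by positivity
  linarith

private theorem lapr_maps {c : ℂ} {ρ t : ℝ} (hρ : 0 < ρ) (ht : 1 < t) {z : ℂ}
    (hz : z ∈ ann c (ρ / t) (ρ * t)) : rfl12 c ρ z ∈ ann c (ρ / t) (ρ * t) := by
  have ht0 : 0 < t := by linarith
  have h0 : 0 < ‖z - c‖ := norm_pos_iff.2 (sub_ne_zero.2 (lapr_ne hρ ht hz))
  obtain ⟨h1, h2⟩ := hz
  rw [div_lt_iff₀ ht0] at h1
  constructor
  · rw [lapr_norm, lt_div_iff₀ h0, div_mul_eq_mul_div, div_lt_iff₀ ht0]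
    nlinarith
  · rw [lapr_norm, div_lt_iff₀ h0]
    nlinarith

private theorem lapr_open {c : ℂ} {r R : ℝ} : IsOpen (ann c r R) := by
  have h : Continuous fun z : ℂ => ‖z - c‖ := by fun_prop
  exact (isOpen_lt continuous_const h).inter (isOpen_lt h continuous_const)

private theorem lapr_smooth {c : ℂ} {ρ : ℝ} {z : ℂ} (hz : z ≠ c) :
    ContDiffAt ℝ ∞ (rfl12 c ρ) z := by
  have h1 : ContDiffAt ℂ ∞ (fun w : ℂ => (ρ : ℂ) ^ 2 / (w - c)) z := by
    refine contDiffAt_const.div (contDiffAt_id.sub contDiffAt_const) (sub_ne_zero.2 hz)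
  have h2 : ContDiffAt ℝ ∞ (fun w : ℂ => (ρ : ℂ) ^ 2 / (w - c)) z := h1.restrict_scalars ℝ
  have h3 := (conjCLE.contDiff (n := ∞)).contDiffAt.comp z h2
  have h4 := (contDiffAt_const (c := c)).add h3
  refine h4.congr_of_eventuallyEq ?_
  refine Filter.Eventually.of_forall fun w => ?_
  unfold rfl12
  simp

theorem refl_test {c : ℂ} {ρ t : ℝ} (hρ : 0 < ρ) (ht : 1 < t) {φ : ℂ → ℝ} (hφ : IsTest φ)
    (hs : tsupport φ ⊆ ann c (ρ / t) (ρ * t)) :
    ∃ ψ : ℂ → ℝ, IsTest ψ ∧ tsupport ψ ⊆ ann c (ρ / t) (ρ * t) ∧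
      (∀ z ∈ ann c (ρ / t) (ρ * t), ψ z = φ (rfl12 c ρ z)) ∧
      ∀ z ∈ ann c (ρ / t) (ρ * t), lap ψ z = ρ ^ 4 / ‖z - c‖ ^ 4 * lap φ (rfl12 c ρ z) := by
  classical
  set N := ann c (ρ / t) (ρ * t) with hN
  have hNo : IsOpen N := lapr_open
  set K : Set ℂ := rfl12 c ρ '' tsupport φ with hK
  have hKN : K ⊆ N := by
    rintro _ ⟨z, hz, rfl⟩
    exact lapr_maps hρ ht (hs hz)
  have hKc : IsCompact K := by
    apply hφ.2.isCompact.image_of_continuousOn
    intro z hz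
    exact (lapr_smooth (lapr_ne hρ ht (hs hz))).continuousAt.continuousWithinAt
  set ψ : ℂ → ℝ := fun z => if z ∈ N then φ (rfl12 c ρ z) else 0 with hψ
  have hψN : ∀ z ∈ N, ψ z = φ (rfl12 c ρ z) := fun z hz => if_pos hz
  have hψK : ∀ z, z ∉ K → ψ z = 0 := by
    intro z hz
    by_cases hzN : z ∈ N
    · rw [hψN z hzN]
      apply image_eq_zero_of_notMem_tsupport
      intro h
      exact hz ⟨rfl12 c ρ z, h, lapr_inv hρ (lapr_ne hρ ht hzN)⟩
    · exact if_neg hzN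
  have hsupp : tsupport ψ ⊆ K := by
    apply closure_minimal _ hKc.isClosed
    intro z hz
    by_contra h
    exact hz (hψK z h)
  have hnear : ∀ z ∈ N, ψ =ᶠ[𝓝 z] fun w => φ (rfl12 c ρ w) := by
    intro z hz
    filter_upwards [hNo.mem_nhds hz] with w hw
    exact hψN w hw
  refine ⟨ψ, ⟨?_, HasCompactSupport.intro hKc hψK⟩, hsupp.trans hKN, hψN, ?_⟩
  · rw [contDiff_iff_contDiffAt]
    intro z
    by_cases hz : z ∈ N
    · refine ContDiffAt.congr_of_eventuallyEq ?_ (hnear z hz)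
      exact hφ.1.contDiffAt.comp z (lapr_smooth (lapr_ne hρ ht hz))
    · have hzK : z ∉ K := fun h => hz (hKN h)
      refine (contDiffAt_const (c := (0 : ℝ))).congr_of_eventuallyEq ?_
      filter_upwards [hKc.isClosed.isOpen_compl.mem_nhds hzK] with w hw
      exact hψK w hw
  · intro z hz
    rw [← lapr_lap (lapr_ne hρ ht hz) hφ.1]
    have h1 : ∀ v : ℂ, (fun w => fderiv ℝ ψ w v) =ᶠ[𝓝 z]
        fun w => fderiv ℝ (fun w => φ (rfl12 c ρ w)) w v := by
      intro v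
      filter_upwards [(hnear z hz).eventuallyEq_nhds] with w hw
      rw [hw.fderiv_eq]
    unfold lap
    rw [(h1 1).fderiv_eq, (h1 I).fderiv_eq]

end MD12

end S_LAPR
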