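import Mathlib
import Pool.Agent.H12.MDM.F

/-! Multiple disks, part G (several modules joined). -/

section S_INTP

/-! # INTP: the odd part `u - u ∘ R` is weakly harmonic across the circle

`N = ann c (ρ/t) (ρt)`, `R = rfl12 c ρ`.  Let `φ` be a test function in `N`, `φ'` the reflected one (`refl_test`), `ψ = φ - φ'`.
`∫_N u (R z) lap φ z = ∫_N u w lap φ' w`: `chv` with `F w = u w * lap φ' w`: `lap φ' (R z) (ρ⁴/‖z-c‖⁴) = lap φ z` (the formula of `refl_test` at the
point `R z`, where `‖R z - c‖ = ρ²/‖z-c‖`, `R (R z) = z`).  So `∫_N (u - u∘R) lap φ = ∫_N u lap ψ = -∫_N fderiv ψ z (G z)` (`sob_lap`).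
Claim: `∫_{N ∩ ball c ρ} fderiv ψ (G) = 0` and `∫_{N \ closedBall c ρ} fderiv ψ (G) = 0`.  Take the cut-offs `η n` (`exists_cut`).  The function
`η n * ψ` multiplied by the indicator of `ball c ρ` is a test function (smooth because `η n = 0` near the circle), supported in `N`.  `hL` gives
(the conductivity is `k` there, `k ≠ 0`): `∫_{N ∩ ball} (η n fderiv ψ (G) + ψ χ n inner (z-c) (G z)) = 0`.  `cutf_lim` for the first term;
for the second `cutf_lim'` with `F z = ψ z * inner (z-c) (G z)`: `ψ = 0` on the circle and `ψ` is Lipschitz, so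
`|ψ z| ≤ L |‖z-c‖ - ρ| ≤ (L/ρ) |‖z-c‖² - ρ²|` (project `z` radially to the circle), `H z = (L/ρ) (ρ t) ‖G z‖` integrable on the bounded
set.  The same for the outside (conductivity `1`).  The circle is a null set (`Measure.addHaar_sphere`).
-/

namespace MD12

open Complex Metric Set Filter Topology InnerProductSpace MeasureTheory
open scoped ComplexConjugate ContDiff MeasureTheory

theorem intp_lap {φ : ℂ → ℝ} (h : IsTest φ) : IsTest (lap φ) := by
  have h1 := ((h.fd 1).1.fd 1).1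
  have h2 := ((h.fd I).1.fd I).1
  exact ⟨h1.1.add h2.1, h1.2.add h2.2⟩

theorem intp_rfl {c : ℂ} {ρ : ℝ} (hρ : 0 < ρ) {p : ℂ} (hp : ‖p - c‖ = ρ) : rfl12 c ρ p = p := by
  have h0 : p - c ≠ 0 := by
    intro h
    rw [h, norm_zero] at hp
    exact hρ.ne hp
  have h1 : (p - c) * conj (p - c) = (ρ : ℂ) ^ 2 := by
    rw [Complex.mul_conj, Complex.normSq_eq_norm_sq, hp]
    push_cast
    ring
  have h2 : conj (p - c) ≠ 0 := by
    intro h
    exact h0 ((map_eq_zero _).1 h)
  unfold rfl12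
  rw [← h1, mul_div_assoc, div_self h2]
  ring

theorem intp_ann_open (c : ℂ) (r R : ℝ) : IsOpen (ann c r R) := by
  have h : Continuous (fun z : ℂ => ‖z - c‖) := by fun_prop
  exact (isOpen_lt continuous_const h).inter (isOpen_lt h continuous_const)

/-- `fderiv φ z (G z)` is integrable for a test function -/
theorem intp_int {N : Set ℂ} {G : ℂ → ℂ} (hG : MemLp G 2 (volume.restrict N)) {φ : ℂ → ℝ}
    (hφ : IsTest φ) : Integrable (fun z => fderiv ℝ φ z (G z)) (volume.restrict N) := by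
  have h1 := pdb_int (pdb_inner hG 1) (hφ.fd 1).1
  have h2 := pdb_int (pdb_inner hG I) (hφ.fd I).1
  refine (h1.add h2).congr (Filter.Eventually.of_forall fun z => ?_)
  exact (fd_eq φ z (G z)).symm

theorem intp_int' {N : Set ℂ} {G : ℂ → ℂ} (hG : MemLp G 2 (volume.restrict N)) {φ η : ℂ → ℝ}
    (hφ : IsTest φ) (hη : ContDiff ℝ ∞ η) :
    Integrable (fun z => η z * fderiv ℝ φ z (G z)) (volume.restrict N) := by
  have h1 := pdb_int (pdb_inner hG 1) (IsTest.mul hη (hφ.fd 1).1)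
  have h2 := pdb_int (pdb_inner hG I) (IsTest.mul hη (hφ.fd I).1)
  refine (h1.add h2).congr (Filter.Eventually.of_forall fun z => ?_)
  simp only [Pi.add_apply]
  rw [fd_eq φ z (G z)]
  ring

/-- cutting a function vanishing near the circle: smoothness and derivative -/
theorem intp_cut {c : ℂ} {ρ : ℝ} {S : Set ℂ} (hS : IsOpen S)
    (hfr : ∀ z, z ∉ S → ‖z - c‖ ≠ ρ → ∀ᶠ w in 𝓝 z, w ∉ S) {g : ℂ → ℝ} (hg : ContDiff ℝ ∞ g)
    (h0 : ∀ z, ‖z - c‖ = ρ → ∀ᶠ w in 𝓝 z, g w = 0) :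
    ContDiff ℝ ∞ (S.indicator g) ∧
      ∀ z v, fderiv ℝ (S.indicator g) z v = S.indicator (fun z => fderiv ℝ g z v) z := by
  have key : ∀ z, (z ∈ S ∧ S.indicator g =ᶠ[𝓝 z] g) ∨
      (z ∉ S ∧ S.indicator g =ᶠ[𝓝 z] fun _ => 0) := by
    intro z
    by_cases hz : z ∈ S
    · left
      refine ⟨hz, ?_⟩
      filter_upwards [hS.mem_nhds hz] with w hw
      exact Set.indicator_of_mem hw g
    · right
      refine ⟨hz, ?_⟩
      by_cases hc : ‖z - c‖ = ρ
      · filter_upwards [h0 z hc] with w hw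
        by_cases hw' : w ∈ S
        · rw [Set.indicator_of_mem hw', hw]
        · rw [Set.indicator_of_notMem hw']
      · filter_upwards [hfr z hz hc] with w hw
        exact Set.indicator_of_notMem hw g
  constructor
  · rw [contDiff_iff_contDiffAt]
    intro z
    rcases key z with ⟨_, h⟩ | ⟨_, h⟩
    · exact hg.contDiffAt.congr_of_eventuallyEq h
    · exact contDiffAt_const.congr_of_eventuallyEq h
  · intro z v
    rcases key z with ⟨hz, h⟩ | ⟨hz, h⟩
    · rw [h.fderiv_eq, Set.indicator_of_mem hz]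
    · rw [h.fderiv_eq, Set.indicator_of_notMem hz]
      simp

theorem intp_near0 {c : ℂ} {ρ : ℝ} {η χ : ℕ → ℂ → ℝ} {C : ℝ} (h : Cut c ρ η χ C) (n : ℕ)
    (ψ : ℂ → ℝ) : ∀ z, ‖z - c‖ = ρ → ∀ᶠ w in 𝓝 z, η n w * ψ w = 0 := by
  intro z hz
  have hcont : Continuous (fun w : ℂ => |‖w - c‖ ^ 2 - ρ ^ 2|) := by fun_prop
  have h1 : |‖z - c‖ ^ 2 - ρ ^ 2| < 1 / ((n : ℝ) + 1) := by
    rw [hz, sub_self, abs_zero]
    positivity
  filter_upwards [hcont.continuousAt.eventually (gt_mem_nhds h1)] with w hw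
  rw [h.zero n w hw.le, zero_mul]

/-- the integral over one side vanishes -/
theorem intp_side {k : ℝ} {c : ℂ} {ρ t : ℝ} (hρ : 0 < ρ) (ht : 1 < t)
    {G : ℂ → ℂ} (hG : MemLp G 2 (volume.restrict (ann c (ρ / t) (ρ * t))))
    (hL : Loc (ann c (ρ / t) (ρ * t)) k (ball c ρ) G) {ψ : ℂ → ℝ} (hψ : IsTest ψ)
    (hs : tsupport ψ ⊆ ann c (ρ / t) (ρ * t)) (h0 : ∀ z, ‖z - c‖ = ρ → ψ z = 0)
    {S : Set ℂ} (hSo : IsOpen S) (hfr : ∀ z, z ∉ S → ‖z - c‖ ≠ ρ → ∀ᶠ w in 𝓝 z, w ∉ S)
    {a : ℝ} (ha : a ≠ 0) (hc : ∀ z ∈ S, cond k (ball c ρ) z = a) :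
    ∫ z in ann c (ρ / t) (ρ * t) ∩ S, fderiv ℝ ψ z (G z) = 0 := by
  set N := ann c (ρ / t) (ρ * t) with hN
  have hNo : IsOpen N := intp_ann_open _ _ _
  have ht0 : 0 < t := by linarith
  obtain ⟨η, χ, C, hcut⟩ := exists_cut c hρ
  have hGS : MemLp G 2 (volume.restrict (N ∩ S)) :=
    hG.mono_measure (Measure.restrict_mono Set.inter_subset_left le_rfl)
  -- step 1
  have h1 : ∀ n, (∫ z in N ∩ S, η n z * fderiv ℝ ψ z (G z)) +
      ∫ z in N ∩ S, χ n z * (ψ z * inner ℝ (z - c) (G z)) = 0 := by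
    intro n
    have hg : IsTest (fun z => η n z * ψ z) := IsTest.mul (hcut.smooth n) hψ
    obtain ⟨hsm, hfd⟩ := intp_cut (c := c) (ρ := ρ) hSo hfr hg.1 (intp_near0 hcut n ψ)
    have hsub : tsupport (S.indicator fun z => η n z * ψ z) ⊆ tsupport ψ := by
      refine closure_mono ?_
      intro z hz
      rw [Function.mem_support] at hz ⊢
      intro h
      apply hz
      by_cases hz' : z ∈ S
      · rw [Set.indicator_of_mem hz', h, mul_zero]
      · rw [Set.indicator_of_notMem hz']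
    have hθ : IsTest (S.indicator fun z => η n z * ψ z) :=
      ⟨hsm, hψ.2.of_isClosed_subset (isClosed_tsupport _) hsub⟩
    have e1 := hL _ hθ (hsub.trans hs)
    have e2 : ∫ z in N, cond k (ball c ρ) z *
        fderiv ℝ (S.indicator fun z => η n z * ψ z) z (G z) =
        ∫ z in N, S.indicator (fun z => a * fderiv ℝ (fun z => η n z * ψ z) z (G z)) z := by
      refine integral_congr_ae (Filter.Eventually.of_forall fun z => ?_)
      simp only
      rw [hfd z (G z)]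
      by_cases hz : z ∈ S
      · rw [Set.indicator_of_mem hz, Set.indicator_of_mem hz, hc z hz]
      · rw [Set.indicator_of_notMem hz, Set.indicator_of_notMem hz, mul_zero]
    rw [e2, setIntegral_indicator hSo.measurableSet, integral_const_mul] at e1
    have e3 : ∫ z in N ∩ S, fderiv ℝ (fun z => η n z * ψ z) z (G z) = 0 := by
      rcases mul_eq_zero.1 e1 with h | h
      · exact absurd h ha
      · exact h
    have e4 : ∀ z, fderiv ℝ (fun z => η n z * ψ z) z (G z) =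
        η n z * fderiv ℝ ψ z (G z) + χ n z * (ψ z * inner ℝ (z - c) (G z)) := by
      intro z
      have d1 : DifferentiableAt ℝ (η n) z :=
        ((hcut.smooth n).differentiable (by simp)).differentiableAt
      have d2 : DifferentiableAt ℝ ψ z := (hψ.1.differentiable (by simp)).differentiableAt
      rw [fderiv_fun_mul d1 d2]
      simp only [add_apply, smul_apply, smul_eq_mul]
      rw [hcut.fd n z (G z)]
      ring
    have i1 := intp_int' hGS hψ (hcut.smooth n)
    have i2 := intp_int hGS hg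
    have i3 : Integrable (fun z => χ n z * (ψ z * inner ℝ (z - c) (G z)))
        (volume.restrict (N ∩ S)) := by
      refine (i2.sub i1).congr (Filter.Eventually.of_forall fun z => ?_)
      simp only [Pi.sub_apply]
      rw [e4 z]
      ring
    rw [← integral_add i1 i3, ← e3]
    refine integral_congr_ae (Filter.Eventually.of_forall fun z => ?_)
    exact (e4 z).symm
  -- step 2
  have l1 := cutf_lim hρ hcut (S := N ∩ S) (F := fun z => fderiv ℝ ψ z (G z)) (intp_int hGS hψ)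
  obtain ⟨L, hLip⟩ := ContDiff.lipschitzWith_of_hasCompactSupport hψ.2 hψ.1 (by simp)
  have hfin : volume (N ∩ S) < ⊤ := by
    refine lt_of_le_of_lt (measure_mono ?_) (measure_ball_lt_top (x := c) (r := ρ * t))
    intro z hz
    rw [mem_ball, dist_eq_norm]
    exact hz.1.2
  have : IsFiniteMeasure (volume.restrict (N ∩ S)) := ⟨by simpa using hfin⟩
  have hH : IntegrableOn (fun z => (L * t : ℝ) * ‖G z‖) (N ∩ S) :=
    (hGS.integrable (by norm_num)).norm.const_mul _
  have hm : AEStronglyMeasurable (fun z => ψ z * inner ℝ (z - c) (G z))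
      (volume.restrict (N ∩ S)) := by
    refine hψ.1.continuous.aestronglyMeasurable.mul ?_
    have h2 : AEStronglyMeasurable (fun z : ℂ => z - c) (volume.restrict (N ∩ S)) :=
      (continuous_id.sub continuous_const).aestronglyMeasurable
    exact h2.inner hGS.1
  have hb : ∀ z ∈ N ∩ S, |ψ z * inner ℝ (z - c) (G z)| ≤
      |‖z - c‖ ^ 2 - ρ ^ 2| * |(L * t : ℝ) * ‖G z‖| := by
    intro z hz
    have hz1 : ρ / t < ‖z - c‖ := hz.1.1
    have hz2 : ‖z - c‖ < ρ * t := hz.1.2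
    have hz0 : 0 < ‖z - c‖ := lt_trans (by positivity) hz1
    set p : ℂ := c + ((ρ / ‖z - c‖ : ℝ) : ℂ) * (z - c) with hp
    have hpc : ‖p - c‖ = ρ := by
      rw [hp, add_sub_cancel_left, norm_mul, Complex.norm_real, Real.norm_eq_abs, abs_of_pos (by positivity)]
      field_simp
    have hzp : ‖z - p‖ = |‖z - c‖ - ρ| := by
      have : z - p = ((1 - ρ / ‖z - c‖ : ℝ) : ℂ) * (z - c) := by
        rw [hp]
        push_cast
        ring
      rw [this, norm_mul, Complex.norm_real, Real.norm_eq_abs]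
      rw [← abs_of_pos hz0, ← abs_mul, abs_of_pos hz0]
      congr 1
      field_simp
    have hψz : |ψ z| ≤ L * |‖z - c‖ - ρ| := by
      have h3 := hLip.dist_le_mul z p
      rw [Real.dist_eq, h0 p hpc, sub_zero, dist_eq_norm, hzp] at h3
      exact h3
    have hin : |inner ℝ (z - c) (G z)| ≤ (ρ * t) * ‖G z‖ := by
      refine (abs_real_inner_le_norm _ _).trans ?_
      exact mul_le_mul_of_nonneg_right hz2.le (norm_nonneg _)
    have hsq : |‖z - c‖ ^ 2 - ρ ^ 2| = |‖z - c‖ - ρ| * (‖z - c‖ + ρ) := by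
      have : ‖z - c‖ ^ 2 - ρ ^ 2 = (‖z - c‖ - ρ) * (‖z - c‖ + ρ) := by ring
      rw [this, abs_mul, abs_of_pos (by positivity : 0 < ‖z - c‖ + ρ)]
    rw [abs_mul, hsq]
    have hLt : 0 ≤ (L * t : ℝ) * ‖G z‖ := by positivity
    rw [abs_of_nonneg hLt]
    calc |ψ z| * |inner ℝ (z - c) (G z)| ≤ (L * |‖z - c‖ - ρ|) * ((ρ * t) * ‖G z‖) :=
          mul_le_mul hψz hin (abs_nonneg _) (by positivity)
      _ = |‖z - c‖ - ρ| * ρ * ((L * t : ℝ) * ‖G z‖) := by ring
      _ ≤ |‖z - c‖ - ρ| * (‖z - c‖ + ρ) * ((L * t : ℝ) * ‖G z‖) := by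
          refine mul_le_mul_of_nonneg_right ?_ hLt
          refine mul_le_mul_of_nonneg_left ?_ (abs_nonneg _)
          linarith
  have l2 := cutf_lim' hρ hcut (S := N ∩ S) hm hH hb (hNo.inter hSo).measurableSet
  have l3 := l1.add l2
  simp only [add_zero] at l3
  have l4 : Tendsto (fun n => (∫ z in N ∩ S, η n z * fderiv ℝ ψ z (G z)) +
      ∫ z in N ∩ S, χ n z * (ψ z * inner ℝ (z - c) (G z))) atTop (𝓝 0) := by
    simp only [h1]
    exact tendsto_const_nhds
  exact tendsto_nhds_unique l3 l4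

theorem intp {k : ℝ} (hk : 0 < k) {c : ℂ} {ρ t : ℝ} (hρ : 0 < ρ) (ht : 1 < t) {u : ℂ → ℝ}
    {G : ℂ → ℂ} (hS : Sob (ann c (ρ / t) (ρ * t)) u G)
    (hL : Loc (ann c (ρ / t) (ρ * t)) k (ball c ρ) G) :
    WHar (ann c (ρ / t) (ρ * t)) (fun z => u z - u (rfl12 c ρ z)) := by
  intro φ hφ hs
  set N := ann c (ρ / t) (ρ * t) with hN
  have hNo : IsOpen N := intp_ann_open _ _ _
  have ht0 : 0 < t := by linarith
  have hr0 : 0 < ρ / t := by positivity
  have hrR : ρ / t < ρ * t := by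
    rw [div_lt_iff₀ ht0]
    nlinarith [mul_pos hρ (mul_pos ht0 ht0), mul_pos hρ (sub_pos.2 ht)]
  have q1 : ρ ^ 2 / (ρ * t) = ρ / t := by field_simp
  have q2 : ρ ^ 2 / (ρ / t) = ρ * t := by field_simp
  obtain ⟨φ', hφ', hs', hv, hlap⟩ := refl_test hρ ht hφ hs
  have hRN : ∀ z ∈ N, rfl12 c ρ z ∈ N := by
    intro z hz
    have hz0 : 0 < ‖z - c‖ := lt_trans hr0 hz.1
    have hzc : z ≠ c := by
      rintro rfl
      simp at hz0
    show ρ / t < ‖rfl12 c ρ z - c‖ ∧ ‖rfl12 c ρ z - c‖ < ρ * t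
    rw [rfl12_norm hzc]
    constructor
    · rw [← q1]
      exact div_lt_div_of_pos_left (by positivity) hz0 hz.2
    · rw [← q2]
      exact div_lt_div_of_pos_left (by positivity) hr0 hz.1
  -- the change of variables
  have hch := chv (c := c) hρ hr0 hrR (fun w => u w * lap φ' w)
  rw [q1, q2] at hch
  have hch' : ∫ z in N, u (rfl12 c ρ z) * lap φ z = ∫ w in N, u w * lap φ' w := by
    rw [← hch]
    refine setIntegral_congr_fun hNo.measurableSet (fun z hz => ?_)
    have hz0 : 0 < ‖z - c‖ := lt_trans hr0 hz.1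
    have hzc : z ≠ c := by
      rintro rfl
      simp at hz0
    show u (rfl12 c ρ z) * lap φ z = u (rfl12 c ρ z) * lap φ' (rfl12 c ρ z) * (ρ ^ 4 / ‖z - c‖ ^ 4)
    rw [hlap _ (hRN z hz), rfl12_rfl12 hρ hzc, rfl12_norm hzc]
    field_simp
  have hmem : MemLp (fun z => u (rfl12 c ρ z)) 2 (volume.restrict N) := by
    refine chv_memLp hρ hr0 hrR ?_
    rw [q1, q2]
    exact hS.memu
  have s1 : ∫ z in N, (u z - u (rfl12 c ρ z)) * lap φ z =
      (∫ z in N, u z * lap φ z) - ∫ z in N, u z * lap φ' z := by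
    rw [← hch', ← integral_sub (pdb_int hS.memu (intp_lap hφ)) (pdb_int hmem (intp_lap hφ))]
    congr 1
    funext z
    ring
  rw [s1, sob_lap hS hφ hs, sob_lap hS hφ' hs']
  -- the difference
  set ψ : ℂ → ℝ := fun z => φ z - φ' z with hψdef
  have hψ : IsTest ψ := ⟨hφ.1.sub hφ'.1, hφ.2.sub hφ'.2⟩
  have hψs : tsupport ψ ⊆ N := (tsupport_sub φ φ').trans (Set.union_subset hs hs')
  have hψ0 : ∀ z, ‖z - c‖ = ρ → ψ z = 0 := by
    intro z hz
    have hzN : z ∈ N := by
      refine ⟨?_, ?_⟩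
      · rw [hz, div_lt_iff₀ ht0]
        nlinarith
      · rw [hz]
        nlinarith
    rw [hψdef]
    simp only
    rw [hv z hzN, intp_rfl hρ hz, sub_self]
  have s2 : (∫ z in N, fderiv ℝ φ z (G z)) - ∫ z in N, fderiv ℝ φ' z (G z) =
      ∫ z in N, fderiv ℝ ψ z (G z) := by
    rw [← integral_sub (intp_int hS.memG hφ) (intp_int hS.memG hφ')]
    congr 1
    funext z
    have d1 : DifferentiableAt ℝ φ z := (hφ.1.differentiable (by simp)).differentiableAt
    have d2 : DifferentiableAt ℝ φ' z := (hφ'.1.differentiable (by simp)).differentiableAt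
    rw [hψdef, fderiv_fun_sub d1 d2]
    rfl
  have a1 := intp_side (k := k) hρ ht hS.memG hL hψ hψs hψ0 (S := ball c ρ) isOpen_ball
    (fun z hz hz' => by
      have h1 : ρ < ‖z - c‖ := by
        rw [mem_ball, dist_eq_norm, not_lt] at hz
        exact lt_of_le_of_ne hz (Ne.symm hz')
      have hc : Continuous (fun w : ℂ => ‖w - c‖) := by fun_prop
      filter_upwards [hc.continuousAt.eventually (lt_mem_nhds h1)] with w hw
      rw [mem_ball, dist_eq_norm, not_lt]
      exact hw.le) (a := k) hk.ne'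
    (fun z hz => by
      unfold cond
      rw [Set.indicator_of_mem hz]
      ring)
  have a2 := intp_side (k := k) hρ ht hS.memG hL hψ hψs hψ0 (S := (closedBall c ρ)ᶜ)
    isClosed_closedBall.isOpen_compl
    (fun z hz hz' => by
      have h1 : ‖z - c‖ < ρ := by
        rw [Set.mem_compl_iff, not_not, mem_closedBall, dist_eq_norm] at hz
        exact lt_of_le_of_ne hz hz'
      have hc : Continuous (fun w : ℂ => ‖w - c‖) := by fun_prop
      filter_upwards [hc.continuousAt.eventually (gt_mem_nhds h1)] with w hw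
      rw [Set.mem_compl_iff, not_not, mem_closedBall, dist_eq_norm]
      exact hw.le) (a := 1) one_ne_zero
    (fun z hz => by
      unfold cond
      rw [Set.indicator_of_notMem]
      · ring
      · intro h
        exact hz (ball_subset_closedBall h))
  have s3 : ∫ z in N, fderiv ℝ ψ z (G z) = 0 := by
    rw [← integral_inter_add_sdiff (s := N) (t := closedBall c ρ)
      isClosed_closedBall.measurableSet (intp_int hS.memG hψ)]
    have b1 : ∫ z in N ∩ closedBall c ρ, fderiv ℝ ψ z (G z) =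
        ∫ z in N ∩ ball c ρ, fderiv ℝ ψ z (G z) := by
      refine setIntegral_congr_set ?_
      refine Filter.EventuallyEq.inter (Filter.EventuallyEq.refl _ _) ?_
      have h0 : volume (sphere c ρ) = 0 := Measure.addHaar_sphere volume c ρ
      have h1 : ∀ᵐ z ∂(volume : Measure ℂ), z ∉ sphere c ρ := by
        rw [ae_iff]
        have e : {a : ℂ | ¬ a ∉ sphere c ρ} = sphere c ρ := by
          ext a
          simp only [Set.mem_ofPred_eq, not_not]
        rw [e]
        exact h0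
      filter_upwards [h1] with z hz
      refine propext ⟨fun h => ?_, fun h => ball_subset_closedBall h⟩
      rw [mem_sphere] at hz
      exact lt_of_le_of_ne h hz
    rw [b1, a1]
    have b2 : N \ closedBall c ρ = N ∩ (closedBall c ρ)ᶜ := rfl
    rw [b2, a2, add_zero]
  have s4 : -(∫ z in N, fderiv ℝ φ z (G z)) - -(∫ z in N, fderiv ℝ φ' z (G z)) =
      -((∫ z in N, fderiv ℝ φ z (G z)) - ∫ z in N, fderiv ℝ φ' z (G z)) := by ring
  rw [s4, s2, s3, neg_zero]

end MD12

end S_INTP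

section S_INTQ

/-! # INTQ: the even part is weakly harmonic across the circle

`N = ann c (ρ/t) (ρt)`, `R = rfl12 c ρ`, `φ` a test function in `N`, `φ'` the reflected one (`refl_test`), `ψ = φ + φ'`, so `ψ (R z) = ψ z` on `N`.
`in = {z ∈ N, ‖z-c‖ < ρ}`, `out = {z ∈ N, ρ < ‖z-c‖}`; `R` exchanges them.
`chv` (for the annuli `ann c (ρ/t) ρ` and `ann c ρ (ρt)`): `∫_in u∘R lap φ = ∫_out u lap φ'`, `∫_out u∘R lap φ = ∫_in u lap φ'`.  So
`∫_N Q lap φ = k ∫_in u lap ψ + ∫_out u lap ψ`.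
Claim: `∫_in u lap ψ = -∫_in fderiv ψ (G)`, the same for `out`.  Then the sum is `-∫_N cond fderiv ψ (G) = 0` by `hL`.
Proof of the claim: `η n` from `exists_cut`; the test functions `(η n ∂_v ψ)` times the indicator of `ball c ρ` (`v = 1, I`) in `hS.grad`, add:
`∫_in u (η n lap ψ + fderiv (η n) (∇ψ)) = -∫_in η n fderiv ψ (G)` where `Σ_v fderiv (η n) z v * fderiv ψ z v = χ n z * fderiv ψ z (z - c)`
(`Cut.fd`, `fd_eq`).  `cutf_lim` for the terms with `η n`.  For the last: `F z = u z * fderiv ψ z (z-c)`; the function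
`z ↦ fderiv ψ z (z-c)` is smooth and vanishes on the circle: differentiate `s ↦ ψ (c + s w) = ψ (R (c + s w)) = ψ (c + s⁻¹ ρ²/‖w‖² w)` at `s = 1`
for `‖w‖ = ρ`.  Being Lipschitz it is bounded by `L |‖z-c‖ - ρ| ≤ (L/ρ)|‖z-c‖² - ρ²|`; `cutf_lim'` with `H = (L/ρ) u`.
The circle is a null set (`Measure.addHaar_sphere`).
-/

namespace MD12

open Complex Metric Set Filter Topology InnerProductSpace MeasureTheory
open scoped ComplexConjugate ContDiff MeasureTheory

theorem INTQ_int {N : Set ℂ} {u : ℂ → ℝ} (hu : MemLp u 2 (volume.restrict N)) {ψ : ℂ → ℝ}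
    (hψ : Continuous ψ) (hc : HasCompactSupport ψ) :
    IntegrableOn (fun z => u z * ψ z) N volume := by
  have h2 : MemLp ψ 2 (volume.restrict N) := (hψ.memLp_of_hasCompactSupport hc).restrict N
  exact hu.integrable_mul h2

theorem INTQ_open (c : ℂ) (r R : ℝ) : IsOpen (ann c r R) := by
  have h : Continuous (fun z : ℂ => ‖z - c‖) := (continuous_id.sub continuous_const).norm
  exact (isOpen_lt continuous_const h).inter (isOpen_lt h continuous_const)

theorem INTQ_split {c : ℂ} {ρ t : ℝ} (hρ : 0 < ρ) (ht : 1 < t) {f : ℂ → ℝ}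
    (hf : IntegrableOn f (ann c (ρ / t) (ρ * t)) volume) :
    ∫ z in ann c (ρ / t) (ρ * t), f z =
      (∫ z in ann c (ρ / t) ρ, f z) + ∫ z in ann c ρ (ρ * t), f z := by
  have h1 : ρ / t < ρ := div_lt_self hρ ht
  have h2 : ρ < ρ * t := by nlinarith
  have hsub1 : ann c (ρ / t) ρ ⊆ ann c (ρ / t) (ρ * t) := fun z hz => ⟨hz.1, hz.2.trans h2⟩
  have hsub2 : ann c ρ (ρ * t) ⊆ ann c (ρ / t) (ρ * t) := fun z hz => ⟨h1.trans hz.1, hz.2⟩
  have hd : ann c (ρ / t) (ρ * t) \ (ann c (ρ / t) ρ ∪ ann c ρ (ρ * t)) ⊆ sphere c ρ := by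
    intro z hz
    rw [mem_sphere, dist_eq_norm]
    by_contra hne
    rcases lt_or_gt_of_ne hne with h | h
    · exact hz.2 (Or.inl ⟨hz.1.1, h⟩)
    · exact hz.2 (Or.inr ⟨h, hz.1.2⟩)
  have hae : (ann c (ρ / t) (ρ * t) : Set ℂ) =ᵐ[volume]
      (ann c (ρ / t) ρ ∪ ann c ρ (ρ * t) : Set ℂ) := by
    refine ae_eq_set.2 ⟨measure_mono_null hd (Measure.addHaar_sphere _ _ _), ?_⟩
    rw [sdiff_eq_empty.2 (union_subset hsub1 hsub2)]
    exact measure_empty
  rw [setIntegral_congr_set hae]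
  refine setIntegral_union ?_ (INTQ_open _ _ _).measurableSet (hf.mono_set hsub1)
    (hf.mono_set hsub2)
  rw [Set.disjoint_left]
  intro z h h'
  exact absurd h.2 (not_lt.2 h'.1.le)

theorem INTQ_cutloc {c : ℂ} {ρ : ℝ} {η χ : ℕ → ℂ → ℝ} {C : ℝ} (h : Cut c ρ η χ C) {S : Set ℂ}
    (hS : IsOpen S) (hfr : frontier S ⊆ sphere c ρ) (n : ℕ) {z : ℂ} (hz : z ∉ S) :
    S.indicator (η n) =ᶠ[𝓝 z] fun _ => 0 := by
  by_cases hc : z ∈ closure S
  · have hsp : z ∈ sphere c ρ := hfr ⟨hc, by rwa [hS.interior_eq]⟩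
    have hcont : Continuous (fun w : ℂ => |‖w - c‖ ^ 2 - ρ ^ 2|) := by fun_prop
    have h0 : |‖z - c‖ ^ 2 - ρ ^ 2| < 1 / ((n : ℝ) + 1) := by
      rw [mem_sphere, dist_eq_norm] at hsp
      rw [hsp, sub_self, abs_zero]
      positivity
    filter_upwards [hcont.continuousAt.eventually (gt_mem_nhds h0)] with w hw
    have h1 := h.zero n w hw.le
    by_cases hw' : w ∈ S
    · rw [indicator_of_mem hw', h1]
    · rw [indicator_of_notMem hw']
  · have hm : (closure S)ᶜ ∈ 𝓝 z := isClosed_closure.isOpen_compl.mem_nhds hc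
    filter_upwards [hm] with w hw
    exact indicator_of_notMem (fun h' => hw (subset_closure h')) _

theorem INTQ_cutin {η : ℕ → ℂ → ℝ} {S : Set ℂ}
    (hS : IsOpen S) (n : ℕ) {z : ℂ} (hz : z ∈ S) :
    S.indicator (η n) =ᶠ[𝓝 z] η n := by
  filter_upwards [hS.mem_nhds hz] with w hw
  exact indicator_of_mem hw _

theorem INTQ_smooth {c : ℂ} {ρ : ℝ} {η χ : ℕ → ℂ → ℝ} {C : ℝ} (h : Cut c ρ η χ C) {S : Set ℂ}
    (hS : IsOpen S) (hfr : frontier S ⊆ sphere c ρ) (n : ℕ) :
    ContDiff ℝ ∞ (S.indicator (η n)) := by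
  rw [contDiff_iff_contDiffAt]
  intro z
  by_cases hz : z ∈ S
  · exact (h.smooth n).contDiffAt.congr_of_eventuallyEq (INTQ_cutin hS n hz)
  · exact contDiffAt_const.congr_of_eventuallyEq (INTQ_cutloc h hS hfr n hz)

theorem INTQ_fd {c : ℂ} {ρ : ℝ} {η χ : ℕ → ℂ → ℝ} {C : ℝ} (h : Cut c ρ η χ C) {S : Set ℂ}
    (hS : IsOpen S) (hfr : frontier S ⊆ sphere c ρ) (n : ℕ) (z v : ℂ) :
    fderiv ℝ (S.indicator (η n)) z v = S.indicator (fun z => χ n z * inner ℝ (z - c) v) z := by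
  by_cases hz : z ∈ S
  · rw [(INTQ_cutin hS n hz).fderiv_eq, indicator_of_mem hz, h.fd]
  · rw [(INTQ_cutloc h hS hfr n hz).fderiv_eq, indicator_of_notMem hz]
    simp

/-- the radial derivative of a symmetric function vanishes on the circle -/
theorem INTQ_rad {c : ℂ} {ρ t : ℝ} (hρ : 0 < ρ) (ht : 1 < t) {ψ : ℂ → ℝ} (hψ : ContDiff ℝ ∞ ψ)
    (hsym : ∀ z ∈ ann c (ρ / t) (ρ * t), ψ (rfl12 c ρ z) = ψ z) {z : ℂ} (hz : ‖z - c‖ = ρ) :
    fderiv ℝ ψ z (z - c) = 0 := by
  have hd : DifferentiableAt ℝ ψ z := (hψ.differentiable (by simp)) z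
  have hz' : c + ((1 : ℝ) : ℂ) * (z - c) = z := by simp
  have hd1 : HasFDerivAt ψ (fderiv ℝ ψ z) (c + ((1 : ℝ) : ℂ) * (z - c)) := by
    rw [hz']; exact hd.hasFDerivAt
  have hl : HasDerivAt (fun s : ℝ => c + (s : ℂ) * (z - c)) (z - c) 1 := by
    have h1 : HasDerivAt (fun s : ℝ => (s : ℂ)) 1 1 := Complex.ofRealCLM.hasDerivAt
    have := (h1.mul_const (z - c)).const_add c
    simpa using this
  have hg : HasDerivAt (fun s : ℝ => ψ (c + (s : ℂ) * (z - c))) (fderiv ℝ ψ z (z - c)) 1 :=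
    hd1.comp_hasDerivAt (1 : ℝ) hl
  have hg1 : HasDerivAt (fun s : ℝ => ψ (c + (s : ℂ) * (z - c))) (fderiv ℝ ψ z (z - c))
      ((1 : ℝ)⁻¹) := by
    rw [inv_one]; exact hg
  have hinv : HasDerivAt (fun s : ℝ => s⁻¹) (-1) 1 := by
    have := hasDerivAt_inv (one_ne_zero : (1 : ℝ) ≠ 0)
    simpa using this
  have hg2 : HasDerivAt (fun s : ℝ => ψ (c + ((s⁻¹ : ℝ) : ℂ) * (z - c)))
      (fderiv ℝ ψ z (z - c) * (-1)) 1 :=
    hg1.comp (1 : ℝ) hinv
  have hev : (fun s : ℝ => ψ (c + ((s⁻¹ : ℝ) : ℂ) * (z - c))) =ᶠ[𝓝 1]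
      fun s : ℝ => ψ (c + (s : ℂ) * (z - c)) := by
    have h1 : t⁻¹ < 1 := inv_lt_one_of_one_lt₀ ht
    have ht0 : 0 < t := by linarith
    filter_upwards [Ioo_mem_nhds h1 ht] with s hs
    have hs0 : 0 < s := (inv_pos.2 ht0).trans hs.1
    have hmem : c + (s : ℂ) * (z - c) ∈ ann c (ρ / t) (ρ * t) := by
      have hn : ‖c + (s : ℂ) * (z - c) - c‖ = s * ρ := by
        rw [add_sub_cancel_left, norm_mul, Complex.norm_real, Real.norm_eq_abs, abs_of_pos hs0, hz]
      refine ⟨?_, ?_⟩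
      · rw [hn, div_eq_mul_inv, mul_comm ρ]
        exact mul_lt_mul_of_pos_right hs.1 hρ
      · rw [hn, mul_comm ρ]
        exact mul_lt_mul_of_pos_right hs.2 hρ
    rw [← hsym _ hmem]
    congr 1
    have hne : z - c ≠ 0 := by
      intro h0
      rw [h0, norm_zero] at hz
      exact hρ.ne hz
    have hcne : conj (z - c) ≠ 0 := (map_ne_zero _).2 hne
    have hmc : (z - c) * conj (z - c) = (ρ : ℂ) ^ 2 := by
      rw [Complex.mul_conj, Complex.normSq_eq_norm_sq, hz]
      push_cast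
      rfl
    have hsne : (s : ℂ) ≠ 0 := by exact_mod_cast hs0.ne'
    unfold rfl12
    rw [add_sub_cancel_left, map_mul, Complex.conj_ofReal, ← hmc]
    congr 1
    push_cast
    field_simp
  have huniq := (hg2.congr_of_eventuallyEq hev.symm).unique hg
  linarith

theorem INTQ_rad_bd {c : ℂ} {ρ t : ℝ} (hρ : 0 < ρ) (ht : 1 < t) {ψ : ℂ → ℝ} (hψ : IsTest ψ)
    (hsym : ∀ z ∈ ann c (ρ / t) (ρ * t), ψ (rfl12 c ρ z) = ψ z) :
    ∃ L : ℝ, 0 ≤ L ∧ ∀ z, z ≠ c → |fderiv ℝ ψ z (z - c)| ≤ L * |‖z - c‖ ^ 2 - ρ ^ 2| := by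
  have hsm : ContDiff ℝ ∞ (fun z => fderiv ℝ ψ z (z - c)) := by
    have h1 : ContDiff ℝ ∞ (fun z => fderiv ℝ ψ z) := hψ.1.fderiv_right (by simp)
    exact h1.clm_apply (contDiff_id.sub contDiff_const)
  have hcs : HasCompactSupport (fun z => fderiv ℝ ψ z (z - c)) := by
    refine HasCompactSupport.intro hψ.2 fun z hz => ?_
    have h0 : fderiv ℝ ψ z = 0 := by
      by_contra hne
      exact hz (tsupport_fderiv_subset ℝ (subset_tsupport _ hne))
    rw [h0]
    rfl
  obtain ⟨K, hK⟩ := hsm.lipschitzWith_of_hasCompactSupport hcs (by simp)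
  refine ⟨K / ρ, by positivity, fun z hz => ?_⟩
  have hn : 0 < ‖z - c‖ := norm_pos_iff.2 (sub_ne_zero.2 hz)
  set z₀ : ℂ := c + ((ρ / ‖z - c‖ : ℝ) : ℂ) * (z - c) with hz₀
  have h1 : ‖z₀ - c‖ = ρ := by
    rw [hz₀, add_sub_cancel_left, norm_mul, Complex.norm_real, Real.norm_eq_abs,
      abs_of_pos (by positivity)]
    field_simp
  have h2 : ‖z - z₀‖ = |‖z - c‖ - ρ| := by
    have e : z - z₀ = ((1 - ρ / ‖z - c‖ : ℝ) : ℂ) * (z - c) := by
      rw [hz₀]; push_cast; ring
    rw [e, norm_mul, Complex.norm_real, Real.norm_eq_abs]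
    have e2 : ‖z - c‖ - ρ = (1 - ρ / ‖z - c‖) * ‖z - c‖ := by field_simp
    rw [e2, abs_mul, abs_of_pos hn]
  have h3 := hK.dist_le_mul z z₀
  rw [dist_eq_norm, dist_eq_norm, INTQ_rad hρ ht hψ.1 hsym h1, sub_zero, h2,
    Real.norm_eq_abs] at h3
  have h4 : |‖z - c‖ ^ 2 - ρ ^ 2| = |‖z - c‖ - ρ| * (‖z - c‖ + ρ) := by
    have e3 : ‖z - c‖ ^ 2 - ρ ^ 2 = (‖z - c‖ - ρ) * (‖z - c‖ + ρ) := by ring
    rw [e3, abs_mul, abs_of_pos (by positivity : 0 < ‖z - c‖ + ρ)]
  rw [h4]
  refine h3.trans ?_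
  have h5 : (K : ℝ) * |‖z - c‖ - ρ| = K / ρ * (|‖z - c‖ - ρ| * ρ) := by field_simp
  rw [h5]
  have h6 : |‖z - c‖ - ρ| * ρ ≤ |‖z - c‖ - ρ| * (‖z - c‖ + ρ) :=
    mul_le_mul_of_nonneg_left (by linarith) (abs_nonneg _)
  exact mul_le_mul_of_nonneg_left h6 (by positivity)

theorem INTQ_intG {N : Set ℂ} {G : ℂ → ℂ} (hG : MemLp G 2 (volume.restrict N)) {ψ : ℂ → ℝ}
    (hψ : IsTest ψ) : IntegrableOn (fun z => fderiv ℝ ψ z (G z)) N volume := by
  have h1 : (fun z => fderiv ℝ ψ z (G z)) = fun z => inner ℝ (G z) 1 * fderiv ℝ ψ z 1 +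
      inner ℝ (G z) I * fderiv ℝ ψ z I := by
    funext z
    exact fd_eq ψ z (G z)
  rw [h1]
  exact (INTQ_int (hG.inner_const 1) (hψ.fd 1).1.1.continuous (hψ.fd 1).1.2).add
    (INTQ_int (hG.inner_const I) (hψ.fd I).1.1.continuous (hψ.fd I).1.2)

theorem INTQ_lap {ψ : ℂ → ℝ} (hψ : IsTest ψ) : IsTest (lap ψ) := by
  have h1 := ((hψ.fd 1).1.fd 1).1
  have h2 := ((hψ.fd I).1.fd I).1
  exact ⟨h1.1.add h2.1, h1.2.add h2.2⟩

theorem INTQ_claim {c : ℂ} {ρ t : ℝ} (hρ : 0 < ρ) (ht : 1 < t) {u : ℂ → ℝ} {G : ℂ → ℂ}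
    (hS : Sob (ann c (ρ / t) (ρ * t)) u G) {ψ : ℂ → ℝ} (hψ : IsTest ψ)
    (hψN : tsupport ψ ⊆ ann c (ρ / t) (ρ * t))
    (hsym : ∀ z ∈ ann c (ρ / t) (ρ * t), ψ (rfl12 c ρ z) = ψ z) {S : Set ℂ} (hSo : IsOpen S)
    (hfr : frontier S ⊆ sphere c ρ) :
    ∫ z in ann c (ρ / t) (ρ * t) ∩ S, u z * lap ψ z =
      -∫ z in ann c (ρ / t) (ρ * t) ∩ S, fderiv ℝ ψ z (G z) := by
  set N := ann c (ρ / t) (ρ * t) with hN
  have hNo : IsOpen N := INTQ_open _ _ _
  have hNc : ∀ z ∈ N, z ≠ c := by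
    rintro z hz rfl
    have h1 := hz.1
    rw [sub_self, norm_zero] at h1
    have : 0 < ρ / t := by positivity
    linarith
  have hNfin : volume N ≠ ⊤ := by
    have hsub : N ⊆ ball c (ρ * t) := fun z hz => by
      rw [mem_ball, dist_eq_norm]; exact hz.2
    exact ne_top_of_le_ne_top (measure_ball_lt_top).ne (measure_mono hsub)
  obtain ⟨η, χ, C, hC⟩ := exists_cut c hρ
  obtain ⟨L, hL0, hL⟩ := INTQ_rad_bd hρ ht hψ hsym
  have hlap := INTQ_lap hψ
  have hsm : ContDiff ℝ ∞ (fun z => fderiv ℝ ψ z (z - c)) := by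
    have h1 : ContDiff ℝ ∞ (fun z => fderiv ℝ ψ z) := hψ.1.fderiv_right (by simp)
    exact h1.clm_apply (contDiff_id.sub contDiff_const)
  have hcs : HasCompactSupport (fun z => fderiv ℝ ψ z (z - c)) := by
    refine HasCompactSupport.intro hψ.2 fun z hz => ?_
    have h0 : fderiv ℝ ψ z = 0 := by
      by_contra hne
      exact hz (tsupport_fderiv_subset ℝ (subset_tsupport _ hne))
    rw [h0]
    rfl
  have hrad : Continuous (fun z => fderiv ℝ ψ z (z - c)) := hsm.continuous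
  -- the identity for each `n`
  have hE : ∀ n : ℕ, (∫ z in N ∩ S, η n z * (u z * lap ψ z)) +
      (∫ z in N ∩ S, χ n z * (u z * fderiv ℝ ψ z (z - c))) =
      -∫ z in N ∩ S, η n z * fderiv ℝ ψ z (G z) := by
    intro n
    have hθ := INTQ_smooth hC hSo hfr n
    have tst : ∀ v : ℂ, IsTest (fun z => S.indicator (η n) z * fderiv ℝ ψ z v) := fun v =>
      IsTest.mul hθ (hψ.fd v).1
    have tsp : ∀ v : ℂ, tsupport (fun z => S.indicator (η n) z * fderiv ℝ ψ z v) ⊆ N := fun v =>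
      (tsupport_mul_subset_right.trans (hψ.fd v).2).trans hψN
    have e1 := hS.grad _ (tst 1) (tsp 1) 1
    have e2 := hS.grad _ (tst I) (tsp I) I
    have hfdm : ∀ v z : ℂ, fderiv ℝ (fun z => S.indicator (η n) z * fderiv ℝ ψ z v) z v =
        S.indicator (η n) z * fderiv ℝ (fun w => fderiv ℝ ψ w v) z v
          + fderiv ℝ ψ z v * S.indicator (fun z => χ n z * inner ℝ (z - c) v) z := by
      intro v z
      have h1 : DifferentiableAt ℝ (S.indicator (η n)) z := (hθ.differentiable (by simp)) z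
      have h2 : DifferentiableAt ℝ (fun w => fderiv ℝ ψ w v) z :=
        ((hψ.fd v).1.1.differentiable (by simp)) z
      have h3 : fderiv ℝ (fun z => S.indicator (η n) z * fderiv ℝ ψ z v) z =
          S.indicator (η n) z • fderiv ℝ (fun w => fderiv ℝ ψ w v) z
            + fderiv ℝ ψ z v • fderiv ℝ (S.indicator (η n)) z :=
        fderiv_fun_mul h1 h2
      rw [h3, ← INTQ_fd hC hSo hfr n z v]
      simp
    have iL : ∀ v : ℂ, IntegrableOn
        (fun z => u z * fderiv ℝ (fun z => S.indicator (η n) z * fderiv ℝ ψ z v) z v) N volume :=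
      fun v => INTQ_int hS.memu ((tst v).fd v).1.1.continuous ((tst v).fd v).1.2
    have iR : ∀ v : ℂ, IntegrableOn
        (fun z => inner ℝ (G z) v * (S.indicator (η n) z * fderiv ℝ ψ z v)) N volume :=
      fun v => INTQ_int (hS.memG.inner_const v) (tst v).1.continuous (tst v).2
    have hsum := congrArg₂ (· + ·) e1 e2
    rw [← integral_add (iL 1) (iL I), ← neg_add, ← integral_add (iR 1) (iR I)] at hsum
    have hl : ∀ z, u z * fderiv ℝ (fun z => S.indicator (η n) z * fderiv ℝ ψ z 1) z 1 +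
        u z * fderiv ℝ (fun z => S.indicator (η n) z * fderiv ℝ ψ z I) z I =
        S.indicator (fun z => η n z * (u z * lap ψ z) +
          χ n z * (u z * fderiv ℝ ψ z (z - c))) z := by
      intro z
      rw [hfdm, hfdm]
      by_cases hz : z ∈ S
      · simp only [indicator_of_mem hz]
        rw [fd_eq ψ z (z - c), lap]
        ring
      · simp only [indicator_of_notMem hz]
        ring
    have hr : ∀ z, inner ℝ (G z) 1 * (S.indicator (η n) z * fderiv ℝ ψ z 1) +
        inner ℝ (G z) I * (S.indicator (η n) z * fderiv ℝ ψ z I) =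
        S.indicator (fun z => η n z * fderiv ℝ ψ z (G z)) z := by
      intro z
      by_cases hz : z ∈ S
      · simp only [indicator_of_mem hz]
        rw [fd_eq ψ z (G z)]
        ring
      · simp only [indicator_of_notMem hz]
        ring
    simp only [hl, hr] at hsum
    rw [setIntegral_indicator hSo.measurableSet, setIntegral_indicator hSo.measurableSet] at hsum
    rw [← hsum]
    have i1 : IntegrableOn (fun z => η n z * (u z * lap ψ z)) (N ∩ S) volume := by
      have h1 := INTQ_int hS.memu ((hC.smooth n).continuous.mul hlap.1.continuous)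
        (HasCompactSupport.mul_left hlap.2)
      refine (h1.mono_set inter_subset_left).congr_fun (fun z _ => ?_)
        (hNo.inter hSo).measurableSet
      simp only [Pi.mul_apply]
      ring
    have i2 : IntegrableOn (fun z => χ n z * (u z * fderiv ℝ ψ z (z - c))) (N ∩ S) volume := by
      have h1 := INTQ_int hS.memu ((hC.chic n).mul hrad)
        (HasCompactSupport.mul_left hcs)
      refine (h1.mono_set inter_subset_left).congr_fun (fun z _ => ?_)
        (hNo.inter hSo).measurableSet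
      simp only [Pi.mul_apply]
      ring
    exact (integral_add i1 i2).symm
  -- limits
  have l1 : Tendsto (fun n => ∫ z in N ∩ S, η n z * (u z * lap ψ z)) atTop
      (𝓝 (∫ z in N ∩ S, u z * lap ψ z)) :=
    cutf_lim hρ hC ((INTQ_int hS.memu hlap.1.continuous hlap.2).mono_set inter_subset_left)
  have l2 : Tendsto (fun n => ∫ z in N ∩ S, η n z * fderiv ℝ ψ z (G z)) atTop
      (𝓝 (∫ z in N ∩ S, fderiv ℝ ψ z (G z))) :=
    cutf_lim hρ hC ((INTQ_intG hS.memG hψ).mono_set inter_subset_left)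
  have l3 : Tendsto (fun n => ∫ z in N ∩ S, χ n z * (u z * fderiv ℝ ψ z (z - c))) atTop
      (𝓝 0) := by
    have hui : IntegrableOn u N volume := by
      have : IsFiniteMeasure (volume.restrict N) := isFiniteMeasure_restrict.2 hNfin
      exact hS.memu.integrable (by norm_num)
    refine cutf_lim' hρ hC (H := fun z => L * u z) ?_ ?_ ?_ (hNo.inter hSo).measurableSet
    · exact (hS.memu.1.mul hrad.aestronglyMeasurable).mono_measure
        (Measure.restrict_mono inter_subset_left le_rfl)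
    · exact IntegrableOn.mono_set (show IntegrableOn (fun z => L * u z) N volume from
        hui.const_mul L) inter_subset_left
    · intro z hz
      have h1 := hL z (hNc z hz.1)
      rw [abs_mul, abs_mul, abs_of_nonneg hL0]
      calc |u z| * |fderiv ℝ ψ z (z - c)| ≤ |u z| * (L * |‖z - c‖ ^ 2 - ρ ^ 2|) :=
            mul_le_mul_of_nonneg_left h1 (abs_nonneg _)
        _ = |‖z - c‖ ^ 2 - ρ ^ 2| * (L * |u z|) := by ring
  have hlim := (l1.add l3)
  have hlim2 : Tendsto (fun n => (∫ z in N ∩ S, η n z * (u z * lap ψ z)) +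
      ∫ z in N ∩ S, χ n z * (u z * fderiv ℝ ψ z (z - c))) atTop
      (𝓝 (-∫ z in N ∩ S, fderiv ℝ ψ z (G z))) := by
    simp only [hE]
    exact l2.neg
  have := tendsto_nhds_unique hlim hlim2
  rw [add_zero] at this
  exact this

theorem intq {k : ℝ} (hk : 0 < k) {c : ℂ} {ρ t : ℝ} (hρ : 0 < ρ) (ht : 1 < t) {u : ℂ → ℝ}
    {G : ℂ → ℂ} (hS : Sob (ann c (ρ / t) (ρ * t)) u G)
    (hL : Loc (ann c (ρ / t) (ρ * t)) k (ball c ρ) G) :
    WHar (ann c (ρ / t) (ρ * t)) (fun z => if ‖z - c‖ < ρ then k * u z + u (rfl12 c ρ z)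
      else u z + k * u (rfl12 c ρ z)) := by
  intro φ hφ hφN
  have ht0 : 0 < t := by linarith
  have h1 : ρ / t < ρ := div_lt_self hρ ht
  have h2 : ρ < ρ * t := by nlinarith
  have hrt : 0 < ρ / t := by positivity
  obtain ⟨φ', hφ', hφ'N, hφ'v, hφ'l⟩ := refl_test hρ ht hφ hφN
  have q1 : ρ ^ 2 / (ρ * t) = ρ / t := by field_simp
  have q2 : ρ ^ 2 / (ρ / t) = ρ * t := by field_simp
  have q3 : ρ ^ 2 / ρ = ρ := by field_simp
  have hNc : ∀ z ∈ ann c (ρ / t) (ρ * t), z ≠ c := by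
    rintro z hz rfl
    have h1 := hz.1
    rw [sub_self, norm_zero] at h1
    linarith
  have hin : ann c (ρ / t) ρ ⊆ ann c (ρ / t) (ρ * t) := fun z hz => ⟨hz.1, hz.2.trans h2⟩
  have hout : ann c ρ (ρ * t) ⊆ ann c (ρ / t) (ρ * t) := fun z hz => ⟨h1.trans hz.1, hz.2⟩
  have hRm : ∀ z ∈ ann c (ρ / t) (ρ * t), rfl12 c ρ z ∈ ann c (ρ / t) (ρ * t) := by
    intro z hz
    have hp : 0 < ‖z - c‖ := hrt.trans hz.1
    have hn := rfl12_norm (ρ := ρ) (hNc z hz)
    refine ⟨?_, ?_⟩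
    · rw [hn, ← q1]
      exact div_lt_div_of_pos_left (by positivity) hp hz.2
    · rw [hn, ← q2]
      exact div_lt_div_of_pos_left (by positivity) hrt hz.1
  -- the reflected function is square integrable
  have huR : MemLp (fun z => u (rfl12 c ρ z)) 2 (volume.restrict (ann c (ρ / t) (ρ * t))) := by
    refine chv_memLp hρ hrt (h1.trans h2) ?_
    rw [q1, q2]
    exact hS.memu
  have lapφ := INTQ_lap hφ
  have lapφ' := INTQ_lap hφ'
  have iu : IntegrableOn (fun z => u z * lap φ z) (ann c (ρ / t) (ρ * t)) volume :=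
    INTQ_int hS.memu lapφ.1.continuous lapφ.2
  have iu' : IntegrableOn (fun z => u z * lap φ' z) (ann c (ρ / t) (ρ * t)) volume :=
    INTQ_int hS.memu lapφ'.1.continuous lapφ'.2
  have iR : IntegrableOn (fun z => u (rfl12 c ρ z) * lap φ z) (ann c (ρ / t) (ρ * t)) volume :=
    INTQ_int huR lapφ.1.continuous lapφ.2
  -- change of variables
  have c1 : ∫ z in ann c (ρ / t) ρ, u (rfl12 c ρ z) * lap φ z =
      ∫ w in ann c ρ (ρ * t), u w * lap φ' w := by
    have h := chv (c := c) hρ hρ h2 (fun z => u (rfl12 c ρ z) * lap φ z)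
    rw [q1, q3] at h
    rw [← h]
    refine setIntegral_congr_fun (INTQ_open _ _ _).measurableSet fun w hw => ?_
    have hw' := hout hw
    rw [rfl12_rfl12 hρ (hNc w hw'), hφ'l w hw']
    ring
  have c2 : ∫ z in ann c ρ (ρ * t), u (rfl12 c ρ z) * lap φ z =
      ∫ w in ann c (ρ / t) ρ, u w * lap φ' w := by
    have h := chv (c := c) hρ hrt h1 (fun z => u (rfl12 c ρ z) * lap φ z)
    rw [q2, q3] at h
    rw [← h]
    refine setIntegral_congr_fun (INTQ_open _ _ _).measurableSet fun w hw => ?_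
    have hw' := hin hw
    rw [rfl12_rfl12 hρ (hNc w hw'), hφ'l w hw']
    ring
  -- the symmetric test function
  have hψ : IsTest (fun z => φ z + φ' z) := ⟨hφ.1.add hφ'.1, hφ.2.add hφ'.2⟩
  have hψN : tsupport (fun z => φ z + φ' z) ⊆ ann c (ρ / t) (ρ * t) :=
    (tsupport_add φ φ').trans (union_subset hφN hφ'N)
  have hsym : ∀ z ∈ ann c (ρ / t) (ρ * t),
      (fun z => φ z + φ' z) (rfl12 c ρ z) = (fun z => φ z + φ' z) z := by
    intro z hz
    simp only
    rw [hφ'v z hz, hφ'v _ (hRm z hz), rfl12_rfl12 hρ (hNc z hz)]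
    ring
  have hlapadd : ∀ z, lap (fun z => φ z + φ' z) z = lap φ z + lap φ' z := by
    intro z
    have hd : ∀ v w : ℂ, fderiv ℝ (fun z => φ z + φ' z) w v =
        fderiv ℝ φ w v + fderiv ℝ φ' w v := by
      intro v w
      rw [fderiv_fun_add (hφ.1.differentiable (by simp) w) (hφ'.1.differentiable (by simp) w)]
      rfl
    have hd2 : ∀ v : ℂ, fderiv ℝ (fun w => fderiv ℝ (fun z => φ z + φ' z) w v) z v =
        fderiv ℝ (fun w => fderiv ℝ φ w v) z v + fderiv ℝ (fun w => fderiv ℝ φ' w v) z v := by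
      intro v
      simp only [hd]
      rw [fderiv_fun_add ((hφ.fd v).1.1.differentiable (by simp) z)
        ((hφ'.fd v).1.1.differentiable (by simp) z)]
      rfl
    unfold lap
    rw [hd2, hd2]
    ring
  have hin' : ann c (ρ / t) (ρ * t) ∩ ball c ρ = ann c (ρ / t) ρ := by
    ext z
    constructor
    · rintro ⟨hz, hb⟩
      rw [mem_ball, dist_eq_norm] at hb
      exact ⟨hz.1, hb⟩
    · intro hz
      exact ⟨hin hz, by rw [mem_ball, dist_eq_norm]; exact hz.2⟩
  have hout' : ann c (ρ / t) (ρ * t) ∩ (closedBall c ρ)ᶜ = ann c ρ (ρ * t) := by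
    ext z
    constructor
    · rintro ⟨hz, hb⟩
      rw [mem_compl_iff, mem_closedBall, dist_eq_norm, not_le] at hb
      exact ⟨hb, hz.2⟩
    · intro hz
      exact ⟨hout hz, by rw [mem_compl_iff, mem_closedBall, dist_eq_norm, not_le]; exact hz.1⟩
  have d1 := INTQ_claim hρ ht hS hψ hψN hsym (S := ball c ρ) isOpen_ball
    (by rw [frontier_ball c hρ.ne'])
  have d2 := INTQ_claim hρ ht hS hψ hψN hsym (S := (closedBall c ρ)ᶜ)
    isClosed_closedBall.isOpen_compl
    (by rw [frontier_compl, frontier_closedBall c hρ.ne'])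
  rw [hin'] at d1
  rw [hout'] at d2
  -- the equation
  have hLψ := hL _ hψ hψN
  have icond : IntegrableOn (fun z => cond k (ball c ρ) z *
      fderiv ℝ (fun z => φ z + φ' z) z (G z)) (ann c (ρ / t) (ρ * t)) volume := by
    have hcm : Measurable (cond k (ball c ρ)) := by
      unfold cond
      exact measurable_const.add (measurable_const.mul (measurable_const.indicator
        isOpen_ball.measurableSet))
    have hcb : ∀ z, ‖cond k (ball c ρ) z‖ ≤ 1 + |k - 1| := by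
      intro z
      unfold cond
      refine (norm_add_le _ _).trans ?_
      have : ‖(k - 1) * (ball c ρ).indicator (fun _ => (1 : ℝ)) z‖ ≤ |k - 1| := by
        rw [norm_mul, Real.norm_eq_abs]
        by_cases hz : z ∈ ball c ρ
        · simp [indicator_of_mem hz]
        · simp [indicator_of_notMem hz]
      simpa using add_le_add_right this 1
    exact (INTQ_intG hS.memG hψ).bdd_mul hcm.aestronglyMeasurable (Eventually.of_forall hcb)
  rw [INTQ_split hρ ht icond] at hLψ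
  have g1 : ∫ z in ann c (ρ / t) ρ, cond k (ball c ρ) z *
      fderiv ℝ (fun z => φ z + φ' z) z (G z) =
      k * ∫ z in ann c (ρ / t) ρ, fderiv ℝ (fun z => φ z + φ' z) z (G z) := by
    rw [← integral_const_mul]
    refine setIntegral_congr_fun (INTQ_open _ _ _).measurableSet fun z hz => ?_
    have hb : z ∈ ball c ρ := by rw [mem_ball, dist_eq_norm]; exact hz.2
    have : cond k (ball c ρ) z = k := by
      unfold cond
      rw [indicator_of_mem hb]
      ring
    simp only [this]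
  have g2 : ∫ z in ann c ρ (ρ * t), cond k (ball c ρ) z *
      fderiv ℝ (fun z => φ z + φ' z) z (G z) =
      ∫ z in ann c ρ (ρ * t), fderiv ℝ (fun z => φ z + φ' z) z (G z) := by
    refine setIntegral_congr_fun (INTQ_open _ _ _).measurableSet fun z hz => ?_
    have hb : z ∉ ball c ρ := by
      rw [mem_ball, dist_eq_norm, not_lt]; exact hz.1.le
    have : cond k (ball c ρ) z = 1 := by
      unfold cond
      rw [indicator_of_notMem hb]
      ring
    simp only [this, one_mul]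
  rw [g1, g2] at hLψ
  -- the integral of `Q`
  have m1 : ∀ S ⊆ ann c (ρ / t) (ρ * t), ∫ z in S, u z * lap (fun z => φ z + φ' z) z =
      (∫ z in S, u z * lap φ z) + ∫ z in S, u z * lap φ' z := by
    intro S hSs
    rw [← integral_add (iu.mono_set hSs) (iu'.mono_set hSs)]
    refine integral_congr_ae (Eventually.of_forall fun z => ?_)
    simp only [hlapadd]
    ring
  rw [m1 _ hin] at d1
  rw [m1 _ hout] at d2
  have p1 : ∀ z ∈ ann c (ρ / t) ρ, (if ‖z - c‖ < ρ then k * u z + u (rfl12 c ρ z)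
      else u z + k * u (rfl12 c ρ z)) * lap φ z =
      k * (u z * lap φ z) + u (rfl12 c ρ z) * lap φ z := by
    intro z hz
    rw [if_pos hz.2]
    ring
  have p2 : ∀ z ∈ ann c ρ (ρ * t), (if ‖z - c‖ < ρ then k * u z + u (rfl12 c ρ z)
      else u z + k * u (rfl12 c ρ z)) * lap φ z =
      u z * lap φ z + k * (u (rfl12 c ρ z) * lap φ z) := by
    intro z hz
    rw [if_neg (not_lt.2 hz.1.le)]
    ring
  have i1 : IntegrableOn (fun z => k * (u z * lap φ z)) (ann c (ρ / t) (ρ * t)) volume :=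
    iu.const_mul k
  have i2 : IntegrableOn (fun z => k * (u (rfl12 c ρ z) * lap φ z))
      (ann c (ρ / t) (ρ * t)) volume := iR.const_mul k
  have J1 : ∫ z in ann c (ρ / t) ρ, (if ‖z - c‖ < ρ then k * u z + u (rfl12 c ρ z)
      else u z + k * u (rfl12 c ρ z)) * lap φ z =
      k * (∫ z in ann c (ρ / t) ρ, u z * lap φ z) +
        ∫ z in ann c (ρ / t) ρ, u (rfl12 c ρ z) * lap φ z := by
    rw [setIntegral_congr_fun (INTQ_open _ _ _).measurableSet p1,
      integral_add (i1.mono_set hin) (iR.mono_set hin), integral_const_mul]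
  have J2 : ∫ z in ann c ρ (ρ * t), (if ‖z - c‖ < ρ then k * u z + u (rfl12 c ρ z)
      else u z + k * u (rfl12 c ρ z)) * lap φ z =
      (∫ z in ann c ρ (ρ * t), u z * lap φ z) +
        k * ∫ z in ann c ρ (ρ * t), u (rfl12 c ρ z) * lap φ z := by
    rw [setIntegral_congr_fun (INTQ_open _ _ _).measurableSet p2,
      integral_add (iu.mono_set hout) (i2.mono_set hout), integral_const_mul]
  have iQ : IntegrableOn (fun z => (if ‖z - c‖ < ρ then k * u z + u (rfl12 c ρ z)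
      else u z + k * u (rfl12 c ρ z)) * lap φ z) (ann c (ρ / t) (ρ * t)) volume := by
    have hA : IntegrableOn (fun z => (if ‖z - c‖ < ρ then k * u z + u (rfl12 c ρ z)
      else u z + k * u (rfl12 c ρ z)) * lap φ z) (ann c (ρ / t) ρ) volume :=
      IntegrableOn.congr_fun (f := fun z => k * (u z * lap φ z) + u (rfl12 c ρ z) * lap φ z)
        ((i1.mono_set hin).add (iR.mono_set hin)) (fun z hz => (p1 z hz).symm)
        (INTQ_open _ _ _).measurableSet
    have hB : IntegrableOn (fun z => (if ‖z - c‖ < ρ then k * u z + u (rfl12 c ρ z)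
      else u z + k * u (rfl12 c ρ z)) * lap φ z) (ann c ρ (ρ * t)) volume :=
      IntegrableOn.congr_fun (f := fun z => u z * lap φ z + k * (u (rfl12 c ρ z) * lap φ z))
        ((iu.mono_set hout).add (i2.mono_set hout)) (fun z hz => (p2 z hz).symm)
        (INTQ_open _ _ _).measurableSet
    have hAB := hA.union hB
    refine hAB.congr_set_ae ?_
    have hd : ann c (ρ / t) (ρ * t) \ (ann c (ρ / t) ρ ∪ ann c ρ (ρ * t)) ⊆ sphere c ρ := by
      intro z hz
      rw [mem_sphere, dist_eq_norm]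
      by_contra hne
      rcases lt_or_gt_of_ne hne with h | h
      · exact hz.2 (Or.inl ⟨hz.1.1, h⟩)
      · exact hz.2 (Or.inr ⟨h, hz.1.2⟩)
    refine ae_eq_set.2 ⟨measure_mono_null hd (Measure.addHaar_sphere _ _ _), ?_⟩
    rw [sdiff_eq_empty.2 (union_subset hin hout)]
    exact measure_empty
  rw [INTQ_split hρ ht iQ, J1, J2, c1, c2]
  linear_combination k * d1 + d2 - hLψ

end MD12

end S_INTQ

section S_INTF

/-! # INTF: harmonic extension across an interface and the transmission relation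

`intp`, `intq`, `weyl` (local integrability: `u` and `u ∘ R` are in `L²` of the annulus, `chv_memLp`) give harmonic `P`, `Q` on the annulus `N` with
`P = u - u∘R`, `Q = k u + u∘R` (inside), `u + k u∘R` (outside) a.e.  `V = (Q + k P)/(1+k)`.
Outside a.e.: `V = (u + k u∘R + k u - k u∘R)/(1+k) = u`.
Inside a.e.: `V = (k u + u∘R + k u - k u∘R)/(1+k) = (2k u + (1-k) u∘R)/(1+k)` and `V (R z) = u (R z)` (by the outside statement and
`chv_ae`), so `V z - (1-k)/(1+k) V (R z) = 2k/(1+k) u z`.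
-/

namespace MD12

open Complex Metric Set Filter Topology InnerProductSpace MeasureTheory
open scoped ComplexConjugate ContDiff MeasureTheory

theorem intf {k : ℝ} (hk : 0 < k) {c : ℂ} {ρ t : ℝ} (hρ : 0 < ρ) (ht : 1 < t) {u : ℂ → ℝ}
    {G : ℂ → ℂ} (hS : Sob (ann c (ρ / t) (ρ * t)) u G)
    (hL : Loc (ann c (ρ / t) (ρ * t)) k (ball c ρ) G) :
    ∃ V : ℂ → ℝ, (∀ z ∈ ann c (ρ / t) (ρ * t), HarmonicAt V z) ∧
      (∀ᵐ z ∂volume.restrict (ann c ρ (ρ * t)), V z = u z) ∧
      (∀ᵐ z ∂volume.restrict (ann c (ρ / t) ρ),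
        V z - (1 - k) / (1 + k) * V (rfl12 c ρ z) = 2 * k / (1 + k) * u z) := by
  have ht0 : 0 < t := one_pos.trans ht
  have hr : 0 < ρ / t := by positivity
  have hρt : ρ / t < ρ := div_lt_self hρ ht
  have hρt' : ρ < ρ * t := lt_mul_of_one_lt_right hρ ht
  have hrR : ρ / t < ρ * t := hρt.trans hρt'
  have e1 : ρ ^ 2 / (ρ * t) = ρ / t := by field_simp
  have e2 : ρ ^ 2 / (ρ / t) = ρ * t := by field_simp
  have e3 : ρ ^ 2 / ρ = ρ := by field_simp
  have hopen : IsOpen (ann c (ρ / t) (ρ * t)) := by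
    have h : Continuous (fun z : ℂ => ‖z - c‖) := by fun_prop
    exact (isOpen_lt continuous_const h).inter (isOpen_lt h continuous_const)
  have hfin : volume (ann c (ρ / t) (ρ * t)) ≠ ⊤ := by
    have h1 : ann c (ρ / t) (ρ * t) ⊆ ball c (ρ * t) := by
      intro z hz
      rw [mem_ball, dist_eq_norm]
      exact hz.2
    exact ((measure_mono h1).trans_lt measure_ball_lt_top).ne
  have : IsFiniteMeasure (volume.restrict (ann c (ρ / t) (ρ * t))) :=
    ⟨by rw [Measure.restrict_apply_univ]; exact hfin.lt_top⟩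
  have hu1 : IntegrableOn u (ann c (ρ / t) (ρ * t)) volume :=
    hS.memu.integrable (by norm_num)
  have hu2 : IntegrableOn (fun z => u (rfl12 c ρ z)) (ann c (ρ / t) (ρ * t)) volume := by
    have h := chv_memLp (u := u) hρ hr hrR (by rw [e1, e2]; exact hS.memu)
    exact h.integrable (by norm_num)
  have hP : IntegrableOn (fun z => u z - u (rfl12 c ρ z)) (ann c (ρ / t) (ρ * t)) volume :=
    hu1.sub hu2
  have hQ : IntegrableOn (fun z => if ‖z - c‖ < ρ then k * u z + u (rfl12 c ρ z)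
      else u z + k * u (rfl12 c ρ z)) (ann c (ρ / t) (ρ * t)) volume := by
    have hs : MeasurableSet {z : ℂ | ‖z - c‖ < ρ} := by
      have h : Measurable (fun z : ℂ => ‖z - c‖) := by fun_prop
      exact measurableSet_lt h measurable_const
    classical
    have h1 := Integrable.piecewise (s := {z : ℂ | ‖z - c‖ < ρ})
      (f := fun z => k * u z + u (rfl12 c ρ z))
      (g := fun z => u z + k * u (rfl12 c ρ z)) hs
      ((hu1.const_mul k).add hu2).integrableOn (hu1.add (hu2.const_mul k)).integrableOn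
    refine Integrable.congr h1 (Eventually.of_forall fun z => ?_)
    by_cases h : ‖z - c‖ < ρ
    · rw [Set.piecewise_eq_of_mem _ _ _ (show z ∈ {z : ℂ | ‖z - c‖ < ρ} from h)]
      exact (if_pos h).symm
    · rw [Set.piecewise_eq_of_notMem _ _ _ (show z ∉ {z : ℂ | ‖z - c‖ < ρ} from h)]
      exact (if_neg h).symm
  obtain ⟨P, hPh, hPa⟩ := weyl hopen hP.locallyIntegrableOn (intp hk hρ ht hS hL)
  obtain ⟨Q, hQh, hQa⟩ := weyl hopen hQ.locallyIntegrableOn (intq hk hρ ht hS hL)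
  have hk1 : (1 + k) ≠ 0 := by positivity
  have hout : ∀ᵐ z ∂volume.restrict (ann c ρ (ρ * t)),
      (1 / (1 + k)) * (Q z + k * P z) = u z := by
    have hsub : ann c ρ (ρ * t) ⊆ ann c (ρ / t) (ρ * t) :=
      fun z hz => ⟨hρt.trans hz.1, hz.2⟩
    have h1 := ae_restrict_of_ae_restrict_of_subset hsub hPa
    have h2 := ae_restrict_of_ae_restrict_of_subset hsub hQa
    filter_upwards [h1, h2, ae_restrict_mem (ann_meas c ρ (ρ * t))] with z h1 h2 hz
    have h3 : ¬ ‖z - c‖ < ρ := not_lt.mpr hz.1.le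
    rw [h1, h2, if_neg h3]
    field_simp
    ring
  refine ⟨fun z => (1 / (1 + k)) * (Q z + k * P z), ?_, hout, ?_⟩
  · intro z hz
    have h1 : HarmonicAt (k • P) z := (hPh z hz).const_smul
    have h2 : HarmonicAt ((1 / (1 + k)) • (Q + k • P)) z := ((hQh z hz).add h1).const_smul
    exact h2
  · have hsub : ann c (ρ / t) ρ ⊆ ann c (ρ / t) (ρ * t) :=
      fun z hz => ⟨hz.1, hz.2.trans hρt'⟩
    have h1 := ae_restrict_of_ae_restrict_of_subset hsub hPa
    have h2 := ae_restrict_of_ae_restrict_of_subset hsub hQa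
    have h3 : ∀ᵐ z ∂volume.restrict (ann c (ρ / t) ρ),
        (1 / (1 + k)) * (Q (rfl12 c ρ z) + k * P (rfl12 c ρ z)) = u (rfl12 c ρ z) :=
      chv_ae (P := fun w => (1 / (1 + k)) * (Q w + k * P w) = u w) hρ hr hρt
        (by rw [e3, e2]; exact hout)
    filter_upwards [h1, h2, h3, ae_restrict_mem (ann_meas c (ρ / t) ρ)] with z h1 h2 h3 hz
    show (1 / (1 + k)) * (Q z + k * P z) - (1 - k) / (1 + k) *
      ((1 / (1 + k)) * (Q (rfl12 c ρ z) + k * P (rfl12 c ρ z))) = _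
    rw [h3, h1, h2, if_pos hz.2]
    field_simp
    ring

end MD12

end S_INTF

section S_PDEA

/-! # PDEA: classical representative of a weak solution

`s` finite, disks with disjoint closures in `Ω`.
* On `Ω₀ = Ω \ ⋃ closedBall` (open) and on every open disk `u` is weakly harmonic (`Sob.mono`, `Loc.mono`, `whar_of_loc`, the conductivity is
  constant there): `weyl` gives `V₀` on `Ω₀`, `h_c` on `ball c.1 c.2`.
* For `c ∈ s` choose `t_c > 1` with `ann c.1 (c.2/t) (c.2 t)` in `Ω` and disjoint from the other closed disks (compactness: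
  `closedBall c.1 c.2` is compact, `Ω \ ⋃ others` is open, `IsCompact.exists_thickening_subset_open`); on this annulus `uni s` is
  `ball c.1 c.2` (`Loc.congr`): `intf` gives `V_c`.
* `V z = V_c z` if `z ∈ closedBall c.1 c.2` for some (unique) `c ∈ s`, otherwise `V₀ z`.  On the outer annulus `V_c = u = V₀` a.e., so
  everywhere (`eq_of_ae`); so `V = V_c` on the annulus (`z` in the annulus is in `closedBall c.1 c.2` or in `Ω₀`).  So `V` is harmonic at the
  points of the circle.  On the inner annulus `V_c z - γ V_c (R z) = κ u z = κ h_c z` a.e., so everywhere (both sides continuous).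
* `I` = image of `s` under `c ↦ disk c.1 c.2 _`; `Q_disk`, `R_disk` (`R_disk` is `rfl12`).
-/

namespace MD12

open Complex Metric Set Filter Topology InnerProductSpace MeasureTheory
open scoped ComplexConjugate ContDiff MeasureTheory

/-- `V` (with the family `I` of generalised disks) is the classical representative of `u` outside the disks -/
structure Rep (γ κ : ℝ) (Ω : Set ℂ) (s : Finset (ℂ × ℝ)) (u V : ℂ → ℝ) (I : Finset GD) : Prop where
  nl : NL γ κ univ Ωᶜ V I
  mem : ∀ C : GD, C ∈ I ↔ ∃ c ∈ s, ∃ h : 0 < c.2, C = disk c.1 c.2 h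
  out : ∀ᵐ z ∂volume.restrict (Ω \ ⋃ c ∈ s, closedBall c.1 c.2), V z = u z
  ins : ∀ c ∈ s, ∃ h : ℂ → ℝ, (∀ z ∈ ball c.1 c.2, HarmonicAt h z) ∧
    (∀ᵐ z ∂volume.restrict (ball c.1 c.2), h z = u z) ∧
    ∀ y ∈ sphere c.1 c.2, ∀ᶠ z in 𝓝 y, z ∈ ball c.1 c.2 →
      V z - γ * V (rfl12 c.1 c.2 z) = κ * h z

theorem pdea_ann_open (c : ℂ) (r R : ℝ) : IsOpen (ann c r R) := by
  have h1 : Continuous fun z : ℂ => ‖z - c‖ := (continuous_id.sub continuous_const).norm
  exact (isOpen_lt continuous_const h1).inter (isOpen_lt h1 continuous_const)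

theorem pdea_lint {N : Set ℂ} {u : ℂ → ℝ} (h : MemLp u 2 (volume.restrict N)) :
    LocallyIntegrableOn u N volume :=
  locallyIntegrableOn_of_locallyIntegrable_restrict (h.locallyIntegrable (by norm_num))

/-- an annulus around the circle which avoids the other disks -/
theorem pdea_t {Ω : Set ℂ} (hΩ : IsOpen Ω) {s : Finset (ℂ × ℝ)} (hs : MDisk Ω s) {c : ℂ × ℝ}
    (hc : c ∈ s) : ∃ t : ℝ, 1 < t ∧ ann c.1 (c.2 / t) (c.2 * t) ⊆ Ω ∧
      ∀ c' ∈ s, c' ≠ c → ∀ z ∈ ann c.1 (c.2 / t) (c.2 * t), z ∉ closedBall c'.1 c'.2 := by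
  classical
  have hpos := hs.pos c hc
  obtain ⟨U, hU⟩ : ∃ U : Set ℂ, U = Ω ∩ ⋂ c' ∈ s.erase c, (closedBall c'.1 c'.2)ᶜ := ⟨_, rfl⟩
  have hUo : IsOpen U := by
    rw [hU]
    exact hΩ.inter (isOpen_biInter_finset fun c' _ => isClosed_closedBall.isOpen_compl)
  have hsub : closedBall c.1 c.2 ⊆ U := by
    intro z hz
    rw [hU]
    refine ⟨hs.sub c hc hz, ?_⟩
    simp only [Set.mem_iInter]
    intro c' hc' hz'
    rw [Finset.mem_erase] at hc'
    exact Set.disjoint_left.1 (hs.dis c' hc'.2 c hc hc'.1) hz' hz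
  obtain ⟨δ, hδ, hδU⟩ := (isCompact_closedBall c.1 c.2).exists_thickening_subset_open hUo hsub
  have ht : 1 < 1 + δ / c.2 := by
    have : 0 < δ / c.2 := by positivity
    linarith
  have hann : ann c.1 (c.2 / (1 + δ / c.2)) (c.2 * (1 + δ / c.2)) ⊆ U := by
    intro z hz
    apply hδU
    rw [thickening_closedBall hδ hpos.le, mem_ball, dist_eq_norm]
    have h2 := hz.2
    have h3 : c.2 * (1 + δ / c.2) = δ + c.2 := by field_simp; ring
    rw [h3] at h2
    exact h2
  refine ⟨1 + δ / c.2, ht, fun z hz => ?_, fun c' hc' hne z hz hz' => ?_⟩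
  · have := hann hz
    rw [hU] at this
    exact this.1
  · have := hann hz
    rw [hU] at this
    have h2 := this.2
    simp only [Set.mem_iInter] at h2
    exact h2 c' (Finset.mem_erase.2 ⟨hne, hc'⟩) hz'

theorem pdea_rfl {c : ℂ} {ρ t : ℝ} (hρ : 0 < ρ) (ht : 1 < t) {z : ℂ}
    (hz : z ∈ ann c (ρ / t) ρ) : rfl12 c ρ z ∈ ann c ρ (ρ * t) := by
  have ht0 : 0 < t := by linarith
  have h0 : 0 < ‖z - c‖ := lt_trans (by positivity) hz.1
  have hzc : z ≠ c := by
    rintro rfl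
    simp at h0
  have hn := rfl12_norm (ρ := ρ) hzc
  constructor
  · rw [hn, lt_div_iff₀ h0]
    have := hz.2
    nlinarith
  · rw [hn, div_lt_iff₀ h0]
    have h1 := hz.1
    rw [div_lt_iff₀ ht0] at h1
    nlinarith

theorem pdea_rfl_cont {c : ℂ} {ρ : ℝ} {z : ℂ} (hz : z ≠ c) : ContinuousAt (rfl12 c ρ) z := by
  unfold rfl12
  have h1 : conj (z - c) ≠ 0 := by
    intro h0
    apply hz
    have : z - c = 0 := by simpa only [map_eq_zero] using h0
    exact sub_eq_zero.mp this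
  refine continuousAt_const.add (continuousAt_const.div ?_ h1)
  exact (Complex.continuous_conj.comp (continuous_id.sub continuous_const)).continuousAt

theorem pdea {Ω : Set ℂ} (hΩ : IsOpen Ω) {k : ℝ} (hk : 0 < k) {s : Finset (ℂ × ℝ)}
    (hs : MDisk Ω s) {u : ℂ → ℝ} {G : ℂ → ℂ} (hS : Sob Ω u G) (hL : Loc Ω k (uni s) G) :
    ∃ (V : ℂ → ℝ) (I : Finset GD), Rep ((1 - k) / (1 + k)) (2 * k / (1 + k)) Ω s u V I := by
  classical
  have huniq : ∀ c ∈ s, ∀ c' ∈ s, ∀ z, z ∈ closedBall c.1 c.2 → z ∈ closedBall c'.1 c'.2 →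
      c = c' := by
    intro c hc c' hc' z hz hz'
    by_contra hne
    exact Set.disjoint_left.1 (hs.dis c hc c' hc' hne) hz hz'
  -- the annuli
  have ht : ∀ c ∈ s, ∃ t : ℝ, 1 < t ∧ ann c.1 (c.2 / t) (c.2 * t) ⊆ Ω ∧
      ∀ c' ∈ s, c' ≠ c → ∀ z ∈ ann c.1 (c.2 / t) (c.2 * t), z ∉ closedBall c'.1 c'.2 :=
    fun c hc => pdea_t hΩ hs hc
  choose! t ht1 htΩ htd using ht
  -- the local extension
  have hVc : ∀ c ∈ s, ∃ V : ℂ → ℝ, (∀ z ∈ ann c.1 (c.2 / t c) (c.2 * t c), HarmonicAt V z) ∧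
      (∀ᵐ z ∂volume.restrict (ann c.1 c.2 (c.2 * t c)), V z = u z) ∧
      (∀ᵐ z ∂volume.restrict (ann c.1 (c.2 / t c) c.2),
        V z - (1 - k) / (1 + k) * V (rfl12 c.1 c.2 z) = 2 * k / (1 + k) * u z) := by
    intro c hc
    have hao := pdea_ann_open c.1 (c.2 / t c) (c.2 * t c)
    refine intf hk (hs.pos c hc) (ht1 c hc) (hS.mono hΩ hao (htΩ c hc))
      ((hL.mono hΩ hao (htΩ c hc)).congr hao ?_)
    ext z
    constructor
    · rintro ⟨h1, h2⟩
      refine ⟨?_, h2⟩
      unfold uni at h1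
      simp only [Set.mem_iUnion] at h1
      obtain ⟨c', hc', hz'⟩ := h1
      by_cases hcc : c' = c
      · rw [← hcc]; exact hz'
      · exact absurd (ball_subset_closedBall hz') (htd c hc c' hc' hcc z h2)
    · rintro ⟨h1, h2⟩
      refine ⟨?_, h2⟩
      unfold uni
      simp only [Set.mem_iUnion]
      exact ⟨c, hc, h1⟩
  choose! Vf hV1 hV2 hV3 using hVc
  -- inside the disks
  have hhc : ∀ c ∈ s, ∃ h : ℂ → ℝ, (∀ z ∈ ball c.1 c.2, HarmonicAt h z) ∧
      ∀ᵐ z ∂volume.restrict (ball c.1 c.2), h z = u z := by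
    intro c hc
    have hbΩ : ball c.1 c.2 ⊆ Ω := ball_subset_closedBall.trans (hs.sub c hc)
    have hS' := hS.mono hΩ isOpen_ball hbΩ
    refine weyl isOpen_ball (pdea_lint hS'.memu)
      (whar_of_loc isOpen_ball hS' hk (hL.mono hΩ isOpen_ball hbΩ) (Or.inr ?_))
    intro z hz
    unfold uni
    simp only [Set.mem_iUnion]
    exact ⟨c, hc, hz⟩
  -- outside the disks
  obtain ⟨Ω₀, hΩ₀⟩ : ∃ Ω₀ : Set ℂ, Ω₀ = Ω \ ⋃ c ∈ s, closedBall c.1 c.2 := ⟨_, rfl⟩
  have hΩ₀o : IsOpen Ω₀ := by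
    rw [hΩ₀]
    exact hΩ.sdiff (isClosed_biUnion_finset fun c _ => isClosed_closedBall)
  have hΩ₀m : ∀ z, z ∈ Ω₀ ↔ z ∈ Ω ∧ ∀ c ∈ s, z ∉ closedBall c.1 c.2 := by
    intro z
    rw [hΩ₀, Set.mem_sdiff]
    simp only [Set.mem_iUnion, not_exists]
  have hΩ₀Ω : Ω₀ ⊆ Ω := fun z hz => ((hΩ₀m z).1 hz).1
  obtain ⟨V₀, hV₀1, hV₀2⟩ : ∃ V : ℂ → ℝ, (∀ z ∈ Ω₀, HarmonicAt V z) ∧
      ∀ᵐ z ∂volume.restrict Ω₀, V z = u z := by
    have hS' := hS.mono hΩ hΩ₀o hΩ₀Ω
    refine weyl hΩ₀o (pdea_lint hS'.memu)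
      (whar_of_loc hΩ₀o hS' hk (hL.mono hΩ hΩ₀o hΩ₀Ω) (Or.inl ?_))
    rw [Set.disjoint_left]
    intro z hz hz'
    unfold uni at hz
    simp only [Set.mem_iUnion] at hz
    obtain ⟨c, hc, hzc⟩ := hz
    exact ((hΩ₀m z).1 hz').2 c hc (ball_subset_closedBall hzc)
  -- the global function
  obtain ⟨V, hV⟩ : ∃ V : ℂ → ℝ, V = fun z =>
      if h : ∃ c ∈ s, z ∈ closedBall c.1 c.2 then Vf h.choose z else V₀ z := ⟨_, rfl⟩
  have hVin : ∀ c ∈ s, ∀ z ∈ closedBall c.1 c.2, V z = Vf c z := by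
    intro c hc z hz
    have hex : ∃ c ∈ s, z ∈ closedBall c.1 c.2 := ⟨c, hc, hz⟩
    have h1 := hex.choose_spec
    have h2 : hex.choose = c := huniq _ h1.1 c hc z h1.2 hz
    rw [hV]
    simp only [dif_pos hex, h2]
  have hVout : ∀ z, (∀ c ∈ s, z ∉ closedBall c.1 c.2) → V z = V₀ z := by
    intro z hz
    have hex : ¬ ∃ c ∈ s, z ∈ closedBall c.1 c.2 := by
      rintro ⟨c, hc, h⟩
      exact hz c hc h
    rw [hV]
    simp only [dif_neg hex]
  have hout : ∀ c ∈ s, ann c.1 c.2 (c.2 * t c) ⊆ Ω₀ := by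
    intro c hc z hz
    have hpos := hs.pos c hc
    have ht0 := ht1 c hc
    have hza : z ∈ ann c.1 (c.2 / t c) (c.2 * t c) := by
      refine ⟨lt_of_le_of_lt ?_ hz.1, hz.2⟩
      exact div_le_self hpos.le ht0.le
    rw [hΩ₀m]
    refine ⟨htΩ c hc hza, fun c' hc' hz' => ?_⟩
    by_cases hcc : c' = c
    · rw [hcc, mem_closedBall, dist_eq_norm] at hz'
      exact absurd hz.1 (not_lt.2 hz')
    · exact htd c hc c' hc' hcc z hza hz'
  have hVann : ∀ c ∈ s, ∀ z ∈ ann c.1 (c.2 / t c) (c.2 * t c), V z = Vf c z := by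
    intro c hc
    have hpos := hs.pos c hc
    have ht0 := ht1 c hc
    have hsub : ∀ z ∈ ann c.1 c.2 (c.2 * t c), z ∈ ann c.1 (c.2 / t c) (c.2 * t c) := by
      intro z hz
      refine ⟨lt_of_le_of_lt ?_ hz.1, hz.2⟩
      exact div_le_self hpos.le ht0.le
    have heq : ∀ z ∈ ann c.1 c.2 (c.2 * t c), V₀ z = Vf c z := by
      refine eq_of_ae (pdea_ann_open _ _ _)
        (fun z hz => har_continuousAt (hV₀1 z (hout c hc hz)))
        (fun z hz => har_continuousAt (hV1 c hc z (hsub z hz))) ?_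
      have h1 : ∀ᵐ z ∂volume.restrict (ann c.1 c.2 (c.2 * t c)), V₀ z = u z :=
        ae_restrict_of_ae_restrict_of_subset (hout c hc) hV₀2
      filter_upwards [h1, hV2 c hc] with z h1 h2
      rw [h1, h2]
    intro z hz
    by_cases hzc : z ∈ closedBall c.1 c.2
    · exact hVin c hc z hzc
    · have hz' : z ∈ ann c.1 c.2 (c.2 * t c) := by
        refine ⟨?_, hz.2⟩
        rw [mem_closedBall, dist_eq_norm] at hzc
        exact not_le.1 hzc
      rw [hVout z ((hΩ₀m z).1 (hout c hc hz')).2, heq z hz']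
  -- harmonicity
  have hVhar : ∀ z ∈ Ω, (∀ c ∈ s, z ∉ ball c.1 c.2) → HarmonicAt V z := by
    intro z hz hzb
    by_cases hzc : ∃ c ∈ s, z ∈ closedBall c.1 c.2
    · obtain ⟨c, hc, hzc⟩ := hzc
      have hpos := hs.pos c hc
      have ht0 := ht1 c hc
      have hn : ‖z - c.1‖ = c.2 := by
        have h1 := hzb c hc
        rw [mem_closedBall, dist_eq_norm] at hzc
        rw [mem_ball, dist_eq_norm] at h1
        exact le_antisymm hzc (not_lt.1 h1)
      have hza : z ∈ ann c.1 (c.2 / t c) (c.2 * t c) := by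
        refine ⟨?_, ?_⟩
        · rw [hn]; exact div_lt_self hpos ht0
        · rw [hn]; nlinarith
      refine har_congr (hV1 c hc z hza) ?_
      filter_upwards [(pdea_ann_open _ _ _).mem_nhds hza] with w hw
      exact (hVann c hc w hw).symm
    · have hz0 : z ∈ Ω₀ := by
        rw [hΩ₀m]
        exact ⟨hz, fun c hc h => hzc ⟨c, hc, h⟩⟩
      refine har_congr (hV₀1 z hz0) ?_
      filter_upwards [hΩ₀o.mem_nhds hz0] with w hw
      exact (hVout w ((hΩ₀m w).1 hw).2).symm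
  -- the transmission condition
  have hins : ∀ c ∈ s, ∃ h : ℂ → ℝ, (∀ z ∈ ball c.1 c.2, HarmonicAt h z) ∧
      (∀ᵐ z ∂volume.restrict (ball c.1 c.2), h z = u z) ∧
      ∀ y ∈ sphere c.1 c.2, ∀ᶠ z in 𝓝 y, z ∈ ball c.1 c.2 →
        V z - (1 - k) / (1 + k) * V (rfl12 c.1 c.2 z) = 2 * k / (1 + k) * h z := by
    intro c hc
    have hpos := hs.pos c hc
    have ht0 := ht1 c hc
    obtain ⟨h, hh1, hh2⟩ := hhc c hc
    refine ⟨h, hh1, hh2, fun y hy => ?_⟩
    have hsub : ∀ z ∈ ann c.1 (c.2 / t c) c.2, z ∈ ann c.1 (c.2 / t c) (c.2 * t c) := by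
      intro z hz
      refine ⟨hz.1, lt_of_lt_of_le hz.2 ?_⟩
      nlinarith
    have hsub' : ∀ z ∈ ann c.1 c.2 (c.2 * t c), z ∈ ann c.1 (c.2 / t c) (c.2 * t c) := by
      intro z hz
      refine ⟨lt_of_le_of_lt ?_ hz.1, hz.2⟩
      exact div_le_self hpos.le ht0.le
    have hball : ann c.1 (c.2 / t c) c.2 ⊆ ball c.1 c.2 := by
      intro z hz
      rw [mem_ball, dist_eq_norm]
      exact hz.2
    have heq : ∀ z ∈ ann c.1 (c.2 / t c) c.2,
        Vf c z - (1 - k) / (1 + k) * Vf c (rfl12 c.1 c.2 z) = 2 * k / (1 + k) * h z := by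
      refine eq_of_ae (pdea_ann_open _ _ _) (fun z hz => ?_) (fun z hz => ?_) ?_
      · have hzc : z ≠ c.1 := by
          rintro rfl
          have := hz.1
          rw [sub_self, norm_zero] at this
          have h2 : 0 < c.2 / t c := by
            have : 0 < t c := by linarith
            positivity
          linarith
        refine (har_continuousAt (hV1 c hc z (hsub z hz))).sub (continuousAt_const.mul ?_)
        exact ContinuousAt.comp (g := Vf c)
          (har_continuousAt (hV1 c hc _ (hsub' _ (pdea_rfl hpos ht0 hz)))) (pdea_rfl_cont hzc)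
      · exact continuousAt_const.mul (har_continuousAt (hh1 z (hball hz)))
      · have h1 : ∀ᵐ z ∂volume.restrict (ann c.1 (c.2 / t c) c.2), h z = u z :=
          ae_restrict_of_ae_restrict_of_subset hball hh2
        filter_upwards [h1, hV3 c hc] with z h1 h2
        rw [h2, h1]
    have hya : y ∈ ann c.1 (c.2 / t c) (c.2 * t c) := by
      rw [mem_sphere, dist_eq_norm] at hy
      refine ⟨?_, ?_⟩
      · rw [hy]; exact div_lt_self hpos ht0
      · rw [hy]; nlinarith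
    filter_upwards [(pdea_ann_open _ _ _).mem_nhds hya] with z hz hzb
    rw [mem_ball, dist_eq_norm] at hzb
    have hz' : z ∈ ann c.1 (c.2 / t c) c.2 := ⟨hz.1, hzb⟩
    rw [hVann c hc z hz, hVann c hc _ (hsub' _ (pdea_rfl hpos ht0 hz'))]
    exact heq z hz'
  -- the family of generalised disks
  obtain ⟨I, hI⟩ : ∃ I : Finset GD, ∀ C : GD, C ∈ I ↔ ∃ c ∈ s, ∃ h : 0 < c.2,
      C = disk c.1 c.2 h := by
    refine ⟨s.attach.image (fun c => disk c.1.1 c.1.2 (hs.pos c.1 c.2)), fun C => ?_⟩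
    rw [Finset.mem_image]
    constructor
    · rintro ⟨c, -, rfl⟩
      exact ⟨c.1, c.2, hs.pos c.1 c.2, rfl⟩
    · rintro ⟨c, hc, h, rfl⟩
      exact ⟨⟨c, hc⟩, Finset.mem_attach _ _, rfl⟩
  have hQle : ∀ (c : ℂ × ℝ) (h : 0 < c.2) (z : ℂ), (disk c.1 c.2 h).Q z ≤ 0 ↔
      z ∈ closedBall c.1 c.2 := by
    intro c h z
    rw [Q_disk, mem_closedBall, dist_eq_norm, sub_nonpos]
    exact pow_le_pow_iff_left₀ (norm_nonneg _) h.le two_ne_zero
  have hQlt : ∀ (c : ℂ × ℝ) (h : 0 < c.2) (z : ℂ), (disk c.1 c.2 h).Q z < 0 ↔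
      z ∈ ball c.1 c.2 := by
    intro c h z
    rw [Q_disk, mem_ball, dist_eq_norm, sub_neg]
    exact pow_lt_pow_iff_left₀ (norm_nonneg _) h.le two_ne_zero
  refine ⟨V, I, ⟨⟨?_, ?_, ?_, ?_⟩, hI, ?_, hins⟩⟩
  · intro C hC C' hC' hne z _ hz
    obtain ⟨c, hc, h, rfl⟩ := (hI C).1 hC
    obtain ⟨c', hc', h', rfl⟩ := (hI C').1 hC'
    by_contra hcon
    rw [not_lt, hQle] at hcon
    rw [hQle] at hz
    have := huniq c hc c' hc' z hz hcon
    subst this
    exact hne rfl
  · intro C hC z _ hzK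
    obtain ⟨c, hc, h, rfl⟩ := (hI C).1 hC
    by_contra hcon
    rw [not_lt, hQle] at hcon
    exact hzK (hs.sub c hc hcon)
  · intro z _ hzK hzC
    refine hVhar z (not_not.1 hzK) (fun c hc hzb => ?_)
    have h1 := hzC (disk c.1 c.2 (hs.pos c hc)) ((hI _).2 ⟨c, hc, hs.pos c hc, rfl⟩)
    exact absurd ((hQlt c (hs.pos c hc) z).2 hzb) (not_lt.2 h1)
  · intro C hC
    obtain ⟨c, hc, hp, rfl⟩ := (hI C).1 hC
    obtain ⟨h, hh1, -, hh3⟩ := hins c hc
    refine ⟨h, fun z _ hz => hh1 z ((hQlt c hp z).1 hz), fun y _ hy => ?_⟩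
    have hy' : y ∈ sphere c.1 c.2 := by
      rw [Q_disk, sub_eq_zero] at hy
      rw [mem_sphere, dist_eq_norm]
      exact (pow_left_inj₀ (norm_nonneg _) hp.le two_ne_zero).1 hy
    have hyc : y ≠ c.1 := by
      rintro rfl
      rw [mem_sphere, dist_self] at hy'
      linarith
    filter_upwards [hh3 y hy', isOpen_ne.mem_nhds hyc] with z hz hzc hzQ
    have := hz ((hQlt c hp z).1 hzQ)
    rw [R_disk _ _ _ _ hzc]
    exact this
  · rw [← hΩ₀]
    have h1 : ∀ᵐ z ∂volume.restrict Ω₀, z ∈ Ω₀ := ae_restrict_mem hΩ₀o.measurableSet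
    filter_upwards [h1, hV₀2] with z hz h2
    rw [hVout z ((hΩ₀m z).1 hz).2, h2]

end MD12

end S_PDEA
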