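import Mathlib
import Pool.Agent.H12.MDM.F
import Pool.Agent.H12.MDM.A
import Pool.Agent.H12.MDM.G
import Pool.Agent.H12.MDM.E

/-! Multiple disks, part H (several modules joined). -/

section S_ZEX

/-! # ZEX: the two solutions agree on the component `W` of the complement of the disks

`w z = (u₁ z - u₂ z)` on `Ω`, `0` outside.  `w` is weakly harmonic on `W`: let `φ` be a test function in `W`.
`∫_W w lap φ = ∫_Ω (u₁-u₂) lap φ` (`lap φ = 0` outside `W`) `= -∫_Ω fderiv φ (G₁ - G₂)` (the definition `SameTrace` for the test functions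
`fderiv φ · v`, `v = 1, I`, as in `sob_lap`) `= -(∫_Ω fderiv φ (G₁) - ∫_Ω fderiv φ (G₂))` (integrability: `G_i ∈ L²`, `Ω` bounded, `fderiv φ` bounded),
and `∫_Ω fderiv φ (G_i) = ∫_Ω cond k (uni s_i) fderiv φ (G_i) = ∫_{∂Ω} g φ` because `fderiv φ = 0` on the disks (`tsupport φ ⊆ W`, `W` is disjoint from the disks).
`weyl`: `w = ŵ` a.e. on `W`, `ŵ` harmonic on `W`.  `(closure Ω)ᶜ ⊆ Ωᶜ ⊆ W` is open, nonempty (`Ω` bounded) and `w = 0` there: `ŵ = 0` there (`eq_of_ae`);
`har_ident` on `W`: `ŵ = 0` on `W`.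
-/

namespace MD12

open Complex Metric Set Filter Topology InnerProductSpace MeasureTheory
open scoped ComplexConjugate ContDiff MeasureTheory

theorem zex_int {Ω : Set ℂ} (hΩo : IsOpen Ω) (f h : ℂ → ℝ) :
    ∫ z in Set.univ, Ω.indicator f z * h z = ∫ z in Ω, f z * h z := by
  rw [setIntegral_univ, ← integral_indicator hΩo.measurableSet]
  refine integral_congr_ae (Eventually.of_forall fun z => ?_)
  by_cases hz : z ∈ Ω
  · simp only [Set.indicator_of_mem hz]
  · simp only [Set.indicator_of_notMem hz, zero_mul]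

theorem zex_sob {Ω : Set ℂ} (hΩo : IsOpen Ω) {u₁ u₂ : ℂ → ℝ} {G₁ G₂ : ℂ → ℂ}
    (h₁ : Sob Ω u₁ G₁) (h₂ : Sob Ω u₂ G₂) (ht : SameTrace Ω u₁ u₂ G₁ G₂) :
    Sob Set.univ (Ω.indicator fun z => u₁ z - u₂ z) (Ω.indicator fun z => G₁ z - G₂ z) := by
  refine ⟨?_, ?_, ?_⟩
  · rw [Measure.restrict_univ, memLp_indicator_iff_restrict hΩo.measurableSet]
    exact h₁.memu.sub h₂.memu
  · rw [Measure.restrict_univ, memLp_indicator_iff_restrict hΩo.measurableSet]
    exact h₁.memG.sub h₂.memG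
  · intro φ hφ _ v
    rw [zex_int hΩo, ht φ hφ v]
    congr 1
    have e : ∀ z, (inner ℝ (Ω.indicator (fun z => G₁ z - G₂ z) z) v : ℝ) =
        Ω.indicator (fun z => (inner ℝ (G₁ z - G₂ z) v : ℝ)) z := by
      intro z
      by_cases hz : z ∈ Ω
      · simp only [Set.indicator_of_mem hz]
      · simp only [Set.indicator_of_notMem hz, inner_zero_left]
    simp only [e]
    rw [zex_int hΩo]

theorem zex_fd {Ω W : Set ℂ} (hΩo : IsOpen Ω) {k : ℝ} {s : Finset (ℂ × ℝ)} {g u : ℂ → ℝ}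
    {G : ℂ → ℂ} (h : Solves Ω k (uni s) g u G)
    (hW : ∀ c ∈ s, Disjoint W (closedBall c.1 c.2)) {φ : ℂ → ℝ} (hφ : IsTest φ)
    (hφW : tsupport φ ⊆ W) :
    Integrable (fun z => fderiv ℝ φ z (G z)) (volume.restrict Ω) ∧
      ∫ z in Ω, fderiv ℝ φ z (G z) = ∫ z in frontier Ω, g z * φ z ∂μH[1] := by
  constructor
  · have h1 := pdb_int (pdb_inner h.sob.memG 1) (hφ.fd 1).1
    have h2 := pdb_int (pdb_inner h.sob.memG I) (hφ.fd I).1
    refine (h1.add h2).congr (Eventually.of_forall fun z => ?_)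
    exact (fd_eq φ z (G z)).symm
  · rw [← h.eq φ hφ]
    refine setIntegral_congr_fun hΩo.measurableSet fun z _ => ?_
    by_cases hz : z ∈ uni s
    · have hz' : z ∉ tsupport φ := by
        intro hz'
        obtain ⟨c, hc, hzc⟩ := Set.mem_iUnion₂.1 hz
        exact Set.disjoint_left.1 (hW c hc) (hφW hz') (ball_subset_closedBall hzc)
      simp only [pdb_fd0 hz', mul_zero]
    · unfold cond
      simp only [Set.indicator_of_notMem hz, mul_zero, add_zero, one_mul]

theorem zex {Ω : Set ℂ} (hΩo : IsOpen Ω) (hΩb : Bornology.IsBounded Ω) {k : ℝ}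
    {s₁ s₂ : Finset (ℂ × ℝ)} {g u₁ u₂ : ℂ → ℝ}
    {G₁ G₂ : ℂ → ℂ} (h₁ : Solves Ω k (uni s₁) g u₁ G₁) (h₂ : Solves Ω k (uni s₂) g u₂ G₂)
    (ht : SameTrace Ω u₁ u₂ G₁ G₂) {W : Set ℂ} (hWo : IsOpen W) (hWc : IsPreconnected W)
    (hWK : Ωᶜ ⊆ W) (hW₁ : ∀ c ∈ s₁, Disjoint W (closedBall c.1 c.2))
    (hW₂ : ∀ c ∈ s₂, Disjoint W (closedBall c.1 c.2)) :
    ∀ᵐ z ∂volume.restrict (W ∩ Ω), u₁ z = u₂ z := by
  have hS := zex_sob hΩo h₁.sob h₂.sob ht
  have hSW : Sob W (Ω.indicator fun z => u₁ z - u₂ z) (Ω.indicator fun z => G₁ z - G₂ z) :=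
    hS.mono isOpen_univ hWo (subset_univ W)
  have hL : Loc W 1 ∅ (Ω.indicator fun z => G₁ z - G₂ z) := by
    intro φ hφ hφW
    obtain ⟨i1, e1⟩ := zex_fd hΩo h₁ hW₁ hφ hφW
    obtain ⟨i2, e2⟩ := zex_fd hΩo h₂ hW₂ hφ hφW
    have e3 : ∫ z in W, cond 1 ∅ z * fderiv ℝ φ z ((Ω.indicator fun z => G₁ z - G₂ z) z) =
        ∫ z in Ω, fderiv ℝ φ z (G₁ z - G₂ z) := by
      rw [pdb_sub isOpen_univ (subset_univ W) (fun z hz => by
        rw [pdb_fd0 (fun h' => hz (hφW h')), mul_zero]), setIntegral_univ,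
        ← integral_indicator hΩo.measurableSet]
      refine integral_congr_ae (Eventually.of_forall fun z => ?_)
      unfold cond
      by_cases hz : z ∈ Ω
      · simp only [Set.indicator_of_mem hz, sub_self, zero_mul, add_zero, one_mul]
      · simp only [Set.indicator_of_notMem hz, sub_self, zero_mul, add_zero, one_mul, map_zero]
    rw [e3]
    have e4 : ∫ z in Ω, fderiv ℝ φ z (G₁ z - G₂ z) =
        (∫ z in Ω, fderiv ℝ φ z (G₁ z)) - ∫ z in Ω, fderiv ℝ φ z (G₂ z) := by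
      rw [← integral_sub i1 i2]
      simp only [map_sub]
    rw [e4, e1, e2, sub_self]
  have hw : WHar W (Ω.indicator fun z => u₁ z - u₂ z) :=
    whar_of_loc hWo hSW one_pos hL (Or.inl (Set.empty_disjoint W))
  have hli : LocallyIntegrableOn (Ω.indicator fun z => u₁ z - u₂ z) W volume :=
    locallyIntegrableOn_of_locallyIntegrable_restrict
      (hSW.memu.locallyIntegrable (by norm_num))
  obtain ⟨U, hU, hUw⟩ := weyl hWo hli hw
  -- the exterior of `Ω`
  have hN0 : IsOpen (closure Ω)ᶜ := isClosed_closure.isOpen_compl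
  have hN0W : (closure Ω)ᶜ ⊆ W := (compl_subset_compl.2 subset_closure).trans hWK
  obtain ⟨x, hx⟩ : ((closure Ω)ᶜ).Nonempty := by
    obtain ⟨R, hR⟩ := hΩb.closure.subset_closedBall (0 : ℂ)
    refine ⟨((|R| + 1 : ℝ) : ℂ), fun hx => ?_⟩
    have h3 := mem_closedBall_zero_iff.1 (hR hx)
    rw [Complex.norm_real, Real.norm_eq_abs, abs_of_pos (by positivity)] at h3
    linarith [le_abs_self R]
  have hU0 : ∀ z ∈ (closure Ω)ᶜ, U z = 0 := by
    refine eq_of_ae hN0 (fun z hz => har_continuousAt (hU z (hN0W hz)))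
      (fun z _ => continuousAt_const) ?_
    have h3 := ae_restrict_of_ae_restrict_of_subset hN0W hUw
    filter_upwards [h3, ae_restrict_mem hN0.measurableSet] with z h4 h5
    rw [h4, Set.indicator_of_notMem (fun h6 => h5 (subset_closure h6))]
  have hxU : U =ᶠ[𝓝 x] fun _ => (0 : ℝ) := by
    filter_upwards [hN0.mem_nhds hx] with z hz
    exact hU0 z hz
  have hUW := har_ident hWc hU (fun z _ => har_const 0 z) (hN0W hx) hxU
  have h3 := ae_restrict_of_ae_restrict_of_subset (Set.inter_subset_left (s := W) (t := Ω)) hUw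
  filter_upwards [h3, ae_restrict_mem (hWo.inter hΩo).measurableSet] with z h4 h5
  have h6 : U z = 0 := (hUW z h5.1).self_of_nhds
  rw [h6, Set.indicator_of_mem h5.2] at h4
  linarith

end MD12

end S_ZEX

section S_TSOB

/-! # TSOB: testing with compactly supported Sobolev functions

Mollification.  `ρ_n` = normed `ContDiffBump` at `0` with radius `→ 0`, `f_n = ρ_n ⋆ f`.  `f_n` is smooth with compact support; for large `n` the support
is in `N` (`S` compact in the open `N`).  `fderiv ℝ f_n z v = inner ℝ ((ρ_n ⋆ F) z) v` by `hfF` (test function `w ↦ ρ_n (z - w)`).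
`∫_N cond * fderiv f_n z (G z) = 0` by `hL`.  `ρ_n ⋆ F → F` in `L²` (the file `Pool/Agent/H85/MA/Moll.lean`, theorem `Moll_conv`, proves `L²` convergence of
mollifications on `EuclideanSpace ℂ (Fin n)`; copied and adapted) and `cond * G ∈ L²(N)`: the
limit of the integrals is `∫_N cond * inner (F z) (G z)` (Cauchy-Schwarz / Hölder in `L²`).
-/

namespace MD12

open Complex Metric Set Filter Topology InnerProductSpace MeasureTheory
open scoped ComplexConjugate ContDiff MeasureTheory ENNReal Convolution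

section TSOBaux

/-- bump functions of radius `1 / (k + 1)` -/
noncomputable def TSOB_bump (k : ℕ) : ContDiffBump (0 : ℂ) where
  rIn := 1 / (2 * ((k : ℝ) + 1))
  rOut := 1 / ((k : ℝ) + 1)
  rIn_pos := by positivity
  rIn_lt_rOut := by
    apply one_div_lt_one_div_of_lt (by positivity)
    have : (0 : ℝ) < (k : ℝ) + 1 := by positivity
    linarith

/-- the mollifier -/
noncomputable def TSOB_eta (k : ℕ) : ℂ → ℝ := (TSOB_bump k).normed volume

theorem TSOB_eta_smooth (k : ℕ) : ContDiff ℝ ∞ (TSOB_eta k) :=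
  (TSOB_bump k).contDiff_normed

theorem TSOB_eta_supp (k : ℕ) : HasCompactSupport (TSOB_eta k) :=
  (TSOB_bump k).hasCompactSupport_normed

theorem TSOB_eta_nonneg (k : ℕ) (x : ℂ) : 0 ≤ TSOB_eta k x :=
  (TSOB_bump k).nonneg_normed x

theorem TSOB_eta_zero (k : ℕ) {x : ℂ} (hx : 1 / ((k : ℝ) + 1) ≤ ‖x‖) : TSOB_eta k x = 0 := by
  have h := (TSOB_bump k).support_normed_eq (μ := (volume : Measure ℂ))
  by_contra hne
  have h1 : x ∈ Function.support ((TSOB_bump k).normed volume) := hne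
  rw [h, mem_ball_zero_iff] at h1
  exact absurd h1 (not_lt.2 hx)

/-- the test function `x ↦ η (z - x)` -/
noncomputable def TSOB_tf (k : ℕ) (z : ℂ) : ℂ → ℝ := fun x => TSOB_eta k (z - x)

theorem TSOB_tf_tst (k : ℕ) (z : ℂ) : IsTest (TSOB_tf k z) := by
  constructor
  · exact (TSOB_eta_smooth k).comp (contDiff_const.sub contDiff_id)
  · apply HasCompactSupport.intro (isCompact_closedBall z (1 / ((k : ℝ) + 1)))
    intro x hx
    unfold TSOB_tf
    rw [TSOB_eta_zero k]
    rw [mem_closedBall, not_le, dist_comm, dist_eq_norm] at hx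
    exact hx.le

theorem TSOB_tf_fderiv (k : ℕ) (z x v : ℂ) :
    fderiv ℝ (TSOB_tf k z) x v = -(fderiv ℝ (TSOB_eta k) (z - x) v) := by
  have h1 : HasFDerivAt (TSOB_eta k) (fderiv ℝ (TSOB_eta k) (z - x)) (z - x) :=
    (((TSOB_eta_smooth k).differentiable (by simp)).differentiableAt).hasFDerivAt
  have h2 : HasFDerivAt (fun x => z - x) (-(ContinuousLinearMap.id ℝ ℂ)) x :=
    (hasFDerivAt_id x).const_sub z
  have h4 : HasFDerivAt (TSOB_tf k z) _ x := h1.comp x h2
  rw [h4.fderiv]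
  simp

set_option linter.unusedSectionVars false

variable {E : Type} [NormedAddCommGroup E] [NormedSpace ℝ E] [CompleteSpace E]

/-- mollification -/
noncomputable def TSOB_mol (k : ℕ) (G : ℂ → E) : ℂ → E :=
  TSOB_eta k ⋆[ContinuousLinearMap.lsmul ℝ ℝ, volume] G

theorem TSOB_mol_eq (k : ℕ) (G : ℂ → E) (z : ℂ) :
    TSOB_mol k G z = ∫ t, TSOB_eta k t • G (z - t) := rfl

theorem TSOB_mol_eq' (k : ℕ) (G : ℂ → E) (z : ℂ) :
    TSOB_mol k G z = ∫ x, TSOB_tf k z x • G x := by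
  unfold TSOB_mol
  rw [convolution_eq_swap]
  rfl

theorem TSOB_smooth (k : ℕ) {G : ℂ → E} (hG : LocallyIntegrable G volume) :
    ContDiff ℝ ∞ (TSOB_mol k G) :=
  (TSOB_eta_supp k).contDiff_convolution_left _ (TSOB_eta_smooth k) hG

theorem TSOB_mol_zero (k : ℕ) {G : ℂ → E} {K : Set ℂ} (hG : ∀ z ∉ K, G z = 0) {z : ℂ}
    (hz : z ∉ cthickening (1 / ((k : ℝ) + 1)) K) : TSOB_mol k G z = 0 := by
  rw [TSOB_mol_eq]
  have : ∀ t, TSOB_eta k t • G (z - t) = 0 := by
    intro t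
    by_cases ht : 1 / ((k : ℝ) + 1) ≤ ‖t‖
    · rw [TSOB_eta_zero k ht, zero_smul]
    · rw [hG, smul_zero]
      intro hK
      apply hz
      apply mem_cthickening_of_dist_le z (z - t) _ K hK
      rw [dist_eq_norm, sub_sub_cancel]
      linarith
  simp [this]

theorem TSOB_int {G : ℂ → E} (hG : LocallyIntegrable G volume) {f : ℂ → ℝ}
    (hf : Continuous f) (hf' : HasCompactSupport f) : Integrable (fun x => f x • G x) volume :=
  hG.integrable_smul_left_of_hasCompactSupport hf hf'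

theorem TSOB_deriv (k : ℕ) {f : ℂ → ℝ} (hG : LocallyIntegrable f volume) (z v : ℂ) :
    fderiv ℝ (TSOB_mol k f) z v = -∫ x, f x * fderiv ℝ (TSOB_tf k z) x v := by
  have hs : ContDiff ℝ 1 (TSOB_eta k) := (TSOB_eta_smooth k).of_le (by simp)
  have h1 := (TSOB_eta_supp k).hasFDerivAt_convolution_left (ContinuousLinearMap.lsmul ℝ ℝ)
    hs hG z
  have h2 : HasFDerivAt (TSOB_mol k f) _ z := h1
  rw [h2.fderiv, convolution_eq_swap]
  have h3 : ConvolutionExistsAt (fderiv ℝ (TSOB_eta k)) f z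
      ((ContinuousLinearMap.lsmul ℝ ℝ : ℝ →L[ℝ] ℝ →L[ℝ] ℝ).precompL ℂ) volume :=
    (TSOB_eta_supp k).fderiv ℝ |>.convolutionExists_left _
      (hs.continuous_fderiv (by simp)) hG z
  have h4 := convolutionExistsAt_iff_integrable_swap.1 h3
  rw [ContinuousLinearMap.integral_apply h4, ← integral_neg]
  congr 1
  funext x
  rw [ContinuousLinearMap.precompL_apply, TSOB_tf_fderiv]
  simp [mul_comm]

theorem TSOB_sub (k : ℕ) {G H : ℂ → E} (hG : LocallyIntegrable G volume)
    (hH : LocallyIntegrable H volume) (z : ℂ) :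
    TSOB_mol k (fun z => G z - H z) z = TSOB_mol k G z - TSOB_mol k H z := by
  have h := TSOB_tf_tst k z
  rw [TSOB_mol_eq', TSOB_mol_eq', TSOB_mol_eq', ← integral_sub
    (TSOB_int hG h.1.continuous h.2) (TSOB_int hH h.1.continuous h.2)]
  congr 1
  funext x
  rw [smul_sub]

/-! ### `L²` estimates -/

/-- the probability measure `η_k dλ` -/
noncomputable def TSOB_nu (k : ℕ) : Measure ℂ :=
  volume.withDensity fun t => ENNReal.ofReal (TSOB_eta k t)

instance TSOB_nu_prob (k : ℕ) : IsProbabilityMeasure (TSOB_nu k) := by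
  constructor
  unfold TSOB_nu
  rw [withDensity_apply _ MeasurableSet.univ, Measure.restrict_univ,
    ← ofReal_integral_eq_lintegral_ofReal]
  · have : ∫ t, TSOB_eta k t = 1 := (TSOB_bump k).integral_normed
    rw [this, ENNReal.ofReal_one]
  · exact (TSOB_bump k).integrable_normed
  · filter_upwards with t using TSOB_eta_nonneg k t

theorem TSOB_mol_nu (k : ℕ) (G : ℂ → E) (z : ℂ) :
    TSOB_mol k G z = ∫ t, G (z - t) ∂(TSOB_nu k) := by
  rw [TSOB_mol_eq]
  unfold TSOB_nu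
  rw [integral_withDensity_eq_integral_toReal_smul]
  · congr 1
    funext t
    rw [ENNReal.toReal_ofReal (TSOB_eta_nonneg k t)]
  · exact (TSOB_eta_smooth k).continuous.measurable.ennreal_ofReal
  · filter_upwards with t using ENNReal.ofReal_lt_top

theorem TSOB_pointwise (k : ℕ) {F : ℂ → E} (hF : AEStronglyMeasurable F volume) (z : ℂ) :
    ‖TSOB_mol k F z‖ₑ ^ (2 : ℝ) ≤ ∫⁻ t, ‖F (z - t)‖ₑ ^ (2 : ℝ) ∂(TSOB_nu k) := by
  have hac : TSOB_nu k ≪ volume := withDensity_absolutelyContinuous _ _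
  have hm : AEStronglyMeasurable (fun t => F (z - t)) (TSOB_nu k) :=
    (hF.comp_quasiMeasurePreserving (quasiMeasurePreserving_sub_left volume z)).mono_ac hac
  have h1 : ‖TSOB_mol k F z‖ₑ ≤ eLpNorm (fun t => F (z - t)) 2 (TSOB_nu k) := by
    rw [TSOB_mol_nu]
    refine le_trans (enorm_integral_le_lintegral_enorm _) ?_
    rw [← eLpNorm_one_eq_lintegral_enorm]
    exact eLpNorm_le_eLpNorm_of_exponent_le (by norm_num) hm
  have h2 : eLpNorm (fun t => F (z - t)) 2 (TSOB_nu k) ^ (2 : ℝ) =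
      ∫⁻ t, ‖F (z - t)‖ₑ ^ (2 : ℝ) ∂(TSOB_nu k) := by
    rw [eLpNorm_eq_lintegral_rpow_enorm_toReal (by norm_num) (by norm_num)]
    simp only [ENNReal.toReal_ofNat, one_div]
    rw [← ENNReal.rpow_mul]
    norm_num
  rw [← h2]
  exact ENNReal.rpow_le_rpow h1 (by norm_num)

theorem TSOB_young (k : ℕ) {F : ℂ → E} (hF : AEStronglyMeasurable F volume) :
    eLpNorm (TSOB_mol k F) 2 volume ≤ eLpNorm F 2 volume := by
  have h2 : ∀ H : ℂ → E, eLpNorm H 2 volume = (∫⁻ z, ‖H z‖ₑ ^ (2 : ℝ)) ^ (1 / 2 : ℝ) := by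
    intro H
    rw [eLpNorm_eq_lintegral_rpow_enorm_toReal (by norm_num) (by norm_num)]
    simp only [ENNReal.toReal_ofNat]
  rw [h2, h2]
  apply ENNReal.rpow_le_rpow _ (by norm_num)
  calc ∫⁻ z, ‖TSOB_mol k F z‖ₑ ^ (2 : ℝ)
      ≤ ∫⁻ z, (∫⁻ t, ‖F (z - t)‖ₑ ^ (2 : ℝ) ∂(TSOB_nu k)) :=
        lintegral_mono fun z => TSOB_pointwise k hF z
    _ = ∫⁻ t, (∫⁻ z, ‖F (z - t)‖ₑ ^ (2 : ℝ)) ∂(TSOB_nu k) := by
        apply lintegral_lintegral_swap
        have h3 : AEStronglyMeasurable (fun p : ℂ × ℂ => F (p.1 - p.2))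
            ((volume : Measure ℂ).prod (TSOB_nu k)) :=
          hF.comp_quasiMeasurePreserving
            (quasiMeasurePreserving_sub_of_right_invariant volume (TSOB_nu k))
        exact (h3.enorm.pow_const _)
    _ = ∫⁻ t, (∫⁻ z, ‖F z‖ₑ ^ (2 : ℝ)) ∂(TSOB_nu k) := by
        congr 1
        funext t
        exact lintegral_sub_right_eq_self (fun z => ‖F z‖ₑ ^ (2 : ℝ)) t
    _ = ∫⁻ z, ‖F z‖ₑ ^ (2 : ℝ) := by
        rw [lintegral_const, measure_univ, mul_one]

theorem TSOB_locint {G : ℂ → E} (hG : MemLp G 2 volume) : LocallyIntegrable G volume :=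
  hG.locallyIntegrable (by norm_num)

/-- uniform convergence for continuous compactly supported functions -/
theorem TSOB_unif {g : ℂ → E} (hg : Continuous g) (hg' : HasCompactSupport g) :
    Filter.Tendsto (fun k => eLpNorm (fun z => TSOB_mol k g z - g z) 2 volume)
      Filter.atTop (𝓝 0) := by
  set S : Set ℂ := cthickening 1 (tsupport g) with hS
  have hSc : IsCompact S := hg'.cthickening
  have hgK : ∀ z ∉ tsupport g, g z = 0 := fun z hz => image_eq_zero_of_notMem_tsupport hz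
  have hgS : Function.support g ⊆ S := by
    intro z hz
    exact self_subset_cthickening _ (subset_tsupport g hz)
  have hmS : ∀ k, Function.support (TSOB_mol k g) ⊆ S := by
    intro k z hz
    by_contra hzS
    refine hz (TSOB_mol_zero k hgK fun h => hzS ?_)
    refine cthickening_mono ?_ _ h
    rw [div_le_one (by positivity)]
    have : (0 : ℝ) ≤ (k : ℝ) := by positivity
    linarith
  have hu := hg'.uniformContinuous_of_continuous hg
  rw [Metric.uniformContinuous_iff] at hu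
  have key : ∀ δ : ℝ, 0 < δ → ∀ᶠ k in Filter.atTop,
      eLpNorm (fun z => TSOB_mol k g z - g z) 2 volume ≤
        ENNReal.ofReal δ * volume S ^ (1 / (2 : ℝ≥0∞).toReal) := by
    intro δ hδ
    obtain ⟨r, hr, hr'⟩ := hu δ hδ
    have h1 : ∀ᶠ k : ℕ in Filter.atTop, 1 / ((k : ℝ) + 1) < r :=
      (tendsto_one_div_add_atTop_nhds_zero_nat).eventually (gt_mem_nhds hr)
    filter_upwards [h1] with k hk
    have h2 : ∀ z, dist (TSOB_mol k g z) (g z) ≤ δ := by
      intro z
      apply (TSOB_bump k).dist_normed_convolution_le hg.aestronglyMeasurable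
      intro x hx
      rw [mem_ball] at hx
      exact (hr' (lt_trans hx hk)).le
    exact eLpNorm_sub_le_of_dist_bdd volume (by norm_num) hSc.measurableSet hδ.le h2 (hmS k) hgS
  have hfin : volume S ^ (1 / (2 : ℝ≥0∞).toReal) ≠ (⊤ : ℝ≥0∞) := by
    apply ENNReal.rpow_ne_top_of_nonneg (by simp) hSc.measure_lt_top.ne
  rw [ENNReal.tendsto_nhds_zero]
  intro ε hε
  have h3 : Filter.Tendsto (fun δ : ℝ => ENNReal.ofReal δ * volume S ^ (1 / (2 : ℝ≥0∞).toReal))
      (𝓝 0) (𝓝 0) := by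
    have h4 : Filter.Tendsto (fun δ : ℝ => ENNReal.ofReal δ) (𝓝 0) (𝓝 0) := by
      have := ENNReal.tendsto_ofReal (Filter.tendsto_id (α := ℝ) (x := 𝓝 0))
      simpa using this
    have h5 := ENNReal.Tendsto.mul_const (b := volume S ^ (1 / (2 : ℝ≥0∞).toReal)) h4
      (Or.inr hfin)
    simpa using h5
  have h6 : ∀ᶠ δ : ℝ in 𝓝 0, ENNReal.ofReal δ * volume S ^ (1 / (2 : ℝ≥0∞).toReal) ≤ ε :=
    (h3.eventually (gt_mem_nhds hε)).mono fun _ h => h.le
  obtain ⟨δ, hδ, hδ0⟩ := ((h6.filter_mono nhdsWithin_le_nhds).and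
    (self_mem_nhdsWithin (s := Ioi (0 : ℝ)) (a := 0))).exists
  filter_upwards [key δ hδ0] with k hk using hk.trans hδ

theorem TSOB_conv {G : ℂ → E} (hG : MemLp G 2 volume) :
    Filter.Tendsto (fun k => eLpNorm (fun z => TSOB_mol k G z - G z) 2 volume)
      Filter.atTop (𝓝 0) := by
  rw [ENNReal.tendsto_nhds_zero]
  intro ε hε
  have hε3 : ε / 3 ≠ 0 := (ENNReal.div_pos hε.ne' (by norm_num)).ne'
  obtain ⟨g, hg1, hg2, hg3, hg4⟩ := hG.exists_hasCompactSupport_eLpNorm_sub_le (by norm_num) hε3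
  have hu := TSOB_unif hg3 hg1
  rw [ENNReal.tendsto_nhds_zero] at hu
  filter_upwards [hu (ε / 3) (pos_iff_ne_zero.2 hε3)] with k hk
  have h1 : (fun z => TSOB_mol k G z - G z) =
      (TSOB_mol k (fun z => G z - g z)) + ((fun z => TSOB_mol k g z - g z) - (G - g)) := by
    funext z
    simp only [Pi.add_apply, Pi.sub_apply]
    rw [TSOB_sub k (TSOB_locint hG) (TSOB_locint hg4)]
    abel
  have hGg : MemLp (G - g) 2 volume := hG.sub hg4
  have m1 : AEStronglyMeasurable (TSOB_mol k (fun z => G z - g z)) volume :=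
    (TSOB_smooth k (TSOB_locint hGg)).continuous.aestronglyMeasurable
  have m2 : AEStronglyMeasurable (fun z => TSOB_mol k g z - g z) volume :=
    ((TSOB_smooth k (TSOB_locint hg4)).continuous.sub hg3).aestronglyMeasurable
  have h2 : eLpNorm (TSOB_mol k (fun z => G z - g z)) 2 volume ≤ ε / 3 :=
    (TSOB_young k hGg.1).trans hg2
  rw [h1]
  calc eLpNorm ((TSOB_mol k (fun z => G z - g z)) +
        ((fun z => TSOB_mol k g z - g z) - (G - g))) 2 volume
      ≤ eLpNorm (TSOB_mol k (fun z => G z - g z)) 2 volume +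
          eLpNorm ((fun z => TSOB_mol k g z - g z) - (G - g)) 2 volume :=
        eLpNorm_add_le m1 (m2.sub hGg.1) (by norm_num)
    _ ≤ ε / 3 + (ε / 3 + ε / 3) := by
        refine add_le_add h2 (le_trans (eLpNorm_sub_le m2 hGg.1 (by norm_num)) ?_)
        exact add_le_add hk hg2
    _ = ε := by
        rw [← add_assoc]
        exact ENNReal.add_thirds ε

theorem TSOB_cond_bdd (k : ℝ) (D : Set ℂ) (z : ℂ) : ‖cond k D z‖ ≤ 1 + |k - 1| := by
  unfold cond
  refine (norm_add_le _ _).trans ?_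
  rw [norm_one, norm_mul, Real.norm_eq_abs]
  have : ‖D.indicator (fun _ => (1 : ℝ)) z‖ ≤ 1 := by
    by_cases h : z ∈ D
    · simp [h]
    · simp [h]
  nlinarith [abs_nonneg (k - 1)]

theorem TSOB_cond_meas (k : ℝ) {D : Set ℂ} (hD : MeasurableSet D) : Measurable (cond k D) := by
  unfold cond
  exact measurable_const.add (measurable_const.mul (measurable_const.indicator hD))

theorem TSOB_condG {N : Set ℂ} {k : ℝ} {D : Set ℂ} (hD : MeasurableSet D)
    {G : ℂ → ℂ} (hG : MemLp G 2 (volume.restrict N)) :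
    MemLp (fun z => (cond k D z) • G z) 2 (volume.restrict N) := by
  refine MemLp.of_le_mul (c := 1 + |k - 1|) hG ?_ ?_
  · exact (TSOB_cond_meas k hD).aestronglyMeasurable.smul hG.1
  · filter_upwards with z
    rw [norm_smul]
    exact mul_le_mul_of_nonneg_right (TSOB_cond_bdd k D z) (norm_nonneg _)

theorem TSOB_holder {μ : Measure ℂ} {A B : ℂ → ℂ} (hA : AEStronglyMeasurable A μ)
    (hB : AEStronglyMeasurable B μ) :
    eLpNorm (fun z => inner ℝ (A z) (B z)) 1 μ ≤ eLpNorm A 2 μ * eLpNorm B 2 μ := by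
  have := eLpNorm_le_eLpNorm_mul_eLpNorm_of_nnnorm (p := 2) (q := 2) (r := 1) hA hB
    (fun a b => inner ℝ a b) 1 (by
      filter_upwards with z
      rw [one_mul]
      exact nnnorm_inner_le_nnnorm _ _)
  simpa using this

theorem TSOB_innint {μ : Measure ℂ} {A B : ℂ → ℂ} (hA : MemLp A 2 μ) (hB : MemLp B 2 μ) :
    Integrable (fun z => inner ℝ (A z) (B z)) μ := by
  rw [← memLp_one_iff_integrable]
  refine ⟨hA.1.inner hB.1, ?_⟩
  exact (TSOB_holder hA.1 hB.1).trans_lt (ENNReal.mul_lt_top hA.2 hB.2)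

end TSOBaux

theorem test_sob {N : Set ℂ} (hN : IsOpen N) {k : ℝ} {D : Set ℂ} (hD : MeasurableSet D)
    {G : ℂ → ℂ} (hG : MemLp G 2 (volume.restrict N)) (hL : Loc N k D G) {f : ℂ → ℝ}
    {F : ℂ → ℂ} (hf : MemLp f 2 volume) (hF : MemLp F 2 volume)
    (hfF : ∀ φ : ℂ → ℝ, IsTest φ → ∀ v : ℂ, ∫ z, f z * fderiv ℝ φ z v = -∫ z, inner ℝ (F z) v * φ z)
    {S : Set ℂ} (hS : IsCompact S) (hSN : S ⊆ N) (hfS : ∀ z ∉ S, f z = 0)
    (hFS : ∀ z ∉ S, F z = 0) : ∫ z in N, cond k D z * inner ℝ (F z) (G z) = 0 := by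
  have hfl := TSOB_locint hf
  have hFl := TSOB_locint hF
  -- derivative of the mollification
  have hder : ∀ (n : ℕ) (z v : ℂ), fderiv ℝ (TSOB_mol n f) z v = inner ℝ (TSOB_mol n F z) v := by
    intro n z v
    have ht := TSOB_tf_tst n z
    rw [TSOB_deriv n hfl, hfF _ ht v, neg_neg, TSOB_mol_eq',
      ← real_inner_comm, ← integral_inner (TSOB_int hFl ht.1.continuous ht.2) v]
    congr 1
    funext x
    rw [inner_smul_right, real_inner_comm, mul_comm]
  -- the mollification is an admissible test function for large `n`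
  obtain ⟨δ, hδ, hδN⟩ := hS.exists_cthickening_subset_open hN hSN
  have hev : ∀ᶠ n : ℕ in Filter.atTop, 1 / ((n : ℝ) + 1) < δ :=
    (tendsto_one_div_add_atTop_nhds_zero_nat).eventually (gt_mem_nhds hδ)
  have hzero : ∀ᶠ n : ℕ in Filter.atTop,
      ∫ z in N, inner ℝ (TSOB_mol n F z) ((cond k D z) • G z) = 0 := by
    filter_upwards [hev] with n hn
    have hsup : tsupport (TSOB_mol n f) ⊆ cthickening δ S := by
      refine closure_minimal ?_ isClosed_cthickening
      intro z hz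
      by_contra hzS
      exact hz (TSOB_mol_zero n hfS fun h => hzS (cthickening_mono hn.le _ h))
    have htest : IsTest (TSOB_mol n f) :=
      ⟨TSOB_smooth n hfl, hS.cthickening.of_isClosed_subset (isClosed_tsupport _) hsup⟩
    have h1 := hL _ htest (hsup.trans hδN)
    rw [← h1]
    congr 1
    funext z
    rw [hder, inner_smul_right]
  -- the limit
  have hcG := TSOB_condG (N := N) (k := k) hD hG
  have hFN : MemLp F 2 (volume.restrict N) := hF.restrict N
  have hmN : ∀ n, MemLp (TSOB_mol n F) 2 (volume.restrict N) := by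
    intro n
    refine MemLp.restrict N ⟨(TSOB_smooth n hFl).continuous.aestronglyMeasurable, ?_⟩
    exact (TSOB_young n hF.1).trans_lt hF.2
  have hgoal : ∫ z in N, cond k D z * inner ℝ (F z) (G z) =
      ∫ z in N, inner ℝ (F z) ((cond k D z) • G z) := by
    congr 1
    funext z
    rw [inner_smul_right]
  rw [hgoal]
  have hbd : ∀ᶠ n : ℕ in Filter.atTop,
      ‖∫ z in N, inner ℝ (F z) ((cond k D z) • G z)‖ₑ ≤
        eLpNorm (fun z => TSOB_mol n F z - F z) 2 volume *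
          eLpNorm (fun z => (cond k D z) • G z) 2 (volume.restrict N) := by
    filter_upwards [hzero] with n hn
    have e1 : ∫ z in N, inner ℝ (F z) ((cond k D z) • G z) =
        ∫ z in N, -(inner ℝ (TSOB_mol n F z - F z) ((cond k D z) • G z)) := by
      have h2 : ∀ z, -(inner ℝ (TSOB_mol n F z - F z) ((cond k D z) • G z)) =
          inner ℝ (F z) ((cond k D z) • G z) -
            inner ℝ (TSOB_mol n F z) ((cond k D z) • G z) := by
        intro z
        rw [inner_sub_left]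
        ring
      simp_rw [h2]
      rw [integral_sub (TSOB_innint hFN hcG) (TSOB_innint (hmN n) hcG), hn, sub_zero]
    rw [e1, integral_neg, enorm_neg]
    refine (enorm_integral_le_lintegral_enorm _).trans ?_
    rw [← eLpNorm_one_eq_lintegral_enorm]
    refine (TSOB_holder ((hmN n).sub hFN).1 hcG.1).trans ?_
    refine mul_le_mul_left ?_ _
    exact eLpNorm_mono_measure _ Measure.restrict_le_self
  have hlim : Filter.Tendsto (fun n => eLpNorm (fun z => TSOB_mol n F z - F z) 2 volume *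
      eLpNorm (fun z => (cond k D z) • G z) 2 (volume.restrict N)) Filter.atTop (𝓝 0) := by
    have := ENNReal.Tendsto.mul_const
      (b := eLpNorm (fun z => (cond k D z) • G z) 2 (volume.restrict N)) (TSOB_conv hF)
      (Or.inr hcG.2.ne)
    simpa using this
  have h0 : ‖∫ z in N, inner ℝ (F z) ((cond k D z) • G z)‖ₑ ≤ 0 := ge_of_tendsto hlim hbd
  simpa using h0

end MD12

end S_TSOB

section S_MONO

/-! # MONO: the monotone case (energy argument)

`B = ball c ρ'`, `C = ball c ρ`, `a₁ = cond k C`, `a₂ = cond k D₂`; `a₁ = a₂ = 1` on `B \ C`.  `grad_unique` on the open set `B \ closedBall c ρ`: `G₁ = G₂` a.e. there.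
(1) `η` smooth, `= 1` on `closedBall c ρ₁`, supported in `ball c ρ₂`, `ρ < ρ₁ < ρ₂ < ρ'`.  `η u_i` (extended by `0`) has the weak gradient `η G_i + u_i ∇η`
(`hs_i.grad` with the test function `η φ`).  `test_sob`: `∫_B a_i η ‖G_i‖² + ∫_B a_i u_i ⟪∇η, G_i⟫ = 0`.  The second integral lives on `B \ closedBall c ρ₁`, where
`a_i = 1`, `u₁ = u₂`, `G₁ = G₂`: the same for `i = 1, 2`.  So `∫ a₁ η ‖G₁‖² = ∫ a₂ η ‖G₂‖²`, and as the integrands agree on `B \ C` a.e. and `η = 1` on `C`: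
`∫_C a₁ ‖G₁‖² = ∫_C a₂ ‖G₂‖²`.
(2) `w = u₂ - u₁` on `C`, `0` elsewhere, has the weak gradient `(G₂ - G₁) 1_C` on the plane (`w = 0` a.e. on `B \ C`; use `hs_i.grad` with `η φ`), is supported in
`closedBall c ρ`.  `test_sob`: `∫_C a₁ ⟪G₂ - G₁, G₁⟫ = 0`, `∫_C a₂ ⟪G₂ - G₁, G₂⟫ = 0`.
(3) Write `A = ∫_C a₁‖G₁‖² = ∫_C a₂‖G₂‖² = ∫_C a₁⟪G₁,G₂⟫ = ∫_C a₂⟪G₁,G₂⟫`.  On `C`: `a₁ = k`, `a₂ = k` on `D₂`, `1` on `C \ D₂`.  So
`(k-1) ∫_{C\D₂} ⟪G₁,G₂⟫ = 0`, and `∫_C a₂ ‖G₂-G₁‖² = A - 2A + ∫_C a₂ ‖G₁‖² = -A + A - (k-1) ∫_{C\D₂} ‖G₁‖² = -(k-1) ∫_{C\D₂} ‖G₁‖²`,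
`∫_C a₁ ‖G₂-G₁‖² = ∫_C a₁ ‖G₂‖² - A = (k-1) ∫_{C\D₂} ‖G₂‖²`.
If `k > 1` the first gives `G₂ = G₁` a.e. on `C` and `G₁ = 0` a.e. on `C \ D₂`; if `k < 1` the second gives `G₂ = 0` a.e. on `C \ D₂`.
(`a_i > 0`; all integrals exist since `G_i ∈ L²(B)`, `u_i ∈ L²(B)`.)
-/

namespace MD12

open Complex Metric Set Filter Topology InnerProductSpace MeasureTheory
open scoped ComplexConjugate ContDiff MeasureTheory

theorem MONO_int {N : Set ℂ} {u : ℂ → ℝ} (hu : MemLp u 2 (volume.restrict N)) {ψ : ℂ → ℝ}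
    (hψ : Continuous ψ) (hc : HasCompactSupport ψ) :
    Integrable (fun z => u z * ψ z) (volume.restrict N) := by
  have h2 : MemLp ψ 2 (volume.restrict N) := (hψ.memLp_of_hasCompactSupport hc).restrict N
  exact hu.integrable_mul h2

theorem MONO_ii {N : Set ℂ} {G G' : ℂ → ℂ} (hG : MemLp G 2 (volume.restrict N))
    (hG' : MemLp G' 2 (volume.restrict N)) :
    Integrable (fun z => inner ℝ (G z) (G' z)) (volume.restrict N) := by
  have h := hG.norm.integrable_mul hG'.norm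
  refine h.mono (hG.1.inner hG'.1) (Eventually.of_forall fun z => ?_)
  simp only [Pi.mul_apply, norm_mul, norm_norm]
  exact norm_inner_le_norm _ _

theorem MONO_inner {N : Set ℂ} {G : ℂ → ℂ} (hG : MemLp G 2 (volume.restrict N)) (v : ℂ) :
    MemLp (fun z => inner ℝ (G z) v) 2 (volume.restrict N) :=
  hG.inner_const v

/-- the gradient of a function as a complex number -/
noncomputable def MONO_gr (η : ℂ → ℝ) (z : ℂ) : ℂ :=
  (fderiv ℝ η z 1 : ℂ) + (fderiv ℝ η z I : ℂ) * I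

theorem MONO_gr_inner (η : ℂ → ℝ) (z v : ℂ) : inner ℝ (MONO_gr η z) v = fderiv ℝ η z v := by
  have hv : v = v.re • (1 : ℂ) + v.im • I := by
    apply Complex.ext <;> simp
  have h1 : fderiv ℝ η z v = v.re * fderiv ℝ η z 1 + v.im * fderiv ℝ η z I := by
    conv_lhs => rw [hv]
    rw [map_add, map_smul, map_smul, smul_eq_mul, smul_eq_mul]
  rw [h1, Complex.inner]
  simp [MONO_gr]

theorem MONO_smul_inner (r : ℝ) (a b : ℂ) : inner ℝ ((r : ℂ) * a) b = r * inner ℝ a b := by
  rw [Complex.inner, Complex.inner]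
  simp
  ring

theorem MONO_test {N : Set ℂ} (hN : IsOpen N) {k : ℝ} {D : Set ℂ} (hD : MeasurableSet D)
    {u : ℂ → ℝ} {G G' : ℂ → ℂ} (hs : Sob N u G) (hG' : MemLp G' 2 (volume.restrict N))
    (hL : Loc N k D G') {η : ℂ → ℝ} (hη : IsTest η) (hηN : tsupport η ⊆ N) :
    ∫ z in N, cond k D z * (η z * inner ℝ (G z) (G' z) + u z * fderiv ℝ η z (G' z)) = 0 := by
  have hηc : Continuous η := hη.1.continuous
  have hfd : Continuous (fun z => fderiv ℝ η z) := hη.1.continuous_fderiv (by simp)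
  have hfdv : ∀ v : ℂ, Continuous (fun z => fderiv ℝ η z v) := fun v =>
    hfd.clm_apply continuous_const
  have hgr : Continuous (MONO_gr η) := by
    unfold MONO_gr
    exact (Complex.continuous_ofReal.comp (hfdv 1)).add
      ((Complex.continuous_ofReal.comp (hfdv I)).mul continuous_const)
  have hgrz : ∀ z ∉ tsupport η, MONO_gr η z = 0 := by
    intro z hz
    have h0 : fderiv ℝ η z = 0 := by
      by_contra hne
      exact hz (tsupport_fderiv_subset ℝ (subset_tsupport _ hne))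
    simp [MONO_gr, h0]
  have hgrs : HasCompactSupport (MONO_gr η) := by
    refine HasCompactSupport.intro hη.2 hgrz
  obtain ⟨Cη, hCη⟩ := hη.2.exists_bound_of_continuous hηc
  obtain ⟨Cg, hCg⟩ := hgrs.exists_bound_of_continuous hgr
  have hzN : ∀ z ∉ tsupport η, η z = 0 := fun z hz => image_eq_zero_of_notMem_tsupport hz
  -- the functions
  have m1 : MemLp (fun z => η z * u z) 2 (volume.restrict N) := by
    refine hs.memu.of_le_mul (c := Cη) (hηc.aestronglyMeasurable.mul hs.memu.1) ?_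
    refine Eventually.of_forall fun z => ?_
    rw [norm_mul]
    exact mul_le_mul_of_nonneg_right (hCη z) (norm_nonneg _)
  have m2 : MemLp (fun z => (η z : ℂ) * G z) 2 (volume.restrict N) := by
    refine hs.memG.of_le_mul (c := Cη)
      ((Complex.continuous_ofReal.comp hηc).aestronglyMeasurable.mul hs.memG.1) ?_
    refine Eventually.of_forall fun z => ?_
    rw [norm_mul, Complex.norm_real]
    exact mul_le_mul_of_nonneg_right (hCη z) (norm_nonneg _)
  have m3 : MemLp (fun z => (u z : ℂ) * MONO_gr η z) 2 (volume.restrict N) := by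
    refine hs.memu.of_le_mul (c := Cg)
      ((Complex.continuous_ofReal.comp_aestronglyMeasurable hs.memu.1).mul
        hgr.aestronglyMeasurable) ?_
    refine Eventually.of_forall fun z => ?_
    rw [norm_mul, Complex.norm_real, mul_comm]
    exact mul_le_mul_of_nonneg_right (hCg z) (norm_nonneg _)
  have hf : MemLp (N.indicator fun z => η z * u z) 2 volume :=
    (memLp_indicator_iff_restrict hN.measurableSet).2 m1
  have hF : MemLp (N.indicator fun z => (η z : ℂ) * G z + (u z : ℂ) * MONO_gr η z) 2 volume :=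
    (memLp_indicator_iff_restrict hN.measurableSet).2 (m2.add m3)
  have hw : ∀ φ : ℂ → ℝ, IsTest φ → ∀ v : ℂ,
      ∫ z, (N.indicator fun z => η z * u z) z * fderiv ℝ φ z v =
        -∫ z, inner ℝ ((N.indicator fun z => (η z : ℂ) * G z + (u z : ℂ) * MONO_gr η z) z) v
          * φ z := by
    intro φ hφ v
    have hφc : Continuous φ := hφ.1.continuous
    have hφfd : Continuous (fun z => fderiv ℝ φ z v) :=
      (hφ.1.continuous_fderiv (by simp)).clm_apply continuous_const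
    have e1 : ∀ z, (N.indicator fun z => η z * u z) z * fderiv ℝ φ z v =
        N.indicator (fun z => u z * (η z * fderiv ℝ φ z v)) z := by
      intro z
      by_cases hz : z ∈ N
      · rw [indicator_of_mem hz, indicator_of_mem hz]; ring
      · rw [indicator_of_notMem hz, indicator_of_notMem hz, zero_mul]
    have e2 : ∀ z, inner ℝ ((N.indicator fun z => (η z : ℂ) * G z + (u z : ℂ) * MONO_gr η z) z) v
          * φ z = N.indicator (fun z => inner ℝ (G z) v * (η z * φ z)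
            + u z * (φ z * fderiv ℝ η z v)) z := by
      intro z
      by_cases hz : z ∈ N
      · rw [indicator_of_mem hz, indicator_of_mem hz, inner_add_left, MONO_smul_inner,
          MONO_smul_inner, MONO_gr_inner]
        ring
      · rw [indicator_of_notMem hz, indicator_of_notMem hz, inner_zero_left, zero_mul]
    rw [integral_congr_ae (Eventually.of_forall e1), integral_congr_ae (Eventually.of_forall e2),
      integral_indicator hN.measurableSet, integral_indicator hN.measurableSet]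
    have htest : IsTest (fun z => η z * φ z) := IsTest.mul hη.1 hφ
    have hts : tsupport (fun z => η z * φ z) ⊆ N :=
      (tsupport_mul_subset_left).trans hηN
    have hg := hs.grad _ htest hts v
    have hfdm : ∀ z, fderiv ℝ (fun z => η z * φ z) z v =
        η z * fderiv ℝ φ z v + φ z * fderiv ℝ η z v := by
      intro z
      have h1 : DifferentiableAt ℝ η z := (hη.1.differentiable (by simp)) z
      have h2 : DifferentiableAt ℝ φ z := (hφ.1.differentiable (by simp)) z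
      have h3 : fderiv ℝ (fun z => η z * φ z) z = η z • fderiv ℝ φ z + φ z • fderiv ℝ η z :=
        fderiv_fun_mul h1 h2
      rw [h3]
      simp
    have i1 : Integrable (fun z => u z * (η z * fderiv ℝ φ z v)) (volume.restrict N) :=
      MONO_int hs.memu (hηc.mul hφfd) (hη.2.mul_right)
    have i2 : Integrable (fun z => u z * (φ z * fderiv ℝ η z v)) (volume.restrict N) :=
      MONO_int hs.memu (hφc.mul (hfdv v)) (hφ.2.mul_right)
    have i3 : Integrable (fun z => inner ℝ (G z) v * (η z * φ z)) (volume.restrict N) :=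
      MONO_int (MONO_inner hs.memG v) (hηc.mul hφc) (hη.2.mul_right)
    have hl : ∫ z in N, u z * fderiv ℝ (fun z => η z * φ z) z v =
        (∫ z in N, u z * (η z * fderiv ℝ φ z v)) + ∫ z in N, u z * (φ z * fderiv ℝ η z v) := by
      rw [← integral_add i1 i2]
      refine integral_congr_ae (Eventually.of_forall fun z => ?_)
      simp only [hfdm]
      ring
    rw [integral_add i3 i2]
    rw [hl] at hg
    linarith
  have hfS : ∀ z ∉ tsupport η, (N.indicator fun z => η z * u z) z = 0 := by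
    intro z hz
    by_cases hzn : z ∈ N
    · rw [indicator_of_mem hzn, hzN z hz, zero_mul]
    · rw [indicator_of_notMem hzn]
  have hFS : ∀ z ∉ tsupport η,
      (N.indicator fun z => (η z : ℂ) * G z + (u z : ℂ) * MONO_gr η z) z = 0 := by
    intro z hz
    by_cases hzn : z ∈ N
    · rw [indicator_of_mem hzn, hzN z hz, hgrz z hz]; simp
    · rw [indicator_of_notMem hzn]
  have := test_sob hN hD hG' hL hf hF hw hη.2 hηN hfS hFS
  rw [← this]
  refine setIntegral_congr_fun hN.measurableSet fun z hz => ?_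
  simp only [indicator_of_mem hz]
  rw [inner_add_left, MONO_smul_inner, MONO_smul_inner, MONO_gr_inner]

theorem MONO_split {N Cb : Set ℂ} (hN : IsOpen N) (hCb : MeasurableSet Cb) (hCN : Cb ⊆ N) {k : ℝ}
    {D : Set ℂ} (hD : MeasurableSet D) (hDC : D ⊆ Cb)
    {u u₁ : ℂ → ℝ} {G G' G₁ : ℂ → ℂ} (hs : Sob N u G) (hG' : MemLp G' 2 (volume.restrict N))
    (hL : Loc N k D G') {η : ℂ → ℝ} (hη : IsTest η) (hηN : tsupport η ⊆ N)
    (hη1 : ∀ z ∈ Cb, η =ᶠ[𝓝 z] fun _ => 1)
    (hu : ∀ᵐ z ∂volume.restrict (N \ Cb), u z = u₁ z)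
    (hG : ∀ᵐ z ∂volume.restrict (N \ Cb), G z = G₁ z)
    (hGG' : ∀ᵐ z ∂volume.restrict (N \ Cb), G' z = G₁ z) :
    ∫ z in Cb, cond k D z * inner ℝ (G z) (G' z) =
      -∫ z in N \ Cb, (η z * inner ℝ (G₁ z) (G₁ z) + u₁ z * fderiv ℝ η z (G₁ z)) := by
  have h0 := MONO_test hN hD hs hG' hL hη hηN
  have hηc : Continuous η := hη.1.continuous
  have hfd : Continuous (fun z => fderiv ℝ η z) := hη.1.continuous_fderiv (by simp)
  have hfdv : ∀ v : ℂ, Continuous (fun z => fderiv ℝ η z v) := fun v =>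
    hfd.clm_apply continuous_const
  obtain ⟨Cη, hCη⟩ := hη.2.exists_bound_of_continuous hηc
  have hcs : HasCompactSupport (fun z => fderiv ℝ η z) := hη.2.fderiv ℝ
  obtain ⟨Cg, hCg⟩ := hcs.exists_bound_of_continuous hfd
  have hcm : Measurable (cond k D) := by
    unfold cond
    exact measurable_const.add (measurable_const.mul (measurable_const.indicator hD))
  have hcb : ∀ z, ‖cond k D z‖ ≤ 1 + |k - 1| := by
    intro z
    unfold cond
    refine (norm_add_le _ _).trans ?_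
    have : ‖(k - 1) * D.indicator (fun _ => (1 : ℝ)) z‖ ≤ |k - 1| := by
      rw [norm_mul, Real.norm_eq_abs]
      by_cases hz : z ∈ D
      · simp [indicator_of_mem hz]
      · simp [indicator_of_notMem hz]
    simpa using add_le_add_right this 1
  have j1 : Integrable (fun z => inner ℝ (G z) (G' z)) (volume.restrict N) :=
    MONO_ii hs.memG hG'
  have j2 : Integrable (fun z => ‖u z‖ * ‖G' z‖) (volume.restrict N) :=
    hs.memu.norm.integrable_mul hG'.norm
  have hfdm : AEStronglyMeasurable (fun z => fderiv ℝ η z (G' z)) (volume.restrict N) := by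
    have : ∀ z, fderiv ℝ η z (G' z) = inner ℝ (MONO_gr η z) (G' z) := fun z =>
      (MONO_gr_inner η z (G' z)).symm
    simp only [this]
    have hgr : Continuous (MONO_gr η) := by
      unfold MONO_gr
      exact (Complex.continuous_ofReal.comp (hfdv 1)).add
        ((Complex.continuous_ofReal.comp (hfdv I)).mul continuous_const)
    exact hgr.aestronglyMeasurable.inner hG'.1
  have j3 : Integrable (fun z => η z * inner ℝ (G z) (G' z) + u z * fderiv ℝ η z (G' z))
      (volume.restrict N) := by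
    refine Integrable.add ?_ ?_
    · exact j1.bdd_mul hηc.aestronglyMeasurable (Eventually.of_forall hCη)
    · refine (j2.const_mul Cg).mono (hs.memu.1.mul hfdm) (Eventually.of_forall fun z => ?_)
      rw [norm_mul, norm_mul, norm_mul, norm_norm, norm_norm]
      have h1 : ‖fderiv ℝ η z (G' z)‖ ≤ Cg * ‖G' z‖ :=
        ((fderiv ℝ η z).le_opNorm _).trans
          (mul_le_mul_of_nonneg_right (hCg z) (norm_nonneg _))
      calc ‖u z‖ * ‖fderiv ℝ η z (G' z)‖ ≤ ‖u z‖ * (Cg * ‖G' z‖) :=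
            mul_le_mul_of_nonneg_left h1 (norm_nonneg _)
        _ = Cg * (‖u z‖ * ‖G' z‖) := by ring
        _ ≤ ‖Cg‖ * (‖u z‖ * ‖G' z‖) :=
            mul_le_mul_of_nonneg_right (le_abs_self _)
              (mul_nonneg (norm_nonneg _) (norm_nonneg _))
  have j4 : Integrable (fun z => cond k D z * (η z * inner ℝ (G z) (G' z)
      + u z * fderiv ℝ η z (G' z))) (volume.restrict N) :=
    j3.bdd_mul hcm.aestronglyMeasurable (Eventually.of_forall hcb)
  have hNe : N = Cb ∪ (N \ Cb) := (union_sdiff_cancel hCN).symm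
  have hsplit : ∫ z in N, cond k D z * (η z * inner ℝ (G z) (G' z) + u z * fderiv ℝ η z (G' z)) =
      (∫ z in Cb, cond k D z * (η z * inner ℝ (G z) (G' z) + u z * fderiv ℝ η z (G' z))) +
      ∫ z in N \ Cb, cond k D z * (η z * inner ℝ (G z) (G' z) + u z * fderiv ℝ η z (G' z)) := by
    conv_lhs => rw [hNe]
    exact setIntegral_union disjoint_sdiff_right (hN.measurableSet.diff hCb)
      (IntegrableOn.mono_set j4 hCN) (IntegrableOn.mono_set j4 sdiff_subset)
  have a1 : ∫ z in Cb, cond k D z * (η z * inner ℝ (G z) (G' z) + u z * fderiv ℝ η z (G' z)) =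
      ∫ z in Cb, cond k D z * inner ℝ (G z) (G' z) := by
    refine setIntegral_congr_fun hCb fun z hz => ?_
    have h1 : η z = 1 := (hη1 z hz).self_of_nhds
    have h2 : fderiv ℝ η z = 0 := by
      rw [(hη1 z hz).fderiv_eq]
      simp
    simp only [h1, h2]
    simp
  have a2 : ∫ z in N \ Cb, cond k D z * (η z * inner ℝ (G z) (G' z)
        + u z * fderiv ℝ η z (G' z)) =
      ∫ z in N \ Cb, (η z * inner ℝ (G₁ z) (G₁ z) + u₁ z * fderiv ℝ η z (G₁ z)) := by
    refine integral_congr_ae ?_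
    filter_upwards [hu, hG, hGG', ae_restrict_mem (hN.measurableSet.diff hCb)] with z b1 b2 b3 b4
    have h1 : cond k D z = 1 := by
      unfold cond
      rw [indicator_of_notMem (fun h => b4.2 (hDC h))]
      simp
    rw [h1, b1, b2, b3, one_mul]
  rw [hsplit, a1, a2] at h0
  linarith

theorem mono {k : ℝ} (hk : 0 < k) (hk1 : k ≠ 1) {c : ℂ} {ρ ρ' : ℝ} (hρ : 0 < ρ) (hρ' : ρ < ρ')
    {D₂ : Set ℂ} (hD₂ : MeasurableSet D₂) (hD₂C : D₂ ⊆ ball c ρ) {u₁ u₂ : ℂ → ℝ} {G₁ G₂ : ℂ → ℂ}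
    (hs₁ : Sob (ball c ρ') u₁ G₁) (hs₂ : Sob (ball c ρ') u₂ G₂)
    (hl₁ : Loc (ball c ρ') k (ball c ρ) G₁) (hl₂ : Loc (ball c ρ') k D₂ G₂)
    (hu : ∀ᵐ z ∂volume.restrict (ball c ρ' \ closedBall c ρ), u₁ z = u₂ z) :
    ∀ᵐ z ∂volume.restrict (ball c ρ \ D₂), G₂ z = 0 := by
  classical
  have hNo : IsOpen (ball c ρ') := isOpen_ball
  have hCm : MeasurableSet (closedBall c ρ) := isClosed_closedBall.measurableSet
  have hCN : closedBall c ρ ⊆ ball c ρ' := closedBall_subset_ball hρ'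
  have hNC : IsOpen (ball c ρ' \ closedBall c ρ) := hNo.sdiff isClosed_closedBall
  -- gradients agree outside
  have hGe : ∀ᵐ z ∂volume.restrict (ball c ρ' \ closedBall c ρ), G₁ z = G₂ z :=
    grad_unique hNC (hs₁.mono hNo hNC sdiff_subset) (hs₂.mono hNo hNC sdiff_subset) hu
  -- cut-off
  obtain ⟨r₁, hr₁, hr₁'⟩ := exists_between hρ'
  obtain ⟨r₂, hr₂, hr₂'⟩ := exists_between hr₁'
  let bmp : ContDiffBump c := ⟨r₁, r₂, hρ.trans hr₁, hr₂⟩
  have hη : IsTest (fun z => bmp z) := ⟨bmp.contDiff, bmp.hasCompactSupport⟩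
  have hηN : tsupport (fun z => bmp z) ⊆ ball c ρ' := by
    have : tsupport (fun z => bmp z) = closedBall c r₂ := bmp.tsupport_eq
    rw [this]
    exact closedBall_subset_ball hr₂'
  have hη1 : ∀ z ∈ closedBall c ρ, (fun z => bmp z) =ᶠ[𝓝 z] fun _ => 1 := by
    intro z hz
    have : ball c r₁ ∈ 𝓝 z := isOpen_ball.mem_nhds (by
      rw [mem_closedBall] at hz
      rw [mem_ball]
      exact lt_of_le_of_lt hz hr₁)
    filter_upwards [this] with w hw
    exact bmp.one_of_mem_closedBall (ball_subset_closedBall hw)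
  have hD₁ : MeasurableSet (ball c ρ) := isOpen_ball.measurableSet
  have hD₁C : ball c ρ ⊆ closedBall c ρ := ball_subset_closedBall
  have hD₂C' : D₂ ⊆ closedBall c ρ := hD₂C.trans hD₁C
  have hrefl : ∀ᵐ z ∂volume.restrict (ball c ρ' \ closedBall c ρ), G₁ z = G₁ z :=
    Eventually.of_forall fun _ => rfl
  have hrefu : ∀ᵐ z ∂volume.restrict (ball c ρ' \ closedBall c ρ), u₁ z = u₁ z :=
    Eventually.of_forall fun _ => rfl
  have hGe' : ∀ᵐ z ∂volume.restrict (ball c ρ' \ closedBall c ρ), G₂ z = G₁ z := by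
    filter_upwards [hGe] with z hz using hz.symm
  have hu' : ∀ᵐ z ∂volume.restrict (ball c ρ' \ closedBall c ρ), u₂ z = u₁ z := by
    filter_upwards [hu] with z hz using hz.symm
  have ea := MONO_split hNo hCm hCN hD₁ hD₁C hs₁ hs₁.memG hl₁ hη hηN hη1 hrefu hrefl hrefl
  have eb := MONO_split hNo hCm hCN hD₂ hD₂C' hs₁ hs₂.memG hl₂ hη hηN hη1 hrefu hrefl hGe'
  have ec := MONO_split hNo hCm hCN hD₁ hD₁C hs₂ hs₁.memG hl₁ hη hηN hη1 hu' hGe' hrefl
  have ed := MONO_split hNo hCm hCN hD₂ hD₂C' hs₂ hs₂.memG hl₂ hη hηN hη1 hu' hGe' hGe'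
  -- pass to the open disk
  have hae : (closedBall c ρ : Set ℂ) =ᵐ[volume] ball c ρ := by
    have h0 : volume (closedBall c ρ \ ball c ρ) = 0 := by
      rw [closedBall_sdiff_ball]
      exact Measure.addHaar_sphere _ _ _
    exact (ae_eq_set.2 ⟨h0, by rw [sdiff_eq_empty.2 ball_subset_closedBall]; exact measure_empty⟩)
  have hsplit : ∀ {k' : ℝ} {D : Set ℂ} (P : ℂ → ℝ),
      ∫ z in closedBall c ρ, cond k' D z * P z = ∫ z in ball c ρ, cond k' D z * P z :=
    fun P => setIntegral_congr_set hae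
  rw [hsplit] at ea eb ec ed
  have hBN : ball c ρ ⊆ ball c ρ' := ball_subset_ball hρ'.le
  have hI : ∀ G G' : ℂ → ℂ, MemLp G 2 (volume.restrict (ball c ρ')) →
      MemLp G' 2 (volume.restrict (ball c ρ')) → ∀ S ⊆ ball c ρ,
      IntegrableOn (fun z => inner ℝ (G z) (G' z)) S := fun G G' h h' S hS =>
    IntegrableOn.mono_set (show IntegrableOn (fun z => inner ℝ (G z) (G' z)) (ball c ρ') volume from MONO_ii h h')
      (hS.trans hBN)
  have hBe : ball c ρ = D₂ ∪ (ball c ρ \ D₂) := (union_sdiff_cancel hD₂C).symm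
  have hd : MeasurableSet (ball c ρ \ D₂) := hD₁.diff hD₂
  -- the values on the two parts
  have v1 : ∀ G G' : ℂ → ℂ, MemLp G 2 (volume.restrict (ball c ρ')) →
      MemLp G' 2 (volume.restrict (ball c ρ')) →
      ∫ z in ball c ρ, cond k (ball c ρ) z * inner ℝ (G z) (G' z) =
        k * (∫ z in D₂, inner ℝ (G z) (G' z)) + k * ∫ z in ball c ρ \ D₂, inner ℝ (G z) (G' z) := by
    intro G G' h h'
    have h1 : ∫ z in ball c ρ, cond k (ball c ρ) z * inner ℝ (G z) (G' z) =
        ∫ z in ball c ρ, k * inner ℝ (G z) (G' z) := by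
      refine setIntegral_congr_fun hD₁ fun z hz => ?_
      have : cond k (ball c ρ) z = k := by
        unfold cond
        rw [indicator_of_mem hz]
        ring
      simp only [this]
    rw [h1, integral_const_mul]
    conv_lhs => rw [hBe]
    rw [setIntegral_union disjoint_sdiff_right hd (hI G G' h h' _ hD₂C)
      (hI G G' h h' _ sdiff_subset)]
    ring
  have v2 : ∀ G G' : ℂ → ℂ, MemLp G 2 (volume.restrict (ball c ρ')) →
      MemLp G' 2 (volume.restrict (ball c ρ')) →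
      ∫ z in ball c ρ, cond k D₂ z * inner ℝ (G z) (G' z) =
        k * (∫ z in D₂, inner ℝ (G z) (G' z)) + ∫ z in ball c ρ \ D₂, inner ℝ (G z) (G' z) := by
    intro G G' h h'
    have c1 : ∀ z ∈ D₂, cond k D₂ z * inner ℝ (G z) (G' z) = k * inner ℝ (G z) (G' z) := by
      intro z hz
      unfold cond
      rw [indicator_of_mem hz]
      ring
    have c2 : ∀ z ∈ ball c ρ \ D₂, cond k D₂ z * inner ℝ (G z) (G' z) =
        inner ℝ (G z) (G' z) := by
      intro z hz
      unfold cond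
      rw [indicator_of_notMem hz.2]
      ring
    have I1 : IntegrableOn (fun z => cond k D₂ z * inner ℝ (G z) (G' z)) D₂ :=
      IntegrableOn.congr_fun (show IntegrableOn (fun z => k * inner ℝ (G z) (G' z)) D₂ volume from
        (hI G G' h h' _ hD₂C).const_mul k) (fun z hz => (c1 z hz).symm) hD₂
    have I2 : IntegrableOn (fun z => cond k D₂ z * inner ℝ (G z) (G' z)) (ball c ρ \ D₂) :=
      (hI G G' h h' _ sdiff_subset).congr_fun (fun z hz => (c2 z hz).symm) hd
    conv_lhs => rw [hBe]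
    rw [setIntegral_union disjoint_sdiff_right hd I1 I2,
      setIntegral_congr_fun hD₂ c1, setIntegral_congr_fun hd c2, integral_const_mul]
  rw [v1 _ _ hs₁.memG hs₁.memG] at ea
  rw [v2 _ _ hs₁.memG hs₂.memG] at eb
  rw [v1 _ _ hs₂.memG hs₁.memG] at ec
  rw [v2 _ _ hs₂.memG hs₂.memG] at ed
  have hcomm : ∀ S : Set ℂ, ∫ z in S, inner ℝ (G₂ z) (G₁ z) = ∫ z in S, inner ℝ (G₁ z) (G₂ z) :=
    fun S => integral_congr_ae (Eventually.of_forall fun z => real_inner_comm _ _)
  rw [hcomm, hcomm] at ec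
  -- the square of the difference on `D₂`
  have hsq : 0 ≤ (∫ z in D₂, inner ℝ (G₂ z) (G₂ z)) - 2 * (∫ z in D₂, inner ℝ (G₁ z) (G₂ z))
      + ∫ z in D₂, inner ℝ (G₁ z) (G₁ z) := by
    have h1 : 0 ≤ ∫ z in D₂, inner ℝ (G₂ z - G₁ z) (G₂ z - G₁ z) :=
      integral_nonneg fun z => real_inner_self_nonneg
    have h2 : ∫ z in D₂, inner ℝ (G₂ z - G₁ z) (G₂ z - G₁ z) =
        ∫ z in D₂, ((inner ℝ (G₂ z) (G₂ z) - 2 * inner ℝ (G₁ z) (G₂ z))
          + inner ℝ (G₁ z) (G₁ z)) := by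
      refine integral_congr_ae (Eventually.of_forall fun z => ?_)
      simp only [inner_sub_left, inner_sub_right]
      rw [real_inner_comm (G₁ z) (G₂ z)]
      ring
    have i1 := hI _ _ hs₂.memG hs₂.memG _ hD₂C
    have i2 := hI _ _ hs₁.memG hs₂.memG _ hD₂C
    have i3 := hI _ _ hs₁.memG hs₁.memG _ hD₂C
    have h3 : ∫ z in D₂, ((inner ℝ (G₂ z) (G₂ z) - 2 * inner ℝ (G₁ z) (G₂ z))
          + inner ℝ (G₁ z) (G₁ z)) =
        (∫ z in D₂, inner ℝ (G₂ z) (G₂ z)) - 2 * (∫ z in D₂, inner ℝ (G₁ z) (G₂ z))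
          + ∫ z in D₂, inner ℝ (G₁ z) (G₁ z) := by
      have i4 : IntegrableOn (fun z => 2 * inner ℝ (G₁ z) (G₂ z)) D₂ := i2.const_mul 2
      have i5 : IntegrableOn (fun z => inner ℝ (G₂ z) (G₂ z) - 2 * inner ℝ (G₁ z) (G₂ z)) D₂ :=
        i1.sub i4
      rw [integral_add i5 i3, integral_sub i1 i4, integral_const_mul]
    rw [h2, h3] at h1
    exact h1
  have hy : 0 ≤ ∫ z in ball c ρ \ D₂, inner ℝ (G₁ z) (G₁ z) :=
    integral_nonneg fun z => real_inner_self_nonneg
  have hss : 0 ≤ ∫ z in ball c ρ \ D₂, inner ℝ (G₂ z) (G₂ z) :=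
    integral_nonneg fun z => real_inner_self_nonneg
  -- algebra
  have hq : ∫ z in ball c ρ \ D₂, inner ℝ (G₁ z) (G₂ z) = 0 := by
    have : (k - 1) * ∫ z in ball c ρ \ D₂, inner ℝ (G₁ z) (G₂ z) = 0 := by linarith
    rcases mul_eq_zero.1 this with h | h
    · exact absurd (by linarith) hk1
    · exact h
  have hs0 : ∫ z in ball c ρ \ D₂, inner ℝ (G₂ z) (G₂ z) = 0 := by
    rw [hq] at eb ec
    have h1 := mul_nonneg hk.le hsq
    have h2 := mul_nonneg hk.le hy
    nlinarith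
  have hz0 := (setIntegral_eq_zero_iff_of_nonneg_ae
    (Eventually.of_forall fun z => real_inner_self_nonneg)
    (hI _ _ hs₂.memG hs₂.memG _ sdiff_subset)).1 hs0
  filter_upwards [hz0] with z hz
  exact inner_self_eq_zero.1 hz

end MD12

end S_MONO

section S_GRZ

/-! # GRZ: zero weak gradient and harmonic: constant

For a test function `φ` in `N` and `v`: `∫_N V * fderiv φ v = ∫_N u * fderiv φ v = -∫_N inner (G z) v * φ z = 0`.  `V` is smooth on `N`
(`HarmonicAt.analyticAt`).  Take a smooth compactly supported `η`, `η = 1` near `tsupport φ`, `tsupport η ⊆ N` (`exists_contDiff_tsupport_subset` or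
`exists_smooth_zero_one...`); `η V` (extended by `0`) is smooth with compact support; integration by parts
(`integral_mul_fderiv_eq_neg_fderiv_mul_of_integrable`): `∫_N (fderiv V z v) * φ z = 0`.  As `z ↦ fderiv ℝ V z v` is continuous on `N`:
`IsOpen.ae_eq_zero_of_integral_contDiff_smul_eq_zero` and continuity give `fderiv ℝ V z v = 0` on `N`.  So `V` is locally constant on `N`, hence constant
(`IsOpen.is_const_of_fderiv_eq_zero` / `IsPreconnected.constant`...).
-/

namespace MD12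

open Complex Metric Set Filter Topology InnerProductSpace MeasureTheory
open scoped ComplexConjugate ContDiff MeasureTheory

theorem grz_int {N : Set ℂ} (hN : IsOpen N) {h φ : ℂ → ℝ} (hh : ContinuousOn h N) (hφ : Continuous φ)
    (hc : HasCompactSupport φ) (hs : tsupport φ ⊆ N) : Integrable (fun x => h x * φ x) := by
  apply Continuous.integrable_of_hasCompactSupport
  · rw [continuous_iff_continuousAt]
    intro x
    by_cases hx : x ∈ N
    · exact (hh.continuousAt (hN.mem_nhds hx)).mul hφ.continuousAt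
    · have h1 : φ =ᶠ[𝓝 x] 0 := notMem_tsupport_iff_eventuallyEq.mp (fun h => hx (hs h))
      have h2 : (fun x => h x * φ x) =ᶠ[𝓝 x] fun _ => 0 := by
        filter_upwards [h1] with y hy
        rw [hy]; simp
      exact continuousAt_const.congr h2.symm
  · exact hc.mul_left

theorem const_of_grad_zero {N : Set ℂ} (hN : IsOpen N) (hNc : IsPreconnected N) {u : ℂ → ℝ}
    {G : ℂ → ℂ} (hS : Sob N u G) (hG : ∀ᵐ z ∂volume.restrict N, G z = 0) {V : ℂ → ℝ}
    (hV : ∀ z ∈ N, HarmonicAt V z) (hVu : ∀ᵐ z ∂volume.restrict N, V z = u z) :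
    ∀ z ∈ N, ∀ w ∈ N, V z = V w := by
  have hC2 : ContDiffOn ℝ 2 V N := fun z hz => (hV z hz).1.contDiffWithinAt
  have hC1 : ContDiffOn ℝ 1 V N := hC2.of_le (by norm_num)
  have hcont : ContinuousOn V N := hC2.continuousOn
  have hdiff : ∀ z ∈ N, DifferentiableAt ℝ V z := fun z hz => (hV z hz).1.differentiableAt (by norm_num)
  have hfd : ContinuousOn (fderiv ℝ V) N := hC1.continuousOn_fderiv_of_isOpen hN le_rfl
  have hzero : ∀ v : ℂ, ∀ z ∈ N, fderiv ℝ V z v = 0 := by
    intro v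
    have hfv : ContinuousOn (fun z => fderiv ℝ V z v) N := hfd.clm_apply continuousOn_const
    have hae : ∀ᵐ z ∂(volume : Measure ℂ), z ∈ N → fderiv ℝ V z v = 0 := by
      apply hN.ae_eq_zero_of_integral_contDiff_smul_eq_zero (hfv.locallyIntegrableOn hN.measurableSet)
      intro φ hφ1 hφ2 hφ3
      have hφc : Continuous φ := hφ1.continuous
      have hφd : Continuous (fun z => fderiv ℝ φ z v) :=
        (hφ1.continuous_fderiv (by simp)).clm_apply continuous_const
      have hφdc : HasCompactSupport (fun z => fderiv ℝ φ z v) := hφ2.fderiv_apply ℝ v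
      have hsub : tsupport (fun z => fderiv ℝ φ z v) ⊆ N := (IsTest.fd ⟨hφ1, hφ2⟩ v).2.trans hφ3
      have hparts := integral_mul_fderiv_eq_neg_fderiv_mul_of_integrable (μ := (volume : Measure ℂ)) (f := V) (g := φ) (v := v)
        (grz_int hN hfv hφc hφ2 hφ3) (grz_int hN hcont hφd hφdc hsub) (grz_int hN hcont hφc hφ2 hφ3)
        (fun x hx => hdiff x (hφ3 hx)) (fun x _ => hφ1.contDiffAt.differentiableAt (by simp))
      have hfull : ∫ z, V z * fderiv ℝ φ z v = ∫ z in N, u z * fderiv ℝ φ z v := by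
        rw [← setIntegral_eq_integral_of_forall_compl_eq_zero (s := N)]
        · apply integral_congr_ae
          filter_upwards [hVu] with z hz
          rw [hz]
        · intro z hz
          have h2 : fderiv ℝ φ z v = 0 := by
            by_contra h3
            exact hz (hsub (subset_tsupport _ h3))
          rw [h2, mul_zero]
      have hg := hS.grad φ ⟨hφ1, hφ2⟩ hφ3 v
      have hg0 : ∫ z in N, inner ℝ (G z) v * φ z = 0 := by
        rw [integral_congr_ae (g := fun _ => (0 : ℝ))]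
        · simp
        · filter_upwards [hG] with z hz
          rw [hz]; simp
      have : ∫ x, fderiv ℝ V x v * φ x = 0 := by
        rw [hfull, hg, hg0] at hparts
        linarith
      rw [← this]
      apply integral_congr_ae
      refine Eventually.of_forall fun x => ?_
      simp [mul_comm]
    intro z hz
    have h1 : (fun z => fderiv ℝ V z v) =ᵐ[volume.restrict N] fun _ => (0 : ℝ) := by
      rw [EventuallyEq, ae_restrict_iff' hN.measurableSet]
      exact hae
    exact MeasureTheory.Measure.eqOn_open_of_ae_eq h1 hN hfv continuousOn_const hz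
  intro z hz w hw
  apply hN.is_const_of_fderiv_eq_zero hNc (𝕜 := ℝ) (fun x hx => (hdiff x hx).differentiableWithinAt) _ hz hw
  intro x hx
  ext v <;> exact hzero _ x hx

end MD12

end S_GRZ

section S_FINZ

/-! # FINZ: a solution which is constant somewhere outside the disks has zero Neumann data

`Ω₀ = Ω \ ⋃ closedBall` is open and preconnected (`top2`), `V` is harmonic on it (`hR.nl.har`, `hR.mem`, `Q_disk`): `V = a` on `Ω₀` (`har_ident`).
`V = a` near every point `y` of a circle (`har_ident_closure` with `Ω₀`; `y ∈ closure Ω₀` since a small annulus outside the circle is in `Ω₀`).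
For `c ∈ s`, `h` from `hR.ins`: near `y`, inside: `κ h z = V z - γ V (R z) = (1-γ) a = κ a` (`R z → y`), `κ = 1 - γ ≠ 0`; so `h = a` on the ball (`har_ident`).
So `u = a` a.e. on `Ω` (circles are null sets, `Measure.addHaar_sphere`).
`G = 0` a.e. on `Ω`: `grad_unique` with the constant function `a`, gradient `0` (`∫_Ω a * fderiv φ z v = 0` for `tsupport φ ⊆ Ω`:
`integral_fderiv...` = 0 for compactly supported smooth functions, e.g. integration by parts against the constant `1`,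
`integral_mul_fderiv_eq_neg_fderiv_mul_of_integrable`).
So `∫_{∂Ω} g φ = 0` for all test functions; `g` is integrable (finite measure, `L²`): `ae_eq_zero_of_integral_contDiff_smul_eq_zero`.
-/

namespace MD12

open Complex Metric Set Filter Topology InnerProductSpace MeasureTheory
open scoped ComplexConjugate ContDiff MeasureTheory


/-- the integral of a derivative of a test function -/
theorem finz_int_fd {φ : ℂ → ℝ} (hφ : IsTest φ) (v : ℂ) : ∫ z, fderiv ℝ φ z v = 0 := by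
  have hd : Differentiable ℝ φ := hφ.1.differentiable (by simp)
  have hi : Integrable (fun z => fderiv ℝ φ z v) := by
    have := (hφ.fd v).1
    exact this.1.continuous.integrable_of_hasCompactSupport this.2
  have hi0 : Integrable φ := hφ.1.continuous.integrable_of_hasCompactSupport hφ.2
  have h := integral_mul_fderiv_eq_neg_fderiv_mul_of_integrable (μ := (volume : Measure ℂ))
    (f := fun _ : ℂ => (1 : ℝ)) (g := φ) (v := v) (by simp) (by simpa using hi)
    (by simpa using hi0) (fun x _ => by fun_prop) (fun x _ => hd x)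
  simpa using h

/-- constants are Sobolev functions with gradient zero -/
theorem finz_const {Ω : Set ℂ} (hΩb : Bornology.IsBounded Ω) (a : ℝ) :
    Sob Ω (fun _ => a) (fun _ => 0) := by
  have : IsFiniteMeasure (volume.restrict Ω) := ⟨by
    rw [Measure.restrict_apply_univ]
    exact hΩb.measure_lt_top⟩
  refine ⟨memLp_const a, MemLp.zero', ?_⟩
  intro φ hφ hφN v
  have h1 : ∫ z in Ω, a * fderiv ℝ φ z v = ∫ z in univ, a * fderiv ℝ φ z v := by
    refine pdb_sub isOpen_univ (subset_univ _) (fun z hz => ?_)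
    rw [pdb_fd0 (fun h' => hz (hφN h')), mul_zero]
  rw [h1, Measure.restrict_univ, integral_const_mul, finz_int_fd hφ v]
  simp

/-- the reflection fixes the rightmost point of the circle and is continuous there -/
theorem finz_rfl (c : ℂ) {ρ : ℝ} (hρ : 0 < ρ) :
    Tendsto (rfl12 c ρ) (𝓝 (c + ρ)) (𝓝 (c + ρ)) := by
  have h0 : (ρ : ℂ) ≠ 0 := by exact_mod_cast hρ.ne'
  have h1 : ContinuousAt (rfl12 c ρ) (c + ρ) := by
    unfold rfl12
    refine ContinuousAt.add continuousAt_const (ContinuousAt.div continuousAt_const ?_ ?_)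
    · exact (Complex.continuous_conj.comp (continuous_id.sub continuous_const)).continuousAt
    · simp [h0]
  have h2 : rfl12 c ρ (c + ρ) = c + ρ := by
    unfold rfl12
    have h3 : c + (ρ : ℂ) - c = ρ := by ring
    rw [h3, Complex.conj_ofReal]
    field_simp
  have h4 := h1.tendsto
  rwa [h2] at h4

theorem finz {Ω : Set ℂ} (hΩo : IsOpen Ω) (hΩb : Bornology.IsBounded Ω) (hΩc : IsPreconnected Ω)
    (hσ : μH[1] (frontier Ω) < ⊤) {k : ℝ} (hk : 0 < k) {s : Finset (ℂ × ℝ)} (hs : MDisk Ω s)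
    {g u : ℂ → ℝ} {G : ℂ → ℂ} (hg : MemLp g 2 (μH[1].restrict (frontier Ω)))
    (hsol : Solves Ω k (uni s) g u G) {V : ℂ → ℝ} {I : Finset GD}
    (hR : Rep ((1 - k) / (1 + k)) (2 * k / (1 + k)) Ω s u V I) {z₀ : ℂ} (hz₀ : z₀ ∈ Ω)
    (hz₀' : ∀ c ∈ s, z₀ ∉ closedBall c.1 c.2) {a : ℝ} (hV : V =ᶠ[𝓝 z₀] fun _ => a) :
    g =ᵐ[μH[1].restrict (frontier Ω)] 0 := by
  classical
  set E : Set ℂ := ⋃ c ∈ s, closedBall c.1 c.2 with hE
  have hEc : IsClosed E := isClosed_biUnion_finset fun c _ => isClosed_closedBall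
  have hΩ₀ : IsOpen (Ω \ E) := hΩo.sdiff hEc
  have hpre : IsPreconnected (Ω \ E) := top2 hΩo hΩc s hs.pos hs.sub hs.dis
  have hk1 : (1 + k) ≠ 0 := by positivity
  have hκ : 2 * k / (1 + k) ≠ 0 := by positivity
  have hγκ : 1 - (1 - k) / (1 + k) = 2 * k / (1 + k) := by
    field_simp
    ring
  -- `V` is harmonic outside the open disks
  have hhar : ∀ z ∈ Ω, (∀ c ∈ s, c.2 ≤ ‖z - c.1‖) → HarmonicAt V z := by
    intro z hz hzs
    refine hR.nl.har z (mem_univ z) (fun h => h hz) (fun C hC => ?_)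
    obtain ⟨c, hc, hcp, rfl⟩ := (hR.mem C).1 hC
    rw [Q_disk]
    have h1 := hzs c hc
    nlinarith
  have hz₀E : z₀ ∈ Ω \ E := by
    refine ⟨hz₀, fun h => ?_⟩
    simp only [hE, mem_iUnion] at h
    obtain ⟨c, hc, hzc⟩ := h
    exact hz₀' c hc hzc
  have hnot : ∀ z ∉ E, ∀ c ∈ s, c.2 ≤ ‖z - c.1‖ := by
    intro z hz c hc
    by_contra hcon
    push Not at hcon
    apply hz
    simp only [hE, mem_iUnion]
    refine ⟨c, hc, ?_⟩
    rw [mem_closedBall, dist_eq_norm]
    exact hcon.le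
  have hΩV : ∀ z ∈ Ω \ E, V =ᶠ[𝓝 z] fun _ => a :=
    har_ident hpre (fun z hz => hhar z hz.1 (hnot z hz.2)) (fun z _ => harmonicAt_const a) hz₀E hV
  -- near the circles
  have hcirc : ∀ c ∈ s, ∀ y ∈ sphere c.1 c.2, V =ᶠ[𝓝 y] fun _ => a := by
    intro c hc y hy
    have hcp := hs.pos c hc
    have hyc : y ∈ closedBall c.1 c.2 := sphere_subset_closedBall hy
    have hyΩ : y ∈ Ω := hs.sub c hc hyc
    have hother : ∀ c' ∈ s, c' ≠ c → y ∉ closedBall c'.1 c'.2 := by
      intro c' hc' hne hy'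
      exact Set.disjoint_left.1 (hs.dis c' hc' c hc hne) hy' hyc
    have hVh : HarmonicAt V y := by
      refine hhar y hyΩ (fun c' hc' => ?_)
      by_cases hcc : c' = c
      · rw [hcc]
        have : dist y c.1 = c.2 := hy
        rw [dist_eq_norm] at this
        exact this.ge
      · have h1 := hother c' hc' hcc
        rw [mem_closedBall, dist_eq_norm, not_le] at h1
        exact h1.le
    have hO : ∀ᶠ z in 𝓝 y, z ∈ Ω ∧ ∀ c' ∈ s, c' ≠ c → z ∉ closedBall c'.1 c'.2 := by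
      have hO1 : ∀ᶠ z in 𝓝 y, z ∈ Ω := hΩo.mem_nhds hyΩ
      refine hO1.and ?_
      rw [Filter.eventually_all_finset]
      intro c' hc'
      by_cases hcc : c' = c
      · exact Filter.Eventually.of_forall fun z h => absurd hcc h
      · filter_upwards [isClosed_closedBall.isOpen_compl.mem_nhds (hother c' hc' hcc)] with z hz _
        exact hz
    have hcl : y ∈ closure (Ω \ E) := by
      rw [mem_closure_iff_frequently]
      have h1 : y ∈ closure (closedBall c.1 c.2)ᶜ := by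
        have h2 : y ∈ frontier (closedBall c.1 c.2) := by
          rw [frontier_closedBall _ hcp.ne']
          exact hy
        rw [frontier_eq_closure_inter_closure] at h2
        exact h2.2
      rw [mem_closure_iff_frequently] at h1
      refine (h1.and_eventually hO).mono ?_
      rintro z ⟨hz1, hz2, hz3⟩
      refine ⟨hz2, fun h => ?_⟩
      simp only [hE, mem_iUnion] at h
      obtain ⟨c', hc', hzc⟩ := h
      by_cases hcc : c' = c
      · rw [hcc] at hzc
        exact hz1 hzc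
      · exact hz3 c' hc' hcc hzc
    refine har_ident_closure hΩ₀ hcl hVh (harmonicAt_const a) ?_
    exact Filter.Eventually.of_forall fun z hz => (hΩV z hz).self_of_nhds
  -- `u = a` on the disks
  have hball : ∀ c ∈ s, ∀ᵐ z ∂volume.restrict (ball c.1 c.2), u z = a := by
    intro c hc
    have hcp := hs.pos c hc
    obtain ⟨h, hh, hhu, hht⟩ := hR.ins c hc
    set y : ℂ := c.1 + c.2 with hy
    have hys : y ∈ sphere c.1 c.2 := by
      rw [mem_sphere, dist_eq_norm, hy]
      simp [abs_of_pos hcp]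
    have h1 := hht y hys
    have h2 := hcirc c hc y hys
    have h3 : ∀ᶠ z in 𝓝 y, V (rfl12 c.1 c.2 z) = a := (finz_rfl c.1 hcp).eventually h2
    have h4 : ∀ᶠ z in 𝓝 y, z ∈ ball c.1 c.2 → h z = a := by
      filter_upwards [h1, h2, h3] with z e1 e2 e3 hz
      have e4 := e1 hz
      rw [e2, e3] at e4
      have e5 : 2 * k / (1 + k) * h z = 2 * k / (1 + k) * a := by
        rw [← e4, ← hγκ]
        ring
      exact mul_left_cancel₀ hκ e5
    have h5 : y ∈ closure (ball c.1 c.2) := by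
      rw [closure_ball _ hcp.ne']
      exact sphere_subset_closedBall hys
    rw [mem_closure_iff_frequently] at h5
    obtain ⟨z₁, hz1, hz2⟩ := (h5.and_eventually h4.eventually_nhds).exists
    have h6 : h =ᶠ[𝓝 z₁] fun _ => a := by
      filter_upwards [hz2, isOpen_ball.mem_nhds hz1] with z e1 e2
      exact e1 e2
    have h7 := har_ident (convex_ball c.1 c.2).isPreconnected hh
      (fun z _ => harmonicAt_const a) hz1 h6
    have h8 : ∀ᵐ z ∂volume.restrict (ball c.1 c.2), z ∈ ball c.1 c.2 :=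
      ae_restrict_mem measurableSet_ball
    filter_upwards [hhu, h8] with z e1 e2
    rw [← e1]
    exact (h7 z e2).self_of_nhds
  have hu : ∀ᵐ z ∂volume.restrict Ω, u z = a := by
    rw [ae_restrict_iff' hΩo.measurableSet]
    have h1 : ∀ᵐ z ∂(volume : Measure ℂ), z ∈ Ω \ E → u z = a := by
      have h2 := (ae_restrict_iff' hΩ₀.measurableSet).1 hR.out
      filter_upwards [h2] with z e1 e2
      rw [← e1 e2]
      exact (hΩV z e2).self_of_nhds
    have h3 : ∀ᵐ z ∂(volume : Measure ℂ), ∀ c ∈ s, (z ∈ ball c.1 c.2 → u z = a) ∧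
        z ∉ sphere c.1 c.2 := by
      rw [Filter.eventually_all_finset]
      intro c hc
      refine ((ae_restrict_iff' measurableSet_ball).1 (hball c hc)).and ?_
      have h4 := Measure.addHaar_sphere (volume : Measure ℂ) c.1 c.2
      exact measure_eq_zero_iff_ae_notMem.1 h4
    filter_upwards [h1, h3] with z e1 e2 hz
    by_cases hzE : z ∈ E
    · simp only [hE, mem_iUnion] at hzE
      obtain ⟨c, hc, hzc⟩ := hzE
      have e3 := e2 c hc
      refine e3.1 ?_
      rw [mem_ball]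
      rcases (mem_closedBall.1 hzc).lt_or_eq with h | h
      · exact h
      · exact absurd h e3.2
    · exact e1 ⟨hz, hzE⟩
  have hG : ∀ᵐ z ∂volume.restrict Ω, G z = 0 :=
    grad_unique hΩo hsol.sob (finz_const hΩb a) hu
  -- the Neumann data
  have : IsFiniteMeasure (μH[1].restrict (frontier Ω)) := ⟨by
    rw [Measure.restrict_apply_univ]
    exact hσ⟩
  have hgi : Integrable g (μH[1].restrict (frontier Ω)) := hg.integrable one_le_two
  refine ae_eq_zero_of_integral_contDiff_smul_eq_zero hgi.locallyIntegrable ?_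
  intro φ hφ1 hφ2
  have h1 := hsol.eq φ ⟨hφ1, hφ2⟩
  have h2 : ∫ z in Ω, cond k (uni s) z * fderiv ℝ φ z (G z) = 0 := by
    rw [integral_congr_ae (g := fun _ => (0 : ℝ)) ?_]
    · simp
    · filter_upwards [hG] with z hz
      rw [hz]
      simp
  rw [h2] at h1
  rw [h1]
  refine integral_congr_ae (Filter.Eventually.of_forall fun z => ?_)
  simp only [smul_eq_mul]
  ring

end MD12

end S_FINZ

section S_BR2

/-! # BR2: the branch with a clean outer disk (assembly, helper12) -/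

namespace MD12

open Complex Metric Set Filter Topology InnerProductSpace MeasureTheory
open scoped ComplexConjugate ContDiff MeasureTheory

theorem Rep.pos_iff {γ κ : ℝ} {Ω : Set ℂ} {s : Finset (ℂ × ℝ)} {u V : ℂ → ℝ} {I : Finset GD}
    (hR : Rep γ κ Ω s u V I) (hs : MDisk Ω s) (z : ℂ) :
    (∀ C ∈ I, 0 < C.Q z) ↔ ∀ c ∈ s, z ∉ closedBall c.1 c.2 := by
  constructor
  · intro h c hc hz
    have hp := hs.pos c hc
    have h1 := h (disk c.1 c.2 hp) ((hR.mem _).mpr ⟨c, hc, hp, rfl⟩)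
    rw [Q_disk] at h1
    rw [mem_closedBall, dist_eq_norm] at hz
    nlinarith [norm_nonneg (z - c.1)]
  · intro h C hC
    obtain ⟨c, hc, hp, rfl⟩ := (hR.mem C).mp hC
    have h1 := h c hc
    rw [mem_closedBall, dist_eq_norm, not_le] at h1
    rw [Q_disk]
    nlinarith

theorem Rep.har {γ κ : ℝ} {Ω : Set ℂ} {s : Finset (ℂ × ℝ)} {u V : ℂ → ℝ} {I : Finset GD}
    (hR : Rep γ κ Ω s u V I) {z : ℂ} (hz : z ∈ Ω) (hzs : ∀ c ∈ s, z ∉ ball c.1 c.2) :
    HarmonicAt V z := by
  refine hR.nl.har z (mem_univ _) (fun h => h hz) ?_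
  intro C hC
  obtain ⟨c, hc, hp, rfl⟩ := (hR.mem C).mp hC
  have h1 := hzs c hc
  rw [mem_ball, dist_eq_norm, not_lt] at h1
  rw [Q_disk]
  nlinarith

theorem isOpen_compl_balls (s : Finset (ℂ × ℝ)) : IsOpen (⋃ c ∈ s, closedBall c.1 c.2)ᶜ := by
  rw [isOpen_compl_iff]
  exact s.finite_toSet.isClosed_biUnion fun c _ => isClosed_closedBall

theorem br2 {Ω : Set ℂ} (hΩo : IsOpen Ω) (hΩb : Bornology.IsBounded Ω) (hΩc : IsPreconnected Ω)
    (hσ : μH[1] (frontier Ω) < ⊤) {k : ℝ} (hk : 0 < k) (hk1 : k ≠ 1) {s s' : Finset (ℂ × ℝ)}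
    (hs : MDisk Ω s) (hs' : MDisk Ω s') {g u u' : ℂ → ℝ} {G G' : ℂ → ℂ}
    (hg : MemLp g 2 (μH[1].restrict (frontier Ω)))
    (hsol : Solves Ω k (uni s) g u G) (hsol' : Solves Ω k (uni s') g u' G') {V V' : ℂ → ℝ}
    {I I' : Finset GD} (hR : Rep ((1 - k) / (1 + k)) (2 * k / (1 + k)) Ω s u V I)
    (hR' : Rep ((1 - k) / (1 + k)) (2 * k / (1 + k)) Ω s' u' V' I') {W : Set ℂ} (hWo : IsOpen W)
    (hW : ∀ c ∈ s, Disjoint W (closedBall c.1 c.2))
    (hW' : ∀ c ∈ s', Disjoint W (closedBall c.1 c.2))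
    (hVV : ∀ z ∈ W ∩ Ω, V z = V' z) (huu : ∀ᵐ z ∂volume.restrict (W ∩ Ω), u z = u' z)
    {c : ℂ × ℝ} (hc : c ∈ s) (hO : Outer W c s') : g =ᵐ[μH[1].restrict (frontier Ω)] 0 := by
  obtain ⟨⟨r', hr', hann⟩, hcl⟩ := hO
  have hcp := hs.pos c hc
  -- shrink the radius into `Ω`
  obtain ⟨δ, hδ, hδΩ⟩ := (isCompact_closedBall c.1 c.2).exists_thickening_subset_open hΩo
    (hs.sub c hc)
  set ρ' : ℝ := min r' (c.2 + δ) with hρ'def
  have hρ' : c.2 < ρ' := lt_min hr' (by linarith)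
  have hballΩ : ball c.1 ρ' ⊆ Ω := by
    intro z hz
    apply hδΩ
    rw [thickening_closedBall hδ hcp.le]
    rw [mem_ball] at hz ⊢
    exact hz.trans_le ((min_le_right _ _).trans (by rw [add_comm]))
  have hannW : ∀ z, z ∈ ball c.1 ρ' \ closedBall c.1 c.2 → z ∈ W ∩ Ω := by
    rintro z ⟨hz1, hz2⟩
    refine ⟨hann z ?_ ?_, hballΩ hz1⟩
    · rwa [mem_closedBall, not_le] at hz2
    · exact (mem_ball.mp hz1).trans_le (min_le_left _ _)
  -- the disks of `s'` inside `c`
  classical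
  set t : Finset (ℂ × ℝ) := s'.filter fun c' => closedBall c'.1 c'.2 ⊆ ball c.1 c.2 with htdef
  have ht : ∀ c' ∈ t, c' ∈ s' ∧ closedBall c'.1 c'.2 ⊆ ball c.1 c.2 := fun c' hc' =>
    Finset.mem_filter.mp hc'
  have hDsub : uni t ⊆ ball c.1 c.2 := by
    unfold uni
    exact iUnion₂_subset fun c' hc' => ball_subset_closedBall.trans (ht c' hc').2
  have hDm : MeasurableSet (uni t) := by
    unfold uni
    exact Finset.measurableSet_biUnion _ fun c' _ => measurableSet_ball
  -- disks disjoint from the ball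
  have hfar : ∀ c' : ℂ × ℝ, closedBall c'.1 c'.2 ∩ closedBall c.1 c.2 = ∅ →
      Disjoint W (closedBall c'.1 c'.2) → Disjoint (closedBall c'.1 c'.2) (ball c.1 ρ') := by
    intro c' h1 h2
    rw [Set.disjoint_left]
    intro z hz hz'
    by_cases hzc : z ∈ closedBall c.1 c.2
    · have : z ∈ closedBall c'.1 c'.2 ∩ closedBall c.1 c.2 := ⟨hz, hzc⟩
      rw [h1] at this
      exact this
    · exact Set.disjoint_left.mp h2 (hannW z ⟨hz', hzc⟩).1 hz
  have huni' : uni s' ∩ ball c.1 ρ' = uni t ∩ ball c.1 ρ' := by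
    apply Subset.antisymm
    · rintro z ⟨hz, hzN⟩
      refine ⟨?_, hzN⟩
      unfold uni at hz ⊢
      obtain ⟨c', hc', hz'⟩ := mem_iUnion₂.mp hz
      rcases hcl c' hc' with h3 | h3
      · exact mem_iUnion₂.mpr ⟨c', Finset.mem_filter.mpr ⟨hc', h3⟩, hz'⟩
      · exact absurd hzN (Set.disjoint_left.mp
          (hfar c' (Set.disjoint_iff_inter_eq_empty.mp h3) (hW' c' hc'))
          (ball_subset_closedBall hz'))
    · rintro z ⟨hz, hzN⟩
      refine ⟨?_, hzN⟩
      unfold uni at hz ⊢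
      obtain ⟨c', hc', hz'⟩ := mem_iUnion₂.mp hz
      exact mem_iUnion₂.mpr ⟨c', (ht c' hc').1, hz'⟩
  have huni : uni s ∩ ball c.1 ρ' = ball c.1 c.2 ∩ ball c.1 ρ' := by
    apply Subset.antisymm
    · rintro z ⟨hz, hzN⟩
      refine ⟨?_, hzN⟩
      unfold uni at hz
      obtain ⟨c', hc', hz'⟩ := mem_iUnion₂.mp hz
      by_cases hcc : c' = c
      · rw [← hcc]; exact hz'
      · exact absurd hzN (Set.disjoint_left.mp
          (hfar c' (Set.disjoint_iff_inter_eq_empty.mp (hs.dis c' hc' c hc hcc)) (hW c' hc'))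
          (ball_subset_closedBall hz'))
    · rintro z ⟨hz, hzN⟩
      refine ⟨?_, hzN⟩
      unfold uni
      exact mem_iUnion₂.mpr ⟨c, hc, hz⟩
  -- the energy argument
  have hbo : IsOpen (ball c.1 ρ') := isOpen_ball
  have hmono := mono hk hk1 hcp hρ' hDm hDsub
    (hsol.sob.mono hΩo hbo hballΩ) (hsol'.sob.mono hΩo hbo hballΩ)
    (((hsol.loc hΩo).mono hΩo hbo hballΩ).congr hbo huni)
    (((hsol'.loc hΩo).mono hΩo hbo hballΩ).congr hbo huni')
    (ae_restrict_of_ae_restrict_of_subset hannW huu)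
  -- `V'` is constant on `O = ball \ closed disks of t`
  set O : Set ℂ := ball c.1 c.2 \ ⋃ c' ∈ t, closedBall c'.1 c'.2 with hOdef
  have hOo : IsOpen O := isOpen_ball.inter (isOpen_compl_balls t)
  have hOc : IsPreconnected O := top2 isOpen_ball (convex_ball c.1 c.2).isPreconnected t
    (fun c' hc' => hs'.pos c' (ht c' hc').1) (fun c' hc' => (ht c' hc').2)
    (fun a ha b hb hab => hs'.dis a (ht a ha).1 b (ht b hb).1 hab)
  have hOΩ : O ⊆ Ω := fun z hz => hs.sub c hc (ball_subset_closedBall hz.1)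
  have hOs' : ∀ z ∈ O, ∀ c' ∈ s', z ∉ closedBall c'.1 c'.2 := by
    intro z hz c' hc' hz'
    rcases hcl c' hc' with h3 | h3
    · exact hz.2 (mem_iUnion₂.mpr ⟨c', Finset.mem_filter.mpr ⟨hc', h3⟩, hz'⟩)
    · exact Set.disjoint_left.mp h3 hz' (ball_subset_closedBall hz.1)
  have hconst := const_of_grad_zero hOo hOc (hsol'.sob.mono hΩo hOo hOΩ)
    (G := G') (V := V') (by
      refine ae_restrict_of_ae_restrict_of_subset ?_ hmono
      intro z hz
      refine ⟨hz.1, ?_⟩
      intro hzD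
      unfold uni at hzD
      obtain ⟨c', hc', hz'⟩ := mem_iUnion₂.mp hzD
      exact hz.2 (mem_iUnion₂.mpr ⟨c', hc', ball_subset_closedBall hz'⟩))
    (fun z hz => hR'.har (hOΩ hz) fun c' hc' h => hOs' z hz c' hc' (ball_subset_closedBall h))
    (by
      refine ae_restrict_of_ae_restrict_of_subset ?_ hR'.out
      intro z hz
      refine ⟨hOΩ hz, ?_⟩
      intro h
      obtain ⟨c', hc', hz'⟩ := mem_iUnion₂.mp h
      exact hOs' z hz c' hc' hz')
  -- a point of the circle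
  set y : ℂ := c.1 + c.2 with hydef
  have hyn : ‖y - c.1‖ = c.2 := by
    rw [hydef, add_sub_cancel_left, Complex.norm_real, Real.norm_eq_abs, abs_of_pos hcp]
  have hyc : y ∈ closedBall c.1 c.2 := by
    rw [mem_closedBall, dist_eq_norm, hyn]
  have hyΩ : y ∈ Ω := hs.sub c hc hyc
  have hys' : ∀ c' ∈ s', y ∉ closedBall c'.1 c'.2 := by
    intro c' hc' hy
    rcases hcl c' hc' with h3 | h3
    · have := h3 hy
      rw [mem_ball, dist_eq_norm, hyn] at this
      exact lt_irrefl _ this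
    · exact Set.disjoint_left.mp h3 hy hyc
  have hV'y : HarmonicAt V' y := hR'.har hyΩ fun c' hc' h => hys' c' hc' (ball_subset_closedBall h)
  have hyO : y ∈ closure O := by
    have h4 : y ∈ closure (ball c.1 c.2) := by
      rw [closure_ball c.1 hcp.ne']
      exact hyc
    have h5 : (⋃ c' ∈ t, closedBall c'.1 c'.2)ᶜ ∈ 𝓝 y := by
      refine (isOpen_compl_balls t).mem_nhds ?_
      intro h
      obtain ⟨c', hc', hz'⟩ := mem_iUnion₂.mp h
      exact hys' c' (ht c' hc').1 hz'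
    rw [mem_closure_iff_nhds] at h4 ⊢
    intro U hU
    obtain ⟨z, ⟨hz1, hz2⟩, hz3⟩ := h4 (U ∩ (⋃ c' ∈ t, closedBall c'.1 c'.2)ᶜ)
      (inter_mem hU h5)
    exact ⟨z, hz1, hz3, hz2⟩
  obtain ⟨z₁, hz₁⟩ : O.Nonempty := closure_nonempty_iff.mp ⟨y, hyO⟩
  have hV'c : V' =ᶠ[𝓝 y] fun _ => V' z₁ := by
    refine har_ident_closure hOo hyO hV'y (har_const _ _) ?_
    exact Eventually.of_forall fun z hz => hconst z hz z₁ hz₁
  -- a point outside near `y`
  obtain ⟨ε, hε, hball⟩ := Metric.eventually_nhds_iff_ball.mp hV'c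
  set τ : ℝ := min (ε / 2) ((ρ' - c.2) / 2) with hτ
  have hτ0 : 0 < τ := lt_min (by linarith) (by linarith)
  set z₂ : ℂ := c.1 + ((c.2 + τ : ℝ) : ℂ) with hz₂def
  have hz₂n : ‖z₂ - c.1‖ = c.2 + τ := by
    rw [hz₂def, add_sub_cancel_left, Complex.norm_real, Real.norm_eq_abs,
      abs_of_pos (by linarith)]
  have hz₂N : z₂ ∈ ball c.1 ρ' \ closedBall c.1 c.2 := by
    constructor
    · rw [mem_ball, dist_eq_norm, hz₂n]
      have := min_le_right (ε / 2) ((ρ' - c.2) / 2)
      linarith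
    · rw [mem_closedBall, dist_eq_norm, hz₂n]
      linarith
  have hz₂W := hannW z₂ hz₂N
  have hz₂y : z₂ ∈ ball y ε := by
    rw [mem_ball, dist_eq_norm]
    have : z₂ - y = (τ : ℂ) := by
      rw [hz₂def, hydef]
      push_cast
      ring
    rw [this, Complex.norm_real, Real.norm_eq_abs, abs_of_pos hτ0]
    have := min_le_left (ε / 2) ((ρ' - c.2) / 2)
    linarith
  have hVz₂ : V =ᶠ[𝓝 z₂] fun _ => V' z₁ := by
    filter_upwards [isOpen_ball.mem_nhds hz₂y, (hWo.inter hΩo).mem_nhds hz₂W] with z hz1 hz2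
    rw [hVV z hz2]
    exact hball z hz1
  exact finz hΩo hΩb hΩc hσ hk hs hg hsol hR hz₂W.2
    (fun c' hc' h => Set.disjoint_left.mp (hW c' hc') hz₂W.1 h) hVz₂

end MD12

end S_BR2

section S_FIN

/-! # FIN: uniqueness for multiple disks with one measurement (assembly, helper12) -/

namespace MD12

open Complex Metric Set Filter Topology InnerProductSpace MeasureTheory
open scoped ComplexConjugate ContDiff MeasureTheory

/-- two different circles: a point of the first which is not on the second -/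
theorem exists_sphere_diff {c c' : ℂ × ℝ} (hc : 0 < c.2) (hne : c ≠ c') :
    ∃ z, ‖z - c.1‖ = c.2 ∧ ‖z - c'.1‖ ^ 2 - c'.2 ^ 2 ≠ 0 ∨ c'.2 < 0 := by
  by_contra hcon
  push Not at hcon
  have key : ∀ w : ℂ, ‖w‖ = 1 → ‖c.1 + c.2 * w - c'.1‖ ^ 2 = c'.2 ^ 2 := by
    intro w hw
    have h1 := (hcon (c.1 + c.2 * w)).1 (by
      rw [add_sub_cancel_left, norm_mul, hw, Complex.norm_real, Real.norm_eq_abs, abs_of_pos hc,
        mul_one])
    linarith
  have hc' : 0 ≤ c'.2 := (hcon 0).2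
  have e1 := key 1 (by simp)
  have e2 := key (-1) (by simp)
  have e3 := key I (by simp)
  have e4 := key (-I) (by simp)
  simp only [← Complex.normSq_eq_norm_sq, Complex.normSq_apply, Complex.add_re, Complex.add_im,
    Complex.mul_re, Complex.mul_im, Complex.ofReal_re, Complex.ofReal_im, Complex.sub_re,
    Complex.sub_im, Complex.neg_re, Complex.neg_im, Complex.one_re, Complex.one_im, Complex.I_re,
    Complex.I_im] at e1 e2 e3 e4
  have h5 : c.1.re = c'.1.re := by
    have : c.2 * (c.1.re - c'.1.re) = 0 := by nlinarith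
    rcases mul_eq_zero.mp this with h | h
    · exact absurd h hc.ne'
    · linarith
  have h6 : c.1.im = c'.1.im := by
    have : c.2 * (c.1.im - c'.1.im) = 0 := by nlinarith
    rcases mul_eq_zero.mp this with h | h
    · exact absurd h hc.ne'
    · linarith
  have h7 : c.1 = c'.1 := Complex.ext h5 h6
  have h8 : c.2 ^ 2 = c'.2 ^ 2 := by rw [h5, h6] at e1; nlinarith
  have h9 : c.2 = c'.2 := (sq_eq_sq₀ hc.le hc').mp h8
  exact hne (Prod.ext h7 h9)

/-- the branch with a common point of two different circles on the boundary of `W` -/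
theorem br1 {Ω : Set ℂ} (hΩo : IsOpen Ω) (hΩb : Bornology.IsBounded Ω) (hΩc : IsPreconnected Ω)
    (hσ : μH[1] (frontier Ω) < ⊤) {k : ℝ} (hk : 0 < k) (hk1 : k ≠ 1) {s s' : Finset (ℂ × ℝ)}
    (hs : MDisk Ω s) (hs' : MDisk Ω s') {g u u' : ℂ → ℝ} {G : ℂ → ℂ}
    (hg : MemLp g 2 (μH[1].restrict (frontier Ω)))
    (hsol : Solves Ω k (uni s) g u G) {V V' : ℂ → ℝ}
    {I I' : Finset GD} (hR : Rep ((1 - k) / (1 + k)) (2 * k / (1 + k)) Ω s u V I)
    (hR' : Rep ((1 - k) / (1 + k)) (2 * k / (1 + k)) Ω s' u' V' I') {W : Set ℂ} (hWo : IsOpen W)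
    (hWc : IsPreconnected W) (hWK : Ωᶜ ⊆ W) (hWΩ : IsPreconnected (W ∩ Ω))
    (hWinf : ∀ᶠ w in 𝓝[≠] (0 : ℂ), w⁻¹ ∈ W)
    (hinf : ∀ᶠ w in 𝓝[≠] (0 : ℂ), w⁻¹ ∉ Ω)
    (hW : ∀ c ∈ s, Disjoint W (closedBall c.1 c.2))
    (hW' : ∀ c ∈ s', Disjoint W (closedBall c.1 c.2))
    (hVV : ∀ z ∈ W ∩ Ω, V z = V' z) {x : ℂ} (hx : x ∈ closure W) {c c' : ℂ × ℝ} (hc : c ∈ s)
    (hc' : c' ∈ s') (hxc : x ∈ sphere c.1 c.2) (hxc' : x ∈ sphere c'.1 c'.2) (hne : c ≠ c') :
    g =ᵐ[μH[1].restrict (frontier Ω)] 0 := by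
  have hk1' : (0 : ℝ) < 1 + k := by linarith
  have hγ0 : (1 - k) / (1 + k) ≠ 0 := div_ne_zero (sub_ne_zero.mpr (Ne.symm hk1)) hk1'.ne'
  have hγ1 : |(1 - k) / (1 + k)| < 1 := by
    rw [abs_div, abs_of_pos hk1', div_lt_one hk1', abs_lt]
    constructor <;> linarith
  have hκ : 2 * k / (1 + k) = 1 - (1 - k) / (1 + k) := by
    field_simp
    ring
  have hcp := hs.pos c hc
  have hcp' := hs'.pos c' hc'
  have hxΩ : x ∈ Ω := hs.sub c hc (sphere_subset_closedBall hxc)
  have ha₁ : ∀ C ∈ I, 0 < C.a := by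
    intro C hC
    obtain ⟨_, _, _, rfl⟩ := (hR.mem C).mp hC
    exact one_pos
  have ha₂ : ∀ C ∈ I', 0 < C.a := by
    intro C hC
    obtain ⟨_, _, _, rfl⟩ := (hR'.mem C).mp hC
    exact one_pos
  have hWI : ∀ z ∈ W, ∀ C ∈ I, 0 < C.Q z := fun z hz =>
    (hR.pos_iff hs z).mpr fun c hc h => Set.disjoint_left.mp (hW c hc) hz h
  have hWI' : ∀ z ∈ W, ∀ C ∈ I', 0 < C.Q z := fun z hz =>
    (hR'.pos_iff hs' z).mpr fun c hc h => Set.disjoint_left.mp (hW' c hc) hz h
  rw [mem_sphere, dist_eq_norm] at hxc hxc'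
  obtain ⟨U, hU, ⟨gi, hgi, hgi'⟩, hUV⟩ := propA hγ0 hγ1 hΩo.isClosed_compl hR.nl hR'.nl ha₁ ha₂
    hWo hWc hWinf hWI hWI' (fun z hz hzK => hVV z ⟨hz, not_not.mp hzK⟩) hx
    (A := disk c.1 c.2 hcp) (B := disk c'.1 c'.2 hcp')
    ((hR.mem _).mpr ⟨c, hc, hcp, rfl⟩) ((hR'.mem _).mpr ⟨c', hc', hcp', rfl⟩)
    (by rw [Q_disk, hxc]; ring) (by rw [Q_disk, hxc']; ring) (by
      obtain ⟨z, hz⟩ := exists_sphere_diff hcp hne
      rcases hz with ⟨hz1, hz2⟩ | hz
      · refine ⟨z, ?_, ?_⟩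
        · rw [Q_disk, hz1]; ring
        · rwa [Q_disk]
      · exact absurd hz (not_lt.mpr hcp'.le))
  -- `U = V` on `W ∩ Ω`
  have hVh : ∀ z ∈ W ∩ Ω, HarmonicAt V z := fun z hz =>
    hR.har hz.2 fun c hc h => Set.disjoint_left.mp (hW c hc) hz.1 (ball_subset_closedBall h)
  obtain ⟨w, hwU, hwW, hwΩ⟩ : ∃ w, U =ᶠ[𝓝 w] V ∧ w ∈ W ∧ w ∈ Ω := by
    rw [mem_closure_iff_frequently] at hx
    obtain ⟨w, h1, h2, h3⟩ :=
      (hx.and_eventually (hUV.eventually_nhds.and (hΩo.mem_nhds hxΩ))).exists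
    exact ⟨w, h2, h1, h3⟩
  have hUVall : ∀ z ∈ W ∩ Ω, U =ᶠ[𝓝 z] V :=
    har_ident hWΩ (fun z hz => hU z hz.1) hVh ⟨hwW, hwΩ⟩ hwU
  classical
  set Vt : ℂ → ℝ := fun z => if z ∈ Ω then V z else U z with hVtdef
  have hVtΩ : ∀ z ∈ Ω, Vt =ᶠ[𝓝 z] V := by
    intro z hz
    filter_upwards [hΩo.mem_nhds hz] with y hy
    simp only [hVtdef, if_pos hy]
  have hVtW : ∀ z ∈ W, Vt =ᶠ[𝓝 z] U := by
    intro z hz
    filter_upwards [hWo.mem_nhds hz] with y hy
    by_cases hyΩ : y ∈ Ω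
    · simp only [hVtdef, if_pos hyΩ]
      exact (hUVall y ⟨hy, hyΩ⟩).self_of_nhds.symm
    · simp only [hVtdef, if_neg hyΩ]
  have hIΩ : ∀ C ∈ I, ∀ y, C.Q y ≤ 0 → y ∈ Ω := by
    intro C hC y hy
    by_contra hyΩ
    have := hR.nl.disK C hC y (mem_univ _) hyΩ
    linarith
  have hNt : NL ((1 - k) / (1 + k)) (2 * k / (1 + k)) univ ∅ Vt I :=
    { dis := hR.nl.dis
      disK := fun C hC z _ hz => absurd hz (notMem_empty z)
      har := by
        intro z _ _ hz
        by_cases hzΩ : z ∈ Ω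
        · exact har_congr (hR.nl.har z (mem_univ _) (fun h => h hzΩ) hz) (hVtΩ z hzΩ).symm
        · exact har_congr (hU z (hWK hzΩ)) (hVtW z (hWK hzΩ)).symm
      ts := by
        intro C hC
        obtain ⟨h, hh, hh'⟩ := hR.nl.ts C hC
        refine ⟨h, hh, ?_⟩
        intro y hy hQy
        have hyΩ : y ∈ Ω := hIΩ C hC y hQy.le
        have h1 := hVtΩ y hyΩ
        have h2 : ∀ᶠ z in 𝓝 y, Vt (C.R z) = V (C.R z) := by
          have h3 : Tendsto C.R (𝓝 y) (𝓝 y) := by
            have := (C.continuousAt_R (C.den_ne_of_Q_zero hQy)).tendsto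
            rwa [C.R_of_Q_zero hQy] at this
          exact h3.eventually h1
        filter_upwards [h1, h2, hh' y hy hQy] with z hz1 hz2 hz3 hzQ
        rw [hz1, hz2]
        exact hz3 hzQ }
  have hinft : ∃ g : ℂ → ℝ, HarmonicAt g 0 ∧ ∀ᶠ w in 𝓝[≠] (0 : ℂ), Vt w⁻¹ = g w := by
    refine ⟨gi, hgi, ?_⟩
    filter_upwards [hgi', hinf] with ζ h1 h2
    rw [← h1]
    simp only [hVtdef, if_neg h2]
  obtain ⟨z₀, a, hz₀, hz₀'⟩ := maxp hγ1 hκ hNt ha₁ hinft
  -- `Vt = a` outside the closed disks of `s`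
  have hpre : IsPreconnected ((univ : Set ℂ) \ ⋃ c ∈ s, closedBall c.1 c.2) :=
    top2 isOpen_univ isPreconnected_univ s hs.pos (fun c _ => subset_univ _) hs.dis
  have hz₀s := (hR.pos_iff hs z₀).mp hz₀
  have hall := har_ident hpre (f := Vt) (g := fun _ => a)
    (fun z hz => by
      refine hNt.har z (mem_univ _) (notMem_empty z) ?_
      have h4 : ∀ c ∈ s, z ∉ closedBall c.1 c.2 := fun c hc h =>
        hz.2 (mem_iUnion₂.mpr ⟨c, hc, h⟩)
      exact fun C hC => ((hR.pos_iff hs z).mpr h4 C hC).le)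
    (fun z _ => har_const a z)
    (x := z₀) ⟨mem_univ _, fun h => by
      obtain ⟨c, hc, hz⟩ := mem_iUnion₂.mp h
      exact hz₀s c hc hz⟩ hz₀'
  have hws : ∀ c ∈ s, w ∉ closedBall c.1 c.2 := fun c hc h =>
    Set.disjoint_left.mp (hW c hc) hwW h
  have hw := hall w ⟨mem_univ _, fun h => by
      obtain ⟨c, hc, hz⟩ := mem_iUnion₂.mp h
      exact hws c hc hz⟩
  exact finz hΩo hΩb hΩc hσ hk hs hg hsol hR hwΩ hws ((hVtΩ w hwΩ).symm.trans hw)

theorem mainMD {Ω : Set ℂ} (hΩo : IsOpen Ω) (hΩb : Bornology.IsBounded Ω) (hΩc : IsConnected Ω)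
    (hΩs : IsConnected Ωᶜ) (hσ : μH[1] (frontier Ω) < ⊤) {k : ℝ} (hk : 0 < k) (hk1 : k ≠ 1)
    {s₁ s₂ : Finset (ℂ × ℝ)} (hs₁ : MDisk Ω s₁) (hs₂ : MDisk Ω s₂) {g : ℂ → ℝ}
    (hg : MemLp g 2 (μH[1].restrict (frontier Ω)))
    (hg0 : ¬ g =ᵐ[μH[1].restrict (frontier Ω)] 0) {u₁ u₂ : ℂ → ℝ} {G₁ G₂ : ℂ → ℂ}
    (h₁ : Solves Ω k (uni s₁) g u₁ G₁) (h₂ : Solves Ω k (uni s₂) g u₂ G₂)
    (ht : SameTrace Ω u₁ u₂ G₁ G₂) : uni s₁ = uni s₂ := by
  by_contra hne
  apply hg0
  obtain ⟨V₁, I₁, hR₁⟩ := pdea hΩo hk hs₁ h₁.sob (h₁.loc hΩo)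
  obtain ⟨V₂, I₂, hR₂⟩ := pdea hΩo hk hs₂ h₂.sob (h₂.loc hΩo)
  set E : Set ℂ := (⋃ c ∈ s₁, closedBall c.1 c.2) ∪ ⋃ c ∈ s₂, closedBall c.1 c.2 with hE
  have hEc : IsClosed E := (s₁.finite_toSet.isClosed_biUnion fun c _ => isClosed_closedBall).union
    (s₂.finite_toSet.isClosed_biUnion fun c _ => isClosed_closedBall)
  have hEΩ : E ⊆ Ω := by
    rintro z (hz | hz)
    · obtain ⟨c, hc, hz'⟩ := mem_iUnion₂.mp hz
      exact hs₁.sub c hc hz'
    · obtain ⟨c, hc, hz'⟩ := mem_iUnion₂.mp hz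
      exact hs₂.sub c hc hz'
  obtain ⟨zi, hzi⟩ := hΩs.nonempty
  have hKE : Ωᶜ ⊆ Eᶜ := compl_subset_compl.mpr hEΩ
  set W : Set ℂ := connectedComponentIn Eᶜ zi with hWdef
  have hWo : IsOpen W := hEc.isOpen_compl.connectedComponentIn
  have hWc : IsPreconnected W := isPreconnected_connectedComponentIn
  have hWE : W ⊆ Eᶜ := connectedComponentIn_subset _ _
  have hWK : Ωᶜ ⊆ W := hΩs.isPreconnected.subset_connectedComponentIn hzi hKE
  have hzW : zi ∈ W := hWK hzi
  have hWcl : ∀ z ∈ closure W, z ∉ E → z ∈ W := by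
    intro z hz hzE
    have h1 : IsPreconnected (insert z W) :=
      hWc.subset_closure (subset_insert _ _) (insert_subset hz subset_closure)
    exact h1.subset_connectedComponentIn (mem_insert_of_mem _ hzW)
      (insert_subset hzE hWE) (mem_insert _ _)
  have hW₁ : ∀ c ∈ s₁, Disjoint W (closedBall c.1 c.2) := fun c hc =>
    Set.disjoint_left.mpr fun z hz hz' => hWE hz (Or.inl (mem_iUnion₂.mpr ⟨c, hc, hz'⟩))
  have hW₂ : ∀ c ∈ s₂, Disjoint W (closedBall c.1 c.2) := fun c hc =>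
    Set.disjoint_left.mpr fun z hz hz' => hWE hz (Or.inr (mem_iUnion₂.mpr ⟨c, hc, hz'⟩))
  have hinf : ∀ᶠ w in 𝓝[≠] (0 : ℂ), w⁻¹ ∉ Ω := by
    obtain ⟨r, hr⟩ := hΩb.subset_closedBall 0
    rw [eventually_nhdsWithin_iff]
    have hpos : 0 < (max r 1)⁻¹ := by positivity
    filter_upwards [ball_mem_nhds (0 : ℂ) hpos] with w hw hw0 hwΩ
    have h1 := hr hwΩ
    rw [mem_closedBall_zero_iff, norm_inv] at h1
    rw [mem_ball_zero_iff] at hw
    have h2 : max r 1 < ‖w‖⁻¹ := by
      rw [lt_inv_comm₀ (by positivity) (norm_pos_iff.mpr hw0)]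
      exact hw
    exact absurd (h1.trans (le_max_left r 1)) (not_le.mpr h2)
  have hWinf : ∀ᶠ w in 𝓝[≠] (0 : ℂ), w⁻¹ ∈ W := hinf.mono fun w hw => hWK hw
  have hWΩ : IsPreconnected (W ∩ Ω) := by
    refine top1 hWo hΩo hWc hΩc.isPreconnected ?_
    rw [eq_univ_iff_forall]
    intro z
    by_cases hz : z ∈ Ω
    · exact Or.inr hz
    · exact Or.inl (hWK hz)
  have huu : ∀ᵐ z ∂volume.restrict (W ∩ Ω), u₁ z = u₂ z :=
    zex hΩo hΩb h₁ h₂ ht hWo hWc hWK hW₁ hW₂
  have hVV : ∀ z ∈ W ∩ Ω, V₁ z = V₂ z := by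
    have hV₁ : ∀ z ∈ W ∩ Ω, HarmonicAt V₁ z := fun z hz =>
      hR₁.har hz.2 fun c hc h => Set.disjoint_left.mp (hW₁ c hc) hz.1 (ball_subset_closedBall h)
    have hV₂ : ∀ z ∈ W ∩ Ω, HarmonicAt V₂ z := fun z hz =>
      hR₂.har hz.2 fun c hc h => Set.disjoint_left.mp (hW₂ c hc) hz.1 (ball_subset_closedBall h)
    refine eq_of_ae (hWo.inter hΩo) (fun z hz => har_continuousAt (hV₁ z hz))
      (fun z hz => har_continuousAt (hV₂ z hz)) ?_
    have e1 := ae_restrict_of_ae_restrict_of_subset (s := W ∩ Ω) (fun z hz =>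
      (⟨hz.2, fun h => by
        obtain ⟨c, hc, hz'⟩ := mem_iUnion₂.mp h
        exact Set.disjoint_left.mp (hW₁ c hc) hz.1 hz'⟩ :
          z ∈ Ω \ ⋃ c ∈ s₁, closedBall c.1 c.2)) hR₁.out
    have e2 := ae_restrict_of_ae_restrict_of_subset (s := W ∩ Ω) (fun z hz =>
      (⟨hz.2, fun h => by
        obtain ⟨c, hc, hz'⟩ := mem_iUnion₂.mp h
        exact Set.disjoint_left.mp (hW₂ c hc) hz.1 hz'⟩ :
          z ∈ Ω \ ⋃ c ∈ s₂, closedBall c.1 c.2)) hR₂.out
    filter_upwards [huu, e1, e2] with z h3 h4 h5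
    rw [h4, h5, h3]
  by_cases hx : ∃ x ∈ closure W, ∃ c ∈ s₁, ∃ c' ∈ s₂, x ∈ sphere c.1 c.2 ∧
      x ∈ sphere c'.1 c'.2 ∧ c ≠ c'
  · obtain ⟨x, hx, c, hc, c', hc', hxc, hxc', hcc⟩ := hx
    exact br1 hΩo hΩb hΩc.isPreconnected hσ hk hk1 hs₁ hs₂ hg h₁ hR₁ hR₂ hWo hWc hWK hWΩ hWinf
      hinf hW₁ hW₂ hVV hx hc hc' hxc hxc' hcc
  · push Not at hx
    rcases top3 hs₁.pos hs₂.pos hs₁.dis hs₂.dis hWo ⟨zi, hzW⟩ hW₁ hW₂
      (fun z hz h3 h4 => hWcl z hz (by
        rintro (h | h)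
        · obtain ⟨c, hc, hz'⟩ := mem_iUnion₂.mp h
          exact h3 c hc hz'
        · obtain ⟨c, hc, hz'⟩ := mem_iUnion₂.mp h
          exact h4 c hc hz'))
      (fun x hx' c hc c' hc' h5 h6 => hx x hx' c hc c' hc' h5 h6) with h | ⟨c, hc, hO⟩ | ⟨c, hc, hO⟩
    · exact absurd (by rw [h]) hne
    · exact br2 hΩo hΩb hΩc.isPreconnected hσ hk hk1 hs₁ hs₂ hg h₁ h₂ hR₁ hR₂ hWo hW₁ hW₂ hVV
        huu hc hO
    · exact br2 hΩo hΩb hΩc.isPreconnected hσ hk hk1 hs₂ hs₁ hg h₂ h₁ hR₂ hR₁ hWo hW₂ hW₁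
        (fun z hz => (hVV z hz).symm) (huu.mono fun z hz => hz.symm) hc hO

end MD12

end S_FIN
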